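import Mathlib

/-! # C01: lengths of powers of an ideal, heights and independent values -/

set_option autoImplicit false

namespace Pool.Agent.LUM

universe u

theorem length_step {S : Type u} [CommRing S] (I' I J : Ideal S) (e : S)
    (hle : I' ≤ I) (hI : I ≤ I' ⊔ Ideal.span {e}) (hJ : ∀ a ∈ J, a * e ∈ I') :
    Module.length S (S ⧸ I') ≤ Module.length S (S ⧸ J) + Module.length S (S ⧸ I) := by
  let g : (S ⧸ I') →ₗ[S] (S ⧸ I) := Submodule.factor hle
  have hg : Function.Surjective g := Submodule.factor_surjective hle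
  rw [Module.length_eq_add_of_exact (LinearMap.ker g).subtype g (Submodule.subtype_injective _) hg
    (LinearMap.exact_subtype_ker_map g)]
  refine add_le_add_left ?_ _
  let φ : S →ₗ[S] (S ⧸ I') := (Submodule.mkQ I').comp (LinearMap.toSpanSingleton S S e)
  have hφ : ∀ a, φ a = Submodule.Quotient.mk (a * e) := fun a => rfl
  have hJφ : J ≤ LinearMap.ker φ := by
    intro a ha
    rw [LinearMap.mem_ker, hφ, Submodule.Quotient.mk_eq_zero]
    exact hJ a ha
  let ψ : (S ⧸ J) →ₗ[S] (S ⧸ I') := Submodule.liftQ J φ hJφ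
  have hker : LinearMap.ker g ≤ LinearMap.range ψ := by
    intro z hz
    obtain ⟨a, rfl⟩ := Submodule.mkQ_surjective I' z
    have h1 : a ∈ I := by
      rw [LinearMap.mem_ker] at hz
      exact (Submodule.Quotient.mk_eq_zero I).1 hz
    obtain ⟨b, hb, c, hc, rfl⟩ := Submodule.mem_sup.1 (hI h1)
    obtain ⟨d, rfl⟩ := Ideal.mem_span_singleton'.1 hc
    refine ⟨Submodule.Quotient.mk d, ?_⟩
    change φ d = Submodule.Quotient.mk (b + d * e)
    rw [hφ, Submodule.Quotient.eq]
    have : d * e - (b + d * e) = -b := by ring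
    rw [this]
    exact I'.neg_mem hb
  calc Module.length S (LinearMap.ker g) ≤ Module.length S (LinearMap.range ψ) :=
        Module.length_le_of_injective (Submodule.inclusion hker) (Submodule.inclusion_injective _)
    _ ≤ Module.length S (S ⧸ J) :=
        Module.length_le_of_surjective ψ.rangeRestrict ψ.surjective_rangeRestrict

theorem length_pow_le {S : Type u} [CommRing S] [IsNoetherianRing S] {d : ℕ} (f : Fin d → S)
    (l : ℕ) (hl : Module.length S (S ⧸ Ideal.span (Set.range f)) ≤ l) (M : ℕ) (hM : 1 ≤ M) :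
    Module.length S (S ⧸ (Ideal.span (Set.range f)) ^ M) ≤ ((l * M ^ d : ℕ) : ℕ∞) := by
  classical
  set J := Ideal.span (Set.range f) with hJ
  let mo : (Fin d → ℕ) → S := fun a => ∏ i, f i ^ a i
  have hfJ : ∀ i, f i ∈ J := fun i => Ideal.subset_span ⟨i, rfl⟩
  have hmo : ∀ a : Fin d → ℕ, mo a ∈ J ^ (∑ i, a i) := by
    intro a
    rw [← Finset.prod_pow_eq_pow_sum]
    exact Ideal.prod_mem_prod fun i _ => Ideal.pow_mem_pow (hfJ i) _
  have hmul : ∀ (a : Fin d → ℕ) (i : Fin d), f i * mo a = mo (a + Pi.single i 1) := by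
    intro a i
    have h1 : mo (a + Pi.single i 1) = mo a * ∏ j, f j ^ (Pi.single i 1 : Fin d → ℕ) j := by
      simp only [mo, Pi.add_apply, pow_add, Finset.prod_mul_distrib]
    rw [h1, mul_comm]
    congr 1
    rw [Finset.prod_eq_single i]
    · rw [Pi.single_eq_same, pow_one]
    · intro j _ hj
      rw [Pi.single_eq_of_ne hj, pow_zero]
    · intro h
      exact absurd (Finset.mem_univ i) h
  have hdeg : ∀ (a : Fin d → ℕ) (i : Fin d),
      ∑ j, (a + Pi.single i 1 : Fin d → ℕ) j = ∑ j, a j + 1 := by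
    intro a i
    simp only [Pi.add_apply, Finset.sum_add_distrib]
    congr 1
    rw [Finset.sum_eq_single i]
    · rw [Pi.single_eq_same]
    · intro j _ hj
      rw [Pi.single_eq_of_ne hj]
    · intro h
      exact absurd (Finset.mem_univ i) h
  -- the chain
  have key : ∀ (n : ℕ) (s : Finset (Fin d → ℕ)), s.card = n →
      (∀ a ∈ s, ∀ i : Fin d, ∑ j, a j + 1 < M → a + Pi.single i 1 ∈ s) →
      Module.length S (S ⧸ J ^ M) ≤
        ((l * n : ℕ) : ℕ∞) + Module.length S (S ⧸ (J ^ M ⊔ Ideal.span (mo '' (s : Set (Fin d → ℕ))))) := by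
    intro n
    induction n with
    | zero =>
      intro s hs _
      rw [Finset.card_eq_zero] at hs
      subst hs
      rw [Finset.coe_empty, Set.image_empty, Ideal.span_empty, sup_bot_eq, mul_zero,
        Nat.cast_zero, zero_add]
    | succ n ih =>
      intro s hs hup
      have hne : s.Nonempty := Finset.card_pos.1 (by omega)
      obtain ⟨a, ha, hmin⟩ := Finset.exists_min_image s (fun a => ∑ j, a j) hne
      have hcard : (s.erase a).card = n := by rw [Finset.card_erase_of_mem ha, hs]; rfl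
      have h1 := ih (s.erase a) hcard (by
        intro b hb i hi
        refine Finset.mem_erase.2 ⟨?_, hup b (Finset.mem_of_mem_erase hb) i hi⟩
        intro h0
        have h2 := hmin b (Finset.mem_of_mem_erase hb)
        have h3 := hdeg b i
        rw [h0] at h3
        omega)
      refine h1.trans ?_
      have h2 := length_step (J ^ M ⊔ Ideal.span (mo '' ((s.erase a : Finset (Fin d → ℕ)) :
          Set (Fin d → ℕ)))) (J ^ M ⊔ Ideal.span (mo '' (s : Set (Fin d → ℕ)))) J (mo a) ?_ ?_ ?_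
      · calc ((l * n : ℕ) : ℕ∞) + _ ≤ ((l * n : ℕ) : ℕ∞) + (Module.length S (S ⧸ J) +
              Module.length S (S ⧸ (J ^ M ⊔ Ideal.span (mo '' (s : Set (Fin d → ℕ)))))) :=
              add_le_add_right h2 _
          _ ≤ ((l * n : ℕ) : ℕ∞) + ((l : ℕ∞) +
              Module.length S (S ⧸ (J ^ M ⊔ Ideal.span (mo '' (s : Set (Fin d → ℕ)))))) :=
              add_le_add_right (add_le_add_left hl _) _
          _ = _ := by
              rw [← add_assoc]
              congr 1
      · exact sup_le_sup_left (Ideal.span_mono (Set.image_mono (by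
          rw [Finset.coe_erase]; exact Set.sdiff_subset))) _
      · refine sup_le (le_sup_left.trans le_sup_left) ?_
        rw [Ideal.span_le]
        rintro _ ⟨b, hb, rfl⟩
        by_cases hba : b = a
        · rw [hba]
          exact Ideal.mem_sup_right (Ideal.mem_span_singleton_self _)
        · refine Ideal.mem_sup_left (Ideal.mem_sup_right (Ideal.subset_span ⟨b, ?_, rfl⟩))
          exact Finset.mem_coe.2 (Finset.mem_erase.2 ⟨hba, hb⟩)
      · intro z hz
        rw [hJ] at hz
        induction hz using Submodule.span_induction with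
        | mem z hz =>
          obtain ⟨i, rfl⟩ := hz
          rw [hmul]
          by_cases hlt : ∑ j, a j + 1 < M
          · refine Ideal.mem_sup_right (Ideal.subset_span ⟨_, ?_, rfl⟩)
            refine Finset.mem_coe.2 (Finset.mem_erase.2 ⟨?_, hup a ha i hlt⟩)
            intro h0
            have h3 := hdeg a i
            rw [h0] at h3
            omega
          · refine Ideal.mem_sup_left (Ideal.pow_le_pow_right ?_ (hmo _))
            rw [hdeg]
            omega
        | zero => rw [zero_mul]; exact Ideal.zero_mem _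
        | add x y _ _ hx hy => rw [add_mul]; exact Ideal.add_mem _ hx hy
        | smul c x _ hx => rw [smul_eq_mul, mul_assoc]; exact Ideal.mul_mem_left _ _ hx
  let s : Finset (Fin d → ℕ) := (Fintype.piFinset fun _ : Fin d => Finset.range M).filter
    fun a => ∑ j, a j < M
  have h1 := key s.card s rfl (by
    intro a ha i hi
    rw [Finset.mem_filter, Fintype.mem_piFinset] at ha ⊢
    refine ⟨fun j => Finset.mem_range.2 ?_, by rw [hdeg]; exact hi⟩
    have h2 := Finset.single_le_sum (f := (a + Pi.single i 1 : Fin d → ℕ))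
      (fun j _ => Nat.zero_le _) (Finset.mem_univ j)
    rw [hdeg] at h2
    omega)
  have h2 : J ^ M ⊔ Ideal.span (mo '' (s : Set (Fin d → ℕ))) = ⊤ := by
    rw [Ideal.eq_top_iff_one]
    refine Ideal.mem_sup_right (Ideal.subset_span ⟨0, ?_, ?_⟩)
    · refine Finset.mem_coe.2 (Finset.mem_filter.2 ⟨?_, ?_⟩)
      · rw [Fintype.mem_piFinset]
        intro j
        exact Finset.mem_range.2 (by simpa using Nat.pos_of_ne_zero (by omega))
      · simpa using Nat.pos_of_ne_zero (by omega)
    · simp [mo]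
  rw [h2] at h1
  have h3 : Module.length S (S ⧸ (⊤ : Ideal S)) = 0 := by
    have : Subsingleton (S ⧸ (⊤ : Ideal S)) := Ideal.Quotient.subsingleton_iff.2 rfl
    exact Module.length_eq_zero
  rw [h3, add_zero] at h1
  refine h1.trans ?_
  have h4 : s.card ≤ M ^ d := by
    refine (Finset.card_filter_le _ _).trans ?_
    rw [Fintype.card_piFinset]
    simp
  exact_mod_cast Nat.mul_le_mul_left l h4

/-- A strictly decreasing chain of ideals bounds the length from below. -/
theorem length_ge_of_chain {S : Type u} [CommRing S] (κ : S → ℝ)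
    (hadd : ∀ a b : S, a ≠ 0 → b ≠ 0 → a + b ≠ 0 → min (κ a) (κ b) ≤ κ (a + b))
    (hmul : ∀ a b : S, a ≠ 0 → b ≠ 0 → a * b ≠ 0 → κ b ≤ κ (a * b))
    (A : Ideal S) (c : ℝ) (hA : ∀ z ∈ A, z ≠ 0 → c ≤ κ z) (E : Finset S)
    (hE : ∀ x ∈ E, x ≠ 0 ∧ κ x < c) (hinj : Set.InjOn κ (E : Set S)) :
    ((E.card : ℕ) : ℕ∞) ≤ Module.length S (S ⧸ A) := by
  classical
  rw [Module.length_quotient]
  obtain ⟨n, hn⟩ : ∃ n, E.card = n := ⟨_, rfl⟩
  rw [hn]
  induction n generalizing A c E with
  | zero => rw [Nat.cast_zero]; exact zero_le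
  | succ n ih =>
    have hne : E.Nonempty := Finset.card_pos.1 (by omega)
    obtain ⟨e, he, hmax⟩ := Finset.exists_max_image E κ hne
    have hcard : (E.erase e).card = n := by rw [Finset.card_erase_of_mem he, hn]; rfl
    have h1 := ih (A ⊔ Ideal.span {e}) (κ e) ?_ (E.erase e) ?_ ?_ hcard
    · have h2 : A < A ⊔ Ideal.span {e} := by
        refine lt_of_le_of_ne le_sup_left fun h0 => ?_
        have h3 : e ∈ A := by
          rw [h0]
          exact Ideal.mem_sup_right (Ideal.mem_span_singleton_self e)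
        exact absurd (hA e h3 (hE e he).1) (not_le.2 (hE e he).2)
      rw [Nat.cast_succ]
      exact (add_le_add_left h1 1).trans (Order.coheight_add_one_le h2)
    · intro z hz hz0
      obtain ⟨a, ha, b, hb, rfl⟩ := Submodule.mem_sup.1 hz
      obtain ⟨s, rfl⟩ := Ideal.mem_span_singleton'.1 hb
      have hs : s * e ≠ 0 → κ e ≤ κ (s * e) := fun h0 =>
        hmul s e (left_ne_zero_of_mul h0) (hE e he).1 h0
      by_cases ha0 : a = 0
      · rw [ha0, zero_add] at hz0 ⊢
        exact hs hz0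
      · by_cases hb0 : s * e = 0
        · rw [hb0, add_zero]
          exact (hE e he).2.le.trans (hA a ha ha0)
        · refine le_trans (le_min ?_ (hs hb0)) (hadd a (s * e) ha0 hb0 hz0)
          exact (hE e he).2.le.trans (hA a ha ha0)
    · intro x hx
      have hx' := Finset.mem_of_mem_erase hx
      refine ⟨(hE x hx').1, lt_of_le_of_ne (hmax x hx') fun h0 => ?_⟩
      exact Finset.ne_of_mem_erase hx (hinj hx' he h0)
    · exact hinj.mono (by rw [Finset.coe_erase]; exact Set.sdiff_subset)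

/-- The ideal of the elements of value at least `c`. -/
def lvl {S : Type u} [CommRing S] [IsDomain S] (κ : S → ℝ)
    (hadd : ∀ a b : S, a ≠ 0 → b ≠ 0 → a + b ≠ 0 → min (κ a) (κ b) ≤ κ (a + b))
    (hmul : ∀ a b : S, a ≠ 0 → b ≠ 0 → κ (a * b) = κ a + κ b) (hnn : ∀ a : S, a ≠ 0 → 0 ≤ κ a)
    (c : ℝ) : Ideal S where
  carrier := {z | z ≠ 0 → c ≤ κ z}
  zero_mem' := fun h => absurd rfl h
  add_mem' := by
    intro a b ha hb h0
    by_cases ha0 : a = 0
    · rw [ha0, zero_add] at h0 ⊢; exact hb h0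
    by_cases hb0 : b = 0
    · rw [hb0, add_zero] at h0 ⊢; exact ha h0
    exact (le_min (ha ha0) (hb hb0)).trans (hadd a b ha0 hb0 h0)
  smul_mem' := by
    intro a b hb h0
    rw [smul_eq_mul] at h0 ⊢
    have ha0 := left_ne_zero_of_mul h0
    have hb0 := right_ne_zero_of_mul h0
    rw [hmul a b ha0 hb0]
    have := hnn a ha0
    have := hb hb0
    linarith

/-- The local case. -/
theorem height_ge_local {S : Type u} [CommRing S] [IsDomain S] [IsNoetherianRing S]
    [IsLocalRing S] (κ : S → ℝ)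
    (hadd : ∀ a b : S, a ≠ 0 → b ≠ 0 → a + b ≠ 0 → min (κ a) (κ b) ≤ κ (a + b))
    (hmul : ∀ a b : S, a ≠ 0 → b ≠ 0 → κ (a * b) = κ a + κ b) (hnn : ∀ a : S, a ≠ 0 → 0 ≤ κ a)
    (hq : ∀ a : S, a ≠ 0 → (a ∈ IsLocalRing.maximalIdeal S ↔ 0 < κ a)) {r : ℕ} (x : Fin r → S)
    (hx0 : ∀ i, x i ≠ 0) (hx : ∀ i, x i ∈ IsLocalRing.maximalIdeal S)
    (hind : LinearIndependent ℚ fun i => κ (x i)) :
    (r : ℕ∞) ≤ (IsLocalRing.maximalIdeal S).height := by
  classical
  obtain ⟨s, hs, hcard⟩ :=
    (IsLocalRing.maximalIdeal S).exists_finset_card_eq_height_of_isNoetherianRing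
  rw [← hcard]
  by_contra hlt
  rw [not_le] at hlt
  have hlt' : s.card < r := by exact_mod_cast hlt
  have hκ1 : κ 1 = 0 := by
    have := hmul 1 1 one_ne_zero one_ne_zero
    rw [mul_one] at this
    linarith
  have hκpow : ∀ (a : S) (n : ℕ), a ≠ 0 → κ (a ^ n) = n * κ a := by
    intro a n ha
    induction n with
    | zero => rw [pow_zero, hκ1, Nat.cast_zero, zero_mul]
    | succ n ih =>
      rw [pow_succ, hmul _ _ (pow_ne_zero _ ha) ha, ih]
      push_cast
      ring
  have hκprod : ∀ (t : Finset (Fin r)) (a : Fin r → ℕ),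
      κ (∏ i ∈ t, x i ^ a i) = ∑ i ∈ t, (a i : ℝ) * κ (x i) := by
    intro t a
    induction t using Finset.induction_on with
    | empty => rw [Finset.prod_empty, Finset.sum_empty, hκ1]
    | insert i t hi ih =>
      rw [Finset.prod_insert hi, Finset.sum_insert hi, hmul _ _ (pow_ne_zero _ (hx0 i))
        (Finset.prod_ne_zero_iff.2 fun j _ => pow_ne_zero _ (hx0 j)), hκpow _ _ (hx0 i), ih]
  -- the parameters
  obtain ⟨d, hd⟩ : ∃ d, s.card = d := ⟨_, rfl⟩
  let e := s.equivFinOfCardEq hd
  let f : Fin d → S := fun i => (e.symm i : S)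
  have hfs : Set.range f = (s : Set S) := by
    ext z
    constructor
    · rintro ⟨i, rfl⟩; exact (e.symm i).2
    · intro hz
      exact ⟨e ⟨z, hz⟩, by simp [f]⟩
  have hart := IsLocalRing.quotient_artinian_of_mem_minimalPrimes_of_isLocalRing _ hs
  rw [← hfs] at hart hs
  set J := Ideal.span (Set.range f) with hJ
  have hJm : J ≤ IsLocalRing.maximalIdeal S := hs.1.2
  have hfin : Module.length S (S ⧸ J) ≠ ⊤ := by
    rw [Module.length_eq_of_surjective (S := S) (R := S ⧸ J) (M := S ⧸ J)
      Ideal.Quotient.mk_surjective]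
    have : IsNoetherian (S ⧸ J) (S ⧸ J) := inferInstance
    have : IsArtinian (S ⧸ J) (S ⧸ J) := hart
    exact Module.length_ne_top
  obtain ⟨l, hl⟩ := ENat.ne_top_iff_exists.1 hfin
  -- the values of the generators
  obtain ⟨ε, hε, hεf⟩ : ∃ ε : ℝ, 0 < ε ∧ J ≤ lvl κ hadd hmul hnn ε := by
    obtain ⟨ε, hε, h1⟩ : ∃ ε : ℝ, 0 < ε ∧ ∀ i, f i ≠ 0 → ε ≤ κ (f i) := by
      have hpos : ∀ i, f i ≠ 0 → 0 < κ (f i) := fun i h0 =>
        (hq (f i) h0).1 (hJm (Ideal.subset_span ⟨i, rfl⟩))
      by_cases hne : (Finset.univ.filter fun i => f i ≠ 0).Nonempty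
      · obtain ⟨i, hi, hmin⟩ := Finset.exists_min_image _ (fun i => κ (f i)) hne
        refine ⟨κ (f i), hpos i (Finset.mem_filter.1 hi).2, fun j hj => hmin j ?_⟩
        exact Finset.mem_filter.2 ⟨Finset.mem_univ j, hj⟩
      · refine ⟨1, one_pos, fun i hi => absurd ?_ hne⟩
        exact ⟨i, Finset.mem_filter.2 ⟨Finset.mem_univ i, hi⟩⟩
    refine ⟨ε, hε, ?_⟩
    rw [hJ, Ideal.span_le]
    rintro _ ⟨i, rfl⟩
    exact h1 i
  have hJpow : ∀ M : ℕ, J ^ M ≤ lvl κ hadd hmul hnn (M * ε) := by
    intro M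
    induction M with
    | zero =>
      intro z _ h0
      rw [Nat.cast_zero, zero_mul]
      exact hnn z h0
    | succ M ih =>
      rw [pow_succ]
      refine Ideal.mul_le.2 fun a ha b hb h0 => ?_
      have ha0 := left_ne_zero_of_mul h0
      have hb0 := right_ne_zero_of_mul h0
      rw [hmul a b ha0 hb0]
      have h1 := ih ha ha0
      have h2 := hεf hb hb0
      push_cast
      linarith
  -- the sum of the values
  have hr : 0 < r := by omega
  have hκx : ∀ i, 0 < κ (x i) := fun i => (hq _ (hx0 i)).1 (hx i)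
  set K := ∑ i, κ (x i) with hK
  have hKpos : 0 < K := Finset.sum_pos (fun i _ => hκx i) ⟨⟨0, hr⟩, Finset.mem_univ _⟩
  obtain ⟨m0, hm0⟩ := exists_nat_ge (K / ε)
  have hm1 : 0 < m0 := by
    have : 0 < K / ε := div_pos hKpos hε
    exact_mod_cast this.trans_le hm0
  have hm0' : K ≤ m0 * ε := by rwa [div_le_iff₀ hε] at hm0
  -- the count
  have hcount : ∀ t : ℕ, 1 ≤ t → t ^ r ≤ l * (m0 * t) ^ d := by
    intro t ht
    let mo : (Fin r → ℕ) → S := fun a => ∏ i, x i ^ a i
    have hmo0 : ∀ a, mo a ≠ 0 := fun a => Finset.prod_ne_zero_iff.2 fun i _ => pow_ne_zero _ (hx0 i)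
    have hmoκ : ∀ a, κ (mo a) = ∑ i, (a i : ℝ) * κ (x i) := fun a => hκprod Finset.univ a
    have hκinj : ∀ a b, κ (mo a) = κ (mo b) → a = b := by
      intro a b hab
      rw [hmoκ, hmoκ] at hab
      rw [Fintype.linearIndependent_iff] at hind
      have h1 := hind (fun i => (a i : ℚ) - (b i : ℚ)) (by
        have h2 : ∑ i, ((a i : ℚ) - (b i : ℚ)) • κ (x i) =
            ∑ i, (a i : ℝ) * κ (x i) - ∑ i, (b i : ℝ) * κ (x i) := by
          rw [← Finset.sum_sub_distrib]
          refine Finset.sum_congr rfl fun i _ => ?_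
          rw [Rat.smul_def]
          push_cast
          ring
        rw [h2, hab, sub_self])
      funext i
      have h2 := sub_eq_zero.1 (h1 i)
      exact_mod_cast h2
    let E : Finset S := (Fintype.piFinset fun _ : Fin r => Finset.range t).image mo
    have hEcard : E.card = t ^ r := by
      rw [Finset.card_image_of_injective _ fun a b hab => hκinj a b (by rw [hab]),
        Fintype.card_piFinset]
      simp
    have h1 := length_ge_of_chain κ hadd (fun a b ha hb _ => by
      rw [hmul a b ha hb]; have := hnn a ha; linarith) (J ^ (m0 * t)) (((m0 * t : ℕ) : ℝ) * ε)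
      (fun z hz h0 => hJpow _ hz h0) E ?_ ?_
    · have h2 := length_pow_le f l (by rw [← hJ, ← hl]) (m0 * t) (Nat.mul_pos hm1 ht)
      rw [← hJ] at h2
      have h3 := h1.trans h2
      rw [hEcard] at h3
      exact_mod_cast h3
    · intro z hz
      obtain ⟨a, ha, rfl⟩ := Finset.mem_image.1 hz
      rw [Fintype.mem_piFinset] at ha
      refine ⟨hmo0 a, ?_⟩
      rw [hmoκ]
      have h2 : ∑ i, (a i : ℝ) * κ (x i) ≤ ((t : ℝ) - 1) * K := by
        rw [hK, Finset.mul_sum]
        refine Finset.sum_le_sum fun i _ => mul_le_mul_of_nonneg_right ?_ (hκx i).le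
        have h3 := Finset.mem_range.1 (ha i)
        have h4 : (a i : ℝ) + 1 ≤ t := by exact_mod_cast h3
        linarith
      have h5 : (t : ℝ) * K ≤ t * (m0 * ε) := mul_le_mul_of_nonneg_left hm0' (Nat.cast_nonneg t)
      have h6 : (((m0 * t : ℕ) : ℝ)) * ε = t * (m0 * ε) := by push_cast; ring
      rw [h6]
      linarith
    · intro z hz w hw hzw
      obtain ⟨a, -, rfl⟩ := Finset.mem_image.1 (Finset.mem_coe.1 hz)
      obtain ⟨b, -, rfl⟩ := Finset.mem_image.1 (Finset.mem_coe.1 hw)
      rw [hκinj a b hzw]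
  -- the contradiction
  have h1 := hcount (l * m0 ^ d + 1) (by omega)
  set t := l * m0 ^ d + 1 with ht
  have h2 : t ^ (d + 1) ≤ t ^ r := Nat.pow_le_pow_right (by omega) (by omega)
  have h3 : t ^ d * t ≤ t ^ d * (l * m0 ^ d) := by
    calc t ^ d * t = t ^ (d + 1) := (pow_succ t d).symm
      _ ≤ l * (m0 * t) ^ d := h2.trans h1
      _ = t ^ d * (l * m0 ^ d) := by rw [mul_pow]; ring
  have h4 : t ≤ l * m0 ^ d := Nat.le_of_mul_le_mul_left h3 (pow_pos (by omega) d)
  omega

/-- The height of the center of a valuation is at least the number of its elements with independent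
values. -/
theorem height_ge {S : Type u} [CommRing S] [IsDomain S] [IsNoetherianRing S] (q : Ideal S)
    [q.IsPrime] (κ : S → ℝ)
    (hadd : ∀ a b : S, a ≠ 0 → b ≠ 0 → a + b ≠ 0 → min (κ a) (κ b) ≤ κ (a + b))
    (hmul : ∀ a b : S, a ≠ 0 → b ≠ 0 → κ (a * b) = κ a + κ b) (hnn : ∀ a : S, a ≠ 0 → 0 ≤ κ a)
    (hq : ∀ a : S, a ≠ 0 → (a ∈ q ↔ 0 < κ a)) {r : ℕ} (x : Fin r → S) (hx0 : ∀ i, x i ≠ 0)
    (hx : ∀ i, x i ∈ q) (hind : LinearIndependent ℚ fun i => κ (x i)) :
    (r : ℕ∞) ≤ q.height := by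
  let T := Localization.AtPrime q
  have hinj : Function.Injective (algebraMap S T) :=
    IsLocalization.injective T q.primeCompl_le_nonZeroDivisors
  have hdom : IsDomain T := IsLocalization.isDomain_localization
    q.primeCompl_le_nonZeroDivisors
  have hnoeth : IsNoetherianRing T := IsLocalization.isNoetherianRing q.primeCompl T inferInstance
  have hs0 : ∀ s : q.primeCompl, (s : S) ≠ 0 := fun s h0 => s.2 (h0 ▸ q.zero_mem)
  have hκs : ∀ s : q.primeCompl, κ s = 0 := by
    intro s
    refine le_antisymm ?_ (hnn s (hs0 s))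
    by_contra h
    exact s.2 ((hq s (hs0 s)).2 (not_le.1 h))
  let κ' : T → ℝ := fun z => κ (IsLocalization.sec q.primeCompl z).1
  have hκ' : ∀ (a : S) (s : q.primeCompl), a ≠ 0 → κ' (IsLocalization.mk' T a s) = κ a := by
    intro a s ha
    have h1 := IsLocalization.sec_spec q.primeCompl (IsLocalization.mk' T a s)
    set c := IsLocalization.sec q.primeCompl (IsLocalization.mk' T a s) with hc
    have h2 : a * (c.2 : S) = c.1 * (s : S) := by
      apply hinj
      rw [map_mul, map_mul, ← h1]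
      have h3 := IsLocalization.mk'_spec T a s
      linear_combination (-algebraMap S T (c.2 : S)) * h3
    have hc1 : c.1 ≠ 0 := by
      intro h0
      rw [h0, zero_mul] at h2
      exact (mul_ne_zero ha (hs0 c.2)) h2
    have h3 := congrArg κ h2
    rw [hmul _ _ ha (hs0 _), hmul _ _ hc1 (hs0 _), hκs, hκs, add_zero, add_zero] at h3
    exact h3.symm
  have hne : ∀ (a : S) (s : q.primeCompl), IsLocalization.mk' T a s ≠ 0 → a ≠ 0 := by
    rintro a s h0 rfl
    exact h0 (IsLocalization.mk'_zero s)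
  have hmul' : ∀ a b : T, a ≠ 0 → b ≠ 0 → κ' (a * b) = κ' a + κ' b := by
    intro z w hz hw
    obtain ⟨a, s, rfl⟩ := IsLocalization.exists_mk'_eq q.primeCompl z
    obtain ⟨b, t, rfl⟩ := IsLocalization.exists_mk'_eq q.primeCompl w
    have ha := hne _ _ hz
    have hb := hne _ _ hw
    rw [← IsLocalization.mk'_mul, hκ' _ _ (mul_ne_zero ha hb), hκ' _ _ ha, hκ' _ _ hb,
      hmul _ _ ha hb]
  have hadd' : ∀ a b : T, a ≠ 0 → b ≠ 0 → a + b ≠ 0 → min (κ' a) (κ' b) ≤ κ' (a + b) := by
    intro z w hz hw hzw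
    obtain ⟨a, s, rfl⟩ := IsLocalization.exists_mk'_eq q.primeCompl z
    obtain ⟨b, t, rfl⟩ := IsLocalization.exists_mk'_eq q.primeCompl w
    have ha := hne _ _ hz
    have hb := hne _ _ hw
    rw [← IsLocalization.mk'_add] at hzw ⊢
    have hab := hne _ _ hzw
    rw [hκ' _ _ ha, hκ' _ _ hb, hκ' _ _ hab]
    have h1 := hadd _ _ (mul_ne_zero ha (hs0 t)) (mul_ne_zero hb (hs0 s)) hab
    rwa [hmul _ _ ha (hs0 t), hmul _ _ hb (hs0 s), hκs, hκs, add_zero, add_zero] at h1
  have hq' : ∀ a : T, a ≠ 0 → (a ∈ IsLocalRing.maximalIdeal T ↔ 0 < κ' a) := by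
    intro z hz
    obtain ⟨a, s, rfl⟩ := IsLocalization.exists_mk'_eq q.primeCompl z
    have ha := hne _ _ hz
    rw [hκ' _ _ ha, ← hq _ ha]
    exact IsLocalization.AtPrime.mk'_mem_maximal_iff T q a s
  have hal : ∀ a : S, algebraMap S T a = IsLocalization.mk' T a (1 : q.primeCompl) := fun a =>
    (IsLocalization.mk'_one (M := q.primeCompl) T a).symm
  have h1 := height_ge_local κ' hadd' hmul' (by
    intro z hz
    obtain ⟨a, s, rfl⟩ := IsLocalization.exists_mk'_eq q.primeCompl z
    have ha := hne _ _ hz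
    rw [hκ' _ _ ha]
    exact hnn a ha) hq' (fun i => algebraMap S T (x i)) (fun i => by
      rw [Ne, (map_eq_zero_iff _ hinj)]
      exact hx0 i) (fun i => by
      rw [hq' _ (by rw [Ne, (map_eq_zero_iff _ hinj)]; exact hx0 i), hal, hκ' _ _ (hx0 i)]
      exact (hq _ (hx0 i)).1 (hx i)) (by
      have h2 : (fun i => κ' (algebraMap S T (x i))) = fun i => κ (x i) := by
        funext i
        rw [hal, hκ' _ _ (hx0 i)]
      rw [h2]
      exact hind)
  refine h1.trans (le_of_eq ?_)
  have h2 := IsLocalization.AtPrime.ringKrullDim_eq_height q T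
  rw [← IsLocalRing.maximalIdeal_height_eq_ringKrullDim] at h2
  exact_mod_cast h2

end Pool.Agent.LUM
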