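import Pool.Agent.Lib.LUM.Q01

/-! # G01: closed base: a weak noetherian frame with `Kap` gives a big frame -/

set_option autoImplicit false
set_option linter.unusedSectionVars false
set_option linter.unusedVariables false

open Polynomial

namespace Pool.Agent.LUM

open Pool.Agent.H15JM (RVal)
open Pool.Agent.LU1 (VPos LatData val_add_vpos adj)

universe u

variable {Λ Ω : Type u} [CommRing Λ] [IsDomain Λ] [IsDiscreteValuationRing Λ] [Field Ω]
  [Algebra Λ Ω] {ϖ : Λ} {v : RVal Ω} {r : ℕ}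

namespace WNK

/-- `t` is an element of `R` up to something small for `v` and for `κ`. -/
def Near (R : Subalgebra Λ Ω) (v κ : RVal Ω) (t : Ω) : Prop :=
  v.Ge 0 t ∧ κ.Ge 0 t ∧ ∃ t0 ∈ R, VPos v (t - t0) ∧ VPos κ (t - t0)

variable {R : Subalgebra Λ Ω} {κ : RVal Ω}

theorem near_mem (h1 : ∀ f ∈ R, v.Ge 0 f) (h2 : ∀ f ∈ R, κ.Ge 0 f) {t : Ω} (ht : t ∈ R) :
    Near R v κ t :=
  ⟨h1 t ht, h2 t ht, t, ht, by rw [sub_self]; exact VPos.zero, by
    rw [sub_self]; exact VPos.zero⟩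

theorem near_add {t t' : Ω} (h : Near R v κ t) (h' : Near R v κ t') : Near R v κ (t + t') := by
  obtain ⟨h1, h2, t0, h3, h4, h5⟩ := h
  obtain ⟨h1', h2', t0', h3', h4', h5'⟩ := h'
  refine ⟨h1.add h1', h2.add h2', t0 + t0', R.add_mem h3 h3', ?_, ?_⟩
  · rw [add_sub_add_comm]; exact h4.add h4'
  · rw [add_sub_add_comm]; exact h5.add h5'

theorem near_mul (hv : ∀ f ∈ R, v.Ge 0 f) (hκ : ∀ f ∈ R, κ.Ge 0 f) {t t' : Ω}
    (h : Near R v κ t) (h' : Near R v κ t') : Near R v κ (t * t') := by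
  obtain ⟨h1, h2, t0, h3, h4, h5⟩ := h
  obtain ⟨h1', h2', t0', h3', h4', h5'⟩ := h'
  have e : t * t' - t0 * t0' = t * (t' - t0') + (t - t0) * t0' := by ring
  refine ⟨by simpa using h1.mul h1', by simpa using h2.mul h2', t0 * t0', R.mul_mem h3 h3',
    ?_, ?_⟩
  · rw [e]; exact (VPos.mul' h1 h4').add (h4.mul (hv _ h3'))
  · rw [e]; exact (VPos.mul' h2 h5').add (h5.mul (hκ _ h3'))

theorem near_adjoin (hv : ∀ f ∈ R, v.Ge 0 f) (hκ : ∀ f ∈ R, κ.Ge 0 f) {S : Set Ω}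
    (hS : ∀ t ∈ S, Near R v κ t) : ∀ t ∈ Algebra.adjoin Λ S, Near R v κ t := by
  intro t ht
  induction ht using Algebra.adjoin_induction with
  | mem x hx => exact hS x hx
  | algebraMap c => exact near_mem hv hκ (R.algebraMap_mem c)
  | add x y _ _ hx hy => exact near_add hx hy
  | mul x y _ _ hx hy => exact near_mul hv hκ hx hy

theorem near_zero (hκ : ∀ f ∈ R, κ.Ge 0 f) (hloc : ∀ f ∈ R, f ≠ 0 → v f = 0 → f⁻¹ ∈ R) {t : Ω}
    (h : Near R v κ t) (h0 : t ≠ 0) (hv : v t = 0) : κ t = 0 := by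
  obtain ⟨-, -, t0, h3, h4, h5⟩ := h
  have h6 := val_add_vpos h0 hv h4.neg
  have h7 : t + -(t - t0) = t0 := by ring
  rw [h7] at h6
  have h8 : κ t0 = 0 := by
    have h9 := hκ _ h3 h6.1
    have h10 := hκ _ (hloc _ h3 h6.1 h6.2) (inv_ne_zero h6.1)
    rw [κ.map_inv h6.1] at h10
    linarith
  have h9 := (val_add_vpos h6.1 h8 h5).2
  rwa [add_sub_cancel] at h9

theorem near_locv (hv : ∀ f ∈ R, v.Ge 0 f) (hκ : ∀ f ∈ R, κ.Ge 0 f)
    (hloc : ∀ f ∈ R, f ≠ 0 → v f = 0 → f⁻¹ ∈ R) {S : Set Ω}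
    (hS : ∀ t ∈ S, Near R v κ t) : ∀ t ∈ locv v (Algebra.adjoin Λ S), κ.Ge 0 t := by
  rintro _ ⟨a, ha, b, hb, hb0, hvb, rfl⟩ h0
  have ha0 : a ≠ 0 := by rintro rfl; simp at h0
  have h1 := (near_adjoin hv hκ hS a ha).2.1 ha0
  have h2 := near_zero hκ hloc (near_adjoin hv hκ hS b hb) hb0 hvb
  rw [κ.map_div ha0 hb0, h2, sub_zero]
  exact h1

end WNK

open WNK

theorem WN.exists_BF (h : Ctx ϖ v r) (N : WN Λ v r) (hK : N.Kap)
    (halg : ∀ g : Ω, IsAlgebraic N.R g) (hpi : N.MonoPos (algebraMap Λ Ω ϖ)) :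
    ∃ B : BF ϖ v, N.R ≤ B.R ∧ ∀ f ∈ B.R, ∃ a ∈ N.R, ∃ b ∈ N.R, b ≠ 0 ∧ f = a / b := by
  classical
  obtain ⟨κ, hκ1, hκ2, hκ3⟩ := hK
  have hloc : ∀ f ∈ N.R, f ≠ 0 → v f = 0 → f⁻¹ ∈ N.R := fun f hf h0 h1 => WN.loc N hf h0 h1
  let N' : NF Λ v r :=
    { x := N.x, x_ne := N.x_ne, x_pos := N.x_pos, x_ind := N.x_ind, y := N.y, y_ne := N.y_ne
      y_pos := N.y_pos, R := N.R, nonneg := N.nonneg, x_mem := N.x_mem, y_mem := N.y_mem
      fgen := N.fgen, gen := N.gen, alg := halg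
      res := fun f hf => h.residue (N.nonneg f hf) }
  -- values of monomials
  have hprod0 : ∀ n : Fin r → ℤ, (∏ i, N.x i ^ n i) ≠ 0 := fun n =>
    Finset.prod_ne_zero_iff.2 fun i _ => zpow_ne_zero _ (N.x_ne i)
  have hprodv : ∀ n : Fin r → ℤ, v (∏ i, N.x i ^ n i) = ∑ i, (n i : ℝ) * v (N.x i) := by
    intro n
    rw [v.map_prod _ _ fun i _ => zpow_ne_zero _ (N.x_ne i)]
    exact Finset.sum_congr rfl fun i _ => v.map_zpow (N.x_ne i) _
  have hprodκ : ∀ n : Fin r → ℤ, κ (∏ i, N.x i ^ n i) = ∑ i, (n i : ℝ) * v (N.x i) := by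
    intro n
    rw [κ.map_prod _ _ fun i _ => zpow_ne_zero _ (N.x_ne i)]
    refine Finset.sum_congr rfl fun i _ => ?_
    rw [κ.map_zpow (N.x_ne i), hκ3]
  obtain ⟨B, -, h1, h2, -, -⟩ := NF.exists_BF h.toCtx0 N' (by
    obtain ⟨n, u, hu0, hu, hu', hpu, -⟩ := hpi
    have hvu : v u = 0 := by
      have h3 := N.nonneg _ hu hu0
      have h4 := N.nonneg _ hu' (inv_ne_zero hu0)
      rw [v.map_inv hu0] at h4
      linarith
    refine ⟨n, ?_, ?_⟩
    · rw [hpu, v.map_mul (hprod0 n) hu0, hvu, add_zero]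
      exact hprodv n
    · rw [hpu]
      change (∏ i, N.x i ^ n i) * u / (∏ i, N.x i ^ n i) ∈ N.R
      rw [mul_div_cancel_left₀ _ (hprod0 n)]
      exact hu) (by
    intro D n hn a ha hya
    have ha' : κ.Ge 0 a := by
      refine near_locv N.nonneg hκ1 hloc ?_ a ha
      rintro t (ht | ⟨m, hm, rfl⟩)
      · exact near_mem N.nonneg hκ1 ht
      · rcases hm.lt_or_eq with h3 | h3
        · refine ⟨fun _ => ?_, fun _ => ?_, 0, N.R.zero_mem, fun _ => ?_, fun _ => ?_⟩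
          · rw [show (∏ i, N'.x i ^ m i) = ∏ i, N.x i ^ m i from rfl, hprodv]; exact hm
          · rw [show (∏ i, N'.x i ^ m i) = ∏ i, N.x i ^ m i from rfl, hprodκ]; exact hm
          · rw [sub_zero, show (∏ i, N'.x i ^ m i) = ∏ i, N.x i ^ m i from rfl, hprodv]
            exact h3
          · rw [sub_zero, show (∏ i, N'.x i ^ m i) = ∏ i, N.x i ^ m i from rfl, hprodκ]
            exact h3
        · have h4 : m = 0 := by
            have h5 : ∑ i, (m i : ℝ) * v (N.x i) = ∑ i, ((0 : Fin r → ℤ) i : ℝ) * v (N.x i) := by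
              rw [show ∑ i, (m i : ℝ) * v (N.x i) = ∑ i, (m i : ℝ) * v (N'.x i) from rfl, ← h3]
              simp
            exact NFA.coord_unique N.x_ind h5
          have h5 : (∏ i, N'.x i ^ m i) = 1 := by
            rw [h4]; simp
          rw [h5]
          exact near_mem N.nonneg hκ1 N.R.one_mem
    have hy0 : N.y ^ D ≠ 0 := pow_ne_zero _ N.y_ne
    have ha0 : a ≠ 0 := by
      rintro rfl
      rw [mul_zero] at hya
      exact hy0 hya
    have h3 := congrArg κ hya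
    have h4 : κ ((∏ i, N'.x i ^ n i) * a) = ∑ i, (n i : ℝ) * v (N.x i) + κ a := by
      rw [show (∏ i, N'.x i ^ n i) = ∏ i, N.x i ^ n i from rfl, κ.map_mul (hprod0 n) ha0, hprodκ]
    rw [h4] at h3
    have h5 : κ (N'.y ^ D) = 0 := by
      rw [κ.map_pow N'.y_ne]
      have : κ N'.y = 0 := hκ2
      rw [this, mul_zero]
    rw [h5] at h3
    have h6 := ha' ha0
    have h7 : 0 < ∑ i, (n i : ℝ) * v (N.x i) := hn
    linarith)
  exact ⟨B, h1, h2⟩

end Pool.Agent.LUM
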