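import Pool.Agent.Lib.LUM.WDefs
import Pool.Agent.Lib.LUM.NFb
import Pool.Agent.Lib.LUM.C01

/-! # C02: a weak noetherian frame with `Kap` is a regular local ring of dimension `r + 1` -/

set_option autoImplicit false
set_option linter.unusedSectionVars false
set_option linter.unusedVariables false

open Polynomial

namespace Pool.Agent.LUM

open Pool.Agent.H15JM (RVal)
open Pool.Agent.LU1 (VPos LatData val_add_vpos adj)

universe u

variable {Λ Ω : Type u} [CommRing Λ] [IsDomain Λ] [IsDiscreteValuationRing Λ] [Field Ω]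
  [Algebra Λ Ω] {ϖ : Λ} {v : RVal Ω} {r : ℕ}

theorem WN.isNoetherian (N : WN Λ v r) : IsNoetherianRing N.R := by
  obtain ⟨F, hF⟩ := N.fgen
  rw [hF]
  exact locv_isNoetherian _ ⟨F, rfl⟩

theorem WN.inv_mem' (N : WN Λ v r) {f : Ω} (hf : f ∈ N.R) (h0 : f ≠ 0) (h1 : v f = 0) :
    f⁻¹ ∈ N.R := by
  obtain ⟨F, hF⟩ := N.fgen
  rw [hF] at hf ⊢
  exact locv_inv hf h0 h1

theorem WN.isUnit_iff (N : WN Λ v r) (z : N.R) : IsUnit z ↔ (z : Ω) ≠ 0 ∧ v (z : Ω) = 0 := by
  constructor
  · rintro ⟨u, rfl⟩
    have h1 : ((u : N.R) : Ω) * ((u⁻¹ : N.Rˣ) : N.R) = 1 := by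
      rw [← Subalgebra.coe_mul, Units.mul_inv, Subalgebra.coe_one]
    have h2 : ((u : N.R) : Ω) ≠ 0 := left_ne_zero_of_mul (h1 ▸ one_ne_zero)
    have h3 : (((u⁻¹ : N.Rˣ) : N.R) : Ω) ≠ 0 := right_ne_zero_of_mul (h1 ▸ one_ne_zero)
    refine ⟨h2, ?_⟩
    have h4 := v.map_mul h2 h3
    rw [h1, v.map_one] at h4
    have h5 := N.nonneg _ (u : N.R).2 h2
    have h6 := N.nonneg _ ((u⁻¹ : N.Rˣ) : N.R).2 h3
    linarith
  · rintro ⟨h0, h1⟩
    exact IsUnit.of_mul_eq_one ⟨(z : Ω)⁻¹, N.inv_mem' z.2 h0 h1⟩
      (Subtype.ext (mul_inv_cancel₀ h0))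

theorem WN.not_isUnit_iff (N : WN Λ v r) (z : N.R) : ¬ IsUnit z ↔ VPos v (z : Ω) := by
  rw [N.isUnit_iff]
  constructor
  · intro h h0
    have h1 := N.nonneg _ z.2 h0
    refine lt_of_le_of_ne h1 fun h2 => h ⟨h0, h2.symm⟩
  · rintro h ⟨h0, h1⟩
    have := h h0
    rw [h1] at this
    exact lt_irrefl _ this

theorem WN.isLocalRing (N : WN Λ v r) : IsLocalRing N.R := by
  refine IsLocalRing.of_nonunits_add fun a b ha hb => ?_
  rw [mem_nonunits_iff, N.not_isUnit_iff] at ha hb ⊢
  rw [Subalgebra.coe_add]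
  exact ha.add hb

theorem WN.dim (h : Ctx0 ϖ v r) (N : WN Λ v r) (hK : N.Kap) :
    ringKrullDim N.R = ((r + 1 : ℕ) : WithBot ℕ∞) := by
  have hN := N.isNoetherian
  have hL := N.isLocalRing
  obtain ⟨κ, h1, h2, h30⟩ := hK
  have h3 : ∀ i, 0 < κ (N.x i) := fun i => by rw [h30 i]; exact N.x_pos i
  have h4 : LinearIndependent ℚ fun i => κ (N.x i) := by
    have h5 : (fun i => κ (N.x i)) = fun i => v (N.x i) := funext h30
    rw [h5]
    exact N.x_ind
  rw [← IsLocalRing.maximalIdeal_height_eq_ringKrullDim]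
  have hmem : ∀ z : N.R, z ∈ IsLocalRing.maximalIdeal N.R ↔ VPos v (z : Ω) := by
    intro z
    rw [IsLocalRing.mem_maximalIdeal, mem_nonunits_iff, N.not_isUnit_iff]
  let X : Fin r → N.R := fun i => ⟨N.x i, N.x_mem i⟩
  let Y : N.R := ⟨N.y, N.y_mem⟩
  have hle : (IsLocalRing.maximalIdeal N.R).height ≤ ((r + 1 : ℕ) : ℕ∞) := by
    classical
    have hsp : IsLocalRing.maximalIdeal N.R =
        Ideal.span ((insert Y (Finset.univ.image X) : Finset N.R) : Set N.R) := by
      apply le_antisymm
      · intro z hz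
        obtain ⟨a, ha, b, hb, hab⟩ := N.gen z z.2 ((hmem z).1 hz)
        have h5 : z = ∑ i, X i * ⟨a i, ha i⟩ + Y * ⟨b, hb⟩ := by
          apply Subtype.ext
          rw [Subalgebra.coe_add, Subalgebra.coe_mul, AddSubmonoidClass.coe_finsetSum]
          exact hab
        rw [h5]
        refine Ideal.add_mem _ (Ideal.sum_mem _ fun i _ => ?_) ?_
        · exact Ideal.mul_mem_right _ _ (Ideal.subset_span (by simp))
        · exact Ideal.mul_mem_right _ _ (Ideal.subset_span (by simp))
      · rw [Ideal.span_le]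
        intro z hz
        rw [Finset.mem_coe, Finset.mem_insert, Finset.mem_image] at hz
        rw [SetLike.mem_coe, hmem]
        rcases hz with rfl | ⟨i, -, rfl⟩
        · exact fun _ => N.y_pos
        · exact fun _ => N.x_pos i
    have h5 := Ideal.height_le_spanRank_toENat_of_mem_minimalPrimes
      (IsLocalRing.maximalIdeal N.R) (IsLocalRing.maximalIdeal N.R)
      (by rw [Ideal.minimalPrimes_eq_subsingleton_self]; rfl)
    refine h5.trans ?_
    have h6 : (IsLocalRing.maximalIdeal N.R).spanRank ≤ ((r + 1 : ℕ) : Cardinal) := by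
      rw [hsp]
      refine (Submodule.spanRank_span_le_card _).trans ?_
      have h7 : (insert Y (Finset.univ.image X) : Finset N.R).card ≤ r + 1 :=
        (Finset.card_insert_le _ _).trans (Nat.succ_le_succ
          ((Finset.card_image_le).trans (by simp)))
      have h8 : Cardinal.mk ((insert Y (Finset.univ.image X) : Finset N.R) : Set N.R) =
          (((insert Y (Finset.univ.image X) : Finset N.R).card : ℕ) : Cardinal) :=
        Cardinal.mk_coe_finset
      rw [h8]
      exact_mod_cast h7
    have h7 := Cardinal.toENat.monotone' h6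
    simpa using h7
  have hge : ((r + 1 : ℕ) : ℕ∞) ≤ (IsLocalRing.maximalIdeal N.R).height := by
    -- the center of `κ`
    let q : Ideal N.R :=
      { carrier := {z | VPos κ (z : Ω)}
        zero_mem' := by
          intro h0
          exact absurd rfl h0
        add_mem' := fun {a b} ha hb => by
          have := VPos.add ha hb
          simpa using this
        smul_mem' := fun c {z} hz => by
          have := VPos.mul' (h1 c c.2) hz
          simpa using this }
    have hqm : ∀ z : N.R, z ∈ q ↔ VPos κ (z : Ω) := fun z => Iff.rfl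
    have hqp : q.IsPrime := by
      refine ⟨?_, ?_⟩
      · rw [Ideal.ne_top_iff_one, hqm]
        intro h0
        have := h0 (by simp)
        rw [Subalgebra.coe_one, κ.map_one] at this
        exact lt_irrefl _ this
      · intro a b hab
        by_contra hcon
        rw [not_or, hqm, hqm] at hcon
        unfold VPos at hcon
        push Not at hcon
        obtain ⟨⟨ha0, ha⟩, ⟨hb0, hb⟩⟩ := hcon
        have h5 := (hqm _).1 hab (by rw [Subalgebra.coe_mul]; exact mul_ne_zero ha0 hb0)
        rw [Subalgebra.coe_mul, κ.map_mul ha0 hb0] at h5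
        linarith
    have h5 : (r : ℕ∞) ≤ q.height := by
      refine height_ge q (fun z => κ (z : Ω)) ?_ ?_ ?_ ?_ X ?_ ?_ h4
      · intro a b ha hb hab
        rw [Subalgebra.coe_add]
        refine κ.map_add (by simpa using ha) (by simpa using hb) fun h0 => hab ?_
        exact Subtype.ext h0
      · intro a b ha hb
        rw [Subalgebra.coe_mul]
        exact κ.map_mul (by simpa using ha) (by simpa using hb)
      · intro a ha
        exact h1 a a.2 (by simpa using ha)
      · intro a ha
        have ha' : (a : Ω) ≠ 0 := by simpa using ha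
        rw [hqm]
        exact ⟨fun h => h ha', fun h _ => h⟩
      · intro i h0
        exact N.x_ne i (congrArg Subtype.val h0)
      · intro i _
        exact h3 i
    have hlt : q < IsLocalRing.maximalIdeal N.R := by
      refine lt_of_le_of_ne (IsLocalRing.le_maximalIdeal hqp.ne_top) fun h0 => ?_
      have h6 : Y ∈ q := by
        rw [h0, hmem]
        exact fun _ => N.y_pos
      have h7 := (hqm Y).1 h6 N.y_ne
      have h8 : κ (Y : Ω) = 0 := h2
      rw [h8] at h7
      exact lt_irrefl _ h7
    have h6 := Ideal.height_add_one_le_of_lt_of_isPrime hlt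
    have h7 : ((r + 1 : ℕ) : ℕ∞) = (r : ℕ∞) + 1 := by push_cast; rfl
    rw [h7]
    exact (add_le_add_left h5 1).trans h6
  have := le_antisymm hle hge
  rw [this]
  rfl

end Pool.Agent.LUM
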