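import Pool.Agent.Lib.LUM.WDefs

/-! # Q01: monomials of a weak noetherian frame, quotients with monomial denominators, charts

Recipes: `WN.MonoPos.mul/.one/.ne`: copy `QB.monoPos_mul`, `monoPos_one`, `monoPos_ne` of
`LU1_h15/QProp.lean`; `dvd`, `dvd_pow`: copy from `LU1_h15/EtDesc.lean`.
`WN.QM N A` is the ring of the `a / b` with `a, b` in the algebra `A ≤ O_v`, `b` monomial in `N`.
`qm_inv`: `f = a / b` with `f` monomial: `a = f b` is monomial (product; `v f ≥ 0` or use that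
`v a ≥ 0`), so `f⁻¹ = b / a`.  For the product of monomials one has to know the sign of the exponents
of `f * b`: both `v f ≥ 0`, `v b ≥ 0` is `MonoPos.mul`.  `qm_locv`: elements of value zero of `N.R` are
units, hence `MonoPos` with exponents zero.
`chart_of`: let `FR` be finite, `N.R = locv (adjoin FR)`, each `f ∈ FR` is `a_f / b_f`; `g = ∏ b_f`,
`G = {g f}`; as at the end of `exists_QN` in `LU1_h15/QProp.lean`. -/

set_option autoImplicit false
set_option linter.unusedSectionVars false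
set_option linter.unusedVariables false

open Polynomial

namespace Pool.Agent.LUM

open Pool.Agent.H15JM (RVal)
open Pool.Agent.LU1 (VPos LatData val_add_vpos adj)

universe u

variable {Λ Ω : Type u} [CommRing Λ] [IsDomain Λ] [IsDiscreteValuationRing Λ] [Field Ω]
  [Algebra Λ Ω] {ϖ : Λ} {v : RVal Ω} {r : ℕ}

namespace WN

variable {N : WN Λ v r}

theorem loc (N : WN Λ v r) {f : Ω} (hf : f ∈ N.R) (h0 : f ≠ 0) (h1 : v f = 0) : f⁻¹ ∈ N.R := by
  obtain ⟨F, hF⟩ := N.fgen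
  rw [hF] at hf ⊢
  exact locv_inv hf h0 h1

theorem MonoPos.ne {f : Ω} (hf : N.MonoPos f) : f ≠ 0 := by
  obtain ⟨n, u, hu, -, -, rfl, -⟩ := hf
  exact mul_ne_zero (Finset.prod_ne_zero_iff.2 fun i _ => zpow_ne_zero _ (N.x_ne i)) hu

theorem MonoPos.one : N.MonoPos 1 := by
  exact ⟨fun _ => 0, 1, one_ne_zero, N.R.one_mem, by rw [inv_one]; exact N.R.one_mem, by simp,
    fun h => absurd h (by rw [v.map_one]; simp), fun h => absurd h (by rw [v.map_one]; simp),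
    fun _ _ => rfl⟩

theorem MonoPos.mul {f g : Ω} (hf : N.MonoPos f) (hf0 : 0 ≤ v f) (hg : N.MonoPos g)
    (hg0 : 0 ≤ v g) : N.MonoPos (f * g) := by
  have hfne := hf.ne
  have hgne := hg.ne
  have hv : v (f * g) = v f + v g := v.map_mul hfne hgne
  obtain ⟨n, u, hu, hu1, hu2, hfe, hfp, -, hfz⟩ := hf
  obtain ⟨m, w, hw, hw1, hw2, hge, hgp, -, hgz⟩ := hg
  refine ⟨fun i => n i + m i, u * w, mul_ne_zero hu hw, N.R.mul_mem hu1 hw1, ?_, ?_, ?_, ?_, ?_⟩
  · rw [mul_inv]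
    exact N.R.mul_mem hu2 hw2
  · have h1 : (∏ i, N.x i ^ (n i + m i)) = (∏ i, N.x i ^ n i) * ∏ i, N.x i ^ m i := by
      rw [← Finset.prod_mul_distrib]
      exact Finset.prod_congr rfl fun i _ => zpow_add₀ (N.x_ne i) _ _
    rw [h1]
    conv_lhs => rw [hfe, hge]
    ring
  · intro h i
    rw [hv] at h
    change 0 < n i + m i
    rcases hf0.lt_or_eq with h1 | h1
    · rcases hg0.lt_or_eq with h2 | h2
      · have := hfp h1 i
        have := hgp h2 i
        omega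
      · have := hfp h1 i
        have := hgz h2.symm i
        omega
    · rcases hg0.lt_or_eq with h2 | h2
      · have := hfz h1.symm i
        have := hgp h2 i
        omega
      · rw [← h1, ← h2] at h
        simp at h
  · intro h
    rw [hv] at h
    exact absurd h (add_nonneg hf0 hg0).not_gt
  · intro h i
    rw [hv] at h
    have h1 : v f = 0 := by linarith
    have h2 : v g = 0 := by linarith
    change n i + m i = 0
    rw [hfz h1 i, hgz h2 i, add_zero]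

theorem MonoPos.inv {f : Ω} (hf : N.MonoPos f) : N.MonoPos f⁻¹ := by
  have hne := hf.ne
  obtain ⟨n, u, hu, hu1, hu2, hfe, hp, hn, hz⟩ := hf
  refine ⟨fun i => -n i, u⁻¹, inv_ne_zero hu, hu2, by rw [inv_inv]; exact hu1, ?_, ?_, ?_, ?_⟩
  · rw [hfe, mul_inv, ← Finset.prod_inv_distrib]
    congr 1
    exact Finset.prod_congr rfl fun i _ => by rw [zpow_neg]
  · intro h i
    rw [v.map_inv hne] at h
    have := hn (by linarith) i
    change 0 < -n i
    omega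
  · intro h i
    rw [v.map_inv hne] at h
    have := hp (by linarith) i
    change -n i < 0
    omega
  · intro h i
    rw [v.map_inv hne] at h
    have := hz (by linarith) i
    change -n i = 0
    omega

theorem MonoPos.mul_unit {f u : Ω} (hf : N.MonoPos f) (hu : u ∈ N.R) (hu0 : u ≠ 0)
    (hu1 : v u = 0) : N.MonoPos (f * u) := by
  have hne := hf.ne
  have hv : v (f * u) = v f := by rw [v.map_mul hne hu0, hu1, add_zero]
  obtain ⟨n, w, hw, hw1, hw2, hfe, hp, hn, hz⟩ := hf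
  refine ⟨n, w * u, mul_ne_zero hw hu0, N.R.mul_mem hw1 hu, ?_, ?_, ?_, ?_, ?_⟩
  · rw [mul_inv]
    exact N.R.mul_mem hw2 (N.loc hu hu0 hu1)
  · conv_lhs => rw [hfe]
    ring
  · rw [hv]; exact hp
  · rw [hv]; exact hn
  · rw [hv]; exact hz

theorem MonoPos.of_unit {u : Ω} (hu : u ∈ N.R) (hu0 : u ≠ 0) (hu1 : v u = 0) :
    N.MonoPos u := by
  have := (MonoPos.one (N := N)).mul_unit hu hu0 hu1
  rwa [one_mul] at this

theorem prod_ne (N : WN Λ v r) : (∏ j, N.x j) ≠ 0 :=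
  Finset.prod_ne_zero_iff.2 fun j _ => N.x_ne j

theorem prod_vpos (hr : 0 < r) (N : WN Λ v r) : VPos v (∏ j, N.x j) := by
  intro _
  rw [v.map_prod _ _ fun j _ => N.x_ne j]
  have : Nonempty (Fin r) := ⟨⟨0, hr⟩⟩
  exact Finset.sum_pos (fun j _ => N.x_pos j) Finset.univ_nonempty

theorem prod_dvd (N : WN Λ v r) (i : Fin r) : ∃ a ∈ N.R, (∏ j, N.x j) = N.x i * a :=
  ⟨∏ j ∈ Finset.univ.erase i, N.x j, N.R.prod_mem fun j _ => N.x_mem j,
    (Finset.mul_prod_erase _ _ (Finset.mem_univ i)).symm⟩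

theorem MonoPos.mem {f : Ω} (hf : N.MonoPos f) (h0 : 0 ≤ v f) : f ∈ N.R := by
  obtain ⟨n, u, hu, hu1, -, hfe, hp, -, hz⟩ := hf
  have hn : ∀ j, 0 ≤ n j := by
    intro j
    rcases h0.lt_or_eq with h1 | h1
    · exact (hp h1 j).le
    · exact (hz h1.symm j).ge
  rw [hfe]
  refine N.R.mul_mem (N.R.prod_mem fun j _ => ?_) hu1
  obtain ⟨m, hm⟩ := Int.eq_ofNat_of_zero_le (hn j)
  rw [hm]
  change N.x j ^ ((m : ℕ) : ℤ) ∈ N.R
  rw [zpow_natCast]
  exact N.R.pow_mem (N.x_mem j) _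

theorem MonoPos.dvd {f : Ω} (hf : N.MonoPos f) (h0 : 0 < v f) :
    ∃ a ∈ N.R, f = (∏ j, N.x j) * a := by
  obtain ⟨n, u, hu, hu1, -, hfe, hp, -, -⟩ := hf
  refine ⟨(∏ j, N.x j ^ (n j - 1).toNat) * u, N.R.mul_mem (N.R.prod_mem fun j _ =>
    N.R.pow_mem (N.x_mem j) _) hu1, ?_⟩
  rw [hfe, ← mul_assoc, ← Finset.prod_mul_distrib]
  congr 1
  refine Finset.prod_congr rfl fun j _ => ?_
  have h1 := hp h0 j
  rw [← pow_succ', ← zpow_natCast]
  congr 1
  omega

theorem MonoPos.dvd_pow {f : Ω} (hf : N.MonoPos f) (h0 : 0 ≤ v f) :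
    ∃ E : ℕ, ∃ a ∈ N.R, (∏ j, N.x j) ^ E = f * a := by
  obtain ⟨n, u, hu, -, hu2, hfe, hp, -, hz⟩ := hf
  have hn : ∀ j, 0 ≤ n j := by
    intro j
    rcases h0.lt_or_eq with h1 | h1
    · exact (hp h1 j).le
    · exact (hz h1.symm j).ge
  obtain ⟨E, hE⟩ : ∃ E : ℕ, ∀ j, n j ≤ E :=
    ⟨∑ j, (n j).toNat, fun j => by
      have h1 : (n j).toNat ≤ ∑ j, (n j).toNat :=
        Finset.single_le_sum (f := fun j => (n j).toNat) (fun _ _ => Nat.zero_le _)
          (Finset.mem_univ j)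
      have h2 := hn j
      omega⟩
  refine ⟨E, (∏ j, N.x j ^ (E - n j).toNat) * u⁻¹, N.R.mul_mem (N.R.prod_mem fun j _ =>
    N.R.pow_mem (N.x_mem j) _) hu2, ?_⟩
  have h1 : (∏ j, N.x j) ^ E = (∏ j, N.x j ^ n j) * ∏ j, N.x j ^ (E - n j).toNat := by
    rw [← Finset.prod_pow, ← Finset.prod_mul_distrib]
    refine Finset.prod_congr rfl fun j _ => ?_
    have h2 := hE j
    have h3 := hn j
    rw [← zpow_natCast, ← zpow_natCast, ← zpow_add₀ (N.x_ne j)]
    congr 1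
    omega
  rw [h1, hfe]
  field_simp

/-- The quotients `a / b`, `a, b ∈ A`, `b` monomial in `N`. -/
def QM (N : WN Λ v r) (A : Subalgebra Λ Ω) (hA : ∀ a ∈ A, v.Ge 0 a) : Subalgebra Λ Ω where
  carrier := {f | ∃ a ∈ A, ∃ b ∈ A, N.MonoPos b ∧ f = a / b}
  mul_mem' := by
    rintro f g ⟨a, ha, b, hb, hb0, rfl⟩ ⟨c, hc, d, hd, hd0, rfl⟩
    exact ⟨a * c, A.mul_mem ha hc, b * d, A.mul_mem hb hd,
      hb0.mul (hA b hb hb0.ne) hd0 (hA d hd hd0.ne), by rw [div_mul_div_comm]⟩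
  add_mem' := by
    rintro f g ⟨a, ha, b, hb, hb0, rfl⟩ ⟨c, hc, d, hd, hd0, rfl⟩
    exact ⟨a * d + b * c, A.add_mem (A.mul_mem ha hd) (A.mul_mem hb hc), b * d,
      A.mul_mem hb hd, hb0.mul (hA b hb hb0.ne) hd0 (hA d hd hd0.ne), by
        rw [div_add_div _ _ hb0.ne hd0.ne]⟩
  algebraMap_mem' := by
    intro c
    exact ⟨algebraMap Λ Ω c, A.algebraMap_mem c, 1, A.one_mem, MonoPos.one, by rw [div_one]⟩

variable {A : Subalgebra Λ Ω} {hA : ∀ a ∈ A, v.Ge 0 a}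

theorem le_QM : A ≤ N.QM A hA := by
  intro a ha
  exact ⟨a, ha, 1, A.one_mem, MonoPos.one, by rw [div_one]⟩

theorem qm_inv {f : Ω} (hf : f ∈ N.QM A hA) (h0 : 0 ≤ v f) (h1 : N.MonoPos f) :
    f⁻¹ ∈ N.QM A hA := by
  obtain ⟨a, ha, b, hb, hbm, rfl⟩ := hf
  have hb0 := hbm.ne
  have h2 := h1.mul h0 hbm (hA b hb hb0)
  rw [div_mul_cancel₀ a hb0] at h2
  exact ⟨b, hb, a, ha, h2, by rw [inv_div]⟩

theorem qm_locv {S : Subalgebra Λ Ω} (hS : S ≤ N.QM A hA) (hSR : S ≤ N.R) :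
    locv v S ≤ N.QM A hA := by
  rintro f ⟨a, ha, b, hb, hb0, hvb, rfl⟩
  rw [div_eq_mul_inv]
  exact (N.QM A hA).mul_mem (hS ha)
    (qm_inv (hS hb) hvb.ge (MonoPos.of_unit (hSR hb) hb0 hvb))

/-- The ring of the frame is the local ring of a chart of a blowing up. -/
theorem chart_of (N : WN Λ v r) (A : Finset Ω)
    (hA : ∀ a ∈ Algebra.adjoin Λ (A : Set Ω), v.Ge 0 a)
    (hAR : ∀ a ∈ A, a ∈ N.R) (FR : Finset Ω) (hR : N.R = locv v (Algebra.adjoin Λ (FR : Set Ω)))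
    (hq : ∀ f ∈ FR, f ∈ N.QM (Algebra.adjoin Λ (A : Set Ω)) hA) :
    ∃ g ∈ Algebra.adjoin Λ (A : Set Ω), g ≠ 0 ∧ N.MonoPos g ∧ ∃ G : Finset Ω,
      (∀ x ∈ G, x ∈ Algebra.adjoin Λ (A : Set Ω) ∧ v.Ge (v g) x) ∧
      N.R = locv v (Algebra.adjoin Λ ((A : Set Ω) ∪ (fun x => x / g) '' (G : Set Ω))) := by
  classical
  have hNloc : ∀ f ∈ N.R, f ≠ 0 → v f = 0 → f⁻¹ ∈ N.R := fun f hf h0 h1 => N.loc hf h0 h1
  have hFR : ∀ f ∈ FR, f ∈ N.R := by
    intro f hf
    rw [hR]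
    exact le_locv _ (Algebra.subset_adjoin (Finset.mem_coe.2 hf))
  have hfrac : ∀ w : Ω, ∃ nu de : Ω, w ∈ FR → (nu ∈ Algebra.adjoin Λ (A : Set Ω) ∧
      de ∈ Algebra.adjoin Λ (A : Set Ω) ∧ N.MonoPos de ∧ w = nu / de) := by
    intro w
    by_cases hw : w ∈ FR
    · obtain ⟨a, ha, b, hb, hbm, h1⟩ := hq w hw
      exact ⟨a, b, fun _ => ⟨ha, hb, hbm, h1⟩⟩
    · exact ⟨0, 0, fun h => absurd h hw⟩
  choose nu de hnd using hfrac
  have hprod : ∀ s : Finset Ω, s ⊆ FR → (∏ w ∈ s, de w) ∈ Algebra.adjoin Λ (A : Set Ω) ∧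
      N.MonoPos (∏ w ∈ s, de w) := by
    intro s
    induction s using Finset.induction_on with
    | empty =>
      intro _
      rw [Finset.prod_empty]
      exact ⟨Subalgebra.one_mem _, MonoPos.one⟩
    | insert w s hw ih =>
      intro hs
      have h1 := ih fun z hz => hs (Finset.mem_insert_of_mem hz)
      have h2 := hnd w (hs (Finset.mem_insert_self w s))
      rw [Finset.prod_insert hw]
      exact ⟨Subalgebra.mul_mem _ h2.2.1 h1.1,
        h2.2.2.1.mul (hA _ h2.2.1 h2.2.2.1.ne) h1.2 (hA _ h1.1 h1.2.ne)⟩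
  obtain ⟨g, hg⟩ : ∃ g : Ω, g = ∏ w ∈ FR, de w := ⟨_, rfl⟩
  have hgA : g ∈ Algebra.adjoin Λ (A : Set Ω) := by rw [hg]; exact (hprod FR subset_rfl).1
  have hgm : N.MonoPos g := by rw [hg]; exact (hprod FR subset_rfl).2
  have hg0 : g ≠ 0 := hgm.ne
  refine ⟨g, hgA, hg0, hgm, FR.image fun w => g * w, ?_, ?_⟩
  · intro x hx
    obtain ⟨w, hw, rfl⟩ := Finset.mem_image.1 hx
    refine ⟨?_, fun h0 => ?_⟩
    · have h1 : g * w = nu w * ∏ w' ∈ FR.erase w, de w' := by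
        have h2 : de w ≠ 0 := (hnd w hw).2.2.1.ne
        have h3 : nu w = w * de w := (div_eq_iff h2).1 (hnd w hw).2.2.2.symm
        rw [hg, ← Finset.mul_prod_erase _ _ hw, h3]
        ring
      rw [h1]
      exact Subalgebra.mul_mem _ (hnd w hw).1 (hprod _ (Finset.erase_subset _ _)).1
    · have h1 : w ≠ 0 := right_ne_zero_of_mul h0
      rw [v.map_mul hg0 h1]
      have := N.nonneg w (hFR w hw) h1
      linarith
  · have h1 : (fun x => x / g) '' ((FR.image fun w => g * w : Finset Ω) : Set Ω) =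
        (FR : Set Ω) := by
      ext z
      simp only [Set.mem_image, Finset.mem_coe, Finset.mem_image]
      constructor
      · rintro ⟨_, ⟨w, hw, rfl⟩, rfl⟩
        rw [mul_div_cancel_left₀ _ hg0]
        exact hw
      · intro hz
        exact ⟨g * z, ⟨z, hz, rfl⟩, mul_div_cancel_left₀ _ hg0⟩
    rw [h1]
    apply le_antisymm
    · conv_lhs => rw [hR]
      exact locv_mono (Algebra.adjoin_mono Set.subset_union_right)
    · refine locv_le ?_ hNloc
      rw [Algebra.adjoin_le_iff]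
      rintro f (hf | hf)
      · exact hAR f hf
      · exact hFR f hf

end WN

end Pool.Agent.LUM
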