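import Pool.Agent.Lib.LUM.I03

/-! # A01: the trace on `L` of the ring of an adapted frame

`B` is a frame over the closed base `Λ'`, `S = B.tr Λ L = B.R ∩ L`.
Recipes. `tr_sup`: `B.R = locv Λ'[F, χ(≥0)]` with `F, χ(≥0) ⊆ S`, and `Λ'` is `henU`: a
`Λ'`-polynomial in elements of `S` is in `S ⊔ henU`; conversely both are in `B.R`.
`tr_linD` is `linD_henU` for `S` (elements of `L ∩ O_v` algebraic over `Q` are in `henU ⊆ B.R` by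
`Unr`).  `tr_quoIs`: `LinD.frac` (an element of `L` is a quotient of elements of `B.R`).
`tr_gen`: `f = χ(γ) a + y b` with `a, b ∈ B.R`: `LinD.ideal`.
`tr_fgen`: `T := locv Λ[F, H, χ(≥0)] ≤ S`, `B.R = locv (T ⊔ henU)`, `linD_henU` for `T`, so `S ≤ T` by
`LinD.mem`. -/

set_option autoImplicit false
set_option linter.unusedSectionVars false
set_option linter.unusedVariables false

open Polynomial

namespace Pool.Agent.LUM

open Pool.Agent.H15JM (RVal)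
open Pool.Agent.LU1 (VPos LatData val_add_vpos adj GoodBasis)

universe u

variable {Λ Λ' Q Ω : Type u} [CommRing Λ] [IsDomain Λ] [IsDiscreteValuationRing Λ]
  [CommRing Λ'] [IsDomain Λ'] [IsDiscreteValuationRing Λ'] [Algebra Λ Λ'] [Field Q]
  [Algebra Λ Q] [IsFractionRing Λ Q] [Field Ω] [Algebra Λ Ω] [Algebra Λ' Ω]
  [IsScalarTower Λ Λ' Ω] [Algebra Q Ω] [IsScalarTower Λ Q Ω]
  {ϖ : Λ} {ϖ' : Λ'} {v : RVal Ω} {r : ℕ}

/-- A `Λ'`-polynomial in elements of `S` is in `S ⊔ henU`. -/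
private theorem mem_sup_of_adjoin (h : Clo ϖ ϖ' v r) {S : Subalgebra Λ Ω} {G : Set Ω}
    (hG : ∀ g ∈ G, g ∈ S) {f : Ω} (hf : f ∈ Algebra.adjoin Λ' G) : f ∈ S ⊔ henU Λ v := by
  induction hf using Algebra.adjoin_induction with
  | mem x hx => exact (le_sup_left : S ≤ S ⊔ henU Λ v) (hG x hx)
  | algebraMap c => exact (le_sup_right : henU Λ v ≤ S ⊔ henU Λ v) ((h.rng _).2 ⟨c, rfl⟩)
  | add x y _ _ hx hy => exact add_mem hx hy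
  | mul x y _ _ hx hy => exact mul_mem hx hy

private theorem mem_locv_sup (h : Clo ϖ ϖ' v r) {S : Subalgebra Λ Ω} {G : Set Ω}
    (hG : ∀ g ∈ G, g ∈ S) {f : Ω} (hf : f ∈ locv v (Algebra.adjoin Λ' G)) :
    f ∈ locv v (S ⊔ henU Λ v) := by
  obtain ⟨a, ha, b, hb, hb0, hvb, rfl⟩ := hf
  exact ⟨a, mem_sup_of_adjoin h hG ha, b, mem_sup_of_adjoin h hG hb, hb0, hvb, rfl⟩

namespace BF

theorem mem_tr {B : BF ϖ' v} {L : IntermediateField Q Ω} {f : Ω} :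
    f ∈ B.tr Λ L ↔ f ∈ B.R ∧ f ∈ L := Iff.rfl

theorem henU_le (h : Clo ϖ ϖ' v r) (B : BF ϖ' v) {x : Ω} (hx : x ∈ henU Λ v) : x ∈ B.R := by
  obtain ⟨c, rfl⟩ := (h.rng x).1 hx
  exact B.R.algebraMap_mem c

theorem tr_sup (h : Clo ϖ ϖ' v r) (B : BF ϖ' v) {L : IntermediateField Q Ω} (hB : Adap B L)
    (f : Ω) : f ∈ B.R ↔ f ∈ locv v (B.tr Λ L ⊔ henU Λ v) := by
  constructor
  · intro hf
    obtain ⟨F, hFL, hF⟩ := hB.fgen
    have hf' := hf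
    rw [hF] at hf'
    refine mem_locv_sup h (fun g hg => ?_) hf'
    rcases hg with hg | ⟨γ, ⟨hγ, hγ0⟩, rfl⟩
    · refine mem_tr.2 ⟨?_, hFL g hg⟩
      rw [hF]
      exact le_locv _ (Algebra.subset_adjoin (Or.inl hg))
    · exact mem_tr.2 ⟨B.χ_mem γ hγ hγ0, hB.χ γ hγ⟩
  · have h1 : B.tr Λ L ⊔ henU Λ v ≤ B.R.restrictScalars Λ :=
      sup_le (fun x hx => (mem_tr.1 hx).1) (fun x hx => henU_le h B hx)
    rintro ⟨a, ha, b, hb, hb0, hvb, rfl⟩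
    rw [div_eq_mul_inv]
    exact B.R.mul_mem (h1 ha) (B.loc b (h1 hb) hb0 hvb)

private theorem restrict_eq (h : Clo ϖ ϖ' v r) (B : BF ϖ' v) {L : IntermediateField Q Ω}
    (hB : Adap B L) : B.R.restrictScalars Λ = locv v (B.tr Λ L ⊔ henU Λ v) := by
  ext f
  exact tr_sup h B hB f

theorem tr_linD (h : Clo ϖ ϖ' v r) [CharZero Q] (B : BF ϖ' v) {L : IntermediateField Q Ω}
    (hB : Adap B L) (hU : Unr Λ v L) :
    LinD v (L : Set Ω) (B.tr Λ L) (B.R.restrictScalars Λ) := by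
  rw [restrict_eq h B hB]
  refine linD_henU h.c0 L (B.tr Λ L) (fun f hf => (mem_tr.1 hf).2)
    (fun f hf => B.nonneg f (mem_tr.1 hf).1) (fun f hf h0 h1 => ?_) (fun x hx ha hv => ?_) hU
  · exact mem_tr.2 ⟨B.loc f (mem_tr.1 hf).1 h0 h1, L.inv_mem (mem_tr.1 hf).2⟩
  · exact mem_tr.2 ⟨henU_le h B (hU x hx ha hv), hx⟩

theorem tr_loc (B : BF ϖ' v) {L : IntermediateField Q Ω} : ∀ f ∈ B.tr Λ L, f ≠ 0 → v f = 0 →
    f⁻¹ ∈ B.tr Λ L := by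
  intro f hf h0 h1
  exact mem_tr.2 ⟨B.loc f (mem_tr.1 hf).1 h0 h1, L.inv_mem (mem_tr.1 hf).2⟩

/-- `R ∩ L` has `L` as field of fractions. -/
theorem tr_quoIs (h : Clo ϖ ϖ' v r) [CharZero Q] (B : BF ϖ' v) {L : IntermediateField Q Ω}
    (hB : Adap B L) (hU : Unr Λ v L) (hF : ∀ g ∈ L, ∃ a ∈ B.R, ∃ b ∈ B.R, b ≠ 0 ∧ g = a / b) :
    QuoIs (B.tr Λ L) (L : Set Ω) := by
  refine ⟨fun f hf => (mem_tr.1 hf).2, fun g hg => ?_⟩
  obtain ⟨a, ha, b, hb, hb0, he⟩ := hF g hg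
  exact (tr_linD h B hB hU).frac (L.neg_mem L.one_mem) hg
    (show a ∈ B.R.restrictScalars Λ from ha) (show b ∈ B.R.restrictScalars Λ from hb) hb0 he

theorem tr_gen (h : Clo ϖ ϖ' v r) [CharZero Q] (B : BF ϖ' v) {L : IntermediateField Q Ω}
    (hB : Adap B L) (hU : Unr Λ v L) {f : Ω} (hf : f ∈ B.tr Λ L) (hv : VPos v f) :
    ∃ γ ∈ B.Γ, 0 < γ ∧ ∃ a ∈ B.tr Λ L, ∃ b ∈ B.tr Λ L, f = B.χ γ * a + B.y * b := by
  obtain ⟨γ, hγ, hγ0, a, ha, b, hb, he⟩ := B.gen f (mem_tr.1 hf).1 hv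
  obtain ⟨β, hβ, he'⟩ := (tr_linD h B hB hU).ideal (tr_loc B) (fun x hx => L.neg_mem hx)
    ![B.χ γ, B.y] ![a, b] (by
      intro j
      fin_cases j
      · exact hB.χ γ hγ
      · exact hB.y) (by
      intro j
      fin_cases j
      · exact ha
      · exact hb) (mem_tr.1 hf).2 (by
      rw [Fin.sum_univ_two]
      exact he)
  refine ⟨γ, hγ, hγ0, β 0, hβ 0, β 1, hβ 1, ?_⟩
  rw [Fin.sum_univ_two] at he'
  exact he'

theorem tr_fgen (h : Clo ϖ ϖ' v r) [CharZero Q] (B : BF ϖ' v) {L : IntermediateField Q Ω}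
    (hB : Adap B L) (hU : Unr Λ v L) (F H : Finset Ω) (hFL : ∀ f ∈ F, f ∈ L)
    (hF : B.R = locv v (Algebra.adjoin Λ' ((F : Set Ω) ∪ B.χ '' {γ | γ ∈ B.Γ ∧ 0 ≤ γ})))
    (hH : ∀ x ∈ H, x ∈ L ∧ v.Ge 0 x ∧ IsAlgebraic Q x)
    (hH' : ∀ x ∈ L, IsAlgebraic Q x → v.Ge 0 x → x ∈ locv v (Algebra.adjoin Λ (H : Set Ω))) :
    B.tr Λ L = locv v (Algebra.adjoin Λ
      ((F : Set Ω) ∪ (H : Set Ω) ∪ B.χ '' {γ | γ ∈ B.Γ ∧ 0 ≤ γ})) := by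
  have hle : Algebra.adjoin Λ ((F : Set Ω) ∪ (H : Set Ω) ∪ B.χ '' {γ | γ ∈ B.Γ ∧ 0 ≤ γ}) ≤
      B.tr Λ L := by
    rw [Algebra.adjoin_le_iff]
    rintro f ((hf | hf) | ⟨γ, ⟨hγ, hγ0⟩, rfl⟩)
    · refine mem_tr.2 ⟨?_, hFL f hf⟩
      rw [hF]
      exact le_locv _ (Algebra.subset_adjoin (Or.inl hf))
    · obtain ⟨h1, h2, h3⟩ := hH f hf
      exact mem_tr.2 ⟨henU_le h B (hU f h1 h3 h2), h1⟩
    · exact mem_tr.2 ⟨B.χ_mem γ hγ hγ0, hB.χ γ hγ⟩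
  have hTS : locv v (Algebra.adjoin Λ
      ((F : Set Ω) ∪ (H : Set Ω) ∪ B.χ '' {γ | γ ∈ B.Γ ∧ 0 ≤ γ})) ≤ B.tr Λ L :=
    locv_le hle (tr_loc B)
  refine le_antisymm ?_ hTS
  have hlin := linD_henU h.c0 L (locv v (Algebra.adjoin Λ
      ((F : Set Ω) ∪ (H : Set Ω) ∪ B.χ '' {γ | γ ∈ B.Γ ∧ 0 ≤ γ})))
    (fun f hf => (mem_tr.1 (hTS hf)).2) (fun f hf => B.nonneg f (mem_tr.1 (hTS hf)).1)
    (fun f hf h0 h1 => locv_inv hf h0 h1) (fun x hx ha hv => by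
      refine locv_mono (Algebra.adjoin_mono ?_) (hH' x hx ha hv)
      exact fun z hz => Or.inl (Or.inr hz)) hU
  intro f hf
  have hf' := (mem_tr.1 hf).1
  rw [hF] at hf'
  refine hlin.mem (le_sup_left.trans (le_locv _)) (fun f hf h0 h1 => locv_inv hf h0 h1)
    (L.neg_mem L.one_mem) (mem_tr.1 hf).2 (mem_locv_sup h (fun g hg => ?_) hf')
  rcases hg with hg | hg
  · exact le_locv _ (Algebra.subset_adjoin (Or.inl (Or.inl hg)))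
  · exact le_locv _ (Algebra.subset_adjoin (Or.inr hg))

end BF

end Pool.Agent.LUM
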