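import Pool.Agent.Lib.LUM.A01
import Pool.Agent.Lib.LUM.Q01
import Pool.Agent.Lib.LUM.NFb

/-! # A02: Lemma N for adapted frames: weak noetherian frames inside the trace -/

set_option autoImplicit false
set_option linter.unusedSectionVars false
set_option linter.unusedVariables false

open Polynomial

namespace Pool.Agent.LUM

open Pool.Agent.H15JM (RVal)
open Pool.Agent.LU1 (VPos LatData val_add_vpos adj GoodBasis)

universe u

variable {Λ Λ' Q Ω : Type u} [CommRing Λ] [IsDomain Λ] [IsDiscreteValuationRing Λ]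
  [CommRing Λ'] [IsDomain Λ'] [IsDiscreteValuationRing Λ'] [Algebra Λ Λ'] [Field Q]
  [Algebra Λ Q] [IsFractionRing Λ Q] [Field Ω] [Algebra Λ Ω] [Algebra Λ' Ω]
  [IsScalarTower Λ Λ' Ω] [Algebra Q Ω] [IsScalarTower Λ Q Ω]
  {ϖ : Λ} {ϖ' : Λ'} {v : RVal Ω} {r : ℕ}

namespace WNA

/-- Only finitely many monomials are used. -/
theorem adjoin_finite (B : BF ϖ' v) (F : Set Ω) {f : Ω}
    (hf : f ∈ Algebra.adjoin Λ (F ∪ B.χ '' {γ | γ ∈ B.Γ ∧ 0 ≤ γ})) :
    ∃ S : Finset ℝ, (∀ γ ∈ S, γ ∈ B.Γ ∧ 0 < γ) ∧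
      f ∈ Algebra.adjoin Λ (F ∪ B.χ '' (S : Set ℝ)) := by
  classical
  have mono : ∀ {S T : Finset ℝ}, S ⊆ T → Algebra.adjoin Λ (F ∪ B.χ '' (S : Set ℝ)) ≤
      Algebra.adjoin Λ (F ∪ B.χ '' (T : Set ℝ)) := fun h =>
    Algebra.adjoin_mono (Set.union_subset_union_right _ (Set.image_mono (by exact_mod_cast h)))
  have hun : ∀ {S T : Finset ℝ}, (∀ γ ∈ S, γ ∈ B.Γ ∧ 0 < γ) → (∀ γ ∈ T, γ ∈ B.Γ ∧ 0 < γ) →
      ∀ γ ∈ S ∪ T, γ ∈ B.Γ ∧ 0 < γ := by
    intro S T h1 h2 γ hγ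
    rcases Finset.mem_union.1 hγ with h | h
    · exact h1 γ h
    · exact h2 γ h
  induction hf using Algebra.adjoin_induction with
  | mem x hx =>
    rcases hx with hx | ⟨γ, ⟨hγ, h0⟩, rfl⟩
    · exact ⟨∅, by simp, Algebra.subset_adjoin (Or.inl hx)⟩
    · rcases h0.lt_or_eq with h1 | rfl
      · exact ⟨{γ}, by simp [hγ, h1], Algebra.subset_adjoin (Or.inr ⟨γ, by simp, rfl⟩)⟩
      · exact ⟨∅, by simp, by rw [B.χ_zero]; exact Subalgebra.one_mem _⟩
  | algebraMap c => exact ⟨∅, by simp, Subalgebra.algebraMap_mem _ c⟩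
  | add x y _ _ hx hy =>
    obtain ⟨S, hS, h1⟩ := hx
    obtain ⟨T, hT, h2⟩ := hy
    exact ⟨S ∪ T, hun hS hT, Subalgebra.add_mem _ (mono Finset.subset_union_left h1)
      (mono Finset.subset_union_right h2)⟩
  | mul x y _ _ hx hy =>
    obtain ⟨S, hS, h1⟩ := hx
    obtain ⟨T, hT, h2⟩ := hy
    exact ⟨S ∪ T, hun hS hT, Subalgebra.mul_mem _ (mono Finset.subset_union_left h1)
      (mono Finset.subset_union_right h2)⟩

theorem locv_finite (B : BF ϖ' v) (F : Set Ω) {f : Ω}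
    (hf : f ∈ locv v (Algebra.adjoin Λ (F ∪ B.χ '' {γ | γ ∈ B.Γ ∧ 0 ≤ γ}))) :
    ∃ S : Finset ℝ, (∀ γ ∈ S, γ ∈ B.Γ ∧ 0 < γ) ∧
      f ∈ locv v (Algebra.adjoin Λ (F ∪ B.χ '' (S : Set ℝ))) := by
  classical
  obtain ⟨a, ha, b, hb, h0, h1, rfl⟩ := hf
  obtain ⟨S, hS, h2⟩ := adjoin_finite B F ha
  obtain ⟨T, hT, h3⟩ := adjoin_finite B F hb
  refine ⟨S ∪ T, fun γ hγ => ?_, a, ?_, b, ?_, h0, h1, rfl⟩
  · rcases Finset.mem_union.1 hγ with h | h
    · exact hS γ h
    · exact hT γ h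
  · exact Algebra.adjoin_mono (Set.union_subset_union_right _ (Set.image_mono
      (by exact_mod_cast Finset.subset_union_left))) h2
  · exact Algebra.adjoin_mono (Set.union_subset_union_right _ (Set.image_mono
      (by exact_mod_cast Finset.subset_union_right))) h3

/-- The ideal of the elements of positive value of a finitely generated algebra. -/
theorem exists_gens (F : Finset Ω) (hF : ∀ f ∈ Algebra.adjoin Λ (F : Set Ω), v.Ge 0 f) :
    ∃ Z : Finset Ω, (∀ z ∈ Z, z ∈ Algebra.adjoin Λ (F : Set Ω) ∧ VPos v z) ∧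
      ∀ f ∈ Algebra.adjoin Λ (F : Set Ω), VPos v f →
        ∃ a : Ω → Ω, (∀ z ∈ Z, a z ∈ Algebra.adjoin Λ (F : Set Ω)) ∧ f = ∑ z ∈ Z, a z * z := by
  classical
  set A := Algebra.adjoin Λ (F : Set Ω) with hA
  have : Algebra.FiniteType Λ A := (Subalgebra.fg_iff_finiteType A).1 ⟨F, rfl⟩
  have hN : IsNoetherianRing A := Algebra.FiniteType.isNoetherianRing Λ A
  let I : Ideal A :=
    { carrier := {z | VPos v (z : Ω)}
      zero_mem' := fun h0 => absurd rfl h0
      add_mem' := fun {a b} ha hb => by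
        have := VPos.add ha hb
        simpa using this
      smul_mem' := fun c {z} hz => by
        have := VPos.mul' (hF c c.2) hz
        simpa using this }
  obtain ⟨Z, hZ⟩ := hN.noetherian I
  refine ⟨Z.image Subtype.val, ?_, ?_⟩
  · intro z hz
    obtain ⟨w, hw, rfl⟩ := Finset.mem_image.1 hz
    have : w ∈ I := by rw [← hZ]; exact Ideal.subset_span hw
    exact ⟨w.2, this⟩
  · intro f hf hv
    have h1 : (⟨f, hf⟩ : A) ∈ Submodule.span A (Z : Set A) := by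
      rw [hZ]; exact hv
    obtain ⟨c, -, hc⟩ := Submodule.mem_span_finset.1 h1
    refine ⟨fun z => if hz : z ∈ A then (c ⟨z, hz⟩ : Ω) else 0, ?_, ?_⟩
    · intro z hz
      by_cases hzA : z ∈ A
      · simp only [dif_pos hzA]; exact (c _).2
      · simp only [dif_neg hzA]; exact A.zero_mem
    · rw [Finset.sum_image fun a _ b _ hab => Subtype.ext hab]
      have h2 := congrArg (fun z : A => (z : Ω)) hc
      simp only at h2
      rw [← h2, AddSubmonoidClass.coe_finsetSum]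
      refine Finset.sum_congr rfl fun w _ => ?_
      have hw : (w : Ω) ∈ A := w.2
      simp only [smul_eq_mul, Subalgebra.coe_mul, dif_pos hw]

end WNA

theorem exists_WN (h : Clo ϖ ϖ' v r) [CharZero Q] (B : BF ϖ' v) {L : IntermediateField Q Ω}
    (hB : Adap B L) (hU : Unr Λ v L) (Fp : Finset Ω) (hFp : ∀ f ∈ Fp, f ∈ B.tr Λ L)
    (hS : B.tr Λ L =
      locv v (Algebra.adjoin Λ ((Fp : Set Ω) ∪ B.χ '' {γ | γ ∈ B.Γ ∧ 0 ≤ γ})))
    (T : Finset Ω) (hT : ∀ f ∈ T, f ∈ B.tr Λ L) :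
    ∃ S0 : Finset ℝ, (∀ γ ∈ S0, γ ∈ B.Γ ∧ 0 < γ) ∧
      ∀ u : Fin r → ℝ, GoodBasis B.Γ (S0 : Set ℝ) u →
        ∃ N : WN Λ v r, (∀ i, N.x i = B.χ (u i)) ∧ N.y = B.y ∧
          N.R = locv v (Algebra.adjoin Λ ((Fp : Set Ω) ∪ Set.range N.x)) ∧
          N.R ≤ B.tr Λ L ∧ (∀ f ∈ T, f ∈ N.R) ∧ N.Kap := by
  classical
  have hSnn : ∀ f ∈ B.tr Λ L, v.Ge 0 f := fun f hf => B.nonneg f (BF.mem_tr.1 hf).1
  have hC0S : Algebra.adjoin Λ (Fp : Set Ω) ≤ B.tr Λ L := Algebra.adjoin_le hFp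
  have hyS : B.y ∈ B.tr Λ L := BF.mem_tr.2 ⟨B.y_mem, hB.y⟩
  obtain ⟨Z, hZ, hZg⟩ := WNA.exists_gens (Λ := Λ) (v := v) Fp
    fun f hf => hSnn f (hC0S hf)
  -- the data of the generators
  have key : ∀ z : {z // z ∈ Z}, ∃ (γ : ℝ) (a b : Ω) (S : Finset ℝ),
      γ ∈ B.Γ ∧ 0 < γ ∧ (∀ δ ∈ S, δ ∈ B.Γ ∧ 0 < δ) ∧
      a ∈ locv v (Algebra.adjoin Λ ((Fp : Set Ω) ∪ B.χ '' (S : Set ℝ))) ∧
      b ∈ locv v (Algebra.adjoin Λ ((Fp : Set Ω) ∪ B.χ '' (S : Set ℝ))) ∧
      (z : Ω) = B.χ γ * a + B.y * b := by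
    rintro ⟨z, hz⟩
    obtain ⟨γ, hγ, hγ0, a, ha, b, hb, e⟩ := B.tr_gen h hB hU (hC0S (hZ z hz).1) (hZ z hz).2
    rw [hS] at ha hb
    obtain ⟨S, hS, h1⟩ := WNA.locv_finite B _ ha
    obtain ⟨S', hS', h2⟩ := WNA.locv_finite B _ hb
    refine ⟨γ, a, b, S ∪ S', hγ, hγ0, fun δ hδ => ?_, ?_, ?_, e⟩
    · rcases Finset.mem_union.1 hδ with h3 | h3
      · exact hS δ h3
      · exact hS' δ h3
    · exact locv_mono (Algebra.adjoin_mono (Set.union_subset_union_right _ (Set.image_mono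
        (by exact_mod_cast Finset.subset_union_left)))) h1
    · exact locv_mono (Algebra.adjoin_mono (Set.union_subset_union_right _ (Set.image_mono
        (by exact_mod_cast Finset.subset_union_right)))) h2
  choose γ a b S hγ hγ0 hS' ha hb hab using key
  -- the data of `T` and `y`
  have keyT : ∀ t : {t // t ∈ insert B.y T}, ∃ S : Finset ℝ,
      (∀ δ ∈ S, δ ∈ B.Γ ∧ 0 < δ) ∧
      (t : Ω) ∈ locv v (Algebra.adjoin Λ ((Fp : Set Ω) ∪ B.χ '' (S : Set ℝ))) := by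
    rintro ⟨t, ht⟩
    have h1 : t ∈ B.tr Λ L := by
      rcases Finset.mem_insert.1 ht with rfl | h2
      · exact hyS
      · exact hT t h2
    rw [hS] at h1
    exact WNA.locv_finite B _ h1
  choose ST hST hTS using keyT
  refine ⟨(Z.attach.biUnion fun z => insert (γ z) (S z)) ∪
    ((insert B.y T).attach.biUnion ST), ?_, fun u hu => ?_⟩
  · intro δ hδ
    rcases Finset.mem_union.1 hδ with hδ | hδ
    · obtain ⟨z, -, hz⟩ := Finset.mem_biUnion.1 hδ
      rcases Finset.mem_insert.1 hz with rfl | hz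
      · exact ⟨hγ z, hγ0 z⟩
      · exact hS' z δ hz
    · obtain ⟨t, -, ht⟩ := Finset.mem_biUnion.1 hδ
      exact hST t δ ht
  -- the frame
  set x : Fin r → Ω := fun i => B.χ (u i) with hx
  set A : Subalgebra Λ Ω := Algebra.adjoin Λ ((Fp : Set Ω) ∪ Set.range x) with hA
  have hxA : ∀ i, x i ∈ A := fun i => Algebra.subset_adjoin (Or.inr ⟨i, rfl⟩)
  have hFA : Algebra.adjoin Λ (Fp : Set Ω) ≤ A := Algebra.adjoin_mono Set.subset_union_left
  have hAS : A ≤ B.tr Λ L := by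
    refine Algebra.adjoin_le ?_
    rintro f (hf | ⟨i, rfl⟩)
    · exact hFp f hf
    · exact BF.mem_tr.2 ⟨B.χ_mem _ (hu.mem i) (hu.pos i).le, hB.χ _ (hu.mem i)⟩
  have hRS : locv v A ≤ B.tr Λ L := locv_le hAS B.tr_loc
  have hnon : ∀ f ∈ locv v A, v.Ge 0 f := fun f hf => hSnn f (hRS hf)
  -- monomials with natural exponents
  have hmon : ∀ n : Fin r → ℕ, B.χ (∑ i, (n i : ℝ) * u i) ∈ A := by
    intro n
    have h1 := (NFA.χ_sum B Finset.univ u hu.mem fun i => (n i : ℤ)).2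
    simp only [Int.cast_natCast] at h1
    rw [h1]
    exact Subalgebra.prod_mem _ fun i _ => by
      rw [zpow_natCast]; exact Subalgebra.pow_mem _ (hxA i) _
  have i0 : Fin r := ⟨0, h.c0.rpos⟩
  have hcone : ∀ δ : ℝ, (∃ n : Fin r → ℕ, (∀ i, 0 < n i) ∧ δ = ∑ i, (n i : ℝ) * u i) →
      ∃ e ∈ A, B.χ δ = x i0 * e := by
    rintro δ ⟨n, hn, rfl⟩
    refine ⟨B.χ (∑ i, ((Function.update n i0 (n i0 - 1)) i : ℝ) * u i), hmon _, ?_⟩
    have h2 : ∑ i, (n i : ℝ) * u i =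
        u i0 + ∑ i, ((Function.update n i0 (n i0 - 1)) i : ℝ) * u i := by
      rw [← Finset.add_sum_erase _ _ (Finset.mem_univ i0),
        ← Finset.add_sum_erase _ (fun i => ((Function.update n i0 (n i0 - 1)) i : ℝ) * u i)
        (Finset.mem_univ i0)]
      have h3 : ∑ i ∈ Finset.univ.erase i0, ((Function.update n i0 (n i0 - 1)) i : ℝ) * u i =
          ∑ i ∈ Finset.univ.erase i0, (n i : ℝ) * u i := by
        refine Finset.sum_congr rfl fun i hi => ?_
        rw [Function.update_of_ne (Finset.ne_of_mem_erase hi)]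
      rw [h3, Function.update_self, Nat.cast_sub (hn i0)]
      push_cast
      ring
    have h4 : ∑ i, ((Function.update n i0 (n i0 - 1)) i : ℝ) * u i ∈ B.Γ := by
      have h5 := (NFA.χ_sum B Finset.univ u hu.mem fun i =>
        ((Function.update n i0 (n i0 - 1)) i : ℤ)).1
      simpa using h5
    rw [h2, B.χ_add _ (hu.mem i0) _ h4]
  have hS0 : ∀ z : {z // z ∈ Z}, ∀ δ ∈ insert (γ z) (S z), ∃ e ∈ A, B.χ δ = x i0 * e := by
    intro z δ hδ
    refine hcone δ (hu.cone δ ?_)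
    rw [Finset.mem_coe, Finset.mem_union, Finset.mem_biUnion]
    exact Or.inl ⟨z, Finset.mem_attach _ _, hδ⟩
  have hFS : ∀ z : {z // z ∈ Z},
      Algebra.adjoin Λ ((Fp : Set Ω) ∪ B.χ '' (S z : Set ℝ)) ≤ A := by
    intro z
    refine Algebra.adjoin_le ?_
    rintro f (hf | ⟨δ, hδ, rfl⟩)
    · exact hFA (Algebra.subset_adjoin hf)
    · obtain ⟨e, he, h1⟩ := hS0 z δ (Finset.mem_insert_of_mem hδ)
      rw [SetLike.mem_coe, h1]
      exact A.mul_mem (hxA i0) he
  have hTA : ∀ t ∈ insert B.y T, t ∈ locv v A := by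
    intro t ht
    refine locv_mono (Algebra.adjoin_le ?_) (hTS ⟨t, ht⟩)
    rintro f (hf | ⟨δ, hδ, rfl⟩)
    · exact hFA (Algebra.subset_adjoin hf)
    · obtain ⟨e, he, h1⟩ := hcone δ (hu.cone δ (by
        rw [Finset.mem_coe, Finset.mem_union, Finset.mem_biUnion]
        exact Or.inr (Finset.mem_biUnion.2 ⟨⟨t, ht⟩, Finset.mem_attach _ _, hδ⟩)))
      rw [SetLike.mem_coe, h1]
      exact A.mul_mem (hxA i0) he
  have hyA : B.y ∈ locv v A := hTA _ (Finset.mem_insert_self _ _)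
  -- the ideal
  let I : Ω → Prop := fun f => ∃ a : Fin r → Ω, (∀ i, a i ∈ locv v A) ∧ ∃ b ∈ locv v A,
    f = ∑ i, x i * a i + B.y * b
  have hIadd : ∀ f g, I f → I g → I (f + g) := by
    rintro f g ⟨a, ha, b, hb, rfl⟩ ⟨a', ha', b', hb', rfl⟩
    refine ⟨fun i => a i + a' i, fun i => Subalgebra.add_mem _ (ha i) (ha' i), b + b',
      Subalgebra.add_mem _ hb hb', ?_⟩
    simp only [mul_add, Finset.sum_add_distrib]
    ring
  have hImul : ∀ f g, I f → g ∈ locv v A → I (f * g) := by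
    rintro f g ⟨a, ha, b, hb, rfl⟩ hg
    refine ⟨fun i => a i * g, fun i => Subalgebra.mul_mem _ (ha i) hg, b * g,
      Subalgebra.mul_mem _ hb hg, ?_⟩
    rw [add_mul, Finset.sum_mul]
    simp only [mul_assoc]
  have hIx : ∀ i, I (x i) := fun i => ⟨Pi.single i 1, fun j => by
      by_cases hj : j = i
      · subst hj; rw [Pi.single_eq_same]; exact Subalgebra.one_mem _
      · rw [Pi.single_eq_of_ne hj]; exact Subalgebra.zero_mem _, 0, Subalgebra.zero_mem _, by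
      simp [Pi.single_apply]⟩
  have hIy : I B.y := ⟨0, fun _ => Subalgebra.zero_mem _, 1, Subalgebra.one_mem _, by simp⟩
  have hI0 : I 0 := ⟨0, fun _ => Subalgebra.zero_mem _, 0, Subalgebra.zero_mem _, by simp⟩
  have hIpos : ∀ f, I f → VPos v f := by
    rintro f ⟨a, ha, b, hb, rfl⟩
    refine VPos.add ?_ (VPos.mul B.vpos_y (hnon b hb))
    have h1 : ∀ s : Finset (Fin r), VPos v (∑ i ∈ s, x i * a i) := by
      intro s
      induction s using Finset.induction_on with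
      | empty => simpa using VPos.zero
      | insert i s hi ih =>
        rw [Finset.sum_insert hi]
        exact VPos.add (VPos.mul (B.vpos_χ (hu.mem i) (hu.pos i)) (hnon _ (ha i))) ih
    exact h1 _
  have hIsum : ∀ (s : Finset Ω) (f : Ω → Ω), (∀ z ∈ s, I (f z)) → I (∑ z ∈ s, f z) := by
    intro s f hs
    induction s using Finset.induction_on with
    | empty => rw [Finset.sum_empty]; exact hI0
    | insert z s hz ih =>
      rw [Finset.sum_insert hz]
      exact hIadd _ _ (hs z (Finset.mem_insert_self _ _))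
        (ih fun w hw => hs w (Finset.mem_insert_of_mem hw))
  -- the generators are in the ideal
  have hIz : ∀ z ∈ Z, I z := by
    intro z hz
    have h1 := hab ⟨z, hz⟩
    simp only at h1
    rw [h1]
    obtain ⟨e, he, h2⟩ := hS0 ⟨z, hz⟩ _ (Finset.mem_insert_self _ _)
    rw [h2, mul_assoc]
    refine hIadd _ _ (hImul _ _ (hIx i0) ?_) (hImul _ _ hIy ?_)
    · exact Subalgebra.mul_mem _ (le_locv _ he) (locv_mono (hFS _) (ha _))
    · exact locv_mono (hFS _) (hb _)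
  have hIC : ∀ c ∈ Algebra.adjoin Λ (Fp : Set Ω), VPos v c → I c := by
    intro c hc hv
    obtain ⟨d, hd, rfl⟩ := hZg c hc hv
    refine hIsum _ _ fun z hz => ?_
    rw [mul_comm]
    exact hImul _ _ (hIz z hz) (le_locv _ (hFA (hd z hz)))
  -- every element of `A` is an element of `Λ[Fp]` plus an element of the ideal
  have hAI : ∀ f ∈ A, ∃ c ∈ Algebra.adjoin Λ (Fp : Set Ω), I (f - c) := by
    intro f hf
    induction hf using Algebra.adjoin_induction with
    | mem f hf =>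
      rcases hf with hf | ⟨i, rfl⟩
      · exact ⟨f, Algebra.subset_adjoin hf, by rw [sub_self]; exact hI0⟩
      · exact ⟨0, Subalgebra.zero_mem _, by rw [sub_zero]; exact hIx i⟩
    | algebraMap c => exact ⟨algebraMap Λ Ω c, Subalgebra.algebraMap_mem _ c, by
        rw [sub_self]; exact hI0⟩
    | add f g _ _ hf hg =>
      obtain ⟨c, hc, hfc⟩ := hf
      obtain ⟨d, hd, hgd⟩ := hg
      refine ⟨c + d, Subalgebra.add_mem _ hc hd, ?_⟩
      have := hIadd _ _ hfc hgd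
      convert this using 1
      ring
    | mul f g hfA hgA hf hg =>
      obtain ⟨c, hc, hfc⟩ := hf
      obtain ⟨d, hd, hgd⟩ := hg
      refine ⟨c * d, Subalgebra.mul_mem _ hc hd, ?_⟩
      have h1 := hImul _ g hfc (le_locv _ hgA)
      have h2 := hImul _ c hgd (le_locv _ (hFA hc))
      have := hIadd _ _ h1 h2
      convert this using 1
      ring
  have hgen : ∀ f ∈ locv v A, VPos v f → I f := by
    rintro f hf hfp
    obtain ⟨P, hP, R, hR, hR0, hvR, rfl⟩ := hf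
    obtain ⟨c, hc, hPc⟩ := hAI P hP
    have hPp : VPos v P := by
      intro hP0
      have h1 := hfp (div_ne_zero hP0 hR0)
      rwa [v.map_div hP0 hR0, hvR, sub_zero] at h1
    have hcp : VPos v c := by
      have h1 := hPp.sub (hIpos _ hPc)
      rwa [sub_sub_cancel] at h1
    have h3 := hIadd _ _ hPc (hIC c hc hcp)
    rw [sub_add_cancel] at h3
    rw [div_eq_mul_inv]
    exact hImul _ _ h3 (locv_inv (le_locv _ hR) hR0 hvR)
  have hxv : ∀ i, v (x i) = u i := fun i => B.χ_val _ (hu.mem i)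
  obtain ⟨κ, hκ1, hκ2, hκ3, -⟩ := B.exists_kap h.c1.toCtx0
  refine ⟨{ x := x, x_ne := fun i => B.χ_ne _ (hu.mem i),
            x_pos := fun i => by rw [hxv]; exact hu.pos i,
            x_ind := ?_, y := B.y, y_ne := B.y_ne, y_pos := B.y_pos, R := locv v A,
            nonneg := hnon, x_mem := fun i => le_locv _ (hxA i), y_mem := hyA,
            fgen := ?_, gen := hgen },
          fun i => rfl, rfl, rfl, hRS, fun f hf => hTA f (Finset.mem_insert_of_mem hf),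
          κ, fun f hf => hκ1 f (BF.mem_tr.1 (hRS hf)).1, hκ3, fun i => ?_⟩
  · have h1 : (fun i => v (x i)) = u := funext hxv
    rw [h1]; exact hu.ind
  · refine ⟨Fp ∪ Finset.univ.image x, ?_⟩
    rw [hA]
    congr 2
    ext z
    simp only [Finset.coe_union, Set.mem_union, Finset.coe_image, Finset.coe_univ, Set.image_univ]
  · change κ (x i) = v (x i)
    rw [hxv]
    exact hκ2 _ (hu.mem i)

end Pool.Agent.LUM
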