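import Pool.Agent.Lib.LUM.Basic

/-! # Constructing big frames (helper59)

`exists_BF_of`: a finitely generated `Γ`, `χ`, `y` and a finite set `F` of elements of the ring
`R' = locv k[F, χ(Γ ≥ 0)]` which are constant modulo `(χ(Γ > 0), y) R'` give a big frame. -/

set_option autoImplicit false
set_option linter.unusedSectionVars false

namespace Pool.Agent.LUM

open Pool.Agent.H15JM (RVal)
open Pool.Agent.LU1 (VPos LatData)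
open Polynomial

universe u

variable {Λ Ω : Type u} [CommRing Λ] [IsDomain Λ] [IsDiscreteValuationRing Λ] [Field Ω]
  [Algebra Λ Ω] {ϖ : Λ} {v : RVal Ω} {r : ℕ}

/-- The ideal `(χ(Γ > 0), y) R`. -/
def InM (Γ : AddSubgroup ℝ) (χ : ℝ → Ω) (y : Ω) (R : Subalgebra Λ Ω) (f : Ω) : Prop :=
  ∃ γ ∈ Γ, 0 < γ ∧ ∃ a ∈ R, ∃ b ∈ R, f = χ γ * a + y * b

section

variable {Γ : AddSubgroup ℝ} {χ : ℝ → Ω} {y : Ω} {R : Subalgebra Λ Ω}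

theorem InM.mul {f g : Ω} (hf : InM Γ χ y R f) (hg : g ∈ R) : InM Γ χ y R (f * g) := by
  obtain ⟨γ, hγ, h0, a, ha, b, hb, rfl⟩ := hf
  exact ⟨γ, hγ, h0, a * g, R.mul_mem ha hg, b * g, R.mul_mem hb hg, by ring⟩

theorem InM.mul' {f g : Ω} (hf : f ∈ R) (hg : InM Γ χ y R g) : InM Γ χ y R (f * g) := by
  rw [mul_comm]; exact hg.mul hf

theorem InM.neg {f : Ω} (hf : InM Γ χ y R f) : InM Γ χ y R (-f) := by
  have := hf.mul (R.neg_mem R.one_mem)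
  rwa [mul_neg, mul_one] at this

theorem InM.add (hadd : ∀ γ ∈ Γ, ∀ δ ∈ Γ, χ (γ + δ) = χ γ * χ δ)
    (hmem : ∀ γ ∈ Γ, 0 ≤ γ → χ γ ∈ R) {f g : Ω} (hf : InM Γ χ y R f) (hg : InM Γ χ y R g) :
    InM Γ χ y R (f + g) := by
  obtain ⟨γ, hγ, h0, a, ha, b, hb, rfl⟩ := hf
  obtain ⟨δ, hδ, h1, a', ha', b', hb', rfl⟩ := hg
  rcases le_total γ δ with hle | hle
  · refine ⟨γ, hγ, h0, a + χ (δ - γ) * a', R.add_mem ha (R.mul_mem (hmem _ (Γ.sub_mem hδ hγ)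
      (sub_nonneg.2 hle)) ha'), b + b', R.add_mem hb hb', ?_⟩
    have h2 : χ δ = χ γ * χ (δ - γ) := by
      rw [← hadd γ hγ _ (Γ.sub_mem hδ hγ)]; congr 1; ring
    rw [h2]; ring
  · refine ⟨δ, hδ, h1, χ (γ - δ) * a + a', R.add_mem (R.mul_mem (hmem _ (Γ.sub_mem hγ hδ)
      (sub_nonneg.2 hle)) ha) ha', b + b', R.add_mem hb hb', ?_⟩
    have h2 : χ γ = χ δ * χ (γ - δ) := by
      rw [← hadd δ hδ _ (Γ.sub_mem hγ hδ)]; congr 1; ring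
    rw [h2]; ring

theorem InM.vpos (hval : ∀ γ ∈ Γ, v (χ γ) = γ) (hy : VPos v y) (hR : ∀ f ∈ R, v.Ge 0 f) {f : Ω}
    (hf : InM Γ χ y R f) : VPos v f := by
  obtain ⟨γ, hγ, h0, a, ha, b, hb, rfl⟩ := hf
  refine VPos.add ?_ ?_
  · refine VPos.mul ?_ (hR a ha)
    intro _; rw [hval γ hγ]; exact h0
  · exact VPos.mul hy (hR b hb)

theorem InM.zero (hne : ∃ γ ∈ Γ, 0 < γ) : InM Γ χ y R 0 := by
  obtain ⟨γ, hγ, h0⟩ := hne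
  exact ⟨γ, hγ, h0, 0, R.zero_mem, 0, R.zero_mem, by simp⟩

theorem InM.mono {R' : Subalgebra Λ Ω} (h : R ≤ R') {f : Ω} (hf : InM Γ χ y R f) :
    InM Γ χ y R' f := by
  obtain ⟨γ, hγ, h0, a, ha, b, hb, rfl⟩ := hf
  exact ⟨γ, hγ, h0, a, h ha, b, h hb, rfl⟩

end

/-- `Γ` has a positive element. -/
theorem exists_pos_of_full (h : Ctx0 ϖ v r) (Γ : AddSubgroup ℝ)
    (full : ∀ g : Ω, g ≠ 0 → ∃ m : ℕ, 0 < m ∧ (m : ℝ) * v g ∈ Γ) : ∃ γ ∈ Γ, 0 < γ := by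
  obtain ⟨X, hX0, hX, -⟩ := h.rank
  have h1 := hX.ne_zero (⟨0, h.rpos⟩ : Fin r)
  obtain ⟨m, hm, hmem⟩ := full _ (hX0 ⟨0, h.rpos⟩)
  have h2 : (m : ℝ) * v (X ⟨0, h.rpos⟩) ≠ 0 :=
    mul_ne_zero (by exact_mod_cast hm.ne') h1
  rcases lt_or_gt_of_ne h2 with h3 | h3
  · exact ⟨_, Γ.neg_mem hmem, neg_pos.2 h3⟩
  · exact ⟨_, hmem, h3⟩

/-- The generation of the maximal ideal, from generators. -/
theorem gen_of (h : Ctx0 ϖ v r) {Γ : AddSubgroup ℝ} {χ : ℝ → Ω} {y : Ω} {S : Set Ω}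
    (hne : ∃ γ ∈ Γ, 0 < γ)
    (hadd : ∀ γ ∈ Γ, ∀ δ ∈ Γ, χ (γ + δ) = χ γ * χ δ) (hval : ∀ γ ∈ Γ, v (χ γ) = γ)
    (hy : VPos v y) (hS0 : ∀ s ∈ S, v.Ge 0 s)
    (hmem : ∀ γ ∈ Γ, 0 ≤ γ → χ γ ∈ locv v (Algebra.adjoin Λ S))
    (hS : ∀ s ∈ S, ∃ c : Λ, InM Γ χ y (locv v (Algebra.adjoin Λ S)) (s - algebraMap Λ Ω c))
    (hpi : InM Γ χ y (locv v (Algebra.adjoin Λ S)) (algebraMap Λ Ω ϖ)) :
    (∀ f ∈ locv v (Algebra.adjoin Λ S), ∃ c : Λ,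
      InM Γ χ y (locv v (Algebra.adjoin Λ S)) (f - algebraMap Λ Ω c)) ∧
    ∀ f ∈ locv v (Algebra.adjoin Λ S), VPos v f →
      InM Γ χ y (locv v (Algebra.adjoin Λ S)) f := by
  set R := locv v (Algebra.adjoin Λ S) with hR
  have hge : ∀ f ∈ R, v.Ge 0 f := locv_nonneg (adjoin_nonneg h hS0)
  have h1 : ∀ f ∈ Algebra.adjoin Λ S, ∃ c : Λ, InM Γ χ y R (f - algebraMap Λ Ω c) := by
    intro f hf
    induction hf using Algebra.adjoin_induction with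
    | mem x hx => exact hS x hx
    | algebraMap c => exact ⟨c, by rw [sub_self]; exact InM.zero hne⟩
    | add x z _ _ hx hz =>
      obtain ⟨c, hc⟩ := hx
      obtain ⟨d, hd⟩ := hz
      refine ⟨c + d, ?_⟩
      have := hc.add hadd hmem hd
      rw [map_add]
      convert this using 1; ring
    | mul x z hx' hz' hx hz =>
      obtain ⟨c, hc⟩ := hx
      obtain ⟨d, hd⟩ := hz
      refine ⟨c * d, ?_⟩
      have := (hc.mul (le_locv _ hz')).add hadd hmem (hd.mul' (R.algebraMap_mem c))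
      rw [map_mul]
      convert this using 1; ring
  have h2 : ∀ f ∈ R, ∃ c : Λ, InM Γ χ y R (f - algebraMap Λ Ω c) := by
    rintro f ⟨a, ha, b, hb, hb0, hvb, rfl⟩
    obtain ⟨c, hc⟩ := h1 a ha
    obtain ⟨d, hd⟩ := h1 b hb
    have hbi : b⁻¹ ∈ R := locv_inv (le_locv _ hb) hb0 hvb
    obtain ⟨e, he⟩ := (h.isUnit_of hb0 hvb (hd.vpos hval hy hge)).exists_right_inv
    have hde : algebraMap Λ Ω d * algebraMap Λ Ω e = 1 := by rw [← map_mul, he, map_one]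
    refine ⟨c * e, ?_⟩
    have h3 : a / b - algebraMap Λ Ω (c * e) =
        (a - algebraMap Λ Ω c) * b⁻¹ +
          (b - algebraMap Λ Ω d) * (-(algebraMap Λ Ω (c * e) * b⁻¹)) := by
      rw [map_mul]
      field_simp
      linear_combination (-algebraMap Λ Ω c) * hde
    rw [h3]
    exact (hc.mul hbi).add hadd hmem
      (hd.mul (R.neg_mem (R.mul_mem (R.algebraMap_mem _) hbi)))
  refine ⟨h2, ?_⟩
  intro f hf hv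
  obtain ⟨c, hc⟩ := h2 f hf
  have h3 : VPos v (algebraMap Λ Ω c) := by
    have := hv.sub (hc.vpos hval hy hge)
    rwa [sub_sub_cancel] at this
  obtain ⟨d, rfl⟩ := h.pi_dvd.2 h3
  have h4 := hc.add hadd hmem (hpi.mul (R.algebraMap_mem d))
  rwa [← map_mul, sub_add_cancel] at h4

/-- General constructor of big frames. -/
theorem exists_BF_of (h : Ctx0 ϖ v r) (Γ : AddSubgroup ℝ) (fg : Γ.FG)
    (full : ∀ g : Ω, g ≠ 0 → ∃ m : ℕ, 0 < m ∧ (m : ℝ) * v g ∈ Γ) (χ : ℝ → Ω)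
    (χ_ne : ∀ γ ∈ Γ, χ γ ≠ 0) (χ_add : ∀ γ ∈ Γ, ∀ δ ∈ Γ, χ (γ + δ) = χ γ * χ δ)
    (χ_val : ∀ γ ∈ Γ, v (χ γ) = γ) (y : Ω) (y_ne : y ≠ 0) (y_pos : 0 < v y) (F : Finset Ω)
    (hF0 : ∀ f ∈ F, v.Ge 0 f)
    (y_mem : y ∈ locv v (Algebra.adjoin Λ ((F : Set Ω) ∪ χ '' {γ | γ ∈ Γ ∧ 0 ≤ γ})))
    (hF : ∀ f ∈ F, ∃ c : Λ,
      InM Γ χ y (locv v (Algebra.adjoin Λ ((F : Set Ω) ∪ χ '' {γ | γ ∈ Γ ∧ 0 ≤ γ})))
        (f - algebraMap Λ Ω c))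
    (alg : ∀ g : Ω,
      IsAlgebraic (locv v (Algebra.adjoin Λ ((F : Set Ω) ∪ χ '' {γ | γ ∈ Γ ∧ 0 ≤ γ}))) g)
    (hpi : v (algebraMap Λ Ω ϖ) ∈ Γ)
    (hpu : algebraMap Λ Ω ϖ / χ (v (algebraMap Λ Ω ϖ)) ∈
      locv v (Algebra.adjoin Λ ((F : Set Ω) ∪ χ '' {γ | γ ∈ Γ ∧ 0 ≤ γ})))
    (hreg : ∀ (D : ℕ), ∀ γ ∈ Γ, 0 < γ →
      ∀ a ∈ locv v (Algebra.adjoin Λ ((F : Set Ω) ∪ χ '' {γ | γ ∈ Γ ∧ 0 ≤ γ})),
        y ^ D ≠ χ γ * a) :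
    ∃ B : BF ϖ v, B.Γ = Γ ∧ B.χ = χ ∧ B.y = y ∧
      B.R = locv v (Algebra.adjoin Λ ((F : Set Ω) ∪ χ '' {γ | γ ∈ Γ ∧ 0 ≤ γ})) := by
  have hχ0 : χ 0 = 1 := by
    have h1 := χ_add 0 Γ.zero_mem 0 Γ.zero_mem
    rw [add_zero] at h1
    exact (mul_right_cancel₀ (χ_ne 0 Γ.zero_mem) (by rw [one_mul]; exact h1)).symm
  have hS0 : ∀ s ∈ (F : Set Ω) ∪ χ '' {γ | γ ∈ Γ ∧ 0 ≤ γ}, v.Ge 0 s := by
    rintro s (hs | ⟨γ, ⟨hγ, h0⟩, rfl⟩)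
    · exact hF0 s hs
    · intro _; rw [χ_val γ hγ]; exact h0
  have hmem : ∀ γ ∈ Γ, 0 ≤ γ →
      χ γ ∈ locv v (Algebra.adjoin Λ ((F : Set Ω) ∪ χ '' {γ | γ ∈ Γ ∧ 0 ≤ γ})) := fun γ hγ h0 =>
    le_locv _ (Algebra.subset_adjoin (Or.inr ⟨γ, ⟨hγ, h0⟩, rfl⟩))
  have hne := exists_pos_of_full h Γ full
  have hS : ∀ s ∈ (F : Set Ω) ∪ χ '' {γ | γ ∈ Γ ∧ 0 ≤ γ}, ∃ c : Λ, InM Γ χ y
      (locv v (Algebra.adjoin Λ ((F : Set Ω) ∪ χ '' {γ | γ ∈ Γ ∧ 0 ≤ γ})))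
        (s - algebraMap Λ Ω c) := by
    rintro s (hs | ⟨γ, ⟨hγ, h0⟩, rfl⟩)
    · exact hF s hs
    · rcases h0.lt_or_eq with h1 | h1
      · refine ⟨0, γ, hγ, h1, 1, Subalgebra.one_mem _, 0, Subalgebra.zero_mem _, ?_⟩
        simp
      · subst h1
        refine ⟨1, ?_⟩
        rw [hχ0, map_one, sub_self]
        exact InM.zero hne
  have hpiM : InM Γ χ y (locv v (Algebra.adjoin Λ ((F : Set Ω) ∪ χ '' {γ | γ ∈ Γ ∧ 0 ≤ γ})))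
      (algebraMap Λ Ω ϖ) :=
    ⟨_, hpi, h.pos, _, hpu, 0, Subalgebra.zero_mem _, by
      rw [mul_zero, add_zero, mul_div_cancel₀ _ (χ_ne _ hpi)]⟩
  obtain ⟨hres, hgen⟩ := gen_of h hne χ_add χ_val (fun _ => y_pos) hS0 hmem hS hpiM
  exact ⟨{ Γ := Γ, fg := fg, full := full, χ := χ, χ_ne := χ_ne, χ_add := χ_add, χ_val := χ_val,
            y := y, y_ne := y_ne, y_pos := y_pos,
            R := locv v (Algebra.adjoin Λ ((F : Set Ω) ∪ χ '' {γ | γ ∈ Γ ∧ 0 ≤ γ})),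
            nonneg := locv_nonneg (adjoin_nonneg h hS0),
            loc := fun f hf h0 h1 => locv_inv hf h0 h1,
            χ_mem := hmem, y_mem := y_mem, fgen := ⟨F, rfl⟩, gen := hgen, alg := alg,
            res := fun f hf => by
              obtain ⟨c, hc⟩ := hres f hf
              exact ⟨c, hc.vpos χ_val (fun _ => y_pos) (locv_nonneg (adjoin_nonneg h hS0))⟩,
            pi_mem := hpi, pi_un := hpu, reg := hreg },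
    rfl, rfl, rfl, rfl⟩

end Pool.Agent.LUM
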