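import Pool.Agent.Lib.LUM.Basic

/-! # The valuation ring of a subfield; minimal polynomials -/

set_option autoImplicit false
open Polynomial
namespace Pool.Agent.LUM
open Pool.Agent.H15JM (RVal)
universe u
variable {Q Ω : Type u} [Field Q] [Field Ω] [Algebra Q Ω] {v : RVal Ω}

/-- The valuation ring of `v` in `E`. -/
def valR (v : RVal Ω) (E : IntermediateField Q Ω) : ValuationSubring E where
  carrier := {x | v.Ge 0 (x : Ω)}
  mul_mem' := by
    intro a b ha hb
    have := RVal.Ge.mul ha hb
    rw [add_zero] at this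
    exact this
  one_mem' := fun _ => v.map_one.ge
  add_mem' := by
    intro a b ha hb
    exact RVal.Ge.add ha hb
  zero_mem' := RVal.Ge.zero
  neg_mem' := by
    intro a ha
    exact RVal.Ge.neg ha
  mem_or_inv_mem' := by
    intro x
    by_cases hx : (x : Ω) = 0
    · left
      intro h
      exact absurd hx h
    · rcases le_total 0 (v (x : Ω)) with h | h
      · exact Or.inl fun _ => h
      · right
        intro _
        change 0 ≤ v ((x : Ω)⁻¹)
        rw [v.map_inv hx]
        linarith

theorem ge_minpoly (E : IntermediateField Q Ω) (θ : Ω) (f : Polynomial Ω) (hf : f.Monic)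
    (hc : ∀ i, f.coeff i ∈ E ∧ v.Ge 0 (f.coeff i)) (h0 : f.eval θ = 0) :
    IsIntegral E θ ∧ ∀ i, v.Ge 0 ((minpoly E θ).coeff i : Ω) := by
  obtain ⟨g, hg, -, hgm⟩ : ∃ g : Polynomial (valR v E), g.map (algebraMap (valR v E) Ω) = f ∧
      g.natDegree = f.natDegree ∧ g.Monic := by
    refine Polynomial.lifts_and_natDegree_eq_and_monic ?_ hf
    rw [Polynomial.lifts_iff_coeff_lifts]
    intro i
    exact ⟨⟨⟨f.coeff i, (hc i).1⟩, (hc i).2⟩, rfl⟩
  have h1 : IsIntegral (valR v E) θ := by
    refine ⟨g, hgm, ?_⟩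
    rw [← Polynomial.eval_map, hg, h0]
  refine ⟨h1.tower_top, fun i => ?_⟩
  rw [minpoly.isIntegrallyClosed_eq_field_fractions' E h1, Polynomial.coeff_map]
  exact ((minpoly (valR v E) θ).coeff i).2

end Pool.Agent.LUM
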