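import Pool.Agent.Lib.LUM.ML
import Pool.Agent.Lib.LUM.EtDescB
import Pool.Agent.Lib.LUM.ValRing
import Pool.Agent.Lib.LU1_h15.Etale
import Pool.Agent.Lib.LUM.FrameExt

/-! # EA: étale ascent -/

set_option autoImplicit false
set_option linter.unusedSectionVars false
set_option linter.unusedVariables false

namespace Pool.Agent.LUM

open Pool.Agent.H15JM (RVal)
open Pool.Agent.LU1 (VPos LatData val_add_vpos adj mem_adj_left mem_adj_self adj_eq_of ge_of_root)
open Polynomial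

universe u

variable {Λ Q Ω : Type u} [CommRing Λ] [IsDomain Λ] [IsDiscreteValuationRing Λ] [Field Q]
  [Algebra Λ Q] [IsFractionRing Λ Q] [Field Ω] [Algebra Λ Ω] [Algebra Q Ω] [IsScalarTower Λ Q Ω]
  {ϖ : Λ} {v : RVal Ω} {r : ℕ}

/-! ### the field of quotients of a subalgebra -/

/-- The quotients of elements of `R`, as an intermediate field. -/
def quotF (Q : Type u) [Field Q] [Algebra Λ Q] [IsFractionRing Λ Q] [Algebra Q Ω]
    [IsScalarTower Λ Q Ω] (R : Subalgebra Λ Ω) : IntermediateField Q Ω where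
  carrier := {g | ∃ a ∈ R, ∃ b ∈ R, b ≠ 0 ∧ g = a / b}
  mul_mem' := by
    rintro f g ⟨a, ha, b, hb, hb0, rfl⟩ ⟨c, hc, d, hd, hd0, rfl⟩
    exact ⟨a * c, R.mul_mem ha hc, b * d, R.mul_mem hb hd, mul_ne_zero hb0 hd0, by
      rw [div_mul_div_comm]⟩
  add_mem' := by
    rintro f g ⟨a, ha, b, hb, hb0, rfl⟩ ⟨c, hc, d, hd, hd0, rfl⟩
    exact ⟨a * d + b * c, R.add_mem (R.mul_mem ha hd) (R.mul_mem hb hc), b * d,
      R.mul_mem hb hd, mul_ne_zero hb0 hd0, by rw [div_add_div _ _ hb0 hd0]⟩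
  algebraMap_mem' := by
    intro c
    obtain ⟨a, b, hb, rfl⟩ := IsFractionRing.div_surjective (A := Λ) c
    have hb0 : algebraMap Λ Ω b ≠ 0 := by
      rw [IsScalarTower.algebraMap_apply Λ Q Ω]
      intro h
      have h1 := (algebraMap Q Ω).injective (h.trans (map_zero _).symm)
      exact nonZeroDivisors.ne_zero hb
        (IsFractionRing.injective Λ Q (h1.trans (map_zero _).symm))
    refine ⟨algebraMap Λ Ω a, R.algebraMap_mem a, algebraMap Λ Ω b, R.algebraMap_mem b, hb0, ?_⟩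
    rw [IsScalarTower.algebraMap_apply Λ Q Ω, IsScalarTower.algebraMap_apply Λ Q Ω, map_div₀]
  inv_mem' := by
    rintro f ⟨a, ha, b, hb, hb0, rfl⟩
    by_cases ha0 : a = 0
    · exact ⟨0, R.zero_mem, 1, R.one_mem, one_ne_zero, by simp [ha0]⟩
    · exact ⟨b, hb, a, ha, ha0, by rw [inv_div]⟩

theorem le_quotF {R : Subalgebra Λ Ω} {f : Ω} (hf : f ∈ R) : f ∈ quotF Q R :=
  ⟨f, hf, 1, R.one_mem, one_ne_zero, by rw [div_one]⟩

/-- `FracIs` from generators. -/
theorem fracIs_of {R R' : Subalgebra Λ Ω} {E : IntermediateField Q Ω} (hE : FracIs R E)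
    (hR : R ≤ R') {θ : Ω} (hθ : θ ∈ quotF Q R') (h' : ∀ f ∈ R', f ∈ adj E θ) :
    FracIs R' (adj E θ) := by
  refine ⟨h', ?_⟩
  have h1 : adj E θ ≤ quotF Q R' := by
    refine sup_le ?_ ?_
    · intro g hg
      obtain ⟨a, ha, b, hb, h0, rfl⟩ := hE.2 g hg
      exact ⟨a, hR ha, b, hR hb, h0, rfl⟩
    · rw [IntermediateField.adjoin_le_iff]
      rintro x rfl
      exact hθ
  intro g hg
  exact h1 hg

theorem locv_le_field {S : Subalgebra Λ Ω} {E : IntermediateField Q Ω}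
    (h : ∀ f ∈ S, f ∈ E) : ∀ f ∈ locv v S, f ∈ E := by
  rintro f ⟨a, ha, b, hb, -, -, rfl⟩
  exact E.div_mem (h a ha) (h b hb)

/-! ### localisation of an algebra with one more generator -/

theorem locv_adjoin_union (S T : Set Ω) :
    locv v (Algebra.adjoin Λ (((locv v (Algebra.adjoin Λ S) : Subalgebra Λ Ω) : Set Ω) ∪ T)) =
      locv v (Algebra.adjoin Λ (S ∪ T)) := by
  apply le_antisymm
  · refine locv_le ?_ (fun f hf h0 h1 => locv_inv hf h0 h1)
    rw [Algebra.adjoin_le_iff]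
    rintro f (hf | hf)
    · exact locv_mono (Algebra.adjoin_mono Set.subset_union_left) hf
    · exact le_locv _ (Algebra.subset_adjoin (Or.inr hf))
  · refine locv_mono (Algebra.adjoin_mono ?_)
    rintro f (hf | hf)
    · exact Or.inl (le_locv _ (Algebra.subset_adjoin hf))
    · exact Or.inr hf

theorem isAlgebraic_mono {R R' : Subalgebra Λ Ω} (h : R ≤ R') {g : Ω} (hg : IsAlgebraic R g) :
    IsAlgebraic R' g := by
  obtain ⟨P, hP, h0⟩ := hg
  refine ⟨P.map (Subalgebra.inclusion h).toRingHom, ?_, ?_⟩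
  · rw [Ne, Polynomial.map_eq_zero_iff]
    · exact hP
    · exact Subalgebra.inclusion_injective h
  · rw [← h0, aeval_def, aeval_def, eval₂_map]
    rfl

theorem eval_mem {R : Subalgebra Λ Ω} {f : Polynomial Ω} (hc : ∀ i, f.coeff i ∈ R) {x : Ω}
    (hx : x ∈ R) : f.eval x ∈ R := by
  rw [eval_eq_sum_range]
  exact R.sum_mem fun i _ => R.mul_mem (hc i) (R.pow_mem hx i)

/-- Taylor expansion inside a subalgebra. -/
theorem taylor_mem {R : Subalgebra Λ Ω} {f : Polynomial Ω} (hc : ∀ i, f.coeff i ∈ R) {x t : Ω}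
    (hx : x ∈ R) (ht : t ∈ R) :
    ∃ e ∈ R, f.eval (x + t) = f.eval x + f.derivative.eval x * t + e * t ^ 2 := by
  obtain ⟨f0, hf0⟩ : ∃ f0 : Polynomial R, f0.map (algebraMap R Ω) = f := by
    have h1 : f ∈ Polynomial.lifts (algebraMap R Ω) := by
      rw [Polynomial.lifts_iff_coeff_lifts]
      intro n
      exact ⟨⟨f.coeff n, hc n⟩, rfl⟩
    exact (Polynomial.mem_lifts f).1 h1
  obtain ⟨e, he⟩ := Polynomial.binomExpansion f0 ⟨x, hx⟩ ⟨t, ht⟩
  refine ⟨e, e.2, ?_⟩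
  have h2 : ∀ z : R, ∀ g : Polynomial R, (g.map (algebraMap R Ω)).eval (z : Ω) = (g.eval z : R) :=
    fun z g => by
      rw [eval_map]
      exact Polynomial.eval₂_at_apply (algebraMap R Ω) z
  have h3 := congrArg (fun z : R => (z : Ω)) he
  simp only [Subalgebra.coe_add, Subalgebra.coe_mul, Subalgebra.coe_pow] at h3
  rw [← h2, ← h2, ← h2, ← Polynomial.derivative_map, hf0] at h3
  exact h3

theorem derivative_coeff_mem {R : Subalgebra Λ Ω} {f : Polynomial Ω} (hc : ∀ i, f.coeff i ∈ R)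
    (i : ℕ) : f.derivative.coeff i ∈ R := by
  rw [coeff_derivative]
  refine R.mul_mem (hc _) (R.add_mem ?_ R.one_mem)
  exact natCast_mem R i

theorem BF.exists_etale (h : Ctx ϖ v r) (B : BF ϖ v) (θ : Ω) (f : Polynomial Ω)
    (hf : f.Monic) (hc : ∀ i, f.coeff i ∈ B.R) (h0 : f.eval θ = 0)
    (h1 : f.derivative.eval θ ≠ 0) (h2 : v (f.derivative.eval θ) = 0)
    (E : IntermediateField Q Ω) (hE : ∀ g ∈ B.R, g ∈ E) (hint : IsIntegral E θ)
    (hcE : ∀ i, ((minpoly E θ).coeff i : Ω) ∈ B.R) :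
    ∃ B' : BF ϖ v, B'.Γ = B.Γ ∧ B'.χ = B.χ ∧ B'.y = B.y ∧ B.R ≤ B'.R ∧ θ ∈ B'.R ∧
      B'.R = locv v (Algebra.adjoin Λ ((B.R : Set Ω) ∪ {θ})) := by
  classical
  obtain ⟨F, hF⟩ := B.fgen
  have hθ : v.Ge 0 θ := ge_of_root hf (fun i => B.nonneg _ (hc i)) h0
  -- the ring
  obtain ⟨F', hF'⟩ : ∃ F' : Finset Ω, F' = insert θ F := ⟨_, rfl⟩
  have hset : (F' : Set Ω) ∪ B.χ '' {γ | γ ∈ B.Γ ∧ 0 ≤ γ} =
      ((F : Set Ω) ∪ B.χ '' {γ | γ ∈ B.Γ ∧ 0 ≤ γ}) ∪ {θ} := by
    rw [hF', Finset.coe_insert]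
    ext z
    simp only [Set.mem_union, Set.mem_insert_iff, Set.mem_singleton_iff]
    tauto
  obtain ⟨R', hR'⟩ : ∃ R' : Subalgebra Λ Ω,
      R' = locv v (Algebra.adjoin Λ ((F' : Set Ω) ∪ B.χ '' {γ | γ ∈ B.Γ ∧ 0 ≤ γ})) := ⟨_, rfl⟩
  have hR2 : R' = locv v (Algebra.adjoin Λ ((B.R : Set Ω) ∪ {θ})) := by
    rw [hR', hset, ← locv_adjoin_union, ← hF]
  have hle : B.R ≤ R' := by
    intro g hg
    rw [hR2]
    exact le_locv _ (Algebra.subset_adjoin (Or.inl hg))
  have hθR : θ ∈ R' := by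
    rw [hR2]
    exact le_locv _ (Algebra.subset_adjoin (Or.inr rfl))
  have hloc : ∀ g ∈ R', g ≠ 0 → v g = 0 → g⁻¹ ∈ R' := by
    intro g hg
    rw [hR'] at hg ⊢
    exact locv_inv hg
  have hge : ∀ g ∈ R', v.Ge 0 g := by
    rw [hR2]
    refine locv_nonneg (adjoin_nonneg h.toCtx0 ?_)
    rintro g (hg | rfl)
    · exact B.nonneg g hg
    · exact hθ
  -- elements of `B.R` are constant modulo the maximal ideal
  have hB : ∀ g ∈ B.R, ∃ c : Λ, InM B.Γ B.χ B.y R' (g - algebraMap Λ Ω c) := by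
    intro g hg
    obtain ⟨c, hc1, hc2⟩ := B.exists_const hg
    refine ⟨c, InM.mono hle ?_⟩
    exact B.gen _ hc2 hc1
  -- so is `θ`
  have hθc : ∃ c : Λ, InM B.Γ B.χ B.y R' (θ - algebraMap Λ Ω c) := by
    obtain ⟨c, hc1⟩ := h.residue hθ
    refine ⟨c, ?_⟩
    obtain ⟨t, ht⟩ : ∃ t, t = θ - algebraMap Λ Ω c := ⟨_, rfl⟩
    rw [← ht] at hc1 ⊢
    have htR : t ∈ R' := by rw [ht]; exact R'.sub_mem hθR (R'.algebraMap_mem c)
    have hcR : ∀ i, f.coeff i ∈ R' := fun i => hle (hc i)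
    obtain ⟨e, he, h3⟩ := taylor_mem hcR (R'.algebraMap_mem c) htR
    obtain ⟨e', he', h4⟩ := taylor_mem (derivative_coeff_mem hcR) (R'.algebraMap_mem c) htR
    have hsum : algebraMap Λ Ω c + t = θ := by rw [ht]; ring
    rw [hsum, h0] at h3
    rw [hsum] at h4
    -- the unit
    obtain ⟨U, hU⟩ : ∃ U, U = f.derivative.eval (algebraMap Λ Ω c) + e * t := ⟨_, rfl⟩
    have hd2 : (derivative (derivative f)).eval (algebraMap Λ Ω c) ∈ R' :=
      eval_mem (derivative_coeff_mem (derivative_coeff_mem hcR)) (R'.algebraMap_mem c)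
    have hU2 : U = f.derivative.eval θ +
        t * (e - (derivative (derivative f)).eval (algebraMap Λ Ω c) - e' * t) := by
      rw [hU, h4]; ring
    have hU3 := val_add_vpos h1 h2 (hc1.mul (hge _ (R'.sub_mem (R'.sub_mem he hd2)
      (R'.mul_mem he' htR))))
    rw [← hU2] at hU3
    have hUR : U ∈ R' := by
      rw [hU]
      exact R'.add_mem (eval_mem (derivative_coeff_mem hcR) (R'.algebraMap_mem c))
        (R'.mul_mem he htR)
    have h5 : f.eval (algebraMap Λ Ω c) = t * (-U) := by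
      rw [hU]; linear_combination -h3
    have h6 : VPos v (f.eval (algebraMap Λ Ω c)) := by
      rw [h5]; exact hc1.mul (hge _ (R'.neg_mem hUR))
    have h7 : InM B.Γ B.χ B.y R' (f.eval (algebraMap Λ Ω c)) :=
      InM.mono hle (B.gen _ (eval_mem hc (B.R.algebraMap_mem c)) h6)
    have h8 : t = f.eval (algebraMap Λ Ω c) * (-U⁻¹) := by
      rw [h5]
      have := hU3.1
      field_simp
    rw [h8]
    exact h7.mul (R'.neg_mem (hloc U hUR hU3.1 hU3.2))
  have key := exists_BF_of h.toCtx0 B.Γ B.fg B.full B.χ B.χ_ne B.χ_add B.χ_val B.y B.y_ne B.y_pos F' ?_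
    (by rw [← hR']; exact hle B.y_mem) (by
      rw [← hR']
      intro g hg
      rw [hF', Finset.mem_insert] at hg
      rcases hg with rfl | hg
      · exact hθc
      · refine hB g ?_
        rw [hF]
        exact le_locv _ (Algebra.subset_adjoin (Or.inl hg)))
    (by
      rw [← hR']
      intro g
      exact isAlgebraic_mono hle (B.alg g))
  · obtain ⟨B', b1, b2, b3, b4⟩ := key B.pi_mem (by rw [← hR']; exact hle B.pi_un) (by
      intro D γ hγ h0 a ha hya
      rw [← hR', hR2] at ha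
      obtain ⟨β, hβ, hy⟩ := descend_rel E θ hint hθ B.R hE B.nonneg B.loc hcE (n := 1)
        (fun _ => B.χ γ) (fun _ => a) (fun _ => B.χ_mem γ hγ h0.le) (fun _ => ha) (B.y ^ D)
        (B.R.pow_mem B.y_mem D) (by simpa using hya)
      exact B.reg D γ hγ h0 (β 0) (hβ 0) (by simpa using hy))
    rw [← hR'] at b4
    refine ⟨B', b1, b2, b3, ?_, ?_, ?_⟩
    · rw [b4]; exact hle
    · rw [b4]; exact hθR
    · rw [b4, hR2]
  · intro g hg
    rw [hF', Finset.mem_insert] at hg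
    rcases hg with rfl | hg
    · exact hθ
    · refine B.nonneg g ?_
      rw [hF]
      exact le_locv _ (Algebra.subset_adjoin (Or.inl hg))

theorem Good.etale (p : ℕ) (hp : p.Prime) [CharP (kk Λ) p] (h : Ctx ϖ v r)
    (E : IntermediateField Q Ω) (hE : Good ϖ v E) (θ : Ω) (f : Polynomial Ω) (hf : f.Monic)
    (hc : ∀ i, f.coeff i ∈ E ∧ v.Ge 0 (f.coeff i)) (h0 : f.eval θ = 0)
    (h1 : f.derivative.eval θ ≠ 0) (h2 : v (f.derivative.eval θ) = 0) :
    Good ϖ v (adj E θ) := by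
  classical
  obtain ⟨B0, hB0⟩ := hE
  obtain ⟨hint, hge⟩ := ge_minpoly E θ f hf hc h0
  let T1 : Finset Ω := (Finset.range (f.natDegree + 1)).image f.coeff
  let T2 : Finset Ω := (Finset.range ((minpoly E θ).natDegree + 1)).image
    fun i => ((minpoly E θ).coeff i : Ω)
  obtain ⟨B, hreach, hmono⟩ := ML p hp h B0 E hB0 ((T1 ∪ T2).filter (· ≠ 0)) (by
      intro g hg
      simp only [T1, T2, Finset.mem_filter, Finset.mem_union, Finset.mem_image,
        Finset.mem_range] at hg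
      obtain ⟨⟨i, -, rfl⟩ | ⟨i, -, rfl⟩, hne⟩ := hg
      · exact ⟨(hc i).1, hne⟩
      · exact ⟨((minpoly E θ).coeff i).2, hne⟩)
  have hB := hreach.ext.fracIs hB0
  have hcR : ∀ i, f.coeff i ∈ B.R := by
    intro i
    by_cases hi : f.coeff i = 0
    · rw [hi]; exact B.R.zero_mem
    · refine (hmono _ ?_).mem ((hc i).2 hi)
      simp only [T1, T2, Finset.mem_filter, Finset.mem_union, Finset.mem_image, Finset.mem_range]
      refine ⟨Or.inl ⟨i, ?_, rfl⟩, hi⟩
      exact Nat.lt_succ_of_le (le_natDegree_of_ne_zero hi)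
  have hcE : ∀ i, ((minpoly E θ).coeff i : Ω) ∈ B.R := by
    intro i
    by_cases hi : ((minpoly E θ).coeff i : Ω) = 0
    · rw [hi]; exact B.R.zero_mem
    · refine (hmono _ ?_).mem (hge i hi)
      simp only [T1, T2, Finset.mem_filter, Finset.mem_union, Finset.mem_image, Finset.mem_range]
      refine ⟨Or.inr ⟨i, ?_, rfl⟩, hi⟩
      refine Nat.lt_succ_of_le (le_natDegree_of_ne_zero fun h3 => hi ?_)
      rw [h3]; rfl
  obtain ⟨B', b1, b2, b3, b4, b5, b6⟩ := B.exists_etale h θ f hf hcR h0 h1 h2 E hB.1 hint hcE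
  refine ⟨B', fracIs_of hB b4 (le_quotF b5) ?_⟩
  rw [b6]
  refine locv_le_field ?_
  intro g hg
  have h3 : Algebra.adjoin Λ ((B.R : Set Ω) ∪ {θ}) ≤
      (adj E θ).toSubalgebra.restrictScalars Λ := by
    rw [Algebra.adjoin_le_iff]
    rintro x (hx | rfl)
    · exact mem_adj_left (hB.1 x hx)
    · exact mem_adj_self E x
  exact h3 hg

end Pool.Agent.LUM
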