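import Pool.Agent.Lib.LUM.U03
import Pool.Agent.Lib.LUM.Etale

/-! # A03: Newton approximation of a root

`c` is a root of the monic polynomial `g` with coefficients in `C`, `w ≡ c`, `v (g' w) = 0`.
`z₀ = w`, `z_{j+1} = z_j - g(z_j) / g'(z_j) ∈ D = locv C[w]`, and by Taylor's formula
(`taylor_mem` in `Etale.lean`, in the ring `R`, `C ≤ R`, `w, c ∈ R`)
`0 = g(c) = g(z_j) + g'(z_j) (c - z_j) + e (c - z_j)^2`, so `z_{j+1} - c = (z_j - c)^2 * e / g'(z_j)`.
Induction: for each `M` there is `z ∈ D` with `z - c ∈ (w - c)^M R` and (so) `VPos (z - c)` or `z = c`,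
hence `v (g' z) = 0` (`g' z - g' w` has positive value: it is divisible by `z - w` in `R`).
It is convenient to prove by induction on `j`: `∃ z ∈ D, ∃ e ∈ R, z - c = (w - c)^(j+1) * e`, one Newton
step gives `2j + 2 ≥ j + 2`. -/

set_option autoImplicit false
set_option linter.unusedSectionVars false
set_option linter.unusedVariables false

open Polynomial

namespace Pool.Agent.LUM

open Pool.Agent.H15JM (RVal)
open Pool.Agent.LU1 (VPos LatData val_add_vpos adj)

universe u

variable {Λ Ω : Type u} [CommRing Λ] [IsDomain Λ] [IsDiscreteValuationRing Λ] [Field Ω]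
  [Algebra Λ Ω] {ϖ : Λ} {v : RVal Ω} {r : ℕ}

theorem exists_newton {C R : Subalgebra Λ Ω} (hCR : C ≤ R) (hnn : ∀ f ∈ R, v.Ge 0 f)
    (hloc : ∀ f ∈ R, f ≠ 0 → v f = 0 → f⁻¹ ∈ R) {g : Polynomial Ω}
    (hc : ∀ i, g.coeff i ∈ C) {w c : Ω} (hw : w ∈ R) (hcR : c ∈ R) (hroot : g.eval c = 0)
    (hwc : VPos v (w - c)) (h1 : g.derivative.eval w ≠ 0) (h2 : v (g.derivative.eval w) = 0)
    (M : ℕ) : ∃ z ∈ locv v (Algebra.adjoin Λ ((C : Set Ω) ∪ {w})), ∃ e ∈ R,
      z - c = (w - c) ^ M * e := by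
  set D := locv v (Algebra.adjoin Λ ((C : Set Ω) ∪ {w})) with hD
  have hwD : w ∈ D := le_locv _ (Algebra.subset_adjoin (Or.inr rfl))
  have hCD : ∀ x ∈ C, x ∈ D := fun x hx => le_locv _ (Algebra.subset_adjoin (Or.inl hx))
  have hcRc : ∀ i, g.coeff i ∈ R := fun i => hCR (hc i)
  have hcR' : ∀ i, g.derivative.coeff i ∈ R := derivative_coeff_mem hcRc
  have hcD' : ∀ i, g.derivative.coeff i ∈ D := derivative_coeff_mem fun i => hCD _ (hc i)
  have hdR : w - c ∈ R := R.sub_mem hw hcR
  have key : ∀ j : ℕ, ∃ z ∈ D, ∃ e ∈ R, z - c = (w - c) ^ (j + 1) * e := by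
    intro j
    induction j with
    | zero => exact ⟨w, hwD, 1, R.one_mem, by ring⟩
    | succ j ih =>
      obtain ⟨z, hz, e, he, hze⟩ := ih
      have hs : (w - c) ^ (j + 1) * e ∈ R := R.mul_mem (R.pow_mem hdR _) he
      have hzR : z ∈ R := by
        have : z = c + (w - c) ^ (j + 1) * e := by rw [← hze]; ring
        rw [this]
        exact R.add_mem hcR hs
      have hvs : VPos v (z - c) := by
        have h3 : z - c = (w - c) * ((w - c) ^ j * e) := by rw [hze, pow_succ]; ring
        rw [h3]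
        exact hwc.mul (hnn _ (R.mul_mem (R.pow_mem hdR _) he))
      have hzw : VPos v (z - w) := by
        have : z - w = (z - c) - (w - c) := by ring
        rw [this]
        exact hvs.sub hwc
      -- the derivative at `z`
      obtain ⟨e', he', hexp'⟩ := taylor_mem hcR' hw (R.sub_mem hzR hw)
      rw [add_sub_cancel] at hexp'
      have h4 : VPos v (g.derivative.derivative.eval w * (z - w) + e' * (z - w) ^ 2) := by
        refine (VPos.mul' (hnn _ (eval_mem (derivative_coeff_mem hcR') hw)) hzw).add ?_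
        have : e' * (z - w) ^ 2 = (z - w) * (e' * (z - w)) := by ring
        rw [this]
        exact hzw.mul (hnn _ (R.mul_mem he' (R.sub_mem hzR hw)))
      have h5 := val_add_vpos h1 h2 h4
      rw [← add_assoc, ← hexp'] at h5
      have hz0 := h5.1
      have hinvD : (g.derivative.eval z)⁻¹ ∈ D := locv_inv (eval_mem hcD' hz) hz0 h5.2
      have hinvR : (g.derivative.eval z)⁻¹ ∈ R := hloc _ (eval_mem hcR' hzR) hz0 h5.2
      -- Taylor's formula at `z`
      obtain ⟨e2, he2, hexp2⟩ := taylor_mem hcRc hzR (R.sub_mem hcR hzR)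
      rw [add_sub_cancel, hroot] at hexp2
      refine ⟨z - g.eval z * (g.derivative.eval z)⁻¹,
        D.sub_mem hz (D.mul_mem (eval_mem (fun i => hCD _ (hc i)) hz) hinvD),
        (w - c) ^ j * (e ^ 2 * (e2 * (g.derivative.eval z)⁻¹)),
        R.mul_mem (R.pow_mem hdR _) (R.mul_mem (R.pow_mem he 2) (R.mul_mem he2 hinvR)), ?_⟩
      have h6 : z - g.eval z * (g.derivative.eval z)⁻¹ - c =
          (z - c) ^ 2 * (e2 * (g.derivative.eval z)⁻¹) := by
        field_simp
        linear_combination hexp2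
      rw [h6, hze]
      ring
  rcases Nat.eq_zero_or_pos M with hM | hM
  · exact ⟨w, hwD, w - c, hdR, by rw [hM, pow_zero, one_mul]⟩
  · obtain ⟨j, rfl⟩ := Nat.exists_eq_succ_of_ne_zero hM.ne'
    exact key j

end Pool.Agent.LUM
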