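import Pool.Agent.Lib.LUM.A01
import Pool.Agent.Lib.LUM.A03

/-! # A04: the class of the frames adapted to `L`

Recipe (`adCls_ex`): `C := inU Λ v L` is a `DVl` ring (`dvl_inter`); `w = B.w q ∈ L`, `v w = 0`.  Take
`g` from `exists_sep`, a root `c` of `g` near `w` (`exists_root_near`), `c ∈ henU` (`henU_sh`), so
`c = algebraMap Λ' Ω c'`.  T-step `B'` with this `c'`: `BF.exists_tstep_c`.  For `M` put `M' = max M 2`
and take `z` from `exists_newton` with the ring `R = B'.R` (as a `Λ`-subalgebra, `restrictScalars`):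
`z - c = y'^M' e`, `y' = w - c`.  So `y'' := w - z = y' - y'^M' e = y' (1 - y'^(M'-1) e)`, `Rep y'' 0 1`
(`B'.rep_y`), `BF.change_y` gives `B''` with `BF.Chg M' B' B''`, `BF.Chg M B' B''`.
`Adap B'' L`: `χ'(γ + l β) = χ(γ) y^l w^(-s) ∈ L`; `y'' ∈ L` since `z ∈ L`;
`B''.R = B'.R = locv Λ'[F, w, χ'(≥0)]` (as in `QSt.step` of `LU1_h15/QPropA.lean`). -/

set_option autoImplicit false
set_option linter.unusedSectionVars false
set_option linter.unusedVariables false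

open Polynomial

namespace Pool.Agent.LUM

open Pool.Agent.H15JM (RVal)
open Pool.Agent.LU1 (VPos LatData val_add_vpos adj GoodBasis)

universe u

variable {Λ Λ' Q Ω : Type u} [CommRing Λ] [IsDomain Λ] [IsDiscreteValuationRing Λ]
  [CommRing Λ'] [IsDomain Λ'] [IsDiscreteValuationRing Λ'] [Algebra Λ Λ'] [Field Q]
  [Algebra Λ Q] [IsFractionRing Λ Q] [Field Ω] [Algebra Λ Ω] [Algebra Λ' Ω]
  [IsScalarTower Λ Λ' Ω] [Algebra Q Ω] [IsScalarTower Λ Q Ω]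
  {ϖ : Λ} {ϖ' : Λ'} {v : RVal Ω} {r : ℕ}

theorem dvl_inter (h : Ctx0 ϖ v r) (L : IntermediateField Q Ω) : DVl ϖ v (inU Λ v L) := by
  have hH := henU_dvl (Λ := Λ) h
  have hπL : algebraMap Λ Ω ϖ ∈ L := by
    rw [IsScalarTower.algebraMap_apply Λ Q Ω]
    exact L.algebraMap_mem _
  have hπ0 : algebraMap Λ Ω ϖ ≠ 0 := h.pi_ne
  refine ⟨fun x hx => hH.nonneg x hx.1, fun x hx h0 h1 => ⟨hH.loc x hx.1 h0 h1, L.inv_mem hx.2⟩,
    fun x hx hv => ?_⟩
  obtain ⟨y, hy, hxy⟩ := hH.pi x hx.1 hv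
  refine ⟨y, ⟨hy, ?_⟩, hxy⟩
  have h1 : y = x / algebraMap Λ Ω ϖ := by
    rw [hxy, mul_div_cancel_left₀ _ hπ0]
  rw [h1]
  exact L.div_mem hx.2 hπL

/-- The generators of the ring of the next frame. -/
theorem IsTStep.fgen' {B B' : BF ϖ' v} {q : ℕ} {c : Λ'} {s : ℝ → ℤ → ℤ}
    (hs : IsTStep B B' q c s) {F : Finset Ω} [DecidableEq Ω]
    (hF : B.R = locv v (Algebra.adjoin Λ' ((F : Set Ω) ∪ B.χ '' {γ | γ ∈ B.Γ ∧ 0 ≤ γ}))) :
    B'.R = locv v (Algebra.adjoin Λ'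
      (((insert (B.w q) F : Finset Ω) : Set Ω) ∪ B'.χ '' {γ | γ ∈ B'.Γ ∧ 0 ≤ γ})) := by
  set F' : Finset Ω := insert (B.w q) F with hF'
  have hwF' : B.w q ∈ (F' : Set Ω) := Finset.mem_coe.2 (Finset.mem_insert_self _ _)
  set S' : Subalgebra Λ' Ω := Algebra.adjoin Λ' ((F' : Set Ω) ∪ B'.χ '' {γ | γ ∈ B'.Γ ∧ 0 ≤ γ})
    with hS'
  have hwS' : B.w q ∈ locv v S' := le_locv _ (Algebra.subset_adjoin (Or.inl hwF'))
  have hwz : ∀ n : ℤ, (B.w q) ^ n ∈ locv v S' := by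
    intro n
    cases n with
    | ofNat n => simpa using (locv v S').pow_mem hwS' n
    | negSucc n =>
      rw [zpow_negSucc, ← inv_pow]
      exact (locv v S').pow_mem (locv_inv hwS' hs.w_ne hs.v_w) _
  apply le_antisymm
  · rw [hs.R_eq]
    refine locv_le ?_ (fun f hf h0 h1 => locv_inv hf h0 h1)
    rw [Algebra.adjoin_le_iff]
    rintro f ((hf | ⟨γ, hγ, rfl⟩) | hf)
    · have h1 : B.R ≤ locv v S' := by
        rw [hF]
        refine locv_le ?_ (fun f hf h0 h1 => locv_inv hf h0 h1)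
        rw [Algebra.adjoin_le_iff]
        rintro f (hf | ⟨γ, ⟨hγ, hγ0⟩, rfl⟩)
        · exact le_locv _ (Algebra.subset_adjoin (Or.inl
            (Finset.mem_coe.2 (Finset.mem_insert_of_mem hf))))
        · have h2 := hs.χ_mul hγ 0
          rw [zpow_zero, mul_one, Int.cast_zero, zero_mul, add_zero] at h2
          rw [SetLike.mem_coe, h2]
          exact (locv v S').mul_mem (le_locv _ (Algebra.subset_adjoin
            (Or.inr ⟨γ, ⟨hs.Γ_le hγ, hγ0⟩, rfl⟩))) (hwz _)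
      exact h1 hf
    · exact le_locv _ (Algebra.subset_adjoin (Or.inr ⟨γ, hγ, rfl⟩))
    · rw [Set.mem_singleton_iff.1 hf]
      exact hwS'
  · refine locv_le ?_ B'.loc
    rw [hS', Algebra.adjoin_le_iff]
    rintro f (hf | ⟨γ, ⟨hγ, hγ0⟩, rfl⟩)
    · rcases Finset.mem_insert.1 (Finset.mem_coe.1 hf) with rfl | hf
      · exact hs.un_w.1
      · refine hs.R_le ?_
        rw [hF]
        exact le_locv _ (Algebra.subset_adjoin (Or.inl hf))
    · exact B'.χ_mem γ hγ hγ0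

theorem adCls_ex (h : Clo ϖ ϖ' v r) [IsAlgClosed Ω] [PerfectField (kk Λ)]
    (L : IntermediateField Q Ω) (B : BF ϖ' v) (hB : Adap B L) (q : ℕ) (s : ℝ → ℤ → ℤ)
    (hL : LatData B.Γ (v B.y) q s) :
    ∃ (c : Λ') (B' : BF ϖ' v), IsTStep B B' q c s ∧
      ∀ M : ℕ, ∃ B'' : BF ϖ' v, BF.Chg M B' B'' ∧ AdSt Λ L B B'' ∧ Adap B'' L := by
  classical
  have hY := B.y_ne
  have hw : B.y ^ q = B.χ (q * v B.y) * B.w q := by
    rw [BF.w, mul_div_cancel₀ _ (B.χ_ne _ hL.q_mem)]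
  have hw0 : B.w q ≠ 0 := BF.w_ne_zero hY hw
  have hvw : v (B.w q) = 0 := BF.v_w_zero hY hL hw
  have hwL : B.w q ∈ L := L.div_mem (pow_mem hB.y q) (hB.χ _ hL.q_mem)
  have hwge : v.Ge 0 (B.w q) := fun _ => hvw.ge
  have hC := dvl_inter h.c0 L
  obtain ⟨g, hg, hgc, hgv, hg1, hg2⟩ := exists_sep h.c0 h.ra hC hwge
  obtain ⟨θ, hθ0, hθv, hθ1, hθ2⟩ := exists_root_near hg (fun i => hC.nonneg _ (hgc i)) hwge hgv
    hg1 hg2
  have hθU : θ ∈ henU Λ v := henU_sh g hg (fun i => (hgc i).1) θ hθ0 hθ1 hθ2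
  obtain ⟨c, hc⟩ := (h.rng θ).1 hθU
  obtain ⟨B', hs⟩ := B.exists_tstep_c h.c1.toCtx0 hL c (by rw [hc]; exact hθv)
  have hy' : B'.y = B.w q - θ := by rw [hs.y_eq, hc]
  refine ⟨c, B', hs, fun M => ?_⟩
  have hUR : ∀ x ∈ henU Λ v, x ∈ B'.R := by
    intro x hx
    obtain ⟨c', rfl⟩ := (h.rng x).1 hx
    exact B'.R.algebraMap_mem c'
  obtain ⟨z, hz, e, he, hze⟩ := exists_newton (C := inU Λ v L) (R := B'.R.restrictScalars Λ)
    (fun x hx => hUR x hx.1) (fun f hf => B'.nonneg f hf) (fun f hf => B'.loc f hf) hgc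
    hs.un_w.1 (hUR θ hθU) hθ0 hθv hg1 hg2 (M + 2)
  have hzL : z ∈ L := by
    refine locv_le_field (E := L) (fun f hf => ?_) z hz
    have h1 : Algebra.adjoin Λ ((inU Λ v L : Set Ω) ∪ {B.w q}) ≤
        L.toSubalgebra.restrictScalars Λ := by
      rw [Algebra.adjoin_le_iff]
      rintro x (hx | hx)
      · exact hx.2
      · rw [Set.mem_singleton_iff.1 hx]
        exact hwL
    exact h1 hf
  have he' : e ∈ B'.R := he
  have hy'' : B.w q - z = B'.y + B'.y ^ (M + 2) * (-e) := by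
    have h1 : z = θ + (B.w q - θ) ^ (M + 2) * e := by rw [← hze]; ring
    rw [h1, hy']
    ring
  have hrep : B'.Rep (B.w q - z) 0 1 := by
    have h1 : B.w q - z = B'.y * (1 + B'.y * (B'.y ^ M * (-e))) := by
      rw [hy'']; ring
    have h2 : B'.Un (1 + B'.y * (B'.y ^ M * (-e))) := by
      have h3 : B'.y ^ M * (-e) ∈ B'.R := B'.R.mul_mem (B'.R.pow_mem B'.y_mem M) (B'.R.neg_mem he')
      exact BF.Un.one.add_vpos (B'.R.mul_mem B'.y_mem h3) (B'.vpos_y.mul (B'.nonneg _ h3))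
    have h3 := B'.rep_y.mul (BF.Mono.un h2).rep
    rw [h2.2.2] at h3
    rw [h1]
    simpa using h3
  obtain ⟨B'', hΓ, hχ, hy, hR⟩ := B'.change_y h.c1.toCtx0 hrep
  have hchg : ∀ K : ℕ, K ≤ M + 2 → BF.Chg K B' B'' := by
    intro K hK
    refine ⟨hΓ, hχ, hR, B'.y ^ (M + 2 - K) * (-e), B'.R.mul_mem (B'.R.pow_mem B'.y_mem _)
      (B'.R.neg_mem he'), ?_⟩
    rw [hy, hy'', ← mul_assoc, ← pow_add]
    congr 3
    omega
  have hAd : Adap B'' L := by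
    refine ⟨fun γ hγ => ?_, ?_, ?_⟩
    · rw [hΓ] at hγ
      obtain ⟨γ0, hγ0, l, rfl⟩ := hs.mem_Γ' hγ
      rw [hχ, hs.χ_eq γ0 hγ0 l]
      exact L.mul_mem (L.mul_mem (hB.χ γ0 hγ0) (zpow_mem hB.y l)) (zpow_mem hwL _)
    · rw [hy]
      exact L.sub_mem hwL hzL
    · obtain ⟨F, hF, hFR⟩ := hB.fgen
      refine ⟨insert (B.w q) F, ?_, ?_⟩
      · intro f hf
        rcases Finset.mem_insert.1 hf with rfl | hf
        · exact hwL
        · exact hF f hf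
      · rw [hR, hΓ, hχ]
        exact hs.fgen' hFR
  exact ⟨B'', hchg M (by omega), ⟨hAd, q, c, s, B', M + 2, hs, by omega, hchg _ le_rfl, z, hz,
    hy⟩, hAd⟩

/-- The class of adapted frames. -/
def adCls (h : Clo ϖ ϖ' v r) [IsAlgClosed Ω] [PerfectField (kk Λ)]
    (L : IntermediateField Q Ω) : Cls ϖ' v where
  Cl := fun B => Adap B L
  St := fun B B'' => AdSt Λ L B B''
  mstep := fun B B'' hs => by
    obtain ⟨-, q, c, s, B', M, h1, h2, h3, -⟩ := hs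
    exact ⟨q, c, s, B', M, h1, h2, h3⟩
  ex := fun B hB q s hL => adCls_ex h L B hB q s hL

end Pool.Agent.LUM
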