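import Pool.Agent.Lib.LUM.A04

/-! # A05: along a chain of adapted steps everything stays in `Q_B(A)`

`Bs` is the last frame, `A ≤ O_v ∩ L` a subalgebra, `QB Bs A` the ring of the `a / b`, `a, b ∈ A`, `b`
monomial in `Bs`.
Recipes. `mem_inv`: if `f = a / b ∈ QB` is monomial in `Bs` then `a = f b` is monomial, `f⁻¹ = b / a`.
`locv_le`: elements of value zero of `Bs.R` are units, so monomial.
`QOk Bs A L B`: all `χ(γ)` (`γ ∈ Γ`, both signs), `y` are in `QB Bs A`, and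
`B.R = locv Λ'[F, χ(≥0)]`, `F ⊆ L ∩ QB Bs A`.
`QOk.step`: `B → B''` an adapted step, `Ext B'' Bs`, `inU Λ v L ≤ QB`: `y` is monomial in `B''`
(`MStep.mono_y`), hence in `Bs` and `y⁻¹ ∈ QB`; `w = y^q / χ(qβ)` and `w⁻¹ ∈ QB` (`w` is a unit);
`χ'(γ + l β) = χ(γ) y^l w^(-s) ∈ QB`; `z ∈ locv Λ[inU, w] ≤ QB`, `y'' = w - z ∈ QB`;
`B''.R = locv Λ'[F, w, χ'(≥0)]`: as in `QSt.step` of `LU1_h15/QPropA.lean`.
`QOk.reach`: induction on the chain (`Relation.ReflTransGen`), with `Ext B_i Bs` for the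
intermediate frames.
`QOk.init`: `F`, `χ(±basis)`, `y` are in `QB Bs A` if their numerators and denominators in `A` are
monomial in `Bs`. -/

set_option autoImplicit false
set_option linter.unusedSectionVars false
set_option linter.unusedVariables false

open Polynomial

namespace Pool.Agent.LUM

open Pool.Agent.H15JM (RVal)
open Pool.Agent.LU1 (VPos LatData val_add_vpos adj GoodBasis)

universe u

variable {Λ Λ' Q Ω : Type u} [CommRing Λ] [IsDomain Λ] [IsDiscreteValuationRing Λ]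
  [CommRing Λ'] [IsDomain Λ'] [IsDiscreteValuationRing Λ'] [Algebra Λ Λ'] [Field Q]
  [Algebra Λ Q] [IsFractionRing Λ Q] [Field Ω] [Algebra Λ Ω] [Algebra Λ' Ω]
  [IsScalarTower Λ Λ' Ω] [Algebra Q Ω] [IsScalarTower Λ Q Ω]
  {ϖ : Λ} {ϖ' : Λ'} {v : RVal Ω} {r : ℕ}

/-- The quotients `a / b`, `a, b ∈ A`, `b` monomial in `B`. -/
def BF.QB (B : BF ϖ' v) (A : Subalgebra Λ Ω) : Subalgebra Λ Ω where
  carrier := {f | ∃ a ∈ A, ∃ b ∈ A, B.Mono b ∧ f = a / b}
  mul_mem' := by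
    rintro f g ⟨a, ha, b, hb, hb0, rfl⟩ ⟨c, hc, d, hd, hd0, rfl⟩
    exact ⟨a * c, A.mul_mem ha hc, b * d, A.mul_mem hb hd, hb0.mul hd0, by
      rw [div_mul_div_comm]⟩
  add_mem' := by
    rintro f g ⟨a, ha, b, hb, hb0, rfl⟩ ⟨c, hc, d, hd, hd0, rfl⟩
    exact ⟨a * d + b * c, A.add_mem (A.mul_mem ha hd) (A.mul_mem hb hc), b * d,
      A.mul_mem hb hd, hb0.mul hd0, by rw [div_add_div _ _ hb0.ne hd0.ne]⟩
  algebraMap_mem' := by
    intro c
    exact ⟨algebraMap Λ Ω c, A.algebraMap_mem c, 1, A.one_mem, BF.Mono.un BF.Un.one, by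
      rw [div_one]⟩

theorem BF.QB_inv {B : BF ϖ' v} {A : Subalgebra Λ Ω} {f : Ω} (hf : f ∈ B.QB A)
    (h1 : B.Mono f) : f⁻¹ ∈ B.QB A := by
  obtain ⟨a, ha, b, hb, hb0, rfl⟩ := hf
  have h2 : B.Mono a := by
    have h3 := h1.mul hb0
    rwa [div_mul_cancel₀ _ hb0.ne] at h3
  exact ⟨b, hb, a, ha, h2, by rw [inv_div]⟩

theorem BF.QB_locv {B : BF ϖ' v} {A : Subalgebra Λ Ω} {S : Subalgebra Λ Ω} (hS : S ≤ B.QB A)
    (hSR : ∀ f ∈ S, f ∈ B.R) : locv v S ≤ B.QB A := by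
  rintro f ⟨a, ha, b, hb, hb0, hvb, rfl⟩
  rw [div_eq_mul_inv]
  exact (B.QB A).mul_mem (hS ha)
    (BF.QB_inv (hS hb) (BF.Mono.un ⟨hSR b hb, hb0, hvb⟩))

/-- The monomials, `y` and the generators of `B.R` are in `Bs.QB A`. -/
structure QOk (Bs : BF ϖ' v) (A : Subalgebra Λ Ω) (L : IntermediateField Q Ω) (B : BF ϖ' v) :
    Prop where
  χ : ∀ γ ∈ B.Γ, B.χ γ ∈ Bs.QB A
  y : B.y ∈ Bs.QB A
  fgen : ∃ F : Finset Ω, (∀ f ∈ F, f ∈ L ∧ f ∈ Bs.QB A) ∧
    B.R = locv v (Algebra.adjoin Λ' ((F : Set Ω) ∪ B.χ '' {γ | γ ∈ B.Γ ∧ 0 ≤ γ}))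

private theorem zpow_mem_of {A : Subalgebra Λ Ω} {u : Ω} (h : u ∈ A) (h' : u⁻¹ ∈ A) (n : ℤ) :
    u ^ n ∈ A := by
  cases n with
  | ofNat n => simpa using A.pow_mem h n
  | negSucc n =>
    rw [zpow_negSucc, ← inv_pow]
    exact A.pow_mem h' _

theorem QOk.step (h : Clo ϖ ϖ' v r) {Bs : BF ϖ' v} {A : Subalgebra Λ Ω}
    {L : IntermediateField Q Ω} {B B'' : BF ϖ' v} (hB : QOk Bs A L B) (hBL : Adap B L)
    (hs : AdSt Λ L B B'') (hE : Ext B'' Bs) (hU : inU Λ v L ≤ Bs.QB A) :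
    QOk Bs A L B'' := by
  classical
  obtain ⟨hAd, q, c, s, B', M, hst, hM, hchg, z, hz, hyz⟩ := hs
  obtain ⟨F, hF, hBR⟩ := hB.fgen
  have hE' : Ext B' Bs := hchg.ext.trans hE
  -- `y` and `w` are invertible in `QB`
  have hyinv : (B.y)⁻¹ ∈ Bs.QB A := BF.QB_inv hB.y (hE'.mono hst.mono_y)
  have hwQ : B.w q ∈ Bs.QB A := by
    rw [BF.w, div_eq_mul_inv, ← B.χ_neg hst.q_mem]
    exact (Bs.QB A).mul_mem ((Bs.QB A).pow_mem hB.y q) (hB.χ _ (B.Γ.neg_mem hst.q_mem))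
  have hwU : Bs.Un (B.w q) := hst.un_w.ext hE'
  have hwinv : (B.w q)⁻¹ ∈ Bs.QB A := BF.QB_inv hwQ (BF.Mono.un hwU)
  have hwL : B.w q ∈ L := by
    rw [BF.w]
    exact L.div_mem (pow_mem hBL.y q) (hBL.χ _ hst.q_mem)
  have hadR : ∀ f ∈ Algebra.adjoin Λ ((inU Λ v L : Set Ω) ∪ {B.w q}), f ∈ Bs.R := by
    intro f hf
    induction hf using Algebra.adjoin_induction with
    | mem x hx =>
      rcases hx with hx | hx
      · exact BF.henU_le h Bs (Algebra.mem_inf.1 hx).1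
      · rw [Set.mem_singleton_iff.1 hx]
        exact hwU.1
    | algebraMap c =>
      rw [IsScalarTower.algebraMap_apply Λ Λ' Ω]
      exact Bs.R.algebraMap_mem _
    | add x y _ _ hx hy => exact Bs.R.add_mem hx hy
    | mul x y _ _ hx hy => exact Bs.R.mul_mem hx hy
  have hadQ : Algebra.adjoin Λ ((inU Λ v L : Set Ω) ∪ {B.w q}) ≤ Bs.QB A := by
    rw [Algebra.adjoin_le_iff]
    rintro f (hf | hf)
    · exact hU hf
    · rw [Set.mem_singleton_iff.1 hf]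
      exact hwQ
  have hzQ : z ∈ Bs.QB A := BF.QB_locv hadQ hadR hz
  refine ⟨fun γ hγ => ?_, ?_, insert (B.w q) F, ?_, ?_⟩
  · rw [hchg.Γ_eq] at hγ
    rw [hchg.χ_eq]
    obtain ⟨γ, hγ1, l, rfl⟩ := hst.mem_Γ' hγ
    rw [hst.χ_eq γ hγ1 l]
    exact (Bs.QB A).mul_mem ((Bs.QB A).mul_mem (hB.χ γ hγ1) (zpow_mem_of hB.y hyinv l))
      (zpow_mem_of hwQ hwinv _)
  · rw [hyz]
    exact (Bs.QB A).sub_mem hwQ hzQ
  · intro f hf
    rcases Finset.mem_insert.1 hf with rfl | hf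
    · exact ⟨hwL, hwQ⟩
    · exact hF f hf
  · rw [hchg.R_eq, hchg.Γ_eq, hchg.χ_eq]
    set S' : Subalgebra Λ' Ω := Algebra.adjoin Λ'
      (((insert (B.w q) F : Finset Ω) : Set Ω) ∪ B'.χ '' {γ | γ ∈ B'.Γ ∧ 0 ≤ γ}) with hS'
    have hwF' : B.w q ∈ ((insert (B.w q) F : Finset Ω) : Set Ω) :=
      Finset.mem_coe.2 (Finset.mem_insert_self _ _)
    have hwS' : B.w q ∈ locv v S' := le_locv _ (Algebra.subset_adjoin (Or.inl hwF'))
    have hwz : ∀ n : ℤ, (B.w q) ^ n ∈ locv v S' := by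
      intro n
      cases n with
      | ofNat n => simpa using (locv v S').pow_mem hwS' n
      | negSucc n =>
        rw [zpow_negSucc, ← inv_pow]
        exact (locv v S').pow_mem (locv_inv hwS' hst.w_ne hst.v_w) _
    apply le_antisymm
    · rw [hst.R_eq]
      refine locv_le ?_ (fun f hf h0 h1 => locv_inv hf h0 h1)
      rw [Algebra.adjoin_le_iff]
      rintro f ((hf | ⟨γ, hγ, rfl⟩) | hf)
      · have h1 : B.R ≤ locv v S' := by
          rw [hBR]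
          refine locv_le ?_ (fun f hf h0 h1 => locv_inv hf h0 h1)
          rw [Algebra.adjoin_le_iff]
          rintro f (hf | ⟨γ, ⟨hγ, hγ0⟩, rfl⟩)
          · exact le_locv _ (Algebra.subset_adjoin (Or.inl
              (Finset.mem_coe.2 (Finset.mem_insert_of_mem hf))))
          · have h2 := hst.χ_mul hγ 0
            rw [zpow_zero, mul_one, Int.cast_zero, zero_mul, add_zero] at h2
            rw [SetLike.mem_coe, h2]
            exact (locv v S').mul_mem (le_locv _ (Algebra.subset_adjoin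
              (Or.inr ⟨γ, ⟨hst.Γ_le hγ, hγ0⟩, rfl⟩))) (hwz _)
        exact h1 hf
      · exact le_locv _ (Algebra.subset_adjoin (Or.inr ⟨γ, hγ, rfl⟩))
      · rw [Set.mem_singleton_iff.1 hf]
        exact hwS'
    · refine locv_le ?_ B'.loc
      rw [hS', Algebra.adjoin_le_iff]
      rintro f (hf | ⟨γ, ⟨hγ, hγ0⟩, rfl⟩)
      · rcases Finset.mem_insert.1 (Finset.mem_coe.1 hf) with rfl | hf
        · exact hst.un_w.1
        · refine hst.R_le ?_
          rw [hBR]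
          exact le_locv _ (Algebra.subset_adjoin (Or.inl hf))
      · exact B'.χ_mem γ hγ hγ0

theorem QOk.reach (h : Clo ϖ ϖ' v r) [IsAlgClosed Ω] [PerfectField (kk Λ)]
    {A : Subalgebra Λ Ω} {L : IntermediateField Q Ω} {B Bs : BF ϖ' v} (hB : QOk Bs A L B)
    (hBL : Adap B L) (hr : (adCls h L).Reach B Bs) (hU : inU Λ v L ≤ Bs.QB A) :
    QOk Bs A L Bs ∧ Adap Bs L := by
  have key : ∀ B1 : BF ϖ' v, (adCls h L).Reach B1 Bs → QOk Bs A L B1 → Adap B1 L →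
      QOk Bs A L Bs ∧ Adap Bs L := by
    intro B1 hr1
    unfold Cls.Reach at hr1
    induction hr1 using Relation.ReflTransGen.head_induction_on with
    | refl => exact fun h1 h2 => ⟨h1, h2⟩
    | head hst hr2 ih =>
      intro h1 h2
      have h3 : AdSt Λ L _ _ := hst
      exact ih (h1.step h h2 h3 (Cls.Reach.ext (K := adCls h L) hr2) hU) h3.1
  exact key B hr hB hBL

/-- There is a finite set `M₀` of nonzero elements of `A` such that `QOk` holds for the first frame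
as soon as the elements of `M₀` are monomial in the last one. -/
theorem QOk.init (h : Clo ϖ ϖ' v r) (A : Subalgebra Λ Ω) (L : IntermediateField Q Ω)
    (hA : QuoIs A (L : Set Ω)) (B : BF ϖ' v) (hB : Adap B L) (H : Finset Ω)
    (hH : ∀ x ∈ H, x ∈ L) :
    ∃ M₀ : Finset Ω, (∀ m ∈ M₀, m ∈ A ∧ m ≠ 0) ∧
      ∀ Bs : BF ϖ' v, (∀ m ∈ M₀, Bs.Mono m) → QOk Bs A L B ∧ ∀ x ∈ H, x ∈ Bs.QB A := by
  classical
  obtain ⟨F, hFL, hF⟩ := hB.fgen
  obtain ⟨G, hG⟩ := B.fg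
  have hGΓ : ∀ u ∈ G, u ∈ B.Γ := fun u hu => by rw [← hG]; exact AddSubgroup.subset_closure hu
  have hfr : ∀ f, f ∈ L → ∃ a b : Ω, a ∈ A ∧ b ∈ A ∧ b ≠ 0 ∧ f = a / b := by
    intro f hf
    obtain ⟨a, ha, b, hb, hb0, h3⟩ := hA.2 f hf
    exact ⟨a, b, ha, hb, hb0, h3⟩
  choose! nu de hnu hde hde0 hfr' using hfr
  set W : Finset Ω := ((F ∪ G.image B.χ) ∪ {B.y}) ∪ H with hW
  have hWL : ∀ w ∈ W, w ∈ L := by
    intro w hw
    rcases Finset.mem_union.1 hw with hw | hw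
    · rcases Finset.mem_union.1 hw with hw | hw
      · rcases Finset.mem_union.1 hw with hw | hw
        · exact hFL w hw
        · obtain ⟨u, hu, rfl⟩ := Finset.mem_image.1 hw
          exact hB.χ u (hGΓ u hu)
      · rw [Finset.mem_singleton.1 hw]
        exact hB.y
    · exact hH w hw
  refine ⟨(W.image nu ∪ W.image de).filter fun m => m ≠ 0, ?_, ?_⟩
  · intro m hm
    obtain ⟨h1, h2⟩ := Finset.mem_filter.1 hm
    refine ⟨?_, h2⟩
    rcases Finset.mem_union.1 h1 with h1 | h1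
    · obtain ⟨w, hw, rfl⟩ := Finset.mem_image.1 h1
      exact hnu w (hWL w hw)
    · obtain ⟨w, hw, rfl⟩ := Finset.mem_image.1 h1
      exact hde w (hWL w hw)
  · intro Bs hBs
    have hdeM : ∀ w ∈ W, Bs.Mono (de w) := fun w hw => hBs _ (Finset.mem_filter.2
      ⟨Finset.mem_union_right _ (Finset.mem_image_of_mem _ hw), hde0 w (hWL w hw)⟩)
    have hWQ : ∀ w ∈ W, w ∈ Bs.QB A := fun w hw =>
      ⟨nu w, hnu w (hWL w hw), de w, hde w (hWL w hw), hdeM w hw, hfr' w (hWL w hw)⟩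
    have hWM : ∀ w ∈ W, w ≠ 0 → Bs.Mono w := by
      intro w hw h0
      have h1 : nu w ≠ 0 := by
        intro h2
        apply h0
        rw [hfr' w (hWL w hw), h2, zero_div]
      have h2 : Bs.Mono (nu w) := hBs _ (Finset.mem_filter.2
        ⟨Finset.mem_union_left _ (Finset.mem_image_of_mem _ hw), h1⟩)
      rw [hfr' w (hWL w hw)]
      exact h2.div (hdeM w hw)
    have hFW : ∀ f ∈ F, f ∈ W := fun f hf => Finset.mem_union_left _
      (Finset.mem_union_left _ (Finset.mem_union_left _ hf))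
    have hGW : ∀ u ∈ G, B.χ u ∈ W := fun u hu => Finset.mem_union_left _
      (Finset.mem_union_left _ (Finset.mem_union_right _ (Finset.mem_image_of_mem _ hu)))
    have hyW : B.y ∈ W := Finset.mem_union_left _
      (Finset.mem_union_right _ (Finset.mem_singleton_self _))
    have hχ : ∀ γ ∈ B.Γ, B.χ γ ∈ Bs.QB A ∧ Bs.Mono (B.χ γ) := by
      intro γ hγ
      have hγ' := hγ
      rw [← hG] at hγ'
      induction hγ' using AddSubgroup.closure_induction with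
      | mem x hx => exact ⟨hWQ _ (hGW x hx), hWM _ (hGW x hx) (B.χ_ne x (hGΓ x hx))⟩
      | zero =>
        rw [B.χ_zero]
        exact ⟨(Bs.QB A).one_mem, BF.Mono.un BF.Un.one⟩
      | add x y hx hy ihx ihy =>
        rw [hG] at hx hy
        rw [B.χ_add x hx y hy]
        exact ⟨(Bs.QB A).mul_mem (ihx hx).1 (ihy hy).1, (ihx hx).2.mul (ihy hy).2⟩
      | neg x hx ihx =>
        rw [hG] at hx
        rw [B.χ_neg hx]
        exact ⟨BF.QB_inv (ihx hx).1 (ihx hx).2, (ihx hx).2.inv⟩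
    exact ⟨⟨fun γ hγ => (hχ γ hγ).1, hWQ _ hyW, F, fun f hf => ⟨hFL f hf, hWQ f (hFW f hf)⟩, hF⟩,
      fun x hx => hWQ x (Finset.mem_union_right _ hx)⟩

end Pool.Agent.LUM
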