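import Mathlib

/-! # I01: the algebraic part of a composite field

Recipe: put `L₀ = L ⊓ algebraicClosure Q Ω`.  For `b` algebraic over `Q`, `minpoly L b` has
coefficients in `L` which are algebraic over `Q` (they are polynomials in the conjugates of `b`, or:
`minpoly L b` divides `minpoly Q b`; coefficients of a monic factor of a polynomial over `Q` are
algebraic over `Q`), hence in `L₀`: `[L(b) : L] = [L₀(b) : L₀]`.
Let `z ∈ L ⊔ M` be algebraic over `Q`.  Then `z ∈ L(a₁, .., aₙ)` for finitely many `aᵢ ∈ M`;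
primitive element theorem (characteristic zero): `L₀(a₁, .., aₙ) = L₀(a)` and `L₀(a, z) = L₀(b)`; so
`L(b) = L(a, z) = L(a)`, and `[L₀(b) : L₀] = [L(b) : L] = [L(a) : L] = [L₀(a) : L₀]`, so
`L₀(b) = L₀(a)`, `z ∈ L₀(a) ≤ L₀ ⊔ M`. -/

set_option autoImplicit false

namespace Pool.Agent.LUM

universe u

open IntermediateField

theorem minpoly_coeff_alg {Q Ω : Type u} [Field Q] [Field Ω] [Algebra Q Ω]
    (L : IntermediateField Q Ω) {b : Ω} (hb : IsAlgebraic Q b) (i : ℕ) :
    IsAlgebraic Q ((minpoly L b).coeff i : Ω) := by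
  have hbi : IsIntegral Q b := hb.isIntegral
  have hbL : IsIntegral L b := hbi.tower_top
  have hg : ((minpoly L b).map (algebraMap L Ω)).Monic := (minpoly.monic hbL).map _
  have hd : (minpoly L b).map (algebraMap L Ω) ∣ (minpoly Q b).map (algebraMap Q Ω) := by
    have h1 := minpoly.dvd_map_of_isScalarTower Q L b
    have h2 := Polynomial.map_dvd (algebraMap L Ω) h1
    rwa [Polynomial.map_map, ← IsScalarTower.algebraMap_eq] at h2
  have h1 := integralClosure.mem_lifts_of_monic_of_dvd_map Ω (minpoly.monic hbi) hg hd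
  rw [Polynomial.lifts_iff_coeff_lifts] at h1
  obtain ⟨c, hc⟩ := h1 i
  rw [Polynomial.coeff_map] at hc
  have h2 : ((minpoly L b).coeff i : Ω) = (c : Ω) := hc.symm
  rw [h2]
  exact c.2.isAlgebraic

private theorem natDegree_le_aux {Q Ω : Type u} [Field Q] [Field Ω] [Algebra Q Ω]
    (K L : IntermediateField Q Ω) {b : Ω} (hb : IsIntegral L b)
    (h : ∀ i, ((minpoly L b).coeff i : Ω) ∈ K) :
    (minpoly K b).natDegree ≤ (minpoly L b).natDegree := by
  have hg : ((minpoly L b).map (algebraMap L Ω)).Monic := (minpoly.monic hb).map _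
  have hl : (minpoly L b).map (algebraMap L Ω) ∈ Polynomial.lifts (algebraMap K Ω) := by
    rw [Polynomial.lifts_iff_coeff_lifts]
    intro i
    rw [Polynomial.coeff_map]
    exact ⟨⟨_, h i⟩, rfl⟩
  obtain ⟨q, hq1, hq2, hq3⟩ := Polynomial.lifts_and_natDegree_eq_and_monic hl hg
  rw [Polynomial.natDegree_map] at hq2
  rw [← hq2]
  apply Polynomial.natDegree_le_natDegree
  apply minpoly.min _ _ hq3
  rw [Polynomial.aeval_def, ← Polynomial.eval_map, hq1, Polynomial.eval_map,
    ← Polynomial.aeval_def]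
  exact minpoly.aeval _ _

private theorem prim_aux {K Ω : Type u} [Field K] [CharZero K] [Field Ω] [Algebra K Ω]
    (T : Finset Ω) (hT : ∀ x ∈ T, IsAlgebraic K x) :
    ∃ a : Ω, IsIntegral K a ∧ adjoin K {a} = adjoin K (T : Set Ω) := by
  have hfd : FiniteDimensional K (adjoin K (T : Set Ω)) :=
    finiteDimensional_adjoin fun x hx => (hT x hx).isIntegral
  obtain ⟨α, hα⟩ := Field.exists_primitive_element K (adjoin K (T : Set Ω))
  refine ⟨α, ?_, ?_⟩
  · exact (isIntegral_algebraMap_iff (algebraMap (adjoin K (T : Set Ω)) Ω).injective).mpr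
      (IsIntegral.of_finite K α)
  · rw [← lift_adjoin_simple, hα, lift_top]

private theorem adj_congr_aux {Q Ω : Type u} [Field Q] [Field Ω] [Algebra Q Ω]
    {K L : IntermediateField Q Ω} (hKL : K ≤ L) {S S' : Set Ω} (h : adjoin K S = adjoin K S') :
    adjoin L S = adjoin L S' := by
  apply restrictScalars_injective Q
  have h1 := congrArg (restrictScalars Q) h
  rw [restrictScalars_adjoin_eq_sup, restrictScalars_adjoin_eq_sup] at h1 ⊢
  calc L ⊔ adjoin Q S = L ⊔ (K ⊔ adjoin Q S) := by rw [← sup_assoc, sup_eq_left.mpr hKL]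
    _ = L ⊔ (K ⊔ adjoin Q S') := by rw [h1]
    _ = L ⊔ adjoin Q S' := by rw [← sup_assoc, sup_eq_left.mpr hKL]

theorem mem_sup_of_alg {Q Ω : Type u} [Field Q] [CharZero Q] [Field Ω] [Algebra Q Ω]
    (L M : IntermediateField Q Ω) (hM : ∀ x ∈ M, IsAlgebraic Q x) {z : Ω} (hz : z ∈ L ⊔ M)
    (hz0 : IsAlgebraic Q z) : z ∈ (L ⊓ algebraicClosure Q Ω) ⊔ M := by
  classical
  set L₀ : IntermediateField Q Ω := L ⊓ algebraicClosure Q Ω with hL₀
  have hle : L₀ ≤ L := inf_le_left
  have : CharZero L₀ := charZero_of_injective_algebraMap (algebraMap Q L₀).injective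
  have h1 : z ∈ adjoin L (M : Set Ω) := by
    have h2 : z ∈ restrictScalars Q (adjoin L (M : Set Ω)) := by
      rw [restrictScalars_adjoin_eq_sup, adjoin_self]
      exact hz
    exact h2
  obtain ⟨T, hTM, hzT⟩ := exists_finset_of_mem_adjoin h1
  have hT : ∀ x ∈ T, IsAlgebraic Q x := fun x hx => hM x (hTM hx)
  have hT' : ∀ x ∈ insert z T, IsAlgebraic Q x := by
    intro x hx
    rcases Finset.mem_insert.mp hx with rfl | hx
    · exact hz0
    · exact hT x hx
  obtain ⟨a, ha, hTa⟩ := prim_aux (K := L₀) T fun x hx => (hT x hx).tower_top L₀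
  obtain ⟨b, hb, hTb⟩ := prim_aux (K := L₀) (insert z T) fun x hx => (hT' x hx).tower_top L₀
  have halg : ∀ x : Ω, IsIntegral L₀ x → IsAlgebraic Q x := by
    intro x hx
    have : Algebra.IsAlgebraic Q L₀ := by
      refine ⟨fun y => ?_⟩
      have hy : (y : Ω) ∈ algebraicClosure Q Ω := (inf_le_right : L₀ ≤ _) y.2
      rw [mem_algebraicClosure_iff] at hy
      exact (isAlgebraic_algebraMap_iff (algebraMap L₀ Ω).injective).mp hy
    exact hx.isAlgebraic.restrictScalars Q
  have e1 : adjoin L {a} = adjoin L (T : Set Ω) := adj_congr_aux hle hTa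
  have e2 : adjoin L {b} = adjoin L ((insert z T : Finset Ω) : Set Ω) := adj_congr_aux hle hTb
  have e3 : adjoin L ((insert z T : Finset Ω) : Set Ω) = adjoin L (T : Set Ω) := by
    apply le_antisymm
    · rw [adjoin_le_iff]
      intro x hx
      rw [Finset.coe_insert, Set.mem_insert_iff] at hx
      rcases hx with rfl | hx
      · exact hzT
      · exact subset_adjoin _ _ hx
    · apply adjoin.mono
      rw [Finset.coe_insert]
      exact Set.subset_insert _ _
  have e4 : adjoin L {b} = adjoin L {a} := by rw [e2, e3, e1]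
  have haL : IsIntegral L a := (halg a ha).isIntegral.tower_top
  have hbL : IsIntegral L b := (halg b hb).isIntegral.tower_top
  have d1 : (minpoly L b).natDegree = (minpoly L a).natDegree := by
    rw [← adjoin.finrank hbL, ← adjoin.finrank haL, e4]
  have d2 : (minpoly L₀ b).natDegree ≤ (minpoly L b).natDegree := by
    refine natDegree_le_aux L₀ L hbL fun i => ?_
    exact ⟨((minpoly L b).coeff i).2, mem_algebraicClosure_iff.mpr
      (minpoly_coeff_alg L (halg b hb) i)⟩
  have d3 : (minpoly L a).natDegree ≤ (minpoly L₀ a).natDegree :=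
    natDegree_le_aux L L₀ ha fun i => hle ((minpoly L₀ a).coeff i).2
  have h5 : adjoin L₀ {a} ≤ adjoin L₀ {b} := by
    rw [hTa, hTb]
    apply adjoin.mono
    rw [Finset.coe_insert]
    exact Set.subset_insert _ _
  have : FiniteDimensional L₀ (adjoin L₀ {b}) := adjoin.finiteDimensional hb
  have h6 : adjoin L₀ {a} = adjoin L₀ {b} := by
    refine eq_of_le_of_finrank_le h5 ?_
    rw [adjoin.finrank hb, adjoin.finrank ha]
    omega
  have h7 : z ∈ adjoin L₀ (T : Set Ω) := by
    rw [← hTa, h6, hTb]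
    apply subset_adjoin
    rw [Finset.coe_insert]
    exact Set.mem_insert _ _
  have h8 : z ∈ restrictScalars Q (adjoin L₀ (T : Set Ω)) := h7
  rw [restrictScalars_adjoin_eq_sup] at h8
  exact sup_le_sup_left (adjoin_le_iff.mpr hTM) L₀ h8

private theorem mem_bot_aux {Q Ω : Type u} [Field Q] [Field Ω] [Algebra Q Ω]
    {S : Set Ω} (hS : AlgebraicIndependent Q ((↑) : S → Ω)) {α : Ω} (hα : α ∈ adjoin Q S)
    (halg : IsAlgebraic Q α) : α ∈ (⊥ : IntermediateField Q Ω) := by
  obtain ⟨r, s, hrs⟩ := (mem_adjoin_iff Q α).mp hα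
  by_cases hs : MvPolynomial.aeval (Subtype.val : S → Ω) s = 0
  · rw [hs, div_zero] at hrs
    rw [hrs]
    exact zero_mem _
  · have hind := hS.algebraicClosure
    let β : algebraicClosure Q Ω := ⟨α, mem_algebraicClosure_iff.mpr halg⟩
    have h1 : MvPolynomial.C β * MvPolynomial.map (algebraMap Q (algebraicClosure Q Ω)) s =
        MvPolynomial.map (algebraMap Q (algebraicClosure Q Ω)) r := by
      apply hind
      rw [map_mul, MvPolynomial.aeval_C, MvPolynomial.aeval_map_algebraMap,
        MvPolynomial.aeval_map_algebraMap]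
      have h2 : algebraMap (algebraicClosure Q Ω) Ω β = α := rfl
      rw [h2, hrs, div_mul_cancel₀ _ hs]
    have hs0 : s ≠ 0 := by
      rintro rfl
      exact hs (map_zero _)
    obtain ⟨m, hm⟩ := MvPolynomial.ne_zero_iff.mp hs0
    have h3 := congrArg (MvPolynomial.coeff m) h1
    rw [MvPolynomial.coeff_C_mul, MvPolynomial.coeff_map, MvPolynomial.coeff_map] at h3
    have h4 : α * algebraMap Q Ω (s.coeff m) = algebraMap Q Ω (r.coeff m) :=
      congrArg (algebraMap (algebraicClosure Q Ω) Ω) h3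
    have h5 : algebraMap Q Ω (s.coeff m) ≠ 0 := by
      rwa [Ne, map_eq_zero]
    rw [mem_bot]
    refine ⟨r.coeff m / s.coeff m, ?_⟩
    rw [map_div₀, div_eq_iff h5, h4]

/-- If `L` is finitely generated over `Q`, its algebraic part is finite over `Q`. -/
theorem finite_algebraic_part {Q Ω : Type u} [Field Q] [CharZero Q] [Field Ω] [Algebra Q Ω]
    (L : IntermediateField Q Ω) (hfg : L.FG) :
    ∃ M : IntermediateField Q Ω, M ≤ L ∧ FiniteDimensional Q M ∧
      ∀ x ∈ L, IsAlgebraic Q x → x ∈ M := by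
  classical
  obtain ⟨T, hT⟩ := hfg
  obtain ⟨S, -, hS⟩ := exists_maximal_algebraicIndependent (R := Q) (∅ : Set Ω) (T : Set Ω)
    (Set.empty_subset _) (by
      rw [AlgebraicIndepOn]
      have : IsEmpty (∅ : Set Ω) := Set.isEmpty_coe_sort.mpr rfl
      exact algebraicIndependent_empty_type_iff.mpr (algebraMap Q Ω).injective)
  have hSind : AlgebraicIndependent Q ((↑) : S → Ω) := hS.prop.1
  have hST : S ⊆ T := hS.prop.2
  set K := adjoin Q S with hK
  have hTK : ∀ x ∈ T, IsAlgebraic K x := by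
    intro x hx
    by_contra htr
    have h1 : Transcendental (Algebra.adjoin Q S) x := transcendental_adjoin_iff.mp htr
    have hxS : x ∉ S := by
      intro hxS
      exact h1 (isAlgebraic_algebraMap (⟨x, Algebra.subset_adjoin hxS⟩ : Algebra.adjoin Q S))
    have h2 : AlgebraicIndepOn Q id (insert x S) := by
      have h3 : AlgebraicIndepOn Q id S := hS.prop.1
      refine (AlgebraicIndepOn.insert_iff hxS).mpr ⟨h3, ?_⟩
      rw [Set.image_id]
      exact h1
    have h4 : insert x S ⊆ (T : Set Ω) := Set.insert_subset hx hST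
    exact hxS (hS.le_of_ge ⟨h2, h4⟩ (Set.subset_insert x S) (Set.mem_insert x S))
  have hfd : FiniteDimensional K (adjoin K (T : Set Ω)) :=
    finiteDimensional_adjoin fun x hx => (hTK x hx).isIntegral
  have hLK : ∀ x ∈ L, x ∈ adjoin K (T : Set Ω) := by
    intro x hx
    have h1 : x ∈ restrictScalars Q (adjoin K (T : Set Ω)) := by
      rw [restrictScalars_adjoin_eq_sup, hT]
      exact (le_sup_right : L ≤ K ⊔ L) hx
    exact h1
  have hdeg : ∀ x ∈ L, IsAlgebraic Q x →
      (minpoly Q x).natDegree ≤ Module.finrank K (adjoin K (T : Set Ω)) := by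
    intro x hx hx0
    have hxK : IsIntegral K x := hx0.isIntegral.tower_top
    have h1 : (minpoly (⊥ : IntermediateField Q Ω) x).natDegree ≤ (minpoly K x).natDegree := by
      refine natDegree_le_aux ⊥ K hxK fun i => ?_
      exact mem_bot_aux hSind ((minpoly K x).coeff i).2 (minpoly_coeff_alg K hx0 i)
    have h2 : (minpoly Q x).natDegree ≤ (minpoly (⊥ : IntermediateField Q Ω) x).natDegree := by
      have hb : IsIntegral (⊥ : IntermediateField Q Ω) x := hx0.isIntegral.tower_top
      have hg : ((minpoly (⊥ : IntermediateField Q Ω) x).map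
        (algebraMap (⊥ : IntermediateField Q Ω) Ω)).Monic := (minpoly.monic hb).map _
      have hl : (minpoly (⊥ : IntermediateField Q Ω) x).map
          (algebraMap (⊥ : IntermediateField Q Ω) Ω) ∈ Polynomial.lifts (algebraMap Q Ω) := by
        rw [Polynomial.lifts_iff_coeff_lifts]
        intro i
        rw [Polynomial.coeff_map]
        exact mem_bot.mp ((minpoly (⊥ : IntermediateField Q Ω) x).coeff i).2
      obtain ⟨q, hq1, hq2, hq3⟩ := Polynomial.lifts_and_natDegree_eq_and_monic hl hg
      rw [Polynomial.natDegree_map] at hq2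
      rw [← hq2]
      apply Polynomial.natDegree_le_natDegree
      apply minpoly.min _ _ hq3
      rw [Polynomial.aeval_def, ← Polynomial.eval_map, hq1, Polynomial.eval_map,
        ← Polynomial.aeval_def]
      exact minpoly.aeval _ _
    have h3 : (minpoly K x).natDegree ≤ Module.finrank K (adjoin K (T : Set Ω)) := by
      have h4 := minpoly.natDegree_le (A := K) (⟨x, hLK x hx⟩ : adjoin K (T : Set Ω))
      have h5 : minpoly K (⟨x, hLK x hx⟩ : adjoin K (T : Set Ω)) = minpoly K x :=
        (minpoly.algebraMap_eq (algebraMap (adjoin K (T : Set Ω)) Ω).injective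
          (⟨x, hLK x hx⟩ : adjoin K (T : Set Ω))).symm
      rwa [h5] at h4
    omega
  obtain ⟨α, ⟨hαL, hαa⟩, hmax⟩ : ∃ α, (α ∈ L ∧ IsAlgebraic Q α) ∧ ∀ β, β ∈ L → IsAlgebraic Q β →
      (minpoly Q β).natDegree ≤ (minpoly Q α).natDegree := by
    set P : ℕ → Prop := fun n => ∃ α, (α ∈ L ∧ IsAlgebraic Q α) ∧ (minpoly Q α).natDegree = n
    have h0 : ∃ n, P n := ⟨_, 0, ⟨zero_mem _, isAlgebraic_zero⟩, rfl⟩
    have hbd : ∀ n, P n → n ≤ Module.finrank K (adjoin K (T : Set Ω)) := by
      rintro n ⟨α, ⟨h1, h2⟩, rfl⟩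
      exact hdeg α h1 h2
    obtain ⟨n0, hn0⟩ := h0
    have h5 := Nat.findGreatest_spec (P := P) (hbd n0 hn0) hn0
    obtain ⟨α, h6, h7⟩ := h5
    refine ⟨α, h6, fun β h8 h9 => ?_⟩
    rw [h7]
    exact Nat.le_findGreatest (hbd _ ⟨β, ⟨h8, h9⟩, rfl⟩) ⟨β, ⟨h8, h9⟩, rfl⟩
  refine ⟨adjoin Q {α}, ?_, adjoin.finiteDimensional hαa.isIntegral, fun x hx hx0 => ?_⟩
  · rw [adjoin_le_iff, Set.singleton_subset_iff]
    exact hαL
  · obtain ⟨γ, hγ, hγT⟩ := prim_aux (K := Q) ({α, x} : Finset Ω) (by
      intro y hy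
      rcases Finset.mem_insert.mp hy with rfl | hy
      · exact hαa
      · rw [Finset.mem_singleton.mp hy]
        exact hx0)
    have hγL : γ ∈ L := by
      have h1 : γ ∈ adjoin Q (({α, x} : Finset Ω) : Set Ω) := by
        rw [← hγT]
        exact mem_adjoin_simple_self Q γ
      have h2 : adjoin Q (({α, x} : Finset Ω) : Set Ω) ≤ L := by
        rw [adjoin_le_iff]
        intro y hy
        rcases Finset.mem_insert.mp (Finset.mem_coe.mp hy) with rfl | hy
        · exact hαL
        · rw [Finset.mem_singleton.mp hy]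
          exact hx
      exact h2 h1
    have h3 : adjoin Q {α} ≤ adjoin Q {γ} := by
      rw [hγT]
      apply adjoin.mono
      intro y hy
      rw [Set.mem_singleton_iff] at hy
      simp [hy]
    have : FiniteDimensional Q (adjoin Q {γ}) := adjoin.finiteDimensional hγ
    have h4 : adjoin Q {α} = adjoin Q {γ} := by
      refine eq_of_le_of_finrank_le h3 ?_
      rw [adjoin.finrank hγ, adjoin.finrank hαa.isIntegral]
      exact hmax γ hγL hγ.isAlgebraic
    rw [h4, hγT]
    apply subset_adjoin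
    simp

end Pool.Agent.LUM
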