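import Pool.Agent.Lib.LUM.F01
import Pool.Agent.Lib.LUM.I01

/-! # F02: finite generation of the algebraic part; the regular reduction

Recipe `exists_H`: `finite_algebraic_part` and `exists_gens_of_finite`.
Recipe `exists_reg`: `M` = the algebraic part of `K` (finite over `Q`).  `Λ₁` = the subring
`{x | x ∈ M, v.Ge 0 x}` of `Ω` (as a `Subalgebra Λ Ω`, then the subtype; `v.Ge 0` is stable under sums
and products: see `valR` in `ValRing.lean`, or use that valuation subring of `M`).  It is a DVR with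
uniformizer `ϖ₁` of `discrete_of_finite` (every element of positive value is divisible by `ϖ₁`, `v` is
real, elements of value zero are units; `IsDiscreteValuationRing.ofHasUnitMulPowIrreducibleFactorization`).
`Ctx0 ϖ₁ v r`: `trdeg Λ₁ Ω = trdeg Λ Ω` because `Λ₁/Λ` is algebraic.
`ResAlg Λ₁ v` from `ResAlg Λ v` by mapping polynomials.  `kk Λ₁` is algebraic over `kk Λ` (by `ResAlg`),
so perfect of characteristic `p`. -/

set_option autoImplicit false
set_option linter.unusedSectionVars false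
set_option linter.unusedVariables false

open Polynomial

namespace Pool.Agent.LUM

open Pool.Agent.H15JM (RVal)
open Pool.Agent.LU1 (VPos LatData val_add_vpos adj)

universe u

variable {Λ Q Ω : Type u} [CommRing Λ] [IsDomain Λ] [IsDiscreteValuationRing Λ] [Field Q]
  [Algebra Λ Q] [IsFractionRing Λ Q] [Field Ω] [Algebra Λ Ω] [Algebra Q Ω] [IsScalarTower Λ Q Ω]
  {ϖ : Λ} {v : RVal Ω} {r : ℕ}

theorem exists_H (h : Ctx0 ϖ v r) [CharZero Q] (L : IntermediateField Q Ω) (hfg : L.FG) :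
    ∃ H : Finset Ω, (∀ x ∈ H, x ∈ L ∧ v.Ge 0 x ∧ IsAlgebraic Q x) ∧
      ∀ x ∈ L, IsAlgebraic Q x → v.Ge 0 x → x ∈ locv v (Algebra.adjoin Λ (H : Set Ω)) := by
  obtain ⟨M, hML, hfd, hM⟩ := finite_algebraic_part L hfg
  obtain ⟨H, h1, h2⟩ := exists_gens_of_finite h M
  refine ⟨H, fun x hx => ⟨hML (h1 x hx).1, (h1 x hx).2, ?_⟩, fun x hx hx1 hx2 =>
    h2 x (hM x hx hx1) hx2⟩
  have h3 : IsAlgebraic Q (⟨x, (h1 x hx).1⟩ : M) := Algebra.IsAlgebraic.isAlgebraic _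
  exact h3.algebraMap

/-- the elements of `M` of value `≥ 0` -/
private def F02_ring (h : Ctx0 ϖ v r) (M : IntermediateField Q Ω) : Subalgebra Λ Ω where
  carrier := {x | x ∈ M ∧ v.Ge 0 x}
  mul_mem' := by
    rintro a b ⟨h1, h2⟩ ⟨h3, h4⟩
    refine ⟨M.mul_mem h1 h3, ?_⟩
    have h5 := h2.mul h4
    rwa [add_zero] at h5
  add_mem' := by
    rintro a b ⟨h1, h2⟩ ⟨h3, h4⟩
    exact ⟨M.add_mem h1 h3, h2.add h4⟩
  algebraMap_mem' := by
    intro c
    refine ⟨?_, h.ge c⟩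
    rw [IsScalarTower.algebraMap_apply Λ Q Ω]
    exact M.algebraMap_mem _

private theorem F02_mem (h : Ctx0 ϖ v r) (M : IntermediateField Q Ω) {x : Ω} :
    x ∈ F02_ring h M ↔ x ∈ M ∧ v.Ge 0 x := Iff.rfl

private theorem F02_unit (h : Ctx0 ϖ v r) (M : IntermediateField Q Ω) {x : F02_ring h M} :
    IsUnit x ↔ (x : Ω) ≠ 0 ∧ v (x : Ω) = 0 := by
  constructor
  · rintro ⟨u, rfl⟩
    have h1 : ((u : F02_ring h M) : Ω) * (((u⁻¹ : (F02_ring h M)ˣ) : F02_ring h M) : Ω) = 1 := by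
      have h2 := congrArg (fun y : F02_ring h M => (y : Ω)) (Units.mul_inv u)
      exact h2
    have h2 := left_ne_zero_of_mul_eq_one h1
    have h3 := right_ne_zero_of_mul_eq_one h1
    refine ⟨h2, ?_⟩
    have h4 := ((F02_mem h M).mp (u : F02_ring h M).2).2 h2
    have h5 := ((F02_mem h M).mp ((u⁻¹ : (F02_ring h M)ˣ) : F02_ring h M).2).2 h3
    have h6 := congrArg v.toFun h1
    have h7 : v (((u : F02_ring h M) : Ω) * (((u⁻¹ : (F02_ring h M)ˣ) : F02_ring h M) : Ω)) =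
        v 1 := h6
    rw [v.map_mul h2 h3, v.map_one] at h7
    linarith
  · rintro ⟨h1, h2⟩
    have h3 : (x : Ω)⁻¹ ∈ F02_ring h M := by
      rw [F02_mem]
      refine ⟨M.inv_mem ((F02_mem h M).mp x.2).1, fun _ => ?_⟩
      rw [v.map_inv h1, h2, neg_zero]
    refine IsUnit.of_mul_eq_one ⟨(x : Ω)⁻¹, h3⟩ ?_
    apply Subtype.ext
    exact mul_inv_cancel₀ h1

private theorem F02_dvr (h : Ctx0 ϖ v r) (M : IntermediateField Q Ω) {π : F02_ring h M}
    (hπ0 : (π : Ω) ≠ 0) (hπ1 : 0 < v (π : Ω))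
    (hπ : ∀ x ∈ M, VPos v x → ∃ y ∈ M, v.Ge 0 y ∧ x = (π : Ω) * y) :
    Irreducible π ∧ IsDiscreteValuationRing (F02_ring h M) := by
  classical
  have hdiv : ∀ x : F02_ring h M, ¬ IsUnit x → π ∣ x := by
    intro x hx
    obtain ⟨y, hy1, hy2, hy3⟩ := hπ x ((F02_mem h M).mp x.2).1 (by
      intro h0
      rcases lt_or_eq_of_le (((F02_mem h M).mp x.2).2 h0) with h1 | h1
      · exact h1
      · exact absurd ((F02_unit h M).mpr ⟨h0, h1.symm⟩) hx)
    exact ⟨⟨y, hy1, hy2⟩, Subtype.ext hy3⟩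
  have hnu : ¬ IsUnit π := by
    intro h0
    have h1 := ((F02_unit h M).mp h0).2
    rw [h1] at hπ1
    exact lt_irrefl _ hπ1
  have hπne : π ≠ 0 := by
    rintro rfl
    exact hπ0 rfl
  have hirr : Irreducible π := by
    refine ⟨hnu, fun {a b} hab => ?_⟩
    by_contra hcon
    push Not at hcon
    obtain ⟨a', rfl⟩ := hdiv a hcon.1
    have h1 : π * 1 = π * (a' * b) := by
      rw [mul_one, ← mul_assoc]
      exact hab
    have h2 := mul_left_cancel₀ hπne h1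
    exact hcon.2 (IsUnit.of_mul_eq_one a' (by rw [mul_comm]; exact h2.symm))
  refine ⟨hirr, IsDiscreteValuationRing.ofHasUnitMulPowIrreducibleFactorization
    ⟨π, hirr, fun {x} hx => ?_⟩⟩
  have hx0 : (x : Ω) ≠ 0 := fun h0 => hx (Subtype.ext h0)
  have hex : ∃ n : ℕ, ¬ π ^ (n + 1) ∣ x := by
    obtain ⟨n, hn⟩ := exists_nat_gt (v (x : Ω) / v (π : Ω))
    refine ⟨n, ?_⟩
    rintro ⟨y, hy⟩
    have h1 : (x : Ω) = (π : Ω) ^ (n + 1) * (y : Ω) :=
      congrArg (fun y : F02_ring h M => (y : Ω)) hy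
    have hy0 : (y : Ω) ≠ 0 := by
      intro h0
      rw [h0, mul_zero] at h1
      exact hx0 h1
    have h2 : v (x : Ω) = (n + 1 : ℕ) * v (π : Ω) + v (y : Ω) := by
      rw [h1, v.map_mul (pow_ne_zero _ hπ0) hy0, v.map_pow hπ0]
    have h3 := ((F02_mem h M).mp y.2).2 hy0
    rw [div_lt_iff₀ hπ1] at hn
    push_cast at h2
    nlinarith
  obtain ⟨n, h1, h2⟩ : ∃ n : ℕ, ¬ π ^ (n + 1) ∣ x ∧ π ^ n ∣ x := by
    refine ⟨Nat.find hex, Nat.find_spec hex, ?_⟩
    rcases Nat.eq_zero_or_pos (Nat.find hex) with h0 | h0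
    · rw [h0, pow_zero]
      exact one_dvd _
    · have h3 := Nat.find_min hex (Nat.sub_lt h0 one_pos)
      rw [not_not] at h3
      have h4 : Nat.find hex - 1 + 1 = Nat.find hex := by omega
      rwa [h4] at h3
  obtain ⟨y, hy⟩ := h2
  have hyu : IsUnit y := by
    by_contra hyu
    obtain ⟨z, hz⟩ := hdiv y hyu
    apply h1
    refine ⟨z, ?_⟩
    rw [hy, hz, pow_succ, mul_assoc]
  obtain ⟨u, hu⟩ := hyu
  refine ⟨n, u, ?_⟩
  rw [hu, ← hy]

theorem exists_reg (h : Ctx0 ϖ v r) [CharZero Q] (K : IntermediateField Q Ω) (hfg : K.FG)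
    [PerfectField (kk Λ)] (hra : ResAlg Λ v) (p : ℕ) (hp : p.Prime) [CharP (kk Λ) p] :
    ∃ (Λ₁ : Type u) (_ : CommRing Λ₁) (_ : IsDomain Λ₁) (_ : IsDiscreteValuationRing Λ₁)
      (_ : Algebra Λ Λ₁) (_ : Algebra Λ₁ Ω) (_ : IsScalarTower Λ Λ₁ Ω) (ϖ₁ : Λ₁),
      Ctx0 ϖ₁ v r ∧ PerfectField (kk Λ₁) ∧ CharP (kk Λ₁) p ∧ ResAlg Λ₁ v ∧
      (∀ c : Λ₁, algebraMap Λ₁ Ω c ∈ K) ∧
      (∀ x ∈ K, IsAlgebraic Q x → v.Ge 0 x → ∃ c : Λ₁, algebraMap Λ₁ Ω c = x) ∧
      ∃ H : Finset Ω, (∀ x ∈ H, ∃ c : Λ₁, algebraMap Λ₁ Ω c = x) ∧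
        ∀ c : Λ₁, algebraMap Λ₁ Ω c ∈ locv v (Algebra.adjoin Λ (H : Set Ω)) := by
  obtain ⟨M, hMK, hfd, hM⟩ := finite_algebraic_part K hfg
  obtain ⟨H, hH1, hH2⟩ := exists_gens_of_finite h M
  obtain ⟨π, hπM, hπ0, hπ1, hπ⟩ := discrete_of_finite h M
  have hπR : π ∈ F02_ring h M := (F02_mem h M).mpr ⟨hπM, fun _ => hπ1.le⟩
  obtain ⟨hirr, hdvr⟩ := F02_dvr h M (π := ⟨π, hπR⟩) hπ0 hπ1 hπ
  have halgM : ∀ x ∈ M, IsAlgebraic Q x := by
    intro x hx
    have h3 : IsAlgebraic Q (⟨x, hx⟩ : M) := Algebra.IsAlgebraic.isAlgebraic _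
    exact h3.algebraMap
  have hmap : ∀ c : F02_ring h M, algebraMap (F02_ring h M) Ω c = (c : Ω) := fun c => rfl
  have halg : Algebra.IsAlgebraic Λ (F02_ring h M) := by
    refine ⟨fun c => ?_⟩
    have h1 : IsAlgebraic Q (c : Ω) := halgM _ ((F02_mem h M).mp c.2).1
    have h2 : IsAlgebraic Λ (c : Ω) := (IsFractionRing.isAlgebraic_iff Λ Q Ω).mpr h1
    exact (isAlgebraic_algebraMap_iff (Subtype.val_injective :
      Function.Injective (algebraMap (F02_ring h M) Ω))).mp h2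
  have hinjΛ : Function.Injective (algebraMap Λ (F02_ring h M)) := by
    intro a b hab
    apply h.inj
    exact congrArg (fun y : F02_ring h M => (y : Ω)) hab
  have hfs1 : FaithfulSMul Λ (F02_ring h M) := (faithfulSMul_iff_algebraMap_injective _ _).mpr hinjΛ
  have hfs2 : FaithfulSMul (F02_ring h M) Ω :=
    (faithfulSMul_iff_algebraMap_injective _ _).mpr Subtype.val_injective
  have hloc : IsLocalHom (algebraMap Λ (F02_ring h M)) := by
    refine ⟨fun a ha => ?_⟩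
    by_contra hau
    have h1 : a ∈ IsLocalRing.maximalIdeal Λ := by
      rw [IsLocalRing.mem_maximalIdeal]
      exact hau
    rw [h.irr.maximalIdeal_eq, Ideal.mem_span_singleton] at h1
    obtain ⟨b, rfl⟩ := h1
    obtain ⟨h2, h3⟩ := (F02_unit h M).mp ha
    have h4 : ((algebraMap Λ (F02_ring h M) (ϖ * b) : F02_ring h M) : Ω) =
        algebraMap Λ Ω ϖ * algebraMap Λ Ω b := by
      rw [← map_mul]
      rfl
    rw [h4] at h2 h3
    have h5 := left_ne_zero_of_mul h2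
    have h6 := right_ne_zero_of_mul h2
    rw [v.map_mul h5 h6] at h3
    have h7 := h.pos
    have h8 := h.ge b h6
    linarith
  have halgk : Algebra.IsAlgebraic (kk Λ) (kk (F02_ring h M)) := by
    refine ⟨fun x => ?_⟩
    obtain ⟨c, rfl⟩ := IsLocalRing.residue_surjective x
    obtain ⟨P, hP1, hP2⟩ := hra (c : Ω) ((F02_mem h M).mp c.2).2
    refine ⟨P.map (IsLocalRing.residue Λ), (hP1.map _).ne_zero, ?_⟩
    have h1 : aeval (IsLocalRing.residue (F02_ring h M) c) (P.map (IsLocalRing.residue Λ)) =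
        IsLocalRing.residue (F02_ring h M) (aeval c P) := by
      rw [aeval_def, eval₂_map, aeval_def, Polynomial.hom_eval₂]
      rfl
    rw [h1, IsLocalRing.residue_eq_zero_iff, IsLocalRing.mem_maximalIdeal, mem_nonunits_iff,
      F02_unit]
    rintro ⟨h2, h3⟩
    have h4 : ((aeval c P : F02_ring h M) : Ω) = aeval (c : Ω) P := by
      have h5 := Polynomial.aeval_algebraMap_apply Ω c P
      exact h5.symm
    rw [h4] at h2 h3
    have h5 := hP2 h2
    rw [h3] at h5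
    exact lt_irrefl _ h5
  refine ⟨F02_ring h M, inferInstance, inferInstance, hdvr, inferInstance, inferInstance,
    inferInstance, ⟨π, hπR⟩, ?_, ?_, ?_, ?_, ?_, ?_, ?_⟩
  · refine ⟨hirr, Subtype.val_injective, fun c => ((F02_mem h M).mp c.2).2, hπ1, h.rpos, ?_,
      h.rank⟩
    have hfs3 : FaithfulSMul Λ Ω := (faithfulSMul_iff_algebraMap_injective _ _).mpr h.inj
    obtain ⟨s, hs⟩ := exists_isTranscendenceBasis Λ Ω
    have hs' := (Algebra.IsAlgebraic.isTranscendenceBasis_iff Λ (S := F02_ring h M)).mp hs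
    rw [← hs'.cardinalMk_eq_trdeg, hs.cardinalMk_eq_trdeg]
    exact h.trdeg
  · exact Algebra.IsAlgebraic.perfectField (kk Λ)
  · exact charP_of_injective_algebraMap (algebraMap (kk Λ) (kk (F02_ring h M))).injective p
  · intro x hx
    obtain ⟨P, hP1, hP2⟩ := hra x hx
    refine ⟨P.map (algebraMap Λ (F02_ring h M)), hP1.map _, ?_⟩
    rw [aeval_map_algebraMap]
    exact hP2
  · intro c
    exact hMK ((F02_mem h M).mp c.2).1
  · intro x hx hx1 hx2
    exact ⟨⟨x, hM x hx hx1, hx2⟩, rfl⟩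
  · refine ⟨H, fun x hx => ⟨⟨x, hH1 x hx⟩, rfl⟩, fun c => ?_⟩
    exact hH2 _ ((F02_mem h M).mp c.2).1 ((F02_mem h M).mp c.2).2

end Pool.Agent.LUM
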