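import Pool.Agent.Lib.LUM.A02
import Pool.Agent.Lib.LUM.A05
import Pool.Agent.Lib.LUM.F02
import Pool.Agent.Lib.LUM.Q01

/-! # A06: local uniformization of a field with an adapted frame

Port of `exists_QN` (`LU1_h15/QProp.lean`).  `A' = Λ[A]`, `H` from `exists_H`, `M₀` from `QOk.init`
(for `A'`, `B`, `H`).  The elements of `M₀ ∪ A ∪ T` are made monomial with `Cls.ML` in the class
`adCls h L`: the frame `Bs`.  All generators of the trace of `Bs` are quotients with monomial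
denominators, and the weak frame `N` of `exists_WN` inherits this. -/

set_option autoImplicit false
set_option linter.unusedSectionVars false
set_option linter.unusedVariables false

open Polynomial

namespace Pool.Agent.LUM

open Pool.Agent.H15JM (RVal)
open Pool.Agent.LU1 (VPos LatData val_add_vpos adj GoodBasis)

universe u

variable {Λ Λ' Q Ω : Type u} [CommRing Λ] [IsDomain Λ] [IsDiscreteValuationRing Λ]
  [CommRing Λ'] [IsDomain Λ'] [IsDiscreteValuationRing Λ'] [Algebra Λ Λ'] [Field Q]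
  [Algebra Λ Q] [IsFractionRing Λ Q] [Field Ω] [Algebra Λ Ω] [Algebra Λ' Ω]
  [IsScalarTower Λ Λ' Ω] [Algebra Q Ω] [IsScalarTower Λ Q Ω]
  {ϖ : Λ} {ϖ' : Λ'} {v : RVal Ω} {r : ℕ}

namespace A6

theorem goodBasis_mono {Γ : AddSubgroup ℝ} {S S' : Set ℝ} {u : Fin r → ℝ} (hS : S ⊆ S')
    (h : GoodBasis Γ S' u) : GoodBasis Γ S u :=
  ⟨h.mem, h.pos, h.ind, h.gen, fun γ hγ => h.cone γ (hS hγ)⟩

/-- `χ` of an integral combination. -/
theorem chi_sum (B : BF ϖ' v) (u : Fin r → ℝ) (hu : ∀ i, u i ∈ B.Γ) (n : Fin r → ℤ)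
    (s : Finset (Fin r)) :
    (∑ i ∈ s, (n i : ℝ) * u i) ∈ B.Γ ∧
      B.χ (∑ i ∈ s, (n i : ℝ) * u i) = ∏ i ∈ s, B.χ (u i) ^ n i := by
  classical
  induction s using Finset.induction_on with
  | empty =>
    rw [Finset.sum_empty, Finset.prod_empty]
    exact ⟨B.Γ.zero_mem, B.χ_zero⟩
  | insert i s hi ih =>
    have h1 : (n i : ℝ) * u i ∈ B.Γ := by
      rw [← zsmul_eq_mul]
      exact B.Γ.zsmul_mem (hu i) _
    rw [Finset.sum_insert hi, Finset.prod_insert hi]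
    exact ⟨B.Γ.add_mem h1 ih.1, by rw [B.χ_add _ h1 _ ih.1, ih.2, B.χ_zsmul (hu i)]⟩

end A6

/-- Monomials of the big frame are monomials of the weak noetherian frame. -/
theorem WN.monoPos_of {B : BF ϖ' v} {N : WN Λ v r} (u : Fin r → ℝ) {S : Set ℝ}
    (hu : GoodBasis B.Γ S u) (hx : ∀ i, N.x i = B.χ (u i)) {f : Ω} (hf : B.Mono f)
    (hS : v f ≠ 0 → |v f| ∈ S) (h1 : f / B.χ (v f) ∈ N.R) (h2 : (f / B.χ (v f))⁻¹ ∈ N.R) :
    N.MonoPos f := by
  obtain ⟨h0, hΓ, hU⟩ := hf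
  have hfe : f = B.χ (v f) * (f / B.χ (v f)) := by rw [mul_div_cancel₀ _ (B.χ_ne _ hΓ)]
  rcases lt_trichotomy (v f) 0 with hv | hv | hv
  · obtain ⟨n, hn, hn'⟩ := hu.cone _ (hS hv.ne)
    rw [abs_of_neg hv] at hn'
    have h3 : v f = ∑ i, ((-(n i : ℤ) : ℤ) : ℝ) * u i := by
      have h4 : v f = -∑ i, (n i : ℝ) * u i := by rw [← hn']; ring
      rw [h4, ← Finset.sum_neg_distrib]
      refine Finset.sum_congr rfl fun i _ => ?_
      push_cast
      ring
    refine ⟨fun i => -(n i : ℤ), f / B.χ (v f), hU.2.1, h1, h2, ?_, fun h => absurd h hv.not_gt,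
      fun _ i => ?_, fun h => absurd h hv.ne⟩
    · conv_lhs => rw [hfe]
      congr 1
      have h4 := (A6.chi_sum B u hu.mem (fun i => -(n i : ℤ)) Finset.univ).2
      rw [← h3] at h4
      rw [h4]
      exact Finset.prod_congr rfl fun i _ => by rw [hx]
    · have := hn i
      change -(n i : ℤ) < 0
      omega
  · refine ⟨fun _ => 0, f / B.χ (v f), hU.2.1, h1, h2, ?_, fun h => absurd h (by rw [hv]; simp),
      fun h => absurd h (by rw [hv]; simp), fun _ _ => rfl⟩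
    rw [hv, B.χ_zero, div_one]
    simp
  · obtain ⟨n, hn, hn'⟩ := hu.cone _ (hS hv.ne')
    rw [abs_of_pos hv] at hn'
    have h3 : v f = ∑ i, (((n i : ℤ) : ℤ) : ℝ) * u i := by
      rw [hn']
      exact Finset.sum_congr rfl fun i _ => by push_cast; rfl
    refine ⟨fun i => (n i : ℤ), f / B.χ (v f), hU.2.1, h1, h2, ?_, fun _ i => ?_,
      fun h => absurd h hv.not_gt, fun h => absurd h hv.ne'⟩
    · conv_lhs => rw [hfe]
      congr 1
      have h4 := (A6.chi_sum B u hu.mem (fun i => (n i : ℤ)) Finset.univ).2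
      rw [← h3] at h4
      rw [h4]
      exact Finset.prod_congr rfl fun i _ => by rw [hx]
    · have := hn i
      change 0 < (n i : ℤ)
      omega

theorem LUF.of_adap (p : ℕ) (hp : p.Prime) [CharP (kk Λ') p] (h : Clo ϖ ϖ' v r)
    [IsAlgClosed Ω] [PerfectField (kk Λ)] [CharZero Q] (L : IntermediateField Q Ω)
    (hfg : L.FG) (hU : Unr Λ v L) (B : BF ϖ' v) (hB : Adap B L)
    (hF : FracIs B.R (hull Λ v L)) : LUF Λ v r (L : Set Ω) := by
  classical
  intro A hA hQ T hT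
  have hLh : L ≤ hull Λ v L := le_sup_left
  obtain ⟨H, hH, hH'⟩ := exists_H h.c0 L hfg
  obtain ⟨M₀, hM₀, hinit⟩ := QOk.init h _ L hQ B hB H (fun x hx => (hH x hx).1)
  have hAv : ∀ f ∈ Algebra.adjoin Λ (A : Set Ω), v.Ge 0 f :=
    adjoin_nonneg h.c0 fun a ha => (hA a ha).2
  -- monomialisation
  obtain ⟨Bs, hreach, hBs, hmono⟩ := (adCls h L).ML p hp h.c1.toCtx0 B hB (hull Λ v L) hF
    (M₀ ∪ (A.erase 0) ∪ T) (by
      intro f hf
      rcases Finset.mem_union.1 hf with hf | hf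
      · rcases Finset.mem_union.1 hf with hf | hf
        · exact ⟨hLh (hQ.1 f (hM₀ f hf).1), (hM₀ f hf).2⟩
        · exact ⟨hLh (hA f (Finset.mem_of_mem_erase hf)).1, Finset.ne_of_mem_erase hf⟩
      · exact ⟨hLh (hT f hf).1, (hT f hf).2⟩)
  change Adap Bs L at hBs
  obtain ⟨hQ0, hHQ⟩ := hinit Bs (fun m hm =>
    hmono m (Finset.mem_union_left _ (Finset.mem_union_left _ hm)))
  have hHhen : ∀ x ∈ H, x ∈ henU Λ v := fun x hx => hU x (hH x hx).1 (hH x hx).2.2 (hH x hx).2.1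
  have hHR : ∀ x ∈ H, x ∈ Bs.R := fun x hx => BF.henU_le h Bs (hHhen x hx)
  have hUQ : inU Λ v L ≤ Bs.QB (Algebra.adjoin Λ (A : Set Ω)) := by
    intro x hx
    have hx1 : x ∈ henU Λ v := hx.1
    have hx2 : x ∈ L := hx.2
    have hx3 : IsAlgebraic Q x := by
      have h1 := henU_alg (Λ := Λ) (v := v) x hx1
      exact h1.extendScalars (IsFractionRing.injective Λ Q)
    have hx4 : v.Ge 0 x := (henU_dvl h.c0).nonneg x hx1
    have h1 : locv v (Algebra.adjoin Λ (H : Set Ω)) ≤ Bs.QB (Algebra.adjoin Λ (A : Set Ω)) := by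
      refine BF.QB_locv ?_ ?_
      · rw [Algebra.adjoin_le_iff]
        exact fun z hz => hHQ z hz
      · have h2 : Algebra.adjoin Λ (H : Set Ω) ≤ Bs.R.restrictScalars Λ := by
          rw [Algebra.adjoin_le_iff]
          exact fun z hz => hHR z hz
        exact fun f hf => h2 hf
    exact h1 (hH' x hx2 hx3 hx4)
  obtain ⟨hQs, -⟩ := QOk.reach h hQ0 hB hreach hUQ
  obtain ⟨F, hF1, hF2⟩ := hQs.fgen
  have hFR : ∀ f ∈ F, f ∈ Bs.R := by
    intro f hf
    rw [hF2]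
    exact le_locv _ (Algebra.subset_adjoin (Or.inl hf))
  set Fp : Finset Ω := F ∪ H with hFp
  have htr := BF.tr_fgen h Bs hBs hU F H (fun f hf => (hF1 f hf).1) hF2 hH hH'
  have hFpQ : ∀ f ∈ Fp, f ∈ Bs.QB (Algebra.adjoin Λ (A : Set Ω)) := by
    intro f hf
    rcases Finset.mem_union.1 hf with hf | hf
    · exact (hF1 f hf).2
    · exact hHQ f hf
  have hFptr : ∀ f ∈ Fp, f ∈ Bs.tr Λ L := by
    intro f hf
    rcases Finset.mem_union.1 hf with hf | hf
    · exact BF.mem_tr.2 ⟨hFR f hf, (hF1 f hf).1⟩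
    · exact BF.mem_tr.2 ⟨hHR f hf, (hH f hf).1⟩
  have htr' : Bs.tr Λ L = locv v (Algebra.adjoin Λ ((Fp : Set Ω) ∪
      Bs.χ '' {γ | γ ∈ Bs.Γ ∧ 0 ≤ γ})) := by
    rw [htr, hFp, Finset.coe_union]
  -- the denominators
  obtain ⟨Sg, hSg⟩ := Bs.fg
  have hSgΓ : ∀ γ ∈ Sg, γ ∈ Bs.Γ := by
    intro γ hγ
    rw [← hSg]
    exact AddSubgroup.subset_closure hγ
  set Z : Finset Ω := Fp ∪ (Sg.image Bs.χ ∪ Sg.image fun γ => Bs.χ (-γ)) with hZ
  have hZQ : ∀ f ∈ Z, f ∈ Bs.QB (Algebra.adjoin Λ (A : Set Ω)) := by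
    intro f hf
    rcases Finset.mem_union.1 hf with hf | hf
    · exact hFpQ f hf
    · rcases Finset.mem_union.1 hf with hf | hf
      · obtain ⟨γ, hγ, rfl⟩ := Finset.mem_image.1 hf
        exact hQs.χ γ (hSgΓ γ hγ)
      · obtain ⟨γ, hγ, rfl⟩ := Finset.mem_image.1 hf
        exact hQs.χ (-γ) (Bs.Γ.neg_mem (hSgΓ γ hγ))
  have hden : ∀ f : Ω, ∃ nu de : Ω, f ∈ Z → (nu ∈ Algebra.adjoin Λ (A : Set Ω) ∧
      de ∈ Algebra.adjoin Λ (A : Set Ω) ∧ Bs.Mono de ∧ f = nu / de) := by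
    intro f
    by_cases hf : f ∈ Z
    · obtain ⟨a, ha, b, hb, hb1, hb2⟩ := hZQ f hf
      exact ⟨a, b, fun _ => ⟨ha, hb, hb1, hb2⟩⟩
    · exact ⟨0, 0, fun h => absurd h hf⟩
  choose nu de hnd using hden
  set M : Finset Ω := Z.image de with hM
  have hMA : ∀ m ∈ M, m ∈ Algebra.adjoin Λ (A : Set Ω) ∧ Bs.Mono m := by
    intro m hm
    obtain ⟨f, hf, rfl⟩ := Finset.mem_image.1 hm
    exact ⟨(hnd f hf).2.1, (hnd f hf).2.2.1⟩
  have hMT : ∀ f ∈ M ∪ T, Bs.Mono f := by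
    intro f hf
    rcases Finset.mem_union.1 hf with hf | hf
    · exact (hMA f hf).2
    · exact hmono f (Finset.mem_union_right _ hf)
  have hMTL : ∀ f ∈ M ∪ T, f ∈ L := by
    intro f hf
    rcases Finset.mem_union.1 hf with hf | hf
    · exact hQ.1 f (hMA f hf).1
    · exact (hT f hf).1
  -- the units
  set uu : Ω → Ω := fun f => f / Bs.χ (v f) with huu
  have huuL : ∀ f ∈ M ∪ T, uu f ∈ L := by
    intro f hf
    exact L.div_mem (hMTL f hf) (hBs.χ _ (hMT f hf).2.1)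
  have hAtr : ∀ a ∈ A, a ∈ Bs.tr Λ L := by
    intro a ha
    refine BF.mem_tr.2 ⟨?_, (hA a ha).1⟩
    by_cases h0 : a = 0
    · rw [h0]
      exact Bs.R.zero_mem
    · exact (hmono a (Finset.mem_union_left _ (Finset.mem_union_right _
        (Finset.mem_erase.2 ⟨h0, ha⟩)))).mem ((hA a ha).2 h0)
  set T1 : Finset Ω := A ∪ ((M ∪ T).image uu ∪ (M ∪ T).image fun f => (uu f)⁻¹) with hT1
  have hT1R : ∀ f ∈ T1, f ∈ Bs.tr Λ L := by
    intro f hf
    rcases Finset.mem_union.1 hf with hf | hf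
    · exact hAtr f hf
    · rcases Finset.mem_union.1 hf with hf | hf
      · obtain ⟨w, hw, rfl⟩ := Finset.mem_image.1 hf
        exact BF.mem_tr.2 ⟨(hMT w hw).2.2.1, huuL w hw⟩
      · obtain ⟨w, hw, rfl⟩ := Finset.mem_image.1 hf
        exact BF.mem_tr.2 ⟨((hMT w hw).2.2.inv).1, L.inv_mem (huuL w hw)⟩
  obtain ⟨S0, hS0, hN⟩ := exists_WN h Bs hBs hU Fp hFptr htr' T1 hT1R
  set S2 : Finset ℝ := ((M ∪ T).image fun f => |v f|).filter fun γ => 0 < γ with hS2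
  obtain ⟨u, hu⟩ := Bs.exists_basis h.c1.toCtx0 (S0 ∪ S2) (by
    intro γ hγ
    rcases Finset.mem_union.1 hγ with hγ | hγ
    · exact hS0 γ hγ
    · obtain ⟨h1, h2⟩ := Finset.mem_filter.1 hγ
      obtain ⟨f, hf, rfl⟩ := Finset.mem_image.1 h1
      refine ⟨?_, h2⟩
      rcases abs_choice (v f) with h3 | h3
      · rw [h3]
        exact (hMT f hf).2.1
      · rw [h3]
        exact Bs.Γ.neg_mem (hMT f hf).2.1)
  obtain ⟨N, hNx, hNy, hNR, hNle, hNT, hNK⟩ := hN u (A6.goodBasis_mono (by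
    intro γ hγ
    exact Finset.mem_coe.2 (Finset.mem_union_left _ hγ)) hu)
  have hMTpos : ∀ f ∈ M ∪ T, N.MonoPos f := by
    intro f hf
    refine WN.monoPos_of u hu hNx (hMT f hf) (fun h0 => ?_) ?_ ?_
    · refine Finset.mem_coe.2 (Finset.mem_union_right _ (Finset.mem_filter.2
        ⟨Finset.mem_image_of_mem _ hf, abs_pos.2 h0⟩))
    · exact hNT _ (Finset.mem_union_right _ (Finset.mem_union_left _
        (Finset.mem_image_of_mem uu hf)))
    · exact hNT _ (Finset.mem_union_right _ (Finset.mem_union_right _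
        (Finset.mem_image_of_mem (fun f => (uu f)⁻¹) hf)))
  -- the quotients
  have hZM : ∀ f ∈ Z, f ∈ N.QM (Algebra.adjoin Λ (A : Set Ω)) hAv := by
    intro f hf
    exact ⟨nu f, (hnd f hf).1, de f, (hnd f hf).2.1,
      hMTpos _ (Finset.mem_union_left _ (Finset.mem_image_of_mem de hf)), (hnd f hf).2.2.2⟩
  have hχM : ∀ γ ∈ Bs.Γ, Bs.χ γ ∈ N.QM (Algebra.adjoin Λ (A : Set Ω)) hAv ∧
      Bs.χ (-γ) ∈ N.QM (Algebra.adjoin Λ (A : Set Ω)) hAv := by
    have key : ∀ γ ∈ AddSubgroup.closure (Sg : Set ℝ), γ ∈ Bs.Γ ∧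
        Bs.χ γ ∈ N.QM (Algebra.adjoin Λ (A : Set Ω)) hAv ∧
        Bs.χ (-γ) ∈ N.QM (Algebra.adjoin Λ (A : Set Ω)) hAv := by
      intro γ hγ
      induction hγ using AddSubgroup.closure_induction with
      | mem γ hγ =>
        exact ⟨hSgΓ γ hγ, hZM _ (Finset.mem_union_right _ (Finset.mem_union_left _
          (Finset.mem_image_of_mem Bs.χ hγ))), hZM _ (Finset.mem_union_right _
          (Finset.mem_union_right _ (Finset.mem_image_of_mem (fun γ => Bs.χ (-γ)) hγ)))⟩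
      | zero =>
        refine ⟨Bs.Γ.zero_mem, ?_, ?_⟩
        · rw [Bs.χ_zero]; exact Subalgebra.one_mem _
        · rw [neg_zero, Bs.χ_zero]; exact Subalgebra.one_mem _
      | add γ δ _ _ h1 h2 =>
        refine ⟨Bs.Γ.add_mem h1.1 h2.1, ?_, ?_⟩
        · rw [Bs.χ_add _ h1.1 _ h2.1]
          exact Subalgebra.mul_mem _ h1.2.1 h2.2.1
        · rw [neg_add, Bs.χ_add _ (Bs.Γ.neg_mem h1.1) _ (Bs.Γ.neg_mem h2.1)]
          exact Subalgebra.mul_mem _ h1.2.2 h2.2.2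
      | neg γ _ h1 =>
        refine ⟨Bs.Γ.neg_mem h1.1, h1.2.2, ?_⟩
        rw [neg_neg]
        exact h1.2.1
    intro γ hγ
    rw [← hSg] at hγ
    exact (key γ hγ).2
  set X : Finset Ω := Finset.univ.image N.x with hX
  have hXc : (X : Set Ω) = Set.range N.x := by
    rw [hX, Finset.coe_image, Finset.coe_univ, Set.image_univ]
  have hFX : ((Fp ∪ X : Finset Ω) : Set Ω) = (Fp : Set Ω) ∪ Set.range N.x := by
    rw [← hXc]
    exact Finset.coe_union Fp X
  obtain ⟨g, hg, hg0, hgm, G, hG, hGR⟩ := N.chart_of A hAv (fun a ha =>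
    hNT a (Finset.mem_union_left _ ha)) (Fp ∪ X) (by rw [hNR, hFX]) (by
      intro f hf
      rcases Finset.mem_union.1 hf with hf | hf
      · exact hZM f (Finset.mem_union_left _ hf)
      · obtain ⟨i, -, rfl⟩ := Finset.mem_image.1 hf
        rw [hNx]
        exact (hχM _ (hu.mem i)).1)
  exact ⟨N, hNK, fun f hf => (BF.mem_tr.1 (hNle hf)).2, g, hg, hg0, hgm, G, hG, hGR,
    fun t ht => hMTpos t (Finset.mem_union_right _ ht)⟩

end Pool.Agent.LUM
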