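import Pool.Agent.Lib.LUM.Basic

/-! # Roots of unity in the field of fractions of `Λ` -/

set_option autoImplicit false
set_option linter.unusedSectionVars false

open Polynomial

namespace Pool.Agent.LUM

open Pool.Agent.H15JM (RVal)
open Pool.Agent.LU1 (VPos LatData)

universe u

variable {Λ F Ω : Type u} [CommRing Λ] [IsDomain Λ] [IsDiscreteValuationRing Λ] [Field F]
  [Field Ω] [Algebra Λ Ω] [Algebra Λ F] [IsFractionRing Λ F] [Algebra F Ω]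
  [IsScalarTower Λ F Ω] {ϖ : Λ} {v : RVal Ω} {r : ℕ} {ℓ : ℕ}

/-- Roots of unity are in `Λ`. -/
theorem rt_exists (Λ : Type u) [CommRing Λ] [IsDomain Λ] [IsDiscreteValuationRing Λ]
    [Algebra Λ F] [IsFractionRing Λ F] (hℓ : ℓ ≠ 0) {ζ : F} (hζ : ζ ^ ℓ = 1) :
    ∃ c : Λ, algebraMap Λ F c = ζ := by
  have h1 : IsIntegral Λ ζ := by
    refine ⟨X ^ ℓ - C 1, monic_X_pow_sub_C 1 hℓ, ?_⟩
    simp [hζ]
  exact IsIntegrallyClosed.isIntegral_iff.1 h1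

theorem rt_mem (hℓ : ℓ ≠ 0) {ζ : F} (hζ : ζ ^ ℓ = 1) (R : Subalgebra Λ Ω) :
    algebraMap F Ω ζ ∈ R := by
  obtain ⟨c, rfl⟩ := rt_exists Λ hℓ hζ
  rw [← IsScalarTower.algebraMap_apply]
  exact R.algebraMap_mem c

theorem inv_nat_mem (hu : IsUnit (ℓ : Λ)) (R : Subalgebra Λ Ω) :
    algebraMap F Ω (ℓ : F)⁻¹ ∈ R := by
  obtain ⟨d, hd⟩ := hu.exists_right_inv
  have h1 : (ℓ : F)⁻¹ = algebraMap Λ F d := by
    have h2 := congrArg (algebraMap Λ F) hd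
    rw [map_mul, map_natCast, map_one] at h2
    exact (eq_inv_of_mul_eq_one_right h2).symm
  rw [h1, ← IsScalarTower.algebraMap_apply]
  exact R.algebraMap_mem d

theorem rt_inv {ζ : F} (hζ : ζ ^ ℓ = 1) : ζ⁻¹ ^ ℓ = 1 := by rw [inv_pow, hζ, inv_one]

theorem rt_pow {ζ : F} (hζ : ζ ^ ℓ = 1) (i : ℕ) : (ζ ^ i) ^ ℓ = 1 := by
  rw [← pow_mul, mul_comm, pow_mul, hζ, one_pow]

theorem rt_ne (hℓ : ℓ ≠ 0) {ζ : F} (hζ : ζ ^ ℓ = 1) : ζ ≠ 0 := by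
  rintro rfl
  rw [zero_pow hℓ] at hζ
  exact zero_ne_one hζ

/-- Roots of unity have value zero. -/
theorem rt_val (hℓ : ℓ ≠ 0) {ζ : F} (hζ : ζ ^ ℓ = 1) :
    algebraMap F Ω ζ ≠ 0 ∧ v (algebraMap F Ω ζ) = 0 := by
  have h0 : algebraMap F Ω ζ ≠ 0 := (_root_.map_ne_zero _).2 (rt_ne hℓ hζ)
  refine ⟨h0, ?_⟩
  have h1 := v.map_pow h0 ℓ
  rw [← map_pow, hζ, map_one, v.map_one] at h1
  exact (mul_eq_zero.1 h1.symm).resolve_left (by exact_mod_cast hℓ)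

theorem rt_ge (hℓ : ℓ ≠ 0) {ζ : F} (hζ : ζ ^ ℓ = 1) : v.Ge 0 (algebraMap F Ω ζ) := fun _ =>
  (rt_val hℓ hζ).2.ge

theorem nat_val (h : Ctx0 ϖ v r) (hu : IsUnit (ℓ : Λ)) :
    ((ℓ : ℕ) : Ω) ≠ 0 ∧ v ((ℓ : ℕ) : Ω) = 0 := by
  have h1 := h.triv hu
  rwa [map_natCast] at h1

theorem nat_ne (h : Ctx0 ϖ v r) (hu : IsUnit (ℓ : Λ)) : (ℓ : F) ≠ 0 := by
  intro h0
  apply (nat_val h hu).1
  have := congrArg (algebraMap F Ω) h0
  rwa [map_natCast, map_zero] at this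

theorem inv_nat_ge (h : Ctx0 ϖ v r) (hu : IsUnit (ℓ : Λ)) :
    v.Ge 0 (algebraMap F Ω (ℓ : F)⁻¹) := by
  obtain ⟨h1, h2⟩ := nat_val h hu
  intro _
  rw [map_inv₀, map_natCast, v.map_inv h1, h2, neg_zero]

/-- A root of unity of order prime to the residue characteristic is determined by its residue. -/
theorem rt_eq_one (h : Ctx0 ϖ v r) (hu : IsUnit (ℓ : Λ)) (hℓ : ℓ ≠ 0) {ζ : F}
    (hζ : ζ ^ ℓ = 1) (hv : VPos v (algebraMap F Ω (ζ - 1))) : ζ = 1 := by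
  by_contra hne
  have h1 : ∑ i ∈ Finset.range ℓ, ζ ^ i = 0 := by
    have h2 := geom_sum_mul ζ ℓ
    rw [hζ, sub_self] at h2
    exact (mul_eq_zero.1 h2).resolve_right (sub_ne_zero.2 hne)
  have h3 : (ℓ : F) = ∑ i ∈ Finset.range ℓ, (1 - ζ ^ i) := by
    rw [Finset.sum_sub_distrib, h1, sub_zero, Finset.sum_const, Finset.card_range,
      nsmul_eq_mul, mul_one]
  have h4 : VPos v (algebraMap F Ω (ℓ : F)) := by
    rw [h3, map_sum]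
    refine Finset.sum_induction _ (VPos v) (fun a b ha hb => ha.add hb) VPos.zero ?_
    intro i _
    have h5 : (1 : F) - ζ ^ i = (ζ - 1) * (-∑ j ∈ Finset.range i, ζ ^ j) := by
      have h6 := geom_sum_mul ζ i
      linear_combination h6
    rw [h5, map_mul]
    refine hv.mul ?_
    rw [map_neg, map_sum]
    exact (RVal.Ge.sum _ _ fun j _ => rt_ge hℓ (rt_pow hζ j)).neg
  rw [map_natCast] at h4
  obtain ⟨h7, h8⟩ := nat_val h hu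
  have := h4 h7
  rw [h8] at this
  exact lt_irrefl _ this

/-- The difference of two roots of unity has value zero. -/
theorem one_sub_rt (h : Ctx0 ϖ v r) (hu : IsUnit (ℓ : Λ)) (hℓ : ℓ ≠ 0) {ζ : F}
    (hζ : ζ ^ ℓ = 1) (hne : ζ ≠ 1) :
    algebraMap F Ω (1 - ζ) ≠ 0 ∧ v (algebraMap F Ω (1 - ζ)) = 0 := by
  have h0 : algebraMap F Ω (1 - ζ) ≠ 0 := (_root_.map_ne_zero _).2 (sub_ne_zero.2 (Ne.symm hne))
  refine ⟨h0, ?_⟩
  have hge : v.Ge 0 (algebraMap F Ω (1 - ζ)) := by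
    rw [map_sub, map_one]
    exact RVal.Ge.sub (fun _ => v.map_one.ge) (rt_ge hℓ hζ)
  refine le_antisymm ?_ (hge h0)
  by_contra hlt
  rw [not_le] at hlt
  apply hne
  refine rt_eq_one h hu hℓ hζ fun _ => ?_
  have h1 : algebraMap F Ω (ζ - 1) = -algebraMap F Ω (1 - ζ) := by
    rw [map_sub, map_sub, map_one]; ring
  rw [h1, v.map_neg _ h0]
  exact hlt

/-- An element of value zero whose `ℓ`-th power has residue one has the residue of a root of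
unity. -/
theorem exists_rt {ζ₀ : F} (hζ₀ : IsPrimitiveRoot ζ₀ ℓ) (hℓ : 0 < ℓ) {z : Ω} (hz : v.Ge 0 z)
    (h1 : VPos v (z ^ ℓ - 1)) : ∃ ζ : F, ζ ^ ℓ = 1 ∧ VPos v (z - algebraMap F Ω ζ) := by
  by_contra hno
  push Not at hno
  have hinj : Function.Injective (algebraMap F Ω) := (algebraMap F Ω).injective
  have hζ' : IsPrimitiveRoot (algebraMap F Ω ζ₀) ℓ := hζ₀.map_of_injective hinj
  have h2 := hζ'.pow_sub_pow_eq_prod_sub_mul z 1 hℓ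
  have hrt : ∀ ζ ∈ nthRootsFinset ℓ (1 : Ω), ∃ ξ : F, ξ ^ ℓ = 1 ∧ algebraMap F Ω ξ = ζ := by
    intro ζ hζ
    rw [mem_nthRootsFinset hℓ] at hζ
    have : NeZero ℓ := ⟨hℓ.ne'⟩
    obtain ⟨i, -, rfl⟩ := hζ'.eq_pow_of_pow_eq_one hζ
    exact ⟨ζ₀ ^ i, rt_pow hζ₀.pow_eq_one i, map_pow _ _ _⟩
  have h3 : ∀ ζ ∈ nthRootsFinset ℓ (1 : Ω), z - ζ * 1 ≠ 0 ∧ v (z - ζ * 1) = 0 := by
    intro ζ hζ
    obtain ⟨ξ, hξ, rfl⟩ := hrt ζ hζ
    have h4 := hno ξ hξ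
    unfold VPos at h4
    push Not at h4
    rw [mul_one]
    refine ⟨h4.1, le_antisymm h4.2 ?_⟩
    exact (hz.sub (rt_ge hℓ.ne' hξ)) h4.1
  rw [one_pow] at h2
  have h5 : z ^ ℓ - 1 ≠ 0 := by
    rw [h2]
    exact Finset.prod_ne_zero_iff.2 fun ζ hζ => (h3 ζ hζ).1
  have h6 := h1 h5
  rw [h2, v.map_prod _ _ fun ζ hζ => (h3 ζ hζ).1,
    Finset.sum_eq_zero fun ζ hζ => (h3 ζ hζ).2] at h6
  exact lt_irrefl _ h6

end Pool.Agent.LUM
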