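import Pool.Agent.Lib.LU1_h15.Base_G0
import Pool.Agent.Lib.LU1_h15.Base_G0s
import Pool.Agent.Lib.LUM.TameDefs

/-! # G0: the base field `Q(x, y)` is good -/

set_option autoImplicit false
set_option linter.unusedSectionVars false

open Polynomial

namespace Pool.Agent.LUM

open Pool.Agent.H15JM (RVal)
open Pool.Agent.LU1 (VPos)
open Pool.Agent.LU1.BaseG0 (ph ph_apply mo mo_ne mo_add v_mo ph_inj ph_single mo_single ch ch_ph
  ch_ne ch_val ch_add)

universe u

variable {Λ Ω : Type u} [CommRing Λ] [IsDomain Λ] [IsDiscreteValuationRing Λ] [Field Ω]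
  [Algebra Λ Ω] {ϖ : Λ} {v : RVal Ω} {r : ℕ}

namespace BaseG0

/-- Values are rational combinations of the values of the `x i`. -/
theorem full (h : Ctx0 ϖ v r) {x : Fin r → Ω} (hx : ∀ i, x i ≠ 0)
    (hind : LinearIndependent ℚ fun i => v (x i)) (g : Ω) (hg : g ≠ 0) :
    ∃ m : ℕ, 0 < m ∧ (m : ℝ) * v g ∈ (ph v x).range := by
  classical
  obtain ⟨X, hX0, hXi, hX⟩ := h.rank
  have hle : Submodule.span ℚ (Set.range fun i => v (x i)) ≤
      Submodule.span ℚ (Set.range fun i => v (X i)) := by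
    rw [Submodule.span_le]
    rintro _ ⟨i, rfl⟩
    exact hX (x i) (hx i)
  have hfin : FiniteDimensional ℚ (Submodule.span ℚ (Set.range fun i => v (X i))) :=
    FiniteDimensional.span_of_finite ℚ (Set.finite_range _)
  have heq := Submodule.eq_of_le_of_finrank_eq hle (by
    rw [finrank_span_eq_card hind, finrank_span_eq_card hXi])
  have hmem : v g ∈ Submodule.span ℚ (Set.range fun i => v (x i)) := by
    rw [heq]
    exact hX g hg
  obtain ⟨c, hc⟩ := (Submodule.mem_span_range_iff_exists_fun ℚ).1 hmem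
  refine ⟨∏ i, (c i).den, Finset.prod_pos fun i _ => (c i).pos, ?_⟩
  refine ⟨fun i => (c i).num * ∏ j ∈ Finset.univ.erase i, ((c j).den : ℤ), ?_⟩
  rw [ph_apply, ← hc, Finset.mul_sum]
  refine Finset.sum_congr rfl fun i _ => ?_
  rw [Rat.smul_def, ← Finset.mul_prod_erase _ _ (Finset.mem_univ i), ← mul_assoc]
  congr 1
  have h1 : ((c i).num : ℝ) = (c i : ℝ) * (c i).den := by
    exact_mod_cast (Rat.mul_den_eq_num (c i)).symm
  push_cast
  rw [h1]
  ring

/-- The monomials. -/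
noncomputable def S0 (Λ : Type u) {Ω : Type u} [CommRing Λ] [Field Ω] [Algebra Λ Ω] {r : ℕ}
    (v : RVal Ω) (x : Fin r → Ω) : Subalgebra Λ Ω :=
  Algebra.adjoin Λ (ch v x '' {γ | γ ∈ (ph v x).range ∧ 0 ≤ γ})

/-- The polynomial ring. -/
noncomputable def SS (Λ : Type u) {Ω : Type u} [CommRing Λ] [Field Ω] [Algebra Λ Ω] {r : ℕ}
    (v : RVal Ω) (x : Fin r → Ω) (y : Ω) : Subalgebra Λ Ω :=
  Algebra.adjoin Λ ({y} ∪ ch v x '' {γ | γ ∈ (ph v x).range ∧ 0 ≤ γ})

variable {x : Fin r → Ω} {y : Ω}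

theorem ch_mem {γ : ℝ} (h1 : γ ∈ (ph v x).range) (h2 : 0 ≤ γ) : ch v x γ ∈ SS Λ v x y :=
  Algebra.subset_adjoin (Or.inr ⟨γ, ⟨h1, h2⟩, rfl⟩)

theorem y_mem : y ∈ SS Λ v x y := Algebra.subset_adjoin (Or.inl rfl)

theorem SS_nonneg (h : Ctx0 ϖ v r) (hx : ∀ i, x i ≠ 0)
    (hind : LinearIndependent ℚ fun i => v (x i)) (hypos : 0 < v y) :
    ∀ f ∈ SS Λ v x y, v.Ge 0 f := by
  refine adjoin_nonneg h ?_
  rintro f (rfl | ⟨γ, ⟨h1, h2⟩, rfl⟩) _
  · exact hypos.le
  · rw [ch_val hx hind h1]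
    exact h2

theorem S0_nonneg (h : Ctx0 ϖ v r) (hx : ∀ i, x i ≠ 0)
    (hind : LinearIndependent ℚ fun i => v (x i)) :
    ∀ f ∈ S0 Λ v x, v.Ge 0 f := by
  refine adjoin_nonneg h ?_
  rintro f ⟨γ, ⟨h1, h2⟩, rfl⟩ _
  rw [ch_val hx hind h1]
  exact h2

/-- The form of the elements of `SS`. -/
theorem SS_form (h : Ctx0 ϖ v r) (hx : ∀ i, x i ≠ 0) (hpos : ∀ i, 0 < v (x i))
    (hind : LinearIndependent ℚ fun i => v (x i)) (f : Ω) (hf : f ∈ SS Λ v x y) :
    ∃ c : Λ, ∃ γ ∈ (ph v x).range, 0 < γ ∧ ∃ a ∈ SS Λ v x y, ∃ b ∈ SS Λ v x y,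
      f = algebraMap Λ Ω c + (ch v x γ * a + y * b) := by
  have h00 : (0 : ℝ) ∈ (ph v x).range := ⟨0, _root_.map_zero _⟩
  have hγ0 : v (x ⟨0, h.rpos⟩) ∈ (ph v x).range := ⟨_, ph_single x _⟩
  have hdvd : ∀ γ ∈ (ph v x).range, ∀ δ ∈ (ph v x).range, δ ≤ γ →
      ∃ a ∈ SS Λ v x y, ch v x γ = ch v x δ * a := by
    intro γ hγ δ hδ hle
    refine ⟨ch v x (γ - δ), ch_mem (sub_mem hγ hδ) (sub_nonneg.2 hle), ?_⟩
    rw [← ch_add hx hind hδ (sub_mem hγ hδ)]
    congr 1
    ring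
  have hsum : ∀ γ ∈ (ph v x).range, ∀ δ ∈ (ph v x).range, 0 < γ → 0 < δ →
      ∀ a ∈ SS Λ v x y, ∀ b ∈ SS Λ v x y, ∃ ε ∈ (ph v x).range, 0 < ε ∧ ∃ c ∈ SS Λ v x y,
      ch v x γ * a + ch v x δ * b = ch v x ε * c := by
    intro γ hγ δ hδ hγp hδp a ha b hb
    rcases le_total γ δ with hle | hle
    · obtain ⟨e, he, h1⟩ := hdvd δ hδ γ hγ hle
      refine ⟨γ, hγ, hγp, a + e * b, add_mem ha (mul_mem he hb), ?_⟩
      rw [h1]
      ring
    · obtain ⟨e, he, h1⟩ := hdvd γ hγ δ hδ hle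
      refine ⟨δ, hδ, hδp, e * a + b, add_mem (mul_mem he ha) hb, ?_⟩
      rw [h1]
      ring
  refine Algebra.adjoin_induction (p := fun f _ => ∃ c : Λ, ∃ γ ∈ (ph v x).range, 0 < γ ∧
    ∃ a ∈ SS Λ v x y, ∃ b ∈ SS Λ v x y,
      f = algebraMap Λ Ω c + (ch v x γ * a + y * b)) ?_ ?_ ?_ ?_ hf
  · rintro g (rfl | ⟨γ, ⟨h1, h2⟩, rfl⟩)
    · refine ⟨0, _, hγ0, hpos _, 0, zero_mem _, 1, one_mem _, ?_⟩
      rw [_root_.map_zero, mul_zero, mul_one, zero_add, zero_add]
    · rcases h2.lt_or_eq with h3 | h3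
      · refine ⟨0, γ, h1, h3, 1, one_mem _, 0, zero_mem _, ?_⟩
        rw [_root_.map_zero, mul_zero, mul_one, zero_add, add_zero]
      · refine ⟨1, _, hγ0, hpos _, 0, zero_mem _, 0, zero_mem _, ?_⟩
        rw [← h3, _root_.map_one, mul_zero, mul_zero, add_zero, add_zero]
        have h4 := ch_add (v := v) hx hind h00 h00
        rw [add_zero] at h4
        exact (mul_right_cancel₀ (ch_ne (v := v) hx) (by rw [one_mul]; exact h4)).symm
  · intro c
    refine ⟨c, _, hγ0, hpos _, 0, zero_mem _, 0, zero_mem _, ?_⟩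
    rw [mul_zero, mul_zero, add_zero, add_zero]
  · rintro f g _ _ ⟨c, γ, hγ, hγp, a, ha, b, hb, rfl⟩ ⟨c', δ, hδ, hδp, a', ha', b', hb', rfl⟩
    obtain ⟨ε, hε, hεp, e, he, h1⟩ := hsum γ hγ δ hδ hγp hδp a ha a' ha'
    refine ⟨c + c', ε, hε, hεp, e, he, b + b', add_mem hb hb', ?_⟩
    rw [← h1, _root_.map_add]
    ring
  · rintro f g _ hg ⟨c, γ, hγ, hγp, a, ha, b, hb, rfl⟩ ⟨c', δ, hδ, hδp, a', ha', b', hb', hgeq⟩
    obtain ⟨ε, hε, hεp, e, he, h1⟩ := hsum γ hγ δ hδ hγp hδp (a * g) (mul_mem ha hg)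
      (algebraMap Λ Ω c * a') (mul_mem (algebraMap_mem _ c) ha')
    refine ⟨c * c', ε, hε, hεp, e, he, b * g + algebraMap Λ Ω c * b',
      add_mem (mul_mem hb hg) (mul_mem (algebraMap_mem _ c) hb'), ?_⟩
    rw [← h1, _root_.map_mul]
    have h2 : (algebraMap Λ Ω c + (ch v x γ * a + y * b)) * g =
        algebraMap Λ Ω c * g + (ch v x γ * a + y * b) * g := by ring
    rw [h2]
    nth_rewrite 1 [hgeq]
    ring

theorem SS_vpos (h : Ctx0 ϖ v r) (hx : ∀ i, x i ≠ 0)
    (hind : LinearIndependent ℚ fun i => v (x i)) (hypos : 0 < v y)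
    {γ : ℝ} (hγ : γ ∈ (ph v x).range) (hγp : 0 < γ) {a b : Ω} (ha : a ∈ SS Λ v x y)
    (hb : b ∈ SS Λ v x y) : VPos v (ch v x γ * a + y * b) := by
  refine VPos.add (VPos.mul ?_ (SS_nonneg h hx hind hypos a ha))
    (VPos.mul (fun _ => hypos) (SS_nonneg h hx hind hypos b hb))
  intro _
  rw [ch_val hx hind hγ]
  exact hγp

theorem ch_x (hind : LinearIndependent ℚ fun i => v (x i)) (i : Fin r) :
    ch v x (v (x i)) = x i := by
  rw [← ph_single (v := v) x i, ch_ph hind, mo_single]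

theorem x_mem (hpos : ∀ i, 0 < v (x i)) (hind : LinearIndependent ℚ fun i => v (x i))
    (i : Fin r) : x i ∈ SS Λ v x y := by
  rw [← ch_x hind i]
  exact ch_mem ⟨_, ph_single x _⟩ (hpos i).le

theorem adjoin_le (hpos : ∀ i, 0 < v (x i)) (hind : LinearIndependent ℚ fun i => v (x i)) :
    Algebra.adjoin Λ (Set.range x ∪ {y}) ≤ SS Λ v x y := by
  refine Algebra.adjoin_le ?_
  rintro f (⟨i, rfl⟩ | rfl)
  · exact x_mem hpos hind i
  · exact y_mem

/-- The elements of `SS` are polynomials in `y`. -/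
theorem SS_poly (f : Ω) (hf : f ∈ SS Λ v x y) :
    ∃ P : Polynomial Ω, (∀ i, P.coeff i ∈ S0 Λ v x) ∧ P.eval y = f := by
  induction hf using Algebra.adjoin_induction with
  | mem f hf =>
    rcases hf with rfl | ⟨γ, hγ, rfl⟩
    · refine ⟨X, fun i => ?_, eval_X⟩
      rw [coeff_X]
      split_ifs
      · exact one_mem _
      · exact zero_mem _
    · refine ⟨C (ch v x γ), fun i => ?_, eval_C⟩
      rw [coeff_C]
      split_ifs
      · exact Algebra.subset_adjoin ⟨γ, hγ, rfl⟩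
      · exact zero_mem _
  | algebraMap c =>
    refine ⟨C (algebraMap Λ Ω c), fun i => ?_, eval_C⟩
    rw [coeff_C]
    split_ifs
    · exact Subalgebra.algebraMap_mem _ c
    · exact zero_mem _
  | add f g _ _ hf hg =>
    obtain ⟨P, hP, rfl⟩ := hf
    obtain ⟨R, hR, rfl⟩ := hg
    exact ⟨P + R, fun i => by rw [coeff_add]; exact add_mem (hP i) (hR i), eval_add⟩
  | mul f g _ _ hf hg =>
    obtain ⟨P, hP, rfl⟩ := hf
    obtain ⟨R, hR, rfl⟩ := hg
    exact ⟨P * R, fun i => by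
      rw [coeff_mul]
      exact sum_mem fun ij _ => mul_mem (hP _) (hR _), eval_mul⟩

end BaseG0

open BaseG0

section

variable {Q : Type u} [Field Q] [Algebra Λ Q] [IsFractionRing Λ Q] [Algebra Q Ω]
  [IsScalarTower Λ Q Ω]

theorem BaseG0.S0_le {x : Fin r → Ω} (E : IntermediateField Q Ω) (hxE : ∀ i, x i ∈ E) :
    ∀ f ∈ S0 Λ v x, f ∈ E := by
  intro f hf
  have h1 : S0 Λ v x ≤ E.toSubalgebra.restrictScalars Λ := by
    refine Algebra.adjoin_le ?_
    rintro f ⟨γ, -, rfl⟩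
    change mo x _ ∈ E
    exact prod_mem fun i _ => zpow_mem (hxE i) _
  exact h1 hf

theorem BaseG0.le_adjoin {x : Fin r → Ω} {y : Ω} (E : IntermediateField Q Ω)
    (hxE : ∀ i, x i ∈ E) (hyE : y ∈ E) : ∀ f ∈ SS Λ v x y, f ∈ E := by
  intro f hf
  have h1 : SS Λ v x y ≤ E.toSubalgebra.restrictScalars Λ := by
    refine Algebra.adjoin_le ?_
    rintro f (rfl | ⟨γ, -, rfl⟩)
    · exact hyE
    · change mo x _ ∈ E
      exact prod_mem fun i _ => zpow_mem (hxE i) _
  exact h1 hf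

/-- `Q(x, y)` is good. -/
theorem good_base (h : Ctx0 ϖ v r) (x : Fin r → Ω) (y : Ω) (hx : ∀ i, x i ≠ 0)
    (hpos : ∀ i, 0 < v (x i)) (hind : LinearIndependent ℚ fun i => v (x i))
    (i₀ : Fin r) (hi₀ : x i₀ = algebraMap Λ Ω ϖ) (hy : y ≠ 0) (hypos : 0 < v y)
    (hytr : Transcendental (IntermediateField.adjoin Q (Set.range x)) y)
    (halg : ∀ g : Ω, IsAlgebraic (IntermediateField.adjoin Q (Set.range x ∪ {y})) g) :
    Good ϖ v (IntermediateField.adjoin Q (Set.range x ∪ {y})) := by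
  have hSn := SS_nonneg h hx hind (y := y) hypos
  have hπ : v (algebraMap Λ Ω ϖ) ∈ (ph v x).range := by
    rw [← hi₀]
    exact ⟨_, ph_single x i₀⟩
  have hchπ : ch v x (v (algebraMap Λ Ω ϖ)) = algebraMap Λ Ω ϖ := by
    rw [← hi₀]
    exact ch_x hind i₀
  have hfr : FracIs (locv v (SS Λ v x y)) (IntermediateField.adjoin Q (Set.range x ∪ {y})) := by
    constructor
    · rintro f ⟨a, ha, b, hb, hb0, hvb, rfl⟩
      have h1 := BaseG0.le_adjoin (Λ := Λ) (v := v) (x := x) (y := y)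
        (IntermediateField.adjoin Q (Set.range x ∪ {y}))
        (fun i => IntermediateField.subset_adjoin _ _ (Or.inl ⟨i, rfl⟩))
        (IntermediateField.subset_adjoin _ _ (Or.inr rfl))
      exact div_mem (h1 a ha) (h1 b hb)
    · intro g hg
      -- quotients of elements of `locv`
      have h2 := (adjoin_le (Λ := Λ) (y := y) hpos hind).trans (le_locv (v := v) _)
      induction hg using IntermediateField.adjoin_induction with
      | mem g hg => exact ⟨g, h2 (Algebra.subset_adjoin hg), 1, one_mem _, one_ne_zero, by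
          rw [div_one]⟩
      | algebraMap c =>
        obtain ⟨a, b, hb, rfl⟩ := IsFractionRing.div_surjective (A := Λ) c
        refine ⟨algebraMap Λ Ω a, Subalgebra.algebraMap_mem _ a, algebraMap Λ Ω b,
          Subalgebra.algebraMap_mem _ b, h.ne (nonZeroDivisors.ne_zero hb), ?_⟩
        rw [map_div₀, ← IsScalarTower.algebraMap_apply, ← IsScalarTower.algebraMap_apply]
      | add f g _ _ hf hg =>
        obtain ⟨a, ha, b, hb, hb0, rfl⟩ := hf
        obtain ⟨c, hc, d, hd, hd0, rfl⟩ := hg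
        exact ⟨a * d + b * c, add_mem (mul_mem ha hd) (mul_mem hb hc), b * d, mul_mem hb hd,
          mul_ne_zero hb0 hd0, div_add_div _ _ hb0 hd0⟩
      | inv f _ hf =>
        obtain ⟨a, ha, b, hb, hb0, rfl⟩ := hf
        by_cases ha0 : a = 0
        · exact ⟨0, zero_mem _, 1, one_mem _, one_ne_zero, by rw [ha0]; simp⟩
        · exact ⟨b, hb, a, ha, ha0, by rw [inv_div]⟩
      | mul f g _ _ hf hg =>
        obtain ⟨a, ha, b, hb, hb0, rfl⟩ := hf
        obtain ⟨c, hc, d, hd, hd0, rfl⟩ := hg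
        exact ⟨a * c, mul_mem ha hc, b * d, mul_mem hb hd,
          mul_ne_zero hb0 hd0, div_mul_div_comm _ _ _ _⟩
  refine ⟨{ Γ := (ph v x).range, fg := ?_, full := full h hx hind, χ := ch v x,
            χ_ne := fun γ _ => ch_ne hx, χ_add := fun γ hγ δ hδ => ch_add hx hind hγ hδ,
            χ_val := fun γ hγ => ch_val hx hind hγ, y := y, y_ne := hy, y_pos := hypos,
            R := locv v (SS Λ v x y), nonneg := locv_nonneg hSn,
            loc := fun f hf h0 h1 => locv_inv hf h0 h1,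
            χ_mem := fun γ hγ h0 => le_locv _ (ch_mem hγ h0), y_mem := le_locv _ y_mem,
            fgen := ⟨{y}, by rw [Finset.coe_singleton]; rfl⟩, gen := ?_, alg := ?_, res := ?_,
            pi_mem := hπ, pi_un := ?_, reg := ?_ }, hfr⟩
  · rw [← AddGroup.fg_iff_addSubgroup_fg]
    infer_instance
  · rintro f ⟨a, ha, b, hb, hb0, hvb, rfl⟩ hfv
    obtain ⟨c, γ, hγ, hγp, a1, ha1, b1, hb1, hfe⟩ := SS_form h hx hpos hind a ha
    have h1 : VPos v a := by
      intro ha0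
      have := hfv (div_ne_zero ha0 hb0)
      rwa [v.map_div ha0 hb0, hvb, sub_zero] at this
    have h2 : VPos v (algebraMap Λ Ω c) := by
      have h3 := h1.sub (SS_vpos h hx hind hypos hγ hγp ha1 hb1)
      rw [hfe, add_sub_cancel_right] at h3
      exact h3
    obtain ⟨c', rfl⟩ := h.pi_dvd.2 h2
    -- combine the two monomials
    have hstep : ∃ ε ∈ (ph v x).range, 0 < ε ∧ ∃ e ∈ SS Λ v x y,
        algebraMap Λ Ω (ϖ * c') + ch v x γ * a1 = ch v x ε * e := by
      have hdvd : ∀ γ ∈ (ph v x).range, ∀ δ ∈ (ph v x).range, δ ≤ γ →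
          ∃ a ∈ SS Λ v x y, ch v x γ = ch v x δ * a := by
        intro γ hγ δ hδ hle
        refine ⟨ch v x (γ - δ), ch_mem (sub_mem hγ hδ) (sub_nonneg.2 hle), ?_⟩
        rw [← ch_add hx hind hδ (sub_mem hγ hδ)]
        congr 1
        ring
      rw [_root_.map_mul, ← hchπ]
      rcases le_total γ (v (algebraMap Λ Ω ϖ)) with hle | hle
      · obtain ⟨e, he, h4⟩ := hdvd _ hπ γ hγ hle
        refine ⟨γ, hγ, hγp, e * algebraMap Λ Ω c' + a1,
          add_mem (mul_mem he (Subalgebra.algebraMap_mem _ c')) ha1, ?_⟩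
        rw [h4]; ring
      · obtain ⟨e, he, h4⟩ := hdvd γ hγ _ hπ hle
        refine ⟨_, hπ, h.pos, algebraMap Λ Ω c' + e * a1,
          add_mem (Subalgebra.algebraMap_mem _ c') (mul_mem he ha1), ?_⟩
        rw [h4]; ring
    obtain ⟨ε, hε, hεp, e, he, h4⟩ := hstep
    refine ⟨ε, hε, hεp, e / b, ⟨e, he, b, hb, hb0, hvb, rfl⟩, b1 / b,
      ⟨b1, hb1, b, hb, hb0, hvb, rfl⟩, ?_⟩
    rw [hfe, ← add_assoc, h4, add_div, mul_div_assoc, mul_div_assoc]
  · intro g
    have h1 := (SigF0.alg_iff hfr g).2 (halg g)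
    exact h1
  · rintro f ⟨a, ha, b, hb, hb0, hvb, rfl⟩
    obtain ⟨c, γ, hγ, hγp, a1, ha1, b1, hb1, hfe⟩ := SS_form h hx hpos hind a ha
    obtain ⟨d, δ, hδ, hδp, a2, ha2, b2, hb2, hge⟩ := SS_form h hx hpos hind b hb
    have h1 : VPos v (a - algebraMap Λ Ω c) := by
      rw [hfe, add_sub_cancel_left]
      exact SS_vpos h hx hind hypos hγ hγp ha1 hb1
    have h2 : VPos v (b - algebraMap Λ Ω d) := by
      rw [hge, add_sub_cancel_left]
      exact SS_vpos h hx hind hypos hδ hδp ha2 hb2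
    have hd : IsUnit d := h.isUnit_of hb0 hvb h2
    obtain ⟨d', hd'⟩ := hd.exists_right_inv
    refine ⟨c * d', ?_⟩
    have hd1 : algebraMap Λ Ω d * algebraMap Λ Ω d' = 1 := by
      rw [← _root_.map_mul, hd', _root_.map_one]
    have h3 : a / b - algebraMap Λ Ω (c * d') = ((a - algebraMap Λ Ω c) -
        algebraMap Λ Ω (c * d') * (b - algebraMap Λ Ω d)) * b⁻¹ := by
      rw [_root_.map_mul]
      field_simp
      linear_combination (-algebraMap Λ Ω c) * hd1
    rw [h3]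
    refine VPos.mul (h1.sub (VPos.mul' (h.ge _) h2)) ?_
    intro _
    rw [v.map_inv hb0, hvb, neg_zero]
  · rw [hchπ, div_self h.pi_ne]
    exact one_mem _
  · rintro D γ hγ hγp f ⟨a, ha, b, hb, hb0, hvb, rfl⟩ h1
    have h2 : y ^ D * b = ch v x γ * a := by
      rw [h1]
      field_simp
    obtain ⟨A, hA, hAe⟩ := SS_poly a ha
    obtain ⟨B, hB, hBe⟩ := SS_poly b hb
    -- the two polynomials are equal
    have hSE := BaseG0.S0_le (Λ := Λ) (v := v) (x := x) (IntermediateField.adjoin Q (Set.range x))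
      (fun i => IntermediateField.subset_adjoin _ _ ⟨i, rfl⟩)
    have hchE : ch v x γ ∈ IntermediateField.adjoin Q (Set.range x) := by
      change mo x _ ∈ IntermediateField.adjoin Q (Set.range x)
      exact prod_mem fun i _ =>
        zpow_mem (IntermediateField.subset_adjoin Q (Set.range x) ⟨i, rfl⟩) _
    have hP0 : X ^ D * B - C (ch v x γ) * A = 0 := by
      by_contra hne
      apply hytr
      have hl : X ^ D * B - C (ch v x γ) * A ∈
          Polynomial.lifts (algebraMap (IntermediateField.adjoin Q (Set.range x)) Ω) := by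
        rw [Polynomial.lifts_iff_coeff_lifts]
        intro n
        refine ⟨⟨(X ^ D * B - C (ch v x γ) * A).coeff n, ?_⟩, rfl⟩
        rw [coeff_sub, coeff_C_mul, coeff_X_pow_mul']
        refine sub_mem ?_ (mul_mem hchE (hSE _ (hA n)))
        split_ifs
        · exact hSE _ (hB _)
        · exact zero_mem _
      obtain ⟨P, hP⟩ := (Polynomial.mem_lifts _).1 hl
      refine ⟨P, ?_, ?_⟩
      · rintro rfl
        rw [Polynomial.map_zero] at hP
        exact hne hP.symm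
      · rw [← Polynomial.eval_map_algebraMap, hP, eval_sub, eval_mul, eval_pow, eval_X, eval_mul,
          eval_C, hAe, hBe, h2, sub_self]
    have h3 : B.coeff 0 = ch v x γ * A.coeff D := by
      have h4 := congrArg (fun P : Polynomial Ω => P.coeff D) hP0
      simp only [coeff_sub, coeff_C_mul, coeff_X_pow_mul', le_refl, if_true, Nat.sub_self,
        coeff_zero] at h4
      exact sub_eq_zero.1 h4
    have h4 : VPos v (B.coeff 0) := by
      rw [h3]
      refine VPos.mul ?_ (S0_nonneg h hx hind _ (hA D))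
      intro _
      rw [ch_val hx hind hγ]
      exact hγp
    -- `b - b_0` has positive value
    have h5 : VPos v b := by
      have h6 : b = B.coeff 0 + y * (B.divX).eval y := by
        have h7 := congrArg (eval y) (B.divX_mul_X_add)
        rw [eval_add, eval_mul, eval_X, eval_C, hBe] at h7
        rw [← h7]; ring
      rw [h6]
      refine h4.add (VPos.mul (fun _ => hypos) ?_)
      rw [eval_eq_sum_range]
      refine RVal.Ge.sum _ _ fun i _ => ?_
      rw [coeff_divX]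
      have h7 := (S0_nonneg h hx hind _ (hB (i + 1))).mul
        (show v.Ge 0 (y ^ i) from fun _ => by
          rw [v.map_pow hy]
          positivity)
      rwa [add_zero] at h7
    have := h5 hb0
    rw [hvb] at this
    exact lt_irrefl _ this

end

end Pool.Agent.LUM
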