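import Pool.Agent.Lib.LUM.LDefs

/-! # C04: change of the base ring by localisation

`k → k₁`, `k₁` a localisation of `k` at elements which are units of `V`.
Recipe: let `A` be a finitely generated `k`-subalgebra of `K` inside `V`, `A₁ = k₁[A]`, which consists of the
`a / s`, `a ∈ A`, `s` in the image of `S` (units of `V`).  `LUat V A₁ T` gives `A₁'`, `g₁`, `G₁`, `z`.
Multiply `g₁` and the elements of `G₁` by one common denominator `s`: `g = s g₁ ∈ A`, `G = s G₁ ⊆ A`,
`A' = A[x / g]`, `locV V A' = locV V A₁'` (as sets; so `dim` agrees by a ring isomorphism), `IsPar`, `Mono`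
are the same statements; `g = s g₁`, `s` a unit of `locV V A'`. -/

set_option autoImplicit false

namespace Pool.Agent.LUM

universe u

private lemma c04_ne {K : Type u} [Field K] (V : ValuationSubring K) {x : K}
    (h : V.valuation x = 1) : x ≠ 0 := by
  rintro rfl
  simp at h

/-- the elements of the algebra generated over `k₁` are quotients by units from `k` -/
private lemma c04_adjoin {k k₁ K : Type u} [CommRing k] [CommRing k₁] [Field K] [Algebra k K]
    [Algebra k₁ K] (V : ValuationSubring K)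
    (h1 : ∀ c : k₁, ∃ a s : k, V.valuation (algebraMap k K s) = 1 ∧
      algebraMap k₁ K c = algebraMap k K a / algebraMap k K s)
    (B : Subalgebra k K) (X : Set K)
    (hX : ∀ x ∈ X, ∃ b ∈ B, ∃ s : k, V.valuation (algebraMap k K s) = 1 ∧
      x = b / algebraMap k K s) (f : K) (hf : f ∈ Algebra.adjoin k₁ X) :
    ∃ b ∈ B, ∃ s : k, V.valuation (algebraMap k K s) = 1 ∧ f = b / algebraMap k K s := by
  induction hf using Algebra.adjoin_induction with
  | mem x hx => exact hX x hx
  | algebraMap c =>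
    obtain ⟨a, s, hs, he⟩ := h1 c
    exact ⟨algebraMap k K a, B.algebraMap_mem a, s, hs, he⟩
  | add x y _ _ hx hy =>
    obtain ⟨b, hb, s, hs, rfl⟩ := hx
    obtain ⟨c, hc, t, ht, rfl⟩ := hy
    refine ⟨b * algebraMap k K t + algebraMap k K s * c,
      B.add_mem (B.mul_mem hb (B.algebraMap_mem t)) (B.mul_mem (B.algebraMap_mem s) hc), s * t,
      by rw [map_mul, map_mul, hs, ht, one_mul], ?_⟩
    rw [div_add_div _ _ (c04_ne V hs) (c04_ne V ht), map_mul]
  | mul x y _ _ hx hy =>
    obtain ⟨b, hb, s, hs, rfl⟩ := hx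
    obtain ⟨c, hc, t, ht, rfl⟩ := hy
    exact ⟨b * c, B.mul_mem hb hc, s * t, by rw [map_mul, map_mul, hs, ht, one_mul],
      by rw [div_mul_div_comm, map_mul]⟩

/-- a common denominator for finitely many elements -/
private lemma c04_common {k K : Type u} [CommRing k] [Field K] [Algebra k K]
    (V : ValuationSubring K) (A : Subalgebra k K) (G : Finset K)
    (hG : ∀ x ∈ G, ∃ b ∈ A, ∃ s : k, V.valuation (algebraMap k K s) = 1 ∧
      x = b / algebraMap k K s) :
    ∃ s : k, V.valuation (algebraMap k K s) = 1 ∧ ∀ x ∈ G, algebraMap k K s * x ∈ A := by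
  classical
  induction G using Finset.induction_on with
  | empty => exact ⟨1, by simp, by simp⟩
  | insert y G hy ih =>
    obtain ⟨s, hs, h2⟩ := ih fun x hx => hG x (Finset.mem_insert_of_mem hx)
    obtain ⟨b, hb, t, ht, he⟩ := hG y (Finset.mem_insert_self _ _)
    refine ⟨s * t, by rw [map_mul, map_mul, hs, ht, one_mul], fun x hx => ?_⟩
    rcases Finset.mem_insert.1 hx with rfl | hx
    · have h3 : algebraMap k K (s * t) * x = algebraMap k K s * b := by
        rw [he, map_mul]
        have := c04_ne V ht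
        field_simp
      rw [h3]
      exact A.mul_mem (A.algebraMap_mem s) hb
    · have h3 : algebraMap k K (s * t) * x = algebraMap k K t * (algebraMap k K s * x) := by
        rw [map_mul]
        ring
      rw [h3]
      exact A.mul_mem (A.algebraMap_mem t) (h2 x hx)

private lemma c04_par {k k₁ K : Type u} [CommRing k] [CommRing k₁] [Field K] [Algebra k K]
    [Algebra k₁ K] (V : ValuationSubring K) (R : Subalgebra k K) (R₁ : Subalgebra k₁ K)
    (h : ∀ f, f ∈ R ↔ f ∈ R₁) {n : ℕ} {z : Fin n → K} (hz : IsPar V R₁ z) : IsPar V R z where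
  mem i := (h _).2 (hz.mem i)
  ne := hz.ne
  pos := hz.pos
  gen f hf hv := by
    obtain ⟨a, ha, he⟩ := hz.gen f ((h f).1 hf) hv
    exact ⟨a, fun i => (h _).2 (ha i), he⟩
  dim := by
    rw [← hz.dim]
    let e : R ≃+* R₁ :=
      { toFun := fun x => ⟨x.1, (h _).1 x.2⟩
        invFun := fun x => ⟨x.1, (h _).2 x.2⟩
        left_inv := fun x => rfl
        right_inv := fun x => rfl
        map_mul' := fun x y => rfl
        map_add' := fun x y => rfl }
    exact ringKrullDim_eq_of_ringEquiv e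

private lemma c04_mono {k k₁ K : Type u} [CommRing k] [CommRing k₁] [Field K] [Algebra k K]
    [Algebra k₁ K] (V : ValuationSubring K) (R : Subalgebra k K) (R₁ : Subalgebra k₁ K)
    (h : ∀ f, f ∈ R ↔ f ∈ R₁) {n : ℕ} {z : Fin n → K} {t : K} (s : k)
    (hs : V.valuation (algebraMap k K s) = 1) (ht : Mono V R₁ z t) :
    Mono V R z (algebraMap k K s * t) := by
  obtain ⟨e, w, hw, hv, he, h1, h2⟩ := ht
  have hvt : V.valuation (algebraMap k K s * t) = V.valuation t := by rw [map_mul, hs, one_mul]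
  refine ⟨e, algebraMap k K s * w, R.mul_mem (R.algebraMap_mem s) ((h w).2 hw),
    by rw [map_mul, hs, hv, one_mul], by rw [he]; ring, ?_, ?_⟩
  · rw [hvt]; exact h1
  · rw [hvt]; exact h2

theorem LU.of_localization {k k₁ K : Type u} [CommRing k] [CommRing k₁] [Field K] [Algebra k K]
    [Algebra k k₁] [Algebra k₁ K] [IsScalarTower k k₁ K] (V : ValuationSubring K)
    (h1 : ∀ c : k₁, ∃ a s : k, V.valuation (algebraMap k K s) = 1 ∧
      algebraMap k₁ K c = algebraMap k K a / algebraMap k K s)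
    (hk : ∀ c : k, algebraMap k K c ∈ V)
    (h : LU k₁ V) : LU k V := by
  classical
  intro A hA hAV hfr T hT
  let A₁ : Subalgebra k₁ K := Algebra.adjoin k₁ (A : Set K)
  have hsub : ∀ a ∈ A, a ∈ A₁ := fun a ha => Algebra.subset_adjoin ha
  have hself : ∀ (B : Subalgebra k K) (b : K), b ∈ B → ∃ b' ∈ B, ∃ s : k,
      V.valuation (algebraMap k K s) = 1 ∧ b = b' / algebraMap k K s :=
    fun B b hb => ⟨b, hb, 1, by simp, by simp⟩
  have hA₁ : ∀ f ∈ A₁, ∃ b ∈ A, ∃ s : k, V.valuation (algebraMap k K s) = 1 ∧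
      f = b / algebraMap k K s := c04_adjoin V h1 A _ (fun x hx => hself A x hx)
  have hFG : A₁.FG := by
    obtain ⟨F, hF⟩ := hA
    refine ⟨F, le_antisymm (Algebra.adjoin_mono ?_) (Algebra.adjoin_le ?_)⟩
    · rw [← hF]
      exact Algebra.subset_adjoin
    · have h2 : A ≤ (Algebra.adjoin k₁ (F : Set K)).restrictScalars k := by
        rw [← hF]
        exact Algebra.adjoin_le fun x hx => Algebra.subset_adjoin hx
      exact fun x hx => h2 hx
  have hA₁V : ∀ a ∈ A₁, a ∈ V := by
    intro f hf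
    obtain ⟨b, hb, s, hs, rfl⟩ := hA₁ f hf
    rw [← V.valuation_le_one_iff, map_div₀, hs, div_one, V.valuation_le_one_iff]
    exact hAV b hb
  have hfr₁ : IsFrac A₁ := by
    intro f
    obtain ⟨a, ha, b, hb, hb0, he⟩ := hfr f
    exact ⟨a, hsub a ha, b, hsub b hb, hb0, he⟩
  obtain ⟨A₁', g₁, ⟨hg₁, hg0, G₁, hG₁, hA₁'⟩, n, z, hpar, hmg, hmt⟩ := h A₁ hFG hA₁V hfr₁ T hT
  obtain ⟨s, hs, hsG⟩ := c04_common V A (insert g₁ G₁) (by
    intro x hx
    rcases Finset.mem_insert.1 hx with rfl | hx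
    · exact hA₁ x hg₁
    · exact hA₁ x (hG₁ x hx).1)
  have hs0 := c04_ne V hs
  have hdiv : ∀ x : K, algebraMap k K s * x / (algebraMap k K s * g₁) = x / g₁ :=
    fun x => mul_div_mul_left x g₁ hs0
  let G : Finset K := G₁.image fun x => algebraMap k K s * x
  let A' : Subalgebra k K := Algebra.adjoin k ((A : Set K) ∪
    (fun x => x / (algebraMap k K s * g₁)) '' (G : Set K))
  have hAA' : ∀ a ∈ A, a ∈ A' := fun a ha => Algebra.subset_adjoin (Or.inl ha)
  have hxA' : ∀ x ∈ G₁, x / g₁ ∈ A' := by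
    intro x hx
    refine Algebra.subset_adjoin (Or.inr ⟨algebraMap k K s * x, ?_, hdiv x⟩)
    exact Finset.mem_coe.2 (Finset.mem_image_of_mem _ hx)
  have hle : ∀ f ∈ A', f ∈ A₁' := by
    have h2 : A' ≤ A₁'.restrictScalars k := by
      refine Algebra.adjoin_le ?_
      rintro x (hx | ⟨y, hy, rfl⟩)
      · change x ∈ A₁'
        rw [hA₁']
        exact Algebra.subset_adjoin (Or.inl (hsub x hx))
      · obtain ⟨w, hw, rfl⟩ := Finset.mem_image.1 (Finset.mem_coe.1 hy)
        change algebraMap k K s * w / (algebraMap k K s * g₁) ∈ A₁'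
        rw [hdiv, hA₁']
        exact Algebra.subset_adjoin (Or.inr ⟨w, Finset.mem_coe.2 hw, rfl⟩)
    exact fun f hf => h2 hf
  have hge : ∀ f ∈ A₁', ∃ b ∈ A', ∃ s : k, V.valuation (algebraMap k K s) = 1 ∧
      f = b / algebraMap k K s := by
    rw [hA₁']
    refine c04_adjoin V h1 A' _ ?_
    rintro x (hx | ⟨y, hy, rfl⟩)
    · obtain ⟨b, hb, t, ht, he⟩ := hA₁ x hx
      exact ⟨b, hAA' b hb, t, ht, he⟩
    · exact hself A' _ (hxA' y (Finset.mem_coe.1 hy))
  have hloc : ∀ f, f ∈ locV V A' ↔ f ∈ locV V A₁' := by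
    intro f
    constructor
    · rintro ⟨a, ha, b, hb, hvb, rfl⟩
      exact ⟨a, hle a ha, b, hle b hb, hvb, rfl⟩
    · rintro ⟨a, ha, b, hb, hvb, rfl⟩
      obtain ⟨a', ha', t, ht, rfl⟩ := hge a ha
      obtain ⟨b', hb', t', ht', rfl⟩ := hge b hb
      rw [map_div₀, ht', div_one] at hvb
      refine ⟨a' * algebraMap k K t', A'.mul_mem ha' (A'.algebraMap_mem t'),
        b' * algebraMap k K t, A'.mul_mem hb' (A'.algebraMap_mem t),
        by rw [map_mul, hvb, ht, one_mul], ?_⟩
      have h3 := c04_ne V ht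
      have h4 := c04_ne V ht'
      have h5 := c04_ne V hvb
      field_simp
  refine ⟨A', algebraMap k K s * g₁, ⟨hsG g₁ (Finset.mem_insert_self _ _),
    mul_ne_zero hs0 hg0, G, ?_, rfl⟩, n, z, c04_par V _ _ hloc hpar,
    c04_mono V _ _ hloc s hs hmg, fun t ht => ?_⟩
  · intro x hx
    obtain ⟨w, hw, rfl⟩ := Finset.mem_image.1 hx
    refine ⟨hsG w (Finset.mem_insert_of_mem hw), ?_⟩
    rw [map_mul, map_mul, hs, one_mul, one_mul]
    exact (hG₁ w hw).2
  · have h3 := c04_mono V _ _ hloc (1 : k) (by simp) (hmt t ht)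
    simpa using h3

end Pool.Agent.LUM
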