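import Pool.Agent.Lib.LUM.TStepEx

/-! # Classes of frames closed under modified T-steps -/

set_option autoImplicit false
set_option linter.unusedSectionVars false

open Polynomial

namespace Pool.Agent.LUM

open Pool.Agent.H15JM (RVal)
open Pool.Agent.LU1 (VPos LatData)

universe u

variable {Λ Ω : Type u} [CommRing Λ] [IsDomain Λ] [IsDiscreteValuationRing Λ] [Field Ω]
  [Algebra Λ Ω] {ϖ : Λ} {v : RVal Ω} {r : ℕ}

/-- `B''` is `B'` with `y` replaced by `y + y^M z`. -/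
structure BF.Chg (M : ℕ) (B' B'' : BF ϖ v) : Prop where
  Γ_eq : B''.Γ = B'.Γ
  χ_eq : B''.χ = B'.χ
  R_eq : B''.R = B'.R
  y_eq : ∃ z ∈ B'.R, B''.y = B'.y + B'.y ^ M * z

/-- A T-step followed by a change of `y` of order at least two. -/
def MStep (B B'' : BF ϖ v) : Prop := ∃ (q : ℕ) (c : Λ) (s : ℝ → ℤ → ℤ) (B' : BF ϖ v) (M : ℕ),
  IsTStep B B' q c s ∧ 2 ≤ M ∧ BF.Chg M B' B''

/-- A class of frames, with a relation `St` between its members (the steps of the class). -/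
structure Cls {Λ : Type u} [CommRing Λ] [IsDomain Λ] [IsDiscreteValuationRing Λ] (ϖ : Λ)
    {Ω : Type u} [Field Ω] [Algebra Λ Ω] (v : RVal Ω) where
  /-- the class -/
  Cl : BF ϖ v → Prop
  /-- the steps -/
  St : BF ϖ v → BF ϖ v → Prop
  mstep : ∀ B B' : BF ϖ v, St B B' → MStep B B'
  ex : ∀ B : BF ϖ v, Cl B → ∀ (q : ℕ) (s : ℝ → ℤ → ℤ), LatData B.Γ (v B.y) q s →
    ∃ (c : Λ) (B' : BF ϖ v), IsTStep B B' q c s ∧
      ∀ M : ℕ, ∃ B'' : BF ϖ v, BF.Chg M B' B'' ∧ St B B'' ∧ Cl B''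

/-- Finitely many steps of the class. -/
def Cls.Reach (K : Cls ϖ v) : BF ϖ v → BF ϖ v → Prop := Relation.ReflTransGen K.St

theorem BF.Chg.refl (M : ℕ) (B : BF ϖ v) : BF.Chg M B B :=
  ⟨rfl, rfl, rfl, 0, B.R.zero_mem, by ring⟩

theorem TStep.mstep {B B' : BF ϖ v} (h : TStep B B') : MStep B B' := by
  obtain ⟨q, c, s, h⟩ := h
  exact ⟨q, c, s, B', 2, h, le_rfl, BF.Chg.refl 2 B'⟩

/-- The class of all frames. -/
def Cls.all (h : Ctx ϖ v r) : Cls ϖ v where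
  Cl := fun _ => True
  St := TStep
  mstep := fun _ _ h => h.mstep
  ex := fun B _ q s hL => by
    obtain ⟨B', c, h1⟩ := B.exists_tstep_of h hL
    exact ⟨c, B', h1, fun M => ⟨B', BF.Chg.refl M B', ⟨q, c, s, h1⟩, trivial⟩⟩

namespace BF.Chg

variable {M : ℕ} {B' B'' : BF ϖ v}

theorem ext (h : BF.Chg M B' B'') : Ext B' B'' := by
  refine ⟨h.R_eq.ge, fun γ hγ => by rw [h.Γ_eq]; exact hγ, fun γ hγ => ?_, ?_⟩
  · rw [h.χ_eq, div_self (B'.χ_ne γ hγ)]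
    exact BF.Un.one
  · intro a ha
    rw [h.R_eq] at ha
    exact ⟨a, ha, 1, B'.R.one_mem, one_ne_zero, (div_one a).symm⟩

theorem un (h : BF.Chg M B' B'') {f : Ω} : B''.Un f ↔ B'.Un f := by
  unfold BF.Un
  rw [h.R_eq]

theorem mono (h : BF.Chg M B' B'') {f : Ω} : B''.Mono f ↔ B'.Mono f := by
  unfold BF.Mono
  rw [h.Γ_eq, h.χ_eq, h.un]

/-- `y'' = y' * unit`. -/
theorem y_un (h : BF.Chg M B' B'') (hM : 2 ≤ M) :
    ∃ u, B'.Un u ∧ B''.y = B'.y * u := by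
  obtain ⟨z, hz, h1⟩ := h.y_eq
  refine ⟨1 + B'.y ^ (M - 1) * z, ?_, ?_⟩
  · refine BF.Un.add_vpos BF.Un.one (B'.R.mul_mem (B'.R.pow_mem B'.y_mem _) hz) ?_
    refine VPos.mul ?_ (B'.nonneg z hz)
    intro _
    rw [v.map_pow B'.y_ne]
    exact mul_pos (by exact_mod_cast (by omega : 0 < M - 1)) B'.y_pos
  · rw [h1]
    have h2 : B'.y ^ M = B'.y * B'.y ^ (M - 1) := by
      rw [← pow_succ']
      congr 1
      omega
    rw [h2]; ring

theorem v_y (h : BF.Chg M B' B'') (hM : 2 ≤ M) : v B''.y = v B'.y := by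
  obtain ⟨u, hu, h1⟩ := h.y_un hM
  rw [h1, v.map_mul B'.y_ne hu.2.1, hu.2.2, add_zero]

theorem lev (h : BF.Chg M B' B'') {W : ℝ} {f : Ω} : B''.Lev W f ↔ B'.Lev W f := by
  unfold BF.Lev
  rw [h.Γ_eq, h.χ_eq, h.R_eq]

end BF.Chg

theorem MStep.ext {B B' : BF ϖ v} (h : MStep B B') : Ext B B' := by
  obtain ⟨q, c, s, B1, M, h1, -, h2⟩ := h
  exact h1.ext.trans h2.ext

theorem MStep.mono_y {B B' : BF ϖ v} (h : MStep B B') : B'.Mono B.y := by
  obtain ⟨q, c, s, B1, M, h1, -, h2⟩ := h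
  exact h2.mono.2 h1.mono_y

theorem Cls.Reach.ext {K : Cls ϖ v} {B B' : BF ϖ v} (h : K.Reach B B') : Ext B B' := by
  induction h with
  | refl => exact Ext.refl B
  | tail _ h ih => exact ih.trans (K.mstep _ _ h).ext

/-! ### levels -/

namespace BF

variable {B B' : BF ϖ v}

theorem exists_ge (B : BF ϖ v) (W : ℝ) : ∃ γ ∈ B.Γ, W ≤ γ := by
  obtain ⟨m, hm, hmΓ⟩ := B.full B.y B.y_ne
  have h1 : 0 < (m : ℝ) * v B.y := mul_pos (by exact_mod_cast hm) B.y_pos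
  obtain ⟨n, hn⟩ := exists_nat_ge (W / ((m : ℝ) * v B.y))
  refine ⟨n * ((m : ℝ) * v B.y), ?_, ?_⟩
  · rw [← nsmul_eq_mul]; exact B.Γ.nsmul_mem hmΓ n
  · rwa [div_le_iff₀ h1] at hn

theorem Lev.zero (B : BF ϖ v) (W : ℝ) : B.Lev W 0 := by
  obtain ⟨γ, hγ, h1⟩ := B.exists_ge W
  exact ⟨γ, hγ, h1, 0, B.R.zero_mem, by rw [mul_zero]⟩

theorem Lev.add {W : ℝ} {f g : Ω} (hf : B.Lev W f) (hg : B.Lev W g) : B.Lev W (f + g) := by
  obtain ⟨γ, hγ, h1, a, ha, rfl⟩ := hf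
  obtain ⟨δ, hδ, h2, b, hb, rfl⟩ := hg
  obtain ⟨c, hc, h3⟩ := B.ideal_add hγ hδ ha hb
  refine ⟨min γ δ, ?_, le_min h1 h2, c, hc, h3⟩
  rcases min_choice γ δ with h4 | h4 <;> rw [h4] <;> assumption

theorem Lev.mul {W : ℝ} {f g : Ω} (hf : B.Lev W f) (hg : g ∈ B.R) : B.Lev W (f * g) := by
  obtain ⟨γ, hγ, h1, a, ha, rfl⟩ := hf
  exact ⟨γ, hγ, h1, a * g, B.R.mul_mem ha hg, by ring⟩

theorem Lev.neg {W : ℝ} {f : Ω} (hf : B.Lev W f) : B.Lev W (-f) := by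
  have := hf.mul (B.R.neg_mem B.R.one_mem)
  rwa [mul_neg, mul_one] at this

theorem Lev.sub {W : ℝ} {f g : Ω} (hf : B.Lev W f) (hg : B.Lev W g) : B.Lev W (f - g) := by
  rw [sub_eq_add_neg]
  exact hf.add hg.neg

theorem Lev.ext {W : ℝ} {f : Ω} (h : Ext B B') (hf : B.Lev W f) : B'.Lev W f := by
  obtain ⟨γ, hγ, h1, a, ha, rfl⟩ := hf
  have h2 := h.χ_un γ hγ
  refine ⟨γ, h.Γ_le γ hγ, h1, B.χ γ / B'.χ γ * a, B'.R.mul_mem h2.1 (h.le ha), ?_⟩
  rw [← mul_assoc, mul_div_cancel₀ _ (B'.χ_ne _ (h.Γ_le γ hγ))]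

theorem Lev.of_le {W W' : ℝ} {f : Ω} (hf : B.Lev W f) (h : W' ≤ W) : B.Lev W' f := by
  obtain ⟨γ, hγ, h1, a, ha, rfl⟩ := hf
  exact ⟨γ, hγ, h.trans h1, a, ha, rfl⟩

/-- Level `≥ γ` with `γ ∈ Γ`. -/
theorem Lev.of_mem {γ : ℝ} (hγ : γ ∈ B.Γ) {f : Ω} (hf : B.Lev γ f) :
    ∃ a ∈ B.R, f = B.χ γ * a := by
  obtain ⟨δ, hδ, h1, a, ha, rfl⟩ := hf
  refine ⟨B.χ (δ - γ) * a, B.R.mul_mem (B.χ_mem _ (B.Γ.sub_mem hδ hγ) (by linarith)) ha, ?_⟩
  rw [← mul_assoc, ← B.χ_add γ hγ _ (B.Γ.sub_mem hδ hγ)]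
  congr 2
  ring

theorem Lev.χ {γ W : ℝ} (hγ : γ ∈ B.Γ) (h : W ≤ γ) {a : Ω} (ha : a ∈ B.R) :
    B.Lev W (B.χ γ * a) := ⟨γ, hγ, h, a, ha, rfl⟩

/-- Elements of value `≥ W`. -/
theorem Lev.ge {W : ℝ} {f : Ω} (hf : B.Lev W f) : v.Ge W f := by
  obtain ⟨γ, hγ, h1, a, ha, rfl⟩ := hf
  intro h0
  have h2 := right_ne_zero_of_mul h0
  rw [v.map_mul (B.χ_ne γ hγ) h2, B.χ_val γ hγ]
  have := B.nonneg a ha h2
  linarith

/-- Adding an element of a level above the content. -/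
theorem Rep.add_lev {f g : Ω} {κ W : ℝ} {D : ℕ} (h1 : B.Rep f κ D) (hW : κ < W)
    (hg : B.Lev W g) : B.Rep (f + g) κ D := by
  obtain ⟨γ, hγ, h2, a, ha, rfl⟩ := hg
  exact h1.add_mem hγ (lt_of_lt_of_le hW h2) ha

/-- The monomials of value `≥ W` and nonnegative level generate the module of the errors of
size `W`. -/
noncomputable def JW (B : BF ϖ v) (W : ℝ) : Submodule B.R Ω :=
  Submodule.span B.R {z | ∃ γ ∈ B.Γ, ∃ l : ℕ, 0 ≤ γ ∧ W ≤ γ + l * v B.y ∧ z = B.χ γ * B.y ^ l}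

theorem JW_le_R {W : ℝ} {f : Ω} (hf : f ∈ B.JW W) : f ∈ B.R := by
  unfold JW at hf
  induction hf using Submodule.span_induction with
  | mem x hx =>
    obtain ⟨γ, hγ, l, h0, -, rfl⟩ := hx
    exact B.R.mul_mem (B.χ_mem γ hγ h0) (B.R.pow_mem B.y_mem l)
  | zero => exact B.R.zero_mem
  | add x y _ _ hx hy => exact B.R.add_mem hx hy
  | smul a x _ hx =>
    rw [Algebra.smul_def]
    exact B.R.mul_mem a.2 hx

theorem JW_anti {W W' : ℝ} (h : W' ≤ W) : B.JW W ≤ B.JW W' := by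
  refine Submodule.span_mono ?_
  rintro _ ⟨γ, hγ, l, h0, h1, rfl⟩
  exact ⟨γ, hγ, l, h0, h.trans h1, rfl⟩

theorem JW_mul {W : ℝ} {f a : Ω} (hf : f ∈ B.JW W) (ha : a ∈ B.R) : a * f ∈ B.JW W :=
  (B.JW W).smul_mem ⟨a, ha⟩ hf

/-- Nonnegative levels `≥ W` are errors of size `W`. -/
theorem Lev.jw {W : ℝ} (hW : 0 ≤ W) {f : Ω} (hf : B.Lev W f) : f ∈ B.JW W := by
  obtain ⟨γ, hγ, h1, a, ha, rfl⟩ := hf
  have h2 : B.χ γ ∈ B.JW W := Submodule.subset_span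
    ⟨γ, hγ, 0, hW.trans h1, by rw [Nat.cast_zero, zero_mul, add_zero]; exact h1,
      by rw [pow_zero, mul_one]⟩
  rw [mul_comm]
  exact JW_mul h2 ha

/-- Multiplication by a monomial. -/
theorem JW_mul_χ {W u : ℝ} (hu : u ∈ B.Γ) (hu0 : 0 ≤ u) {f : Ω} (hf : f ∈ B.JW W) :
    B.χ u * f ∈ B.JW (W + u) := by
  unfold JW at hf
  induction hf using Submodule.span_induction with
  | mem x hx =>
    obtain ⟨γ, hγ, l, h0, h1, rfl⟩ := hx
    refine Submodule.subset_span ⟨u + γ, B.Γ.add_mem hu hγ, l, add_nonneg hu0 h0, by linarith, ?_⟩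
    rw [B.χ_add u hu γ hγ]; ring
  | zero => rw [mul_zero]; exact Submodule.zero_mem _
  | add x y _ _ hx hy => rw [mul_add]; exact Submodule.add_mem _ hx hy
  | smul a x _ hx =>
    rw [Algebra.smul_def, mul_left_comm]
    exact JW_mul hx a.2

theorem JW_mul_y {W : ℝ} {f : Ω} (hf : f ∈ B.JW W) : B.y * f ∈ B.JW (W + v B.y) := by
  unfold JW at hf
  induction hf using Submodule.span_induction with
  | mem x hx =>
    obtain ⟨γ, hγ, l, h0, h1, rfl⟩ := hx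
    refine Submodule.subset_span ⟨γ, hγ, l + 1, h0, by push_cast; linarith, ?_⟩
    ring
  | zero => rw [mul_zero]; exact Submodule.zero_mem _
  | add x y _ _ hx hy => rw [mul_add]; exact Submodule.add_mem _ hx hy
  | smul a x _ hx =>
    rw [Algebra.smul_def, mul_left_comm]
    exact JW_mul hx a.2

/-- After a T-step the errors are of level `≥ W`. -/
theorem JW_lev {q : ℕ} {c : Λ} {s : ℝ → ℤ → ℤ} (h : IsTStep B B' q c s) {W : ℝ} {f : Ω}
    (hf : f ∈ B.JW W) : B'.Lev W f := by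
  unfold JW at hf
  induction hf using Submodule.span_induction with
  | mem x hx =>
    obtain ⟨γ, hγ, l, h0, h1, rfl⟩ := hx
    have h2 := h.χ_mul hγ (l : ℤ)
    rw [zpow_natCast, Int.cast_natCast] at h2
    rw [h2]
    refine ⟨γ + l * v B.y, ?_, h1, _, (h.un_w.zpow (s γ l)).1, rfl⟩
    refine B'.Γ.add_mem (h.Γ_le hγ) ?_
    rw [← nsmul_eq_mul]
    exact B'.Γ.nsmul_mem h.β_mem l
  | zero => exact Lev.zero B' W
  | add x y _ _ hx hy => exact hx.add hy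
  | smul a x _ hx =>
    rw [Algebra.smul_def, mul_comm]
    exact hx.mul (h.R_le a.2)

/-- `m^M` consists of errors of size `M ε`. -/
theorem inPow_jw (B : BF ϖ v) (N : NF Λ v r) (u : Fin r → ℝ) (hu : ∀ i, u i ∈ B.Γ ∧ 0 < u i)
    (hx : ∀ i, N.x i = B.χ (u i)) (hy : N.y = B.y) (hNR : N.R ≤ B.R) {ε : ℝ}
    (hεu : ∀ i, ε ≤ u i) (hεy : ε ≤ v B.y) (M : ℕ) {e : Ω} (he : N.InPow M e) :
    e ∈ B.JW (M * ε) := by
  obtain ⟨z, hz, rfl⟩ := he
  induction M generalizing z with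
  | zero =>
    have h1 : (1 : Ω) ∈ B.JW (((0 : ℕ) : ℝ) * ε) := Submodule.subset_span
      ⟨0, B.Γ.zero_mem, 0, le_rfl, by simp, by rw [B.χ_zero, pow_zero, mul_one]⟩
    have h2 := JW_mul h1 (hNR z.2)
    rwa [mul_one] at h2
  | succ M ih =>
    rw [pow_succ'] at hz
    induction hz using Submodule.mul_induction_on' with
    | mem_mul_mem a ha b hb =>
      unfold NF.m at ha
      rw [show ((a * b : N.R) : Ω) = a * b from rfl]
      induction ha using Submodule.span_induction with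
      | mem x hx' =>
        rcases hx' with ⟨i, hi⟩ | hi
        · rw [hi, hx]
          refine JW_anti ?_ (JW_mul_χ (hu i).1 (hu i).2.le (ih b hb))
          have := hεu i
          push_cast
          linarith
        · rw [show (x : Ω) = N.y from hi, hy]
          refine JW_anti ?_ (JW_mul_y (ih b hb))
          push_cast
          linarith
      | zero =>
        rw [show ((0 : N.R) : Ω) = 0 from rfl, zero_mul]
        exact Submodule.zero_mem _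
      | add x y _ _ hx' hy' =>
        rw [show ((x + y : N.R) : Ω) = x + y from rfl, add_mul]
        exact Submodule.add_mem _ hx' hy'
      | smul c x _ hx' =>
        rw [smul_eq_mul, show ((c * x : N.R) : Ω) = c * x from rfl, mul_assoc]
        exact JW_mul hx' (hNR c.2)
    | add a _ b _ ha hb =>
      rw [show ((a + b : N.R) : Ω) = a + b from rfl]
      exact Submodule.add_mem _ ha hb

/-- The evaluations of a polynomial with nonnegative exponents before and after a change of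
`y` of high order. -/
theorem Chg.ev_sub {M : ℕ} {B' B'' : BF ϖ v} (h : BF.Chg M B' B'') (hM : 2 ≤ M) {W : ℝ}
    (hW : W ≤ M * v B'.y) {P : (Lau Λ)[X]} (hP : SuppIn B'.Γ P)
    (hP0 : ∀ γ l, co P γ l ≠ 0 → 0 ≤ γ) : B'.ev P - B''.ev P ∈ B''.JW W := by
  obtain ⟨u, hu, h1⟩ := h.y_un hM
  obtain ⟨z, hz, h2⟩ := h.y_eq
  have hy'' : B'.y ∈ B''.R := by rw [h.R_eq]; exact B'.y_mem
  -- `y'^M` is an error
  have hyM : B'.y ^ M ∈ B''.JW W := by
    have h3 : B'.y = B''.y * u⁻¹ := by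
      rw [h1, mul_assoc, mul_inv_cancel₀ hu.2.1, mul_one]
    have h4 : B''.y ^ M ∈ B''.JW W := Submodule.subset_span
      ⟨0, B''.Γ.zero_mem, M, le_rfl, by rw [zero_add, h.v_y hM]; exact hW,
        by rw [B''.χ_zero, one_mul]⟩
    rw [h3, mul_pow, mul_comm]
    refine JW_mul h4 ?_
    rw [h.R_eq]
    exact (hu.inv.pow M).1
  rw [B'.ev_eq, B''.ev_eq, ← Finset.sum_sub_distrib]
  refine Submodule.sum_mem _ fun l _ => ?_
  rw [← Finset.sum_sub_distrib]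
  refine Submodule.sum_mem _ fun γ hγ => ?_
  have h5 : co P γ l ≠ 0 := Finsupp.mem_support_iff.1 hγ
  obtain ⟨t, ht⟩ := sub_dvd_pow_sub_pow (⟨B'.y, B'.y_mem⟩ : B'.R)
    ⟨B''.y, by rw [← h.R_eq]; exact B''.y_mem⟩ l
  have ht' : B'.y ^ l - B''.y ^ l = (B'.y - B''.y) * (t : Ω) := by
    have := congrArg (fun z : B'.R => (z : Ω)) ht
    simpa using this
  have h6 : algebraMap Λ Ω (co P γ l) * B'.χ γ * B'.y ^ l -
      algebraMap Λ Ω (co P γ l) * B''.χ γ * B''.y ^ l =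
      (-(algebraMap Λ Ω (co P γ l) * B'.χ γ * z * t)) * B'.y ^ M := by
    rw [h.χ_eq]
    have h7 : B'.y - B''.y = -(B'.y ^ M * z) := by rw [h2]; ring
    rw [h7] at ht'
    linear_combination (algebraMap Λ Ω (co P γ l) * B'.χ γ) * ht'
  rw [h6]
  refine JW_mul hyM ?_
  rw [h.R_eq]
  refine B'.R.neg_mem (B'.R.mul_mem (B'.R.mul_mem (B'.R.mul_mem (B'.R.algebraMap_mem _)
    (B'.χ_mem γ (hP γ l h5) (hP0 γ l h5))) hz) t.2)

end BF

end Pool.Agent.LUM
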