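import Pool.Agent.Lib.LUM.Rep

/-! # Lemma X: sums of monomials of the same value -/

set_option autoImplicit false
set_option linter.unusedSectionVars false

open Polynomial

namespace Pool.Agent.LUM

open Pool.Agent.H15JM (RVal)
open Pool.Agent.LU1 (VPos LatData)
open RepAux (Hi)

universe u

variable {Λ Ω : Type u} [CommRing Λ] [IsDomain Λ] [IsDiscreteValuationRing Λ] [Field Ω]
  [Algebra Λ Ω] {ϖ : Λ} {v : RVal Ω} {r : ℕ}

/-- Lemma X0. -/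
theorem BF.lemX0 (h : Ctx0 ϖ v r) (B : BF ϖ v) {u b : Ω} (hu : B.Un u) (hb : b ∈ B.R) {g : ℝ}
    (hg : g ∈ B.Γ) (hg0 : 0 ≤ g) (D : ℕ) : ¬ Hi B g (B.y ^ D * (u * B.χ g + B.y * b)) := by
  intro hH
  rcases hg0.lt_or_eq with hpos | rfl
  · set ρ := u * B.χ g + B.y * b with hρ
    have hρR : ρ ∈ B.R := B.R.add_mem (B.R.mul_mem hu.1 (B.χ_mem g hg hg0))
      (B.R.mul_mem B.y_mem hb)
    have hm : B.Rep (-(u * B.χ g)) g 0 := by
      have h1 : B.Mono (-(u * B.χ g)) := by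
        have h2 : B.Un (-u) := ⟨B.R.neg_mem hu.1, neg_ne_zero.2 hu.2.1, by
          rw [v.map_neg _ hu.2.1]; exact hu.2.2⟩
        have h3 := (BF.Mono.un h2).mul (BF.Mono.χ hg)
        rwa [neg_mul] at h3
      have h4 := h1.rep
      rwa [v.map_neg _ (mul_ne_zero hu.2.1 (B.χ_ne g hg)), v.map_mul hu.2.1 (B.χ_ne g hg), hu.2.2,
        zero_add, B.χ_val g hg] at h4
    have hyb : B.Rep (B.y * b) g 0 := by
      by_cases hρ0 : ρ = 0
      · have h1 : B.y * b = -(u * B.χ g) := by linear_combination hρ0 - hρ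
        rw [h1]; exact hm
      · obtain ⟨κ, D', -, h1⟩ := B.rep_exists h hρR hρ0
        have h2 : B.Rep (B.y ^ D * ρ) ((D : ℝ) * 0 + κ) (D * 1 + D') := (B.rep_y.pow D).mul h1
        obtain ⟨γ, hγ, hlt, a, ha, h3⟩ := hH
        have h4 := h2.ge_of_mem h hγ ha h3
        rw [mul_zero, zero_add] at h4
        have h5 := hm.add h1 (Or.inl (lt_of_lt_of_le hlt h4))
        have h6 : B.y * b = -(u * B.χ g) + ρ := by rw [hρ]; ring
        rw [h6]; exact h5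
    have hb0 : b ≠ 0 := by
      rintro rfl
      exact hyb.ne_zero h (mul_zero _)
    obtain ⟨κ, D', -, h1⟩ := B.rep_exists h hb hb0
    have h2 := (B.rep_y.mul h1).unique h hyb
    omega
  · have hu' : B.Un (u * B.χ 0 + B.y * b) := by
      rw [B.χ_zero, mul_one]
      exact hu.add_vpos (B.R.mul_mem B.y_mem hb) (B.vpos_y.mul (B.nonneg b hb))
    rw [mul_comm] at hH
    exact RepAux.not_hi h B D hu' hH

/-- Finite sums of `a χ(γ) y^l`, `a ∈ R`, `l ≥ 0`, of level `γ + l β > τ`. -/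
def BF.UpG (B : BF ϖ v) (β τ : ℝ) : AddSubgroup Ω :=
  AddSubgroup.closure {z | ∃ a ∈ B.R, ∃ γ ∈ B.Γ, ∃ l : ℕ, τ < γ + l * β ∧
    z = a * (B.χ γ * B.y ^ l)}

/-- Lemma X: a nonempty sum of monomials of level `τ` with unit coefficients is not a sum of
terms of higher level. -/
theorem BF.lemX (h : Ctx0 ϖ v r) (B : BF ϖ v) {β τ : ℝ} (hβ : 0 < β) (S : Finset (ℝ × ℕ))
    (hS : S.Nonempty) (hSΓ : ∀ a ∈ S, a.1 ∈ B.Γ ∧ a.1 + a.2 * β = τ) (ε : ℝ × ℕ → Ω)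
    (hε : ∀ a ∈ S, B.Un (ε a)) : (∑ a ∈ S, ε a * (B.χ a.1 * B.y ^ a.2)) ∉ B.UpG β τ := by
  classical
  intro hmem
  obtain ⟨a0, ha0, hmin⟩ := Finset.exists_min_image S (fun a => a.1) hS
  obtain ⟨hγ0, hτ0⟩ := hSΓ a0 ha0
  -- elements of `UpG`
  have key : ∀ z ∈ B.UpG β τ, ∃ γ' ∈ B.Γ, a0.1 < γ' ∧ ∃ a ∈ B.R, ∃ t ∈ B.Γ, t ≤ a0.1 ∧
      ∃ b ∈ B.R, z = B.χ γ' * a + B.χ t * (B.y ^ (a0.2 + 1) * b) := by
    obtain ⟨p0, hp0, hp0pos⟩ := RepAux.exists_pos B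
    intro z hz
    induction hz using AddSubgroup.closure_induction with
    | mem z hz =>
      obtain ⟨a, ha, γ, hγ, l, hlt, rfl⟩ := hz
      by_cases hc : a0.1 < γ
      · exact ⟨γ, hγ, hc, a * B.y ^ l, B.R.mul_mem ha (B.R.pow_mem B.y_mem l), a0.1, hγ0, le_rfl,
          0, B.R.zero_mem, by ring⟩
      · have hl : a0.2 < l := by
          have h1 : (a0.2 : ℝ) * β < l * β := by linarith [not_lt.1 hc]
          have h2 := lt_of_mul_lt_mul_right h1 hβ.le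
          exact_mod_cast h2
        obtain ⟨m, rfl⟩ : ∃ m, l = a0.2 + 1 + m := ⟨l - (a0.2 + 1), by omega⟩
        refine ⟨a0.1 + p0, B.Γ.add_mem hγ0 hp0, by linarith, 0, B.R.zero_mem, γ, hγ, not_lt.1 hc,
          a * B.y ^ m, B.R.mul_mem ha (B.R.pow_mem B.y_mem m), ?_⟩
        rw [pow_add]; ring
    | zero => exact ⟨a0.1 + p0, B.Γ.add_mem hγ0 hp0, by linarith, 0, B.R.zero_mem, a0.1, hγ0,
        le_rfl, 0, B.R.zero_mem, by ring⟩
    | add z z' _ _ hz hz' =>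
      obtain ⟨γ, hγ, h1, a, ha, t, ht, h2, b, hb, rfl⟩ := hz
      obtain ⟨γ', hγ', h1', a', ha', t', ht', h2', b', hb', rfl⟩ := hz'
      obtain ⟨c, hc, h3⟩ := B.ideal_add hγ hγ' ha ha'
      obtain ⟨d, hd, h4⟩ := B.ideal_add ht ht' hb hb'
      refine ⟨min γ γ', ?_, lt_min h1 h1', c, hc, min t t', ?_, (min_le_left _ _).trans h2, d, hd,
        ?_⟩
      · rcases min_choice γ γ' with h5 | h5 <;> rw [h5] <;> assumption
      · rcases min_choice t t' with h5 | h5 <;> rw [h5] <;> assumption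
      · linear_combination h3 + B.y ^ (a0.2 + 1) * h4
    | neg z _ hz =>
      obtain ⟨γ, hγ, h1, a, ha, t, ht, h2, b, hb, rfl⟩ := hz
      exact ⟨γ, hγ, h1, -a, B.R.neg_mem ha, t, ht, h2, -b, B.R.neg_mem hb, by ring⟩
  obtain ⟨γ', hγ', h1, a, ha, t, ht, h2, b, hb, h3⟩ := key _ hmem
  -- the other monomials
  have hoth : ∃ γ'' ∈ B.Γ, a0.1 < γ'' ∧ ∃ c ∈ B.R,
      ∑ a ∈ S.erase a0, ε a * (B.χ a.1 * B.y ^ a.2) = B.χ γ'' * c := by
    have h4 : Hi B a0.1 (∑ a ∈ S.erase a0, ε a * (B.χ a.1 * B.y ^ a.2)) := by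
      refine Finset.sum_induction _ (Hi B a0.1) (fun _ _ hx hy => hx.add hy)
        (RepAux.Hi.zero B hγ0) fun a ha' => ?_
      obtain ⟨hne, haS⟩ := Finset.mem_erase.1 ha'
      obtain ⟨hγa, hτa⟩ := hSΓ a haS
      refine ⟨a.1, hγa, ?_, ε a * B.y ^ a.2, B.R.mul_mem (hε a haS).1
        (B.R.pow_mem B.y_mem _), by ring⟩
      refine lt_of_le_of_ne (hmin a haS) fun h5 => hne ?_
      have h6 : (a.2 : ℝ) * β = a0.2 * β := by linarith
      have h7 := mul_right_cancel₀ hβ.ne' h6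
      exact Prod.ext h5.symm (by exact_mod_cast h7)
    exact h4
  obtain ⟨γ'', hγ'', h4, c, hc, h5⟩ := hoth
  rw [← Finset.add_sum_erase _ _ ha0, h5] at h3
  obtain ⟨e, he, h6⟩ := B.ideal_add hγ' hγ'' ha (B.R.neg_mem hc)
  have hminΓ : min γ' γ'' ∈ B.Γ := by
    rcases min_choice γ' γ'' with h7 | h7 <;> rw [h7] <;> assumption
  refine B.lemX0 h (hε a0 ha0) (B.R.neg_mem hb) (B.Γ.sub_mem hγ0 ht) (sub_nonneg.2 h2) a0.2
    ⟨min γ' γ'' - t, B.Γ.sub_mem hminΓ ht, ?_, e, he, ?_⟩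
  · linarith [lt_min h1 h4]
  · have ht0 := B.χ_ne t ht
    rw [B.χ_sub hγ0 ht, B.χ_sub hminΓ ht]
    have h8 : B.χ (min γ' γ'') * e = ε a0 * (B.χ a0.1 * B.y ^ a0.2) -
        B.χ t * (B.y ^ (a0.2 + 1) * b) := by
      linear_combination -h6 - h3
    rw [div_mul_eq_mul_div, h8]
    field_simp
    ring

end Pool.Agent.LUM
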