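import Pool.Agent.Lib.LUM.Cls
import Pool.Agent.Lib.LUM.LemX

/-! # Expansions with unit coefficients in a noetherian frame -/

set_option autoImplicit false
set_option linter.unusedSectionVars false

namespace Pool.Agent.LUM

open Pool.Agent.H15JM (RVal)
open Pool.Agent.LU1 (VPos LatData)
open Polynomial

universe u

variable {Λ Ω : Type u} [CommRing Λ] [IsDomain Λ] [IsDiscreteValuationRing Λ] [Field Ω]
  [Algebra Λ Ω] {ϖ : Λ} {v : RVal Ω} {r : ℕ}

/-! ### powers of the maximal ideal of a noetherian frame -/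

namespace NF

theorem InPow.sub {N : NF Λ v r} {M : ℕ} {e f : Ω} (he : N.InPow M e) (hf : N.InPow M f) :
    N.InPow M (e - f) := by
  obtain ⟨z, hz, rfl⟩ := he
  obtain ⟨w, hw, rfl⟩ := hf
  exact ⟨z - w, (N.m ^ M).sub_mem hz hw, rfl⟩

theorem InPow.mul_left {N : NF Λ v r} {M : ℕ} {e f : Ω} (hf : f ∈ N.R) (he : N.InPow M e) :
    N.InPow M (f * e) := by
  obtain ⟨z, hz, rfl⟩ := he
  exact ⟨⟨f, hf⟩ * z, (N.m ^ M).mul_mem_left _ hz, rfl⟩

theorem InPow.mono {N : NF Λ v r} {M M' : ℕ} (h : M ≤ M') {e : Ω} (he : N.InPow M' e) :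
    N.InPow M e := by
  obtain ⟨z, hz, rfl⟩ := he
  exact ⟨z, Ideal.pow_le_pow_right h hz, rfl⟩

theorem InPow.sum_of {N : NF Λ v r} {M : ℕ} {ι : Type*} (s : Finset ι) (e : ι → Ω)
    (he : ∀ i ∈ s, N.InPow M (e i)) : N.InPow M (∑ i ∈ s, e i) := by
  classical
  induction s using Finset.induction_on with
  | empty => simpa using InPow.zero
  | insert a s ha ih =>
    rw [Finset.sum_insert ha]
    exact (he a (Finset.mem_insert_self a s)).add
      (ih fun i hi => he i (Finset.mem_insert_of_mem hi))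

theorem InPow.mem {N : NF Λ v r} {M : ℕ} {e : Ω} (he : N.InPow M e) : e ∈ N.R := by
  obtain ⟨z, -, rfl⟩ := he
  exact z.2

theorem InPow.of_le {N N' : NF Λ v r} (hR : N.R ≤ N'.R) (hx : ∀ i, N'.x i = N.x i)
    (hy : N'.y = N.y) {M : ℕ} {e : Ω} (he : N.InPow M e) : N'.InPow M e := by
  obtain ⟨z, hz, rfl⟩ := he
  let φ : N.R →+* N'.R := (Subalgebra.inclusion hR : N.R →ₐ[Λ] N'.R)
  have h1 : N.m ≤ N'.m.comap φ := by
    rw [NF.m, Ideal.span_le]
    rintro w (⟨i, hw⟩ | hw)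
    · refine Ideal.subset_span (Or.inl ⟨i, ?_⟩)
      rw [hx]; exact hw
    · refine Ideal.subset_span (Or.inr ?_)
      change (w : Ω) = N'.y
      rw [hy]; exact hw
  have h2 : N.m ^ M ≤ (N'.m ^ M).comap φ :=
    (Ideal.pow_right_mono h1 M).trans (Ideal.le_comap_pow φ M)
  exact ⟨φ z, h2 hz, rfl⟩

/-- A monomial of degree at least `M` is in `m^M`. -/
theorem inPow_mon (N : NF Λ v r) (n : Fin r → ℕ) (l M : ℕ) (hM : M ≤ (∑ i, n i) + l) :
    N.InPow M ((∏ i, N.x i ^ n i) * N.y ^ l) := by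
  let X : Fin r → N.R := fun i => ⟨N.x i, N.x_mem i⟩
  let Y : N.R := ⟨N.y, N.y_mem⟩
  have hX : ∀ i, X i ∈ N.m := fun i => Ideal.subset_span (Or.inl ⟨i, rfl⟩)
  have hY : Y ∈ N.m := Ideal.subset_span (Or.inr rfl)
  have h1 : (∏ i, X i ^ n i) ∈ N.m ^ (∑ i, n i) := by
    rw [← Finset.prod_pow_eq_pow_sum]
    exact Ideal.prod_mem_prod fun i _ => Ideal.pow_mem_pow (hX i) _
  refine ⟨(∏ i, X i ^ n i) * Y ^ l, Ideal.pow_le_pow_right hM ?_, ?_⟩
  · rw [pow_add]
    exact Ideal.mul_mem_mul h1 (Ideal.pow_mem_pow hY _)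
  · push_cast
    rfl

/-- The exponents of the monomials. -/
abbrev Ex (r : ℕ) : Type := (Fin r → ℕ) × ℕ

/-- The monomial `x^n y^l`, as an element of the ring. -/
noncomputable def mo (N : NF Λ v r) (a : Ex r) : N.R :=
  (∏ i, (⟨N.x i, N.x_mem i⟩ : N.R) ^ a.1 i) * (⟨N.y, N.y_mem⟩ : N.R) ^ a.2

/-- The degree of a monomial. -/
def dg (a : Ex r) : ℕ := (∑ i, a.1 i) + a.2

theorem coe_mo (N : NF Λ v r) (a : Ex r) :
    (N.mo a : Ω) = (∏ i, N.x i ^ a.1 i) * N.y ^ a.2 := by
  unfold mo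
  push_cast
  rfl

/-- `m^M` is generated by the monomials of degree `M`. -/
theorem m_pow_le (N : NF Λ v r) (M : ℕ) : N.m ^ M ≤ Ideal.span (N.mo '' {a | dg a = M}) := by
  classical
  induction M with
  | zero =>
    intro z _
    have h1 : (1 : N.R) ∈ Ideal.span (N.mo '' {a | dg a = 0}) := by
      refine Ideal.subset_span ⟨(0, 0), ?_, ?_⟩
      · simp [dg]
      · simp [mo]
    have := Ideal.mul_mem_left _ z h1
    rwa [mul_one] at this
  | succ M ih =>
    rw [pow_succ']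
    refine Ideal.mul_le.2 fun a ha b hb => ?_
    have hb' := ih hb
    unfold NF.m at ha
    induction ha using Submodule.span_induction with
    | mem x hx =>
      -- multiplication by a parameter raises the degree by one
      have key : ∀ b ∈ Ideal.span (N.mo '' {a | dg a = M}),
          x * b ∈ Ideal.span (N.mo '' {a | dg a = M + 1}) := by
        intro b hb
        induction hb using Submodule.span_induction with
        | mem z hz =>
          obtain ⟨e, he, rfl⟩ := hz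
          rcases hx with ⟨i, hi⟩ | hi
          · refine Ideal.subset_span ⟨(Function.update e.1 i (e.1 i + 1), e.2), ?_, ?_⟩
            · have h1 : ∑ j, Function.update e.1 i (e.1 i + 1) j = (∑ j, e.1 j) + 1 := by
                rw [← Finset.add_sum_erase Finset.univ _ (Finset.mem_univ i),
                  ← Finset.add_sum_erase Finset.univ e.1 (Finset.mem_univ i)]
                rw [Function.update_self]
                have h2 : ∑ j ∈ Finset.univ.erase i, Function.update e.1 i (e.1 i + 1) j =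
                    ∑ j ∈ Finset.univ.erase i, e.1 j := Finset.sum_congr rfl fun j hj => by
                  rw [Function.update_of_ne (Finset.ne_of_mem_erase hj)]
                rw [h2]; ring
              show (∑ j, Function.update e.1 i (e.1 i + 1) j) + e.2 = M + 1
              rw [h1]
              have : (∑ j, e.1 j) + e.2 = M := he
              omega
            · apply Subtype.ext
              rw [coe_mo, Subalgebra.coe_mul, coe_mo, hi]
              have h1 : ∏ j, N.x j ^ (Function.update e.1 i (e.1 i + 1) j) =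
                  N.x i * ∏ j, N.x j ^ e.1 j := by
                rw [← Finset.mul_prod_erase Finset.univ _ (Finset.mem_univ i),
                  ← Finset.mul_prod_erase Finset.univ (fun j => N.x j ^ e.1 j)
                    (Finset.mem_univ i)]
                rw [Function.update_self]
                have h2 : ∏ j ∈ Finset.univ.erase i, N.x j ^ Function.update e.1 i (e.1 i + 1) j =
                    ∏ j ∈ Finset.univ.erase i, N.x j ^ e.1 j := Finset.prod_congr rfl fun j hj => by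
                  rw [Function.update_of_ne (Finset.ne_of_mem_erase hj)]
                rw [h2]; ring
              show (∏ j, N.x j ^ (Function.update e.1 i (e.1 i + 1) j)) * N.y ^ e.2 = _
              rw [h1]; ring
          · refine Ideal.subset_span ⟨(e.1, e.2 + 1), ?_, ?_⟩
            · show (∑ j, e.1 j) + (e.2 + 1) = M + 1
              have : (∑ j, e.1 j) + e.2 = M := he
              omega
            · apply Subtype.ext
              rw [coe_mo, Subalgebra.coe_mul, coe_mo, show (x : Ω) = N.y from hi]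
              ring
        | zero => rw [mul_zero]; exact Ideal.zero_mem _
        | add y z _ _ hy hz => rw [mul_add]; exact Ideal.add_mem _ hy hz
        | smul c z _ hz =>
          rw [smul_eq_mul, mul_left_comm]
          exact Ideal.mul_mem_left _ _ hz
      exact key b hb'
    | zero => rw [zero_mul]; exact Ideal.zero_mem _
    | add y z _ _ hy hz => rw [add_mul]; exact Ideal.add_mem _ hy hz
    | smul c z _ hz =>
      rw [smul_eq_mul, mul_assoc]
      exact Ideal.mul_mem_left _ _ hz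

/-- An element of `m^M` is a combination of monomials of degree `M` with unit coefficients, up
to `m^(M+1)`. -/
theorem exists_layer (N : NF Λ v r) (M : ℕ) {z : N.R} (hz : z ∈ N.m ^ M) :
    ∃ (s : Finset (Ex r)) (c : Ex r → N.R), (∀ a ∈ s, dg a = M) ∧
      (∀ a ∈ s, (c a : Ω) ≠ 0 ∧ v (c a : Ω) = 0) ∧ z - ∑ a ∈ s, c a * N.mo a ∈ N.m ^ (M + 1) := by
  classical
  have h1 := N.m_pow_le M hz
  rw [Ideal.span, Finsupp.mem_span_image_iff_linearCombination] at h1
  obtain ⟨l, hl, rfl⟩ := h1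
  rw [Finsupp.mem_supported] at hl
  refine ⟨l.support.filter fun a => (l a : Ω) ≠ 0 ∧ v (l a : Ω) = 0, l, ?_, ?_, ?_⟩
  · intro a ha
    exact hl (Finset.mem_of_mem_filter a ha)
  · intro a ha
    exact (Finset.mem_filter.1 ha).2
  · rw [Finsupp.linearCombination_apply, Finsupp.sum]
    simp only [smul_eq_mul]
    rw [← Finset.sum_filter_add_sum_filter_not l.support
      (fun a => (l a : Ω) ≠ 0 ∧ v (l a : Ω) = 0) (fun a => l a * N.mo a), add_sub_cancel_left]
    refine Ideal.sum_mem _ fun a ha => ?_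
    obtain ⟨ha1, ha2⟩ := Finset.mem_filter.1 ha
    have h2 : l a ∈ N.m := by
      apply N.mem_m_of_vpos
      intro h0
      refine lt_of_le_of_ne (N.nonneg _ (l a).2 h0) fun h3 => ha2 ⟨h0, h3.symm⟩
    rw [pow_succ']
    refine Ideal.mul_mem_mul h2 ?_
    obtain ⟨w, hw, hw'⟩ := N.inPow_mon a.1 a.2 M (le_of_eq (hl ha1).symm)
    have : w = N.mo a := Subtype.ext (by rw [hw', coe_mo])
    rwa [← this]

/-- Expansion with unit coefficients. -/
theorem expand_un (N : NF Λ v r) (z : N.R) (M : ℕ) :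
    ∃ (s : Finset (Ex r)) (c : Ex r → N.R), (∀ a ∈ s, dg a < M) ∧
      (∀ a ∈ s, (c a : Ω) ≠ 0 ∧ v (c a : Ω) = 0) ∧ z - ∑ a ∈ s, c a * N.mo a ∈ N.m ^ M := by
  classical
  induction M with
  | zero => exact ⟨∅, fun _ => 0, by simp, by simp, by simp⟩
  | succ M ih =>
    obtain ⟨s, c, h1, h2, h3⟩ := ih
    obtain ⟨s', c', h1', h2', h3'⟩ := N.exists_layer M h3
    have hdis : Disjoint s s' := by
      rw [Finset.disjoint_left]
      intro a ha ha'
      have := h1 a ha
      have := h1' a ha'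
      omega
    refine ⟨s ∪ s', fun a => if a ∈ s then c a else c' a, ?_, ?_, ?_⟩
    · intro a ha
      rcases Finset.mem_union.1 ha with ha | ha
      · exact Nat.lt_succ_of_lt (h1 a ha)
      · rw [h1' a ha]; exact Nat.lt_succ_self M
    · intro a ha
      by_cases has : a ∈ s
      · simp only [if_pos has]
        exact h2 a has
      · simp only [if_neg has]
        rcases Finset.mem_union.1 ha with ha | ha
        · exact absurd ha has
        · exact h2' a ha
    · rw [Finset.sum_union hdis]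
      have e1 : ∑ a ∈ s, (if a ∈ s then c a else c' a) * N.mo a = ∑ a ∈ s, c a * N.mo a :=
        Finset.sum_congr rfl fun a ha => by rw [if_pos ha]
      have e2 : ∑ a ∈ s', (if a ∈ s then c a else c' a) * N.mo a = ∑ a ∈ s', c' a * N.mo a :=
        Finset.sum_congr rfl fun a ha => by rw [if_neg (Finset.disjoint_right.1 hdis ha)]
      rw [e1, e2, ← sub_sub]
      exact h3'

end NF

/-! ### the group of the errors of value `≥ C` -/

namespace BF

/-- Finite sums of `a χ(γ) y^l`, `a ∈ R`, `l ≥ 0`, of level `γ + l β ≥ τ`. -/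
def UpE (B : BF ϖ v) (β τ : ℝ) : AddSubgroup Ω :=
  AddSubgroup.closure {z | ∃ a ∈ B.R, ∃ γ ∈ B.Γ, ∃ l : ℕ, τ ≤ γ + l * β ∧
    z = a * (B.χ γ * B.y ^ l)}

theorem upE_le_upG (B : BF ϖ v) {β τ τ' : ℝ} (h : τ < τ') : B.UpE β τ' ≤ B.UpG β τ := by
  refine AddSubgroup.closure_mono ?_
  rintro _ ⟨a, ha, γ, hγ, l, hle, rfl⟩
  exact ⟨a, ha, γ, hγ, l, lt_of_lt_of_le h hle, rfl⟩

theorem jw_le_upE (B : BF ϖ v) {W : ℝ} {f : Ω} (hf : f ∈ B.JW W) : f ∈ B.UpE (v B.y) W := by
  have hmul : ∀ a ∈ B.R, ∀ f ∈ B.UpE (v B.y) W, a * f ∈ B.UpE (v B.y) W := by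
    intro a ha f hf
    induction hf using AddSubgroup.closure_induction with
    | mem z hz =>
      obtain ⟨a', ha', γ, hγ, l, hle, rfl⟩ := hz
      exact AddSubgroup.subset_closure ⟨a * a', B.R.mul_mem ha ha', γ, hγ, l, hle, by ring⟩
    | zero => rw [mul_zero]; exact AddSubgroup.zero_mem _
    | add z w _ _ hz hw => rw [mul_add]; exact AddSubgroup.add_mem _ hz hw
    | neg z _ hz => rw [mul_neg]; exact AddSubgroup.neg_mem _ hz
  unfold JW at hf
  induction hf using Submodule.span_induction with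
  | mem x hx =>
    obtain ⟨γ, hγ, l, -, h1, rfl⟩ := hx
    exact AddSubgroup.subset_closure ⟨1, B.R.one_mem, γ, hγ, l, h1, by rw [one_mul]⟩
  | zero => exact AddSubgroup.zero_mem _
  | add x y _ _ hx hy => exact AddSubgroup.add_mem _ hx hy
  | smul a x _ hx =>
    rw [Algebra.smul_def]
    exact hmul a a.2 x hx

variable (B : BF ϖ v) (N : NF Λ v r) (u : Fin r → ℝ)

theorem mo_eq (hu : ∀ i, u i ∈ B.Γ) (hx : ∀ i, N.x i = B.χ (u i)) (hy : N.y = B.y)
    (a : NF.Ex r) : (∑ i, (a.1 i : ℝ) * u i) ∈ B.Γ ∧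
      (N.mo a : Ω) = B.χ (∑ i, (a.1 i : ℝ) * u i) * B.y ^ a.2 := by
  classical
  have key : ∀ s : Finset (Fin r), (∑ i ∈ s, (a.1 i : ℝ) * u i) ∈ B.Γ ∧
      B.χ (∑ i ∈ s, (a.1 i : ℝ) * u i) = ∏ i ∈ s, B.χ (u i) ^ a.1 i := by
    intro s
    induction s using Finset.induction_on with
    | empty => simp [B.χ_zero, B.Γ.zero_mem]
    | insert b s hb ih =>
      rw [Finset.sum_insert hb, Finset.prod_insert hb]
      have h1 : (a.1 b : ℝ) * u b ∈ B.Γ := by
        rw [← nsmul_eq_mul]; exact B.Γ.nsmul_mem (hu b) _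
      exact ⟨B.Γ.add_mem h1 ih.1, by rw [B.χ_add _ h1 _ ih.1, B.χ_nsmul (hu b), ih.2]⟩
  obtain ⟨h1, h2⟩ := key Finset.univ
  refine ⟨h1, ?_⟩
  rw [NF.coe_mo, h2, hy]
  simp only [hx]

/-- Different monomials have different exponents. -/
theorem ex_inj (hind : LinearIndependent ℚ u) {a b : NF.Ex r}
    (h1 : ∑ i, (a.1 i : ℝ) * u i = ∑ i, (b.1 i : ℝ) * u i) (h2 : a.2 = b.2) : a = b := by
  refine Prod.ext ?_ h2
  have h3 : ∑ i, ((a.1 i : ℚ) - (b.1 i : ℚ)) • u i = 0 := by
    have : ∀ i, ((a.1 i : ℚ) - (b.1 i : ℚ)) • u i = (a.1 i : ℝ) * u i - (b.1 i : ℝ) * u i := by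
      intro i
      rw [Rat.smul_def]
      push_cast
      ring
    rw [Finset.sum_congr rfl fun i _ => this i, Finset.sum_sub_distrib, h1, sub_self]
  have h4 := (Fintype.linearIndependent_iff.1 hind) _ h3
  funext i
  have h5 := h4 i
  rw [sub_eq_zero] at h5
  exact_mod_cast h5

/-- Lemma X with an index set. -/
theorem lemX' (h : Ctx0 ϖ v r) {β τ : ℝ} (hβ : 0 < β) {ι : Type*} (S : Finset ι)
    (hS : S.Nonempty) (g : ι → ℝ) (l : ι → ℕ)
    (hinj : ∀ i ∈ S, ∀ j ∈ S, g i = g j → l i = l j → i = j)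
    (hSΓ : ∀ i ∈ S, g i ∈ B.Γ ∧ g i + l i * β = τ) (ε : ι → Ω) (hε : ∀ i ∈ S, B.Un (ε i)) :
    (∑ i ∈ S, ε i * (B.χ (g i) * B.y ^ l i)) ∉ B.UpG β τ := by
  classical
  have hI : Set.InjOn (fun i => ((g i, l i) : ℝ × ℕ)) (S : Set ι) := by
    intro a ha b hb hab
    obtain ⟨h1, h2⟩ := Prod.mk.inj hab
    exact hinj a ha b hb h1 h2
  obtain ⟨i0, hi0⟩ := hS
  have : Nonempty ι := ⟨i0⟩
  set φ : ℝ × ℕ → ι := Function.invFunOn (fun i => ((g i, l i) : ℝ × ℕ)) S with hφd
  have hφ : ∀ a ∈ S, φ (g a, l a) = a := fun a ha => hI.leftInvOn_invFunOn ha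
  intro hmem
  refine B.lemX h hβ (τ := τ) (S.image fun i => ((g i, l i) : ℝ × ℕ))
    (Finset.Nonempty.image ⟨i0, hi0⟩ _) ?_ (fun b => ε (φ b)) ?_ ?_
  · intro b hb
    obtain ⟨a, ha, rfl⟩ := Finset.mem_image.1 hb
    exact hSΓ a ha
  · intro b hb
    obtain ⟨a, ha, rfl⟩ := Finset.mem_image.1 hb
    show B.Un (ε (φ (g a, l a)))
    rw [hφ a ha]
    exact hε a ha
  · rw [Finset.sum_image hI]
    have h2 : ∑ a ∈ S, ε (φ (g a, l a)) * (B.χ (g a) * B.y ^ l a) =
        ∑ i ∈ S, ε i * (B.χ (g i) * B.y ^ l i) :=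
      Finset.sum_congr rfl fun a ha => by rw [hφ a ha]
    show ∑ a ∈ S, ε (φ (g a, l a)) * (B.χ (g a) * B.y ^ l a) ∈ B.UpG β τ
    rw [h2]
    exact hmem

/-- A combination of monomials with unit coefficients that is an error of size `C` consists of
monomials of value at least `C`. -/
theorem ge_of_upE (h : Ctx0 ϖ v r) (hu : ∀ i, u i ∈ B.Γ) (hind : LinearIndependent ℚ u)
    (hx : ∀ i, N.x i = B.χ (u i)) (hy : N.y = B.y) (hR : N.R ≤ B.R) (s : Finset (NF.Ex r))
    (c : NF.Ex r → N.R) (hc : ∀ a ∈ s, (c a : Ω) ≠ 0 ∧ v (c a : Ω) = 0) {C : ℝ}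
    (hC : ((∑ a ∈ s, c a * N.mo a : N.R) : Ω) ∈ B.UpE (v B.y) C) :
    ∀ a ∈ s, C ≤ (∑ i, (a.1 i : ℝ) * u i) + a.2 * v B.y := by
  classical
  set w : NF.Ex r → ℝ := fun a => (∑ i, (a.1 i : ℝ) * u i) + a.2 * v B.y with hw
  by_contra hcon
  push Not at hcon
  obtain ⟨a1, ha1, hlt1⟩ := hcon
  obtain ⟨a0, ha0, hmin⟩ := Finset.exists_min_image s w ⟨a1, ha1⟩
  have hlt : w a0 < C := lt_of_le_of_lt (hmin a1 ha1) hlt1
  have hsum : ((∑ a ∈ s, c a * N.mo a : N.R) : Ω) = ∑ a ∈ s, (c a : Ω) * (N.mo a : Ω) := by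
    push_cast
    rfl
  rw [hsum, ← Finset.sum_filter_add_sum_filter_not s (fun a => w a = w a0)] at hC
  have hterm : ∀ a : NF.Ex r, (c a : Ω) * (N.mo a : Ω) =
      (c a : Ω) * (B.χ (∑ i, (a.1 i : ℝ) * u i) * B.y ^ a.2) := fun a => by
    rw [(B.mo_eq N u hu hx hy a).2]
  have hrest : ∑ a ∈ s.filter (fun a => ¬ w a = w a0), (c a : Ω) * (N.mo a : Ω) ∈
      B.UpG (v B.y) (w a0) := by
    refine AddSubgroup.sum_mem _ fun a ha => ?_
    obtain ⟨ha1, ha2⟩ := Finset.mem_filter.1 ha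
    rw [hterm a]
    exact AddSubgroup.subset_closure ⟨c a, hR (c a).2, _, (B.mo_eq N u hu hx hy a).1, a.2,
      lt_of_le_of_ne (hmin a ha1) (Ne.symm ha2), rfl⟩
  have h1 : ∑ a ∈ s.filter (fun a => w a = w a0), (c a : Ω) * (N.mo a : Ω) ∈
      B.UpG (v B.y) (w a0) :=
    (AddSubgroup.add_mem_cancel_right _ hrest).1 (B.upE_le_upG hlt hC)
  rw [Finset.sum_congr rfl fun a _ => hterm a] at h1
  exact B.lemX' h B.y_pos (τ := w a0) (s.filter fun a => w a = w a0)
    ⟨a0, Finset.mem_filter.2 ⟨ha0, rfl⟩⟩ (fun a => ∑ i, (a.1 i : ℝ) * u i) (fun a => a.2)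
    (fun a _ b _ h2 h3 => ex_inj u hind h2 h3)
    (fun a ha => ⟨(B.mo_eq N u hu hx hy a).1, (Finset.mem_filter.1 ha).2⟩)
    (fun a => (c a : Ω)) (fun a ha => ⟨hR (c a).2, hc a (Finset.mem_of_mem_filter a ha)⟩) h1

end BF

end Pool.Agent.LUM
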