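import Pool.Agent.Lib.LUM.Basic

/-! # T0-steps are extensions -/

set_option autoImplicit false
set_option linter.unusedSectionVars false

open Polynomial

namespace Pool.Agent.LUM

open Pool.Agent.H15JM (RVal)
open Pool.Agent.LU1 (VPos LatData)

universe u

variable {Λ Ω : Type u} [CommRing Λ] [IsDomain Λ] [IsDiscreteValuationRing Λ] [Field Ω]
  [Algebra Λ Ω] {ϖ : Λ} {v : RVal Ω} {r : ℕ}

theorem IsT0Step.ext {B B' : BF ϖ v} {b : ℝ} (h : IsT0Step B B' b) : Ext B B' := by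
  refine ⟨?_, fun γ hγ => by rw [h.Γ_eq]; exact hγ, fun γ hγ => ?_, fun f hf => ?_⟩
  · intro f hf
    rw [h.R_eq]
    exact le_locv _ (Algebra.subset_adjoin (Or.inl hf))
  · rw [h.χ_eq, div_self (B.χ_ne γ hγ)]
    exact BF.Un.one
  · have key : ∀ g ∈ Algebra.adjoin Λ ((B.R : Set Ω) ∪ {B.y / B.χ b}),
        ∃ a ∈ B.R, ∃ b ∈ B.R, b ≠ 0 ∧ g = a / b := by
      intro g hg
      induction hg using Algebra.adjoin_induction with
      | mem x hx =>
        rcases hx with hx | rfl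
        · exact ⟨x, hx, 1, B.R.one_mem, one_ne_zero, by rw [div_one]⟩
        · exact ⟨B.y, B.y_mem, B.χ b, B.χ_mem b h.b_mem h.b_pos.le, B.χ_ne b h.b_mem, rfl⟩
      | algebraMap c =>
        exact ⟨_, B.R.algebraMap_mem c, 1, B.R.one_mem, one_ne_zero, by rw [div_one]⟩
      | add x y _ _ hx hy =>
        obtain ⟨a, ha, b, hb, hb0, rfl⟩ := hx
        obtain ⟨c, hc, d, hd, hd0, rfl⟩ := hy
        exact ⟨a * d + b * c, B.R.add_mem (B.R.mul_mem ha hd) (B.R.mul_mem hb hc), b * d,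
          B.R.mul_mem hb hd, mul_ne_zero hb0 hd0, by rw [div_add_div _ _ hb0 hd0]⟩
      | mul x y _ _ hx hy =>
        obtain ⟨a, ha, b, hb, hb0, rfl⟩ := hx
        obtain ⟨c, hc, d, hd, hd0, rfl⟩ := hy
        exact ⟨a * c, B.R.mul_mem ha hc, b * d, B.R.mul_mem hb hd, mul_ne_zero hb0 hd0, by
          rw [div_mul_div_comm]⟩
    rw [h.R_eq] at hf
    obtain ⟨a, ha, b, hb, hb0, -, rfl⟩ := hf
    obtain ⟨a1, ha1, b1, hb1, hb10, rfl⟩ := key a ha
    obtain ⟨a2, ha2, b2, hb2, hb20, rfl⟩ := key b hb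
    have ha20 : a2 ≠ 0 := by rintro rfl; simp at hb0
    exact ⟨a1 * b2, B.R.mul_mem ha1 hb2, b1 * a2, B.R.mul_mem hb1 ha2, mul_ne_zero hb10 ha20, by
      rw [div_div_div_eq]⟩

end Pool.Agent.LUM
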