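import Pool.Agent.Lib.LUM.ML
import Pool.Agent.Lib.LUM.Exp
import Pool.Agent.Lib.LUM.T0

/-! # F1, F2: comparability of frames -/

set_option autoImplicit false
set_option linter.unusedSectionVars false

namespace Pool.Agent.LUM

open Pool.Agent.H15JM (RVal)
open Pool.Agent.LU1 (VPos LatData GoodBasis)
open Polynomial

universe u

variable {Λ Ω : Type u} [CommRing Λ] [IsDomain Λ] [IsDiscreteValuationRing Λ] [Field Ω]
  [Algebra Λ Ω] {ϖ : Λ} {v : RVal Ω} {r : ℕ}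

/-! ### the frame `(Γ, χ, y)` of `B` on the ring of `C` -/

theorem exists_switch (h : Ctx0 ϖ v r) (B C : BF ϖ v) (hE : Ext B C) (hΓ : ∀ γ ∈ C.Γ, γ ∈ B.Γ)
    (hy : C.Rep B.y 0 1) :
    ∃ C2 : BF ϖ v, C2.Γ = B.Γ ∧ C2.χ = B.χ ∧ C2.y = B.y ∧ C2.R = C.R := by
  classical
  obtain ⟨F, hF⟩ := C.fgen
  obtain ⟨G, hG⟩ := B.fg
  have hrat : ∀ γ ∈ B.Γ, C.Un (C.χ γ / B.χ γ) := fun γ hγ => by
    have h1 := (hE.χ_un γ hγ).inv
    rwa [inv_div] at h1
  let F' : Finset Ω := F ∪ (G.image fun u => C.χ u / B.χ u) ∪ (G.image fun u => B.χ u / C.χ u)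
  have hGB : ∀ u ∈ G, u ∈ B.Γ := fun u hu => by
    rw [← hG]; exact AddSubgroup.subset_closure hu
  have hFC : ∀ f ∈ F, f ∈ C.R := fun f hf => by
    rw [hF]; exact le_locv _ (Algebra.subset_adjoin (Or.inl hf))
  have hgen : C.R = locv v (Algebra.adjoin Λ
      ((F' : Set Ω) ∪ B.χ '' {γ | γ ∈ B.Γ ∧ 0 ≤ γ})) := by
    apply le_antisymm
    · rw [hF]
      apply locv_mono
      rw [Algebra.adjoin_le_iff]
      rintro f (hf | ⟨γ, ⟨hγ, h0⟩, rfl⟩)
      · exact Algebra.subset_adjoin (Or.inl (by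
          simp only [F', Finset.coe_union, Set.mem_union]
          exact Or.inl (Or.inl hf)))
      · have hγ' := hΓ γ hγ
        have key : ∀ δ ∈ B.Γ, C.χ δ / B.χ δ ∈ Algebra.adjoin Λ
            ((F' : Set Ω) ∪ B.χ '' {γ | γ ∈ B.Γ ∧ 0 ≤ γ}) ∧
            B.χ δ / C.χ δ ∈ Algebra.adjoin Λ
            ((F' : Set Ω) ∪ B.χ '' {γ | γ ∈ B.Γ ∧ 0 ≤ γ}) := by
          intro δ hδ
          have hδ' := hδ
          rw [← hG] at hδ'
          induction hδ' using AddSubgroup.closure_induction with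
          | mem x hx =>
            constructor
            · refine Algebra.subset_adjoin (Or.inl ?_)
              simp only [F', Finset.coe_union, Set.mem_union, Finset.coe_image]
              exact Or.inl (Or.inr ⟨x, hx, rfl⟩)
            · refine Algebra.subset_adjoin (Or.inl ?_)
              simp only [F', Finset.coe_union, Set.mem_union, Finset.coe_image]
              exact Or.inr ⟨x, hx, rfl⟩
          | zero =>
            rw [B.χ_zero, C.χ_zero, div_one]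
            exact ⟨one_mem _, one_mem _⟩
          | add x y hx hy ihx ihy =>
            rw [hG] at hx hy
            rw [B.χ_add x hx y hy, C.χ_add x (hE.Γ_le x hx) y (hE.Γ_le y hy),
              ← div_mul_div_comm, ← div_mul_div_comm]
            exact ⟨mul_mem (ihx hx).1 (ihy hy).1, mul_mem (ihx hx).2 (ihy hy).2⟩
          | neg x hx ihx =>
            rw [hG] at hx
            rw [B.χ_neg hx, C.χ_neg (hE.Γ_le x hx), inv_div_inv, inv_div_inv]
            exact ⟨(ihx hx).2, (ihx hx).1⟩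
        have h1 : C.χ γ = B.χ γ * (C.χ γ / B.χ γ) := by
          rw [mul_div_cancel₀ _ (B.χ_ne γ hγ')]
        rw [h1]
        exact mul_mem (Algebra.subset_adjoin (Or.inr ⟨γ, ⟨hγ', h0⟩, rfl⟩)) (key γ hγ').1
    · refine locv_le ?_ C.loc
      rw [Algebra.adjoin_le_iff]
      rintro f (hf | ⟨γ, ⟨hγ, h0⟩, rfl⟩)
      · simp only [F', Finset.coe_union, Set.mem_union, Finset.coe_image] at hf
        rcases hf with (hf | ⟨x, hx, rfl⟩) | ⟨x, hx, rfl⟩
        · exact hFC f hf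
        · exact (hrat x (hGB x hx)).1
        · exact (hE.χ_un x (hGB x hx)).1
      · exact hE.le (B.χ_mem γ hγ h0)
  have hgen2 : ∀ f ∈ C.R, VPos v f →
      ∃ γ ∈ B.Γ, 0 < γ ∧ ∃ a ∈ C.R, ∃ b ∈ C.R, f = B.χ γ * a + B.y * b := by
    intro f hf hv
    obtain ⟨γ, hγ, h0, a, ha, b, hb, hfe⟩ := C.gen f hf hv
    obtain ⟨-, w, hw, δ, hδ, hδ0, a', ha', hy'⟩ := hy
    rw [C.χ_zero, one_mul, pow_one] at hy'
    have h1 : C.y = w⁻¹ * (B.y - C.χ δ * a') := by
      rw [hy']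
      have := hw.2.1
      field_simp
      ring
    obtain ⟨c, hc, hc'⟩ := C.ideal_add hγ hδ ha (C.R.neg_mem (C.R.mul_mem (C.R.mul_mem hw.inv.1 ha') hb))
    have hm : min γ δ ∈ C.Γ := by
      rcases le_total γ δ with h2 | h2
      · rwa [min_eq_left h2]
      · rwa [min_eq_right h2]
    refine ⟨min γ δ, hΓ _ hm, lt_min h0 hδ0, (C.χ (min γ δ) / B.χ (min γ δ)) * c,
      C.R.mul_mem (hrat _ (hΓ _ hm)).1 hc, w⁻¹ * b, C.R.mul_mem hw.inv.1 hb, ?_⟩
    rw [← mul_assoc, mul_div_cancel₀ _ (B.χ_ne _ (hΓ _ hm)), ← hc', hfe, h1]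
    ring
  refine ⟨⟨B.Γ, B.fg, B.full, B.χ, B.χ_ne, B.χ_add, B.χ_val, B.y, B.y_ne, B.y_pos, C.R, C.nonneg,
    C.loc, fun γ h h0 => hE.le (B.χ_mem γ h h0), hE.le B.y_mem, ⟨F', hgen⟩, hgen2, C.alg, C.res,
    B.pi_mem, hE.le B.pi_un, ?_⟩, rfl, rfl, rfl, rfl⟩
  intro D γ hγ h0 a ha hD
  have hγC := hE.Γ_le γ hγ
  have h2 : C.Rep (B.y ^ D) ((D : ℝ) * 0) (D * 1) := hy.pow D
  have h3 := h2.ge_of_mem h hγC (C.R.mul_mem (hE.χ_un γ hγ).1 ha) (by
    rw [hD, ← mul_assoc, mul_div_cancel₀ _ (C.χ_ne γ hγC)])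
  rw [mul_zero] at h3
  linarith


/-! ### F1 -/

theorem BF.ev_mem_N (B : BF ϖ v) (N : NF Λ v r) (u : Fin r → ℝ) (hu : ∀ i, u i ∈ B.Γ)
    (hx : ∀ i, N.x i = B.χ (u i)) (hy : N.y = B.y) (P : (Lau Λ)[X])
    (hP : ∀ γ l, co P γ l ≠ 0 → ∃ n : Fin r → ℕ, γ = ∑ i, (n i : ℝ) * u i) :
    B.ev P ∈ N.R := by
  rw [B.ev_eq]
  refine N.R.sum_mem fun l hl => N.R.sum_mem fun γ hγ => ?_
  obtain ⟨n, hn⟩ := hP γ l (Finsupp.mem_support_iff.1 hγ)
  have h1 := (B.mo_eq N u hu hx hy (n, l)).2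
  simp only at h1
  rw [hn, mul_assoc, ← h1]
  exact N.R.mul_mem (N.R.algebraMap_mem _) (N.mo (n, l)).2

/-- F1. -/
theorem eql (h : Ctx0 ϖ v r) (B C : BF ϖ v) (hE : Ext B C) (hΓ : ∀ γ ∈ C.Γ, γ ∈ B.Γ)
    (hy : C.Rep B.y 0 1) : C.R ≤ B.R := by
  classical
  obtain ⟨C2, h1, h2, h3, h4⟩ := exists_switch h B C hE hΓ hy
  intro f hf
  obtain ⟨a, ha, b, hb, hb0, hfab⟩ := hE.frac f hf
  rw [← h4] at hf
  -- the noetherian frames
  obtain ⟨S1, G1, hS1, hG1, hT1, hN1⟩ := B.exists_NF h {a, b} (by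
    intro g hg
    rcases Finset.mem_insert.1 hg with rfl | hg
    · exact ha
    · rw [Finset.mem_singleton.1 hg]; exact hb)
  obtain ⟨S2, G2, hS2, hG2, hT2, hN2⟩ := C2.exists_NF h ({f} ∪ G1) (by
    intro g hg
    rcases Finset.mem_union.1 hg with hg | hg
    · rw [Finset.mem_singleton.1 hg]; exact hf
    · rw [h4]; exact hE.le (hG1 g hg))
  obtain ⟨u, hu⟩ := B.exists_basis h (S1 ∪ S2) (by
    intro γ hγ
    rcases Finset.mem_union.1 hγ with hγ | hγ
    · exact hS1 γ hγ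
    · rw [← h1]; exact hS2 γ hγ)
  have hu1 : GoodBasis B.Γ (S1 : Set ℝ) u :=
    ⟨hu.mem, hu.pos, hu.ind, hu.gen, fun γ hγ => hu.cone γ (by
      rw [Finset.coe_union]; exact Or.inl hγ)⟩
  have hu2 : GoodBasis C2.Γ (S2 : Set ℝ) u := by
    rw [h1]
    exact ⟨hu.mem, hu.pos, hu.ind, hu.gen, fun γ hγ => hu.cone γ (by
      rw [Finset.coe_union]; exact Or.inr hγ)⟩
  obtain ⟨N, hNx, hNy, hNR, hNle, hNT⟩ := hN1 u hu1
  obtain ⟨N', hN'x, hN'y, hN'R, hN'le, hN'T⟩ := hN2 u hu2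
  have hN'loc : ∀ g ∈ N'.R, g ≠ 0 → v g = 0 → g⁻¹ ∈ N'.R := by
    intro g hg
    rw [hN'R] at hg ⊢
    exact locv_inv hg
  have hNN' : N.R ≤ N'.R := by
    rw [hNR]
    refine locv_le ?_ hN'loc
    rw [Algebra.adjoin_le_iff]
    rintro g ((hg | ⟨i, rfl⟩) | rfl)
    · exact hN'T g (Finset.mem_union_right _ hg)
    · change N.x i ∈ N'.R
      rw [hNx, ← h2, ← hN'x]; exact N'.x_mem i
    · change B.y ∈ N'.R
      rw [← h3, ← hN'y]; exact N'.y_mem
  have hxx : ∀ i, N'.x i = N.x i := fun i => by rw [hN'x, hNx, h2]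
  have hyy : N'.y = N.y := by rw [hN'y, hNy, h3]
  have hfN' : f ∈ N'.R := hN'T f (Finset.mem_union_left _ (Finset.mem_singleton_self f))
  have haN : a ∈ N.R := hNT a (by simp)
  have hbN : b ∈ N.R := hNT b (by simp)
  have hev : ∀ P, C2.ev P = B.ev P := fun P => by unfold BF.ev; rw [h2, h3]
  -- a lower bound for the values of the parameters
  have hne : (Finset.univ : Finset (Fin r)).Nonempty := ⟨⟨0, h.rpos⟩, Finset.mem_univ _⟩
  obtain ⟨i0, -, hi0⟩ := Finset.exists_min_image Finset.univ u hne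
  set ε : ℝ := min (u i0) (v C2.y) with hε
  have hεpos : 0 < ε := lt_min (hu.pos i0) C2.y_pos
  have hεu : ∀ i, ε ≤ u i := fun i => (min_le_left _ _).trans (hi0 i (Finset.mem_univ i))
  have hεy : ε ≤ v C2.y := min_le_right _ _
  have huC : ∀ i, u i ∈ C2.Γ ∧ 0 < u i := fun i => ⟨by rw [h1]; exact hu.mem i, hu.pos i⟩
  -- an upper bound for the values of the parameters
  obtain ⟨L, hLu, hLy, hL⟩ : ∃ L : ℝ, (∀ i, u i ≤ L) ∧ v B.y ≤ L ∧ 0 < L := by
    refine ⟨(∑ i, u i) + v B.y, fun i => ?_, ?_, ?_⟩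
    · have := Finset.single_le_sum (f := u) (fun j _ => (hu.pos j).le) (Finset.mem_univ i)
      linarith [B.y_pos]
    · have := Finset.sum_nonneg (s := Finset.univ) (f := u) fun j _ => (hu.pos j).le
      linarith
    · have := Finset.sum_nonneg (s := Finset.univ) (f := u) fun j _ => (hu.pos j).le
      linarith [B.y_pos]
  have hdvd : ∃ z ∈ N.R, a = b * z := by
    refine N.krull a b haN hbN fun M => ?_
    obtain ⟨M', hM'⟩ := exists_nat_ge (M * L / ε)
    have hM'2 : (M : ℝ) * L ≤ M' * ε := by rwa [div_le_iff₀ hεpos] at hM'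
    have hup : ∀ e : Ω, N'.InPow M' e → e ∈ C2.UpE (v C2.y) (M * L) := fun e he =>
      C2.jw_le_upE (BF.JW_anti hM'2 (C2.inPow_jw N' u huC hN'x hN'y hN'le hεu hεy M' he))
    obtain ⟨P, hPn, hPΓ, hP0, hPe⟩ := NF.expand h C2 N' u huC hN'x hN'y f hfN' M'
    have hzN : C2.ev P ∈ N.R := by
      rw [hev]
      exact B.ev_mem_N N u hu.mem hNx hNy P hPn
    refine ⟨C2.ev P, hzN, ?_⟩
    have hgN : a - b * C2.ev P ∈ N.R := N.R.sub_mem haN (N.R.mul_mem hbN hzN)
    obtain ⟨s, c, -, hc, hs⟩ := N.expand_un ⟨_, hgN⟩ (max M M')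
    have h5 : N.InPow (max M M') ((a - b * C2.ev P) - ((∑ a ∈ s, c a * N.mo a : N.R) : Ω)) :=
      ⟨_, hs, rfl⟩
    have h6 : ((∑ a ∈ s, c a * N.mo a : N.R) : Ω) ∈ C2.UpE (v C2.y) (M * L) := by
      apply hup
      have h7 : ((∑ a ∈ s, c a * N.mo a : N.R) : Ω) = b * (f - C2.ev P) -
          ((a - b * C2.ev P) - ((∑ a ∈ s, c a * N.mo a : N.R) : Ω)) := by
        rw [hfab]
        field_simp
        ring
      rw [h7]
      exact (hPe.mul_left (hNN' hbN)).sub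
        (((h5.mono (le_max_right _ _))).of_le hNN' hxx hyy)
    have h8 := C2.ge_of_upE N u h (fun i => (huC i).1) hu.ind (fun i => by rw [hNx, h2])
      (by rw [hNy, h3]) (by rw [h4]; exact hNle.trans hE.le) s c hc h6
    have h9 : N.InPow M ((∑ a ∈ s, c a * N.mo a : N.R) : Ω) := by
      have h10 : ((∑ a ∈ s, c a * N.mo a : N.R) : Ω) = ∑ a ∈ s, (c a : Ω) * (N.mo a : Ω) := by
        push_cast
        rfl
      rw [h10]
      refine NF.InPow.sum_of _ _ fun e he => ?_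
      refine NF.InPow.mul_left (c e).2 ?_
      rw [NF.coe_mo]
      refine N.inPow_mon e.1 e.2 M ?_
      have h11 := h8 e he
      rw [h3] at h11
      have h12 : (∑ i, (e.1 i : ℝ) * u i) + e.2 * v B.y ≤ (((∑ i, e.1 i) + e.2 : ℕ) : ℝ) * L := by
        push_cast
        rw [add_mul, Finset.sum_mul]
        refine add_le_add (Finset.sum_le_sum fun i _ => ?_) ?_
        · exact mul_le_mul_of_nonneg_left (hLu i) (Nat.cast_nonneg _)
        · exact mul_le_mul_of_nonneg_left hLy (Nat.cast_nonneg _)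
      have h13 := le_of_mul_le_mul_right (h11.trans h12) hL
      exact_mod_cast h13
    have h12 : a - b * C2.ev P = (a - b * C2.ev P - ((∑ a ∈ s, c a * N.mo a : N.R) : Ω)) +
        ((∑ a ∈ s, c a * N.mo a : N.R) : Ω) := by ring
    rw [h12]
    exact (h5.mono (le_max_left _ _)).add h9
  obtain ⟨z, hz, hz'⟩ := hdvd
  have h13 : f = z := by
    rw [hfab, hz', mul_div_cancel_left₀ _ hb0]
  rw [h13]
  exact hNle hz

/-! ### F2 -/

/-- The values `(content, order)` in `C` of the elements of `B.R`. -/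
theorem rep_of_mem (h : Ctx0 ϖ v r) (B C : BF ϖ v) (hE : Ext B C) {κ : ℝ} {D : ℕ}
    (hκ0 : 0 ≤ κ) (hD : 1 ≤ D) (hy : C.Rep B.y κ D) {f : Ω} (hf : f ∈ B.R) (hf0 : f ≠ 0) :
    ∃ γ ∈ B.Γ, ∃ l : ℕ, C.Rep f (γ + l * κ) (l * D) := by
  classical
  have hχ : ∀ γ ∈ B.Γ, C.Rep (B.χ γ) γ 0 := fun γ hγ => by
    have h1 := BF.Mono.rep (hE.mono (BF.Mono.χ hγ))
    rwa [B.χ_val γ hγ] at h1
  have hun : ∀ w, B.Un w → C.Rep w 0 0 := fun w hw => by
    have h1 := BF.Mono.rep (BF.Mono.un (hw.ext hE))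
    rwa [hw.2.2] at h1
  rcases hκ0.lt_or_eq with hκ | hκ
  · -- `κ > 0`: expansion
    obtain ⟨κf, Df, -, hrf⟩ := C.rep_exists h (hE.le hf) hf0
    obtain ⟨S, G, hS, hG, hTG, hN⟩ := B.exists_NF h {f} (by
      intro g hg; rw [Finset.mem_singleton.1 hg]; exact hf)
    obtain ⟨u, hu⟩ := B.exists_basis h S hS
    obtain ⟨N, hNx, hNy, hNR, hNle, hNT⟩ := hN u hu
    have hκC : κ ∈ C.Γ := hy.1
    obtain ⟨ε, hε, hεu, hεy⟩ : ∃ ε : ℝ, (ε = κ ∨ ∃ i, ε = u i) ∧ (∀ i, ε ≤ u i) ∧ ε ≤ κ := by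
      obtain ⟨i, -, hi⟩ := Finset.exists_min_image Finset.univ u
        ⟨⟨0, h.rpos⟩, Finset.mem_univ _⟩
      rcases le_total (u i) κ with h1 | h1
      · exact ⟨u i, Or.inr ⟨i, rfl⟩, fun j => hi j (Finset.mem_univ j), h1⟩
      · exact ⟨κ, Or.inl rfl, fun j => h1.trans (hi j (Finset.mem_univ j)), le_rfl⟩
    have hεpos : 0 < ε := by
      rcases hε with rfl | ⟨i, rfl⟩
      · exact hκ
      · exact hu.pos i
    have hεC : ε ∈ C.Γ := by
      rcases hε with rfl | ⟨i, rfl⟩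
      · exact hκC
      · exact hE.Γ_le _ (hu.mem i)
    obtain ⟨M, hM⟩ := exists_nat_gt (κf / ε)
    have hM2 : κf < M * ε := by rwa [div_lt_iff₀ hεpos] at hM
    have hfN : f ∈ N.R := hNT f (by simp)
    obtain ⟨S, c, -, hc, hs⟩ := N.expand_un ⟨f, hfN⟩ M
    set g : Ω := ((∑ a ∈ S, c a * N.mo a : N.R) : Ω) with hg
    have hPe : N.InPow M (f - g) := ⟨_, hs, rfl⟩
    have hxd : ∀ i, ∃ a ∈ C.R, N.x i = C.χ ε * a := fun i => by
      have hm : C.Mono (B.χ (u i)) := hE.mono (BF.Mono.χ (hu.mem i))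
      refine ⟨N.x i / C.χ ε, ?_, by rw [mul_div_cancel₀ _ (C.χ_ne ε hεC)]⟩
      rw [hNx]
      refine (hm.div (BF.Mono.χ hεC)).mem ?_
      rw [v.map_div hm.1 (C.χ_ne ε hεC), C.χ_val ε hεC, B.χ_val _ (hu.mem i)]
      linarith [hεu i]
    have hyd : ∃ a ∈ C.R, N.y = C.χ ε * a := by
      obtain ⟨-, w, hw, δ, hδ, hδ0, a', ha', hy'⟩ := hy
      obtain ⟨e, he, h1⟩ := C.χ_dvd hκC hεC hεy
      refine ⟨e * (w * C.y ^ D + C.χ δ * a'), C.R.mul_mem he (C.R.add_mem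
        (C.R.mul_mem hw.1 (C.R.pow_mem C.y_mem D)) (C.R.mul_mem (C.χ_mem δ hδ hδ0.le) ha')), ?_⟩
      rw [hNy, hy', h1]; ring
    obtain ⟨a, ha, hea⟩ := N.inPow_dvd C.R (hNle.trans hE.le) (C.χ ε) hxd hyd M _ hPe
    rw [← C.χ_nsmul hεC] at hea
    have hMε : (M : ℝ) * ε ∈ C.Γ := by
      rw [← nsmul_eq_mul]; exact C.Γ.nsmul_mem hεC _
    -- `g` has the same content and order as `f`
    have hPrep : C.Rep g κf Df := by
      have h1 : g = f + C.χ (M * ε) * (-a) := by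
        rw [mul_neg, ← hea]; ring
      rw [h1]
      exact hrf.add_mem hMε hM2 (C.R.neg_mem ha)
    have hgsum : g = ∑ a ∈ S, (c a : Ω) * (N.mo a : Ω) := by
      rw [hg]
      push_cast
      rfl
    set γ' : NF.Ex r → ℝ := fun a => ∑ i, (a.1 i : ℝ) * u i with hγ'
    have hmo : ∀ a : NF.Ex r, γ' a ∈ B.Γ ∧ (N.mo a : Ω) = B.χ (γ' a) * B.y ^ a.2 :=
      fun a => B.mo_eq N u hu.mem hNx hNy a
    -- the lexicographic minimum over the monomials
    have key : ∀ s : Finset (NF.Ex r), s ⊆ S → s.Nonempty → ∃ a ∈ s,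
        C.Rep (∑ a ∈ s, (c a : Ω) * (N.mo a : Ω)) (γ' a + a.2 * κ) (a.2 * D) ∧
        ∀ b ∈ s, (γ' a + a.2 * κ < γ' b + b.2 * κ) ∨
          (γ' a + a.2 * κ = γ' b + b.2 * κ ∧ a.2 * D ≤ b.2 * D) := by
      intro s
      induction s using Finset.induction_on with
      | empty => rintro - ⟨x, hx⟩; exact absurd hx (Finset.notMem_empty x)
      | insert a s ha ih =>
        intro hsS _
        have hra : C.Rep ((c a : Ω) * (N.mo a : Ω)) (γ' a + a.2 * κ) (a.2 * D) := by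
          have hca : B.Un (c a) := ⟨hNle (c a).2, hc a (hsS (Finset.mem_insert_self a s))⟩
          have h1 := ((hun _ hca).mul (hχ (γ' a) (hmo a).1)).mul (hy.pow a.2)
          rw [(hmo a).2, ← mul_assoc]
          simpa using h1
        rw [Finset.sum_insert ha]
        rcases s.eq_empty_or_nonempty with rfl | hne
        · refine ⟨a, Finset.mem_insert_self _ _, by simpa using hra, fun b hb => ?_⟩
          rw [Finset.mem_insert] at hb
          rcases hb with rfl | hb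
          · exact Or.inr ⟨rfl, le_rfl⟩
          · exact absurd hb (Finset.notMem_empty b)
        · obtain ⟨b, hb, hrb, hmin⟩ := ih ((Finset.subset_insert a s).trans hsS) hne
          -- compare `a` and `b`
          have hab : (γ' a + a.2 * κ < γ' b + b.2 * κ ∨
              (γ' a + a.2 * κ = γ' b + b.2 * κ ∧ a.2 * D < b.2 * D)) ∨
              (γ' b + b.2 * κ < γ' a + a.2 * κ ∨
              (γ' b + b.2 * κ = γ' a + a.2 * κ ∧ b.2 * D < a.2 * D)) := by
            rcases lt_trichotomy (γ' a + a.2 * κ) (γ' b + b.2 * κ) with h1 | h1 | h1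
            · exact Or.inl (Or.inl h1)
            · rcases lt_trichotomy (a.2 * D) (b.2 * D) with h2 | h2 | h2
              · exact Or.inl (Or.inr ⟨h1, h2⟩)
              · exfalso
                have h3 : a.2 = b.2 := Nat.eq_of_mul_eq_mul_right (by omega) h2
                have h4 : γ' a = γ' b := by rw [h3] at h1; linarith
                exact ha ((BF.ex_inj u hu.ind h4 h3 : a = b) ▸ hb)
              · exact Or.inr (Or.inr ⟨h1.symm, h2⟩)
            · exact Or.inr (Or.inl h1)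
          rcases hab with hab | hab
          · refine ⟨a, Finset.mem_insert_self _ _, hra.add hrb hab, fun c hc => ?_⟩
            rcases Finset.mem_insert.1 hc with rfl | hc
            · exact Or.inr ⟨rfl, le_rfl⟩
            · rcases hab with h1 | ⟨h1, h2⟩
              · rcases hmin c hc with h3 | ⟨h3, h4⟩
                · exact Or.inl (h1.trans h3)
                · exact Or.inl (h3 ▸ h1)
              · rcases hmin c hc with h3 | ⟨h3, h4⟩
                · exact Or.inl (h1 ▸ h3)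
                · exact Or.inr ⟨h1.trans h3, h2.le.trans h4⟩
          · refine ⟨b, Finset.mem_insert_of_mem hb, ?_, fun c hc => ?_⟩
            · rw [add_comm]; exact hrb.add hra hab
            · rcases Finset.mem_insert.1 hc with rfl | hc
              · rcases hab with h1 | ⟨h1, h2⟩
                · exact Or.inl h1
                · exact Or.inr ⟨h1, h2.le⟩
              · exact hmin c hc
    have hne : S.Nonempty := by
      by_contra hcon
      rw [Finset.not_nonempty_iff_eq_empty] at hcon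
      have h1 : g = 0 := by rw [hgsum, hcon, Finset.sum_empty]
      exact BF.Rep.ne_zero h hPrep h1
    obtain ⟨a0, ha0, hra, -⟩ := key S (Finset.Subset.refl S) hne
    rw [← hgsum] at hra
    obtain ⟨h1, h2⟩ := BF.Rep.unique h hPrep hra
    refine ⟨γ' a0, (hmo a0).1, a0.2, ?_⟩
    rw [← h1, ← h2]
    exact hrf
  · -- `κ = 0`
    obtain ⟨g, d, -, hg, w, hw, δ, hδ, hδ0, a, ha, hfe⟩ := B.rep_exists h hf hf0
    refine ⟨g, hg, d, ?_⟩
    rw [← hκ, mul_zero, add_zero]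
    rw [← hκ] at hy
    have h1 : C.Rep (w * B.y ^ d) 0 (d * D) := by
      have := (hun w hw).mul (hy.pow d)
      simpa using this
    have h2 : ∃ a' ∈ C.R, B.χ δ * a = C.χ δ * a' := by
      refine ⟨(B.χ δ / C.χ δ) * a, C.R.mul_mem (hE.χ_un δ hδ).1 (hE.le ha), ?_⟩
      rw [← mul_assoc, mul_div_cancel₀ _ (C.χ_ne δ (hE.Γ_le δ hδ))]
    obtain ⟨a', ha', h3⟩ := h2
    have h4 := (hχ g hg).mul (h1.add_mem (hE.Γ_le δ hδ) hδ0 ha')
    rw [← h3, ← hfe] at h4
    simpa using h4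

/-- F2. -/
theorem cmp (h : Ctx0 ϖ v r) (B B' C : BF ϖ v) (hT : TStep B B') (hE : Ext B C) :
    C.R ≤ B'.R ∨ Ext B' C := by
  obtain ⟨κ, D, hκ0, hy⟩ := C.rep_exists h (hE.le B.y_mem) B.y_ne
  rcases Nat.eq_zero_or_pos D with rfl | hD
  · -- `D = 0`: `y` is a monomial of `C`
    right
    obtain ⟨-, hv, hmy⟩ := hy.val_zero
    obtain ⟨q, c, s, hT⟩ := hT
    have hβ : v B.y ∈ C.Γ := hmy.2.1
    have hw : C.Un (B.w q) := by
      have h1 : C.Mono (B.w q) := (hmy.pow q).div (hE.mono (BF.Mono.χ hT.q_mem))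
      exact ⟨h1.mem hT.v_w.ge, hT.w_ne, hT.v_w⟩
    have hΓ : ∀ γ ∈ B'.Γ, γ ∈ C.Γ := by
      intro γ' hγ'
      obtain ⟨γ, hγ, l, rfl⟩ := hT.mem_Γ' hγ'
      refine C.Γ.add_mem (hE.Γ_le γ hγ) ?_
      rw [← zsmul_eq_mul]; exact C.Γ.zsmul_mem hβ l
    have hχm : ∀ γ ∈ B'.Γ, C.Mono (B'.χ γ) := by
      intro γ' hγ'
      obtain ⟨γ, hγ, l, rfl⟩ := hT.mem_Γ' hγ'
      rw [hT.χ_eq γ hγ l]
      exact ((hE.mono (BF.Mono.χ hγ)).mul (hmy.zpow l)).mul (BF.Mono.un (hw.zpow _))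
    have hle : B'.R ≤ C.R := by
      rw [hT.R_eq]
      refine locv_le ?_ C.loc
      rw [Algebra.adjoin_le_iff]
      rintro f ((hf | ⟨γ, ⟨hγ, h0⟩, rfl⟩) | rfl)
      · exact hE.le hf
      · exact (hχm γ hγ).mem (by rw [B'.χ_val γ hγ]; exact h0)
      · exact hw.1
    refine ⟨hle, hΓ, fun γ hγ => ?_, fun f hf => ?_⟩
    · have h1 := (hχm γ hγ).2.2
      rwa [B'.χ_val γ hγ] at h1
    · obtain ⟨a, ha, b, hb, hb0, h1⟩ := hE.frac f hf
      exact ⟨a, hT.R_le ha, b, hT.R_le hb, hb0, h1⟩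
  · -- `D ≥ 1`
    left
    have hκβ : κ < v B.y := hy.val_pos h hD
    -- the value group of `C`
    have hH : ∀ f ∈ C.R, ∀ κf Df, C.Rep f κf Df →
        ∃ γ ∈ B.Γ, ∃ l : ℤ, κf = γ + l * κ ∧ (Df : ℤ) = l * D := by
      intro f hf κf Df hrf
      have hf0 := hrf.ne_zero h
      obtain ⟨a, ha, b, hb, hb0, hfab⟩ := hE.frac f hf
      have ha0 : a ≠ 0 := by rintro rfl; simp [hfab] at hf0
      obtain ⟨γ1, hγ1, l1, hra⟩ := rep_of_mem h B C hE hκ0 hD hy ha ha0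
      obtain ⟨γ2, hγ2, l2, hrb⟩ := rep_of_mem h B C hE hκ0 hD hy hb hb0
      have h1 : a = f * b := by rw [hfab, div_mul_cancel₀ _ hb0]
      rw [h1] at hra
      obtain ⟨h2, h3⟩ := BF.Rep.unique h hra (hrf.mul hrb)
      refine ⟨γ1 - γ2, B.Γ.sub_mem hγ1 hγ2, (l1 : ℤ) - l2, ?_, ?_⟩
      · push_cast
        linarith
      · have h4 : ((l1 * D : ℕ) : ℤ) = ((Df + l2 * D : ℕ) : ℤ) := by rw [h3]
        push_cast at h4
        linarith
    have hD1 : D = 1 ∧ κ ∈ B.Γ := by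
      obtain ⟨γ, hγ, l, h1, h2⟩ := hH C.y C.y_mem 0 1 C.rep_y
      have h3 : (D : ℤ) ∣ 1 := ⟨l, by push_cast at h2; linarith⟩
      have h4 : D = 1 := by
        have := Int.natAbs_dvd_natAbs.2 h3
        simpa using this
      subst h4
      have h5 : l = 1 := by push_cast at h2; linarith
      subst h5
      refine ⟨rfl, ?_⟩
      have h6 : κ = -γ := by push_cast at h1; linarith
      rw [h6]; exact B.Γ.neg_mem hγ
    obtain ⟨rfl, hκB⟩ := hD1
    have hΓ : ∀ γ ∈ C.Γ, γ ∈ B.Γ := by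
      have h0 : ∀ γ ∈ C.Γ, 0 ≤ γ → γ ∈ B.Γ := by
        intro γ hγ h0
        obtain ⟨γ', hγ', l, h1, h2⟩ := hH (C.χ γ) (C.χ_mem γ hγ h0) γ 0 (C.rep_χ hγ)
        have h3 : l = 0 := by push_cast at h2; linarith
        subst h3
        push_cast at h1
        rw [zero_mul, add_zero] at h1
        rw [h1]; exact hγ'
      intro γ hγ
      rcases le_total 0 γ with h1 | h1
      · exact h0 γ hγ h1
      · have := h0 (-γ) (C.Γ.neg_mem hγ) (neg_nonneg.2 h1)
        have h2 := B.Γ.neg_mem this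
        rwa [neg_neg] at h2
    rcases hκ0.lt_or_eq with hκ | hκ
    · -- a `T0`-step
      obtain ⟨B1, hB1⟩ := B.exists_t0step h hκB hκ hκβ
      have hyd : B1.y = B.y / B.χ κ := hB1.y_eq
      have hyrep : C.Rep B1.y 0 1 := by
        have h1 : C.Rep (B.χ κ)⁻¹ (-κ) 0 := by
          have h2 := BF.Mono.rep ((hE.mono (BF.Mono.χ hκB)).inv)
          rwa [v.map_inv (B.χ_ne κ hκB), B.χ_val κ hκB] at h2
        have h3 := hy.mul h1
        rw [← div_eq_mul_inv, ← hyd] at h3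
        simpa using h3
      have hE1 : Ext B1 C := by
        refine ⟨?_, fun γ hγ => hE.Γ_le γ (by rw [← hB1.Γ_eq]; exact hγ), fun γ hγ => ?_,
          fun f hf => ?_⟩
        · rw [hB1.R_eq]
          refine locv_le ?_ C.loc
          rw [Algebra.adjoin_le_iff]
          rintro f (hf | rfl)
          · exact hE.le hf
          · rw [← hyd]
            exact hyrep.mem le_rfl
        · rw [hB1.χ_eq]
          exact hE.χ_un γ (by rw [← hB1.Γ_eq]; exact hγ)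
        · obtain ⟨a, ha, b, hb, hb0, h1⟩ := hE.frac f hf
          exact ⟨a, hB1.ext.le ha, b, hB1.ext.le hb, hb0, h1⟩
      have h1 : C.R ≤ B1.R :=
        eql h B1 C hE1 (fun γ hγ => by rw [hB1.Γ_eq]; exact hΓ γ hγ) hyrep
      refine h1.trans ?_
      obtain ⟨q, c, s, hT⟩ := hT
      rw [hB1.R_eq]
      refine locv_le ?_ B'.loc
      rw [Algebra.adjoin_le_iff]
      rintro f (hf | rfl)
      · exact hT.R_le hf
      · have h2 : B'.Mono (B.y / B.χ κ) := hT.mono_y.div (hT.ext.mono (BF.Mono.χ hκB))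
        refine h2.mem ?_
        rw [v.map_div B.y_ne (B.χ_ne κ hκB), B.χ_val κ hκB]
        linarith
    · rw [← hκ] at hy
      exact (eql h B C hE hΓ hy).trans hT.ext.le

/-- F2 for modified T-steps. -/
theorem cmp_mstep (h : Ctx0 ϖ v r) (B B' C : BF ϖ v) (hT : MStep B B') (hE : Ext B C) :
    C.R ≤ B'.R ∨ Ext B' C := by
  obtain ⟨q, c, s, B1, M, h1, -, h2⟩ := hT
  rcases cmp h B B1 C ⟨q, c, s, h1⟩ hE with h3 | h3
  · left
    rw [h2.R_eq]
    exact h3
  · right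
    refine ⟨by rw [h2.R_eq]; exact h3.le, fun γ hγ => h3.Γ_le γ (by rwa [← h2.Γ_eq]),
      fun γ hγ => ?_, fun f hf => ?_⟩
    · rw [h2.χ_eq]
      exact h3.χ_un γ (by rwa [← h2.Γ_eq])
    · rw [h2.R_eq]
      exact h3.frac f hf

theorem Cls.cmp_reach (h : Ctx0 ϖ v r) (K : Cls ϖ v) (B B' C : BF ϖ v) (hT : K.Reach B B')
    (hE : Ext B C) : C.R ≤ B'.R ∨ Ext B' C := by
  induction hT with
  | refl => exact Or.inr hE
  | tail _ h2 ih =>
    rcases ih with h3 | h3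
    · exact Or.inl (h3.trans (K.mstep _ _ h2).ext.le)
    · exact cmp_mstep h _ _ C (K.mstep _ _ h2) h3

theorem cmp_reach (h : Ctx0 ϖ v r) (B B' C : BF ϖ v) (hT : Reach B B') (hE : Ext B C) :
    C.R ≤ B'.R ∨ Ext B' C := by
  induction hT with
  | refl => exact Or.inr hE
  | tail _ h2 ih =>
    rcases ih with h3 | h3
    · exact Or.inl (h3.trans h2.ext.le)
    · exact cmp h _ _ C h2 h3

end Pool.Agent.LUM
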