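import Pool.Agent.Lib.LUM.Base

/-! # G0: coordinates with independent values -/

set_option autoImplicit false
set_option linter.unusedSectionVars false

open Polynomial

namespace Pool.Agent.LUM

open Pool.Agent.H15JM (RVal)
open Pool.Agent.LU1 (VPos sum_distinct comm_value)
open Pool.Agent.LU1.BaseG0 (ph ph_apply ph_inj)

universe u

variable {Λ Q Ω : Type u} [CommRing Λ] [IsDomain Λ] [IsDiscreteValuationRing Λ] [Field Ω]
  [Algebra Λ Ω] [Field Q] [Algebra Λ Q] [IsFractionRing Λ Q] [Algebra Q Ω]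
  [IsScalarTower Λ Q Ω] {ϖ : Λ} {v : RVal Ω} {r : ℕ}

/-- The values of the constants. -/
theorem val_const (h : Ctx0 ϖ v r) {c : Λ} (hc : c ≠ 0) :
    ∃ n : ℕ, v (algebraMap Λ Ω c) = n * v (algebraMap Λ Ω ϖ) := by
  obtain ⟨n, hn⟩ := IsDiscreteValuationRing.associated_pow_irreducible hc h.irr
  obtain ⟨u, hu⟩ := hn.symm
  refine ⟨n, ?_⟩
  have h1 := h.triv u.isUnit
  rw [← hu, map_mul, map_pow, v.map_mul (pow_ne_zero _ h.pi_ne) h1.1, v.map_pow h.pi_ne, h1.2,
    add_zero]

theorem fracIs_adjoin (h : Ctx0 ϖ v r) (S : Set Ω) :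
    FracIs (Algebra.adjoin Λ S) (IntermediateField.adjoin Q S) := by
  constructor
  · intro f hf
    have h1 : Algebra.adjoin Λ S ≤
        (IntermediateField.adjoin Q S).toSubalgebra.restrictScalars Λ := by
      refine Algebra.adjoin_le ?_
      intro f hf
      exact IntermediateField.subset_adjoin Q S hf
    exact h1 hf
  · intro g hg
    induction hg using IntermediateField.adjoin_induction with
    | mem g hg => exact ⟨g, Algebra.subset_adjoin hg, 1, one_mem _, one_ne_zero, by
        rw [div_one]⟩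
    | algebraMap c =>
      obtain ⟨a, b, hb, rfl⟩ := IsFractionRing.div_surjective (A := Λ) c
      refine ⟨algebraMap Λ Ω a, Subalgebra.algebraMap_mem _ a, algebraMap Λ Ω b,
        Subalgebra.algebraMap_mem _ b, h.ne (nonZeroDivisors.ne_zero hb), ?_⟩
      rw [map_div₀, ← IsScalarTower.algebraMap_apply, ← IsScalarTower.algebraMap_apply]
    | add f g _ _ hf hg =>
      obtain ⟨a, ha, b, hb, hb0, rfl⟩ := hf
      obtain ⟨c, hc, d, hd, hd0, rfl⟩ := hg
      exact ⟨a * d + b * c, add_mem (mul_mem ha hd) (mul_mem hb hc), b * d, mul_mem hb hd,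
        mul_ne_zero hb0 hd0, div_add_div _ _ hb0 hd0⟩
    | inv f _ hf =>
      obtain ⟨a, ha, b, hb, hb0, rfl⟩ := hf
      by_cases ha0 : a = 0
      · exact ⟨0, zero_mem _, 1, one_mem _, one_ne_zero, by rw [ha0]; simp⟩
      · exact ⟨b, hb, a, ha, ha0, by rw [inv_div]⟩
    | mul f g _ _ hf hg =>
      obtain ⟨a, ha, b, hb, hb0, rfl⟩ := hf
      obtain ⟨c, hc, d, hd, hd0, rfl⟩ := hg
      exact ⟨a * c, mul_mem ha hc, b * d, mul_mem hb hd,
        mul_ne_zero hb0 hd0, div_mul_div_comm _ _ _ _⟩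

/-- Elements with independent values, one of them `ϖ`, are algebraically independent. -/
theorem algInd (h : Ctx0 ϖ v r) {x : Fin r → Ω} (hx : ∀ i, x i ≠ 0)
    (hind : LinearIndependent ℚ fun i => v (x i)) (i₀ : Fin r)
    (hi₀ : x i₀ = algebraMap Λ Ω ϖ) :
    AlgebraicIndependent Λ (fun i : {i : Fin r // i ≠ i₀} => x i) := by
  classical
  rw [algebraicIndependent_iff]
  intro p hp
  by_contra hp0
  -- the exponents
  choose N hN using fun c : {c : Λ // c ≠ 0} => val_const (Λ := Λ) h c.2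
  let E : ({i : Fin r // i ≠ i₀} →₀ ℕ) → Fin r → ℤ := fun n i =>
    if hi : i = i₀ then (if hc : p.coeff n = 0 then 0 else (N ⟨p.coeff n, hc⟩ : ℤ))
    else (n ⟨i, hi⟩ : ℤ)
  let f : ({i : Fin r // i ≠ i₀} →₀ ℕ) → Ω := fun n =>
    algebraMap Λ Ω (p.coeff n) * ∏ i : {i : Fin r // i ≠ i₀}, x i ^ n i
  have hprod : ∀ n : {i : Fin r // i ≠ i₀} →₀ ℕ,
      (∏ i : {i : Fin r // i ≠ i₀}, x i ^ n i) ≠ 0 ∧
      v (∏ i : {i : Fin r // i ≠ i₀}, x i ^ n i) =
        ∑ i : {i : Fin r // i ≠ i₀}, (n i : ℝ) * v (x i) := by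
    intro n
    refine ⟨Finset.prod_ne_zero_iff.2 fun i _ => pow_ne_zero _ (hx i), ?_⟩
    rw [v.map_prod Finset.univ (fun i : {i : Fin r // i ≠ i₀} => x i ^ n i)
      fun i _ => pow_ne_zero _ (hx i)]
    exact Finset.sum_congr rfl fun i _ => v.map_pow (hx i) _
  have hf0 : ∀ n ∈ p.support, f n ≠ 0 := fun n hn =>
    mul_ne_zero (h.ne (MvPolynomial.mem_support_iff.1 hn)) (hprod n).1
  have hfv : ∀ n ∈ p.support, v (f n) = ph v x (E n) := by
    intro n hn
    have hc := MvPolynomial.mem_support_iff.1 hn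
    change v (algebraMap Λ Ω (p.coeff n) * _) = _
    rw [v.map_mul (h.ne hc) (hprod n).1, (hprod n).2, ph_apply,
      ← Finset.add_sum_erase _ _ (Finset.mem_univ i₀)]
    congr 1
    · rw [hN ⟨p.coeff n, hc⟩, hi₀]
      simp only [E, dif_pos, dif_neg hc]
      push_cast
      rfl
    · symm
      have h1 : ∀ i ∈ Finset.univ.erase i₀, (E n i : ℝ) * v (x i) =
          if hi : i ≠ i₀ then (n ⟨i, hi⟩ : ℝ) * v (x i) else 0 := by
        intro i hi
        have hi' : i ≠ i₀ := Finset.ne_of_mem_erase hi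
        rw [dif_pos hi']
        simp only [E, dif_neg hi']
        push_cast
        rfl
      rw [Finset.sum_congr rfl h1]
      refine Finset.sum_bij' (fun i hi => ⟨i, Finset.ne_of_mem_erase hi⟩) (fun i _ => (i : Fin r))
        ?_ ?_ ?_ ?_ ?_
      · intro i _; exact Finset.mem_univ _
      · intro i _; exact Finset.mem_erase.2 ⟨i.2, Finset.mem_univ _⟩
      · intro i _; rfl
      · intro i _; rfl
      · intro i hi
        rw [dif_pos (Finset.ne_of_mem_erase hi)]
  have hsum : ∑ n ∈ p.support, f n = 0 := by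
    rw [MvPolynomial.aeval_def, MvPolynomial.eval₂_eq'] at hp
    exact hp
  refine (sum_distinct (v := v) p.support ?_ f hf0 ?_).1 hsum
  · exact MvPolynomial.support_nonempty.2 hp0
  · intro n hn m hm hnm
    rw [hfv n hn, hfv m hm] at hnm
    have h1 := ph_inj hind hnm
    ext i
    have h2 := congrFun h1 i
    simp only [E, dif_neg i.2] at h2
    exact_mod_cast h2

/-- Elements of `K` with independent positive values, one of them `ϖ`. -/
theorem exists_x (h : Ctx0 ϖ v r) (K : IntermediateField Q Ω)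
    (halg : ∀ g : Ω, IsAlgebraic K g) :
    ∃ (x : Fin r → Ω) (i₀ : Fin r), (∀ i, x i ∈ K) ∧ (∀ i, x i ≠ 0) ∧ (∀ i, 0 < v (x i)) ∧
      LinearIndependent ℚ (fun i => v (x i)) ∧ x i₀ = algebraMap Λ Ω ϖ := by
  classical
  obtain ⟨X, hX0, hXi, -⟩ := h.rank
  choose f hf0 m hm hfv using fun i => comm_value (v := v) K (X i) (hX0 i) (halg _)
  have hu : ∀ i, ((m i : ℕ) : ℚ) ≠ 0 := fun i => by exact_mod_cast (hm i).ne'
  have hfi : LinearIndependent ℚ fun i => v (f i : Ω) := by
    have h2 := hXi.units_smul (fun i => Units.mk0 _ (hu i))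
    have h3 : (fun i => v (f i : Ω)) = (fun i => Units.mk0 _ (hu i)) • (fun i => v (X i)) := by
      funext i
      rw [hfv i, Pi.smul_apply', Units.smul_def, Units.val_mk0, Rat.smul_def]
      push_cast
      ring
    rw [h3]
    exact h2
  obtain ⟨Y, -, hYi, hYs⟩ := h.rank
  have hle : Submodule.span ℚ (Set.range fun i => v (f i : Ω)) ≤
      Submodule.span ℚ (Set.range fun i => v (Y i)) := by
    rw [Submodule.span_le]
    rintro _ ⟨i, rfl⟩
    exact hYs _ (hf0 i)
  have hfin : FiniteDimensional ℚ (Submodule.span ℚ (Set.range fun i => v (Y i))) :=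
    FiniteDimensional.span_of_finite ℚ (Set.finite_range _)
  have heq := Submodule.eq_of_le_of_finrank_eq hle (by
    rw [finrank_span_eq_card hfi, finrank_span_eq_card hYi])
  have hmem : v (algebraMap Λ Ω ϖ) ∈ Submodule.span ℚ (Set.range fun i => v (f i : Ω)) := by
    rw [heq]; exact hYs _ h.pi_ne
  obtain ⟨c, hc⟩ := (Submodule.mem_span_range_iff_exists_fun ℚ).1 hmem
  obtain ⟨i₀, hi₀⟩ : ∃ i₀, c i₀ ≠ 0 := by
    by_contra hcon
    push Not at hcon
    rw [Finset.sum_eq_zero fun i _ => by rw [hcon i, zero_smul]] at hc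
    exact h.pos.ne hc
  -- the exchange
  let x1 : Fin r → Ω := Function.update (fun i => (f i : Ω)) i₀ (algebraMap Λ Ω ϖ)
  have hx1 : x1 i₀ = algebraMap Λ Ω ϖ := Function.update_self _ _ _
  have hx1' : ∀ i, i ≠ i₀ → x1 i = f i := fun i hi => Function.update_of_ne hi _ _
  have hx10 : ∀ i, x1 i ≠ 0 := by
    intro i
    by_cases hi : i = i₀
    · rw [hi, hx1]; exact h.pi_ne
    · rw [hx1' i hi]; exact hf0 i
  have hπK : algebraMap Λ Ω ϖ ∈ K := by
    rw [IsScalarTower.algebraMap_apply Λ Q Ω]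
    exact K.algebraMap_mem _
  have hx1K : ∀ i, x1 i ∈ K := by
    intro i
    by_cases hi : i = i₀
    · rw [hi, hx1]; exact hπK
    · rw [hx1' i hi]; exact (f i).2
  have hx1i : LinearIndependent ℚ fun i => v (x1 i) := by
    rw [Fintype.linearIndependent_iff] at hfi ⊢
    intro d hd
    have h1 : ∑ i, (d i * (if i = i₀ then 0 else 1) + d i₀ * c i) • v (f i : Ω) = 0 := by
      have h2 : ∑ i, (d i * (if i = i₀ then 0 else 1) + d i₀ * c i) • v (f i : Ω) =
          ∑ i, (d i * (if i = i₀ then 0 else 1)) • v (f i : Ω) +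
            d i₀ • ∑ i, c i • v (f i : Ω) := by
        rw [Finset.smul_sum, ← Finset.sum_add_distrib]
        exact Finset.sum_congr rfl fun i _ => by rw [add_smul, mul_smul (d i₀)]
      rw [h2, hc, ← hd, ← Finset.add_sum_erase _ _ (Finset.mem_univ i₀),
        ← Finset.add_sum_erase (a := i₀) Finset.univ (fun i => d i • v (x1 i))
          (Finset.mem_univ i₀), if_pos rfl, mul_zero, zero_smul, zero_add, hx1, add_comm]
      congr 1
      refine Finset.sum_congr rfl fun i hi => ?_
      rw [if_neg (Finset.ne_of_mem_erase hi), mul_one, hx1' i (Finset.ne_of_mem_erase hi)]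
    have h2 := hfi _ h1
    have h3 : d i₀ = 0 := by
      have h4 := h2 i₀
      rw [if_pos rfl, mul_zero, zero_add] at h4
      exact (mul_eq_zero.1 h4).resolve_right hi₀
    intro i
    by_cases hi : i = i₀
    · rw [hi, h3]
    · have h4 := h2 i
      rwa [if_neg hi, mul_one, h3, zero_mul, add_zero] at h4
  -- the signs
  have hv0 : ∀ i, v (x1 i) ≠ 0 := fun i => hx1i.ne_zero i
  let x2 : Fin r → Ω := fun i => if 0 < v (x1 i) then x1 i else (x1 i)⁻¹
  have hx2v : ∀ i, v (x2 i) = (if 0 < v (x1 i) then (1 : ℚˣ) else -1) • v (x1 i) := by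
    intro i
    simp only [x2]
    split_ifs
    · rw [one_smul]
    · rw [v.map_inv (hx10 i), Units.smul_def, Units.val_neg, Units.val_one, neg_smul, one_smul]
  refine ⟨x2, i₀, fun i => ?_, fun i => ?_, fun i => ?_, ?_, ?_⟩
  · simp only [x2]
    split_ifs
    · exact hx1K i
    · exact inv_mem (hx1K i)
  · simp only [x2]
    split_ifs
    · exact hx10 i
    · exact inv_ne_zero (hx10 i)
  · simp only [x2]
    split_ifs with h1
    · exact h1
    · rw [v.map_inv (hx10 i)]
      have := lt_of_le_of_ne (not_lt.1 h1) (hv0 i)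
      linarith
  · have h2 := hx1i.units_smul (fun i => if 0 < v (x1 i) then (1 : ℚˣ) else -1)
    have h3 : (fun i => v (x2 i)) = (fun i => if 0 < v (x1 i) then (1 : ℚˣ) else -1) •
        (fun i => v (x1 i)) := by
      funext i
      rw [hx2v i]
      rfl
    rw [h3]
    exact h2
  · simp only [x2]
    rw [if_pos (by rw [hx1]; exact h.pos), hx1]

/-- Coordinates. -/
theorem exists_coord (h : Ctx0 ϖ v r) (K : IntermediateField Q Ω)
    (halg : ∀ g : Ω, IsAlgebraic K g) :
    ∃ (x : Fin r → Ω) (i₀ : Fin r) (y : Ω), (∀ i, x i ∈ K) ∧ y ∈ K ∧ (∀ i, x i ≠ 0) ∧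
      (∀ i, 0 < v (x i)) ∧ LinearIndependent ℚ (fun i => v (x i)) ∧
      x i₀ = algebraMap Λ Ω ϖ ∧ y ≠ 0 ∧ 0 < v y ∧
      Transcendental (IntermediateField.adjoin Q (Set.range x)) y ∧
      ∀ g : Ω, IsAlgebraic (IntermediateField.adjoin Q (Set.range x ∪ {y})) g := by
  classical
  obtain ⟨x, i₀, hxK, hx0, hxp, hxi, hi₀⟩ := exists_x h K halg
  have hind := algInd h hx0 hxi i₀ hi₀
  have hfaith : FaithfulSMul Λ Ω := (faithfulSMul_iff_algebraMap_injective Λ Ω).2 h.inj
  have hcard : Cardinal.mk {i : Fin r // i ≠ i₀} = ((r - 1 : ℕ) : Cardinal) := by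
    rw [Cardinal.mk_fintype, Fintype.card_subtype_compl, Fintype.card_fin,
      Fintype.card_subtype_eq]
  have hrpos := h.rpos
  -- the field of the `x i`
  have hE1 : IntermediateField.adjoin Q (Set.range x) =
      IntermediateField.adjoin Q (Set.range fun i : {i : Fin r // i ≠ i₀} => x i) := by
    apply le_antisymm
    · rw [IntermediateField.adjoin_le_iff]
      rintro _ ⟨i, rfl⟩
      by_cases hi : i = i₀
      · rw [hi, hi₀, IsScalarTower.algebraMap_apply Λ Q Ω]
        exact IntermediateField.algebraMap_mem _ _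
      · exact IntermediateField.subset_adjoin _ _ ⟨⟨i, hi⟩, rfl⟩
    · refine IntermediateField.adjoin.mono _ _ _ ?_
      rintro _ ⟨i, rfl⟩
      exact ⟨i, rfl⟩
  have hE1K : IntermediateField.adjoin Q (Set.range x) ≤ K := by
    rw [IntermediateField.adjoin_le_iff]
    rintro _ ⟨i, rfl⟩
    exact hxK i
  -- a transcendental element
  obtain ⟨y0, hy0K, hy0⟩ : ∃ y ∈ K, Transcendental (IntermediateField.adjoin Q (Set.range x)) y := by
    by_contra hcon
    push Not at hcon
    have h1 : ∀ g : Ω, IsAlgebraic (IntermediateField.adjoin Q (Set.range x)) g := by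
      have hK : Algebra.IsAlgebraic (IntermediateField.adjoin Q (Set.range x))
          (IntermediateField.extendScalars hE1K) := by
        refine ⟨fun g => ?_⟩
        have := hcon g g.2
        unfold Transcendental at this
        rw [not_not] at this
        exact (isAlgebraic_algebraMap_iff (algebraMap (IntermediateField.extendScalars hE1K)
          Ω).injective).1 this
      have hK' : Algebra.IsAlgebraic (IntermediateField.extendScalars hE1K) Ω := by
        refine ⟨fun g => ?_⟩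
        exact halg g
      intro g
      exact (Algebra.IsAlgebraic.trans (IntermediateField.adjoin Q (Set.range x))
        (IntermediateField.extendScalars hE1K) Ω).isAlgebraic g
    have h2 : Algebra.IsAlgebraic
        (Algebra.adjoin Λ (Set.range fun i : {i : Fin r // i ≠ i₀} => x i)) Ω := by
      refine ⟨fun g => ?_⟩
      rw [SigF0.alg_iff (fracIs_adjoin (Q := Q) h _) g, ← hE1]
      exact h1 g
    have h3 := hind.isTranscendenceBasis_iff_isAlgebraic.2 h2
    have h4 := h3.lift_cardinalMk_eq_trdeg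
    rw [h.trdeg, hcard, Cardinal.lift_natCast, Cardinal.lift_natCast] at h4
    have : r - 1 = r := by exact_mod_cast h4
    omega
  have hy00 : y0 ≠ 0 := by
    rintro rfl
    exact hy0 (isAlgebraic_zero)
  -- positive value
  obtain ⟨n, hn⟩ := Archimedean.arch (1 - v y0) h.pos
  have hπQ : algebraMap Λ Ω ϖ = algebraMap Q Ω (algebraMap Λ Q ϖ) :=
    IsScalarTower.algebraMap_apply Λ Q Ω ϖ
  let y : Ω := algebraMap Λ Ω ϖ ^ n * y0
  have hπn : algebraMap Λ Ω ϖ ^ n ≠ 0 := pow_ne_zero _ h.pi_ne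
  have hyK : y ∈ K := by
    refine mul_mem (pow_mem ?_ n) hy0K
    rw [hπQ]
    exact K.algebraMap_mem _
  have hyne : y ≠ 0 := mul_ne_zero hπn hy00
  have hyv : 0 < v y := by
    rw [v.map_mul hπn hy00, v.map_pow h.pi_ne]
    rw [nsmul_eq_mul] at hn
    linarith
  have hytr : Transcendental (IntermediateField.adjoin Q (Set.range x)) y := by
    intro hy
    apply hy0
    have h1 : y0 = (algebraMap Λ Ω ϖ ^ n)⁻¹ * y := by
      rw [inv_mul_cancel_left₀ hπn]
    have h2 : (algebraMap Λ Ω ϖ ^ n)⁻¹ ∈ IntermediateField.adjoin Q (Set.range x) := by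
      rw [hπQ]
      exact inv_mem (pow_mem (IntermediateField.algebraMap_mem _ _) n)
    rw [h1]
    exact (isAlgebraic_algebraMap
      (⟨_, h2⟩ : IntermediateField.adjoin Q (Set.range x))).mul hy
  refine ⟨x, i₀, y, hxK, hyK, hx0, hxp, hxi, hi₀, hyne, hyv, hytr, ?_⟩
  -- the transcendence basis
  have h1 : Transcendental
      (Algebra.adjoin Λ (Set.range fun i : {i : Fin r // i ≠ i₀} => x i)) y := by
    intro h2
    apply hytr
    rw [SigF0.alg_iff (fracIs_adjoin (Q := Q) h _) y, ← hE1] at h2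
    exact h2
  have h2 := (hind.option_iff_transcendental y).2 h1
  have h3 : IsTranscendenceBasis Λ
      (fun o : Option {i : Fin r // i ≠ i₀} => o.elim y fun i => x i) := by
    refine h2.isTranscendenceBasis_of_lift_trdeg_le_of_finite ?_
    rw [h.trdeg, Cardinal.mk_option, hcard, Cardinal.lift_add, Cardinal.lift_natCast,
      Cardinal.lift_natCast, Cardinal.lift_one]
    have : r = r - 1 + 1 := by omega
    exact_mod_cast this.le
  have h4 := h3.isAlgebraic
  intro g
  have h5 : IsAlgebraic (Algebra.adjoin Λ (Set.range x ∪ {y})) g := by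
    have h6 : Algebra.adjoin Λ (Set.range fun o : Option {i : Fin r // i ≠ i₀} =>
        o.elim y fun i => x i) ≤ Algebra.adjoin Λ (Set.range x ∪ {y}) := by
      refine Algebra.adjoin_mono ?_
      rintro _ ⟨o, rfl⟩
      cases o with
      | none => exact Or.inr rfl
      | some i => exact Or.inl ⟨i, rfl⟩
    exact IsAlgebraic.tower_top_of_subalgebra_le h6 (h4.isAlgebraic g)
  exact (SigF0.alg_iff (fracIs_adjoin (Q := Q) h _) g).1 h5

/-- The base field of a field. -/
theorem exists_good_base (h : Ctx0 ϖ v r) (K : IntermediateField Q Ω)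
    (halg : ∀ g : Ω, IsAlgebraic K g) :
    ∃ F : IntermediateField Q Ω, F ≤ K ∧ Good ϖ v F ∧ ∀ g : Ω, IsAlgebraic F g := by
  obtain ⟨x, i₀, y, h1, h2, h3, h4, h5, h6, h7, h8, h9, h10⟩ := exists_coord h K halg
  refine ⟨_, ?_, good_base h x y h3 h4 h5 i₀ h6 h7 h8 h9 h10, h10⟩
  rw [IntermediateField.adjoin_le_iff]
  rintro f (⟨i, rfl⟩ | rfl)
  · exact h1 i
  · exact h2

end Pool.Agent.LUM
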