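import Pool.Agent.Lib.LUM.E03

/-! # E04: etale descent of local uniformization, assembly

Recipe: given `A` (with `Frac Λ[A] = E`) and `T` for `E`.  `F := A ∪ {coefficients of minpoly E θ} ∪ {c₀}`
(all in `E`, `v ≥ 0`).  For `f ∈ F` choose `f = a_f / b_f`, `a_f, b_f ∈ Λ[A]`.  `t` from `exists_gens_max`.
`θ` has value `≥ 0` (root of a monic polynomial with coefficients of value `≥ 0`).  Apply `LUF` of `adj E θ`
to `A₁ = F ∪ {θ}` and `T₁ = (T ∪ t ∪ {a_f, b_f}) \ {0}`: `N`, `g`, `G`.  `exists_desc_ring`,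
`exists_desc_frame`: `N'` with `N'.R = locv Λ[FR]`.  All elements of `T₁` and `b = g U` are `N'.MonoPos`
(`MonoPos.mul_unit` for `b`, `b ∈ E`).  Chart (`WN.chart_of` for `N'`, `A`, `FR`): `F ⊆ N'.QM Λ[A]` since the
`b_f` are monomial; so `S0 = locv Λ[F] ≤ QM` (`qm_locv`); `b, w ∈ S0` (`w ∈ W`), `b⁻¹ ∈ QM` (`qm_inv`), so
`FR ⊆ QM`. -/

set_option autoImplicit false
set_option linter.unusedSectionVars false
set_option linter.unusedVariables false

open Polynomial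

namespace Pool.Agent.LUM

open Pool.Agent.H15JM (RVal)
open Pool.Agent.LU1 (VPos LatData val_add_vpos adj)

universe u

variable {Λ Q Ω : Type u} [CommRing Λ] [IsDomain Λ] [IsDiscreteValuationRing Λ] [Field Q]
  [Algebra Λ Q] [IsFractionRing Λ Q] [Field Ω] [Algebra Λ Ω] [Algebra Q Ω] [IsScalarTower Λ Q Ω]
  {ϖ : Λ} {v : RVal Ω} {r : ℕ}

private theorem ge_of_monic' {P : Polynomial Ω} (hP : P.Monic) (hc : ∀ i, v.Ge 0 (P.coeff i))
    {θ : Ω} (h0 : P.eval θ = 0) : v.Ge 0 θ := by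
  intro hθ
  by_contra hcon
  push Not at hcon
  have hd : 0 < P.natDegree := by
    rcases Nat.eq_zero_or_pos P.natDegree with h1 | h1
    · rw [hP.natDegree_eq_zero.1 h1] at h0
      simp at h0
    · exact h1
  rw [eval_eq_sum_range, Finset.sum_range_succ, hP.coeff_natDegree, one_mul] at h0
  have h1 : v.Ge (((P.natDegree - 1 : ℕ) : ℝ) * v θ)
      (∑ i ∈ Finset.range P.natDegree, P.coeff i * θ ^ i) := by
    refine RVal.Ge.sum _ _ fun i hi => ?_
    have h2 := (hc i).mul (RVal.ge_self (v := v) (θ ^ i))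
    rw [v.map_pow hθ, zero_add] at h2
    refine h2.mono ?_
    have h3 : (i : ℝ) ≤ ((P.natDegree - 1 : ℕ) : ℝ) := by
      have := Finset.mem_range.1 hi
      exact_mod_cast Nat.le_sub_one_of_lt this
    nlinarith
  have h2 : (∑ i ∈ Finset.range P.natDegree, P.coeff i * θ ^ i) = -θ ^ P.natDegree :=
    eq_neg_of_add_eq_zero_left h0
  have h3 := h1 (by rw [h2]; exact neg_ne_zero.2 (pow_ne_zero _ hθ))
  rw [h2, v.map_neg _ (pow_ne_zero _ hθ), v.map_pow hθ] at h3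
  have h4 : (P.natDegree : ℝ) = ((P.natDegree - 1 : ℕ) : ℝ) + 1 := by
    have : P.natDegree = (P.natDegree - 1) + 1 := by omega
    exact_mod_cast this
  rw [h4] at h3
  nlinarith

theorem LUF.etale_desc (h : Ctx0 ϖ v r) (E : IntermediateField Q Ω) (θ : Ω)
    (hint : IsIntegral E θ) (hc : ∀ i, v.Ge 0 ((minpoly E θ).coeff i : Ω))
    (h1 : aeval θ (derivative (minpoly E θ)) ≠ 0)
    (h2 : v (aeval θ (derivative (minpoly E θ))) = 0)
    (c₀ : Ω) (hc₀ : c₀ ∈ E) (hc₀v : v.Ge 0 c₀) (hθc : VPos v (θ - c₀))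
    (hL : LUF Λ v r (adj E θ : Set Ω)) : LUF Λ v r (E : Set Ω) := by
  classical
  intro A hA hAQ T hT
  have hθ : v.Ge 0 θ := by
    refine ge_of_monic' (P := (minpoly E θ).map (algebraMap E Ω)) ((minpoly.monic hint).map _)
      (fun i => ?_) ?_
    · rw [coeff_map]
      exact hc i
    · rw [eval_map_algebraMap, minpoly.aeval]
  -- the finite set `F`
  set F : Finset Ω := (A ∪ (Finset.range ((minpoly E θ).natDegree + 1)).image
    fun i => ((minpoly E θ).coeff i : Ω)) ∪ {c₀} with hFdef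
  have hF : ∀ f ∈ F, f ∈ E ∧ v.Ge 0 f := by
    intro f hf
    rcases Finset.mem_union.1 hf with hf | hf
    · rcases Finset.mem_union.1 hf with hf | hf
      · exact hA f hf
      · obtain ⟨i, -, rfl⟩ := Finset.mem_image.1 hf
        exact ⟨((minpoly E θ).coeff i).2, hc i⟩
    · rw [Finset.mem_singleton.1 hf]
      exact ⟨hc₀, hc₀v⟩
  have hcF : ∀ i, ((minpoly E θ).coeff i : Ω) ∈ Algebra.adjoin Λ (F : Set Ω) := by
    intro i
    by_cases hi : i < (minpoly E θ).natDegree + 1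
    · exact Algebra.subset_adjoin (Finset.mem_coe.2 (Finset.mem_union_left _
        (Finset.mem_union_right _ (Finset.mem_image_of_mem _ (Finset.mem_range.2 hi)))))
    · rw [coeff_eq_zero_of_natDegree_lt (by omega)]
      exact zero_mem _
  have hc₀F : c₀ ∈ F := Finset.mem_union_right _ (Finset.mem_singleton_self c₀)
  have hAF : ∀ a ∈ A, a ∈ F := fun a ha =>
    Finset.mem_union_left _ (Finset.mem_union_left _ ha)
  have hAFle : Algebra.adjoin Λ (A : Set Ω) ≤ Algebra.adjoin Λ (F : Set Ω) :=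
    Algebra.adjoin_mono fun a ha => hAF a ha
  have hDE : ∀ f ∈ Algebra.adjoin Λ (F : Set Ω), f ∈ E := adjoin_field fun f hf => (hF f hf).1
  -- numerators and denominators
  have hfr : ∀ f, f ∈ E → ∃ a b : Ω, a ∈ Algebra.adjoin Λ (A : Set Ω) ∧
      b ∈ Algebra.adjoin Λ (A : Set Ω) ∧ b ≠ 0 ∧ f = a / b := by
    intro f hf
    obtain ⟨a, ha, b, hb, hb0, h3⟩ := hAQ.2 f hf
    exact ⟨a, b, ha, hb, hb0, h3⟩
  choose! nu de hnu hde hde0 hfr' using hfr
  -- the generators of the larger field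
  have hadj : ∀ x ∈ adj E θ, x ∈ quo (F := Q) (Algebra.adjoin Λ ((F : Set Ω) ∪ {θ})) := by
    intro x hx
    have h3 : adj E θ ≤ quo (F := Q) (Algebra.adjoin Λ ((F : Set Ω) ∪ {θ})) := by
      refine sup_le ?_ ?_
      · intro z hz
        obtain ⟨a, ha, b, hb, hb0, h4⟩ := hAQ.2 z hz
        exact ⟨a, Algebra.adjoin_mono Set.subset_union_left (hAFle ha), b,
          Algebra.adjoin_mono Set.subset_union_left (hAFle hb), hb0, h4⟩
      · rw [IntermediateField.adjoin_le_iff]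
        rintro z hz
        rw [Set.mem_singleton_iff.1 hz]
        exact le_quo (Algebra.subset_adjoin (Or.inr rfl))
    exact h3 hx
  have hEL : E ≤ adj E θ := le_sup_left
  have hθL : θ ∈ adj E θ :=
    (le_sup_right : IntermediateField.adjoin Q {θ} ≤ adj E θ)
      (IntermediateField.mem_adjoin_simple_self Q θ)
  set A₁ : Finset Ω := F ∪ {θ} with hA₁def
  have hA₁set : (A₁ : Set Ω) = (F : Set Ω) ∪ {θ} := by
    rw [hA₁def]
    push_cast
    rfl
  have hA₁ : ∀ a ∈ A₁, a ∈ (adj E θ : Set Ω) ∧ v.Ge 0 a := by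
    intro a ha
    rcases Finset.mem_union.1 ha with ha | ha
    · exact ⟨hEL (hF a ha).1, (hF a ha).2⟩
    · rw [Finset.mem_singleton.1 ha]
      exact ⟨hθL, hθ⟩
  have hQ₁ : QuoIs (Algebra.adjoin Λ (A₁ : Set Ω)) (adj E θ : Set Ω) := by
    refine ⟨fun f hf => adjoin_field (fun a ha => (hA₁ a ha).1) f hf, fun g hg => ?_⟩
    rw [hA₁set]
    exact hadj g hg
  obtain ⟨t, ht, htg⟩ := exists_gens_max h F fun f hf => (hF f hf).2
  have htE : ∀ x ∈ t, x ∈ E := fun x hx => locv_field hDE x (ht x hx).1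
  set T₁ : Finset Ω := (((T ∪ t) ∪ F.image nu) ∪ F.image de).filter fun x => x ≠ 0 with hT₁
  have hnuE : ∀ f ∈ F, nu f ∈ E := fun f hf => hDE _ (hAFle (hnu f (hF f hf).1))
  have hdeE : ∀ f ∈ F, de f ∈ E := fun f hf => hDE _ (hAFle (hde f (hF f hf).1))
  have hT₁E : ∀ x ∈ T₁, x ∈ E ∧ x ≠ 0 := by
    intro x hx
    obtain ⟨h3, h4⟩ := Finset.mem_filter.1 hx
    refine ⟨?_, h4⟩
    rcases Finset.mem_union.1 h3 with h3 | h3
    · rcases Finset.mem_union.1 h3 with h3 | h3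
      · rcases Finset.mem_union.1 h3 with h3 | h3
        · exact (hT x h3).1
        · exact htE x h3
      · obtain ⟨f, hf, rfl⟩ := Finset.mem_image.1 h3
        exact hnuE f hf
    · obtain ⟨f, hf, rfl⟩ := Finset.mem_image.1 h3
      exact hdeE f hf
  obtain ⟨N, hK, hNL, g, hg, hg0, hgm, G, hG, hNR, hNT⟩ := hL A₁ hA₁ hQ₁ T₁ fun x hx =>
    ⟨hEL (hT₁E x hx).1, (hT₁E x hx).2⟩
  rw [hA₁set] at hg hNR
  have hG' : ∀ x ∈ G, x ∈ Algebra.adjoin Λ ((F : Set Ω) ∪ {θ}) ∧ v.Ge (v g) x := by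
    intro x hx
    have h3 := hG x hx
    rw [hA₁set] at h3
    exact h3
  have hNt : ∀ x ∈ t, N.MonoPos x := fun x hx => hNT x (Finset.mem_filter.2
    ⟨Finset.mem_union_left _ (Finset.mem_union_left _ (Finset.mem_union_right _ hx)),
      (ht x hx).2.1⟩)
  obtain ⟨b, W, FR, hb, hb0, ⟨U, hUR, hU0, hUv, hbU⟩, hW, hFR, hRN, hRE, hNR', hdec⟩ :=
    exists_desc_ring h E θ hint hθ F hF hcF h1 h2 c₀ hc₀F hθc t ht htg N g hg hg0 hgm G hG' hNR
      hNt
  have hDR : Algebra.adjoin Λ (F : Set Ω) ≤ locv v (Algebra.adjoin Λ (FR : Set Ω)) := by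
    refine (Algebra.adjoin_mono ?_).trans (le_locv _)
    rw [hFR]
    exact Set.subset_union_left
  obtain ⟨N', hN'R, hN'K, hN'M⟩ := exists_desc_frame h E θ hint hθ N hK FR _ rfl hRE
    (fun i => hDR (hcF i)) hRN hNR' hdec
  have hmono : ∀ x ∈ T₁, N'.MonoPos x := fun x hx => hN'M x (hT₁E x hx).1 (hNT x hx)
  -- the chart
  have hAnn : ∀ a ∈ Algebra.adjoin Λ (A : Set Ω), v.Ge 0 a :=
    adjoin_nonneg h fun a ha => (hA a ha).2
  have hAR : ∀ a ∈ A, a ∈ N'.R := by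
    intro a ha
    rw [hN'R]
    exact hDR (Algebra.subset_adjoin (hAF a ha))
  have hFQ : Algebra.adjoin Λ (F : Set Ω) ≤ N'.QM (Algebra.adjoin Λ (A : Set Ω)) hAnn := by
    rw [Algebra.adjoin_le_iff]
    intro f hf
    have hfE := (hF f hf).1
    refine ⟨nu f, hnu f hfE, de f, hde f hfE, hmono _ (Finset.mem_filter.2
      ⟨Finset.mem_union_right _ (Finset.mem_image_of_mem _ hf), hde0 f hfE⟩), hfr' f hfE⟩
  have hS0Q : locv v (Algebra.adjoin Λ (F : Set Ω)) ≤
      N'.QM (Algebra.adjoin Λ (A : Set Ω)) hAnn := by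
    refine WN.qm_locv hFQ ?_
    rw [hN'R]
    exact hDR
  have hbE : b ∈ E := locv_field hDE b hb
  have hbN : b ∈ N.R := by
    rw [hbU]
    refine N.R.mul_mem ?_ hUR
    rw [hNR]
    exact le_locv _ (Algebra.adjoin_mono Set.subset_union_left hg)
  have hbM : N'.MonoPos b := by
    refine hN'M b hbE ?_
    rw [hbU]
    exact hgm.mul_unit hUR hU0 hUv
  have hbinv : b⁻¹ ∈ N'.QM (Algebra.adjoin Λ (A : Set Ω)) hAnn :=
    WN.qm_inv (hS0Q hb) (N.nonneg b hbN hb0) hbM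
  have hq : ∀ f ∈ FR, f ∈ N'.QM (Algebra.adjoin Λ (A : Set Ω)) hAnn := by
    intro f hf
    have hf' : f ∈ (F : Set Ω) ∪ (fun w => w / b) '' (W : Set Ω) := by
      rw [← hFR]
      exact hf
    rcases hf' with hf' | ⟨w, hw, rfl⟩
    · exact hFQ (Algebra.subset_adjoin hf')
    · change w / b ∈ _
      rw [div_eq_mul_inv]
      exact Subalgebra.mul_mem _ (hS0Q (hW w hw)) hbinv
  obtain ⟨g', hg', hg'0, hg'm, G', hG'', hR'⟩ := WN.chart_of N' A hAnn hAR FR hN'R hq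
  refine ⟨N', hN'K, fun f hf => hRE f (by rw [← hN'R]; exact hf), g', hg', hg'0, hg'm, G',
    hG'', hR', fun x hx => hmono x ?_⟩
  exact Finset.mem_filter.2
    ⟨Finset.mem_union_left _ (Finset.mem_union_left _ (Finset.mem_union_left _ hx)),
      (hT x hx).2⟩

end Pool.Agent.LUM
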