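import Pool.Agent.Lib.LUM.Basic

/-! # ED, part A: generators of `E` -/

set_option autoImplicit false
set_option linter.unusedSectionVars false
set_option linter.unusedVariables false

namespace Pool.Agent.LUM

open Pool.Agent.H15JM (RVal)
open Pool.Agent.LU1 (VPos LatData val_add_vpos adj)
open Polynomial

universe u

variable {Λ Q Ω : Type u} [CommRing Λ] [IsDomain Λ] [IsDiscreteValuationRing Λ] [Field Q]
  [Algebra Λ Q] [IsFractionRing Λ Q] [Field Ω] [Algebra Λ Ω] [Algebra Q Ω] [IsScalarTower Λ Q Ω]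
  {ϖ : Λ} {v : RVal Ω} {r : ℕ}

/-- The elements of `E(θ)` are polynomials in `θ`. -/
theorem edA_exists_poly (E : IntermediateField Q Ω) (θ : Ω) (hint : IsIntegral E θ) {z : Ω}
    (hz : z ∈ adj E θ) : ∃ P : E[X], aeval θ P = z := by
  have h1 : adj E θ ≤ (IntermediateField.adjoin E {θ}).restrictScalars Q := by
    unfold adj
    refine sup_le ?_ ?_
    · intro x hx
      exact IntermediateField.algebraMap_mem (IntermediateField.adjoin E {θ}) (⟨x, hx⟩ : E)
    · rw [IntermediateField.adjoin_le_iff]
      exact IntermediateField.subset_adjoin E {θ}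
  have h2 : z ∈ (IntermediateField.adjoin E {θ}).toSubalgebra := h1 hz
  rw [IntermediateField.adjoin_simple_toSubalgebra_of_isAlgebraic hint.isAlgebraic,
    Algebra.adjoin_singleton_eq_range_aeval] at h2
  exact h2

/-- A subfield over which a finitely generated field is finite is finitely generated; the
generators can be taken in the valuation ring, and such that the coefficients of the minimal
polynomial are among them. -/
theorem exists_gens (E : IntermediateField Q Ω) (θ : Ω) (hint : IsIntegral E θ)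
    (hc : ∀ i, v.Ge 0 ((minpoly E θ).coeff i : Ω))
    (hfg : ∃ S : Finset Ω, adj E θ = IntermediateField.adjoin Q (S : Set Ω)) :
    ∃ F : Finset Ω, (∀ f ∈ F, f ∈ E ∧ v.Ge 0 f) ∧ E = IntermediateField.adjoin Q (F : Set Ω) ∧
      ∀ i, ((minpoly E θ).coeff i : Ω) ∈ Algebra.adjoin Λ (F : Set Ω) := by
  classical
  obtain ⟨S, hS⟩ := hfg
  have hSP : ∀ s ∈ S, ∃ P : E[X], aeval θ P = s := by
    intro s hs
    refine edA_exists_poly E θ hint ?_
    rw [hS]
    exact IntermediateField.subset_adjoin Q _ hs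
  choose! P hP using hSP
  -- the coefficients
  set m : E[X] := minpoly E θ with hm
  have hmm : m.Monic := minpoly.monic hint
  let C1 : Finset Ω := m.coeffs.image (fun e : E => (e : Ω))
  let C2 : Finset Ω := S.biUnion fun s => (P s).coeffs.image (fun e : E => (e : Ω))
  let C : Finset Ω := C1 ∪ C2
  have hCE : ∀ c ∈ C, c ∈ E := by
    intro c hc
    simp only [C, C1, C2, Finset.mem_union, Finset.mem_image, Finset.mem_biUnion] at hc
    rcases hc with ⟨e, -, rfl⟩ | ⟨s, -, e, -, rfl⟩
    · exact e.2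
    · exact e.2
  have hC1 : ∀ c ∈ C1, v.Ge 0 c := by
    intro c hc1
    simp only [C1, Finset.mem_image] at hc1
    obtain ⟨e, he, rfl⟩ := hc1
    rw [Polynomial.mem_coeffs_iff] at he
    obtain ⟨i, -, rfl⟩ := he
    exact hc i
  have hmC : ∀ i, (m.coeff i : Ω) = 0 ∨ (m.coeff i : Ω) ∈ C1 := by
    intro i
    by_cases h0 : m.coeff i = 0
    · left; rw [h0]; rfl
    · right
      simp only [C1, Finset.mem_image]
      exact ⟨_, Polynomial.coeff_mem_coeffs h0, rfl⟩
  have hPC : ∀ s ∈ S, ∀ i, ((P s).coeff i : Ω) = 0 ∨ ((P s).coeff i : Ω) ∈ C2 := by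
    intro s hs i
    by_cases h0 : (P s).coeff i = 0
    · left; rw [h0]; rfl
    · right
      simp only [C2, Finset.mem_image, Finset.mem_biUnion]
      exact ⟨s, hs, _, Polynomial.coeff_mem_coeffs h0, rfl⟩
  let E0 : IntermediateField Q Ω := IntermediateField.adjoin Q (C : Set Ω)
  have hE0 : E0 ≤ E := by
    rw [IntermediateField.adjoin_le_iff]
    exact fun c hc => hCE c hc
  have hCE0 : ∀ c ∈ C, c ∈ E0 := fun c hc => IntermediateField.subset_adjoin Q _ hc
  -- the minimal polynomial over `E0`
  obtain ⟨m0, hm0, hm0d, hm0m⟩ : ∃ q : E0[X], map (algebraMap E0 Ω) q = m.map (algebraMap E Ω) ∧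
      q.natDegree = (m.map (algebraMap E Ω)).natDegree ∧ q.Monic := by
    refine Polynomial.lifts_and_natDegree_eq_and_monic ?_ (hmm.map _)
    rw [Polynomial.lifts_iff_coeff_lifts]
    intro i
    rw [Polynomial.coeff_map]
    rcases hmC i with h0 | h1
    · refine ⟨0, ?_⟩
      rw [_root_.map_zero]
      exact h0.symm
    · exact ⟨⟨_, hCE0 _ (Finset.mem_union_left _ h1)⟩, rfl⟩
  have hθ0 : IsIntegral E0 θ := by
    refine ⟨m0, hm0m, ?_⟩
    rw [← Polynomial.eval_map, hm0, Polynomial.eval_map]
    exact minpoly.aeval E θ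
  -- `E ≤ E0(θ)`
  have hSE0 : ∀ s ∈ S, s ∈ adj E0 θ := by
    intro s hs
    rw [← hP s hs, Polynomial.aeval_eq_sum_range]
    refine sum_mem fun i _ => ?_
    rw [Algebra.smul_def]
    refine mul_mem ?_ (pow_mem ?_ _)
    · refine (le_sup_left : E0 ≤ adj E0 θ) ?_
      rcases hPC s hs i with h0 | h1
      · have : algebraMap E Ω ((P s).coeff i) = 0 := h0
        rw [this]; exact zero_mem _
      · exact hCE0 _ (Finset.mem_union_right _ h1)
    · exact (le_sup_right : IntermediateField.adjoin Q {θ} ≤ adj E0 θ)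
        (IntermediateField.subset_adjoin Q _ rfl)
  have hEE0 : E ≤ E0 := by
    intro e he
    have h1 : e ∈ adj E0 θ := by
      have h2 : e ∈ adj E θ := (le_sup_left : E ≤ adj E θ) he
      rw [hS] at h2
      have h3 : IntermediateField.adjoin Q (S : Set Ω) ≤ adj E0 θ := by
        rw [IntermediateField.adjoin_le_iff]
        exact fun s hs => hSE0 s hs
      exact h3 h2
    obtain ⟨P1, hP1⟩ := edA_exists_poly E0 θ hθ0 h1
    have hm0z : aeval θ m0 = 0 := by
      rw [Polynomial.aeval_def, ← Polynomial.eval_map, hm0, Polynomial.eval_map]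
      exact minpoly.aeval E θ
    have hQ1 : aeval θ (P1 %ₘ m0) = e := by
      rw [← hP1]
      conv_rhs => rw [← Polynomial.modByMonic_add_div P1 m0]
      rw [_root_.map_add, _root_.map_mul, hm0z, zero_mul, add_zero]
    have hdeg : (P1 %ₘ m0).degree < m0.degree := Polynomial.degree_modByMonic_lt _ hm0m
    have hdeg2 : m0.degree = m.degree := by
      rw [Polynomial.degree_eq_natDegree hm0m.ne_zero, hm0d,
        Polynomial.degree_eq_natDegree hmm.ne_zero, hmm.natDegree_map]
    let ι : E0 →+* E := (IntermediateField.inclusion hE0).toRingHom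
    have hι : ∀ x : E0, ((ι x : E) : Ω) = (x : Ω) := fun x => rfl
    have hιc : (algebraMap E Ω).comp ι = algebraMap E0 Ω := by
      ext x; rfl
    let T : E[X] := (P1 %ₘ m0).map ι - Polynomial.C (⟨e, he⟩ : E)
    have hT0 : aeval θ T = 0 := by
      simp only [T, _root_.map_sub, Polynomial.aeval_C]
      rw [Polynomial.aeval_def, Polynomial.eval₂_map, hιc, ← Polynomial.aeval_def, hQ1]
      exact sub_self _
    have hTd : T.degree < m.degree := by
      refine lt_of_le_of_lt (Polynomial.degree_sub_le _ _) (max_lt ?_ ?_)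
      · refine lt_of_le_of_lt Polynomial.degree_map_le ?_
        rw [← hdeg2]; exact hdeg
      · refine lt_of_le_of_lt Polynomial.degree_C_le ?_
        exact minpoly.degree_pos hint
    have hTz : T = 0 :=
      Polynomial.eq_zero_of_dvd_of_degree_lt (minpoly.dvd E θ hT0) hTd
    have h4 : T.coeff 0 = 0 := by rw [hTz, Polynomial.coeff_zero]
    simp only [T, Polynomial.coeff_sub, Polynomial.coeff_map, Polynomial.coeff_C_zero] at h4
    have h5 : ι ((P1 %ₘ m0).coeff 0) = (⟨e, he⟩ : E) := sub_eq_zero.1 h4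
    have h6 : (((P1 %ₘ m0).coeff 0 : E0) : Ω) = e := by
      rw [← hι, h5]
    rw [← h6]
    exact ((P1 %ₘ m0).coeff 0 : E0).2
  have hE : E = E0 := le_antisymm hEE0 hE0
  -- replace the generators of negative value by their inverses
  let φ : Ω → Ω := fun c => if v.Ge 0 c then c else c⁻¹
  have hφ : ∀ c, v.Ge 0 (φ c) := by
    intro c
    simp only [φ]
    split_ifs with h
    · exact h
    · intro h0
      have hc0 : c ≠ 0 := by rintro rfl; simp at h0
      rw [v.map_inv hc0]
      by_contra h1
      refine h fun _ => ?_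
      linarith
  have hφE : ∀ (L : IntermediateField Q Ω) (c : Ω), φ c ∈ L ↔ c ∈ L := by
    intro L c
    simp only [φ]
    split_ifs with h
    · exact Iff.rfl
    · exact ⟨fun h => by simpa using L.inv_mem h, fun h => L.inv_mem h⟩
  refine ⟨C.image φ, ?_, ?_, ?_⟩
  · intro f hf
    rw [Finset.mem_image] at hf
    obtain ⟨c, hc, rfl⟩ := hf
    exact ⟨(hφE E c).2 (hCE c hc), hφ c⟩
  · rw [hE]
    refine le_antisymm ?_ ?_
    · rw [IntermediateField.adjoin_le_iff]
      intro c hc
      rw [SetLike.mem_coe, ← hφE]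
      refine IntermediateField.subset_adjoin Q _ ?_
      exact Finset.mem_coe.2 (Finset.mem_image_of_mem _ hc)
    · rw [IntermediateField.adjoin_le_iff]
      intro f hf
      rw [Finset.mem_coe, Finset.mem_image] at hf
      obtain ⟨c, hc, rfl⟩ := hf
      exact (hφE _ c).2 (hCE0 c hc)
  · intro i
    rcases hmC i with h0 | h1
    · rw [h0]; exact zero_mem _
    · refine Algebra.subset_adjoin ?_
      rw [Finset.mem_coe, Finset.mem_image]
      refine ⟨_, Finset.mem_union_left _ h1, ?_⟩
      simp only [φ]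
      rw [if_pos (hC1 _ h1)]

/-- The field of a big frame is finitely generated. -/
theorem Good.fg {L : IntermediateField Q Ω} (h : Good ϖ v L) :
    ∃ S : Finset Ω, L = IntermediateField.adjoin Q (S : Set Ω) := by
  classical
  obtain ⟨B, hB1, hB2⟩ := h
  obtain ⟨F, hF⟩ := B.fgen
  obtain ⟨G, hG⟩ := B.fg
  let S : Finset Ω := F ∪ G.image B.χ
  have hGΓ : ∀ g ∈ G, g ∈ B.Γ := by
    intro g hg
    rw [← hG]
    exact AddSubgroup.subset_closure hg
  -- the monomials are in the field generated by `S`
  have hχ : ∀ γ ∈ B.Γ, B.χ γ ∈ IntermediateField.adjoin Q (S : Set Ω) := by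
    intro γ hγ
    have hγ' : γ ∈ AddSubgroup.closure (G : Set ℝ) := by rw [hG]; exact hγ
    induction hγ' using AddSubgroup.closure_induction with
    | mem x hx =>
      refine IntermediateField.subset_adjoin Q _ ?_
      rw [Finset.mem_coe]
      exact Finset.mem_union_right _ (Finset.mem_image_of_mem _ hx)
    | zero => rw [B.χ_zero]; exact one_mem _
    | add x y hx hy h1 h2 =>
      rw [hG] at hx hy
      rw [B.χ_add x hx y hy]
      exact mul_mem (h1 hx) (h2 hy)
    | neg x hx h1 =>
      rw [hG] at hx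
      rw [B.χ_neg hx]
      exact inv_mem (h1 hx)
  refine ⟨S, le_antisymm ?_ ?_⟩
  · have hR : ∀ f ∈ B.R, f ∈ IntermediateField.adjoin Q (S : Set Ω) := by
      intro f hf
      rw [hF] at hf
      have hle : Algebra.adjoin Λ ((F : Set Ω) ∪ B.χ '' {γ | γ ∈ B.Γ ∧ 0 ≤ γ}) ≤
          (IntermediateField.adjoin Q (S : Set Ω)).toSubalgebra.restrictScalars Λ := by
        refine Algebra.adjoin_le ?_
        rintro x (hx | ⟨γ, ⟨hγ, -⟩, rfl⟩)
        · refine IntermediateField.subset_adjoin Q _ ?_
          rw [Finset.mem_coe]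
          exact Finset.mem_union_left _ hx
        · exact hχ γ hγ
      obtain ⟨a, ha, b, hb, -, -, rfl⟩ := hf
      exact div_mem (hle ha) (hle hb)
    intro g hg
    obtain ⟨a, ha, b, hb, -, rfl⟩ := hB2 g hg
    exact div_mem (hR a ha) (hR b hb)
  · rw [IntermediateField.adjoin_le_iff]
    intro x hx
    rw [Finset.mem_coe, Finset.mem_union, Finset.mem_image] at hx
    rcases hx with hx | ⟨γ, hγ, rfl⟩
    · refine hB1 x ?_
      rw [hF]
      exact le_locv _ (Algebra.subset_adjoin (Or.inl hx))
    · have hγ' := hGΓ γ hγ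
      rcases le_total 0 γ with h0 | h0
      · exact hB1 _ (B.χ_mem γ hγ' h0)
      · have h1 := hB1 _ (B.χ_mem (-γ) (B.Γ.neg_mem hγ') (neg_nonneg.2 h0))
        rw [B.χ_neg hγ'] at h1
        simpa using inv_mem h1

end Pool.Agent.LUM
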