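import Pool.Agent.Lib.LUM.Rep
import Pool.Agent.Lib.LU1_h15.ExtVal_H1

/-! # The content valuation of a big frame, extended to `Ω` -/

set_option autoImplicit false
set_option linter.unusedSectionVars false
set_option linter.unusedVariables false

namespace Pool.Agent.LUM

open Pool.Agent.H15JM (RVal)
open Pool.Agent.LU1 (VPos)

universe u

variable {Λ Ω : Type u} [CommRing Λ] [IsDomain Λ] [IsDiscreteValuationRing Λ] [Field Ω]
  [Algebra Λ Ω] {ϖ : Λ} {v : RVal Ω} {r : ℕ}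

theorem BF.kap_quot (h : Ctx0 ϖ v r) (B : BF ϖ v) {a b a' b' : Ω} (hb : b ≠ 0) (hb' : b' ≠ 0)
    (e : a / b = a' / b') {κ1 κ2 κ3 κ4 : ℝ} {D1 D2 D3 D4 : ℕ} (h1 : B.Rep a κ1 D1)
    (h2 : B.Rep b κ2 D2) (h3 : B.Rep a' κ3 D3) (h4 : B.Rep b' κ4 D4) :
    κ1 - κ2 = κ3 - κ4 := by
  rw [div_eq_div_iff hb hb'] at e
  have h5 := h1.mul h4
  have h6 := h3.mul h2
  rw [e] at h5
  have := (h5.unique h h6).1
  linarith

/-- The content valuation. -/
theorem BF.exists_kap (h : Ctx0 ϖ v r) (B : BF ϖ v) :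
    ∃ κ : RVal Ω, (∀ f ∈ B.R, κ.Ge 0 f) ∧ (∀ γ ∈ B.Γ, κ (B.χ γ) = γ) ∧ κ B.y = 0 ∧
      ∀ (f : Ω) (κ0 : ℝ) (D : ℕ), B.Rep f κ0 D → κ f = κ0 := by
  classical
  -- the field of fractions of `B.R`, as a subfield
  let K : Subfield Ω :=
    { carrier := {g | ∃ a ∈ B.R, ∃ b ∈ B.R, b ≠ 0 ∧ g = a / b}
      mul_mem' := by
        rintro f g ⟨a, ha, b, hb, hb0, rfl⟩ ⟨c, hc, d, hd, hd0, rfl⟩
        exact ⟨a * c, B.R.mul_mem ha hc, b * d, B.R.mul_mem hb hd, mul_ne_zero hb0 hd0, by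
          rw [div_mul_div_comm]⟩
      one_mem' := ⟨1, B.R.one_mem, 1, B.R.one_mem, one_ne_zero, by rw [div_one]⟩
      add_mem' := by
        rintro f g ⟨a, ha, b, hb, hb0, rfl⟩ ⟨c, hc, d, hd, hd0, rfl⟩
        exact ⟨a * d + b * c, B.R.add_mem (B.R.mul_mem ha hd) (B.R.mul_mem hb hc), b * d,
          B.R.mul_mem hb hd, mul_ne_zero hb0 hd0, by rw [div_add_div _ _ hb0 hd0]⟩
      zero_mem' := ⟨0, B.R.zero_mem, 1, B.R.one_mem, one_ne_zero, by rw [zero_div]⟩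
      neg_mem' := by
        rintro f ⟨a, ha, b, hb, hb0, rfl⟩
        exact ⟨-a, B.R.neg_mem ha, b, hb, hb0, by rw [neg_div]⟩
      inv_mem' := by
        rintro f ⟨a, ha, b, hb, hb0, rfl⟩
        by_cases ha0 : a = 0
        · exact ⟨0, B.R.zero_mem, 1, B.R.one_mem, one_ne_zero, by simp [ha0]⟩
        · exact ⟨b, hb, a, ha, ha0, by rw [inv_div]⟩ }
  have hrep : ∀ a ∈ B.R, a ≠ 0 → ∃ κ D, 0 ≤ κ ∧ B.Rep a κ D := fun a ha h0 =>
    B.rep_exists h ha h0
  have hex : ∀ x : K, x ≠ 0 → ∃ c : ℝ, ∀ (a b : Ω), b ≠ 0 → (x : Ω) = a / b →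
      ∀ (κ1 κ2 : ℝ) (D1 D2 : ℕ), B.Rep a κ1 D1 → B.Rep b κ2 D2 → c = κ1 - κ2 := by
    rintro ⟨x, a, ha, b, hb, hb0, rfl⟩ hx
    have ha0 : a ≠ 0 := by
      rintro rfl
      apply hx
      apply Subtype.ext
      exact zero_div b
    obtain ⟨κ1, D1, -, h1⟩ := hrep a ha ha0
    obtain ⟨κ2, D2, -, h2⟩ := hrep b hb hb0
    refine ⟨κ1 - κ2, ?_⟩
    intro a' b' hb' e κ3 κ4 D3 D4 h3 h4
    exact B.kap_quot h hb0 hb' e h1 h2 h3 h4
  let φ : K → ℝ := fun x => if hx : x ≠ 0 then (hex x hx).choose else 0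
  have hφ : ∀ (a b : Ω) (hx : a / b ∈ K), b ≠ 0 → ∀ (κ1 κ2 : ℝ) (D1 D2 : ℕ), B.Rep a κ1 D1 →
      B.Rep b κ2 D2 → φ ⟨a / b, hx⟩ = κ1 - κ2 := by
    intro a b hx hb κ1 κ2 D1 D2 h1 h2
    have hx0 : (⟨a / b, hx⟩ : K) ≠ 0 := by
      intro h3
      have h4 := congrArg (fun z : K => (z : Ω)) h3
      exact div_ne_zero (h1.ne_zero h) hb h4
    simp only [φ]
    rw [dif_pos hx0]
    exact (hex _ hx0).choose_spec a b hb rfl κ1 κ2 D1 D2 h1 h2
  -- quotients
  have hquo : ∀ x : K, x ≠ 0 → ∃ a ∈ B.R, ∃ b ∈ B.R, a ≠ 0 ∧ b ≠ 0 ∧ (x : Ω) = a / b := by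
    rintro ⟨x, a, ha, b, hb, hb0, rfl⟩ hx
    refine ⟨a, ha, b, hb, ?_, hb0, rfl⟩
    rintro rfl
    apply hx
    apply Subtype.ext
    exact zero_div b
  let κK : RVal K :=
    { toFun := φ
      map_mul' := by
        intro x z hx hz
        obtain ⟨a, ha, b, hb, ha0, hb0, e1⟩ := hquo x hx
        obtain ⟨c, hc, d, hd, hc0, hd0, e2⟩ := hquo z hz
        obtain ⟨κ1, D1, -, h1⟩ := hrep a ha ha0
        obtain ⟨κ2, D2, -, h2⟩ := hrep b hb hb0
        obtain ⟨κ3, D3, -, h3⟩ := hrep c hc hc0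
        obtain ⟨κ4, D4, -, h4⟩ := hrep d hd hd0
        have e3 : ((x * z : K) : Ω) = (a * c) / (b * d) := by
          change (x : Ω) * (z : Ω) = _
          rw [e1, e2, div_mul_div_comm]
        have k1 : φ x = κ1 - κ2 := by
          have : x = ⟨a / b, by rw [← e1]; exact x.2⟩ := Subtype.ext e1
          rw [this]
          exact hφ a b _ hb0 κ1 κ2 D1 D2 h1 h2
        have k2 : φ z = κ3 - κ4 := by
          have : z = ⟨c / d, by rw [← e2]; exact z.2⟩ := Subtype.ext e2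
          rw [this]
          exact hφ c d _ hd0 κ3 κ4 D3 D4 h3 h4
        have k3 : φ (x * z) = (κ1 + κ3) - (κ2 + κ4) := by
          have : x * z = ⟨(a * c) / (b * d), by rw [← e3]; exact (x * z).2⟩ := Subtype.ext e3
          rw [this]
          exact hφ _ _ _ (mul_ne_zero hb0 hd0) _ _ _ _ (h1.mul h3) (h2.mul h4)
        rw [k1, k2, k3]
        ring
      map_add' := by
        intro x z hx hz hxz
        obtain ⟨a, ha, b, hb, ha0, hb0, e1⟩ := hquo x hx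
        obtain ⟨c, hc, d, hd, hc0, hd0, e2⟩ := hquo z hz
        obtain ⟨κ1, D1, -, h1⟩ := hrep a ha ha0
        obtain ⟨κ2, D2, -, h2⟩ := hrep b hb hb0
        obtain ⟨κ3, D3, -, h3⟩ := hrep c hc hc0
        obtain ⟨κ4, D4, -, h4⟩ := hrep d hd hd0
        have e3 : ((x + z : K) : Ω) = (a * d + b * c) / (b * d) := by
          change (x : Ω) + (z : Ω) = _
          rw [e1, e2, div_add_div _ _ hb0 hd0]
        have k1 : φ x = κ1 - κ2 := by
          have : x = ⟨a / b, by rw [← e1]; exact x.2⟩ := Subtype.ext e1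
          rw [this]
          exact hφ a b _ hb0 κ1 κ2 D1 D2 h1 h2
        have k2 : φ z = κ3 - κ4 := by
          have : z = ⟨c / d, by rw [← e2]; exact z.2⟩ := Subtype.ext e2
          rw [this]
          exact hφ c d _ hd0 κ3 κ4 D3 D4 h3 h4
        have hs : a * d + b * c ∈ B.R := B.R.add_mem (B.R.mul_mem ha hd) (B.R.mul_mem hb hc)
        have hs0 : a * d + b * c ≠ 0 := by
          intro h5
          apply hxz
          apply Subtype.ext
          rw [e3, h5, zero_div]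
          rfl
        obtain ⟨κ5, D5, -, h5⟩ := hrep _ hs hs0
        have k3 : φ (x + z) = κ5 - (κ2 + κ4) := by
          have : x + z = ⟨(a * d + b * c) / (b * d), by rw [← e3]; exact (x + z).2⟩ :=
            Subtype.ext e3
          rw [this]
          exact hφ _ _ _ (mul_ne_zero hb0 hd0) _ _ _ _ h5 (h2.mul h4)
        rw [k1, k2, k3]
        -- both summands are in `χ(m) R`
        have h6 := h1.mul h4
        have h7 := h2.mul h3
        have key : ∀ (f : Ω) (κ m : ℝ) (D : ℕ), B.Rep f κ D → m ∈ B.Γ → m ≤ κ →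
            ∃ g ∈ B.R, f = B.χ m * g := by
          rintro f κ m D ⟨hκ, u, hu, δ, hδ, hδ0, g, hg, rfl⟩ hm hle
          obtain ⟨g', hg', e⟩ : ∃ g' ∈ B.R, B.χ κ = B.χ m * g' := by
            refine ⟨B.χ (κ - m), B.χ_mem _ (B.Γ.sub_mem hκ hm) (by linarith), ?_⟩
            rw [← B.χ_add _ hm _ (B.Γ.sub_mem hκ hm)]
            congr 1
            ring
          refine ⟨g' * (u * B.y ^ D + B.χ δ * g), B.R.mul_mem hg' (B.R.add_mem
            (B.R.mul_mem hu.1 (B.R.pow_mem B.y_mem D)) (B.R.mul_mem (B.χ_mem δ hδ hδ0.le) hg)),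
            ?_⟩
          rw [e]
          ring
        have h8 : min (κ1 + κ4) (κ2 + κ3) ≤ κ5 := by
          rcases le_total (κ1 + κ4) (κ2 + κ3) with h9 | h9
          · rw [min_eq_left h9]
            obtain ⟨g, hg, e⟩ := key _ _ _ _ h6 h6.1 le_rfl
            obtain ⟨g', hg', e'⟩ := key _ _ _ _ h7 h6.1 h9
            exact h5.ge_of_mem h h6.1 (B.R.add_mem hg hg') (by rw [e, e']; ring)
          · rw [min_eq_right h9]
            obtain ⟨g, hg, e⟩ := key _ _ _ _ h6 h7.1 h9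
            obtain ⟨g', hg', e'⟩ := key _ _ _ _ h7 h7.1 le_rfl
            exact h5.ge_of_mem h h7.1 (B.R.add_mem hg hg') (by rw [e, e']; ring)
        rcases min_le_iff.1 h8 with h9 | h9
        · exact (min_le_left _ _).trans (by linarith)
        · exact (min_le_right _ _).trans (by linarith) }
  have halg : Algebra.IsAlgebraic K Ω := by
    constructor
    intro g
    obtain ⟨P, hP, hP0⟩ := B.alg g
    let ι : B.R →+* K :=
      { toFun := fun x => ⟨x, x, x.2, 1, B.R.one_mem, one_ne_zero, by rw [div_one]⟩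
        map_one' := rfl
        map_mul' := fun _ _ => rfl
        map_zero' := rfl
        map_add' := fun _ _ => rfl }
    refine ⟨P.map ι, ?_, ?_⟩
    · intro h1
      apply hP
      refine (Polynomial.map_eq_zero_iff ?_).1 h1
      intro x z hxz
      exact Subtype.ext (congrArg (fun t : K => (t : Ω)) hxz)
    · rw [Polynomial.aeval_def, Polynomial.eval₂_map]
      exact hP0
  obtain ⟨w, hw⟩ := LU1.exists_extVal K Ω κK
  have hwR : ∀ (f : Ω) (κ0 : ℝ) (D : ℕ), B.Rep f κ0 D → w f = κ0 := by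
    intro f κ0 D hf
    have h0 := hf.ne_zero h
    -- write `f = a / b` with `b` a monomial
    obtain ⟨δ, hδ, hδ0⟩ := RepAux.exists_pos B
    obtain ⟨n, hn⟩ : ∃ n : ℕ, 0 ≤ κ0 + n * δ := by
      obtain ⟨n, hn⟩ := exists_nat_gt (-κ0 / δ)
      refine ⟨n, ?_⟩
      rw [div_lt_iff₀ hδ0] at hn
      linarith
    have hm : (n : ℝ) * δ ∈ B.Γ := by
      rw [← nsmul_eq_mul]; exact B.Γ.nsmul_mem hδ n
    have h1 := (B.rep_χ hm).mul hf
    rw [zero_add] at h1
    have h2 := h1.mem (by linarith)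
    have h3 : B.χ ((n : ℝ) * δ) ∈ B.R := B.χ_mem _ hm (by positivity)
    have h4 : f = (B.χ ((n : ℝ) * δ) * f) / B.χ ((n : ℝ) * δ) := by
      rw [mul_div_cancel_left₀ _ (B.χ_ne _ hm)]
    have hK : (B.χ ((n : ℝ) * δ) * f) / B.χ ((n : ℝ) * δ) ∈ K :=
      ⟨_, h2, _, h3, B.χ_ne _ hm, rfl⟩
    have h5 := hφ _ _ hK (B.χ_ne _ hm) _ _ _ _ h1 (B.rep_χ hm)
    have h6 := hw ⟨_, hK⟩ (by
      intro h7
      apply h0
      rw [h4]
      exact congrArg (fun t : K => (t : Ω)) h7)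
    change w ((B.χ ((n : ℝ) * δ) * f) / B.χ ((n : ℝ) * δ)) = φ _ at h6
    rw [h5, ← h4] at h6
    rw [h6]
    ring
  refine ⟨w, ?_, ?_, ?_, hwR⟩
  · intro f hf h0
    obtain ⟨κ0, D, h1, h2⟩ := hrep f hf h0
    rw [hwR f κ0 D h2]
    exact h1
  · intro γ hγ
    exact hwR _ _ _ (B.rep_χ hγ)
  · exact hwR _ _ _ B.rep_y

end Pool.Agent.LUM
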