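import Pool.Agent.Lib.LUM.ML
import Pool.Agent.Lib.LUM.Kap
import Pool.Agent.Lib.LUM.Mk

/-! # RAD: adjoining a root of a monomial -/

set_option autoImplicit false
set_option linter.unusedSectionVars false

namespace Pool.Agent.LUM

open Pool.Agent.H15JM (RVal)
open Pool.Agent.LU1 (VPos LatData exists_s adj adj_congr mem_adj)
open Polynomial

universe u

variable {Λ F Ω : Type u} [CommRing Λ] [IsDomain Λ] [IsDiscreteValuationRing Λ] [Field F]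
  [Field Ω] [Algebra Λ Ω] [Algebra Λ F] [IsFractionRing Λ F] [Algebra F Ω]
  [IsScalarTower Λ F Ω] {ϖ : Λ} {v : RVal Ω} {r : ℕ}

/-- The lattice data for `β = κ / ℓ`, `κ ∉ ℓ Γ`. -/
theorem exists_latData_prime (B : BF ϖ v) (ℓ : ℕ) (hℓ : ℓ.Prime) {β : ℝ} (hβ : 0 < β)
    (hmem : (ℓ : ℝ) * β ∈ B.Γ) (hβ' : β ∉ B.Γ) :
    ∃ s : ℝ → ℤ → ℤ, LatData B.Γ β ℓ s := by
  obtain ⟨s, hs, -, -⟩ := exists_s B.Γ B.fg β hβ ℓ hℓ.pos hmem (by
    intro m hm hmΓ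
    by_contra hlt
    have hcop : Nat.Coprime m ℓ := by
      rw [Nat.coprime_comm, Nat.Prime.coprime_iff_not_dvd hℓ]
      intro hd
      exact hlt (Nat.le_of_dvd hm hd)
    have hbez := Nat.gcd_eq_gcd_ab m ℓ
    rw [hcop.gcd_eq_one] at hbez
    apply hβ'
    have h1 : β = ((m.gcdA ℓ : ℤ) : ℝ) * ((m : ℝ) * β) + ((m.gcdB ℓ : ℤ) : ℝ) * ((ℓ : ℝ) * β) := by
      have h2 : (1 : ℝ) = (m : ℝ) * (m.gcdA ℓ : ℤ) + (ℓ : ℝ) * (m.gcdB ℓ : ℤ) := by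
        exact_mod_cast hbez
      calc β = 1 * β := (one_mul β).symm
        _ = _ := by rw [h2]; ring
    rw [h1, ← zsmul_eq_mul, ← zsmul_eq_mul]
    exact B.Γ.add_mem (B.Γ.zsmul_mem hmΓ _) (B.Γ.zsmul_mem hmem _)) ∅ (by simp) 1 (Or.inl rfl)
  exact ⟨s, hs⟩

section

variable {B : BF ϖ v} {q : ℕ} {s : ℝ → ℤ → ℤ} {Y w : Ω}

/-- The value of `Y` for a valuation extending the content. -/
theorem kap_Y {κ : RVal Ω} (hY : Y ≠ 0) (hL : LatData B.Γ (v Y) q s)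
    (hw : Y ^ q = B.χ (q * v Y) * w) (hκχ : ∀ γ ∈ B.Γ, κ (B.χ γ) = γ) (hκw : κ w = 0) :
    κ Y = v Y := by
  have hw0 : w ≠ 0 := BF.w_ne_zero hY hw
  have h1 := congrArg κ hw
  rw [κ.map_pow hY, κ.map_mul (B.χ_ne _ hL.q_mem) hw0, hκχ _ hL.q_mem, hκw, add_zero] at h1
  have hq : (q : ℝ) ≠ 0 := by exact_mod_cast hL.q_pos.ne'
  exact mul_left_cancel₀ hq h1

/-- The value of the monomials. -/
theorem kap_chi' {κ : RVal Ω} (hY : Y ≠ 0) (hL : LatData B.Γ (v Y) q s)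
    (hw : Y ^ q = B.χ (q * v Y) * w) (hκχ : ∀ γ ∈ B.Γ, κ (B.χ γ) = γ) (hκw : κ w = 0)
    {γ' : ℝ} (hγ' : γ' ∈ B.Γ ⊔ AddSubgroup.zmultiples (v Y)) : κ (B.chi' Y w s γ') = γ' := by
  have hw0 : w ≠ 0 := BF.w_ne_zero hY hw
  obtain ⟨γ, hγ, l, rfl⟩ := BF.mem_sup hγ'
  rw [BF.chi'_eq hY hL hw hγ, κ.map_mul (mul_ne_zero (B.χ_ne γ hγ) (zpow_ne_zero _ hY))
    (zpow_ne_zero _ hw0), κ.map_mul (B.χ_ne γ hγ) (zpow_ne_zero _ hY), κ.map_zpow hY,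
    κ.map_zpow hw0, hκχ γ hγ, kap_Y hY hL hw hκχ hκw, hκw, mul_zero, add_zero]

/-- The elements of the new ring have content `≥ 0`. -/
theorem kap_radj {κ : RVal Ω} (h : Ctx0 ϖ v r) (hY : Y ≠ 0) (hL : LatData B.Γ (v Y) q s)
    (hw : Y ^ q = B.χ (q * v Y) * w) (hκR : ∀ f ∈ B.R, κ.Ge 0 f)
    (hκχ : ∀ γ ∈ B.Γ, κ (B.χ γ) = γ) (hκw : κ w = 0)
    {w0 w1 : Ω} (hw0 : w0 ∈ B.R) (hw1 : VPos v w1) (hκ1 : VPos κ w1) (hww : w = w0 + w1)
    (hκu : ∀ u, B.Un u → κ u = 0) : ∀ f ∈ B.radj Y w s, κ.Ge 0 f := by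
  -- every element of the algebra is an element of `B.R` plus something positive
  have key : ∀ f ∈ Algebra.adjoin Λ ((B.R : Set Ω) ∪
      B.chi' Y w s '' {γ | γ ∈ B.Γ ⊔ AddSubgroup.zmultiples (v Y) ∧ 0 ≤ γ} ∪ {w}),
      ∃ t0 ∈ B.R, VPos v (f - t0) ∧ VPos κ (f - t0) := by
    intro f hf
    induction hf using Algebra.adjoin_induction with
    | mem f hf =>
      rcases hf with (hf | ⟨γ, ⟨hγ, h0⟩, rfl⟩) | hf
      · exact ⟨f, hf, by rw [sub_self]; exact VPos.zero, by rw [sub_self]; exact VPos.zero⟩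
      · rcases h0.lt_or_eq with h1 | h1
        · refine ⟨0, B.R.zero_mem, ?_, ?_⟩
          · rw [sub_zero]
            intro _
            rw [BF.chi'_val hY hL hw hγ]
            exact h1
          · rw [sub_zero]
            intro _
            rw [kap_chi' hY hL hw hκχ hκw hγ]
            exact h1
        · have h2 : B.chi' Y w s 0 = 1 := by
            have h3 := BF.chi'_add hY hL hw (AddSubgroup.zero_mem _) (AddSubgroup.zero_mem _)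
            rw [add_zero] at h3
            exact (mul_right_cancel₀ (BF.chi'_ne hY hL hw (AddSubgroup.zero_mem _))
              (by rw [one_mul]; exact h3)).symm
          refine ⟨1, B.R.one_mem, ?_, ?_⟩
          · rw [← h1, h2, sub_self]; exact VPos.zero
          · rw [← h1, h2, sub_self]; exact VPos.zero
      · rw [Set.mem_singleton_iff.1 hf, hww]
        exact ⟨w0, hw0, by rwa [add_sub_cancel_left], by rwa [add_sub_cancel_left]⟩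
    | algebraMap c =>
      exact ⟨algebraMap Λ Ω c, B.R.algebraMap_mem c, by rw [sub_self]; exact VPos.zero, by
        rw [sub_self]; exact VPos.zero⟩
    | add f g _ _ hf hg =>
      obtain ⟨a, ha, h1, h2⟩ := hf
      obtain ⟨b, hb, h3, h4⟩ := hg
      have e : f + g - (a + b) = (f - a) + (g - b) := by ring
      exact ⟨a + b, B.R.add_mem ha hb, by rw [e]; exact h1.add h3, by rw [e]; exact h2.add h4⟩
    | mul f g _ _ hf hg =>
      obtain ⟨a, ha, h1, h2⟩ := hf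
      obtain ⟨b, hb, h3, h4⟩ := hg
      have e : f * g - a * b = (f - a) * (g - b) + a * (g - b) + b * (f - a) := by ring
      refine ⟨a * b, B.R.mul_mem ha hb, ?_, ?_⟩
      · rw [e]
        exact ((h1.mul h3.ge).add (VPos.mul' (B.nonneg a ha) h3)).add
          (VPos.mul' (B.nonneg b hb) h1)
      · rw [e]
        exact ((h2.mul h4.ge).add (VPos.mul' (hκR a ha) h4)).add (VPos.mul' (hκR b hb) h2)
  have hge : ∀ f ∈ Algebra.adjoin Λ ((B.R : Set Ω) ∪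
      B.chi' Y w s '' {γ | γ ∈ B.Γ ⊔ AddSubgroup.zmultiples (v Y) ∧ 0 ≤ γ} ∪ {w}),
      κ.Ge 0 f := by
    intro f hf
    obtain ⟨t0, ht0, -, h2⟩ := key f hf
    have e : f = t0 + (f - t0) := by ring
    rw [e]
    exact (hκR t0 ht0).add h2.ge
  rintro f ⟨a, ha, b, hb, hb0, hvb, rfl⟩
  obtain ⟨t0, ht0, h1, h2⟩ := key b hb
  -- `t0` is a unit
  have ht00 : t0 ≠ 0 ∧ v t0 = 0 := by
    have h3 := LU1.val_add_vpos hb0 hvb h1.neg
    rwa [show b + -(b - t0) = t0 by ring] at h3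
  have hκb : κ b = 0 := by
    have h3 := LU1.val_add_vpos (v := κ) ht00.1 (hκu t0 ⟨ht0, ht00⟩) h2
    rw [show t0 + (b - t0) = b by ring] at h3
    exact h3.2
  intro h0
  have ha0 : a ≠ 0 := by
    rintro rfl
    exact h0 (zero_div b)
  rw [κ.map_div ha0 hb0, hκb, sub_zero]
  exact hge a ha ha0

end

/-- Adjoining `Y` with `Y^ℓ = χ(ℓ v(Y)) w`, `v(Y) > 0`, where `w` is a constant plus an element
of positive value of the new ring, and `w` is an element of the old ring plus something of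
positive value and positive content. -/
theorem good_adj_of (h : Ctx0 ϖ v r) (B : BF ϖ v) (E : IntermediateField F Ω)
    (hE : FracIs B.R E) {q : ℕ} {s : ℝ → ℤ → ℤ} {Y w : Ω} (hY : Y ≠ 0)
    (hL : LatData B.Γ (v Y) q s) (hw : Y ^ q = B.χ (q * v Y) * w)
    (hwr : Pre v (B.Γ ⊔ AddSubgroup.zmultiples (v Y)) (B.chi' Y w s) B.y (B.radj Y w s) →
      Pre.Res (B.Γ ⊔ AddSubgroup.zmultiples (v Y)) (B.chi' Y w s) B.y (B.radj Y w s) w)
    (κ : RVal Ω) (hκR : ∀ f ∈ B.R, κ.Ge 0 f) (hκχ : ∀ γ ∈ B.Γ, κ (B.χ γ) = γ)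
    (hκy : κ B.y = 0) (hκu : ∀ u, B.Un u → κ u = 0) (hκw : κ w = 0)
    {w0 w1 : Ω} (hw0 : w0 ∈ B.R) (hw1 : VPos v w1) (hκ1 : VPos κ w1) (hww : w = w0 + w1) :
    Good ϖ v (adj E Y) := by
  have H := BF.pre_adjoin hY hL hw h B.y B.y_ne B.y_pos (BF.mem_radj B.y_mem)
  have hge := kap_radj h hY hL hw hκR hκχ hκw hw0 hw1 hκ1 hww hκu
  obtain ⟨B', -, -, -, h4⟩ := BF.exists_adjoin hY hL hw h B.y B.y_ne B.y_pos
    (BF.mem_radj B.y_mem) (hwr H) (fun b hb => H.mm_y (BF.mem_radj hb))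
    (fun D γ hγ h0 a ha h5 => by
      have hχ0 := BF.chi'_ne hY hL hw hγ
      have hyD : B.y ^ D ≠ 0 := pow_ne_zero D B.y_ne
      have ha0 : a ≠ 0 := by
        rintro rfl
        rw [mul_zero] at h5
        exact hyD h5
      have h6 := congrArg κ h5
      rw [κ.map_pow B.y_ne, κ.map_mul hχ0 ha0, hκy, kap_chi' hY hL hw hκχ hκw hγ,
        mul_zero] at h6
      have h7 := hge a ha ha0
      linarith)
  refine ⟨B', ?_⟩
  rw [h4]
  exact BF.fracIs_radj hY hL hw hL.β_pos hE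

theorem not_mem_of_ne {B : BF ϖ v} {ℓ : ℕ} {κ β : ℝ} (h1 : κ = ℓ * β)
    (hκ' : ¬ ∃ δ ∈ B.Γ, κ = ℓ * δ) : β ∉ B.Γ := fun h2 => hκ' ⟨β, h2, h1⟩

theorem rad_frame_pos (h : Ctx0 ϖ v r) (B : BF ϖ v) (E : IntermediateField F Ω)
    (hE : FracIs B.R E) (ℓ : ℕ) (hℓ : ℓ.Prime) {κ : ℝ} (hκ : κ ∈ B.Γ) (hpos : 0 < κ)
    (hκ' : ¬ ∃ δ ∈ B.Γ, κ = ℓ * δ) (Z u : Ω) (hu : B.Un u) (hZ : Z ^ ℓ = B.χ κ * u) :
    Good ϖ v (adj E Z) := by
  have hℓ0 : (0 : ℝ) < ℓ := by exact_mod_cast hℓ.pos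
  have hZ0 : Z ≠ 0 := by
    rintro rfl
    rw [zero_pow hℓ.ne_zero] at hZ
    exact mul_ne_zero (B.χ_ne κ hκ) hu.2.1 hZ.symm
  have hv : (ℓ : ℝ) * v Z = κ := by
    have := congrArg v hZ
    rwa [v.map_pow hZ0, v.map_mul (B.χ_ne κ hκ) hu.2.1, B.χ_val κ hκ, hu.2.2, add_zero] at this
  have hβ : 0 < v Z := by
    rw [← hv] at hpos
    exact (mul_pos_iff_of_pos_left hℓ0).1 hpos
  obtain ⟨s, hL⟩ := exists_latData_prime B ℓ hℓ hβ (by rw [hv]; exact hκ)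
    (not_mem_of_ne hv.symm hκ')
  obtain ⟨K, hKR, hKχ, hKy, hKrep⟩ := B.exists_kap h
  have hKu : ∀ u, B.Un u → K u = 0 := fun u hu => by
    have h1 := hKrep u (v u) 0 (BF.Mono.un hu).rep
    rw [h1, hu.2.2]
  refine good_adj_of h B E hE hZ0 hL (w := u) (by rw [hv]; exact hZ) (fun H => ?_) K hKR hKχ hKy
    hKu (hKu u hu) hu.1 VPos.zero VPos.zero (by rw [add_zero])
  exact BF.res_adjoin hZ0 hL (by rw [hv]; exact hZ) h H
    (fun b hb => H.mm_y (BF.mem_radj hb)) hu.1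

/-- `Z^ℓ = χ(κ) u`, `κ ∉ ℓ Γ`. -/
theorem rad_frame (h : Ctx0 ϖ v r) (B : BF ϖ v) (E : IntermediateField F Ω)
    (hE : FracIs B.R E) (ℓ : ℕ) (hℓ : ℓ.Prime) {κ : ℝ} (hκ : κ ∈ B.Γ)
    (hκ' : ¬ ∃ δ ∈ B.Γ, κ = ℓ * δ) (Z u : Ω) (hu : B.Un u) (hZ : Z ^ ℓ = B.χ κ * u) :
    Good ϖ v (adj E Z) := by
  have hκ0 : κ ≠ 0 := by
    rintro rfl
    exact hκ' ⟨0, B.Γ.zero_mem, by ring⟩
  rcases lt_or_gt_of_ne hκ0 with hneg | hpos
  · have h1 : adj E Z = adj E Z⁻¹ := by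
      refine adj_congr ?_ ((adj E Z).inv_mem (mem_adj E Z))
      have := (adj E Z⁻¹).inv_mem (mem_adj E Z⁻¹)
      rwa [inv_inv] at this
    rw [h1]
    refine rad_frame_pos h B E hE ℓ hℓ (B.Γ.neg_mem hκ) (neg_pos.2 hneg) ?_ Z⁻¹ u⁻¹ hu.inv ?_
    · rintro ⟨δ, hδ, h2⟩
      exact hκ' ⟨-δ, B.Γ.neg_mem hδ, by linarith⟩
    · rw [inv_pow, hZ, mul_inv, B.χ_neg hκ]
  · exact rad_frame_pos h B E hE ℓ hℓ hκ hpos hκ' Z u hu hZ

end Pool.Agent.LUM
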