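import Pool.Agent.Lib.LUM.Etale
import Pool.Agent.Lib.LUM.Rad
import Pool.Agent.Lib.LU1_h15.Kummer

/-! # KUM -/

set_option autoImplicit false
set_option linter.unusedSectionVars false

namespace Pool.Agent.LUM

open Pool.Agent.H15JM (RVal)
open Pool.Agent.LU1 (VPos LatData adj )

universe u

variable {Λ F Ω : Type u} [CommRing Λ] [IsDomain Λ] [IsDiscreteValuationRing Λ] [Field F]
  [Field Ω] [Algebra Λ Ω] [Algebra Λ F] [IsFractionRing Λ F] [Algebra F Ω]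
  [IsScalarTower Λ F Ω] {ϖ : Λ} {v : RVal Ω} {r : ℕ}

theorem Good.kummer (p : ℕ) (hp : p.Prime) [CharP (kk Λ) p] (h : Ctx ϖ v r)
    (E : IntermediateField F Ω) (hE : Good ϖ v E) (ℓ : ℕ) (hℓ : ℓ.Prime) (hℓp : ℓ ≠ p) (g : Ω)
    (hg : g ^ ℓ ∈ E) : Good ϖ v (adj E g) := by
  by_cases hg0 : g = 0
  · subst hg0
    rw [LU1.Kum.adj_eq_self E.zero_mem]
    exact hE
  obtain ⟨B, hB⟩ := hE
  obtain ⟨B', hBB', hM⟩ := ML p hp h B E hB {g ^ ℓ} (by
    intro f hf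
    rw [Finset.mem_singleton] at hf
    rw [hf]
    exact ⟨hg, pow_ne_zero _ hg0⟩)
  have hB' : FracIs B'.R E := hBB'.ext.fracIs hB
  have hM' := hM _ (Finset.mem_singleton_self _)
  rw [BF.mono_iff] at hM'
  obtain ⟨κ, hκ, u, hu, hZ⟩ := hM'
  by_cases hκ' : ∃ δ ∈ B'.Γ, κ = ℓ * δ
  swap
  · exact rad_frame h.toCtx0 B' E hB' ℓ hℓ hκ hκ' g u hu hZ
  obtain ⟨δ, hδ, rfl⟩ := hκ'
  have hχ0 := B'.χ_ne δ hδ
  rw [B'.χ_nsmul hδ] at hZ
  set θ := g / B'.χ δ with hθ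
  have hθ0 : θ ≠ 0 := div_ne_zero hg0 hχ0
  have hθu : θ ^ ℓ = u := by
    rw [hθ, div_pow, hZ, mul_div_cancel_left₀ _ (pow_ne_zero _ hχ0)]
  have hχE : B'.χ δ ∈ E := by
    rcases le_total 0 δ with h0 | h0
    · exact hB'.1 _ (B'.χ_mem δ hδ h0)
    · have h1 := hB'.1 _ (B'.χ_mem (-δ) (B'.Γ.neg_mem hδ) (neg_nonneg.2 h0))
      rw [B'.χ_neg hδ] at h1
      have h2 := E.inv_mem h1
      rwa [inv_inv] at h2
  have hadj : adj E θ = adj E g := by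
    refine LU1.Kum.adj_eq_of ?_ ?_
    · rw [hθ]
      exact (adj E g).div_mem (LU1.Kum.mem_adj_self E g) (LU1.Kum.mem_adj_left hχE)
    · have h1 : g = θ * B'.χ δ := by rw [hθ, div_mul_cancel₀ _ hχ0]
      have h2 := (adj E θ).mul_mem (LU1.Kum.mem_adj_self E θ) (LU1.Kum.mem_adj_left (z := θ) hχE)
      rwa [← h1] at h2
  rw [← hadj]
  have hℓk : (ℓ : kk Λ) ≠ 0 := by
    intro h0
    rw [CharP.cast_eq_zero_iff (kk Λ) p] at h0
    exact hℓp ((Nat.prime_dvd_prime_iff_eq hp hℓ).1 h0).symm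
  have hℓu : IsUnit (ℓ : Λ) := by
    rw [← IsLocalRing.residue_ne_zero_iff_isUnit, map_natCast]
    exact hℓk
  obtain ⟨hℓΩ, hvℓ⟩ := h.toCtx0.triv hℓu
  rw [map_natCast] at hℓΩ hvℓ
  have hvθ : v θ = 0 := by
    have h1 := v.map_pow hθ0 ℓ
    rw [hθu, hu.2.2] at h1
    have h2 : (ℓ : ℝ) ≠ 0 := by exact_mod_cast hℓ.ne_zero
    exact (mul_eq_zero.1 h1.symm).resolve_left h2
  have hder : (Polynomial.X ^ ℓ - Polynomial.C u).derivative.eval θ = (ℓ : Ω) * θ ^ (ℓ - 1) := by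
    rw [Polynomial.derivative_sub, Polynomial.derivative_C, sub_zero, Polynomial.derivative_X_pow,
      Polynomial.eval_mul, Polynomial.eval_C, Polynomial.eval_pow, Polynomial.eval_X]
  refine Good.etale p hp h E ⟨B, hB⟩ θ (Polynomial.X ^ ℓ - Polynomial.C u)
    (Polynomial.monic_X_pow_sub_C u hℓ.ne_zero) ?_ ?_ ?_ ?_
  · intro i
    rw [Polynomial.coeff_sub, Polynomial.coeff_X_pow, Polynomial.coeff_C]
    refine ⟨E.sub_mem ?_ ?_, RVal.Ge.sub ?_ ?_⟩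
    · split_ifs
      · exact E.one_mem
      · exact E.zero_mem
    · split_ifs
      · exact hB'.1 _ hu.1
      · exact E.zero_mem
    · split_ifs
      · intro _; rw [v.map_one]
      · exact RVal.Ge.zero
    · split_ifs
      · exact B'.nonneg u hu.1
      · exact RVal.Ge.zero
  · simp [hθu]
  · rw [hder]
    exact mul_ne_zero hℓΩ (pow_ne_zero _ hθ0)
  · rw [hder, v.map_mul hℓΩ (pow_ne_zero _ hθ0), v.map_pow hθ0, hvℓ, hvθ]
    simp

end Pool.Agent.LUM
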