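import Pool.Agent.Lib.LUM.TameDefs

/-! # F4: semi-invariant parameters -/

set_option autoImplicit false
set_option linter.unusedSectionVars false

open Polynomial

namespace Pool.Agent.LUM

open Pool.Agent.H15JM (RVal)
open Pool.Agent.LU1 (VPos LatData)

universe u

variable {Λ F Ω : Type u} [CommRing Λ] [IsDomain Λ] [IsDiscreteValuationRing Λ] [Field F]
  [Field Ω] [Algebra Λ Ω] [Algebra Λ F] [IsFractionRing Λ F] [Algebra F Ω]
  [IsScalarTower Λ F Ω] {ϖ : Λ} {v : RVal Ω} {r : ℕ}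

variable {L : IntermediateField F Ω} {σ : Ω →ₐ[F] Ω} {ℓ : ℕ}

namespace F4

/-- The projection to the eigenspace of `ζ`. -/
noncomputable def ep (σ : Ω →ₐ[F] Ω) (ℓ : ℕ) (ζ : F) (g : Ω) : Ω :=
  algebraMap F Ω (ℓ : F)⁻¹ * ∑ i ∈ Finset.range ℓ, algebraMap F Ω (ζ⁻¹ ^ i) * (σ ^ i) g

theorem ep_eigen {ζ : F} (hζ : ζ ^ ℓ = 1) (hℓ : ℓ ≠ 0) {g : Ω} (hg : (σ ^ ℓ) g = g) :
    σ (ep σ ℓ ζ g) = algebraMap F Ω ζ * ep σ ℓ ζ g := by
  have hζ0 : ζ ≠ 0 := by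
    rintro rfl
    rw [zero_pow hℓ] at hζ
    exact zero_ne_one hζ
  have h1 : ∑ i ∈ Finset.range ℓ, algebraMap F Ω (ζ⁻¹ ^ (i + 1)) * (σ ^ (i + 1)) g =
      ∑ i ∈ Finset.range ℓ, algebraMap F Ω (ζ⁻¹ ^ i) * (σ ^ i) g := by
    have h2 := Finset.sum_range_succ (fun i => algebraMap F Ω (ζ⁻¹ ^ i) * (σ ^ i) g) ℓ
    have h3 := Finset.sum_range_succ' (fun i => algebraMap F Ω (ζ⁻¹ ^ i) * (σ ^ i) g) ℓ
    rw [h2] at h3
    have h4 : algebraMap F Ω (ζ⁻¹ ^ ℓ) * (σ ^ ℓ) g = algebraMap F Ω (ζ⁻¹ ^ 0) * (σ ^ 0) g := by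
      rw [hg, inv_pow, hζ, inv_one, pow_zero, pow_zero, AlgHom.one_apply]
    rw [h4] at h3
    exact (add_right_cancel h3).symm
  unfold ep
  rw [map_mul, AlgHom.commutes, map_sum, mul_left_comm]
  congr 1
  rw [← h1, Finset.mul_sum]
  refine Finset.sum_congr rfl fun i _ => ?_
  rw [map_mul, AlgHom.commutes, pow_succ' σ, AlgHom.mul_apply, ← mul_assoc, ← map_mul,
    pow_succ, mul_comm ζ, mul_assoc, inv_mul_cancel₀ hζ0, mul_one]

theorem ep_sum {ζ : F} (hζ : IsPrimitiveRoot ζ ℓ) (hℓ : (ℓ : F) ≠ 0) (g : Ω) :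
    ∑ j ∈ Finset.range ℓ, ep σ ℓ (ζ ^ j) g = g := by
  have hℓ0 : ℓ ≠ 0 := by rintro rfl; simp at hℓ
  have hζ0 : ζ ≠ 0 := hζ.ne_zero hℓ0
  unfold ep
  rw [← Finset.mul_sum, Finset.sum_comm]
  have h1 : ∀ i ∈ Finset.range ℓ, ∑ j ∈ Finset.range ℓ,
      algebraMap F Ω ((ζ ^ j)⁻¹ ^ i) * (σ ^ i) g = if i = 0 then (ℓ : Ω) * g else 0 := by
    intro i hi
    rw [← Finset.sum_mul, ← map_sum]
    split_ifs with h0
    · subst h0
      simp
    · have h2 : ∀ j ∈ Finset.range ℓ, (ζ ^ j)⁻¹ ^ i = (ζ⁻¹ ^ i) ^ j := by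
        intro j _
        rw [← inv_pow, ← pow_mul, ← pow_mul, mul_comm]
      rw [Finset.sum_congr rfl h2]
      have h3 : (ζ⁻¹ ^ i) ≠ 1 := by
        intro h
        have h4 : ζ ^ i = 1 := by
          rw [inv_pow, inv_eq_one] at h
          exact h
        have h5 := Nat.le_of_dvd (Nat.pos_of_ne_zero h0) (hζ.dvd_of_pow_eq_one i h4)
        exact absurd (Finset.mem_range.1 hi) (not_lt.2 h5)
      have h6 : (ζ⁻¹ ^ i) ^ ℓ = 1 := by
        rw [← pow_mul, mul_comm, pow_mul, inv_pow, hζ.pow_eq_one, inv_one, one_pow]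
      have h7 := geom_sum_mul (ζ⁻¹ ^ i) ℓ
      rw [h6, sub_self] at h7
      rw [(mul_eq_zero.1 h7).resolve_right (sub_ne_zero.2 h3), map_zero, zero_mul]
  rw [Finset.sum_congr rfl h1, Finset.sum_ite_eq' (Finset.range ℓ) 0,
    if_pos (Finset.mem_range.2 (Nat.pos_of_ne_zero hℓ0)), ← mul_assoc]
  have h2 : algebraMap F Ω (ℓ : F)⁻¹ * (ℓ : Ω) = 1 := by
    rw [← map_natCast (algebraMap F Ω), ← map_mul, inv_mul_cancel₀ hℓ, map_one]
  rw [h2, one_mul]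

theorem ep_mem {R : Subalgebra Λ Ω} (hst : ∀ g ∈ R, σ g ∈ R) (hℓ : ℓ ≠ 0)
    (hu : IsUnit (ℓ : Λ)) {ζ : F} (hζ : ζ ^ ℓ = 1) {g : Ω} (hg : g ∈ R) :
    ep σ ℓ ζ g ∈ R := by
  have h1 : ∀ i : ℕ, (σ ^ i) g ∈ R := by
    intro i
    induction i with
    | zero => simpa using hg
    | succ i ih => rw [pow_succ' σ, AlgHom.mul_apply]; exact hst _ ih
  exact R.mul_mem (inv_nat_mem hu R) (R.sum_mem fun i _ =>
    R.mul_mem (rt_mem hℓ (rt_pow (rt_inv hζ) i) R) (h1 i))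

theorem iter_mem (hσ : SigData Λ v L σ ℓ) {g : Ω} (hg : g ∈ L) (i : ℕ) : (σ ^ i) g ∈ L := by
  induction i with
  | zero => simpa using hg
  | succ i ih => rw [pow_succ' σ, AlgHom.mul_apply]; exact hσ.map _ ih

theorem vpos_map (hσ : SigData Λ v L σ ℓ) {g : Ω} (hg : g ∈ L) (h : VPos v g) : VPos v (σ g) := by
  intro h0
  have h1 : g ≠ 0 := by rintro rfl; simp at h0
  rw [hσ.val g hg h1]
  exact h h1

theorem vpos_iter (hσ : SigData Λ v L σ ℓ) {g : Ω} (hg : g ∈ L) (h : VPos v g) (i : ℕ) :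
    VPos v ((σ ^ i) g) := by
  induction i with
  | zero => simpa using h
  | succ i ih => rw [pow_succ' σ, AlgHom.mul_apply]; exact vpos_map hσ (iter_mem hσ hg i) ih

theorem vpos_sum {ι : Type*} (s : Finset ι) (f : ι → Ω) (h : ∀ i ∈ s, VPos v (f i)) :
    VPos v (∑ i ∈ s, f i) := by
  classical
  induction s using Finset.induction_on with
  | empty => simpa using VPos.zero
  | insert a s ha ih =>
    rw [Finset.sum_insert ha]
    exact (h a (Finset.mem_insert_self a s)).add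
      (ih fun i hi => h i (Finset.mem_insert_of_mem hi))

theorem ep_vpos (hk : Ctx0 ϖ v r) (hσ : SigData Λ v L σ ℓ) {ζ : F} (hζ : ζ ^ ℓ = 1) {g : Ω}
    (hg : g ∈ L) (h : VPos v g) : VPos v (ep σ ℓ ζ g) :=
  VPos.mul' (inv_nat_ge hk hσ.unit) (vpos_sum _ _ fun i _ =>
    VPos.mul' (rt_ge hσ.prime.ne_zero (rt_pow (rt_inv hζ) i)) (vpos_iter hσ hg h i))

/-- Residues of `σ^i g / g`. -/
theorem res_iter (hσ : SigData Λ v L σ ℓ) {g : Ω} (hg : g ∈ L) (h0 : g ≠ 0)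
    {c : Ω} (hcL : c ∈ L) (hcσ : σ c = c) (hcv : v.Ge 0 c) (hc : VPos v (σ g / g - c)) (i : ℕ) :
    VPos v ((σ ^ i) g / g - c ^ i) := by
  have hcvi : ∀ i : ℕ, v.Ge 0 (c ^ i) := by
    intro i
    induction i with
    | zero => rw [pow_zero]; exact fun _ => v.map_one.ge
    | succ i ih =>
      rw [pow_succ]
      have := ih.mul hcv
      rwa [add_zero] at this
  induction i with
  | zero => simpa [div_self h0] using VPos.zero
  | succ i ih =>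
    have hσ0 : σ g ≠ 0 := (map_ne_zero σ).2 h0
    have hL : (σ ^ i) g / g - c ^ i ∈ L :=
      L.sub_mem (L.div_mem (iter_mem hσ hg i) hg) (pow_mem hcL i)
    have h1 := vpos_map hσ hL ih
    rw [map_sub, map_pow, hcσ, map_div₀] at h1
    have h2 : v.Ge 0 (σ g / g) := by
      intro h
      rw [v.map_div hσ0 h0, hσ.val g hg h0, sub_self]
    have h3 := (h1.mul h2).add (VPos.mul' (hcvi i) hc)
    have h4 : (σ ^ (i + 1)) g / g - c ^ (i + 1) =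
        (σ ((σ ^ i) g) / σ g - c ^ i) * (σ g / g) + c ^ i * (σ g / g - c) := by
      rw [pow_succ' σ, AlgHom.mul_apply, pow_succ c]
      field_simp
      ring
    rw [h4]
    exact h3

/-- An eigenvector near a given element. -/
theorem exists_eigen (hk : Ctx0 ϖ v r) (hσ : SigData Λ v L σ ℓ) (B : BF ϖ v)
    (hst : ∀ g ∈ B.R, σ g ∈ B.R) {g : Ω} (hg : g ∈ L) (h0 : g ≠ 0) (hu : B.Un (σ g / g)) :
    ∃ (x : Ω) (c : F), c ^ ℓ = 1 ∧ σ x = algebraMap F Ω c * x ∧ B.Un (x / g) := by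
  have hℓ0 : ℓ ≠ 0 := hσ.prime.ne_zero
  have hord : (σ ^ ℓ) g = g := by
    have := hσ.ord g hg
    rwa [← AlgHom.coe_pow] at this
  obtain ⟨ζ₀, hζ₀⟩ := hσ.root
  obtain ⟨c, hcℓ, hc⟩ : ∃ c : F, c ^ ℓ = 1 ∧ VPos v (σ g / g - algebraMap F Ω c) := by
    refine exists_rt hζ₀ hσ.prime.pos (B.nonneg _ hu.1) ?_
    obtain ⟨d, hd⟩ := B.res _ hu.1
    have hdL : algebraMap Λ Ω d ∈ L := by
      rw [IsScalarTower.algebraMap_apply Λ F Ω]
      exact L.algebraMap_mem _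
    have h2 := res_iter hσ hg h0 hdL (SigF0.σ_alg σ d) (hk.ge d) hd ℓ
    rw [hord, div_self h0] at h2
    have h3 : VPos v ((σ g / g) ^ ℓ - algebraMap Λ Ω d ^ ℓ) := by
      obtain ⟨t, ht⟩ := sub_dvd_pow_sub_pow (⟨σ g / g, hu.1⟩ : B.R)
        ⟨algebraMap Λ Ω d, B.R.algebraMap_mem d⟩ ℓ
      have ht' : (σ g / g) ^ ℓ - algebraMap Λ Ω d ^ ℓ =
          (σ g / g - algebraMap Λ Ω d) * (t : Ω) := by
        have := congrArg (fun z : B.R => (z : Ω)) ht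
        simpa using this
      rw [ht']
      exact hd.mul (B.nonneg _ t.2)
    have h4 : (σ g / g) ^ ℓ - 1 = ((σ g / g) ^ ℓ - algebraMap Λ Ω d ^ ℓ) -
        (1 - algebraMap Λ Ω d ^ ℓ) := by ring
    rw [h4]
    exact h3.sub h2
  have h1 : ∀ i : ℕ, VPos v ((σ ^ i) g / g - algebraMap F Ω (c ^ i)) := fun i => by
    have h2 := res_iter hσ hg h0 (L.algebraMap_mem c) (σ.commutes c)
      (rt_ge hσ.prime.ne_zero hcℓ) hc i
    rwa [← map_pow] at h2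
  have hc0 : c ≠ 0 := by
    rintro rfl
    rw [zero_pow hℓ0] at hcℓ
    exact zero_ne_one hcℓ
  have hmem : ∀ i : ℕ, (σ ^ i) g / g ∈ B.R := by
    intro i
    induction i with
    | zero => simp [div_self h0]
    | succ i ih =>
      have h2 := hst _ ih
      rw [map_div₀] at h2
      have hσ0 : σ g ≠ 0 := (map_ne_zero σ).2 h0
      have h3 : (σ ^ (i + 1)) g / g = (σ ((σ ^ i) g) / σ g) * (σ g / g) := by
        rw [pow_succ' σ, AlgHom.mul_apply]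
        field_simp
      rw [h3]
      exact B.R.mul_mem h2 hu.1
  have hx : ep σ ℓ c g / g = algebraMap F Ω (ℓ : F)⁻¹ *
      ∑ i ∈ Finset.range ℓ, algebraMap F Ω (c⁻¹ ^ i) * ((σ ^ i) g / g) := by
    unfold ep
    rw [mul_div_assoc, Finset.sum_div]
    congr 1
    refine Finset.sum_congr rfl fun i _ => ?_
    rw [mul_div_assoc]
  have hxR : ep σ ℓ c g / g ∈ B.R := by
    rw [hx]
    exact B.R.mul_mem (inv_nat_mem hσ.unit _)
      (B.R.sum_mem fun i _ => B.R.mul_mem (rt_mem hℓ0 (rt_pow (rt_inv hcℓ) i) _) (hmem i))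
  have hone : (1 : Ω) = algebraMap F Ω (ℓ : F)⁻¹ *
      ∑ i ∈ Finset.range ℓ, algebraMap F Ω (c⁻¹ ^ i) * algebraMap F Ω (c ^ i) := by
    have h2 : ∀ i ∈ Finset.range ℓ, algebraMap F Ω (c⁻¹ ^ i) * algebraMap F Ω (c ^ i) = 1 := by
      intro i _
      rw [← map_mul, ← mul_pow, inv_mul_cancel₀ hc0, one_pow, map_one]
    rw [Finset.sum_congr rfl h2, Finset.sum_const, Finset.card_range, nsmul_eq_mul, mul_one,
      ← map_natCast (algebraMap F Ω), ← map_mul, inv_mul_cancel₀ (nat_ne hk hσ.unit : (ℓ : F) ≠ 0), map_one]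
  have hv : VPos v (ep σ ℓ c g / g - 1) := by
    have h2 : ep σ ℓ c g / g - 1 = algebraMap F Ω (ℓ : F)⁻¹ *
        ∑ i ∈ Finset.range ℓ, algebraMap F Ω (c⁻¹ ^ i) *
          ((σ ^ i) g / g - algebraMap F Ω (c ^ i)) := by
      rw [hx, hone, ← mul_sub, ← Finset.sum_sub_distrib]
      congr 1
      refine Finset.sum_congr rfl fun i _ => ?_
      rw [mul_sub]
    rw [h2]
    exact VPos.mul' (inv_nat_ge hk hσ.unit) (vpos_sum _ _ fun i _ =>
      VPos.mul' (rt_ge hℓ0 (rt_pow (rt_inv hcℓ) i)) (h1 i))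
  refine ⟨ep σ ℓ c g, c, hcℓ, ep_eigen hcℓ hℓ0 hord, ?_⟩
  have h2 := (BF.Un.one (B := B)).add_vpos (B.R.sub_mem hxR B.R.one_mem) hv
  rwa [add_sub_cancel] at h2

/-- An element of a frame with `v = 0` which is a monomial times a unit is a unit. -/
theorem mono_un {B : BF ϖ v} {f : Ω} (h : B.Mono f) (h0 : v f = 0) : B.Un f := by
  obtain ⟨h1, -, h3⟩ := h
  rwa [h0, B.χ_zero, div_one] at h3

theorem un_prod {B : BF ϖ v} {ι : Type*} (s : Finset ι) (f : ι → Ω) (h : ∀ i ∈ s, B.Un (f i)) :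
    B.Un (∏ i ∈ s, f i) := by
  classical
  induction s using Finset.induction_on with
  | empty => simpa using (BF.Un.one (B := B))
  | insert a s ha ih =>
    rw [Finset.prod_insert ha]
    exact (h a (Finset.mem_insert_self a s)).mul
      (ih fun i hi => h i (Finset.mem_insert_of_mem hi))

theorem mono_prod {B : BF ϖ v} {ι : Type*} (s : Finset ι) (f : ι → Ω)
    (h : ∀ i ∈ s, B.Mono (f i)) : B.Mono (∏ i ∈ s, f i) := by
  classical
  induction s using Finset.induction_on with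
  | empty => simpa using BF.Mono.un (BF.Un.one (B := B))
  | insert a s ha ih =>
    rw [Finset.prod_insert ha]
    exact (h a (Finset.mem_insert_self a s)).mul
      (ih fun i hi => h i (Finset.mem_insert_of_mem hi))

/-- Some multiple of every element of `Γ` is a combination of the values of the `X_i`. -/
theorem exists_mult (hk : Ctx0 ϖ v r) {X : Fin r → Ω} (hX0 : ∀ i, X i ≠ 0)
    (hX : LinearIndependent ℚ fun i => v (X i)) {g : Ω} (hg : g ≠ 0) :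
    ∃ m : ℕ, 0 < m ∧ ∃ n : Fin r → ℤ, (m : ℝ) * v g = ∑ i, (n i : ℝ) * v (X i) := by
  obtain ⟨Y, -, hYi, hYs⟩ := hk.rank
  have hle : Submodule.span ℚ (Set.range fun i => v (X i)) ≤
      Submodule.span ℚ (Set.range fun i => v (Y i)) := by
    rw [Submodule.span_le]
    rintro _ ⟨i, rfl⟩
    exact hYs _ (hX0 i)
  have hfin : FiniteDimensional ℚ (Submodule.span ℚ (Set.range fun i => v (Y i))) :=
    FiniteDimensional.span_of_finite ℚ (Set.finite_range _)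
  have heq := Submodule.eq_of_le_of_finrank_eq hle (by
    rw [finrank_span_eq_card hX, finrank_span_eq_card hYi])
  have hmem : v g ∈ Submodule.span ℚ (Set.range fun i => v (X i)) := by
    rw [heq]; exact hYs g hg
  obtain ⟨q, hq⟩ := (Submodule.mem_span_range_iff_exists_fun ℚ).1 hmem
  obtain ⟨b, hb⟩ := IsLocalization.exist_integer_multiples_of_finite (nonZeroDivisors ℤ) q
  choose n hn using hb
  have hb0 : (b : ℤ) ≠ 0 := nonZeroDivisors.ne_zero b.2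
  have h1 : ((b : ℤ) : ℝ) * v g = ∑ i, (n i : ℝ) * v (X i) := by
    rw [← hq, Finset.mul_sum]
    refine Finset.sum_congr rfl fun i _ => ?_
    have h2 : ((n i : ℤ) : ℚ) = (b : ℤ) * q i := by
      have := hn i
      rw [zsmul_eq_mul] at this
      simpa using this
    have h3 : ((n i : ℤ) : ℝ) = ((b : ℤ) : ℝ) * (q i : ℝ) := by exact_mod_cast h2
    rw [h3, Rat.smul_def, mul_assoc]
  rcases lt_or_gt_of_ne hb0 with h0 | h0
  · refine ⟨(-(b : ℤ)).toNat, by omega, fun i => -n i, ?_⟩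
    have h2 : (((-(b : ℤ)).toNat : ℕ) : ℝ) = -((b : ℤ) : ℝ) := by
      have h3 : (((-(b : ℤ)).toNat : ℕ) : ℤ) = -(b : ℤ) := Int.toNat_of_nonneg (by omega)
      exact_mod_cast h3
    rw [h2, neg_mul, h1, ← Finset.sum_neg_distrib]
    refine Finset.sum_congr rfl fun i _ => ?_
    push_cast
    ring
  · refine ⟨(b : ℤ).toNat, by omega, n, ?_⟩
    have h2 : (((b : ℤ).toNat : ℕ) : ℝ) = ((b : ℤ) : ℝ) := by
      have h3 : (((b : ℤ).toNat : ℕ) : ℤ) = (b : ℤ) := Int.toNat_of_nonneg (by omega)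
      exact_mod_cast h3
    rw [h2, h1]

theorem χ_mem_L {B : BF ϖ v} (hB : FracIs B.R L) {γ : ℝ} (hγ : γ ∈ B.Γ) : B.χ γ ∈ L := by
  rcases le_total 0 γ with h0 | h0
  · exact hB.1 _ (B.χ_mem γ hγ h0)
  · have h1 := L.inv_mem (hB.1 _ (B.χ_mem (-γ) (B.Γ.neg_mem hγ) (neg_nonneg.2 h0)))
    rwa [B.χ_neg hγ, inv_inv] at h1

/-- `σ` sends units to units. -/
theorem un_map (hσ : SigData Λ v L σ ℓ) {B : BF ϖ v} (hB : FracIs B.R L)
    (hst : ∀ g ∈ B.R, σ g ∈ B.R) {u : Ω} (hu : B.Un u) : B.Un (σ u) :=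
  ⟨hst u hu.1, (map_ne_zero σ).2 hu.2.1, by rw [hσ.val u (hB.1 u hu.1) hu.2.1, hu.2.2]⟩

/-- `σ(χ γ) / χ γ` is a unit. -/
theorem un_χ (hk : Ctx0 ϖ v r) (hσ : SigData Λ v L σ ℓ) {B : BF ϖ v} (hB : FracIs B.R L)
    (hst : ∀ g ∈ B.R, σ g ∈ B.R) {X : Fin r → Ω}
    (hX1 : ∀ i, X i ∈ L ∧ σ (X i) = X i ∧ X i ≠ 0 ∧ B.Mono (X i))
    (hX2 : LinearIndependent ℚ fun i => v (X i)) {γ : ℝ} (hγ : γ ∈ B.Γ) :
    B.Un (σ (B.χ γ) / B.χ γ) := by
  have key : ∀ γ ∈ B.Γ, 0 ≤ γ → B.Un (σ (B.χ γ) / B.χ γ) := by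
    intro γ hγ h0
    have hne := B.χ_ne γ hγ
    have hσne : σ (B.χ γ) ≠ 0 := (map_ne_zero σ).2 hne
    obtain ⟨m, hm, n, hn⟩ := exists_mult hk (fun i => (hX1 i).2.2.1) hX2 hne
    rw [B.χ_val γ hγ] at hn
    set Y : Ω := ∏ i, X i ^ n i with hY
    have hYm : B.Mono Y := mono_prod _ _ fun i _ => (hX1 i).2.2.2.zpow _
    have hYσ : σ Y = Y := by
      rw [hY, map_prod]
      refine Finset.prod_congr rfl fun i _ => ?_
      rw [map_zpow₀, (hX1 i).2.1]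
    have hYv : v Y = m * γ := by
      rw [hY, v.map_prod _ _ fun i _ => zpow_ne_zero _ (hX1 i).2.2.1, hn]
      refine Finset.sum_congr rfl fun i _ => ?_
      rw [v.map_zpow (hX1 i).2.2.1]
    have hu : B.Un (B.χ γ ^ m / Y) := by
      refine mono_un (((BF.Mono.χ hγ).pow m).div hYm) ?_
      rw [v.map_div (pow_ne_zero _ hne) hYm.1, v.map_pow hne, B.χ_val γ hγ, hYv, sub_self]
    have hu' := un_map hσ hB hst hu
    rw [map_div₀, hYσ, map_pow] at hu'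
    have hmono : B.Mono (σ (B.χ γ) ^ m) := by
      have h1 : σ (B.χ γ) ^ m = Y * (σ (B.χ γ) ^ m / Y) := by
        rw [mul_div_cancel₀ _ hYm.1]
      rw [h1]
      exact hYm.mul (BF.Mono.un hu')
    obtain ⟨κ, D, hκ0, hrep⟩ := B.rep_exists hk (hst _ (B.χ_mem γ hγ h0)) hσne
    have h1 := hrep.pow m
    have h2 := hmono.rep
    obtain ⟨h3, h4⟩ := h1.unique hk h2
    have hD : D = 0 := by
      rcases Nat.mul_eq_zero.1 h4 with h | h
      · omega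
      · exact h
    subst hD
    have hm' := hrep.val_zero.2.2
    refine mono_un (hm'.div (BF.Mono.χ hγ)) ?_
    rw [v.map_div hσne hne, hσ.val _ (χ_mem_L hB hγ) hne, sub_self]
  rcases le_total 0 γ with h0 | h0
  · exact key γ hγ h0
  · have h1 := (key (-γ) (B.Γ.neg_mem hγ) (neg_nonneg.2 h0)).inv
    rw [B.χ_neg hγ, map_inv₀, inv_div_inv, inv_div] at h1
    exact h1

/-- `χ` of a combination. -/
theorem χ_sum {B : BF ϖ v} {ι : Type*} (s : Finset ι) (b : ι → ℝ) (hb : ∀ i, b i ∈ B.Γ)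
    (n : ι → ℤ) : (∑ i ∈ s, (n i : ℝ) * b i) ∈ B.Γ ∧
      B.χ (∑ i ∈ s, (n i : ℝ) * b i) = ∏ i ∈ s, B.χ (b i) ^ n i := by
  classical
  have h1 : ∀ i, (n i : ℝ) * b i ∈ B.Γ := fun i => by
    rw [← zsmul_eq_mul]; exact B.Γ.zsmul_mem (hb i) _
  induction s using Finset.induction_on with
  | empty => exact ⟨by simp, by simpa using B.χ_zero⟩
  | insert a s ha ih =>
    rw [Finset.sum_insert ha, Finset.prod_insert ha]
    exact ⟨B.Γ.add_mem (h1 a) ih.1, by rw [B.χ_add _ (h1 a) _ ih.1, B.χ_zsmul (hb a), ih.2]⟩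

/-- Change of `y`. -/
theorem semi_y (hk : Ctx0 ϖ v r) (hσ : SigData Λ v L σ ℓ) (B : BF ϖ v)
    (hB : FracIs B.R L) (hst : ∀ g ∈ B.R, σ g ∈ B.R) :
    ∃ y' : Ω, B.Rep y' 0 1 ∧ ∃ ζ : F, ζ ^ ℓ = 1 ∧ σ y' = algebraMap F Ω ζ * y' := by
  have hℓ0 : ℓ ≠ 0 := hσ.prime.ne_zero
  have hyL : B.y ∈ L := hB.1 _ B.y_mem
  have hord : (σ ^ ℓ) B.y = B.y := by
    have := hσ.ord _ hyL
    rwa [← AlgHom.coe_pow] at this
  obtain ⟨ζ, hζ⟩ := hσ.root
  have hζj : ∀ j : ℕ, (ζ ^ j) ^ ℓ = 1 := fun j => rt_pow hζ.pow_eq_one j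
  by_contra hcon
  push Not at hcon
  have hrep : ∀ j, ¬ B.Rep (ep σ ℓ (ζ ^ j) B.y) 0 1 := by
    intro j hj
    have h1 : (ζ ^ j) ^ ℓ = 1 := by rw [← pow_mul, mul_comm, pow_mul, hζ.pow_eq_one, one_pow]
    exact hcon _ hj (ζ ^ j) h1 (ep_eigen h1 hℓ0 hord)
  have hgen : ∀ j, ∃ γ ∈ B.Γ, 0 < γ ∧ ∃ a ∈ B.R, ∃ b ∈ B.R,
      ep σ ℓ (ζ ^ j) B.y = B.χ γ * a + B.y * b ∧ VPos v b := by
    intro j
    obtain ⟨γ, hγ, h0, a, ha, b, hb, heq⟩ := B.gen _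
      (ep_mem hst hℓ0 hσ.unit (hζj j) B.y_mem) (ep_vpos hk hσ (hζj j) hyL B.vpos_y)
    refine ⟨γ, hγ, h0, a, ha, b, hb, heq, ?_⟩
    intro hb0
    refine lt_of_le_of_ne (B.nonneg b hb hb0) fun hv => hrep j ?_
    refine ⟨B.Γ.zero_mem, b, ⟨hb, hb0, hv.symm⟩, γ, hγ, h0, a, ha, ?_⟩
    rw [heq, B.χ_zero]
    ring
  have hsum : ∀ n : ℕ, ∃ γ ∈ B.Γ, 0 < γ ∧ ∃ a ∈ B.R, ∃ b ∈ B.R,
      ∑ j ∈ Finset.range n, ep σ ℓ (ζ ^ j) B.y = B.χ γ * a + B.y * b ∧ VPos v b := by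
    intro n
    induction n with
    | zero =>
      obtain ⟨γ, hγ, h0, -⟩ := hgen 0
      exact ⟨γ, hγ, h0, 0, B.R.zero_mem, 0, B.R.zero_mem, by simp, VPos.zero⟩
    | succ n ih =>
      obtain ⟨γ, hγ, h0, a, ha, b, hb, heq, hv⟩ := ih
      obtain ⟨γ', hγ', h0', a', ha', b', hb', heq', hv'⟩ := hgen n
      obtain ⟨c, hc, h1⟩ := B.ideal_add hγ hγ' ha ha'
      refine ⟨min γ γ', ?_, lt_min h0 h0', c, hc, b + b', B.R.add_mem hb hb', ?_, hv.add hv'⟩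
      · rcases min_choice γ γ' with h | h <;> rw [h] <;> assumption
      · rw [Finset.sum_range_succ, heq, heq', ← h1]
        ring
  obtain ⟨γ, hγ, h0, a, ha, b, hb, heq, hv⟩ := hsum ℓ
  rw [ep_sum hζ (nat_ne hk hσ.unit)] at heq
  have hu : B.Un (1 + -b) := (BF.Un.one (B := B)).add_vpos (B.R.neg_mem hb) hv.neg
  have h1 : B.y = B.χ γ * (a * (1 + -b)⁻¹) := by
    have h2 : B.y * (1 + -b) = B.χ γ * a := by linear_combination heq
    rw [← mul_assoc, ← h2, mul_assoc, mul_inv_cancel₀ hu.2.1, mul_one]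
  have h2 := B.rep_y.ge_of_mem hk hγ (B.R.mul_mem ha hu.inv.1) h1
  exact absurd h2 (not_le.2 h0)

end F4

/-- F4. -/
theorem SigData.semi (p : ℕ) (hp : p.Prime) [CharP (kk Λ) p] (h : Ctx0 ϖ v r)
    (hσ : SigData Λ v L σ ℓ) (B : BF ϖ v) (hB : FracIs B.R L) (hst : ∀ g ∈ B.R, σ g ∈ B.R)
    (hX : ∃ X : Fin r → Ω, (∀ i, X i ∈ L ∧ σ (X i) = X i ∧ X i ≠ 0 ∧ B.Mono (X i)) ∧
        LinearIndependent ℚ fun i => v (X i)) :
    ∃ C : BF ϖ v, C.R = B.R ∧ Semi σ ℓ C := by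
  classical
  obtain ⟨X, hX1, hX2⟩ := hX
  have hℓ0 : ℓ ≠ 0 := hσ.prime.ne_zero
  -- change of `y`
  obtain ⟨y', hy', ζy, hζy, hσy⟩ := F4.semi_y h hσ B hB hst
  obtain ⟨B1, hΓ1, hχ1, hy1, hR1⟩ := B.change_y h hy'
  -- a basis of `Γ`
  have hfin : Module.Finite ℤ B.Γ :=
    Module.Finite.iff_addGroup_fg.2 ((AddGroup.fg_iff_addSubgroup_fg B.Γ).2 B.fg)
  have hfree : Module.Free ℤ B.Γ := inferInstance
  let bs := Module.Free.chooseBasis ℤ B.Γ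
  let ι := Module.Free.ChooseBasisIndex ℤ B.Γ
  let b : ι → ℝ := fun i => (bs i : ℝ)
  have hb : ∀ i, b i ∈ B.Γ := fun i => (bs i).2
  have hx : ∀ i : ι, ∃ (x : Ω) (c : F), c ^ ℓ = 1 ∧ σ x = algebraMap F Ω c * x ∧
      B.Un (x / B.χ (b i)) := fun i =>
    F4.exists_eigen h hσ B hst (F4.χ_mem_L hB (hb i)) (B.χ_ne _ (hb i))
      (F4.un_χ h hσ hB hst hX1 hX2 (hb i))
  choose x c hc hσx hxu using hx
  have hx0 : ∀ i, x i ≠ 0 := fun i hi => (hxu i).2.1 (by rw [hi, zero_div])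
  let n : ℝ → ι → ℤ := fun γ i => if hγ : γ ∈ B.Γ then bs.repr ⟨γ, hγ⟩ i else 0
  have hn : ∀ γ ∈ B.Γ, γ = ∑ i, (n γ i : ℝ) * b i := by
    intro γ hγ
    have h1 := congrArg (Subtype.val) (bs.sum_repr ⟨γ, hγ⟩)
    have h2 : ((∑ i, bs.repr ⟨γ, hγ⟩ i • bs i : B.Γ) : ℝ) = ∑ i, (n γ i : ℝ) * b i := by
      rw [AddSubgroup.val_finsetSum]
      refine Finset.sum_congr rfl fun i _ => ?_
      simp only [n, b, dif_pos hγ]
      rw [AddSubgroup.coe_zsmul, zsmul_eq_mul]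
    rw [← h2]
    exact h1.symm
  have hnadd : ∀ γ ∈ B.Γ, ∀ δ ∈ B.Γ, ∀ i, n (γ + δ) i = n γ i + n δ i := by
    intro γ hγ δ hδ i
    simp only [n, dif_pos hγ, dif_pos hδ, dif_pos (B.Γ.add_mem hγ hδ)]
    have h1 : (⟨γ + δ, B.Γ.add_mem hγ hδ⟩ : B.Γ) = ⟨γ, hγ⟩ + ⟨δ, hδ⟩ := rfl
    rw [h1, map_add, Finsupp.add_apply]
  let χ' : ℝ → Ω := fun γ => ∏ i, x i ^ n γ i
  have hχu : ∀ γ ∈ B.Γ, B.Un (χ' γ / B.χ γ) := by
    intro γ hγ
    have h1 : B.χ γ = ∏ i, B.χ (b i) ^ n γ i := by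
      conv_lhs => rw [hn γ hγ]
      exact (F4.χ_sum Finset.univ b hb (n γ)).2
    have h2 : χ' γ / B.χ γ = ∏ i, (x i / B.χ (b i)) ^ n γ i := by
      rw [h1, ← Finset.prod_div_distrib]
      refine Finset.prod_congr rfl fun i _ => ?_
      rw [div_zpow]
    rw [h2]
    exact F4.un_prod _ _ fun i _ => (hxu i).zpow _
  have hχ0 : ∀ γ, χ' γ ≠ 0 := fun γ => Finset.prod_ne_zero_iff.2 fun i _ => zpow_ne_zero _ (hx0 i)
  have hχm : ∀ γ ∈ B.Γ, χ' γ = B.χ γ * (χ' γ / B.χ γ) := fun γ hγ => by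
    rw [mul_div_cancel₀ _ (B.χ_ne γ hγ)]
  have hχm' : ∀ γ ∈ B.Γ, B.χ γ = χ' γ * (χ' γ / B.χ γ)⁻¹ := fun γ hγ => by
    rw [inv_div, mul_div_cancel₀ _ (hχ0 γ)]
  have hχmem : ∀ γ ∈ B.Γ, 0 ≤ γ → χ' γ ∈ B.R := fun γ hγ h0 => by
    rw [hχm γ hγ]; exact B.R.mul_mem (B.χ_mem γ hγ h0) (hχu γ hγ).1
  -- generators
  obtain ⟨ζ, hζ⟩ := hσ.root
  have hζj : ∀ j : ℕ, (ζ ^ j) ^ ℓ = 1 := fun j => rt_pow hζ.pow_eq_one j
  obtain ⟨FF, hF⟩ := B.fgen
  have hFR : ∀ f ∈ FF, f ∈ B.R := fun f hf => by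
    rw [hF]; exact le_locv _ (Algebra.subset_adjoin (Or.inl hf))
  let G : Finset Ω := FF ∪ Finset.univ.image fun i => x i / B.χ (b i)
  have hGR : ∀ f ∈ G, f ∈ B.R := by
    intro f hf
    rcases Finset.mem_union.1 hf with hf | hf
    · exact hFR f hf
    · obtain ⟨i, -, rfl⟩ := Finset.mem_image.1 hf
      exact (hxu i).1
  let F' : Finset Ω := (G ×ˢ Finset.range ℓ).image fun a => F4.ep σ ℓ (ζ ^ a.2) a.1
  have hF'R : ∀ f ∈ F', f ∈ B.R := by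
    intro f hf
    obtain ⟨a, ha, rfl⟩ := Finset.mem_image.1 hf
    exact F4.ep_mem hst hℓ0 hσ.unit (hζj _) (hGR _ (Finset.mem_product.1 ha).1)
  let T : Subalgebra Λ Ω :=
    locv v (Algebra.adjoin Λ ((F' : Set Ω) ∪ χ' '' {γ | γ ∈ B.Γ ∧ 0 ≤ γ}))
  have hTR : B.R = T := by
    apply le_antisymm
    · have hGT : ∀ g ∈ G, g ∈ T := by
        intro g hg
        rw [← F4.ep_sum (σ := σ) hζ (nat_ne h hσ.unit) g]
        refine T.sum_mem fun j hj => le_locv _ (Algebra.subset_adjoin (Or.inl ?_))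
        exact Finset.mem_coe.2 (Finset.mem_image.2 ⟨(g, j), Finset.mem_product.2 ⟨hg, hj⟩, rfl⟩)
      have hTinv : ∀ f ∈ T, f ≠ 0 → v f = 0 → f⁻¹ ∈ T := fun f hf h0 h1 => locv_inv hf h0 h1
      have huT : ∀ i, x i / B.χ (b i) ∈ T := fun i =>
        hGT _ (Finset.mem_union_right _ (Finset.mem_image_of_mem _ (Finset.mem_univ i)))
      have huz : ∀ i (m : ℤ), (x i / B.χ (b i)) ^ m ∈ T := by
        intro i m
        cases m with
        | ofNat m => simpa using T.pow_mem (huT i) m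
        | negSucc m =>
          rw [zpow_negSucc, ← inv_pow]
          exact T.pow_mem (hTinv _ (huT i) (hxu i).2.1 (hxu i).2.2) _
      have hquo : ∀ γ ∈ B.Γ, (χ' γ / B.χ γ)⁻¹ ∈ T := by
        intro γ hγ
        have h1 : B.χ γ = ∏ i, B.χ (b i) ^ n γ i := by
          conv_lhs => rw [hn γ hγ]
          exact (F4.χ_sum Finset.univ b hb (n γ)).2
        have h2 : (χ' γ / B.χ γ)⁻¹ = ∏ i, (x i / B.χ (b i)) ^ (-n γ i) := by
          rw [h1, ← Finset.prod_div_distrib, ← Finset.prod_inv_distrib]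
          refine Finset.prod_congr rfl fun i _ => ?_
          rw [← div_zpow, zpow_neg]
        rw [h2]
        exact T.prod_mem fun i _ => huz i _
      rw [hF]
      refine locv_le (Algebra.adjoin_le ?_) hTinv
      rintro f (hf | ⟨γ, ⟨hγ, h0⟩, rfl⟩)
      · exact hGT f (Finset.mem_union_left _ hf)
      · rw [hχm' γ hγ]
        exact T.mul_mem (le_locv _ (Algebra.subset_adjoin (Or.inr ⟨γ, ⟨hγ, h0⟩, rfl⟩)))
          (hquo γ hγ)
    · refine locv_le (Algebra.adjoin_le ?_) B.loc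
      rintro f (hf | ⟨γ, ⟨hγ, h0⟩, rfl⟩)
      · exact hF'R f hf
      · exact hχmem γ hγ h0
  -- the new frame
  let C : BF ϖ v :=
    { Γ := B.Γ
      fg := B.fg
      full := B.full
      χ := χ'
      χ_ne := fun γ _ => hχ0 γ
      χ_add := fun γ hγ δ hδ => by
        simp only [χ']
        rw [← Finset.prod_mul_distrib]
        refine Finset.prod_congr rfl fun i _ => ?_
        rw [hnadd γ hγ δ hδ i, zpow_add₀ (hx0 i)]
      χ_val := fun γ hγ => by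
        rw [hχm γ hγ, v.map_mul (B.χ_ne γ hγ) (hχu γ hγ).2.1, B.χ_val γ hγ, (hχu γ hγ).2.2,
          add_zero]
      y := y'
      y_ne := by rw [← hy1]; exact B1.y_ne
      y_pos := by rw [← hy1]; exact B1.y_pos
      R := B.R
      nonneg := B.nonneg
      loc := B.loc
      χ_mem := hχmem
      y_mem := by rw [← hy1, ← hR1]; exact B1.y_mem
      fgen := ⟨F', hTR⟩
      gen := by
        intro f hf hv
        obtain ⟨γ, hγ, h0, a, ha, b, hb, heq⟩ := B1.gen f (by rw [hR1]; exact hf) hv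
        rw [hΓ1] at hγ
        rw [hR1] at ha hb
        rw [hχ1, hy1, hχm' γ hγ] at heq
        exact ⟨γ, hγ, h0, (χ' γ / B.χ γ)⁻¹ * a, B.R.mul_mem (hχu γ hγ).inv.1 ha, b, hb, by
          rw [heq, mul_assoc]⟩
      alg := B.alg
      res := B.res
      pi_mem := B.pi_mem
      pi_un := by
        have h1 : algebraMap Λ Ω ϖ / χ' (v (algebraMap Λ Ω ϖ)) =
            algebraMap Λ Ω ϖ / B.χ (v (algebraMap Λ Ω ϖ)) *
              (χ' (v (algebraMap Λ Ω ϖ)) / B.χ (v (algebraMap Λ Ω ϖ)))⁻¹ := by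
          have h2 := B.χ_ne _ B.pi_mem
          have h3 := hχ0 (v (algebraMap Λ Ω ϖ))
          field_simp
        rw [h1]
        exact B.R.mul_mem B.pi_un (hχu _ B.pi_mem).inv.1
      reg := by
        intro D γ hγ h0 a ha hD
        refine B1.reg D γ (by rw [hΓ1]; exact hγ) h0 ((χ' γ / B.χ γ) * a)
          (by rw [hR1]; exact B.R.mul_mem (hχu γ hγ).1 ha) ?_
        rw [hy1, hχ1, hD, ← mul_assoc, ← hχm γ hγ] }
  refine ⟨C, rfl, ?_⟩
  refine ⟨hst, ?_, ⟨ζy, hζy, hσy⟩, F', ?_, hTR⟩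
  · intro γ hγ
    refine ⟨∏ i, c i ^ n γ i, ?_, ?_⟩
    · rw [← Finset.prod_pow]
      refine Finset.prod_eq_one fun i _ => ?_
      rw [← zpow_natCast, ← zpow_mul, mul_comm, zpow_mul, zpow_natCast, hc i, one_zpow]
    · change σ (∏ i, x i ^ n γ i) = _ * ∏ i, x i ^ n γ i
      rw [map_prod, map_prod, ← Finset.prod_mul_distrib]
      refine Finset.prod_congr rfl fun i _ => ?_
      rw [map_zpow₀, map_zpow₀, hσx i, mul_zpow]
  · intro f hf
    obtain ⟨a, ha, rfl⟩ := Finset.mem_image.1 hf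
    have h1 : (ζ ^ a.2) ^ ℓ = 1 := by rw [← pow_mul, mul_comm, pow_mul, hζ.pow_eq_one, one_pow]
    refine ⟨ζ ^ a.2, h1, F4.ep_eigen h1 hℓ0 ?_⟩
    have h2 := hσ.ord _ (hB.1 _ (hGR _ (Finset.mem_product.1 ha).1))
    rwa [← AlgHom.coe_pow] at h2

end Pool.Agent.LUM
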