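import Pool.Agent.Lib.LUM.TameStab
import Pool.Agent.Lib.LUM.TameSemi
import Pool.Agent.Lib.LUM.TameInv

/-! # Tame descent -/

set_option autoImplicit false
set_option linter.unusedSectionVars false

open Polynomial

namespace Pool.Agent.LUM

open Pool.Agent.H15JM (RVal)
open Pool.Agent.LU1 (VPos LatData)

universe u

variable {Λ F Ω : Type u} [CommRing Λ] [IsDomain Λ] [IsDiscreteValuationRing Λ] [Field F]
  [Field Ω] [Algebra Λ Ω] [Algebra Λ F] [IsFractionRing Λ F] [Algebra F Ω]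
  [IsScalarTower Λ F Ω] {ϖ : Λ} {v : RVal Ω} {r : ℕ}

variable {L : IntermediateField F Ω} {σ : Ω →ₐ[F] Ω} {ℓ : ℕ}

/-- `f` is an eigenvector of `σ` for an `ℓ`-th root of unity. -/
def TameEig (σ : Ω →ₐ[F] Ω) (ℓ : ℕ) (f : Ω) : Prop :=
  ∃ ζ : F, ζ ^ ℓ = 1 ∧ σ f = algebraMap F Ω ζ * f

/-- Besides `FF` and the monomials, the ring of `B` is generated by finitely many units which are
eigenvectors. -/
def TameGens (σ : Ω →ₐ[F] Ω) (ℓ : ℕ) (FF : Finset Ω) (B : BF ϖ v) : Prop :=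
  ∃ G : Finset Ω, (∀ g ∈ G, B.Un g ∧ TameEig σ ℓ g) ∧
    B.R = locv v (Algebra.adjoin Λ ((FF : Set Ω) ∪ G ∪ B.χ '' {γ | γ ∈ B.Γ ∧ 0 ≤ γ}))

theorem TameEig.pow {f : Ω} (hf : TameEig σ ℓ f) (q : ℕ) : TameEig σ ℓ (f ^ q) := by
  obtain ⟨ζ, h1, h2⟩ := hf
  refine ⟨ζ ^ q, by rw [← pow_mul, mul_comm, pow_mul, h1, one_pow], ?_⟩
  rw [_root_.map_pow, h2, mul_pow, _root_.map_pow]

theorem TameEig.div {f g : Ω} (hf : TameEig σ ℓ f) (hg : TameEig σ ℓ g) :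
    TameEig σ ℓ (f / g) := by
  obtain ⟨ζ, h1, h2⟩ := hf
  obtain ⟨ξ, h3, h4⟩ := hg
  refine ⟨ζ / ξ, by rw [div_pow, h1, h3, div_one], ?_⟩
  rw [map_div₀, h2, h4, map_div₀, mul_div_mul_comm]

theorem TameGens.tstep {FF : Finset Ω} {B B' : BF ϖ v} (hS : Semi σ ℓ B)
    (hG : TameGens σ ℓ FF B) (hT : TStep B B') : TameGens σ ℓ FF B' := by
  classical
  obtain ⟨G, hG1, hG2⟩ := hG
  have hext := hT.ext
  obtain ⟨q, c, s, hT⟩ := hT
  have hw : TameEig σ ℓ (B.w q) := by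
    rw [BF.w]
    exact TameEig.div (TameEig.pow hS.y q) (hS.chi _ hT.q_mem)
  refine ⟨G ∪ {B.w q}, ?_, ?_⟩
  · intro g hg
    rcases Finset.mem_union.1 hg with hg | hg
    · exact ⟨(hG1 g hg).1.ext hext, (hG1 g hg).2⟩
    · rw [Finset.mem_singleton] at hg
      subst hg
      exact ⟨hT.un_w, hw⟩
  · have hFG : ∀ f ∈ (FF : Set Ω) ∪ G, f ∈ B.R := by
      intro f hf
      rw [hG2]
      exact le_locv _ (Algebra.subset_adjoin (Or.inl hf))
    apply le_antisymm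
    · have hinv : ∀ f ∈ locv v (Algebra.adjoin Λ ((FF : Set Ω) ∪ ((G ∪ {B.w q} : Finset Ω) : Set Ω)
          ∪ B'.χ '' {γ | γ ∈ B'.Γ ∧ 0 ≤ γ})), f ≠ 0 → v f = 0 →
          f⁻¹ ∈ locv v (Algebra.adjoin Λ ((FF : Set Ω) ∪ ((G ∪ {B.w q} : Finset Ω) : Set Ω)
          ∪ B'.χ '' {γ | γ ∈ B'.Γ ∧ 0 ≤ γ})) := fun f hf h0 h1 => locv_inv hf h0 h1
      have hwm : B.w q ∈ locv v (Algebra.adjoin Λ ((FF : Set Ω) ∪
          ((G ∪ {B.w q} : Finset Ω) : Set Ω) ∪ B'.χ '' {γ | γ ∈ B'.Γ ∧ 0 ≤ γ})) := by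
        refine le_locv _ (Algebra.subset_adjoin (Or.inl (Or.inr ?_)))
        simp
      have hχm : ∀ γ ∈ B'.Γ, 0 ≤ γ → B'.χ γ ∈ locv v (Algebra.adjoin Λ ((FF : Set Ω) ∪
          ((G ∪ {B.w q} : Finset Ω) : Set Ω) ∪ B'.χ '' {γ | γ ∈ B'.Γ ∧ 0 ≤ γ})) := by
        intro γ hγ h0
        exact le_locv _ (Algebra.subset_adjoin (Or.inr ⟨γ, ⟨hγ, h0⟩, rfl⟩))
      have hFm : ∀ f ∈ FF, f ∈ locv v (Algebra.adjoin Λ ((FF : Set Ω) ∪
          ((G ∪ {B.w q} : Finset Ω) : Set Ω) ∪ B'.χ '' {γ | γ ∈ B'.Γ ∧ 0 ≤ γ})) := by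
        intro f hf
        exact le_locv _ (Algebra.subset_adjoin (Or.inl (Or.inl hf)))
      have hGm : ∀ f ∈ G, f ∈ locv v (Algebra.adjoin Λ ((FF : Set Ω) ∪
          ((G ∪ {B.w q} : Finset Ω) : Set Ω) ∪ B'.χ '' {γ | γ ∈ B'.Γ ∧ 0 ≤ γ})) := by
        intro f hf
        refine le_locv _ (Algebra.subset_adjoin (Or.inl (Or.inr ?_)))
        simp [hf]
      generalize hA : locv v (Algebra.adjoin Λ ((FF : Set Ω) ∪
          ((G ∪ {B.w q} : Finset Ω) : Set Ω) ∪ B'.χ '' {γ | γ ∈ B'.Γ ∧ 0 ≤ γ})) = A at *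
      have hwz : ∀ n : ℤ, (B.w q) ^ n ∈ A := by
        intro n
        cases n with
        | ofNat n => simpa using A.pow_mem hwm n
        | negSucc n =>
          rw [zpow_negSucc, ← inv_pow]
          exact A.pow_mem (hinv _ hwm hT.w_ne hT.v_w) _
      have hBA : B.R ≤ A := by
        rw [hG2]
        refine locv_le (Algebra.adjoin_le ?_) hinv
        rintro f ((hf | hf) | ⟨γ, ⟨hγ, h0⟩, rfl⟩)
        · exact hFm f hf
        · exact hGm f hf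
        · have h1 := hT.χ_mul hγ 0
          rw [zpow_zero, mul_one, Int.cast_zero, zero_mul, add_zero] at h1
          rw [SetLike.mem_coe, h1]
          exact A.mul_mem (hχm γ (hT.Γ_le hγ) h0) (hwz _)
      rw [hT.R_eq]
      refine locv_le (Algebra.adjoin_le ?_) hinv
      rintro f ((hf | ⟨γ, ⟨hγ, h0⟩, rfl⟩) | hf)
      · exact hBA hf
      · exact hχm γ hγ h0
      · rw [Set.mem_singleton_iff] at hf
        subst hf
        exact hwm
    · refine locv_le (Algebra.adjoin_le ?_) B'.loc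
      rintro f ((hf | hf) | ⟨γ, ⟨hγ, h0⟩, rfl⟩)
      · exact hT.R_le (hFG f (Or.inl hf))
      · rcases Finset.mem_union.1 (Finset.mem_coe.1 hf) with hf | hf
        · exact hT.R_le (hFG f (Or.inr hf))
        · rw [Finset.mem_singleton] at hf
          subst hf
          exact hT.un_w.1
      · exact B'.χ_mem γ hγ h0

/-- Everything is kept along chains of T-steps. -/
theorem TameGens.reach (h : Ctx0 ϖ v r) (hσ : SigData Λ v L σ ℓ) {FF : Finset Ω} {B B' : BF ϖ v}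
    (hB : FracIs B.R L) (hS : Semi σ ℓ B) (hG : TameGens σ ℓ FF B) (hR : Reach B B') :
    FracIs B'.R L ∧ Semi σ ℓ B' ∧ TameGens σ ℓ FF B' := by
  induction hR with
  | refl => exact ⟨hB, hS, hG⟩
  | tail _ h2 ih =>
    exact ⟨h2.ext.fracIs ih.1, (ih.2.1.tstep h hσ ih.1 h2).1, ih.2.2.tstep ih.2.1 h2⟩

theorem Good.tame (p : ℕ) (hp : p.Prime) [CharP (kk Λ) p] (h : Ctx ϖ v r)
    (hσ : SigData Λ v L σ ℓ) (W : IntermediateField F Ω)
    (hW : ∀ g, g ∈ W ↔ g ∈ L ∧ σ g = g) (hL : Good ϖ v L) : Good ϖ v W := by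
  classical
  obtain ⟨B0, hB0, hst, hX⟩ := hσ.stab p hp h hL
  obtain ⟨C, hCR, hC⟩ := hσ.semi p hp h.toCtx0 B0 hB0 hst hX
  have hCf : FracIs C.R L := by rw [hCR]; exact hB0
  obtain ⟨FF, hF, hR⟩ := hC.gens
  have hFR : ∀ f ∈ FF, f ∈ C.R := by
    intro f hf
    rw [hR]
    exact le_locv _ (Algebra.subset_adjoin (Or.inl hf))
  obtain ⟨B1, B', h1, h2, h3⟩ := ML' p hp h C L hCf (FF.filter fun f => f ≠ 0)
    (fun f hf => ⟨hCf.1 f (hFR f (Finset.mem_filter.1 hf).1), (Finset.mem_filter.1 hf).2⟩)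
  have hG0 : TameGens σ ℓ FF C := ⟨∅, by simp, by simpa using hR⟩
  obtain ⟨k1, k2, k3⟩ := hG0.reach h.toCtx0 hσ hCf hC h1
  obtain ⟨hS', hy'⟩ := k2.tstep h.toCtx0 hσ k1 h2
  have hf' := h2.ext.fracIs k1
  obtain ⟨G, hG1, hG2⟩ := k3.tstep k2 h2
  refine hS'.inv h.toCtx0 hσ W hW hf' hy' (FF ∪ G) ?_ ?_
  · intro f hf
    rcases Finset.mem_union.1 hf with hf | hf
    · refine ⟨hF f hf, ?_⟩
      by_cases h0 : f = 0
      · exact Or.inl h0
      · exact Or.inr (h3 f (Finset.mem_filter.2 ⟨hf, h0⟩))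
    · exact ⟨(hG1 f hf).2, Or.inr (BF.Mono.un (hG1 f hf).1)⟩
  · apply le_antisymm
    · rw [hG2]
      refine locv_mono (Algebra.adjoin_mono ?_)
      rintro f ((hf | hf) | hf)
      · exact Or.inl (Or.inl (by simp only [Finset.coe_union]; exact Or.inl hf))
      · exact Or.inl (Or.inl (by simp only [Finset.coe_union]; exact Or.inr hf))
      · exact Or.inr hf
    · refine locv_le (Algebra.adjoin_le ?_) B'.loc
      have hFG : ∀ f ∈ (FF : Set Ω) ∪ G, f ∈ B'.R := by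
        intro f hf
        rw [hG2]
        exact le_locv _ (Algebra.subset_adjoin (Or.inl hf))
      rintro f ((hf | hf) | ⟨γ, ⟨hγ, h0⟩, rfl⟩)
      · exact hFG f (by simpa only [Finset.coe_union] using hf)
      · rw [Set.mem_singleton_iff] at hf
        subst hf
        exact B'.y_mem
      · exact B'.χ_mem γ hγ h0

end Pool.Agent.LUM
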