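import Pool.Agent.Lib.LU1_h15.GalSteps
import Pool.Agent.Lib.LU1_h15.GalTame
import Pool.Agent.Lib.LU1_h15.GroupThy
import Pool.Agent.Lib.LUM.Kummer
import Pool.Agent.Lib.LUM.Tame

/-! # G3, G4, G5: Kummer and tame steps -/

set_option autoImplicit false
set_option linter.unusedSectionVars false

open Polynomial

namespace Pool.Agent.LUM

open Pool.Agent.H15JM (RVal)
open Pool.Agent.LU1 (VPos fixO mem_fixO decG adj fixO_eq_adj exists_moved fix_b mem_fixO_of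
  exists_gen_of_relIndex_prime)

universe u

variable {Λ Q Ω : Type u} [CommRing Λ] [IsDomain Λ] [IsDiscreteValuationRing Λ] [Field Q]
  [Field Ω] [Algebra Λ Ω] [Algebra Λ Q] [IsFractionRing Λ Q] [Algebra Q Ω]
  [IsScalarTower Λ Q Ω] {ϖ : Λ} {v : RVal Ω} {r : ℕ}

/-- A generator `g` of `N^A` over `N^B` with `g ^ ℓ ∈ N^B`. -/
theorem exists_kummer_gen (F : IntermediateField Q Ω) (N : IntermediateField F Ω)
    [FiniteDimensional F N] [IsGalois F N] (A B : Subgroup (N ≃ₐ[F] N)) (ℓ : ℕ) (hℓ : ℓ.Prime)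
    (hℓ0 : (ℓ : N) ≠ 0) (ζ : N) (hζ : IsPrimitiveRoot ζ ℓ) (hζB : ∀ b ∈ B, b ζ = ζ)
    (hAB : A ≤ B) (hn : ∀ b ∈ B, ∀ x ∈ A, b * x * b⁻¹ ∈ A) (hi : A.relIndex B = ℓ) :
    ∃ g : Ω, g ^ ℓ ∈ fixO F N B ∧ fixO F N A = adj (fixO F N B) g := by
  obtain ⟨b, hb, hbA, hconj, hgen, θ, hθ, hbθ⟩ := exists_moved F N A B ℓ hℓ hn hi
  have hιA : ∀ a ∈ A, a ζ = ζ := fun a ha => hζB a (hAB ha)
  have hiter : ∀ (i : ℕ) (x : N), ((b : N →+* N)^[i]) x = (b ^ i) x := by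
    intro i
    induction i with
    | zero => intro x; rfl
    | succ i ih =>
      intro x
      rw [Function.iterate_succ_apply', ih, pow_succ', AlgEquiv.mul_apply]
      rfl
  obtain ⟨j, hj1, hj2⟩ := LU1.exists_eigen (b : N →+* N) ℓ hℓ hℓ0 ζ hζ (hζB b hb) θ
    (by rw [hiter]; exact hθ _ hbA) hbθ
  set g : N := ∑ i ∈ Finset.range ℓ, ζ⁻¹ ^ (i * j) * ((b : N →+* N)^[i]) θ with hg
  have hgA : ∀ a ∈ A, a g = g := by
    intro a ha
    rw [hg, map_sum]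
    refine Finset.sum_congr rfl fun i _ => ?_
    rw [map_mul, map_pow, map_inv₀, hιA a ha]
    congr 1
    have : ∀ i : ℕ, ∀ a ∈ A, a (((b : N →+* N)^[i]) θ) = ((b : N →+* N)^[i]) θ := by
      intro i
      induction i with
      | zero => exact hθ
      | succ i ih =>
        rw [Function.iterate_succ_apply']
        exact fix_b hconj ih
    exact this i a ha
  have hbg : b g ≠ g := hj2
  refine ⟨g, ?_, fixO_eq_adj F N A B ℓ hℓ hAB hi g hgA b hb hbg⟩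
  have h1 : ((g ^ ℓ : N) : Ω) ∈ fixO F N B := by
    refine mem_fixO_of hgen (fun a ha => by rw [map_pow, hgA a ha]) ?_
    have : b g = ζ ^ j * g := hj1
    rw [map_pow, this, mul_pow, ← pow_mul, mul_comm j, pow_mul, hζ.pow_eq_one, one_pow, one_mul]
  simpa using h1

theorem good_kummer_step (p : ℕ) (hp : p.Prime) [CharP (kk Λ) p] [CharZero Ω] (h : Ctx ϖ v r)
    (hrt : ∀ ℓ : ℕ, ℓ.Prime → ℓ ≠ p → ∃ ζ : Q, IsPrimitiveRoot ζ ℓ)
    (F : IntermediateField Q Ω) (N : IntermediateField F Ω) [FiniteDimensional F N]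
    [IsGalois F N] (A B : Subgroup (N ≃ₐ[F] N)) (ℓ : ℕ) (hℓ : ℓ.Prime) (hℓp : ℓ ≠ p)
    (hAB : A ≤ B) (hn : ∀ b ∈ B, ∀ x ∈ A, b * x * b⁻¹ ∈ A) (hi : A.relIndex B = ℓ)
    (hB : Good ϖ v (fixO F N B)) : Good ϖ v (fixO F N A) := by
  obtain ⟨ζ, hζ⟩ := hrt ℓ hℓ hℓp
  let ι : Q →+* N := (algebraMap F N).comp (algebraMap Q F)
  have hι : Function.Injective ι := ι.injective
  have : CharZero N := ⟨fun a b hab => by
    have h1 := congrArg (algebraMap N Ω) hab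
    rw [map_natCast, map_natCast] at h1
    exact_mod_cast h1⟩
  obtain ⟨g, hg, hE⟩ := exists_kummer_gen F N A B ℓ hℓ (by exact_mod_cast hℓ.ne_zero) (ι ζ)
    (hζ.map_of_injective hι) (fun b _ => b.commutes _) hAB hn hi
  rw [hE]
  exact Good.kummer p hp h _ hB ℓ hℓ hℓp g hg

/-- The roots of unity of order `p` are fixed by automorphisms of order a power of `p`. -/
theorem fixed_root {M : Type*} [Field M] (p : ℕ) (hp : p.Prime) {ζ : M}
    (hζ : IsPrimitiveRoot ζ p) (σ : M ≃+* M) (n : ℕ) (hσ : (σ ^ p ^ n) ζ = ζ) : σ ζ = ζ := by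
  have : Fact p.Prime := ⟨hp⟩
  have : NeZero p := ⟨hp.ne_zero⟩
  obtain ⟨a, ha, haζ⟩ := hζ.eq_pow_of_pow_eq_one (ξ := σ ζ)
    (by rw [← map_pow, hζ.pow_eq_one, map_one])
  have h1 : ∀ k : ℕ, (σ ^ k) ζ = ζ ^ a ^ k := by
    intro k
    induction k with
    | zero => simp
    | succ k ih =>
      rw [pow_succ', RingAut.mul_apply, ih, map_pow, ← haζ, ← pow_mul, pow_succ']
  have h2 : ζ ^ a ^ p ^ n = ζ := by rw [← h1, hσ]
  have hζ0 : ζ ≠ 0 := hζ.ne_zero hp.ne_zero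
  have h3 : ((p : ℕ) : ℤ) ∣ ((a : ℤ) ^ p ^ n - 1) := by
    refine (hζ.zpow_eq_one_iff_dvd _).1 ?_
    rw [zpow_sub₀ hζ0, zpow_one]
    have : ζ ^ ((a : ℤ) ^ p ^ n) = ζ := by
      have h4 : ((a : ℤ) ^ p ^ n) = ((a ^ p ^ n : ℕ) : ℤ) := by push_cast; rfl
      rw [h4, zpow_natCast, h2]
    rw [this, div_self hζ0]
  have h4 : ((a : ℤ) : ZMod p) ^ p ^ n = 1 := by
    have := (ZMod.intCast_zmod_eq_zero_iff_dvd _ p).2 h3
    push_cast at this ⊢
    exact sub_eq_zero.1 this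
  rw [ZMod.pow_card_pow] at h4
  have h5 : ((p : ℕ) : ℤ) ∣ ((a : ℤ) - 1) := by
    refine (ZMod.intCast_zmod_eq_zero_iff_dvd _ p).1 ?_
    push_cast at h4 ⊢
    rw [h4, sub_self]
  have h6 := (hζ.zpow_eq_one_iff_dvd _).2 h5
  rw [zpow_sub₀ hζ0, zpow_one, zpow_natCast, div_eq_one_iff_eq hζ0] at h6
  rw [← haζ, h6]

theorem good_tame_step (p : ℕ) (hp : p.Prime) [CharP (kk Λ) p] [IsAlgClosed Ω]
    (h : Ctx ϖ v r)
    (hrt : ∀ ℓ : ℕ, ℓ.Prime → ℓ ≠ p → ∃ ζ : Q, IsPrimitiveRoot ζ ℓ)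
    (F : IntermediateField Q Ω) (N : IntermediateField F Ω) [FiniteDimensional F N]
    [IsGalois F N] (halg : ∀ g : Ω, IsAlgebraic F g) (A B : Subgroup (N ≃ₐ[F] N)) (ℓ : ℕ)
    (hℓ : ℓ.Prime) (hℓp : ℓ ≠ p)
    (hAB : A ≤ B) (hBD : B ≤ decG v F N) (hn : ∀ b ∈ B, ∀ x ∈ A, b * x * b⁻¹ ∈ A)
    (hi : A.relIndex B = ℓ) (hA : Good ϖ v (fixO F N A)) : Good ϖ v (fixO F N B) := by
  obtain ⟨b, hb, hbA, hgen⟩ := exists_gen_of_relIndex_prime A B ℓ hℓ hn hi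
  have : Algebra.IsAlgebraic F Ω := ⟨halg⟩
  have : Normal F Ω := by
    have : IsAlgClosure F Ω := ⟨inferInstance, inferInstance⟩
    exact IsAlgClosure.normal F Ω
  let τ : Ω ≃ₐ[F] Ω := b.liftNormal Ω
  have hτ : ∀ n : N, τ (n : Ω) = ((b n : N) : Ω) := fun n => AlgEquiv.liftNormal_commutes b Ω n
  let σ : Ω →ₐ[Q] Ω := (τ : Ω →ₐ[F] Ω).restrictScalars Q
  have hσ : ∀ n : N, σ (n : Ω) = ((b n : N) : Ω) := hτ
  have hiter : ∀ (i : ℕ) (n : N), (σ^[i]) (n : Ω) = (((b ^ i) n : N) : Ω) := by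
    intro i
    induction i with
    | zero => intro n; rfl
    | succ i ih =>
      intro n
      rw [Function.iterate_succ_apply', ih, hσ, pow_succ', AlgEquiv.mul_apply]
  have hinv : ∀ x ∈ A, b⁻¹ * x * b ∈ A := by
    intro x hx
    have := hn b⁻¹ (B.inv_mem hb) x hx
    rwa [inv_inv] at this
  have hS : SigData Λ v (fixO F N A) σ ℓ := by
    refine ⟨hℓ, ?_, hrt ℓ hℓ hℓp, ?_, ?_, ?_⟩
    · by_contra h0
      have h1 : (ℓ : kk Λ) = 0 := by
        have h2 : (IsLocalRing.residue Λ) (ℓ : Λ) = 0 := by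
          rw [IsLocalRing.residue_eq_zero_iff, IsLocalRing.mem_maximalIdeal, mem_nonunits_iff]
          exact h0
        rwa [map_natCast] at h2
      have := (CharP.cast_eq_zero_iff (kk Λ) p ℓ).1 h1
      exact hℓp ((Nat.prime_dvd_prime_iff_eq hp hℓ).1 this).symm
    · intro g hg
      obtain ⟨n, rfl, hn'⟩ := (mem_fixO F N A g).1 hg
      refine (mem_fixO F N A _).2 ⟨b n, (hσ n).symm, fun a ha => ?_⟩
      have h1 := hn' _ (hinv a ha)
      have h2 : a (b n) = b ((b⁻¹ * a * b) n) := by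
        rw [← AlgEquiv.mul_apply, ← AlgEquiv.mul_apply]
        congr 1
        group
      rw [h2, h1]
    · intro g hg _
      obtain ⟨n, rfl, -⟩ := (mem_fixO F N A g).1 hg
      rw [hσ]
      exact hBD hb n
    · intro g hg
      obtain ⟨n, rfl, hn'⟩ := (mem_fixO F N A g).1 hg
      rw [hiter, hn' _ hbA]
  refine Good.tame p hp h hS (fixO F N B) (fun g => ⟨fun hg => ?_, fun hg => ?_⟩) hA
  · obtain ⟨n, rfl, hn'⟩ := (mem_fixO F N B g).1 hg
    refine ⟨(mem_fixO F N A _).2 ⟨n, rfl, fun a ha => hn' a (hAB ha)⟩, ?_⟩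
    rw [hσ, hn' b hb]
  · obtain ⟨hgA, hgσ⟩ := hg
    obtain ⟨n, rfl, hn'⟩ := (mem_fixO F N A g).1 hgA
    refine (mem_fixO F N B _).2 ⟨n, rfl, fun x hx => ?_⟩
    have hbn : b n = n := by
      rw [hσ] at hgσ
      exact Subtype.ext hgσ
    have hbi : ∀ i : ℕ, (b ^ i) n = n := by
      intro i
      induction i with
      | zero => rfl
      | succ i ih => rw [pow_succ, AlgEquiv.mul_apply, hbn, ih]
    obtain ⟨i, hi⟩ := hgen x hx
    have h1 := hn' _ hi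
    rwa [AlgEquiv.mul_apply, hbi i] at h1

end Pool.Agent.LUM
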