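import Pool.Agent.Lib.LUM.GalDec
import Pool.Agent.Lib.LUM.GalRam
import Pool.Agent.Lib.LUM.GalSteps
import Pool.Agent.Lib.LU1_h15.GalSep

/-! # G6 -/

set_option autoImplicit false
set_option linter.unusedSectionVars false

open Polynomial

namespace Pool.Agent.LUM

open Pool.Agent.H15JM (RVal)
open Pool.Agent.LU1 (VPos fixO mem_fixO decG adj fixO_top exists_fixO_eq)

universe u

/-- The chain of subgroups. -/
theorem group_chain {G : Type*} [Group G] [Finite G] (p : ℕ) (hp : p.Prime)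
    (D V H : Subgroup G) (hVD : V ≤ D)
    (hVp : ∀ x ∈ V, ∃ n : ℕ, x ^ p ^ n = 1)
    (hab : ∀ a ∈ D, ∀ b ∈ D, a * b * a⁻¹ * b⁻¹ ∈ V)
    (hpp : ∀ a ∈ D, a ^ p ∈ V → a ∈ V) (P : Subgroup G → Prop)
    (hea : P ⊤ → P D)
    (hkum : ∀ (A B : Subgroup G) (ℓ : ℕ), ℓ.Prime → ℓ ≠ p → A ≤ B → B ≤ D →
      (∀ b ∈ B, ∀ x ∈ A, b * x * b⁻¹ ∈ A) → A.relIndex B = ℓ → P B → P A)
    (has : ∀ A B : Subgroup G, A ≤ B → B ≤ V →
      (∀ b ∈ B, ∀ x ∈ A, b * x * b⁻¹ ∈ A) → A.relIndex B = p → P B → P A)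
    (htd : ∀ (A B : Subgroup G) (ℓ : ℕ), ℓ.Prime → ℓ ≠ p → A ≤ B → B ≤ D →
      (∀ b ∈ B, ∀ x ∈ A, b * x * b⁻¹ ∈ A) → A.relIndex B = ℓ → P A → P B)
    (hed : P (D ⊓ H) → P H) : P ⊤ → P H := by
  intro htop
  have h1 : P D := hea htop
  have h2 : P V := by
    refine LU1.GT.down (D := D) (q := fun ℓ => ℓ ≠ p) ?_
      (LU1.GT.chain_ab p hp D D le_rfl V hVD hab hpp) h1
    rintro X Y ⟨hXY, hYD, hn, ℓ, hl, hlp, hi⟩ hY
    exact hkum X Y ℓ hl hlp hXY hYD hn hi hY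
  have h3 : P (V ⊓ H) := by
    refine LU1.GT.down (D := V) (q := fun ℓ => ℓ = p) ?_
      (LU1.GT.chain_p p hp V V le_rfl hVp (V ⊓ H) inf_le_left) h2
    rintro X Y ⟨hXY, hYD, hn, ℓ, hl, hlp, hi⟩ hY
    subst hlp
    exact has X Y hXY hYD hn hi hY
  have h4 : P (D ⊓ H) := by
    refine LU1.GT.up (D := D) (q := fun ℓ => ℓ ≠ p) ?_
      (LU1.GT.chain_ab p hp D (D ⊓ H) inf_le_left (V ⊓ H) (inf_le_inf_right H hVD) ?_ ?_) h3
    · rintro X Y ⟨hXY, hYD, hn, ℓ, hl, hlp, hi⟩ hX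
      exact htd X Y ℓ hl hlp hXY hYD hn hi hX
    · rintro a ⟨haD, haH⟩ b ⟨hbD, hbH⟩
      exact ⟨hab a haD b hbD, H.mul_mem (H.mul_mem (H.mul_mem haH hbH) (H.inv_mem haH))
        (H.inv_mem hbH)⟩
    · rintro a ⟨haD, haH⟩ ⟨hapV, -⟩
      exact ⟨hpp a haD hapV, haH⟩
  exact hed h4

variable {Λ Q Ω : Type u} [CommRing Λ] [IsDomain Λ] [IsDiscreteValuationRing Λ] [Field Q]
  [Field Ω] [Algebra Λ Ω] [Algebra Λ Q] [IsFractionRing Λ Q] [Algebra Q Ω]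
  [IsScalarTower Λ Q Ω] {ϖ : Λ} {v : RVal Ω} {r : ℕ}

theorem good_galois (p : ℕ) (hp : p.Prime) [CharP (kk Λ) p] [IsAlgClosed (kk Λ)]
    [IsAlgClosed Ω] [CharZero Ω] (h : Ctx ϖ v r)
    (hrt : ∀ ℓ : ℕ, ℓ.Prime → ℓ ≠ p → ∃ ζ : Q, IsPrimitiveRoot ζ ℓ)
    (KP : ∀ E : IntermediateField Q Ω, Good ϖ v E → ∀ ζ ∈ E, IsPrimitiveRoot ζ p →
      ∀ z : Ω, z ^ p ∈ E → Good ϖ v (adj E z))
    (F : IntermediateField Q Ω) (N : IntermediateField F Ω) [FiniteDimensional F N]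
    [IsGalois F N] (hζN : ∃ ζ : N, IsPrimitiveRoot ζ p)
    (halg : ∀ g : Ω, IsAlgebraic F g) (H : Subgroup (N ≃ₐ[F] N))
    (ED : Good ϖ v (fixO F N (decG v F N ⊓ H)) → Good ϖ v (fixO F N H))
    (hF : Good ϖ v (fixO F N ⊤)) : Good ϖ v (fixO F N H) := by
  obtain ⟨V, h1, h2, h3, h4, h5⟩ := exists_ramG p hp h F N
  refine group_chain p hp (decG v F N) V H h1 h3 h4 h5 (fun A => Good ϖ v (fixO F N A))
    (good_dec p hp h F N)
    (fun A B ℓ hℓ hℓp hAB _ hn hi => good_kummer_step p hp h hrt F N A B ℓ hℓ hℓp hAB hn hi)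
    (fun A B hAB hBV hn hi hB => ?_)
    (fun A B ℓ hℓ hℓp hAB hBD hn hi =>
      good_tame_step p hp h hrt F N halg A B ℓ hℓ hℓp hAB hBD hn hi)
    ED hF
  obtain ⟨ζ, hζ⟩ := hζN
  have hfix : ∀ b ∈ B, b ζ = ζ := by
    intro b hb
    obtain ⟨n, hn'⟩ := h3 b (hBV hb)
    have h6 : ∀ k : ℕ, ((b : N ≃+* N) ^ k) ζ = (b ^ k) ζ := by
      intro k
      induction k with
      | zero => rfl
      | succ k ih => rw [pow_succ', pow_succ', RingAut.mul_apply, ih, AlgEquiv.mul_apply]; rfl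
    exact fixed_root p hp hζ (b : N ≃+* N) n (by rw [h6, hn']; rfl)
  have : CharZero N := ⟨fun a b hab => by
    have h1 := congrArg (algebraMap N Ω) hab
    rw [map_natCast, map_natCast] at h1
    exact_mod_cast h1⟩
  obtain ⟨g, hg, hE⟩ := exists_kummer_gen F N A B p hp (by exact_mod_cast hp.ne_zero) ζ hζ hfix
    hAB hn hi
  rw [hE]
  refine KP _ hB (ζ : Ω) ?_ ?_ g hg
  · exact (mem_fixO F N B _).2 ⟨ζ, rfl, hfix⟩
  · exact hζ.map_of_injective (algebraMap N Ω).injective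

/-- The Galois closure of finitely many elements. -/
theorem exists_galois_closure [IsAlgClosed Ω] [CharZero Ω] (F : IntermediateField Q Ω)
    (halg : ∀ g : Ω, IsAlgebraic F g) (S : Finset Ω) :
    ∃ N : IntermediateField F Ω, FiniteDimensional F N ∧ IsGalois F N ∧ ∀ g ∈ S, g ∈ N := by
  have : CharZero F := ⟨fun a b hab => by
    have h1 := congrArg (algebraMap F Ω) hab
    rw [map_natCast, map_natCast] at h1
    exact_mod_cast h1⟩
  refine LU1.exists_galois_closure F halg S fun g _ => ?_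
  exact (minpoly.irreducible (halg g).isIntegral).separable

/-- Every finite extension of a good field is good. -/
theorem good_of_finite (p : ℕ) (hp : p.Prime) [CharP (kk Λ) p] [IsAlgClosed (kk Λ)]
    [IsAlgClosed Ω] [CharZero Ω] (h : Ctx ϖ v r)
    (hrt : ∀ ℓ : ℕ, ℓ.Prime → ℓ ≠ p → ∃ ζ : Q, IsPrimitiveRoot ζ ℓ)
    (KP : ∀ E : IntermediateField Q Ω, Good ϖ v E → ∀ ζ ∈ E, IsPrimitiveRoot ζ p →
      ∀ z : Ω, z ^ p ∈ E → Good ϖ v (adj E z))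
    (ED : ∀ (F : IntermediateField Q Ω) (N : IntermediateField F Ω), FiniteDimensional F N →
      IsGalois F N → (∀ g : Ω, IsAlgebraic F g) → ∀ H : Subgroup (N ≃ₐ[F] N),
      Good ϖ v (fixO F N (decG v F N ⊓ H)) → Good ϖ v (fixO F N H))
    (F K : IntermediateField Q Ω) (hFK : F ≤ K)
    (halg : ∀ g : Ω, IsAlgebraic F g)
    (hfg : ∃ S : Finset Ω, K = IntermediateField.adjoin Q (S : Set Ω))
    (hF : Good ϖ v F) : Good ϖ v K := by
  classical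
  obtain ⟨S, hS⟩ := hfg
  have hSK : ∀ g ∈ S, g ∈ K := by
    intro g hg
    rw [hS]
    exact IntermediateField.subset_adjoin _ _ hg
  have : NeZero (p : Ω) := ⟨by exact_mod_cast hp.ne_zero⟩
  obtain ⟨ζ, hζ⟩ := HasEnoughRootsOfUnity.exists_primitiveRoot Ω p
  obtain ⟨N, h1, h2, h3⟩ := exists_galois_closure F halg (insert ζ S)
  have hKN : ∀ g ∈ K, g ∈ N := by
    have : K ≤ N.restrictScalars Q := by
      rw [hS, IntermediateField.adjoin_le_iff]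
      exact fun g hg => h3 g (Finset.mem_insert_of_mem hg)
    exact fun g hg => this hg
  have hζN : ∃ ζ : N, IsPrimitiveRoot ζ p := by
    refine ⟨⟨ζ, h3 ζ (Finset.mem_insert_self _ _)⟩, ?_⟩
    exact IsPrimitiveRoot.of_map_of_injective (f := algebraMap N Ω) hζ
      (algebraMap N Ω).injective
  obtain ⟨H, hH⟩ := exists_fixO_eq F N K hFK hKN
  rw [← hH]
  refine good_galois p hp h hrt KP F N hζN halg H (ED F N h1 h2 halg H) ?_
  rw [fixO_top]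
  exact hF

end Pool.Agent.LUM
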