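import Pool.Agent.Lib.LUM.KTypes

/-! # The Kummer step of degree `p` -/

set_option autoImplicit false
set_option linter.unusedSectionVars false

namespace Pool.Agent.LUM

open Pool.Agent.H15JM (RVal)
open Pool.Agent.LU1 (VPos LatData val_add_vpos adj le_adj mem_adj adj_le)
open Polynomial

universe u

variable {Λ Ω : Type u} [CommRing Λ] [IsDomain Λ] [IsDiscreteValuationRing Λ] [Field Ω]
  [Algebra Λ Ω] {ϖ : Λ} {v : RVal Ω} {r : ℕ}
  {F : Type u} [Field F] [Algebra Λ F] [IsFractionRing Λ F] [Algebra F Ω] [IsScalarTower Λ F Ω]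

theorem adj_of_mem {E : IntermediateField F Ω} {z : Ω} (hz : z ∈ E) : adj E z = E :=
  le_antisymm (adj_le le_rfl hz) (le_adj E z)

/-- Residues modulo `p`-th powers of constants. -/
theorem exists_pth (h : Ctx ϖ v r) {p : ℕ} (hp : p.Prime) [IsAlgClosed (kk Λ)] (B : BF ϖ v)
    {u : Ω} (hu : B.Un u) :
    ∃ c1 : Λ, IsUnit c1 ∧ ∃ g ∈ B.R, VPos v g ∧ u = algebraMap Λ Ω c1 ^ p * (1 + g) := by
  obtain ⟨c0, hc0⟩ := h.res u hu.2.1 hu.2.2
  have hc0u : IsUnit c0 := h.toCtx0.isUnit_of hu.2.1 hu.2.2 hc0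
  obtain ⟨k1, hk1⟩ := IsAlgClosed.exists_pow_nat_eq (IsLocalRing.residue Λ c0) hp.pos
  obtain ⟨c1, hc1⟩ := IsLocalRing.residue_surjective k1
  have hk0 : k1 ≠ 0 := by
    rintro rfl
    rw [zero_pow hp.ne_zero] at hk1
    exact (IsLocalRing.residue_ne_zero_iff_isUnit c0).2 hc0u hk1.symm
  have hc1u : IsUnit c1 := by
    rw [← IsLocalRing.residue_ne_zero_iff_isUnit, hc1]
    exact hk0
  have h2 : VPos v (algebraMap Λ Ω (c0 - c1 ^ p)) := by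
    rw [← h.mem_max, ← IsLocalRing.residue_eq_zero_iff, map_sub, map_pow, hc1, hk1, sub_self]
  have hun : B.Un (algebraMap Λ Ω c1 ^ p) := (BF.Un.const h.toCtx0 hc1u).pow p
  refine ⟨c1, hc1u, (u - algebraMap Λ Ω c1 ^ p) * (algebraMap Λ Ω c1 ^ p)⁻¹, ?_, ?_, ?_⟩
  · exact B.R.mul_mem (B.R.sub_mem hu.1 hun.1) hun.inv.1
  · refine VPos.mul ?_ (B.nonneg _ hun.inv.1)
    have h3 : u - algebraMap Λ Ω c1 ^ p =
        (u - algebraMap Λ Ω c0) + algebraMap Λ Ω (c0 - c1 ^ p) := by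
      rw [map_sub, map_pow]; ring
    rw [h3]
    exact hc0.add h2
  · have h0 := hun.2.1
    field_simp
    ring

/-- The Kummer step of degree `p`. -/
theorem Good.kummerP (h : Ctx ϖ v r) {p : ℕ} (hp : p.Prime) [CharP (kk Λ) p]
    [IsAlgClosed (kk Λ)] (E : IntermediateField F Ω) (hE : Good ϖ v E) {ζ : Ω}
    (hζ : IsPrimitiveRoot ζ p) (hζE : ζ ∈ E) (z : Ω) (hz : z ^ p ∈ E) : Good ϖ v (adj E z) := by
  classical
  by_cases hz0 : z = 0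
  · subst hz0
    rw [adj_of_mem E.zero_mem]
    exact hE
  have hp0 : (0 : ℝ) < p := by exact_mod_cast hp.pos
  obtain ⟨c, d, hL⟩ := exists_lamD h.toCtx0 hp hζ
  obtain ⟨l, hl⟩ : ∃ l, l = ζ - 1 := ⟨_, rfl⟩
  rw [← hl] at hL
  have hlE : l ∈ E := by rw [hl]; exact E.sub_mem hζE E.one_mem
  have hf0 : z ^ p ≠ 0 := pow_ne_zero p hz0
  obtain ⟨B0, hB0⟩ := hE
  obtain ⟨B, hr, hm⟩ := ML p hp h B0 E hB0 {z ^ p, l} (by
    intro g hg
    rw [Finset.mem_insert, Finset.mem_singleton] at hg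
    rcases hg with rfl | rfl
    · exact ⟨hz, hf0⟩
    · exact ⟨hlE, hL.l_ne⟩)
  have hB := hr.ext.fracIs hB0
  have hfm : B.Mono (z ^ p) := hm _ (by simp)
  have hlm : B.Mono l := hm _ (by simp)
  obtain ⟨κ, hκ, u, hu, hfu⟩ := BF.mono_iff.1 hfm
  by_cases hdiv : ∃ δ ∈ B.Γ, κ = p * δ
  swap
  · exact rad_frame h.toCtx0 B E hB p hp hκ hdiv z u hu hfu
  obtain ⟨g, hg, rfl⟩ := hdiv
  obtain ⟨c1, hc1, g', hg', hg'v, hu'⟩ := exists_pth h hp B hu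
  obtain ⟨γ, hγ, hγ0, a, ha, b, hb, hgab⟩ := B.gen g' hg' hg'v
  obtain ⟨B', q, cc, s, hT, -, -⟩ := B.exists_tstep h ∅ (by simp) 1 (Or.inl rfl)
  have hB' := hT.ext.fracIs hB
  have hlm' : B'.Mono l := hT.ext.mono hlm
  have hypos := B.y_pos
  obtain ⟨κ1, hκ1⟩ : ∃ κ1, κ1 = min γ (v B.y) := ⟨_, rfl⟩
  have hκ1pos : 0 < κ1 := by rw [hκ1]; exact lt_min hγ0 hypos
  have hg'L : B'.Lev κ1 g' := by
    rw [hgab]
    refine BF.Lev.add ?_ ?_
    · exact ((BF.Lev.χ hγ le_rfl ha).ext hT.ext).of_le (by rw [hκ1]; exact min_le_left _ _)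
    · exact ((BF.Lev.of_mono hT.mono_y).mul (hT.ext.le hb)).of_le
        (by rw [hκ1]; exact min_le_right _ _)
  have hlp0 : l ^ p ≠ 0 := pow_ne_zero p hL.l_ne
  have hG : B'.Lev (κ1 - p * v l) (g' * (l ^ p)⁻¹) := by
    have h1 : B'.Mono ((l ^ p)⁻¹) := (hlm'.pow p).inv
    have h2 := BF.Lev.of_mono h1
    rw [v.map_inv hlp0, v.map_pow hL.l_ne] at h2
    exact hg'L.mul' h2
  have hKcl : Kcl p l E (z ^ p) (g' * (l ^ p)⁻¹) := by
    have hc1E : algebraMap Λ Ω c1 ∈ E := hB.1 _ (B.R.algebraMap_mem c1)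
    have hc10 : algebraMap Λ Ω c1 ≠ 0 := (h.toCtx0.triv hc1).1
    refine ⟨B.χ g * algebraMap Λ Ω c1, E.mul_mem (B.χ_mem_E hB hg) hc1E,
      mul_ne_zero (B.χ_ne g hg) hc10, ?_⟩
    have h1 : l ^ p * (g' * (l ^ p)⁻¹) = g' := by field_simp
    rw [h1, hfu, hu', B.χ_nsmul hg, mul_pow]
    ring
  have hδ : 0 < min (v (algebraMap Λ Ω ϖ)) (min (v l) κ1) :=
    lt_min h.pos (lt_min hL.l_pos hκ1pos)
  obtain ⟨n, hn⟩ := exists_nat_ge ((p * v l - κ1) / min (v (algebraMap Λ Ω ϖ)) (min (v l) κ1))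
  rw [div_le_iff₀ hδ] at hn
  obtain ⟨B'', hr'', hclean⟩ := k_all h hp hL hκ1pos n B' hlm' hB' (κ1 - p * v l)
    (by linarith) (by linarith) _ hKcl hG
  exact good_of_cleanK h hp hL B'' (hr''.ext.mono hlm') E (hr''.ext.fracIs hB') z (z ^ p) rfl
    hclean

end Pool.Agent.LUM
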