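import Pool.Agent.Lib.LUM.Red

/-! # Transforms of polynomials over a commutative ring -/

set_option autoImplicit false
set_option linter.unusedSectionVars false

open Polynomial

namespace Pool.Agent.LUM

universe u

variable {A : Type u} [CommRing A]

namespace TP

/-- The inclusion of the constants. -/
noncomputable def iota (A : Type u) [CommRing A] : A →+* Lau A :=
  AddMonoidAlgebra.singleZeroRingHom

theorem iota_apply (c : A) : iota A c = mon 0 c := rfl

theorem pow_eq_map (c : A) (N : ℕ) :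
    (C (mon 0 c) + X : (Lau A)[X]) ^ N = ((C c + X : A[X]) ^ N).map (iota A) := by
  rw [Polynomial.map_pow, Polynomial.map_add, Polynomial.map_C, Polynomial.map_X, iota_apply]

theorem cf_sum {ι : Type*} (t : Finset ι) (f : ι → Lau A) (γ : ℝ) :
    cf (∑ i ∈ t, f i) γ = ∑ i ∈ t, cf (f i) γ := by
  unfold cf
  rw [AddMonoidAlgebra.coeff_sum, Finsupp.finsetSum_apply]

theorem cf_mon (γ δ : ℝ) (e : A) : cf (mon γ e) δ = if γ = δ then e else 0 := by
  unfold cf mon
  rw [AddMonoidAlgebra.coeff_single, Finsupp.single_apply]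

theorem mon_mul (γ δ : ℝ) (e f : A) : mon γ e * mon δ f = mon (γ + δ) (e * f) := by
  unfold mon
  rw [AddMonoidAlgebra.single_mul_single]

/-- The coefficients of the transform. -/
theorem co_tpoly (β : ℝ) (c : A) (s : ℝ → ℤ → ℤ) (P : (Lau A)[X]) (τ : ℝ) (m : ℕ) :
    co (tpoly β c s P) τ m = ∑ l ∈ P.support, co P (τ - l * β) l *
      ((C c + X : A[X]) ^ (s (τ - l * β) l).toNat).coeff m := by
  unfold tpoly co
  rw [Polynomial.sum, Polynomial.finsetSum_coeff, cf_sum]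
  refine Finset.sum_congr rfl fun l _ => ?_
  rw [Finsupp.sum, Polynomial.finsetSum_coeff, cf_sum]
  have h1 : ∀ γ ∈ (P.coeff l).coeff.support,
      cf ((C (mon (γ + l * β) ((P.coeff l).coeff γ)) * (C (mon 0 c) + X : (Lau A)[X]) ^
        (s γ l).toNat).coeff m) τ = if γ = τ - l * β then cf (P.coeff l) (τ - l * β) *
      ((C c + X : A[X]) ^ (s (τ - l * β) l).toNat).coeff m else 0 := by
    intro γ _
    rw [coeff_C_mul, pow_eq_map, coeff_map, iota_apply, mon_mul, add_zero, cf_mon]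
    by_cases h : γ = τ - l * β
    · subst h
      rw [if_pos (by ring), if_pos rfl]
      rfl
    · rw [if_neg (fun h' => h (by rw [← h']; ring)), if_neg h]
  rw [Finset.sum_congr rfl h1, Finset.sum_ite_eq']
  split_ifs with h2
  · rfl
  · rw [Finsupp.notMem_support_iff] at h2
    unfold cf
    rw [h2, zero_mul]

theorem exists_of_co_ne {β : ℝ} {c : A} {s : ℝ → ℤ → ℤ} {P : (Lau A)[X]} {τ : ℝ} {m : ℕ}
    (h : co (tpoly β c s P) τ m ≠ 0) : ∃ l : ℕ, co P (τ - l * β) l ≠ 0 := by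
  rw [co_tpoly] at h
  obtain ⟨l, _, hl⟩ := Finset.exists_ne_zero_of_sum_ne_zero h
  exact ⟨l, left_ne_zero_of_mul hl⟩

theorem mem_support_of_co {P : (Lau A)[X]} {γ : ℝ} {l : ℕ} (h : co P γ l ≠ 0) :
    l ∈ P.support := by
  rw [mem_support_iff]
  intro h0
  apply h
  unfold co
  rw [h0]
  rfl

/-- The finite set of monomials of `P`. -/
theorem exists_finset_co (P : (Lau A)[X]) :
    ∃ S : Finset (ℝ × ℕ), ∀ γ l, (γ, l) ∈ S ↔ co P γ l ≠ 0 := by
  classical
  refine ⟨P.support.biUnion fun l => (P.coeff l).coeff.support.image fun γ => (γ, l), ?_⟩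
  intro γ l
  simp only [Finset.mem_biUnion, Finset.mem_image, Finsupp.mem_support_iff, Prod.mk.injEq,
    mem_support_iff]
  constructor
  · rintro ⟨l', -, γ', h, rfl, rfl⟩
    exact h
  · intro h
    refine ⟨l, ?_, γ, h, rfl, rfl⟩
    intro h0
    apply h
    unfold co cf
    rw [h0]
    rfl

end TP

theorem SuppIn.tpoly {Γ : AddSubgroup ℝ} {β : ℝ} {c : A} {s : ℝ → ℤ → ℤ} {P : (Lau A)[X]}
    (hP : SuppIn Γ P) : SuppIn (Γ ⊔ AddSubgroup.zmultiples β) (tpoly β c s P) := by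
  intro τ m h
  obtain ⟨l, hl⟩ := TP.exists_of_co_ne h
  have h1 := hP _ _ hl
  have h2 : (l : ℝ) * β ∈ AddSubgroup.zmultiples β :=
    AddSubgroup.mem_zmultiples_iff.2 ⟨l, by simp⟩
  have h3 : τ = (τ - l * β) + l * β := by ring
  rw [h3]
  exact AddSubgroup.mem_sup.2 ⟨_, h1, _, h2, rfl⟩

/-- Lower bound of the levels after a T-step. -/
theorem tpoly_ge {β : ℝ} {c : A} {s : ℝ → ℤ → ℤ} {P : (Lau A)[X]} {τ : ℝ}
    (h : ∀ γ l, co P γ l ≠ 0 → τ ≤ γ + l * β) :
    ∀ γ l, co (tpoly β c s P) γ l ≠ 0 → τ ≤ γ := by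
  intro γ m hm
  obtain ⟨l, hl⟩ := TP.exists_of_co_ne hm
  have := h _ _ hl
  linarith

end Pool.Agent.LUM
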