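import Pool.Agent.Lib.LUM.Cls
import Pool.Agent.Lib.LUM.TPoly
import Pool.Agent.Lib.LU1_h15.DD
import Pool.Agent.Lib.LU1_h15.Tail
import Pool.Agent.Lib.LU1_h15.ML

/-! # B6: monomialisation, for a class of frames closed under modified T-steps -/

set_option autoImplicit false
set_option linter.unusedSectionVars false

namespace Pool.Agent.LUM

open Pool.Agent.H15JM (RVal)
open Pool.Agent.LU1 (VPos LatData)
open Polynomial

universe u

variable {Λ Ω : Type u} [CommRing Λ] [IsDomain Λ] [IsDiscreteValuationRing Λ] [Field Ω]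
  [Algebra Λ Ω] {ϖ : Λ} {v : RVal Ω} {r : ℕ}

/-- The constant of a T-step is not zero in the residue field. -/
theorem IsTStep.res_ne {B B' : BF ϖ v} {q : ℕ} {c : Λ} {s : ℝ → ℤ → ℤ}
    (h : IsTStep B B' q c s) : IsLocalRing.residue Λ c ≠ 0 :=
  IsLocalRing.residue_ne_zero_iff_isUnit c |>.2 h.c_un

/-- A state: a frame of the class and a polynomial with nonnegative exponents representing
`f` up to an error of size `v ϖ`. -/
structure MSt (K : Cls ϖ v) (B0 : BF ϖ v) (f : Ω) where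
  B : BF ϖ v
  P : (Lau Λ)[X]
  reach : K.Reach B0 B
  cl : K.Cl B
  supp : SuppIn B.Γ P
  nn : ∀ γ l, co P γ l ≠ 0 → 0 ≤ γ
  err : f - B.ev P ∈ B.JW (v (algebraMap Λ Ω ϖ))

namespace MSt

variable {K : Cls ϖ v} {B0 : BF ϖ v} {f : Ω}

/-- The positivity of `s` on the support. -/
theorem s_nonneg (T : MSt K B0 f) {q : ℕ} {s : ℝ → ℤ → ℤ}
    (hL : LatData T.B.Γ (v T.B.y) q s)
    (hpos : ∀ γ l, co T.P γ l ≠ 0 → 0 < γ + l * v T.B.y → 0 ≤ s γ (l : ℤ)) :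
    ∀ γ l, co T.P γ l ≠ 0 → 0 ≤ s γ (l : ℤ) := by
  have hβ := T.B.y_pos
  have h00 : s 0 0 = 0 := by
    have h1 := hL.s_add 0 T.B.Γ.zero_mem 0 T.B.Γ.zero_mem 0 0
    rw [add_zero, add_zero] at h1
    omega
  intro γ l hc
  have h0 := T.nn γ l hc
  have hl : (0 : ℝ) ≤ (l : ℝ) * v T.B.y := mul_nonneg (Nat.cast_nonneg l) hβ.le
  rcases lt_or_eq_of_le (add_nonneg h0 hl) with h1 | h1
  · exact hpos γ l hc h1
  · have h2 : γ = 0 := by linarith
    have h3 : (l : ℝ) * v T.B.y = 0 := by linarith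
    have h4 : l = 0 := by
      rcases mul_eq_zero.mp h3 with h5 | h5
      · exact_mod_cast h5
      · exact absurd h5 hβ.ne'
    rw [h2, h4, Nat.cast_zero, h00]

/-- One step of the algorithm. `B'` is the frame before the change of `y`. -/
theorem step (h : Ctx0 ϖ v r) (T : MSt K B0 f) :
    ∃ (T' : MSt K B0 f) (B' : BF ϖ v) (q : ℕ) (c : Λ) (s : ℝ → ℤ → ℤ) (M : ℕ),
      IsTStep T.B B' q c s ∧ 2 ≤ M ∧ BF.Chg M B' T'.B ∧
      T'.P = tpoly (v T.B.y) c s T.P ∧ (∀ γ l, co T.P γ l ≠ 0 → 0 ≤ s γ (l : ℤ)) ∧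
      (q = 1 → ∀ γ ∈ T.B.Γ, ∀ l : ℤ, s γ l = l) ∧
      B'.Lev (v (algebraMap Λ Ω ϖ)) (f - B'.ev T'.P) := by
  obtain ⟨S, hS⟩ := TP.exists_finset_co T.P
  obtain ⟨q, s, hL, hpos, hq1⟩ := T.B.exists_latData S
    (fun a ha => T.supp a.1 a.2 ((hS a.1 a.2).1 ha)) 1 (Or.inl rfl)
  have hs := T.s_nonneg hL fun γ l hc h1 => hpos (γ, l) ((hS γ l).2 hc) (by rw [one_mul]; exact h1)
  obtain ⟨c, B', hst, hM⟩ := K.ex T.B T.cl q s hL
  have hβ' := B'.y_pos
  have hβ := T.B.y_pos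
  obtain ⟨M0, hM0⟩ := exists_nat_ge (v (algebraMap Λ Ω ϖ) / v B'.y)
  set M := max 2 M0 with hMdef
  have hMle : v (algebraMap Λ Ω ϖ) ≤ M * v B'.y := by
    rw [div_le_iff₀ hβ'] at hM0
    refine hM0.trans (mul_le_mul_of_nonneg_right ?_ hβ'.le)
    exact_mod_cast le_max_right 2 M0
  obtain ⟨B'', hchg, hSt, hCl⟩ := hM M
  have hsupp : SuppIn B'.Γ (tpoly (v T.B.y) c s T.P) := by
    rw [hst.Γ_eq]
    exact T.supp.tpoly
  have hnn : ∀ γ l, co (tpoly (v T.B.y) c s T.P) γ l ≠ 0 → 0 ≤ γ :=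
    tpoly_ge (τ := 0) fun γ l hc =>
      add_nonneg (T.nn γ l hc) (mul_nonneg (Nat.cast_nonneg l) hβ.le)
  have hlev : B'.Lev (v (algebraMap Λ Ω ϖ)) (f - B'.ev (tpoly (v T.B.y) c s T.P)) := by
    rw [hst.ev_tpoly T.supp hs]
    exact BF.JW_lev hst T.err
  have h2 := hchg.ev_sub (le_max_left 2 M0) hMle hsupp hnn
  refine ⟨⟨B'', tpoly (v T.B.y) c s T.P, T.reach.tail hSt, hCl, ?_, hnn, ?_⟩, B', q, c, s, M,
    hst, le_max_left 2 M0, hchg, rfl, hs, hq1, hlev⟩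
  · rw [hchg.Γ_eq]; exact hsupp
  · have h3 : f - B''.ev (tpoly (v T.B.y) c s T.P) =
        (f - B'.ev (tpoly (v T.B.y) c s T.P)) +
          (B'.ev (tpoly (v T.B.y) c s T.P) - B''.ev (tpoly (v T.B.y) c s T.P)) := by ring
    rw [h3]
    refine Submodule.add_mem _ ?_ h2
    exact (hchg.lev.2 hlev).jw h.pos.le

end MSt

/-- There is no infinite sequence of states of the same order `D ≥ 1` and of contents bounded
by `v ϖ` connected by T-steps with `q = 1`. -/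
theorem no_chain (p : ℕ) (hp : p.Prime) [CharP (kk Λ) p] {K : Cls ϖ v} {B0 : BF ϖ v} {f : Ω}
    {D : ℕ} (hD : 1 ≤ D) (T : ℕ → MSt K B0 f) (κ : ℕ → ℝ)
    (hld : ∀ n, LU1.IsLD LU1.All (red (T n).P) 0 (κ n) D)
    (hκ : ∀ n, κ n < v (algebraMap Λ Ω ϖ))
    (hT : ∀ n, ∃ (B' : BF ϖ v) (c : Λ) (s : ℝ → ℤ → ℤ) (M : ℕ), IsTStep (T n).B B' 1 c s ∧
      2 ≤ M ∧ BF.Chg M B' (T (n + 1)).B ∧
      (T (n + 1)).P = tpoly (v (T n).B.y) c s (T n).P ∧
      (∀ γ ∈ (T n).B.Γ, ∀ l : ℤ, s γ l = l)) : False := by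
  choose B' c s M hst hM hchg hP hs using hT
  set β : ℕ → ℝ := fun n => v (T n).B.y with hβ
  set b : ℕ → ℝ := fun n => ∑ i ∈ Finset.range n, β i with hb
  have hb0 : b 0 = 0 := by simp [hb]
  have hbs : ∀ n, b (n + 1) = b n + β n := fun n => by simp [hb, Finset.sum_range_succ]
  have hβpos : ∀ n, 0 < β n := fun n => (T n).B.y_pos
  have hβmem : ∀ n, β n ∈ (T n).B.Γ := by
    intro n
    have h1 := (hst n).q_mem
    rwa [Nat.cast_one, one_mul] at h1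
  have hΓ : ∀ n, (T n).B.Γ = (T 0).B.Γ := by
    intro n
    induction n with
    | zero => rfl
    | succ n ih =>
      rw [(hchg n).Γ_eq, (hst n).Γ_eq, ← ih, sup_eq_left, AddSubgroup.zmultiples_le]
      exact hβmem n
  have hbmem : ∀ n, b n ∈ (T 0).B.Γ := by
    intro n
    induction n with
    | zero => rw [hb0]; exact AddSubgroup.zero_mem _
    | succ n ih =>
      rw [hbs]
      exact AddSubgroup.add_mem _ ih (by rw [← hΓ n]; exact hβmem n)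
  have hbmono : StrictMono b := strictMono_nat_of_lt_succ fun n => by
    rw [hbs]
    linarith [hβpos n]
  -- the polynomials
  set ρ := IsLocalRing.residue Λ with hρ
  set Q := red (T 0).P with hQ
  have hsuppr : ∀ n, LU1.SuppIn (T n).B.Γ (red (T n).P) := fun n => (T n).supp.red
  have hmon0 : (C (LU1.mon (0 : ℝ) (1 : kk Λ)) : (LU1.Lau (kk Λ))[X]) * X = X := by
    have h1 : (LU1.mon (0 : ℝ) (1 : kk Λ) : LU1.Lau (kk Λ)) = 1 := rfl
    rw [h1, C_1, one_mul]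
  have hPr : ∀ n, red (T (n + 1)).P = LU1.tpoly (v (T n).B.y) (ρ (c n)) (s n) (red (T n).P) :=
    fun n => by rw [hP n, red_tpoly]
  have hpoly : ∀ n, red (T n).P =
      (taylor (LU1.Ysum (fun i => b (i + 1)) (fun i => ρ (c i)) n) Q).comp
        (C (LU1.mon (b n) 1) * X) := by
    intro n
    induction n with
    | zero =>
      rw [hb0, hmon0, comp_X, LU1.Ysum, Finset.range_zero, Finset.sum_empty, taylor_zero]
    | succ n ih =>
      rw [hPr n, LU1.tpoly_one _ _ _ _ (fun γ l hc => hs n γ (hsuppr n γ l hc) l), ih,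
        LU1.comp_taylor_step]
      have e1 : LU1.Ysum (fun i => b (i + 1)) (fun i => ρ (c i)) (n + 1) =
          LU1.Ysum (fun i => b (i + 1)) (fun i => ρ (c i)) n +
            LU1.mon (b n + v (T n).B.y) (ρ (c n)) := by
        rw [LU1.Ysum, LU1.Ysum, Finset.sum_range_succ]
        simp only [hbs]
        rfl
      have e2 : b (n + 1) = b n + v (T n).B.y := hbs n
      rw [e1, e2]
  -- contents
  have hκs : ∀ n, κ n = κ 0 + D * b n := by
    intro n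
    induction n with
    | zero => rw [hb0, mul_zero, add_zero]
    | succ n ih =>
      have hpos : ∀ γ l, LU1.co (red (T n).P) γ l ≠ 0 → 0 ≤ s n γ (l : ℤ) := fun γ l hc => by
        rw [hs n γ (hsuppr n γ l hc) l]
        exact Int.natCast_nonneg l
      obtain ⟨κ', D', hLD, -, -, -, -, heq⟩ :=
        LU1.DD_ml (hst n).latData (hst n).res_ne (hsuppr n) hpos (hld n)
      rw [← hPr n] at hLD
      obtain ⟨e1, e2⟩ := hLD.unique (hld (n + 1))
      rw [← e1, heq e2, ih, hbs]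
      ring
  have hbdd : BddAbove (Set.range fun i => b (i + 1)) := by
    refine ⟨(v (algebraMap Λ Ω ϖ) - κ 0), ?_⟩
    rintro _ ⟨n, rfl⟩
    have h1 := hκ (n + 1)
    rw [hκs] at h1
    have h2 : b (n + 1) ≤ D * b (n + 1) := by
      have h3 : (1 : ℝ) ≤ D := by exact_mod_cast hD
      have h4 : 0 ≤ b (n + 1) := by
        rw [← hb0]
        exact (hbmono (Nat.succ_pos n)).le
      nlinarith
    show b (n + 1) ≤ _
    linarith
  have hChn : LU1.Chn (T 0).B.Γ (fun i => b (i + 1)) (fun i => ρ (c i)) :=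
    ⟨(T 0).B.fg, fun i => hbmem _, fun i j hij => hbmono (Nat.succ_lt_succ hij), hbdd,
      fun i => (hst i).res_ne⟩
  have hQ0 : Q ≠ 0 := by
    intro h0
    have h1 := (hld 0).2.2.1
    rw [← hQ, h0] at h1
    apply h1
    show LU1.cf ((0 : (LU1.Lau (kk Λ))[X]).coeff D) _ = 0
    rw [coeff_zero]
    rfl
  obtain ⟨s0, κ', hK⟩ := LU1.KAP p hp (T 0).B.Γ (fun i => b (i + 1)) (fun i => ρ (c i)) hChn Q
    (hsuppr 0) hQ0
  have h1 := hK s0 le_rfl
  have h2 := hld (s0 + 1)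
  rw [hpoly (s0 + 1)] at h2
  obtain ⟨-, e⟩ := h1.unique h2.comp_mon
  omega

/-- The conclusion of one window: `f` is a monomial, or divisible by `χ (v ϖ)`. -/
def Win (K : Cls ϖ v) (B0 : BF ϖ v) (f : Ω) : Prop :=
  ∃ B : BF ϖ v, K.Reach B0 B ∧ K.Cl B ∧
    (B.Mono f ∨ ∃ a ∈ B.R, f = B.χ (v (algebraMap Λ Ω ϖ)) * a)

/-- A state with all visible exponents large is the end of the window. -/
theorem MSt.win_of_ge (h : Ctx0 ϖ v r) {K : Cls ϖ v} {B0 : BF ϖ v} {f : Ω} (T : MSt K B0 f)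
    (hge : ∀ γ l, LU1.co (red T.P) γ l ≠ 0 → v (algebraMap Λ Ω ϖ) ≤ γ) : Win K B0 f := by
  obtain ⟨T', B', q, c, s, M, hst, hM, hchg, hP, hs, -, hlev⟩ := T.step h
  have h1 : T.B.Lev (0 + v (algebraMap Λ Ω ϖ)) (T.B.ev T.P) := by
    refine T.B.lev_ev h T.supp (fun γ l _ hlt => ?_) T.nn
    by_contra hcon
    rw [zero_add] at hlt
    exact absurd (hge γ l hcon) (not_le.2 hlt)
  rw [zero_add] at h1
  have h2 : B'.Lev (v (algebraMap Λ Ω ϖ)) f := by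
    have h3 : f = (f - T.B.ev T.P) + T.B.ev T.P := by ring
    rw [h3]
    exact (BF.JW_lev hst T.err).add (h1.ext hst.ext)
  obtain ⟨a, ha, h3⟩ := ((hchg.lev.2 h2).of_mem T'.B.pi_mem)
  exact ⟨T'.B, T'.reach, T'.cl, Or.inr ⟨a, ha, h3⟩⟩

/-- A state of order zero is the end of the window. -/
theorem MSt.win_of_zero (h : Ctx0 ϖ v r) {K : Cls ϖ v} {B0 : BF ϖ v} {f : Ω} (T : MSt K B0 f)
    {κ : ℝ} (hld : LU1.IsLD LU1.All (red T.P) 0 κ 0) : Win K B0 f := by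
  by_cases hκ : v (algebraMap Λ Ω ϖ) ≤ κ
  · refine T.win_of_ge h fun γ l hc => hκ.trans ?_
    have := hld.1 γ l hc trivial
    rwa [mul_zero, add_zero] at this
  rw [not_le] at hκ
  obtain ⟨T', B', q, c, s, M, hst, hM, hchg, hP, hs, -, hlev⟩ := T.step h
  obtain ⟨κ', D', hLD, hle1, hle, hD', -, heq⟩ := LU1.DD_ml hst.latData hst.res_ne T.supp.red
    (fun γ l hc => hs γ l (isUnit_of_co_red hc).ne_zero) hld
  have hD0 : D' = 0 := Nat.le_zero.1 hD'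
  subst hD0
  have hκ' : κ' = κ := by rw [heq rfl]; push_cast; ring
  subst hκ'
  rw [← red_tpoly, ← hP] at hLD
  have hsupp : SuppIn B'.Γ T'.P := by rw [← hchg.Γ_eq]; exact T'.supp
  have h1 : B'.Rep (B'.ev T'.P) κ' 0 := B'.rep_ev h hsupp hLD fun γ l hc => by
    have := T'.nn γ l hc
    linarith
  have h2 : B'.Rep f κ' 0 := by
    have h3 : f = B'.ev T'.P + (f - B'.ev T'.P) := by ring
    rw [h3]
    exact h1.add_lev hκ hlev
  exact ⟨T'.B, T'.reach, T'.cl, Or.inl (hchg.mono.2 h2.val_zero.2.2)⟩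

/-- One window. -/
theorem MSt.win (p : ℕ) (hp : p.Prime) [CharP (kk Λ) p] (h : Ctx0 ϖ v r) {K : Cls ϖ v}
    {B0 : BF ϖ v} {f : Ω} (T0 : MSt K B0 f) : Win K B0 f := by
  classical
  by_contra hno
  -- every state has an order and a small content
  have hvis : ∀ T : MSt K B0 f, ∃ κ D, LU1.IsLD LU1.All (red T.P) 0 κ D ∧
      κ < v (algebraMap Λ Ω ϖ) := by
    intro T
    by_cases hcon : ∃ γ l, LU1.co (red T.P) γ l ≠ 0 ∧ LU1.All γ l
    · obtain ⟨κ, D, hLD⟩ := LU1.exists_IsLD LU1.All (red T.P) 0 hcon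
      refine ⟨κ, D, hLD, ?_⟩
      by_contra hκ
      rw [not_lt] at hκ
      refine hno (T.win_of_ge h fun γ l hc => hκ.trans ?_)
      have := hLD.1 γ l hc trivial
      rwa [mul_zero, add_zero] at this
    · push Not at hcon
      exact absurd (T.win_of_ge h fun γ l hc => absurd trivial (hcon γ l hc)) hno
  have hex : ∃ D, ∃ (T : MSt K B0 f) (κ : ℝ), LU1.IsLD LU1.All (red T.P) 0 κ D ∧
      κ < v (algebraMap Λ Ω ϖ) := by
    obtain ⟨κ, D, h1⟩ := hvis T0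
    exact ⟨D, T0, κ, h1⟩
  obtain ⟨T, κ, hld, hκ⟩ := Nat.find_spec hex
  set D := Nat.find hex with hDdef
  rcases Nat.eq_zero_or_pos D with hD | hD
  · rw [hD] at hld
    exact hno (T.win_of_zero h hld)
  · -- every state of order `D` has a successor of order `D`
    have hsucc : ∀ T : {T : MSt K B0 f // ∃ κ, LU1.IsLD LU1.All (red T.P) 0 κ D},
        ∃ T' : {T : MSt K B0 f // ∃ κ, LU1.IsLD LU1.All (red T.P) 0 κ D},
        ∃ (B' : BF ϖ v) (c : Λ) (s : ℝ → ℤ → ℤ) (M : ℕ), IsTStep T.1.B B' 1 c s ∧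
          2 ≤ M ∧ BF.Chg M B' T'.1.B ∧
          T'.1.P = tpoly (v T.1.B.y) c s T.1.P ∧ (∀ γ ∈ T.1.B.Γ, ∀ l : ℤ, s γ l = l) := by
      rintro ⟨T, κ, hld⟩
      obtain ⟨T', B', q, c, s, M, hst, hM, hchg, hP, hs, hq1, -⟩ := T.step h
      obtain ⟨κ', D', hLD, -, -, hle, hlt, -⟩ := LU1.DD_ml hst.latData hst.res_ne T.supp.red
        (fun γ l hc => hs γ l (isUnit_of_co_red hc).ne_zero) hld
      rw [← red_tpoly, ← hP] at hLD
      obtain ⟨κ'', D'', hLD'', hκ''⟩ := hvis T'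
      obtain ⟨e1, e2⟩ := hLD''.unique hLD
      subst e1
      subst e2
      have hmin : D ≤ D'' := Nat.find_min' hex ⟨T', _, hLD'', hκ''⟩
      have hDD : D'' = D := le_antisymm hle hmin
      have hq : q = 1 := by
        have hqpos := hst.q_pos
        by_contra hq
        have := hlt (by omega) hD
        omega
      subst hq
      clear_value D
      subst hDD
      exact ⟨⟨T', _, hLD''⟩, B', c, s, M, hst, hM, hchg, hP, hq1 rfl⟩
    choose nxt hnxt using hsucc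
    let Tn : ℕ → {T : MSt K B0 f // ∃ κ, LU1.IsLD LU1.All (red T.P) 0 κ D} :=
      fun n => Nat.rec ⟨T, κ, hld⟩ (fun _ x => nxt x) n
    have hkn : ∀ n, ∃ κ, LU1.IsLD LU1.All (red (Tn n).1.P) 0 κ D ∧
        κ < v (algebraMap Λ Ω ϖ) := by
      intro n
      obtain ⟨κ, hκ⟩ := (Tn n).2
      obtain ⟨κ', D', h1, h2⟩ := hvis (Tn n).1
      obtain ⟨e1, e2⟩ := h1.unique hκ
      subst e1
      exact ⟨κ', hκ, h2⟩
    choose κn hκn1 hκn2 using hkn
    exact no_chain p hp hD (fun n => (Tn n).1) κn hκn1 hκn2 fun n => hnxt (Tn n)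

/-- The initial state. -/
theorem exists_MSt (h : Ctx0 ϖ v r) (K : Cls ϖ v) (B : BF ϖ v) (hB : K.Cl B) {f : Ω}
    (hf : f ∈ B.R) : Nonempty (MSt K B f) := by
  classical
  obtain ⟨S0, G, hS0, -, -, hG⟩ := B.exists_NF h {f} (by simpa using hf)
  obtain ⟨u, hu⟩ := B.exists_basis h S0 hS0
  obtain ⟨N, hNx, hNy, -, hNR, hNf⟩ := hG u hu
  have hfN : f ∈ N.R := hNf f (Finset.mem_singleton_self f)
  have hne : (Finset.univ : Finset (Fin r)).Nonempty := ⟨⟨0, h.rpos⟩, Finset.mem_univ _⟩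
  obtain ⟨i0, -, hi0⟩ := Finset.exists_min_image Finset.univ u hne
  set ε : ℝ := min (u i0) (v B.y) with hε
  have hεpos : 0 < ε := lt_min (hu.pos i0) B.y_pos
  have hεu : ∀ i, ε ≤ u i := fun i => (min_le_left _ _).trans (hi0 i (Finset.mem_univ i))
  have hεy : ε ≤ v B.y := min_le_right _ _
  obtain ⟨M, hM⟩ := exists_nat_ge (v (algebraMap Λ Ω ϖ) / ε)
  have hMε : v (algebraMap Λ Ω ϖ) ≤ M * ε := by rwa [div_le_iff₀ hεpos] at hM
  obtain ⟨P, -, hPs, hPn, hPe⟩ := NF.expand h B N u (fun i => ⟨hu.mem i, hu.pos i⟩) hNx hNy f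
    hfN M
  exact ⟨⟨B, P, Relation.ReflTransGen.refl, hB, hPs, hPn, BF.JW_anti hMε
    (B.inPow_jw N u (fun i => ⟨hu.mem i, hu.pos i⟩) hNx hNy hNR hεu hεy M hPe)⟩⟩

/-- An element of the ring of a frame becomes monomial. -/
theorem Cls.ML_mem (p : ℕ) (hp : p.Prime) [CharP (kk Λ) p] (h : Ctx0 ϖ v r) (K : Cls ϖ v)
    (B : BF ϖ v) (hB : K.Cl B) {f : Ω} (hf : f ∈ B.R) (hf0 : f ≠ 0) :
    ∃ B' : BF ϖ v, K.Reach B B' ∧ K.Cl B' ∧ B'.Mono f := by
  obtain ⟨n, hn⟩ := exists_nat_ge (v f / v (algebraMap Λ Ω ϖ))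
  rw [div_le_iff₀ h.pos] at hn
  induction n generalizing B f with
  | zero =>
    have h1 : v f = 0 := le_antisymm (by simpa using hn) (B.nonneg f hf hf0)
    exact ⟨B, Relation.ReflTransGen.refl, hB, BF.Mono.un ⟨hf, hf0, h1⟩⟩
  | succ n ih =>
    obtain ⟨T⟩ := exists_MSt h K B hB hf
    obtain ⟨B1, hr1, hc1, h1 | ⟨a, ha, h1⟩⟩ := T.win p hp h
    · exact ⟨B1, hr1, hc1, h1⟩
    · have hχ := B1.χ_ne _ B1.pi_mem
      have ha0 : a ≠ 0 := by
        rintro rfl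
        rw [mul_zero] at h1
        exact hf0 h1
      have hva : v a ≤ n * v (algebraMap Λ Ω ϖ) := by
        have h2 : v f = v (algebraMap Λ Ω ϖ) + v a := by
          rw [h1, v.map_mul hχ ha0, B1.χ_val _ B1.pi_mem]
        push_cast at hn
        linarith
      obtain ⟨B2, hr2, hc2, h2⟩ := ih B1 hc1 ha ha0 hva
      refine ⟨B2, hr1.trans hr2, hc2, ?_⟩
      rw [h1]
      exact (Cls.Reach.ext hr2).mono (BF.Mono.χ B1.pi_mem) |>.mul h2

/-- Monomialisation in a class of frames. -/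
theorem Cls.ML (p : ℕ) (hp : p.Prime) [CharP (kk Λ) p] (h : Ctx0 ϖ v r) (K : Cls ϖ v)
    (B : BF ϖ v) (hB : K.Cl B) {F : Type u} [Field F] [Algebra F Ω]
    (E : IntermediateField F Ω) (hE : FracIs B.R E) (T : Finset Ω)
    (hT : ∀ f ∈ T, f ∈ E ∧ f ≠ 0) :
    ∃ B' : BF ϖ v, K.Reach B B' ∧ K.Cl B' ∧ ∀ f ∈ T, B'.Mono f := by
  classical
  induction T using Finset.induction_on with
  | empty => exact ⟨B, Relation.ReflTransGen.refl, hB, by simp⟩
  | insert f T _ ih =>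
    obtain ⟨B1, hr1, hc1, hm1⟩ := ih fun g hg => hT g (Finset.mem_insert_of_mem hg)
    obtain ⟨hfE, hf0⟩ := hT f (Finset.mem_insert_self f T)
    obtain ⟨a, ha, b, hb, hb0, rfl⟩ := ((Cls.Reach.ext hr1).fracIs hE).2 f hfE
    have ha0 : a ≠ 0 := by
      rintro rfl
      exact hf0 (zero_div b)
    obtain ⟨B2, hr2, hc2, hm2⟩ := K.ML_mem p hp h B1 hc1 ha ha0
    obtain ⟨B3, hr3, hc3, hm3⟩ := K.ML_mem p hp h B2 hc2 ((Cls.Reach.ext hr2).le hb) hb0
    refine ⟨B3, hr1.trans (hr2.trans hr3), hc3, fun g hg => ?_⟩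
    rcases Finset.mem_insert.mp hg with rfl | hg
    · exact ((Cls.Reach.ext hr3).mono hm2).div hm3
    · exact (Cls.Reach.ext hr3).mono ((Cls.Reach.ext hr2).mono (hm1 g hg))

/-- One more step of the class is always possible. -/
theorem Cls.ML' (p : ℕ) (hp : p.Prime) [CharP (kk Λ) p] (h : Ctx0 ϖ v r) (K : Cls ϖ v)
    (B : BF ϖ v) (hB : K.Cl B) {F : Type u} [Field F] [Algebra F Ω]
    (E : IntermediateField F Ω) (hE : FracIs B.R E) (T : Finset Ω)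
    (hT : ∀ f ∈ T, f ∈ E ∧ f ≠ 0) :
    ∃ B1 B' : BF ϖ v, K.Reach B B1 ∧ K.St B1 B' ∧ K.Cl B' ∧ ∀ f ∈ T, B'.Mono f := by
  obtain ⟨B1, h1, hc1, h2⟩ := K.ML p hp h B hB E hE T hT
  obtain ⟨q, s, hL, -, -⟩ := B1.exists_latData ∅ (by simp) 1 (Or.inl rfl)
  obtain ⟨c, B', hst, hM⟩ := K.ex B1 hc1 q s hL
  obtain ⟨B'', hchg, hSt, hCl⟩ := hM 2
  exact ⟨B1, B'', h1, hSt, hCl, fun f hf => (K.mstep _ _ hSt).ext.mono (h2 f hf)⟩

/-- Monomialisation in the class of all frames. -/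
theorem ML (p : ℕ) (hp : p.Prime) [CharP (kk Λ) p] (h : Ctx ϖ v r) (B : BF ϖ v)
    {F : Type u} [Field F] [Algebra F Ω] (E : IntermediateField F Ω) (hE : FracIs B.R E)
    (T : Finset Ω) (hT : ∀ f ∈ T, f ∈ E ∧ f ≠ 0) :
    ∃ B' : BF ϖ v, Reach B B' ∧ ∀ f ∈ T, B'.Mono f := by
  obtain ⟨B', h1, -, h2⟩ := (Cls.all h).ML p hp h.toCtx0 B trivial E hE T hT
  exact ⟨B', h1, h2⟩

theorem ML' (p : ℕ) (hp : p.Prime) [CharP (kk Λ) p] (h : Ctx ϖ v r) (B : BF ϖ v)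
    {F : Type u} [Field F] [Algebra F Ω] (E : IntermediateField F Ω) (hE : FracIs B.R E)
    (T : Finset Ω) (hT : ∀ f ∈ T, f ∈ E ∧ f ≠ 0) :
    ∃ B1 B' : BF ϖ v, Reach B B1 ∧ TStep B1 B' ∧ ∀ f ∈ T, B'.Mono f := by
  obtain ⟨B1, B', h1, h2, -, h3⟩ := (Cls.all h).ML' p hp h.toCtx0 B trivial E hE T hT
  exact ⟨B1, B', h1, h2, h3⟩

theorem ML_mem (p : ℕ) (hp : p.Prime) [CharP (kk Λ) p] (h : Ctx ϖ v r) (B : BF ϖ v) {f : Ω}
    (hf : f ∈ B.R) (hf0 : f ≠ 0) : ∃ B' : BF ϖ v, Reach B B' ∧ B'.Mono f := by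
  obtain ⟨B', h1, -, h2⟩ := (Cls.all h).ML_mem p hp h.toCtx0 B trivial hf hf0
  exact ⟨B', h1, h2⟩

end Pool.Agent.LUM
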