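import Pool.Agent.Lib.LUM.Kap
import Pool.Agent.Lib.LUM.ML

/-!
# LUM, sections B and C: definitions

`Λ` is the small base: a discrete valuation ring of characteristic zero with perfect residue field
(uniformizer `ϖ`, field of fractions `Q`).  `Λ'` is the closed base: a strictly henselian discrete
valuation ring `Λ ⊆ Λ' ⊆ Ω` with the same uniformizer, namely `henU Λ v`.
The frames `BF ϖ' v` are over `Λ'`; the subalgebras below are over `Λ`.
-/

set_option autoImplicit false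
set_option linter.unusedSectionVars false

open Polynomial

namespace Pool.Agent.LUM

open Pool.Agent.H15JM (RVal)
open Pool.Agent.LU1 (VPos)

universe u

/-! ## The class `U` of etale subalgebras and the closed base -/

section Base

variable {Λ Ω : Type u} [CommRing Λ] [IsDomain Λ] [IsDiscreteValuationRing Λ] [Field Ω]
  [Algebra Λ Ω]

variable (Λ) in
/-- The residues of the elements of `O_v` are algebraic over the residue field of `Λ`. -/
def ResAlg (v : RVal Ω) : Prop :=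
  ∀ x : Ω, v.Ge 0 x → ∃ P : Polynomial Λ, P.Monic ∧ VPos v (aeval x P)

/-- `C` is a local ring dominated by `O_v` whose maximal ideal is generated by `ϖ`. -/
structure DVl (ϖ : Λ) (v : RVal Ω) (C : Subalgebra Λ Ω) : Prop where
  nonneg : ∀ x ∈ C, v.Ge 0 x
  loc : ∀ x ∈ C, x ≠ 0 → v x = 0 → x⁻¹ ∈ C
  pi : ∀ x ∈ C, VPos v x → ∃ y ∈ C, x = algebraMap Λ Ω ϖ * y

/-- `C` is obtained from `C₀` by finitely many standard etale steps and localisations. -/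
inductive EtU (v : RVal Ω) (C₀ : Subalgebra Λ Ω) : Subalgebra Λ Ω → Prop
  | base : EtU v C₀ (locv v C₀)
  | step {C : Subalgebra Λ Ω} (hC : EtU v C₀ C) (f : Polynomial Ω) (hf : f.Monic)
      (hc : ∀ i, f.coeff i ∈ C) (θ : Ω) (h0 : f.eval θ = 0) (h1 : f.derivative.eval θ ≠ 0)
      (h2 : v (f.derivative.eval θ) = 0) :
      EtU v C₀ (locv v (Algebra.adjoin Λ ((C : Set Ω) ∪ {θ})))

variable (Λ) in
/-- The union of all the etale subalgebras: the strict henselisation of `Λ` in `Ω`. -/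
noncomputable def henU (v : RVal Ω) : Subalgebra Λ Ω := sSup {C | EtU v (⊥ : Subalgebra Λ Ω) C}

/-- Linear relations with coefficients in `L` descend from `T` to `S`, keeping one chosen
coordinate nonzero, and of value zero if it was. -/
def LinD (v : RVal Ω) (L : Set Ω) (S T : Subalgebra Λ Ω) : Prop :=
  ∀ (n : ℕ) (w α : Fin n → Ω), (∀ j, w j ∈ L) → (∀ j, α j ∈ T) → ∑ j, w j * α j = 0 →
    ∀ j₀, α j₀ ≠ 0 → ∃ β : Fin n → Ω, (∀ j, β j ∈ S) ∧ ∑ j, w j * β j = 0 ∧ β j₀ ≠ 0 ∧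
      (v (α j₀) = 0 → v (β j₀) = 0)

/-! ## Weak noetherian frames (no condition on residues) -/

/-- A weak noetherian frame. -/
structure WN (Λ : Type u) [CommRing Λ] [IsDomain Λ] [IsDiscreteValuationRing Λ]
    {Ω : Type u} [Field Ω] [Algebra Λ Ω] (v : RVal Ω) (r : ℕ) where
  x : Fin r → Ω
  x_ne : ∀ i, x i ≠ 0
  x_pos : ∀ i, 0 < v (x i)
  x_ind : LinearIndependent ℚ fun i => v (x i)
  y : Ω
  y_ne : y ≠ 0
  y_pos : 0 < v y
  R : Subalgebra Λ Ω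
  nonneg : ∀ f ∈ R, v.Ge 0 f
  x_mem : ∀ i, x i ∈ R
  y_mem : y ∈ R
  fgen : ∃ F : Finset Ω, R = locv v (Algebra.adjoin Λ (F : Set Ω))
  gen : ∀ f ∈ R, VPos v f →
    ∃ a : Fin r → Ω, (∀ i, a i ∈ R) ∧ ∃ b ∈ R, f = ∑ i, x i * a i + y * b

/-- `f` is a Laurent monomial in the `x_i` times a unit, with all exponents positive if
`v f > 0`, negative if `v f < 0`, and zero if `v f = 0`. -/
def WN.MonoPos {v : RVal Ω} {r : ℕ} (N : WN Λ v r) (f : Ω) : Prop :=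
  ∃ n : Fin r → ℤ, ∃ u : Ω, u ≠ 0 ∧ u ∈ N.R ∧ u⁻¹ ∈ N.R ∧ f = (∏ i, N.x i ^ n i) * u ∧
    (0 < v f → ∀ i, 0 < n i) ∧ (v f < 0 → ∀ i, n i < 0) ∧ (v f = 0 → ∀ i, n i = 0)

/-- There is a second valuation `κ ≥ 0` of the ring of the frame, with `κ y = 0` and
`κ (x_i) = v (x_i)`. -/
def WN.Kap {v : RVal Ω} {r : ℕ} (N : WN Λ v r) : Prop :=
  ∃ κ : RVal Ω, (∀ f ∈ N.R, κ.Ge 0 f) ∧ κ N.y = 0 ∧ ∀ i, κ (N.x i) = v (N.x i)

/-- `L` is the set of quotients of elements of `S`. -/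
def QuoIs (S : Subalgebra Λ Ω) (L : Set Ω) : Prop :=
  (∀ f ∈ S, f ∈ L) ∧ ∀ g ∈ L, ∃ a ∈ S, ∃ b ∈ S, b ≠ 0 ∧ g = a / b

variable (Λ) in
/-- Local uniformization of the field `L`, before regularity. -/
def LUF (v : RVal Ω) (r : ℕ) (L : Set Ω) : Prop :=
  ∀ A : Finset Ω, (∀ a ∈ A, a ∈ L ∧ v.Ge 0 a) → QuoIs (Algebra.adjoin Λ (A : Set Ω)) L →
    ∀ T : Finset Ω, (∀ t ∈ T, t ∈ L ∧ t ≠ 0) →
      ∃ N : WN Λ v r, N.Kap ∧ (∀ f ∈ N.R, f ∈ L) ∧ ∃ g ∈ Algebra.adjoin Λ (A : Set Ω), g ≠ 0 ∧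
        N.MonoPos g ∧ ∃ G : Finset Ω,
          (∀ x ∈ G, x ∈ Algebra.adjoin Λ (A : Set Ω) ∧ v.Ge (v g) x) ∧
          N.R = locv v (Algebra.adjoin Λ ((A : Set Ω) ∪ (fun x => x / g) '' (G : Set Ω))) ∧
          ∀ t ∈ T, N.MonoPos t

end Base

/-! ## Fields -/

section Fields

variable {Λ Q Ω : Type u} [CommRing Λ] [IsDomain Λ] [IsDiscreteValuationRing Λ] [Field Q]
  [Algebra Λ Q] [IsFractionRing Λ Q] [Field Ω] [Algebra Λ Ω] [Algebra Q Ω] [IsScalarTower Λ Q Ω]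

variable (Λ) in
/-- The elements of `L ∩ O_v` which are algebraic over `Q` are in the closed base. -/
def Unr (v : RVal Ω) (L : IntermediateField Q Ω) : Prop :=
  ∀ x ∈ L, IsAlgebraic Q x → v.Ge 0 x → x ∈ henU Λ v

variable (Λ) in
/-- The ring `L ∩ henU`. -/
noncomputable def inU (v : RVal Ω) (L : IntermediateField Q Ω) : Subalgebra Λ Ω :=
  henU Λ v ⊓ L.toSubalgebra.restrictScalars Λ

variable (Λ) in
/-- The field generated by `L` and the closed base. -/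
noncomputable def hull (v : RVal Ω) (L : IntermediateField Q Ω) : IntermediateField Q Ω :=
  L ⊔ IntermediateField.adjoin Q (henU Λ v : Set Ω)

/-- The field generated by `L` and a subalgebra. -/
noncomputable def fld (L : IntermediateField Q Ω) (C : Subalgebra Λ Ω) : IntermediateField Q Ω :=
  L ⊔ IntermediateField.adjoin Q (C : Set Ω)

/-- The automorphisms of `Ω` over `K` which preserve `v`. -/
def DD (v : RVal Ω) (K : IntermediateField Q Ω) : Subgroup (Ω ≃ₐ[K] Ω) where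
  carrier := {τ | ∀ x : Ω, x ≠ 0 → v (τ x) = v x}
  mul_mem' := by
    intro σ τ hσ hτ x hx
    have h1 : τ x ≠ 0 := fun h0 => hx (by simpa using h0)
    rw [AlgEquiv.mul_apply, hσ _ h1, hτ x hx]
  one_mem' := fun x _ => rfl
  inv_mem' := by
    intro σ hσ x hx
    have h1 : σ⁻¹ x ≠ 0 := fun h0 => hx (by simpa using h0)
    have h2 := hσ _ h1
    have h3 : σ (σ⁻¹ x) = x := by
      rw [← AlgEquiv.mul_apply, mul_inv_cancel, AlgEquiv.one_apply]
    rw [h3] at h2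
    exact h2.symm

end Fields

/-! ## The two bases -/

section Two

variable {Λ Λ' Q Ω : Type u} [CommRing Λ] [IsDomain Λ] [IsDiscreteValuationRing Λ]
  [CommRing Λ'] [IsDomain Λ'] [IsDiscreteValuationRing Λ'] [Algebra Λ Λ'] [Field Q]
  [Algebra Λ Q] [IsFractionRing Λ Q] [Field Ω] [Algebra Λ Ω] [Algebra Λ' Ω]
  [IsScalarTower Λ Λ' Ω] [Algebra Q Ω] [IsScalarTower Λ Q Ω]

/-- `Λ'` is the closed base `henU Λ v`, with uniformizer `ϖ' = ϖ`. -/
structure Clo (ϖ : Λ) (ϖ' : Λ') (v : RVal Ω) (r : ℕ) : Prop where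
  c0 : Ctx0 ϖ v r
  c1 : Ctx ϖ' v r
  pi : algebraMap Λ' Ω ϖ' = algebraMap Λ Ω ϖ
  rng : ∀ x : Ω, x ∈ henU Λ v ↔ ∃ c : Λ', algebraMap Λ' Ω c = x
  ra : ResAlg Λ v

variable {ϖ : Λ} {ϖ' : Λ'} {v : RVal Ω}

variable (Λ) in
/-- The trace on `L` of the ring of a frame over the closed base. -/
def BF.tr (B : BF ϖ' v) (L : IntermediateField Q Ω) : Subalgebra Λ Ω :=
  (B.R.restrictScalars Λ) ⊓ (L.toSubalgebra.restrictScalars Λ)

/-- The frame `B` over the closed base is adapted to the field `L`. -/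
structure Adap (B : BF ϖ' v) (L : IntermediateField Q Ω) : Prop where
  χ : ∀ γ ∈ B.Γ, B.χ γ ∈ L
  y : B.y ∈ L
  fgen : ∃ F : Finset Ω, (∀ f ∈ F, f ∈ L) ∧
    B.R = locv v (Algebra.adjoin Λ' ((F : Set Ω) ∪ B.χ '' {γ | γ ∈ B.Γ ∧ 0 ≤ γ}))

variable (Λ) in
/-- An adapted step: a T-step, with `c ∈ Λ'` replaced by an element of the local ring of
`(L ∩ Λ')[w]`. -/
def AdSt (L : IntermediateField Q Ω) (B B'' : BF ϖ' v) : Prop :=
  Adap B'' L ∧ ∃ (q : ℕ) (c : Λ') (s : ℝ → ℤ → ℤ) (B' : BF ϖ' v) (M : ℕ), IsTStep B B' q c s ∧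
    2 ≤ M ∧ BF.Chg M B' B'' ∧
    ∃ z ∈ locv v (Algebra.adjoin Λ ((inU Λ v L : Set Ω) ∪ {B.w q})), B''.y = B.w q - z

end Two

end Pool.Agent.LUM
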