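import Pool.Agent.Lib.LUM.G01
import Pool.Agent.Lib.LUM.E04
import Pool.Agent.Lib.LUM.QProp
import Pool.Agent.Lib.LUM.EtDescA
import Pool.Agent.Lib.LUM.Coord
import Pool.Agent.Lib.LUM.Galois
import Pool.Agent.Lib.LUM.KMain

/-! # Core: over the closed base every finitely generated field has a frame -/

set_option autoImplicit false
set_option linter.unusedSectionVars false
set_option linter.unusedVariables false

open Polynomial

namespace Pool.Agent.LUM

open Pool.Agent.H15JM (RVal)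
open Pool.Agent.LU1 (VPos LatData val_add_vpos adj fixO mem_fixO decG)
open GalDec
open Pool.Agent.LU1.GalDec (adj_fixO mov)

universe u

variable {Λ Q Ω : Type u} [CommRing Λ] [IsDomain Λ] [IsDiscreteValuationRing Λ] [Field Q]
  [Algebra Λ Q] [IsFractionRing Λ Q] [Field Ω] [Algebra Λ Ω] [Algebra Q Ω] [IsScalarTower Λ Q Ω]
  {ϖ : Λ} {v : RVal Ω} {r : ℕ}

/-- Closed base: a locally uniformizable field is good. -/
theorem Good.of_LUF (h : Ctx ϖ v r) (E : IntermediateField Q Ω)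
    (hfg : ∃ S : Finset Ω, E = IntermediateField.adjoin Q (S : Set Ω))
    (halg : ∀ g : Ω, IsAlgebraic E g) (hL : LUF Λ v r (E : Set Ω)) : Good ϖ v E := by
  classical
  obtain ⟨S, hS⟩ := hfg
  -- generators of nonnegative value
  let φ : Ω → Ω := fun c => if v.Ge 0 c then c else c⁻¹
  have hφ : ∀ c, v.Ge 0 (φ c) := by
    intro c
    simp only [φ]
    split_ifs with h
    · exact h
    · intro h0
      have hc0 : c ≠ 0 := by rintro rfl; simp at h0
      rw [v.map_inv hc0]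
      by_contra h1
      refine h fun _ => ?_
      linarith
  have hφE : ∀ (L : IntermediateField Q Ω) (c : Ω), φ c ∈ L ↔ c ∈ L := by
    intro L c
    simp only [φ]
    split_ifs with h
    · exact Iff.rfl
    · exact ⟨fun h => by simpa using L.inv_mem h, fun h => L.inv_mem h⟩
  have hSE : ∀ s ∈ S, s ∈ E := fun s hs => by
    rw [hS]
    exact IntermediateField.subset_adjoin _ _ hs
  have hE : E = IntermediateField.adjoin Q ((S.image φ : Finset Ω) : Set Ω) := by
    refine le_antisymm ?_ ?_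
    · conv_lhs => rw [hS]
      rw [IntermediateField.adjoin_le_iff]
      intro s hs
      rw [SetLike.mem_coe, ← hφE]
      exact IntermediateField.subset_adjoin _ _ (Finset.mem_coe.2 (Finset.mem_image_of_mem _ hs))
    · rw [IntermediateField.adjoin_le_iff]
      intro f hf
      obtain ⟨c, hc, rfl⟩ := Finset.mem_image.1 (Finset.mem_coe.1 hf)
      exact (hφE E c).2 (hSE c hc)
  have hfr := fracIs_adjoin (Q := Q) h.toCtx0 ((S.image φ : Finset Ω) : Set Ω)
  rw [← hE] at hfr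
  have hπE : algebraMap Λ Ω ϖ ∈ E := by
    rw [IsScalarTower.algebraMap_apply Λ Q Ω]
    exact E.algebraMap_mem _
  obtain ⟨N, hK, hNE, g, -, -, -, G, -, hNR, hNT⟩ := hL (S.image φ) (by
    intro a ha
    obtain ⟨c, hc, rfl⟩ := Finset.mem_image.1 ha
    exact ⟨(hφE E c).2 (hSE c hc), hφ c⟩) hfr {algebraMap Λ Ω ϖ} (by
    intro t ht
    rw [Finset.mem_singleton.1 ht]
    exact ⟨hπE, h.pi_ne⟩)
  have hAN : Algebra.adjoin Λ ((S.image φ : Finset Ω) : Set Ω) ≤ N.R := by
    rw [hNR]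
    exact (Algebra.adjoin_mono Set.subset_union_left).trans (le_locv _)
  have hNfr : FracIs N.R E := ⟨hNE, fun f hf => by
    obtain ⟨a, ha, b, hb, hb0, h1⟩ := hfr.2 f hf
    exact ⟨a, hAN ha, b, hAN hb, hb0, h1⟩⟩
  obtain ⟨B, hB1, hB2⟩ := N.exists_BF h hK (fun g => (SigF0.alg_iff hNfr g).2 (halg g))
    (hNT _ (Finset.mem_singleton_self _))
  refine ⟨B, fun f hf => ?_, fun f hf => ?_⟩
  · obtain ⟨a, ha, b, hb, -, rfl⟩ := hB2 f hf
    exact E.div_mem (hNE a ha) (hNE b hb)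
  · obtain ⟨a, ha, b, hb, hb0, rfl⟩ := hNfr.2 f hf
    exact ⟨a, hB1 ha, b, hB1 hb, hb0, rfl⟩

/-- ED for the closed base. -/
theorem Good.etale_desc (p : ℕ) (hp : p.Prime) [CharP (kk Λ) p] (h : Ctx ϖ v r)
    (E : IntermediateField Q Ω) (halg : ∀ g : Ω, IsAlgebraic E g) (θ : Ω)
    (hc : ∀ i, v.Ge 0 ((minpoly E θ).coeff i : Ω))
    (h1 : aeval θ (derivative (minpoly E θ)) ≠ 0)
    (h2 : v (aeval θ (derivative (minpoly E θ))) = 0) (hL : Good ϖ v (adj E θ)) :
    Good ϖ v E := by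
  have hint : IsIntegral E θ := (halg θ).isIntegral
  obtain ⟨F, -, hEF, -⟩ := exists_gens (Λ := Λ) E θ hint hc hL.fg
  have hθ : v.Ge 0 θ := by
    refine LU1.ge_of_root (f := (minpoly E θ).map (algebraMap E Ω))
      ((minpoly.monic hint).map _) (fun i => ?_) ?_
    · rw [coeff_map]
      exact hc i
    · rw [eval_map_algebraMap, minpoly.aeval]
  obtain ⟨c, hc0⟩ := h.residue hθ
  refine Good.of_LUF h E ⟨F, hEF⟩ halg (LUF.etale_desc h.toCtx0 E θ hint hc h1 h2
    (algebraMap Λ Ω c) ?_ (h.ge c) hc0 (LUF.of_good p hp h _ hL))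
  rw [IsScalarTower.algebraMap_apply Λ Q Ω]
  exact E.algebraMap_mem _

/-- ED for the decomposition field. -/
theorem good_dec_desc (p : ℕ) (hp : p.Prime) [CharP (kk Λ) p] (h : Ctx ϖ v r)
    (F : IntermediateField Q Ω) (N : IntermediateField F Ω) [FiniteDimensional F N]
    [IsGalois F N] (halg : ∀ g : Ω, IsAlgebraic F g) (H : Subgroup (N ≃ₐ[F] N))
    (hF : Good ϖ v (fixO F N (decG v F N ⊓ H))) : Good ϖ v (fixO F N H) := by
  obtain ⟨θ, hfix, h1, hmov⟩ := exists_theta v F N H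
  obtain ⟨hint, h2, h3, h4⟩ := minpoly_prop F N H θ hfix h1 hmov
  have h5 := adj_fixO F N H (decG v F N ⊓ H) inf_le_right θ hfix (mov F N H θ h1 hmov)
  have hle : F ≤ fixO F N H := by
    intro f hf
    exact (mem_fixO F N H f).2 ⟨algebraMap F N ⟨f, hf⟩, rfl, fun σ _ => σ.commutes _⟩
  refine Good.etale_desc p hp h (fixO F N H) (fun g => ?_) (θ : Ω) (fun i => ?_) ?_ ?_ ?_
  · obtain ⟨P, hP0, hP⟩ := halg g
    refine ⟨P.map (IntermediateField.inclusion hle : F →+* fixO F N H), ?_, ?_⟩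
    · rwa [Ne, Polynomial.map_eq_zero]
    · rw [Polynomial.aeval_def, Polynomial.eval₂_map]
      rw [Polynomial.aeval_def] at hP
      exact hP
  · have := h2 i
    rw [Polynomial.coeff_map] at this
    exact this
  · rw [Polynomial.aeval_def, ← Polynomial.eval_map, ← Polynomial.derivative_map]
    exact h3
  · rw [Polynomial.aeval_def, ← Polynomial.eval_map, ← Polynomial.derivative_map]
    exact h4
  · rw [h5]
    exact hF

/-- The closed base contains the roots of unity of order prime to `p`. -/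
theorem exists_root_unity (p : ℕ) (hp : p.Prime) [CharP (kk Λ) p] [IsAlgClosed Ω] [CharZero Q]
    (h : Ctx ϖ v r)
    (hsh : ∀ f : Polynomial Λ, f.Monic → ∀ θ : Ω, aeval θ f = 0 → aeval θ (derivative f) ≠ 0 →
      v (aeval θ (derivative f)) = 0 → ∃ c : Λ, algebraMap Λ Ω c = θ) (ℓ : ℕ) (hℓ : ℓ.Prime)
    (hℓp : ℓ ≠ p) : ∃ ζ : Q, IsPrimitiveRoot ζ ℓ := by
  have hQΩ : Function.Injective (algebraMap Q Ω) := (algebraMap Q Ω).injective
  have hΩ0 : CharZero Ω := charZero_of_injective_algebraMap hQΩ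
  have : NeZero (ℓ : Ω) := ⟨by exact_mod_cast hℓ.ne_zero⟩
  obtain ⟨ζ, hζ⟩ := HasEnoughRootsOfUnity.exists_primitiveRoot Ω ℓ
  have hζ0 : ζ ≠ 0 := hζ.ne_zero hℓ.ne_zero
  have hvζ : v ζ = 0 := by
    have h1 := v.map_pow hζ0 ℓ
    rw [hζ.pow_eq_one, v.map_one] at h1
    have h2 : (ℓ : ℝ) ≠ 0 := by exact_mod_cast hℓ.ne_zero
    rcases mul_eq_zero.1 h1.symm with h3 | h3
    · exact absurd h3 h2
    · exact h3
  -- `ℓ` is a unit of `Λ`
  have hℓu : IsUnit (ℓ : Λ) := by
    by_contra hu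
    have h1 : (ℓ : Λ) ∈ IsLocalRing.maximalIdeal Λ := hu
    have h2 : IsLocalRing.residue Λ (ℓ : Λ) = 0 := (IsLocalRing.residue_eq_zero_iff _).2 h1
    rw [map_natCast, CharP.cast_eq_zero_iff (kk Λ) p] at h2
    exact hℓp ((Nat.prime_dvd_prime_iff_eq hp hℓ).1 h2).symm
  have hvℓ := h.triv hℓu
  rw [map_natCast] at hvℓ
  obtain ⟨c, hc⟩ := hsh (X ^ ℓ - 1) (monic_X_pow_sub_C 1 hℓ.ne_zero) ζ (by
      rw [_root_.map_sub, _root_.map_pow, aeval_X, _root_.map_one, hζ.pow_eq_one, sub_self]) (by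
      rw [derivative_sub, derivative_one, sub_zero, derivative_X_pow, _root_.map_mul, aeval_C,
        _root_.map_pow, aeval_X, map_natCast]
      exact mul_ne_zero hvℓ.1 (pow_ne_zero _ hζ0)) (by
      rw [derivative_sub, derivative_one, sub_zero, derivative_X_pow, _root_.map_mul, aeval_C,
        _root_.map_pow, aeval_X, map_natCast, v.map_mul hvℓ.1 (pow_ne_zero _ hζ0), hvℓ.2,
        v.map_pow hζ0, hvζ, mul_zero, add_zero])
  refine ⟨algebraMap Λ Q c, ?_⟩
  refine IsPrimitiveRoot.of_map_of_injective (f := algebraMap Q Ω) ?_ hQΩ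
  rw [← IsScalarTower.algebraMap_apply, hc]
  exact hζ

/-- Over the closed base every finitely generated field has a frame. -/
theorem good_all (p : ℕ) (hp : p.Prime) [CharP (kk Λ) p] [IsAlgClosed (kk Λ)] [IsAlgClosed Ω]
    [CharZero Q] (h : Ctx ϖ v r)
    (hsh : ∀ f : Polynomial Λ, f.Monic → ∀ θ : Ω, aeval θ f = 0 → aeval θ (derivative f) ≠ 0 →
      v (aeval θ (derivative f)) = 0 → ∃ c : Λ, algebraMap Λ Ω c = θ)
    (K : IntermediateField Q Ω) (hfg : K.FG) (hK : ∀ g : Ω, IsAlgebraic K g) : Good ϖ v K := by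
  have hΩ0 : CharZero Ω := charZero_of_injective_algebraMap (algebraMap Q Ω).injective
  obtain ⟨F, hFK, hF, halg⟩ := exists_good_base h.toCtx0 K hK
  obtain ⟨S, hS⟩ := hfg
  exact good_of_finite p hp h (fun ℓ h1 h2 => exists_root_unity p hp h hsh ℓ h1 h2)
    (fun E hE ζ hζE hζ z hz => Good.kummerP h hp E hE hζ hζE z hz)
    (fun F N _ _ halg H hH => good_dec_desc p hp h F N halg H hH) F K hFK halg ⟨S, hS.symm⟩ hF

end Pool.Agent.LUM
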