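import Pool.Agent.Lib.LU1_h15.Basic
import Pool.Agent.Lib.LU1_h15.Lattice
import Pool.Agent.Lib.LU1_h15.Step

/-!
# LUM: definitions (frames of a real valuation of mixed characteristic, rational rank `n - 1`)

See `lum_blueprint.md`.  `Λ` is a discrete valuation ring with uniformizer `ϖ`, `F` its field of
fractions; everything happens in one big field `Ω ⊇ F` with a real valuation `v`.
-/

set_option autoImplicit false

open Polynomial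

namespace Pool.Agent.LUM

open Pool.Agent.H15JM (RVal)
open Pool.Agent.LU1 (VPos)

universe u

/-! ## The setting -/

section Setting

variable {Λ Ω : Type u} [CommRing Λ] [IsDomain Λ] [IsDiscreteValuationRing Λ] [Field Ω]
  [Algebra Λ Ω]

/-- The standing assumptions on the real valuation `v` of the big field `Ω`, without the residue
field: `v ≥ 0` on the discrete valuation ring `Λ`, `v ϖ > 0` for the uniformizer `ϖ`, the rational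
rank is `r`, and `Ω` has transcendence degree `r` over `Λ`. -/
structure Ctx0 {Λ : Type u} [CommRing Λ] [IsDomain Λ] [IsDiscreteValuationRing Λ] (ϖ : Λ)
    {Ω : Type u} [Field Ω] [Algebra Λ Ω] (v : RVal Ω) (r : ℕ) : Prop where
  irr : Irreducible ϖ
  inj : Function.Injective (algebraMap Λ Ω)
  ge : ∀ c : Λ, v.Ge 0 (algebraMap Λ Ω c)
  pos : 0 < v (algebraMap Λ Ω ϖ)
  rpos : 0 < r
  trdeg : Algebra.trdeg Λ Ω = r
  rank : ∃ X : Fin r → Ω, (∀ i, X i ≠ 0) ∧ LinearIndependent ℚ (fun i => v (X i)) ∧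
    ∀ g : Ω, g ≠ 0 → v g ∈ Submodule.span ℚ (Set.range fun i => v (X i))

/-- The standing assumptions: moreover the residue field of `v` is `Λ / ϖ`. -/
structure Ctx {Λ : Type u} [CommRing Λ] [IsDomain Λ] [IsDiscreteValuationRing Λ] (ϖ : Λ)
    {Ω : Type u} [Field Ω] [Algebra Λ Ω] (v : RVal Ω) (r : ℕ) : Prop extends Ctx0 ϖ v r where
  res : ∀ g : Ω, g ≠ 0 → v g = 0 → ∃ c : Λ, VPos v (g - algebraMap Λ Ω c)

instance {Λ : Type u} [CommRing Λ] [IsDomain Λ] [IsDiscreteValuationRing Λ] {ϖ : Λ}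
    {Ω : Type u} [Field Ω] [Algebra Λ Ω] {v : RVal Ω} {r : ℕ} :
    Coe (Ctx ϖ v r) (Ctx0 ϖ v r) := ⟨Ctx.toCtx0⟩

/-- The quotients `a / b` with `a, b ∈ S`, `v b = 0`. -/
def locv (v : RVal Ω) (S : Subalgebra Λ Ω) : Subalgebra Λ Ω where
  carrier := {f | ∃ a ∈ S, ∃ b ∈ S, b ≠ 0 ∧ v b = 0 ∧ f = a / b}
  mul_mem' := by
    rintro f g ⟨a, ha, b, hb, hb0, hvb, rfl⟩ ⟨c, hc, d, hd, hd0, hvd, rfl⟩
    refine ⟨a * c, S.mul_mem ha hc, b * d, S.mul_mem hb hd, mul_ne_zero hb0 hd0, ?_, ?_⟩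
    · rw [v.map_mul hb0 hd0, hvb, hvd, add_zero]
    · rw [div_mul_div_comm]
  add_mem' := by
    rintro f g ⟨a, ha, b, hb, hb0, hvb, rfl⟩ ⟨c, hc, d, hd, hd0, hvd, rfl⟩
    refine ⟨a * d + b * c, S.add_mem (S.mul_mem ha hd) (S.mul_mem hb hc), b * d,
      S.mul_mem hb hd, mul_ne_zero hb0 hd0, ?_, ?_⟩
    · rw [v.map_mul hb0 hd0, hvb, hvd, add_zero]
    · rw [div_add_div _ _ hb0 hd0]
  algebraMap_mem' := by
    intro c
    exact ⟨algebraMap Λ Ω c, S.algebraMap_mem c, 1, S.one_mem, one_ne_zero, v.map_one, by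
      rw [div_one]⟩

/-- A big frame. `χ` matters only on `Γ`. -/
structure BF {Λ : Type u} [CommRing Λ] [IsDomain Λ] [IsDiscreteValuationRing Λ] (ϖ : Λ)
    {Ω : Type u} [Field Ω] [Algebra Λ Ω] (v : RVal Ω) where
  /-- the group of exponents -/
  Γ : AddSubgroup ℝ
  fg : Γ.FG
  full : ∀ g : Ω, g ≠ 0 → ∃ m : ℕ, 0 < m ∧ (m : ℝ) * v g ∈ Γ
  /-- the monomials -/
  χ : ℝ → Ω
  χ_ne : ∀ γ ∈ Γ, χ γ ≠ 0
  χ_add : ∀ γ ∈ Γ, ∀ δ ∈ Γ, χ (γ + δ) = χ γ * χ δ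
  χ_val : ∀ γ ∈ Γ, v (χ γ) = γ
  /-- the last parameter -/
  y : Ω
  y_ne : y ≠ 0
  y_pos : 0 < v y
  /-- the ring -/
  R : Subalgebra Λ Ω
  nonneg : ∀ f ∈ R, v.Ge 0 f
  loc : ∀ f ∈ R, f ≠ 0 → v f = 0 → f⁻¹ ∈ R
  χ_mem : ∀ γ ∈ Γ, 0 ≤ γ → χ γ ∈ R
  y_mem : y ∈ R
  fgen : ∃ F : Finset Ω, R = locv v (Algebra.adjoin Λ ((F : Set Ω) ∪ χ '' {γ | γ ∈ Γ ∧ 0 ≤ γ}))
  gen : ∀ f ∈ R, VPos v f → ∃ γ ∈ Γ, 0 < γ ∧ ∃ a ∈ R, ∃ b ∈ R, f = χ γ * a + y * b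
  alg : ∀ g : Ω, IsAlgebraic R g
  /-- the residues of the elements of `R` are in `Λ / ϖ` -/
  res : ∀ f ∈ R, ∃ c : Λ, VPos v (f - algebraMap Λ Ω c)
  /-- the uniformizer is a monomial -/
  pi_mem : v (algebraMap Λ Ω ϖ) ∈ Γ
  pi_un : algebraMap Λ Ω ϖ / χ (v (algebraMap Λ Ω ϖ)) ∈ R
  /-- no power of `y` is in the ideal generated by the monomials -/
  reg : ∀ (D : ℕ), ∀ γ ∈ Γ, 0 < γ → ∀ a ∈ R, y ^ D ≠ χ γ * a

/-- A noetherian frame. -/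
structure NF (Λ : Type u) [CommRing Λ] [IsDomain Λ] [IsDiscreteValuationRing Λ]
    {Ω : Type u} [Field Ω] [Algebra Λ Ω] (v : RVal Ω) (r : ℕ) where
  x : Fin r → Ω
  x_ne : ∀ i, x i ≠ 0
  x_pos : ∀ i, 0 < v (x i)
  x_ind : LinearIndependent ℚ fun i => v (x i)
  y : Ω
  y_ne : y ≠ 0
  y_pos : 0 < v y
  R : Subalgebra Λ Ω
  nonneg : ∀ f ∈ R, v.Ge 0 f
  x_mem : ∀ i, x i ∈ R
  y_mem : y ∈ R
  fgen : ∃ F : Finset Ω, R = locv v (Algebra.adjoin Λ (F : Set Ω))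
  gen : ∀ f ∈ R, VPos v f →
    ∃ a : Fin r → Ω, (∀ i, a i ∈ R) ∧ ∃ b ∈ R, f = ∑ i, x i * a i + y * b
  alg : ∀ g : Ω, IsAlgebraic R g
  res : ∀ f ∈ R, ∃ c : Λ, VPos v (f - algebraMap Λ Ω c)

/-- `E` is the field of fractions of `R`. -/
def FracIs {Λ F Ω : Type u} [CommRing Λ] [Field F] [Field Ω] [Algebra Λ Ω] [Algebra F Ω]
    (R : Subalgebra Λ Ω) (E : IntermediateField F Ω) : Prop :=
  (∀ f ∈ R, f ∈ E) ∧ ∀ g ∈ E, ∃ a ∈ R, ∃ b ∈ R, b ≠ 0 ∧ g = a / b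

/-- The field `E` has a frame. -/
def Good {Λ F Ω : Type u} [CommRing Λ] [IsDomain Λ] [IsDiscreteValuationRing Λ] [Field F]
    [Field Ω] [Algebra Λ Ω] [Algebra F Ω] (ϖ : Λ) (v : RVal Ω) (E : IntermediateField F Ω) :
    Prop := ∃ B : BF ϖ v, FracIs B.R E

variable {ϖ : Λ} {v : RVal Ω}

/-- `f` is a unit of `B.R`. -/
def BF.Un (B : BF ϖ v) (f : Ω) : Prop := f ∈ B.R ∧ f ≠ 0 ∧ v f = 0

/-- `f = χ(κ) (u y^D + χ(δ) a)`, `u` a unit, `δ > 0`: the content of `f` is `κ`, its order `D`. -/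
def BF.Rep (B : BF ϖ v) (f : Ω) (κ : ℝ) (D : ℕ) : Prop :=
  κ ∈ B.Γ ∧ ∃ u, B.Un u ∧ ∃ δ ∈ B.Γ, 0 < δ ∧ ∃ a ∈ B.R,
    f = B.χ κ * (u * B.y ^ D + B.χ δ * a)

/-- `f` is a monomial times a unit. -/
def BF.Mono (B : BF ϖ v) (f : Ω) : Prop := f ≠ 0 ∧ v f ∈ B.Γ ∧ B.Un (f / B.χ (v f))

/-- `f = χ(γ) a`, `γ ≥ W`, `a ∈ R`. -/
def BF.Lev (B : BF ϖ v) (W : ℝ) (f : Ω) : Prop := ∃ γ ∈ B.Γ, W ≤ γ ∧ ∃ a ∈ B.R, f = B.χ γ * a

/-- The unit `w = y^q / χ(q v(y))` of a T-step. -/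
noncomputable def BF.w (B : BF ϖ v) (q : ℕ) : Ω := B.y ^ q / B.χ (q * v B.y)

/-- `B → B'` is a T-step with data `q, c, s`. -/
structure IsTStep (B B' : BF ϖ v) (q : ℕ) (c : Λ) (s : ℝ → ℤ → ℤ) : Prop where
  q_pos : 0 < q
  q_mem : (q : ℝ) * v B.y ∈ B.Γ
  q_min : ∀ m : ℕ, 0 < m → (m : ℝ) * v B.y ∈ B.Γ → q ≤ m
  Γ_eq : B'.Γ = B.Γ ⊔ AddSubgroup.zmultiples (v B.y)
  s_add : ∀ γ ∈ B.Γ, ∀ δ ∈ B.Γ, ∀ l m : ℤ, s (γ + δ) (l + m) = s γ l + s δ m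
  s_one : s (-((q : ℝ) * v B.y)) q = 1
  c_un : IsUnit c
  y_eq : B'.y = B.w q - algebraMap Λ Ω c
  χ_eq : ∀ γ ∈ B.Γ, ∀ l : ℤ,
    B'.χ (γ + l * v B.y) = B.χ γ * B.y ^ l * (B.w q) ^ (-(s γ l))
  R_eq : B'.R = locv v (Algebra.adjoin Λ
    ((B.R : Set Ω) ∪ B'.χ '' {γ | γ ∈ B'.Γ ∧ 0 ≤ γ} ∪ {B.w q}))

/-- One T-step. -/
def TStep (B B' : BF ϖ v) : Prop := ∃ q c s, IsTStep B B' q c s

/-- Finitely many T-steps. -/
def Reach : BF ϖ v → BF ϖ v → Prop := Relation.ReflTransGen TStep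

/-- The T0-step by `b`. -/
structure IsT0Step (B B' : BF ϖ v) (b : ℝ) : Prop where
  b_mem : b ∈ B.Γ
  b_pos : 0 < b
  b_lt : b < v B.y
  Γ_eq : B'.Γ = B.Γ
  χ_eq : B'.χ = B.χ
  y_eq : B'.y = B.y / B.χ b
  R_eq : B'.R = locv v (Algebra.adjoin Λ ((B.R : Set Ω) ∪ {B.y / B.χ b}))

end Setting

/-! ## Laurent polynomials with real exponents over a commutative ring -/

section Laurent

variable {A : Type u} [CommRing A]

/-- Laurent polynomials with real exponents. -/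
abbrev Lau (A : Type u) [CommRing A] : Type u := AddMonoidAlgebra A ℝ

/-- The monomial `c x^γ`. -/
noncomputable def mon (γ : ℝ) (c : A) : Lau A := AddMonoidAlgebra.single γ c

/-- The coefficient of `x^γ`. -/
noncomputable def cf (a : Lau A) (γ : ℝ) : A := a.coeff γ

/-- The coefficient of `x^γ Y^l`. -/
noncomputable def co (P : (Lau A)[X]) (γ : ℝ) (l : ℕ) : A := cf (P.coeff l) γ

/-- All exponents of `P` are in `Γ`. -/
def SuppIn (Γ : AddSubgroup ℝ) (P : (Lau A)[X]) : Prop := ∀ γ l, co P γ l ≠ 0 → γ ∈ Γ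

/-- The transform of a polynomial under a T-step:
`x^γ Y^l ↦ x^(γ + l β) (c + Y)^(s γ l)`. -/
noncomputable def tpoly (β : ℝ) (c : A) (s : ℝ → ℤ → ℤ) (P : (Lau A)[X]) : (Lau A)[X] :=
  P.sum fun l a => a.coeff.sum fun γ e =>
    C (mon (γ + l * β) e) * (C (mon 0 c) + X) ^ (s γ l).toNat

variable {Ω : Type u} [Field Ω] [Algebra A Ω]

/-- Evaluation of a Laurent polynomial. -/
noncomputable def evL (χ : ℝ → Ω) (a : Lau A) : Ω :=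
  a.coeff.sum fun γ c => algebraMap A Ω c * χ γ

/-- Evaluation of a polynomial over the Laurent polynomials. -/
noncomputable def ev (χ : ℝ → Ω) (y : Ω) (P : (Lau A)[X]) : Ω :=
  P.sum fun l a => evL χ a * y ^ l

end Laurent

section Red

variable {Λ : Type u} [CommRing Λ] [IsDomain Λ] [IsDiscreteValuationRing Λ]

/-- The residue field of `Λ`. -/
abbrev kk (Λ : Type u) [CommRing Λ] [IsDomain Λ] [IsDiscreteValuationRing Λ] : Type u :=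
  IsLocalRing.ResidueField Λ

/-- Reduction of the coefficients modulo `ϖ`. -/
noncomputable def red (P : (Lau Λ)[X]) : (LU1.Lau (kk Λ))[X] :=
  P.map (AddMonoidAlgebra.mapRingHom ℝ (IsLocalRing.residue Λ))

variable {Ω : Type u} [Field Ω] [Algebra Λ Ω] {ϖ : Λ}

/-- Evaluation in a frame. -/
noncomputable def BF.ev {v : RVal Ω} (B : BF ϖ v) (P : (Lau Λ)[X]) : Ω := LUM.ev B.χ B.y P

end Red

end Pool.Agent.LUM
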