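import Pool.Agent.Lib.LUM.Q01
import Pool.Agent.Lib.LUM.EtDescB
import Pool.Agent.Lib.LUM.ValRing

/-! # E01: etale descent, approximations

`S0 = locv Λ[F]` (F finite, `v ≥ 0`), `c₀ ∈ S0`, `S = locv Λ[F, θ]`, `θ` a root of a monic polynomial `P` with
coefficients in `S0`, `v (P' θ) = 0`, `VPos (θ - c₀)`; `t` a finite set of generators of the ideal
`{v > 0}` of `S0` (noetherian: `locv_isNoetherian` in `NFb.lean`); `I = t S`, and
`II I x` is the predicate `x ∈ I` of `LU1_h15/EtDescC.lean`.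
Recipe. `theta_sub_mem`: Taylor at `c₀`: `0 = P θ = P c₀ + P' θ (θ - c₀) + ..`; more precisely
`P c₀ = P θ + P' θ (c₀ - θ) + e (c₀ - θ)^2 = (c₀ - θ) (P' θ + e (c₀ - θ))`, the second factor has value
zero, it is a unit of `S`; `P c₀ ∈ S0` has positive value (or is 0), so it is in `t S0`.
`approx1`: every element of `S` is in `S0 + I`: true for `Λ[F, θ]`, and for `a / b`: `b = b₀ + i`, `b₀` has value
zero, `a / b - a₀ / b₀ = (a b₀ - a₀ b) / (b b₀) ∈ I`.
`approx`: `S = S0 + I^n`: induction: `I^n = t^n S`, `t^n S ⊆ t^n S0 + t^n I`; see `approx` in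
`LU1_h15/EtDescC.lean`. -/

set_option autoImplicit false
set_option linter.unusedSectionVars false
set_option linter.unusedVariables false

open Polynomial
open scoped Pointwise

namespace Pool.Agent.LUM

open Pool.Agent.H15JM (RVal)
open Pool.Agent.LU1 (VPos LatData val_add_vpos adj)

universe u

variable {Λ Ω : Type u} [CommRing Λ] [IsDomain Λ] [IsDiscreteValuationRing Λ] [Field Ω]
  [Algebra Λ Ω] {ϖ : Λ} {v : RVal Ω} {r : ℕ}

/-- `x` is in the ideal `I`. -/
def II {S : Subalgebra Λ Ω} (I : Ideal S) (x : Ω) : Prop := ∃ z : S, z ∈ I ∧ (z : Ω) = x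

section IIaux

variable {S : Subalgebra Λ Ω} {I : Ideal S} {x y : Ω}

private theorem II.mem' (h : II I x) : x ∈ S := by
  obtain ⟨z, -, rfl⟩ := h
  exact z.2

private theorem II.zero' : II I (0 : Ω) := ⟨0, I.zero_mem, rfl⟩

private theorem II.add' (h : II I x) (h' : II I y) : II I (x + y) := by
  obtain ⟨z, hz, rfl⟩ := h
  obtain ⟨w, hw, rfl⟩ := h'
  exact ⟨z + w, I.add_mem hz hw, rfl⟩

private theorem II.sub' (h : II I x) (h' : II I y) : II I (x - y) := by
  obtain ⟨z, hz, rfl⟩ := h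
  obtain ⟨w, hw, rfl⟩ := h'
  exact ⟨z - w, I.sub_mem hz hw, rfl⟩

private theorem II.mul_left' (a : Ω) (ha : a ∈ S) (h : II I x) : II I (a * x) := by
  obtain ⟨z, hz, rfl⟩ := h
  exact ⟨⟨a, ha⟩ * z, I.mul_mem_left _ hz, rfl⟩

private theorem II.mul_right' (a : Ω) (ha : a ∈ S) (h : II I x) : II I (x * a) := by
  rw [mul_comm]
  exact h.mul_left' a ha

private theorem II.sum' {ι : Type*} (s : Finset ι) (f : ι → Ω) (h : ∀ i ∈ s, II I (f i)) :
    II I (∑ i ∈ s, f i) := by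
  classical
  induction s using Finset.induction_on with
  | empty => simpa using II.zero'
  | insert a s ha ih =>
    rw [Finset.sum_insert ha]
    exact (h a (Finset.mem_insert_self a s)).add' (ih fun i hi => h i (Finset.mem_insert_of_mem hi))

private theorem II.span' {t : Finset Ω} (hx : x ∈ t) (hS : x ∈ S) :
    II (Ideal.span {z : S | (z : Ω) ∈ (t : Set Ω)}) x :=
  ⟨⟨x, hS⟩, Ideal.subset_span hx, rfl⟩

/-- The elements of the ideal have positive value. -/
private theorem II.vpos' {t : Finset Ω} (hnn : ∀ f ∈ S, v.Ge 0 f) (ht : ∀ x ∈ t, VPos v x)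
    (hx : II (Ideal.span {z : S | (z : Ω) ∈ (t : Set Ω)}) x) : VPos v x := by
  obtain ⟨z, hz, rfl⟩ := hx
  have hz' : z ∈ Submodule.span S {z : S | (z : Ω) ∈ (t : Set Ω)} := hz
  clear hz
  induction hz' using Submodule.span_induction with
  | mem x hx => exact ht _ hx
  | zero => exact VPos.zero
  | add a b _ _ ha hb => exact ha.add hb
  | smul c a _ ha => exact VPos.mul' (hnn _ c.2) ha

private theorem eval_mem' {R : Subalgebra Λ Ω} {f : Polynomial Ω} (hc : ∀ i, f.coeff i ∈ R) {x : Ω}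
    (hx : x ∈ R) : f.eval x ∈ R := by
  rw [eval_eq_sum_range]
  exact R.sum_mem fun i _ => R.mul_mem (hc i) (R.pow_mem hx i)

private theorem taylor_mem' {R : Subalgebra Λ Ω} {f : Polynomial Ω} (hc : ∀ i, f.coeff i ∈ R)
    {x t : Ω} (hx : x ∈ R) (ht : t ∈ R) :
    ∃ e ∈ R, f.eval (x + t) = f.eval x + f.derivative.eval x * t + e * t ^ 2 := by
  obtain ⟨f0, hf0⟩ : ∃ f0 : Polynomial R, f0.map (algebraMap R Ω) = f := by
    have h1 : f ∈ Polynomial.lifts (algebraMap R Ω) := by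
      rw [Polynomial.lifts_iff_coeff_lifts]
      intro n
      exact ⟨⟨f.coeff n, hc n⟩, rfl⟩
    exact (Polynomial.mem_lifts f).1 h1
  obtain ⟨e, he⟩ := Polynomial.binomExpansion f0 ⟨x, hx⟩ ⟨t, ht⟩
  refine ⟨e, e.2, ?_⟩
  have h2 : ∀ z : R, ∀ g : Polynomial R, (g.map (algebraMap R Ω)).eval (z : Ω) = (g.eval z : R) :=
    fun z g => by
      rw [eval_map]
      exact Polynomial.eval₂_at_apply (algebraMap R Ω) z
  have h3 := congrArg (fun z : R => (z : Ω)) he
  simp only [Subalgebra.coe_add, Subalgebra.coe_mul, Subalgebra.coe_pow] at h3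
  rw [← h2, ← h2, ← h2, ← Polynomial.derivative_map, hf0] at h3
  exact h3

private theorem derivative_coeff_mem' {R : Subalgebra Λ Ω} {f : Polynomial Ω}
    (hc : ∀ i, f.coeff i ∈ R) (i : ℕ) : f.derivative.coeff i ∈ R := by
  rw [coeff_derivative]
  refine R.mul_mem (hc _) (R.add_mem ?_ R.one_mem)
  exact natCast_mem R i

end IIaux

/-- Generators of the ideal of the elements of positive value. -/
theorem exists_gens_max (h : Ctx0 ϖ v r) (F : Finset Ω) (hF : ∀ f ∈ F, v.Ge 0 f) :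
    ∃ t : Finset Ω, (∀ x ∈ t, x ∈ locv v (Algebra.adjoin Λ (F : Set Ω)) ∧ x ≠ 0 ∧ 0 < v x) ∧
      ∀ z ∈ locv v (Algebra.adjoin Λ (F : Set Ω)), VPos v z →
        ∃ a : Ω → Ω, (∀ x ∈ t, a x ∈ locv v (Algebra.adjoin Λ (F : Set Ω))) ∧
          z = ∑ x ∈ t, x * a x := by
  classical
  set S0 : Subalgebra Λ Ω := locv v (Algebra.adjoin Λ (F : Set Ω)) with hS0
  have hN : IsNoetherianRing S0 := locv_isNoetherian _ ⟨F, rfl⟩
  have hnn : ∀ f ∈ S0, v.Ge 0 f := locv_nonneg (adjoin_nonneg h fun f hf => hF f hf)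
  let m : Ideal S0 :=
    { carrier := {z | VPos v (z : Ω)}
      add_mem' := fun {a b} ha hb => by
        have := VPos.add ha hb
        exact this
      zero_mem' := VPos.zero
      smul_mem' := fun c x hx => by
        have := VPos.mul' (hnn _ c.2) hx
        exact this }
  obtain ⟨G, hG⟩ := hN.noetherian m
  have hGm : ∀ z ∈ G, VPos v (z : Ω) := by
    intro z hz
    have h1 : z ∈ m := by
      rw [← hG]
      exact Submodule.subset_span hz
    exact h1
  refine ⟨(G.image fun z : S0 => (z : Ω)).filter fun x => x ≠ 0, ?_, ?_⟩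
  · intro x hx
    obtain ⟨h1, h2⟩ := Finset.mem_filter.1 hx
    obtain ⟨z, hz, rfl⟩ := Finset.mem_image.1 h1
    exact ⟨z.2, h2, hGm z hz h2⟩
  · intro z hz hv
    have h1 : (⟨z, hz⟩ : S0) ∈ Submodule.span S0 (G : Set S0) := by
      rw [hG]
      exact hv
    obtain ⟨f, -, hf⟩ := Submodule.mem_span_finset.1 h1
    refine ⟨fun x => if hx : x ∈ S0 then (f ⟨x, hx⟩ : Ω) else 0, ?_, ?_⟩
    · intro x hx
      obtain ⟨h2, -⟩ := Finset.mem_filter.1 hx
      obtain ⟨w, hw, rfl⟩ := Finset.mem_image.1 h2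
      change (if hx : (w : Ω) ∈ S0 then (f ⟨(w : Ω), hx⟩ : Ω) else 0) ∈ S0
      rw [dif_pos w.2]
      exact (f _).2
    · rw [Finset.sum_filter_of_ne, Finset.sum_image fun a _ b _ hab => Subtype.ext hab]
      · have h3 := congrArg (fun z : S0 => (z : Ω)) hf
        have h4 : ((∑ a ∈ G, f a • a : S0) : Ω) = ∑ a ∈ G, (f a : Ω) * (a : Ω) := by
          rw [AddSubmonoidClass.coe_finsetSum]
          rfl
        change ((∑ a ∈ G, f a • a : S0) : Ω) = z at h3
        rw [← h3, h4]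
        refine Finset.sum_congr rfl fun a _ => ?_
        change (f a : Ω) * (a : Ω) =
          (a : Ω) * (if hx : (a : Ω) ∈ S0 then (f ⟨(a : Ω), hx⟩ : Ω) else 0)
        rw [dif_pos a.2, mul_comm]
      · intro x _ hx h0
        rw [h0, zero_mul] at hx
        exact hx rfl

theorem theta_sub_mem (h : Ctx0 ϖ v r) {S0 S : Subalgebra Λ Ω} (h0S : S0 ≤ S)
    (hnn : ∀ f ∈ S, v.Ge 0 f) (hloc : ∀ f ∈ S, f ≠ 0 → v f = 0 → f⁻¹ ∈ S) {P : Polynomial Ω}
    (hc : ∀ i, P.coeff i ∈ S0) {θ c₀ : Ω} (hθ : θ ∈ S) (hc₀ : c₀ ∈ S0) (hroot : P.eval θ = 0)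
    (h1 : P.derivative.eval θ ≠ 0) (h2 : v (P.derivative.eval θ) = 0) (hθc : VPos v (θ - c₀))
    {t : Finset Ω} (htS : ∀ x ∈ t, x ∈ S0)
    (ht : ∀ z ∈ S0, VPos v z → ∃ a : Ω → Ω, (∀ x ∈ t, a x ∈ S0) ∧ z = ∑ x ∈ t, x * a x) :
    II (Ideal.span {z : S | (z : Ω) ∈ (t : Set Ω)}) (θ - c₀) := by
  obtain ⟨e, he, h3⟩ := taylor_mem' (f := P) (fun i => h0S (hc i)) hθ
    (S.sub_mem (h0S hc₀) hθ)
  rw [add_sub_cancel, hroot, zero_add] at h3
  have hθc' : VPos v (c₀ - θ) := by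
    have := hθc.neg
    rwa [neg_sub] at this
  set w : Ω := P.derivative.eval θ + e * (c₀ - θ) with hw
  have hw1 : w ≠ 0 ∧ v w = 0 := val_add_vpos h1 h2 (VPos.mul' (hnn e he) hθc')
  have hPw : P.eval c₀ = (c₀ - θ) * w := by
    rw [h3, hw]
    ring
  have hwS : w ∈ S := S.add_mem (eval_mem' (fun i => derivative_coeff_mem'
    (fun i => h0S (hc i)) i) hθ) (S.mul_mem he (S.sub_mem (h0S hc₀) hθ))
  have hwS' := hloc w hwS hw1.1 hw1.2
  have hP0 : P.eval c₀ ∈ S0 := eval_mem' hc hc₀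
  have hPv : VPos v (P.eval c₀) := by
    rw [hPw]
    exact hθc'.mul (hnn w hwS)
  obtain ⟨a, ha, h4⟩ := ht _ hP0 hPv
  have h5 : II (Ideal.span {z : S | (z : Ω) ∈ (t : Set Ω)}) (P.eval c₀) := by
    rw [h4]
    exact II.sum' _ _ fun x hx => (II.span' hx (h0S (htS x hx))).mul_right' _ (h0S (ha x hx))
  have h6 : θ - c₀ = -w⁻¹ * P.eval c₀ := by
    rw [hPw]
    have := hw1.1
    field_simp
    ring
  rw [h6]
  exact h5.mul_left' _ (S.neg_mem hwS')

/-- `S = S0 + I^n`. -/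
theorem approx_pow {S0 S : Subalgebra Λ Ω} (h0S : S0 ≤ S)
    (hnn : ∀ f ∈ S, v.Ge 0 f) (hloc0 : ∀ f ∈ S0, f ≠ 0 → v f = 0 → f⁻¹ ∈ S0) {θ c₀ : Ω}
    (hS : S = locv v (Algebra.adjoin Λ ((S0 : Set Ω) ∪ {θ}))) (hc₀ : c₀ ∈ S0)
    {t : Finset Ω} (htS : ∀ x ∈ t, x ∈ S0 ∧ VPos v x)
    (hθ : II (Ideal.span {z : S | (z : Ω) ∈ (t : Set Ω)}) (θ - c₀)) (n : ℕ) :
    ∀ x ∈ S, ∃ y ∈ S0, II ((Ideal.span {z : S | (z : Ω) ∈ (t : Set Ω)}) ^ n) (x - y) := by
  set I : Ideal S := Ideal.span {z : S | (z : Ω) ∈ (t : Set Ω)} with hI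
  have hIv : ∀ x, II I x → VPos v x := fun x hx => II.vpos' hnn (fun y hy => (htS y hy).2) hx
  have hadS : ∀ x ∈ Algebra.adjoin Λ ((S0 : Set Ω) ∪ {θ}), x ∈ S := by
    intro x hx
    rw [hS]
    exact le_locv _ hx
  have hSloc : ∀ f ∈ S, f ≠ 0 → v f = 0 → f⁻¹ ∈ S := by
    intro f hf h0 h1
    rw [hS] at hf ⊢
    exact locv_inv hf h0 h1
  have h1 : ∀ x ∈ Algebra.adjoin Λ ((S0 : Set Ω) ∪ {θ}), ∃ y ∈ S0, II I (x - y) := by
    intro x hx
    induction hx using Algebra.adjoin_induction with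
    | mem x hx =>
      rcases hx with hx | hx
      · exact ⟨x, hx, by rw [sub_self]; exact II.zero'⟩
      · rw [Set.mem_singleton_iff.1 hx]
        exact ⟨c₀, hc₀, hθ⟩
    | algebraMap c => exact ⟨_, S0.algebraMap_mem c, by rw [sub_self]; exact II.zero'⟩
    | add x y _ _ hx hy =>
      obtain ⟨a, ha, ha'⟩ := hx
      obtain ⟨b, hb, hb'⟩ := hy
      refine ⟨a + b, S0.add_mem ha hb, ?_⟩
      rw [add_sub_add_comm]
      exact ha'.add' hb'
    | mul x y hxm _ hx hy =>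
      obtain ⟨a, ha, ha'⟩ := hx
      obtain ⟨b, hb, hb'⟩ := hy
      refine ⟨a * b, S0.mul_mem ha hb, ?_⟩
      have h2 : x * y - a * b = x * (y - b) + b * (x - a) := by ring
      rw [h2]
      exact (hb'.mul_left' x (hadS x hxm)).add' (ha'.mul_left' b (h0S hb))
  have happ1 : ∀ x ∈ S, ∃ y ∈ S0, II I (x - y) := by
    intro x hx
    rw [hS] at hx
    obtain ⟨a, ha, b, hb, hb0, hvb, rfl⟩ := hx
    obtain ⟨a₀, ha₀, ha'⟩ := h1 a ha
    obtain ⟨b₀, hb₀, hb'⟩ := h1 b hb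
    have h2 : b₀ ≠ 0 ∧ v b₀ = 0 := by
      have h3 : b₀ = b + -(b - b₀) := by ring
      rw [h3]
      exact val_add_vpos hb0 hvb (hIv _ hb').neg
    refine ⟨a₀ / b₀, by rw [div_eq_mul_inv]; exact S0.mul_mem ha₀ (hloc0 b₀ hb₀ h2.1 h2.2), ?_⟩
    have h4 : a / b - a₀ / b₀ = (b₀ * (a - a₀) - a₀ * (b - b₀)) * (b⁻¹ * b₀⁻¹) := by
      have := h2.1
      field_simp
      ring
    rw [h4]
    exact ((ha'.mul_left' _ (h0S hb₀)).sub' (hb'.mul_left' _ (h0S ha₀))).mul_right' _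
      (S.mul_mem (hSloc b (hadS b hb) hb0 hvb) (h0S (hloc0 b₀ hb₀ h2.1 h2.2)))
  -- elements of `I ^ n`
  have key : ∀ n : ℕ, ∀ x : S, x ∈ I ^ n → ∃ y ∈ S0, II (I ^ (n + 1)) ((x : Ω) - y) := by
    intro n
    induction n with
    | zero =>
      intro x _
      obtain ⟨c, hc, hc'⟩ := happ1 x x.2
      exact ⟨c, hc, by rw [zero_add, pow_one]; exact hc'⟩
    | succ n ih =>
      intro x hx
      rw [pow_succ'] at hx
      refine Submodule.mul_induction_on hx ?_ ?_
      · intro a ha b hb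
        have ha' : a ∈ Submodule.span S {z : S | (z : Ω) ∈ (t : Set Ω)} := ha
        induction ha' using Submodule.span_induction generalizing b with
        | mem t ht =>
          obtain ⟨y, hy, hy'⟩ := ih b hb
          refine ⟨(t : Ω) * y, S0.mul_mem (htS _ ht).1 hy, ?_⟩
          obtain ⟨z, hz, hz'⟩ := hy'
          refine ⟨t * z, ?_, ?_⟩
          · rw [pow_succ']
            exact Ideal.mul_mem_mul (Ideal.subset_span ht) hz
          · push_cast
            rw [hz']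
            ring
        | zero =>
          refine ⟨0, S0.zero_mem, ?_⟩
          rw [zero_mul]
          push_cast
          rw [sub_zero]
          exact II.zero'
        | add a1 a2 _ _ h1 h2 =>
          obtain ⟨y1, hy1, h3⟩ := h1 (by assumption) b hb
          obtain ⟨y2, hy2, h4⟩ := h2 (by assumption) b hb
          refine ⟨y1 + y2, S0.add_mem hy1 hy2, ?_⟩
          have := h3.add' h4
          convert this using 1
          push_cast
          ring
        | smul c a _ h1 =>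
          obtain ⟨y1, hy1, h3⟩ := h1 (by assumption) (c * b) (Ideal.mul_mem_left _ c hb)
          refine ⟨y1, hy1, ?_⟩
          convert h3 using 1
          rw [smul_eq_mul]
          push_cast
          ring
      · rintro a b ⟨y1, hy1, h1⟩ ⟨y2, hy2, h2⟩
        refine ⟨y1 + y2, S0.add_mem hy1 hy2, ?_⟩
        have := h1.add' h2
        convert this using 1
        push_cast
        ring
  induction n with
  | zero => exact fun x hx => ⟨0, S0.zero_mem, ⟨x, hx⟩, by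
      rw [pow_zero, Ideal.one_eq_top]; trivial, by simp⟩
  | succ n ih =>
    intro x hx
    obtain ⟨y, hy, z, hz, hz'⟩ := ih x hx
    obtain ⟨y', hy', h1⟩ := key n z hz
    refine ⟨y + y', S0.add_mem hy hy', ?_⟩
    rw [hz'] at h1
    rwa [sub_sub] at h1

/-- Elements of `I^n` are divisible by `X^n` in a larger ring in which the `t` are divisible
by `X`. -/
theorem II_dvd_pow {S T : Subalgebra Λ Ω} (hST : S ≤ T) {t : Finset Ω} {X : Ω}
    (hX : ∀ x ∈ t, ∃ a ∈ T, x = X * a) (n : ℕ) (x : Ω)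
    (hx : II ((Ideal.span {z : S | (z : Ω) ∈ (t : Set Ω)}) ^ n) x) :
    ∃ a ∈ T, x = X ^ n * a := by
  set I : Ideal S := Ideal.span {z : S | (z : Ω) ∈ (t : Set Ω)} with hI
  have h1 : ∀ z : S, z ∈ I → ∃ a ∈ T, (z : Ω) = X * a := by
    intro z hz
    have hz' : z ∈ Submodule.span S {z : S | (z : Ω) ∈ (t : Set Ω)} := hz
    induction hz' using Submodule.span_induction with
    | mem t ht => exact hX t ht
    | zero => exact ⟨0, T.zero_mem, by simp⟩
    | add a b _ _ ha hb =>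
      obtain ⟨x, hx, h1⟩ := ha (by assumption)
      obtain ⟨y, hy, h2⟩ := hb (by assumption)
      exact ⟨x + y, T.add_mem hx hy, by push_cast; rw [h1, h2]; ring⟩
    | smul c a _ ha =>
      obtain ⟨x, hx, h1⟩ := ha (by assumption)
      exact ⟨c * x, T.mul_mem (hST c.2) hx, by rw [smul_eq_mul]; push_cast; rw [h1]; ring⟩
  have h2 : ∀ z : S, z ∈ I ^ n → ∃ a ∈ T, (z : Ω) = X ^ n * a := by
    clear hx
    induction n with
    | zero => exact fun z _ => ⟨z, hST z.2, by rw [pow_zero, one_mul]⟩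
    | succ n ih =>
      intro z hz
      rw [pow_succ'] at hz
      refine Submodule.mul_induction_on hz ?_ ?_
      · intro a ha b hb
        obtain ⟨x, hx, h3⟩ := h1 a ha
        obtain ⟨y, hy, h4⟩ := ih b hb
        exact ⟨x * y, T.mul_mem hx hy, by push_cast; rw [h3, h4]; ring⟩
      · rintro a b ⟨x, hx, h3⟩ ⟨y, hy, h4⟩
        exact ⟨x + y, T.add_mem hx hy, by push_cast; rw [h3, h4]; ring⟩
  obtain ⟨z, hz, rfl⟩ := hx
  exact h2 z hz

/-- Elements of `I^n` divided by `b`. -/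
theorem II_div {S T : Subalgebra Λ Ω} (hST : S ≤ T) {t : Finset Ω} (b : Ω) (n : ℕ)
    (ht : ∀ φ : Fin n → t, (∏ i, ((φ i : t) : Ω)) / b ∈ T) (x : Ω)
    (hx : II ((Ideal.span {z : S | (z : Ω) ∈ (t : Set Ω)}) ^ n) x) : x / b ∈ T := by
  obtain ⟨z, hz, rfl⟩ := hx
  have h1 : (Ideal.span {z : S | (z : Ω) ∈ (t : Set Ω)}) ^ n =
      Submodule.span S ({z : S | (z : Ω) ∈ (t : Set Ω)} ^ n) := Submodule.span_pow _ n
  rw [h1] at hz
  induction hz using Submodule.span_induction with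
  | mem t ht' =>
    obtain ⟨f, hf⟩ := Set.mem_pow.1 ht'
    have h2 := ht fun i => ⟨((f i : S) : Ω), (f i).2⟩
    have h3 : (t : Ω) = ∏ i, (((f i : S) : Ω)) := by
      rw [← hf, List.prod_ofFn]
      push_cast
      rfl
    rw [h3]
    exact h2
  | zero => simp
  | add a b _ _ ha hb =>
    push_cast
    rw [add_div]
    exact T.add_mem ha hb
  | smul c a _ ha =>
    rw [smul_eq_mul]
    push_cast
    rw [mul_div_assoc]
    exact T.mul_mem (hST c.2) ha

end Pool.Agent.LUM
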