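import Pool.Agent.Lib.LUM.WDefs
import Pool.Agent.Lib.LUM.EtDescB

/-! # I02: linear descent along one etale step, transitivity

Recipe (`linD_step`): the proof of `descend_rel` in `EtDescB.lean` with coefficients `w j ∈ L`: `S[θ]` is
free over `S` with basis the powers of `θ` (the minimal polynomial of `θ` over `L` has its coefficients
in `S`).  Multiply the relation by the common denominator `u` of the `α j`; write `u * α j = A_j(θ)`
with `deg A_j < deg h`; since `1, θ, ..` are linearly independent over `L`, `∑ j, w j * (A_j)_i = 0` for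
each `i`.  `A_{j₀} ≠ 0`: choose `i` with `(A_{j₀})_i ≠ 0`, and of value zero if `v (α j₀) = 0` (then
`v (A_{j₀}(θ)) = 0`; `vpos_aeval`).  `β j = (A_j)_i`. -/

set_option autoImplicit false
set_option linter.unusedSectionVars false
set_option linter.unusedVariables false

open Polynomial

namespace Pool.Agent.LUM

open Pool.Agent.H15JM (RVal)
open Pool.Agent.LU1 (VPos LatData val_add_vpos adj)

universe u

variable {Λ Q Ω : Type u} [CommRing Λ] [IsDomain Λ] [IsDiscreteValuationRing Λ] [Field Q]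
  [Algebra Λ Q] [IsFractionRing Λ Q] [Field Ω] [Algebra Λ Ω] [Algebra Q Ω] [IsScalarTower Λ Q Ω]
  {ϖ : Λ} {v : RVal Ω} {r : ℕ}

theorem linD_step (L : IntermediateField Q Ω) (θ : Ω) (hint : IsIntegral L θ) (hθ : v.Ge 0 θ)
    (S : Subalgebra Λ Ω) (hSL : ∀ f ∈ S, f ∈ L) (hnn : ∀ f ∈ S, v.Ge 0 f)
    (hc : ∀ i, ((minpoly L θ).coeff i : Ω) ∈ S) :
    LinD v (L : Set Ω) S (locv v (Algebra.adjoin Λ ((S : Set Ω) ∪ {θ}))) := by
  classical
  intro n w α hw hα hrel0 j₀ hj₀
  set ι : S →+* L :=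
    { toFun := fun x => ⟨x, hSL x x.2⟩
      map_one' := rfl
      map_mul' := fun _ _ => rfl
      map_zero' := rfl
      map_add' := fun _ _ => rfl } with hι
  have hιinj : Function.Injective ι := by
    intro a b hab
    exact Subtype.ext (congrArg (fun z : L => (z : Ω)) hab)
  have hmap : ∀ P : S[X], aeval θ (P.map ι) = aeval θ P := by
    intro P
    rw [aeval_def, aeval_def, eval₂_map]
    rfl
  -- the minimal polynomial over `S`
  have hlift : minpoly L θ ∈ lifts ι := by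
    rw [lifts_iff_coeff_lifts]
    intro i
    exact ⟨⟨_, hc i⟩, Subtype.ext rfl⟩
  obtain ⟨h, hh, hdeg, hmon⟩ := lifts_and_degree_eq_and_monic hlift (minpoly.monic hint)
  have hh0 : aeval θ h = 0 := by rw [← hmap, hh, minpoly.aeval]
  -- reduction
  have hred : ∀ f ∈ Algebra.adjoin Λ ((S : Set Ω) ∪ {θ}),
      ∃ P : S[X], P.degree < h.degree ∧ aeval θ P = f := by
    intro f hf
    obtain ⟨P, hP⟩ := exists_aeval_of_mem_adjoin S θ f hf
    refine ⟨P %ₘ h, degree_modByMonic_lt P hmon, ?_⟩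
    rw [← hP]
    conv_rhs => rw [← modByMonic_add_div P h]
    rw [_root_.map_add, _root_.map_mul, hh0, zero_mul, add_zero]
  have huniq : ∀ P : L[X], P.degree < h.degree → aeval θ P = 0 → P = 0 := by
    intro P hP h0
    by_contra hne
    have h2 := minpoly.degree_le_of_ne_zero L θ hne h0
    rw [← hdeg] at h2
    exact absurd hP (not_lt.2 h2)
  -- common denominator
  choose a ha b hb hb0 hvb hab using hα
  set u : Ω := ∏ j, b j with hu
  have hu0 : u ≠ 0 := Finset.prod_ne_zero_iff.2 fun j _ => hb0 j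
  have hvu : v u = 0 := by
    have : ∀ s : Finset (Fin n), v (∏ j ∈ s, b j) = 0 := by
      intro s
      induction s using Finset.induction_on with
      | empty => rw [Finset.prod_empty, v.map_one]
      | insert j s hj ih =>
        rw [Finset.prod_insert hj, v.map_mul (hb0 j)
          (Finset.prod_ne_zero_iff.2 fun i _ => hb0 i), hvb, ih, add_zero]
    exact this _
  have huα : ∀ j, u * α j ∈ Algebra.adjoin Λ ((S : Set Ω) ∪ {θ}) := by
    intro j
    have h1 : u * α j = (∏ i ∈ Finset.univ.erase j, b i) * a j := by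
      rw [hab j, hu, ← Finset.mul_prod_erase Finset.univ b (Finset.mem_univ j)]
      field_simp [hb0 j]
    rw [h1]
    exact Subalgebra.mul_mem _ (Subalgebra.prod_mem _ fun i _ => hb i) (ha j)
  choose A hAd hA using fun j => hred _ (huα j)
  have hrel : ∑ j, C (⟨w j, hw j⟩ : L) * (A j).map ι = 0 := by
    have hCd : ∀ (c : L) (P : S[X]), P.degree < h.degree → (C c * P.map ι).degree < h.degree := by
      intro c P hP
      refine lt_of_le_of_lt ?_ hP
      rw [← smul_eq_C_mul]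
      exact (degree_smul_le c _).trans degree_map_le
    refine huniq _ ?_ ?_
    · refine lt_of_le_of_lt (degree_sum_le _ _) ?_
      rw [Finset.sup_lt_iff (lt_of_le_of_lt bot_le (hAd j₀))]
      exact fun j _ => hCd _ _ (hAd j)
    · rw [_root_.map_sum]
      have h1 : ∀ j, aeval θ (C (⟨w j, hw j⟩ : L) * (A j).map ι) = w j * (u * α j) := by
        intro j
        rw [_root_.map_mul, aeval_C, hmap, hA]
        rfl
      rw [Finset.sum_congr rfl fun j _ => h1 j]
      have h2 : ∑ j, w j * (u * α j) = u * ∑ j, w j * α j := by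
        rw [Finset.mul_sum]
        exact Finset.sum_congr rfl fun j _ => by ring
      rw [h2, hrel0, mul_zero]
  have hcoef : ∀ i, ∑ j, w j * ((A j).coeff i : Ω) = 0 := by
    intro i
    have h1 := congrArg (fun P : L[X] => (P.coeff i : Ω)) hrel
    simp only [coeff_C_mul, finsetSum_coeff, coeff_zero, coeff_map] at h1
    push_cast at h1
    exact h1
  -- the coordinate
  obtain ⟨i, hi0, hiv⟩ : ∃ i, ((A j₀).coeff i : Ω) ≠ 0 ∧
      (v (α j₀) = 0 → v ((A j₀).coeff i : Ω) = 0) := by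
    by_cases hv0 : v (α j₀) = 0
    · by_contra hno
      push Not at hno
      have h1 : VPos v (aeval θ (A j₀)) := vpos_aeval S θ hθ (A j₀) fun i h0 =>
        lt_of_le_of_ne (hnn _ ((A j₀).coeff i).2 h0) (Ne.symm (hno i h0).2)
      rw [hA] at h1
      have h2 := h1 (mul_ne_zero hu0 hj₀)
      rw [v.map_mul hu0 hj₀, hvu, hv0, add_zero] at h2
      exact lt_irrefl _ h2
    · have h1 : A j₀ ≠ 0 := by
        intro h0
        have h2 := hA j₀
        rw [h0, _root_.map_zero] at h2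
        exact mul_ne_zero hu0 hj₀ h2.symm
      obtain ⟨i, hi⟩ : ∃ i, (A j₀).coeff i ≠ 0 := by
        by_contra hno
        push Not at hno
        exact h1 (Polynomial.ext fun i => by rw [hno i, coeff_zero])
      exact ⟨i, fun h0 => hi (Subtype.ext h0), fun h0 => absurd h0 hv0⟩
  exact ⟨fun j => ((A j).coeff i : Ω), fun j => ((A j).coeff i).2, hcoef i, hi0, hiv⟩

theorem LinD.trans {L L' : Set Ω} {S T U : Subalgebra Λ Ω} (hL : L ⊆ L') (h1 : LinD v L S T)
    (h2 : LinD v L' T U) : LinD v L S U := by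
  intro n w α hw hα hrel j₀ hj₀
  obtain ⟨β, hβ, hrel', hβ0, hβv⟩ := h2 n w α (fun j => hL (hw j)) hα hrel j₀ hj₀
  obtain ⟨γ, hγ, hrel'', hγ0, hγv⟩ := h1 n w β hw hβ hrel' j₀ hβ0
  exact ⟨γ, hγ, hrel'', hγ0, fun h => hγv (hβv h)⟩

theorem LinD.refl (L : Set Ω) (S : Subalgebra Λ Ω) : LinD v L S S :=
  fun _ _ α _ hα hrel _ hj₀ => ⟨α, hα, hrel, hj₀, id⟩

/-- Elements of `L` in `T` are in `S`. -/
theorem LinD.mem {L : Set Ω} {S T : Subalgebra Λ Ω} (h : LinD v L S T) (hST : S ≤ T)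
    (hloc : ∀ f ∈ S, f ≠ 0 → v f = 0 → f⁻¹ ∈ S) (h1 : (-1 : Ω) ∈ L) {z : Ω} (hz : z ∈ L)
    (hzT : z ∈ T) : z ∈ S := by
  obtain ⟨β, hβ, hrel, hβ0, hβv⟩ := h 2 ![z, -1] ![1, z]
    (by intro j; fin_cases j <;> simpa) (by
      intro j
      fin_cases j
      · simp
      · simpa) (by simp) 0 (by simp)
  have h2 := hβv (by simpa using v.map_one)
  rw [Fin.sum_univ_two] at hrel
  simp only [Matrix.cons_val_zero, Matrix.cons_val_one] at hrel
  have h3 : z = β 1 * (β 0)⁻¹ := by
    have h4 : z * β 0 = β 1 := by linear_combination hrel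
    rw [← h4, mul_assoc, mul_inv_cancel₀ hβ0, mul_one]
  rw [h3]
  exact S.mul_mem (hβ 1) (hloc _ (hβ 0) hβ0 h2)

/-- Descent of membership in an ideal. -/
theorem LinD.ideal {L : Set Ω} {S T : Subalgebra Λ Ω} (h : LinD v L S T)
    (hloc : ∀ f ∈ S, f ≠ 0 → v f = 0 → f⁻¹ ∈ S) (hneg : ∀ x ∈ L, -x ∈ L) {n : ℕ}
    (w α : Fin n → Ω) (hw : ∀ j, w j ∈ L) (hα : ∀ j, α j ∈ T) {z : Ω} (hz : z ∈ L)
    (he : z = ∑ j, w j * α j) : ∃ β : Fin n → Ω, (∀ j, β j ∈ S) ∧ z = ∑ j, w j * β j := by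
  obtain ⟨β, hβ, hrel, hβ0, hβv⟩ := h (n + 1) (Fin.cons (-z) w) (Fin.cons 1 α)
    (by
      intro j
      refine Fin.cases ?_ (fun i => ?_) j
      · rw [Fin.cons_zero]
        exact hneg z hz
      · rw [Fin.cons_succ]
        exact hw i) (by
      intro j
      refine Fin.cases ?_ (fun i => ?_) j
      · rw [Fin.cons_zero]
        exact T.one_mem
      · rw [Fin.cons_succ]
        exact hα i) (by
      rw [Fin.sum_univ_succ]
      simp only [Fin.cons_zero, Fin.cons_succ]
      rw [← he]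
      ring) 0 (by rw [Fin.cons_zero]; exact one_ne_zero)
  have h2 := hβv (by rw [Fin.cons_zero]; exact v.map_one)
  rw [Fin.sum_univ_succ] at hrel
  simp only [Fin.cons_zero, Fin.cons_succ] at hrel
  refine ⟨fun j => β j.succ * (β 0)⁻¹, fun j => S.mul_mem (hβ _) (hloc _ (hβ 0) hβ0 h2), ?_⟩
  have h4 : z * β 0 = ∑ j : Fin n, w j * β j.succ := by linear_combination -hrel
  have h5 : z = z * β 0 * (β 0)⁻¹ := by rw [mul_assoc, mul_inv_cancel₀ hβ0, mul_one]
  rw [h5, h4, Finset.sum_mul]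
  exact Finset.sum_congr rfl fun j _ => by ring

/-- Fractions descend. -/
theorem LinD.frac {L : Set Ω} {S T : Subalgebra Λ Ω} (h : LinD v L S T)
    (h1 : (-1 : Ω) ∈ L) {z a b : Ω} (hz : z ∈ L) (ha : a ∈ T) (hb : b ∈ T) (hb0 : b ≠ 0)
    (he : z = a / b) : ∃ a' ∈ S, ∃ b' ∈ S, b' ≠ 0 ∧ z = a' / b' := by
  obtain ⟨β, hβ, hrel, hβ0, -⟩ := h 2 ![z, -1] ![b, a]
    (by intro j; fin_cases j <;> simpa) (by
      intro j
      fin_cases j
      · simpa
      · simpa) (by
      rw [Fin.sum_univ_two]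
      simp only [Matrix.cons_val_zero, Matrix.cons_val_one]
      rw [he, div_mul_cancel₀ _ hb0]
      ring) 0 (by simpa)
  rw [Fin.sum_univ_two] at hrel
  simp only [Matrix.cons_val_zero, Matrix.cons_val_one] at hrel
  refine ⟨β 1, hβ 1, β 0, hβ 0, hβ0, ?_⟩
  rw [eq_div_iff hβ0]
  linear_combination hrel

end Pool.Agent.LUM
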