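import Pool.Agent.Lib.LUM.E01
import Pool.Agent.Lib.LUM.I02

/-! # E02: etale descent of local uniformization (general form)

Port of `Good.etale_desc` (`LU1_h15/EtDesc.lean`) with these changes.
Given `A` (with `Frac Λ[A] = E`) and `T` for `E`.  `F := A ∪ {coefficients of minpoly E θ} ∪ {c₀}`
(all in `E`, `v ≥ 0`).  For `f ∈ F` choose `f = a_f / b_f`, `a_f, b_f ∈ Λ[A]`.  `t` from `exists_gens_max`
for `S0 = locv Λ[F]`.  Apply `LUF` of `adj E θ` to `A₁ = F ∪ {θ}` and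
`T₁ = T ∪ t ∪ {a_f, b_f} \ {0}`: `N`, `g`, `G`.  `X = ∏ x_j`; every element of `t` is divisible by `X` in `N.R`
(`MonoPos.dvd`), `g` divides `X^e` (`MonoPos.dvd_pow`), `n = e + 2`.  `b, b_w ∈ S0` with
`g - b, w - b_w ∈ I^n` (`approx_pow`).  `FR = F ∪ {b_w / b} ∪ {t^φ / b : φ ∈ t^n}`,
`R = locv Λ[FR]`.  As in `EtDesc.lean`: `R ≤ N.R`, `N.R = locv R[θ]`, every `x ∈ N.R` is
`ρ x + X^2 (..)`, `ρ x ∈ R`; new parameters `ρ (x_j) = x_j U_j`, `ρ y = y - X^2 a`; `gen` by `LinD.ideal`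
(`linD_step` for `R ≤ E`, `θ`).
`ρ y ≠ 0`, and `Kap` for the new frame, by the valuation `κ` of `Kap` of `N`: `κ y = 0`,
`κ (X^2 a) > 0`, so `ρ y ≠ 0`, `κ (ρ y) = 0`; `κ U_j = 0` because `U_j, U_j⁻¹ ∈ N.R`; so
`κ (ρ x_j) = κ x_j`.
`MonoPos` in the new frame `N'` (for `T`, `b`, `a_f`, `b_f ≠ 0`, all in `E`): `f = ∏ x_j^{n_j} u
= ∏ (ρ x_j)^{n_j} u'`, `u'` a unit of `N.R` which lies in `E`, so `u', u'⁻¹ ∈ N.R ∩ E = R` (`LinD.mem`);
`b = g U` with `U` a unit of `N.R`, `g` monomial.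
Chart (`WN.chart_of` for `N'`, `A`, `FR`): `F ⊆ N'.QM Λ[A]` as `b_f` is monomial; so `S0 = locv Λ[F] ≤ QM`
(`qm_locv`), `b, b_w, t ∈ S0`, and `b⁻¹ ∈ QM` (`qm_inv`, `b` is monomial): `FR ⊆ QM`. -/

set_option autoImplicit false
set_option linter.unusedSectionVars false
set_option linter.unusedVariables false

open Polynomial

namespace Pool.Agent.LUM

open Pool.Agent.H15JM (RVal)
open Pool.Agent.LU1 (VPos LatData val_add_vpos adj)

universe u

variable {Λ Q Ω : Type u} [CommRing Λ] [IsDomain Λ] [IsDiscreteValuationRing Λ] [Field Q]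
  [Algebra Λ Q] [IsFractionRing Λ Q] [Field Ω] [Algebra Λ Ω] [Algebra Q Ω] [IsScalarTower Λ Q Ω]
  {ϖ : Λ} {v : RVal Ω} {r : ℕ}

private theorem II_prod {S : Subalgebra Λ Ω} {t : Finset Ω} (n : ℕ) (φ : Fin n → t)
    (h : ∀ i, ((φ i : t) : Ω) ∈ S) :
    II ((Ideal.span {z : S | (z : Ω) ∈ (t : Set Ω)}) ^ n) (∏ i, ((φ i : t) : Ω)) := by
  refine ⟨∏ i, ⟨_, h i⟩, ?_, ?_⟩
  · have h5 : (∏ i : Fin n, (⟨_, h i⟩ : S)) ∈
        ∏ _i : Fin n, Ideal.span {z : S | (z : Ω) ∈ (t : Set Ω)} :=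
      Ideal.prod_mem_prod fun i _ => Ideal.subset_span (φ i).2
    rwa [Finset.prod_const, Finset.card_univ, Fintype.card_fin] at h5
  · push_cast
    rfl

/-- The new frame (first part): the ring `R ≤ E` with `N.R = locv R[θ]` and `N.R = R + X^2 N.R`. -/
theorem exists_desc_ring (h : Ctx0 ϖ v r) (E : IntermediateField Q Ω) (θ : Ω)
    (hint : IsIntegral E θ) (hθ : v.Ge 0 θ)
    (F : Finset Ω) (hF : ∀ f ∈ F, f ∈ E ∧ v.Ge 0 f)
    (hcF : ∀ i, ((minpoly E θ).coeff i : Ω) ∈ Algebra.adjoin Λ (F : Set Ω))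
    (h1 : aeval θ (derivative (minpoly E θ)) ≠ 0)
    (h2 : v (aeval θ (derivative (minpoly E θ))) = 0)
    (c₀ : Ω) (hc₀ : c₀ ∈ F) (hθc : VPos v (θ - c₀))
    (t : Finset Ω)
    (ht : ∀ x ∈ t, x ∈ locv v (Algebra.adjoin Λ (F : Set Ω)) ∧ x ≠ 0 ∧ 0 < v x)
    (htg : ∀ z ∈ locv v (Algebra.adjoin Λ (F : Set Ω)), VPos v z →
      ∃ a : Ω → Ω, (∀ x ∈ t, a x ∈ locv v (Algebra.adjoin Λ (F : Set Ω))) ∧
        z = ∑ x ∈ t, x * a x)
    (N : WN Λ v r) (g : Ω) (hg : g ∈ Algebra.adjoin Λ ((F : Set Ω) ∪ {θ})) (hg0 : g ≠ 0)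
    (hgm : N.MonoPos g) (G : Finset Ω)
    (hG : ∀ x ∈ G, x ∈ Algebra.adjoin Λ ((F : Set Ω) ∪ {θ}) ∧ v.Ge (v g) x)
    (hNR : N.R = locv v (Algebra.adjoin Λ (((F : Set Ω) ∪ {θ}) ∪ (fun x => x / g) '' (G : Set Ω))))
    (hNt : ∀ x ∈ t, N.MonoPos x) :
    ∃ (b : Ω) (W FR : Finset Ω), b ∈ locv v (Algebra.adjoin Λ (F : Set Ω)) ∧ b ≠ 0 ∧
      (∃ U ∈ N.R, U ≠ 0 ∧ v U = 0 ∧ b = g * U) ∧
      (∀ w ∈ W, w ∈ locv v (Algebra.adjoin Λ (F : Set Ω))) ∧
      (FR : Set Ω) = (F : Set Ω) ∪ (fun w => w / b) '' (W : Set Ω) ∧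
      locv v (Algebra.adjoin Λ (FR : Set Ω)) ≤ N.R ∧
      (∀ f ∈ locv v (Algebra.adjoin Λ (FR : Set Ω)), f ∈ E) ∧
      N.R = locv v (Algebra.adjoin Λ
        ((locv v (Algebra.adjoin Λ (FR : Set Ω)) : Set Ω) ∪ {θ})) ∧
      ∀ x ∈ N.R, ∃ ρ ∈ locv v (Algebra.adjoin Λ (FR : Set Ω)), ∃ a ∈ N.R,
        x = ρ + (∏ j, N.x j) ^ 2 * a := by
  classical
  set D : Subalgebra Λ Ω := Algebra.adjoin Λ (F : Set Ω) with hD
  have hDE : ∀ f ∈ D, f ∈ E := by
    intro f hf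
    rw [hD] at hf
    induction hf using Algebra.adjoin_induction with
    | mem x hx => exact (hF x hx).1
    | algebraMap c =>
      rw [IsScalarTower.algebraMap_apply Λ Q Ω]
      exact E.algebraMap_mem _
    | add x y _ _ hx hy => exact E.add_mem hx hy
    | mul x y _ _ hx hy => exact E.mul_mem hx hy
  set X : Ω := ∏ j, N.x j with hX
  have hX0 : X ≠ 0 := N.prod_ne
  have hXv : VPos v X := WN.prod_vpos h.rpos N
  have hXR : X ∈ N.R := N.R.prod_mem fun j _ => N.x_mem j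
  have hAR : ∀ a ∈ Algebra.adjoin Λ ((F : Set Ω) ∪ {θ}), a ∈ N.R := by
    intro a ha
    rw [hNR]
    exact le_locv _ (Algebra.adjoin_mono Set.subset_union_left ha)
  -- the rings `S0`, `S`
  set S0 : Subalgebra Λ Ω := locv v D with hS0
  set S : Subalgebra Λ Ω := locv v (Algebra.adjoin Λ ((F : Set Ω) ∪ {θ})) with hS
  have hSN : S ≤ N.R := locv_le (fun a ha => hAR a ha) fun f hf h0 h1 => N.loc hf h0 h1
  have hS0S : S0 ≤ S := locv_mono (Algebra.adjoin_mono Set.subset_union_left)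
  have hDS0 : D ≤ S0 := le_locv _
  have hFD : ∀ f ∈ F, f ∈ D := fun f hf => Algebra.subset_adjoin hf
  have hS0E : ∀ f ∈ S0, f ∈ E := by
    rintro f ⟨a, ha, b, hb, -, -, rfl⟩
    exact E.div_mem (hDE a ha) (hDE b hb)
  have hθS : θ ∈ S := le_locv _ (Algebra.subset_adjoin (Or.inr rfl))
  have hSloc : ∀ f ∈ S, f ≠ 0 → v f = 0 → f⁻¹ ∈ S := fun f hf h0 h1 => locv_inv hf h0 h1
  have hS0loc : ∀ f ∈ S0, f ≠ 0 → v f = 0 → f⁻¹ ∈ S0 := fun f hf h0 h1 => locv_inv hf h0 h1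
  have hSnn : ∀ f ∈ S, v.Ge 0 f := fun f hf => N.nonneg f (hSN hf)
  have hSS0 : S = locv v (Algebra.adjoin Λ ((S0 : Set Ω) ∪ {θ})) := by
    apply le_antisymm
    · rw [hS]
      refine locv_mono ?_
      rw [Algebra.adjoin_le_iff]
      rintro f (hf | hf)
      · exact Algebra.subset_adjoin (Or.inl (hDS0 (hFD f hf)))
      · exact Algebra.subset_adjoin (Or.inr hf)
    · refine locv_le ?_ hSloc
      rw [Algebra.adjoin_le_iff]
      rintro f (hf | hf)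
      · exact hS0S hf
      · rw [Set.mem_singleton_iff.1 hf]
        exact hθS
  set I : Ideal S := Ideal.span {z : S | (z : Ω) ∈ (t : Set Ω)} with hI
  have htX : ∀ x ∈ t, ∃ a ∈ N.R, x = X * a := fun x hx => (hNt x hx).dvd (ht x hx).2.2
  -- the polynomial
  have hθI : II I (θ - c₀) := by
    refine theta_sub_mem h hS0S hSnn hSloc (P := (minpoly E θ).map (algebraMap E Ω))
      (fun i => ?_) hθS (hDS0 (hFD _ hc₀)) ?_ ?_ ?_ hθc (fun x hx => (ht x hx).1) htg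
    · rw [coeff_map]
      exact hDS0 (hcF i)
    · rw [eval_map_algebraMap, minpoly.aeval]
    · rw [derivative_map, eval_map_algebraMap]
      exact h1
    · rw [derivative_map, eval_map_algebraMap]
      exact h2
  -- the exponent
  have hgv : 0 ≤ v g := N.nonneg g (hAR g hg) hg0
  obtain ⟨e, a₀, ha₀, hXe⟩ := hgm.dvd_pow hgv
  set n : ℕ := e + 2 with hn
  have hIn : ∀ x, II (I ^ n) x → ∃ a ∈ N.R, x = g * (X ^ 2 * a) := by
    intro x hx
    obtain ⟨a, ha, h3⟩ := II_dvd_pow hSN htX n x hx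
    refine ⟨a₀ * a, N.R.mul_mem ha₀ ha, ?_⟩
    rw [h3, hn, pow_add, hXe]
    ring
  have happ : ∀ x ∈ S, ∃ y ∈ S0, II (I ^ n) (x - y) :=
    approx_pow hS0S hSnn hS0loc hSS0 (hDS0 (hFD _ hc₀))
      (fun x hx => ⟨(ht x hx).1, fun _ => (ht x hx).2.2⟩) hθI n
  have hAS : ∀ a ∈ Algebra.adjoin Λ ((F : Set Ω) ∪ {θ}), a ∈ S := fun a ha => le_locv _ ha
  obtain ⟨b, hb, hgb⟩ := happ g (hAS g hg)
  obtain ⟨a₁, ha₁, hgb'⟩ := hIn _ hgb
  -- `b` is `g` times a unit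
  set U : Ω := 1 - X ^ 2 * a₁ with hU
  have hX2 : ∀ a ∈ N.R, VPos v (X ^ 2 * a) := by
    intro a ha
    rw [pow_two, mul_assoc]
    exact hXv.mul (N.nonneg _ (N.R.mul_mem hXR ha))
  have hUv : U ≠ 0 ∧ v U = 0 := by
    rw [hU, sub_eq_add_neg]
    exact val_add_vpos one_ne_zero v.map_one (hX2 a₁ ha₁).neg
  have hUR : U ∈ N.R := N.R.sub_mem N.R.one_mem (N.R.mul_mem (N.R.pow_mem hXR 2) ha₁)
  have hUR' : U⁻¹ ∈ N.R := N.loc hUR hUv.1 hUv.2
  have hbU : b = g * U := by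
    have h3 : b = g - g * (X ^ 2 * a₁) := by
      rw [← hgb']
      ring
    rw [h3, hU]
    ring
  have hb0 : b ≠ 0 := by
    rw [hbU]
    exact mul_ne_zero hg0 hUv.1
  have hbex : ∀ w, w ∈ G → ∃ y ∈ S0, II (I ^ n) (w - y) := fun w hw => happ w (hAS w (hG w hw).1)
  choose! bb hbb hbb' using hbex
  -- the ring `R`
  set P3 : Finset Ω := (Finset.univ : Finset (Fin n → t)).image fun φ =>
    ∏ i, ((φ i : t) : Ω) with hP3
  set W : Finset Ω := G.image bb ∪ P3 with hW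
  set FR : Finset Ω := F ∪ W.image fun w => w / b with hFR
  have hFRset : (FR : Set Ω) = (F : Set Ω) ∪ (fun w => w / b) '' (W : Set Ω) := by
    rw [hFR]
    push_cast
    rfl
  have hWS0 : ∀ w ∈ W, w ∈ S0 := by
    intro w hw
    rcases Finset.mem_union.1 hw with hw | hw
    · obtain ⟨x, hx, rfl⟩ := Finset.mem_image.1 hw
      exact hbb x hx
    · obtain ⟨φ, -, rfl⟩ := Finset.mem_image.1 hw
      exact S0.prod_mem fun i _ => (ht _ (φ i).2).1
  set R : Subalgebra Λ Ω := locv v (Algebra.adjoin Λ (FR : Set Ω)) with hR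
  have hDR : D ≤ R := by
    refine (Algebra.adjoin_mono ?_).trans (le_locv _)
    intro f hf
    exact Finset.mem_coe.2 (Finset.mem_union_left _ hf)
  have hS0R : S0 ≤ R := locv_le hDR fun f hf h0 h1 => locv_inv hf h0 h1
  have hRloc : ∀ f ∈ R, f ≠ 0 → v f = 0 → f⁻¹ ∈ R := fun f hf h0 h1 => locv_inv hf h0 h1
  have hWR : ∀ w ∈ W, w / b ∈ R := fun w hw => le_locv _ (Algebra.subset_adjoin
    (Finset.mem_coe.2 (Finset.mem_union_right _ (Finset.mem_image_of_mem _ hw))))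
  have hbbR : ∀ w ∈ G, bb w / b ∈ R := fun w hw =>
    hWR _ (Finset.mem_union_left _ (Finset.mem_image_of_mem _ hw))
  have hP3R : ∀ φ : Fin n → t, (∏ i, ((φ i : t) : Ω)) / b ∈ R := fun φ =>
    hWR _ (Finset.mem_union_right _ (Finset.mem_image_of_mem _ (Finset.mem_univ φ)))
  have hdivb : ∀ x, II (I ^ n) x → ∃ a ∈ N.R, x / b = X ^ 2 * a := by
    intro x hx
    obtain ⟨a, ha, h3⟩ := hIn x hx
    refine ⟨a * U⁻¹, N.R.mul_mem ha hUR', ?_⟩
    rw [h3, hbU]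
    have := hUv.1
    field_simp
  have hRN : R ≤ N.R := by
    refine locv_le ?_ fun f hf h0 h1 => N.loc hf h0 h1
    rw [Algebra.adjoin_le_iff]
    intro f hf
    rcases Finset.mem_union.1 hf with hf | hf
    · exact hAR f (Algebra.subset_adjoin (Or.inl hf))
    · obtain ⟨y, hy, rfl⟩ := Finset.mem_image.1 hf
      rcases Finset.mem_union.1 hy with hy | hy
      · obtain ⟨w, hw, rfl⟩ := Finset.mem_image.1 hy
        have h3 : w / g ∈ N.R := by
          rw [hNR]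
          exact le_locv _ (Algebra.subset_adjoin (Or.inr ⟨w, hw, rfl⟩))
        obtain ⟨a, ha, h4⟩ := hdivb _ (hbb' w hw)
        have h5 : bb w / b = w / g * U⁻¹ - X ^ 2 * a := by
          rw [← h4, hbU]
          have := hUv.1
          field_simp
          ring
        change bb w / b ∈ N.R
        rw [h5]
        exact N.R.sub_mem (N.R.mul_mem h3 hUR') (N.R.mul_mem (N.R.pow_mem hXR 2) ha)
      · obtain ⟨φ, -, rfl⟩ := Finset.mem_image.1 hy
        obtain ⟨a, ha, h4⟩ := hdivb _ (II_prod n φ fun i => hS0S (ht _ (φ i).2).1)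
        change (∏ i, ((φ i : t) : Ω)) / b ∈ N.R
        rw [h4]
        exact N.R.mul_mem (N.R.pow_mem hXR 2) ha
  -- `N.R` is the localisation of `R[θ]`
  set R1 : Subalgebra Λ Ω := locv v (Algebra.adjoin Λ ((R : Set Ω) ∪ {θ})) with hR1
  have hRR1 : R ≤ R1 := fun f hf => le_locv _ (Algebra.subset_adjoin (Or.inl hf))
  have hθR1 : θ ∈ R1 := le_locv _ (Algebra.subset_adjoin (Or.inr rfl))
  have hSR1 : S ≤ R1 := by
    refine locv_le ?_ fun f hf h0 h1 => locv_inv hf h0 h1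
    rw [Algebra.adjoin_le_iff]
    rintro f (hf | hf)
    · exact hRR1 (hDR (Algebra.subset_adjoin hf))
    · rw [Set.mem_singleton_iff.1 hf]
      exact hθR1
  have hdivR1 : ∀ x, II (I ^ n) x → x / b ∈ R1 := fun x hx =>
    II_div hSR1 b n (fun φ => hRR1 (hP3R φ)) x hx
  have hgbR1 : g / b ∈ R1 := by
    have h3 : g / b = 1 + (g - b) / b := by
      field_simp
      ring
    rw [h3]
    exact R1.add_mem R1.one_mem (hdivR1 _ hgb)
  have hgbv : g / b ≠ 0 ∧ v (g / b) = 0 := by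
    refine ⟨div_ne_zero hg0 hb0, ?_⟩
    rw [v.map_div hg0 hb0, hbU, v.map_mul hg0 hUv.1, hUv.2]
    ring
  have hNR1 : N.R ≤ R1 := by
    rw [hNR]
    refine locv_le ?_ fun f hf h0 h1 => locv_inv hf h0 h1
    rw [Algebra.adjoin_le_iff]
    rintro f (hf | ⟨w, hw, rfl⟩)
    · exact hSR1 (hAS f (Algebra.subset_adjoin hf))
    · have h3 : w / g = (bb w / b + (w - bb w) / b) * (g / b)⁻¹ := by
        field_simp
        ring
      change w / g ∈ R1
      rw [h3]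
      exact R1.mul_mem (R1.add_mem (hRR1 (hbbR w hw)) (hdivR1 _ (hbb' w hw)))
        (locv_inv hgbR1 hgbv.1 hgbv.2)
  have hθN : θ ∈ N.R := hAR θ (Algebra.subset_adjoin (Or.inr rfl))
  have hR1N : R1 ≤ N.R := by
    refine locv_le ?_ fun f hf h0 h1 => N.loc hf h0 h1
    rw [Algebra.adjoin_le_iff]
    rintro f (hf | hf)
    · exact hRN hf
    · rw [Set.mem_singleton_iff.1 hf]
      exact hθN
  -- everything in `N.R` is in `R + X ^ 2 N.R`
  have hdec0 : ∀ x ∈ Algebra.adjoin Λ ((R : Set Ω) ∪ {θ}), ∃ ρ ∈ R, ∃ a ∈ N.R,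
      x = ρ + X ^ 2 * a := by
    intro x hx
    induction hx using Algebra.adjoin_induction with
    | mem x hx =>
      rcases hx with hx | hx
      · exact ⟨x, hx, 0, N.R.zero_mem, by ring⟩
      · rw [Set.mem_singleton_iff.1 hx]
        obtain ⟨y, hy, hy'⟩ := happ θ hθS
        obtain ⟨a, ha, h3⟩ := hIn _ hy'
        refine ⟨y, hS0R hy, g * a, N.R.mul_mem (hAR g hg) ha, ?_⟩
        have h4 : θ = y + (θ - y) := by ring
        rw [h4, h3]
        ring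
    | algebraMap c => exact ⟨_, R.algebraMap_mem c, 0, N.R.zero_mem, by ring⟩
    | add x y _ _ hx hy =>
      obtain ⟨ρ, hρ, a, ha, rfl⟩ := hx
      obtain ⟨ρ', hρ', a', ha', rfl⟩ := hy
      exact ⟨ρ + ρ', R.add_mem hρ hρ', a + a', N.R.add_mem ha ha', by ring⟩
    | mul x y _ _ hx hy =>
      obtain ⟨ρ, hρ, a, ha, rfl⟩ := hx
      obtain ⟨ρ', hρ', a', ha', rfl⟩ := hy
      exact ⟨ρ * ρ', R.mul_mem hρ hρ', ρ * a' + a * ρ' + X ^ 2 * (a * a'),
        N.R.add_mem (N.R.add_mem (N.R.mul_mem (hRN hρ) ha') (N.R.mul_mem ha (hRN hρ')))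
          (N.R.mul_mem (N.R.pow_mem hXR 2) (N.R.mul_mem ha ha')), by ring⟩
  have hdec : ∀ x ∈ N.R, ∃ ρ ∈ R, ∃ a ∈ N.R, x = ρ + X ^ 2 * a := by
    intro x hx
    obtain ⟨y, hy, z, hz, hz0, hvz, rfl⟩ := hNR1 hx
    have hadN : ∀ w ∈ Algebra.adjoin Λ ((R : Set Ω) ∪ {θ}), w ∈ N.R := fun w hw =>
      hR1N (le_locv _ hw)
    have hzN := hadN z hz
    obtain ⟨ρ, hρ, a, ha, hya⟩ := hdec0 y hy
    obtain ⟨σ, hσ, c, hc', hzc⟩ := hdec0 z hz
    have hσv : σ ≠ 0 ∧ v σ = 0 := by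
      have h3 : σ = z + -(X ^ 2 * c) := by
        rw [hzc]
        ring
      rw [h3]
      exact val_add_vpos hz0 hvz (hX2 c hc').neg
    refine ⟨ρ / σ, by rw [div_eq_mul_inv]; exact R.mul_mem hρ (hRloc σ hσ hσv.1 hσv.2),
      (a * σ - ρ * c) * (z⁻¹ * σ⁻¹), N.R.mul_mem (N.R.sub_mem (N.R.mul_mem ha (hRN hσ))
        (N.R.mul_mem (hRN hρ) hc')) (N.R.mul_mem (N.loc hzN hz0 hvz)
          (hRN (hRloc σ hσ hσv.1 hσv.2))), ?_⟩
    have h4 : σ ≠ 0 := hσv.1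
    have h5 : y / z - ρ / σ = (y * σ - ρ * z) * (z⁻¹ * σ⁻¹) := by
      field_simp
    have h6 : y * σ - ρ * z = X ^ 2 * (a * σ - ρ * c) := by
      rw [hya, hzc]
      ring
    rw [h6] at h5
    rw [← mul_assoc, ← h5]
    ring
  have hRE : ∀ f ∈ R, f ∈ E := by
    rintro f ⟨a, ha, c, hc', -, -, rfl⟩
    have h3 : ∀ f ∈ Algebra.adjoin Λ (FR : Set Ω), f ∈ E := by
      intro f hf
      induction hf using Algebra.adjoin_induction with
      | mem x hx =>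
        rcases Finset.mem_union.1 hx with hx | hx
        · exact (hF x hx).1
        · obtain ⟨w, hw, rfl⟩ := Finset.mem_image.1 hx
          exact E.div_mem (hS0E _ (hWS0 w hw)) (hS0E b hb)
      | algebraMap c =>
        rw [IsScalarTower.algebraMap_apply Λ Q Ω]
        exact E.algebraMap_mem _
      | add x y _ _ hx hy => exact E.add_mem hx hy
      | mul x y _ _ hx hy => exact E.mul_mem hx hy
    exact E.div_mem (h3 a ha) (h3 c hc')
  exact ⟨b, W, FR, hb, hb0, ⟨U, hUR, hUv.1, hUv.2, hbU⟩, hWS0, hFRset, hRN, hRE,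
    le_antisymm hNR1 hR1N, hdec⟩

end Pool.Agent.LUM
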