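import Pool.Agent.Lib.LUM.E02

/-! # E03: etale descent, the frame of `R`

`R ≤ E`, `N.R = locv R[θ]`, `N.R = R + X^2 N.R`.  New parameters `ρ (x_j) = x_j U_j`, `ρ y = y - X^2 a`.
Recipe: second half of `Good.etale_desc` in `LU1_h15/EtDesc.lean` (from `choose! ρ` on).  Differences:
`ρ y ≠ 0` and `Kap` from the valuation `κ` of `N.Kap`: `κ y = 0`, `κ (X^2 a) > 0` (`κ X > 0`, `κ a ≥ 0`), so
`ρ y ≠ 0`, `κ (ρ y) = 0`; `κ U_j = 0` because `U_j, U_j⁻¹ ∈ N.R`, so `κ (ρ x_j) = κ x_j`.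
`gen` by `LinD.ideal` and `linD_step`.
`MonoPos` of `f ∈ E`: `f = ∏ x_j^{n_j} u = ∏ (ρ x_j)^{n_j} u'`, `u'` a unit of `N.R` in `E`, so
`u', u'⁻¹ ∈ N.R ∩ E = R` (`LinD.mem`). -/

set_option autoImplicit false
set_option linter.unusedSectionVars false
set_option linter.unusedVariables false

open Polynomial

namespace Pool.Agent.LUM

open Pool.Agent.H15JM (RVal)
open Pool.Agent.LU1 (VPos LatData val_add_vpos adj)

universe u

variable {Λ Q Ω : Type u} [CommRing Λ] [IsDomain Λ] [IsDiscreteValuationRing Λ] [Field Q]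
  [Algebra Λ Q] [IsFractionRing Λ Q] [Field Ω] [Algebra Λ Ω] [Algebra Q Ω] [IsScalarTower Λ Q Ω]
  {ϖ : Λ} {v : RVal Ω} {r : ℕ}

private theorem zpow_mem_of {A : Subalgebra Λ Ω} {u : Ω} (h : u ∈ A) (h' : u⁻¹ ∈ A) (n : ℤ) :
    u ^ n ∈ A := by
  cases n with
  | ofNat n => simpa using A.pow_mem h n
  | negSucc n =>
    rw [zpow_negSucc, ← inv_pow]
    exact A.pow_mem h' _

theorem exists_desc_frame (h : Ctx0 ϖ v r) (E : IntermediateField Q Ω) (θ : Ω)
    (hint : IsIntegral E θ) (hθ : v.Ge 0 θ) (N : WN Λ v r) (hK : N.Kap) (FR : Finset Ω)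
    (R : Subalgebra Λ Ω) (hRF : R = locv v (Algebra.adjoin Λ (FR : Set Ω)))
    (hRE : ∀ f ∈ R, f ∈ E) (hc : ∀ i, ((minpoly E θ).coeff i : Ω) ∈ R) (hRN : R ≤ N.R)
    (hNR : N.R = locv v (Algebra.adjoin Λ ((R : Set Ω) ∪ {θ})))
    (hdec : ∀ x ∈ N.R, ∃ ρ ∈ R, ∃ a ∈ N.R, x = ρ + (∏ j, N.x j) ^ 2 * a) :
    ∃ N' : WN Λ v r, N'.R = R ∧ N'.Kap ∧ ∀ f ∈ E, N.MonoPos f → N'.MonoPos f := by
  classical
  obtain ⟨κ, hκR, hκy, hκe⟩ := hK
  have hκx : ∀ i, 0 < κ (N.x i) := fun i => by rw [hκe]; exact N.x_pos i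
  set X : Ω := ∏ j, N.x j with hX
  have hX0 : X ≠ 0 := N.prod_ne
  have hXv : VPos v X := WN.prod_vpos h.rpos N
  have hXR : X ∈ N.R := N.R.prod_mem fun j _ => N.x_mem j
  have hX2 : ∀ a ∈ N.R, VPos v (X ^ 2 * a) := by
    intro a ha
    rw [pow_two, mul_assoc]
    exact hXv.mul (N.nonneg _ (N.R.mul_mem hXR ha))
  have hRloc : ∀ f ∈ R, f ≠ 0 → v f = 0 → f⁻¹ ∈ R := fun f hf h0 h1 => by
    rw [hRF] at hf ⊢
    exact locv_inv hf h0 h1
  have hRnn : ∀ f ∈ R, v.Ge 0 f := fun f hf => N.nonneg f (hRN hf)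
  have hlin : LinD v (E : Set Ω) R N.R := by
    rw [hNR]
    exact linD_step E θ hint hθ R hRE hRnn hc
  -- the valuation `κ`
  have hκprod : ∀ s : Finset (Fin r), s.Nonempty → 0 < κ (∏ j ∈ s, N.x j) := by
    intro s hs
    induction hs using Finset.Nonempty.cons_induction with
    | singleton a => rw [Finset.prod_singleton]; exact hκx a
    | cons a s ha hs ih =>
      rw [Finset.prod_cons, κ.map_mul (N.x_ne a) (Finset.prod_ne_zero_iff.2 fun j _ => N.x_ne j)]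
      exact add_pos (hκx a) ih
  have hκX : 0 < κ X := hκprod _ ⟨⟨0, h.rpos⟩, Finset.mem_univ _⟩
  have hκunit : ∀ u ∈ N.R, u⁻¹ ∈ N.R → u ≠ 0 → κ u = 0 := by
    intro u hu hu' h0
    have h1 := hκR u hu h0
    have h2 := hκR _ hu' (inv_ne_zero h0)
    rw [κ.map_inv h0] at h2
    linarith
  -- the new parameters
  choose! ρ hρ aρ haρ hρe using hdec
  have hYex : ∀ i, ∃ a ∈ N.R, X = N.x i * a := N.prod_dvd
  choose Y hY hXY using hYex
  set Ui : Fin r → Ω := fun i => 1 - X * (Y i * aρ (N.x i)) with hUi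
  have hUiR : ∀ i, Ui i ∈ N.R := fun i => N.R.sub_mem N.R.one_mem
    (N.R.mul_mem hXR (N.R.mul_mem (hY i) (haρ _ (N.x_mem i))))
  have hUiv : ∀ i, Ui i ≠ 0 ∧ v (Ui i) = 0 := by
    intro i
    change 1 - X * (Y i * aρ (N.x i)) ≠ 0 ∧ v (1 - X * (Y i * aρ (N.x i))) = 0
    rw [sub_eq_add_neg]
    exact val_add_vpos one_ne_zero v.map_one
      (hXv.mul (N.nonneg _ (N.R.mul_mem (hY i) (haρ _ (N.x_mem i))))).neg
  have hUiR' : ∀ i, (Ui i)⁻¹ ∈ N.R := fun i => N.loc (hUiR i) (hUiv i).1 (hUiv i).2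
  have hρx : ∀ i, ρ (N.x i) = N.x i * Ui i := by
    intro i
    have h3 := hρe _ (N.x_mem i)
    have h4 : ρ (N.x i) = N.x i - X ^ 2 * aρ (N.x i) := eq_sub_of_add_eq h3.symm
    rw [h4]
    change _ = N.x i * (1 - X * (Y i * aρ (N.x i)))
    rw [pow_two]
    nth_rewrite 1 [hXY i]
    ring
  have hρx0 : ∀ i, ρ (N.x i) ≠ 0 := fun i => by
    rw [hρx]
    exact mul_ne_zero (N.x_ne i) (hUiv i).1
  have hρxv : ∀ i, v (ρ (N.x i)) = v (N.x i) := fun i => by
    rw [hρx, v.map_mul (N.x_ne i) (hUiv i).1, (hUiv i).2, add_zero]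
  set i₀ : Fin r := ⟨0, h.rpos⟩ with hi₀
  have hρy : ρ N.y = N.y - X ^ 2 * aρ N.y := eq_sub_of_add_eq (hρe _ N.y_mem).symm
  have hκρy : ρ N.y ≠ 0 ∧ κ (ρ N.y) = 0 := by
    rw [hρy, sub_eq_add_neg]
    refine val_add_vpos N.y_ne hκy (VPos.neg ?_)
    refine VPos.mul (fun _ => ?_) (hκR _ (haρ _ N.y_mem))
    rw [κ.map_pow hX0]
    positivity
  have hρy0 : ρ N.y ≠ 0 := hκρy.1
  have hρyv : 0 < v (ρ N.y) := by
    have h3 : VPos v (ρ N.y) := by
      rw [hρy]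
      exact VPos.sub (fun _ => N.y_pos) (hX2 _ (haρ _ N.y_mem))
    exact h3 hρy0
  -- generation of the maximal ideal
  have hgen : ∀ f ∈ R, VPos v f → ∃ a : Fin r → Ω, (∀ i, a i ∈ R) ∧ ∃ c ∈ R,
      f = ∑ i, ρ (N.x i) * a i + ρ N.y * c := by
    intro f hf hfv
    obtain ⟨a, ha, c, hc', hfe⟩ := N.gen f (hRN hf) hfv
    -- in terms of the new parameters
    set α : Fin r → Ω := fun i => (Ui i)⁻¹ * a i +
      if i = i₀ then (Ui i₀)⁻¹ * (Y i₀ * X * aρ N.y * c) else 0 with hα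
    have hαR : ∀ i, α i ∈ N.R := by
      intro i
      refine N.R.add_mem (N.R.mul_mem (hUiR' i) (ha i)) ?_
      by_cases hi : i = i₀
      · rw [if_pos hi]
        exact N.R.mul_mem (hUiR' i₀)
          (N.R.mul_mem (N.R.mul_mem (N.R.mul_mem (hY i₀) hXR) (haρ _ N.y_mem)) hc')
      · rw [if_neg hi]
        exact N.R.zero_mem
    have h3 : f = ρ N.y * c + ∑ i, ρ (N.x i) * α i := by
      have h4 : ∀ i, ρ (N.x i) * α i = N.x i * a i +
          if i = i₀ then X ^ 2 * aρ N.y * c else 0 := by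
        intro i
        have h5 := (hUiv i).1
        change ρ (N.x i) * ((Ui i)⁻¹ * a i +
          if i = i₀ then (Ui i₀)⁻¹ * (Y i₀ * X * aρ N.y * c) else 0) = _
        rw [hρx]
        by_cases hi : i = i₀
        · subst hi
          rw [if_pos rfl, if_pos rfl, pow_two]
          nth_rewrite 2 [hXY i₀]
          field_simp
        · rw [if_neg hi, if_neg hi]
          field_simp
          ring
      rw [Finset.sum_congr rfl fun i _ => h4 i, Finset.sum_add_distrib,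
        Finset.sum_ite_eq' Finset.univ i₀, if_pos (Finset.mem_univ _), hρy, hfe]
      ring
    obtain ⟨β, hβ, h4⟩ := hlin.ideal hRloc (fun x hx => E.neg_mem hx)
      (Fin.cons (ρ N.y) fun i => ρ (N.x i)) (Fin.cons c α)
      (by
        intro j
        refine Fin.cases ?_ (fun i => ?_) j
        · exact hRE _ (hρ _ N.y_mem)
        · exact hRE _ (hρ _ (N.x_mem i)))
      (by
        intro j
        refine Fin.cases ?_ (fun i => ?_) j
        · exact hc'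
        · exact hαR i)
      (z := f) (hRE f hf) (by
        rw [Fin.sum_univ_succ]
        simp only [Fin.cons_zero, Fin.cons_succ]
        exact h3)
    rw [Fin.sum_univ_succ] at h4
    simp only [Fin.cons_zero, Fin.cons_succ] at h4
    exact ⟨fun i => β i.succ, fun i => hβ _, β 0, hβ 0, by rw [h4]; ring⟩
  let N' : WN Λ v r :=
    { x := fun i => ρ (N.x i)
      x_ne := hρx0
      x_pos := fun i => by rw [hρxv]; exact N.x_pos i
      x_ind := by
        simp only [hρxv]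
        exact N.x_ind
      y := ρ N.y
      y_ne := hρy0
      y_pos := hρyv
      R := R
      nonneg := hRnn
      x_mem := fun i => hρ _ (N.x_mem i)
      y_mem := hρ _ N.y_mem
      fgen := ⟨FR, hRF⟩
      gen := hgen }
  have hκρx : ∀ i, κ (ρ (N.x i)) = κ (N.x i) := fun i => by
    rw [hρx, κ.map_mul (N.x_ne i) (hUiv i).1, hκunit _ (hUiR i) (hUiR' i) (hUiv i).1, add_zero]
  refine ⟨N', rfl, ⟨κ, fun f hf => hκR f (hRN hf), hκρy.2, fun i => ?_⟩, ?_⟩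
  · change κ (ρ (N.x i)) = v (ρ (N.x i))
    rw [hκρx, hκe, hρxv]
  · rintro f hfE ⟨n, u, hu0, hu, hu', hfe, h1, h2, h3⟩
    set V : Ω := ∏ i, Ui i ^ n i with hV
    have hV0 : V ≠ 0 := Finset.prod_ne_zero_iff.2 fun i _ => zpow_ne_zero _ (hUiv i).1
    have hVR : V ∈ N.R := N.R.prod_mem fun i _ => zpow_mem_of (hUiR i) (hUiR' i) _
    have hVR' : V⁻¹ ∈ N.R := by
      rw [hV, ← Finset.prod_inv_distrib]
      refine N.R.prod_mem fun i _ => ?_
      rw [← zpow_neg]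
      exact zpow_mem_of (hUiR i) (hUiR' i) _
    have hP : (∏ i, ρ (N.x i) ^ n i) = (∏ i, N.x i ^ n i) * V := by
      rw [hV, ← Finset.prod_mul_distrib]
      refine Finset.prod_congr rfl fun i _ => ?_
      rw [hρx, mul_zpow]
    have hP0 : (∏ i, ρ (N.x i) ^ n i) ≠ 0 :=
      Finset.prod_ne_zero_iff.2 fun i _ => zpow_ne_zero _ (hρx0 i)
    have hPE : (∏ i, ρ (N.x i) ^ n i) ∈ E :=
      E.prod_mem fun i _ => zpow_mem (hRE _ (hρ _ (N.x_mem i))) _
    have hf2 : f = (∏ i, ρ (N.x i) ^ n i) * (u * V⁻¹) := by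
      rw [hP, hfe]
      field_simp
    have hu2 : u * V⁻¹ = f / ∏ i, ρ (N.x i) ^ n i := by
      rw [eq_div_iff hP0, mul_comm, ← hf2]
    have hu2E : u * V⁻¹ ∈ E := by
      rw [hu2]
      exact E.div_mem hfE hPE
    have hm1 : (-1 : Ω) ∈ (E : Set Ω) := E.neg_mem E.one_mem
    refine ⟨n, u * V⁻¹, mul_ne_zero hu0 (inv_ne_zero hV0), ?_, ?_, hf2, h1, h2, h3⟩
    · exact hlin.mem hRN hRloc hm1 hu2E (N.R.mul_mem hu hVR')
    · refine hlin.mem hRN hRloc hm1 (E.inv_mem hu2E) ?_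
      rw [mul_inv, inv_inv]
      exact N.R.mul_mem hu' hVR

end Pool.Agent.LUM
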