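import Pool.Agent.Lib.LUM.WDefs
import Pool.Agent.Lib.LUM.Etale

/-! # F01: the valuation ring of a finite extension of `Q`

Recipe: `B` = integral closure of `Λ` in `M` is a finite `Λ`-module (`IsIntegralClosure.finite`,
characteristic zero: separable, `Λ` integrally closed noetherian) and a Dedekind domain with field of
fractions `M` (`IsIntegralClosure.isDedekindDomain`, `IsIntegralClosure.isFractionRing_of_finite_extension`).
`H` = the images in `Ω` of finitely many generators of the `Λ`-algebra `B`.  `P` = the prime ideal of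
the elements of `B` of positive value; `B_P` is a valuation ring of `M`
(`IsDedekindDomain.is_dedekind_domain_dvr`).  Let `x ∈ M`, `v x ≥ 0`: `x` or `x⁻¹` is in `B_P`; if `x ∉ B_P`
then `x⁻¹` is in the maximal ideal of `B_P`, which has positive value: contradiction.  So `x = a / b`,
`a, b ∈ B`, `b ∉ P`, i.e. `v b = 0`.
`discrete_of_finite`: `O_v ∩ M` is a discrete valuation ring: it is `B_P`, with `P ≠ ⊥`
since `ϖ ∈ P`; `ϖ₁ ∈ B` with image in `Ω` a generator of the maximal ideal. -/

set_option autoImplicit false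
set_option linter.unusedSectionVars false
set_option linter.unusedVariables false

open Polynomial

namespace Pool.Agent.LUM

open Pool.Agent.H15JM (RVal)
open Pool.Agent.LU1 (VPos LatData val_add_vpos adj)

universe u

variable {Λ Q Ω : Type u} [CommRing Λ] [IsDomain Λ] [IsDiscreteValuationRing Λ] [Field Q]
  [Algebra Λ Q] [IsFractionRing Λ Q] [Field Ω] [Algebra Λ Ω] [Algebra Q Ω] [IsScalarTower Λ Q Ω]
  {ϖ : Λ} {v : RVal Ω} {r : ℕ}

private theorem F01_aux (h : Ctx0 ϖ v r) [CharZero Q] (M : IntermediateField Q Ω)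
    [FiniteDimensional Q M] : ∃ H : Finset Ω, (∀ x ∈ H, x ∈ M ∧ v.Ge 0 x) ∧
      (∀ x ∈ M, v.Ge 0 x → x ∈ locv v (Algebra.adjoin Λ (H : Set Ω))) ∧
      ∃ ϖ₁ ∈ M, ϖ₁ ≠ 0 ∧ 0 < v ϖ₁ ∧
        ∀ x ∈ M, VPos v x → ∃ y ∈ M, v.Ge 0 y ∧ x = ϖ₁ * y := by
  classical
  have hfin : Module.Finite Λ (integralClosure Λ M) :=
    IsIntegralClosure.finite Λ Q M (integralClosure Λ M)
  have hded : IsDedekindDomain (integralClosure Λ M) :=
    integralClosure.isDedekindDomain Λ Q M
  have hfrac : IsFractionRing (integralClosure Λ M) M :=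
    integralClosure.isFractionRing_of_finite_extension Q M
  set B := integralClosure Λ M with hB
  -- the values
  have hge : ∀ b : B, v.Ge 0 ((b : M) : Ω) := by
    intro b
    have hb : IsIntegral Λ (b : M) := b.2
    have hb' : IsIntegral Λ ((b : M) : Ω) :=
      hb.map (M.val.restrictScalars Λ : M →ₐ[Λ] Ω)
    obtain ⟨p, hp, hp0⟩ := hb'
    refine Pool.Agent.LU1.ge_of_root (hp.map (algebraMap Λ Ω)) (fun i => ?_) ?_
    · rw [Polynomial.coeff_map]
      exact h.ge _
    · rw [Polynomial.eval_map]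
      exact hp0
  let P : Ideal B :=
    { carrier := {b | VPos v ((b : M) : Ω)}
      add_mem' := by
        intro a b ha hb hab
        rcases eq_or_ne ((a : M) : Ω) 0 with h1 | h1
        · have h2 : (((a + b : B) : M) : Ω) = ((b : M) : Ω) := by
            push_cast
            rw [h1, zero_add]
          rw [h2] at hab ⊢
          exact hb hab
        · rcases eq_or_ne ((b : M) : Ω) 0 with h3 | h3
          · have h2 : (((a + b : B) : M) : Ω) = ((a : M) : Ω) := by
              push_cast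
              rw [h3, add_zero]
            rw [h2] at hab ⊢
            exact ha hab
          · have h2 : (((a + b : B) : M) : Ω) = ((a : M) : Ω) + ((b : M) : Ω) := by
              push_cast
              rfl
            rw [h2] at hab ⊢
            exact lt_of_lt_of_le (lt_min (ha h1) (hb h3)) (v.map_add h1 h3 hab)
      zero_mem' := fun h0 => absurd rfl h0
      smul_mem' := by
        intro c x hx hcx
        have h2 : (((c • x : B) : M) : Ω) = ((c : M) : Ω) * ((x : M) : Ω) := by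
          rw [smul_eq_mul]
          push_cast
          rfl
        rw [h2] at hcx ⊢
        have h3 := left_ne_zero_of_mul hcx
        have h4 := right_ne_zero_of_mul hcx
        rw [v.map_mul h3 h4]
        exact add_pos_of_nonneg_of_pos (hge c h3) (hx h4) }
  have hPmem : ∀ b : B, b ∈ P ↔ VPos v ((b : M) : Ω) := fun b => Iff.rfl
  have hnotP : ∀ b : B, b ∉ P ↔ ((b : M) : Ω) ≠ 0 ∧ v ((b : M) : Ω) = 0 := by
    intro b
    rw [hPmem]
    constructor
    · intro hb
      unfold VPos at hb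
      push Not at hb
      exact ⟨hb.1, le_antisymm hb.2 (hge b hb.1)⟩
    · rintro ⟨h1, h2⟩ h3
      exact absurd (h3 h1) (by rw [h2]; exact lt_irrefl _)
  have hPprime : P.IsPrime := by
    refine Ideal.isPrime_iff.mpr ⟨?_, fun {x y} hxy => ?_⟩
    · rw [Ideal.ne_top_iff_one, hnotP]
      exact ⟨by simp, by simpa using v.map_one⟩
    · by_contra hcon
      push Not at hcon
      obtain ⟨h1, h2⟩ := (hnotP x).mp hcon.1
      obtain ⟨h3, h4⟩ := (hnotP y).mp hcon.2
      refine absurd hxy ((hnotP _).mpr ?_)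
      have h5 : (((x * y : B) : M) : Ω) = ((x : M) : Ω) * ((y : M) : Ω) := by
        push_cast
        rfl
      rw [h5]
      exact ⟨mul_ne_zero h1 h3, by rw [v.map_mul h1 h3, h2, h4, add_zero]⟩
  have hϖ0 : algebraMap Λ Ω ϖ ≠ 0 := by
    intro h0
    exact h.irr.ne_zero (h.inj (by rw [h0, map_zero]))
  have hPne : P ≠ ⊥ := by
    intro hbot
    have h1 : algebraMap Λ B ϖ ∈ P := by
      rw [hPmem]
      intro _
      exact h.pos
    rw [hbot, Ideal.mem_bot] at h1
    apply hϖ0
    have h2 := congrArg (fun b : B => ((b : M) : Ω)) h1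
    exact h2
  -- the localisation
  have hSle : P.primeCompl ≤ nonZeroDivisors B := by
    intro s hs
    apply mem_nonZeroDivisors_of_ne_zero
    rintro rfl
    exact hs P.zero_mem
  let R := Localization.subalgebra.ofField M P.primeCompl hSle
  have hRloc : IsLocalization.AtPrime R P :=
    Localization.subalgebra.isLocalization_ofField M P.primeCompl hSle
  have hRdvr : IsDiscreteValuationRing R :=
    IsLocalization.AtPrime.isDiscreteValuationRing_of_dedekind_domain B hPne R
  have hRfrac : IsFractionRing R M :=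
    Localization.subalgebra.isFractionRing_ofField M P.primeCompl hSle
  have hRmem : ∀ x : M, x ∈ R ↔ ∃ (a s : B) (_ : s ∈ P.primeCompl),
      x = algebraMap B M a * (algebraMap B M s)⁻¹ := fun x => Iff.rfl
  have hRge : ∀ x ∈ R, v.Ge 0 ((x : M) : Ω) := by
    intro x hx
    obtain ⟨a, s, hs, rfl⟩ := (hRmem x).mp hx
    obtain ⟨h1, h2⟩ := (hnotP s).mp hs
    intro h0
    have h3 : ((algebraMap B M a * (algebraMap B M s)⁻¹ : M) : Ω) =
        ((a : M) : Ω) / ((s : M) : Ω) := by
      rw [div_eq_mul_inv]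
      push_cast
      rfl
    rw [h3] at h0 ⊢
    have h4 : ((a : M) : Ω) ≠ 0 := by
      intro h4
      exact h0 (by rw [h4, zero_div])
    rw [v.map_div h4 h1, h2, sub_zero]
    exact hge a h4
  have hmemR : ∀ x : M, v.Ge 0 (x : Ω) → x ∈ R := by
    intro x hx
    rcases eq_or_ne x 0 with rfl | hx0
    · exact R.zero_mem
    have hx0' : (x : Ω) ≠ 0 := by simpa using hx0
    have hval : ValuationRing R := inferInstance
    rcases ValuationRing.isInteger_or_isInteger R x with ⟨c, hc⟩ | ⟨c, hc⟩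
    · rw [← hc]
      exact c.2
    · have h1 : x⁻¹ ∈ R := by
        rw [← hc]
        exact c.2
      obtain ⟨a, s, hs, has⟩ := (hRmem x⁻¹).mp h1
      have h2 := hRge _ h1
      have h3 : v (x : Ω) = 0 := by
        have h4 : ((x⁻¹ : M) : Ω) ≠ 0 := by simpa using hx0
        have h5 := h2 h4
        have h6 : ((x⁻¹ : M) : Ω) = (x : Ω)⁻¹ := by push_cast; rfl
        rw [h6, v.map_inv hx0'] at h5
        have h7 := hx hx0'
        linarith
      obtain ⟨hs1, hs2⟩ := (hnotP s).mp hs
      have hs1' : algebraMap B M s ≠ 0 := by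
        intro h0
        apply hs1
        have : (s : M) = 0 := h0
        rw [this]
        rfl
      have h4 : algebraMap B M a = x⁻¹ * algebraMap B M s := by
        rw [has, mul_assoc, inv_mul_cancel₀ hs1', mul_one]
      have h5 : ((a : M) : Ω) = (x : Ω)⁻¹ * ((s : M) : Ω) := by
        have h6 : (a : M) = x⁻¹ * (s : M) := h4
        rw [h6]
        push_cast
        rfl
      have ha : a ∉ P := by
        rw [hnotP, h5]
        refine ⟨mul_ne_zero (inv_ne_zero hx0') hs1, ?_⟩
        rw [v.map_mul (inv_ne_zero hx0') hs1, v.map_inv hx0', h3, hs2]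
        norm_num
      rw [hRmem]
      refine ⟨s, a, ha, ?_⟩
      rw [h4, mul_inv, inv_inv, mul_comm, mul_assoc, inv_mul_cancel₀ hs1', mul_one]
  -- generators
  have hft : Algebra.FiniteType Λ B := inferInstance
  obtain ⟨G, hG⟩ := hft.out
  let φ : B →ₐ[Λ] Ω := (M.val.restrictScalars Λ).comp B.val
  have hφ : ∀ b : B, φ b = ((b : M) : Ω) := fun b => rfl
  have hφmem : ∀ b : B, φ b ∈ Algebra.adjoin Λ ((G.image φ : Finset Ω) : Set Ω) := by
    intro b
    rw [Finset.coe_image, ← AlgHom.map_adjoin, hG]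
    exact ⟨b, Algebra.mem_top, rfl⟩
  obtain ⟨π, hπ⟩ := IsDiscreteValuationRing.exists_irreducible R
  have hπ0 : ((π : M) : Ω) ≠ 0 := by
    intro h0
    apply hπ.ne_zero
    apply Subtype.ext
    apply Subtype.ext
    exact h0
  have hunit : ∀ c : R, ((c : M) : Ω) ≠ 0 → v ((c : M) : Ω) = 0 → IsUnit c := by
    intro c hc0 hc1
    have hc0' : (c : M) ≠ 0 := by
      intro h0
      apply hc0
      rw [h0]
      rfl
    have h1 : (c : M)⁻¹ ∈ R := by
      apply hmemR
      intro _
      have h6 : (((c : M)⁻¹ : M) : Ω) = ((c : M) : Ω)⁻¹ := by push_cast; rfl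
      rw [h6, v.map_inv hc0, hc1]
      norm_num
    refine IsUnit.of_mul_eq_one ⟨(c : M)⁻¹, h1⟩ ?_
    apply Subtype.ext
    exact mul_inv_cancel₀ hc0'
  refine ⟨G.image φ, ?_, ?_, ((π : M) : Ω), (π : M).2, hπ0, ?_, ?_⟩
  · intro x hx
    obtain ⟨b, -, rfl⟩ := Finset.mem_image.mp hx
    exact ⟨(b : M).2, hge b⟩
  · intro x hx hx0
    obtain ⟨a, s, hs, has⟩ := (hRmem ⟨x, hx⟩).mp (hmemR ⟨x, hx⟩ hx0)
    obtain ⟨h1, h2⟩ := (hnotP s).mp hs
    refine ⟨φ a, hφmem a, φ s, hφmem s, h1, h2, ?_⟩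
    have h3 := congrArg (fun y : M => (y : Ω)) has
    simp only at h3
    rw [h3, div_eq_mul_inv, hφ, hφ]
    push_cast
    rfl
  · rcases lt_or_eq_of_le (hRge _ π.2 hπ0) with h1 | h1
    · exact h1
    · exact absurd (hunit π hπ0 h1.symm) hπ.not_isUnit
  · intro x hx hx0
    rcases eq_or_ne x 0 with rfl | hxne
    · exact ⟨0, M.zero_mem, RVal.Ge.zero, by rw [mul_zero]⟩
    have h1 : (⟨x, hx⟩ : M) ∈ R := hmemR ⟨x, hx⟩ fun h0 => (hx0 h0).le
    have h2 : (⟨⟨x, hx⟩, h1⟩ : R) ∈ IsLocalRing.maximalIdeal R := by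
      rw [IsLocalRing.mem_maximalIdeal, mem_nonunits_iff]
      rintro ⟨u, hu⟩
      have h3 : ((((u : R) * (u⁻¹ : Rˣ) : R) : M) : Ω) = 1 := by
        rw [Units.mul_inv]
        rfl
      have h4 : ((((u : R) * (u⁻¹ : Rˣ) : R) : M) : Ω) =
          x * ((((u⁻¹ : Rˣ) : R) : M) : Ω) := by
        rw [hu]
        push_cast
        rfl
      rw [h4] at h3
      have h5 : ((((u⁻¹ : Rˣ) : R) : M) : Ω) ≠ 0 := by
        intro h0
        rw [h0, mul_zero] at h3
        exact zero_ne_one h3
      have h6 := hRge _ ((u⁻¹ : Rˣ) : R).2 h5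
      have h7 := congrArg v.toFun h3
      have h8 : v (x * ((((u⁻¹ : Rˣ) : R) : M) : Ω)) = v 1 := h7
      rw [v.map_mul hxne h5, v.map_one] at h8
      have h9 := hx0 hxne
      linarith
    rw [hπ.maximalIdeal_eq, Ideal.mem_span_singleton] at h2
    obtain ⟨c, hc⟩ := h2
    refine ⟨((c : M) : Ω), (c : M).2, hRge _ c.2, ?_⟩
    have h3 := congrArg (fun y : R => ((y : M) : Ω)) hc
    exact h3

theorem exists_gens_of_finite (h : Ctx0 ϖ v r) [CharZero Q] (M : IntermediateField Q Ω)
    [FiniteDimensional Q M] : ∃ H : Finset Ω, (∀ x ∈ H, x ∈ M ∧ v.Ge 0 x) ∧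
      ∀ x ∈ M, v.Ge 0 x → x ∈ locv v (Algebra.adjoin Λ (H : Set Ω)) := by
  obtain ⟨H, h1, h2, -⟩ := F01_aux h M
  exact ⟨H, h1, h2⟩

theorem discrete_of_finite (h : Ctx0 ϖ v r) [CharZero Q] (M : IntermediateField Q Ω)
    [FiniteDimensional Q M] : ∃ ϖ₁ ∈ M, ϖ₁ ≠ 0 ∧ 0 < v ϖ₁ ∧
      ∀ x ∈ M, VPos v x → ∃ y ∈ M, v.Ge 0 y ∧ x = ϖ₁ * y := by
  obtain ⟨H, -, -, h3⟩ := F01_aux h M
  exact h3

end Pool.Agent.LUM
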