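import Pool.Agent.Lib.LUM.M03
import Pool.Agent.Lib.LU2G.CompOf

/-!
# LUM: log uniformization in mixed characteristic: the final theorem
-/

set_option autoImplicit false

namespace Pool.Agent.LUM

open Pool.Agent.LU2 (IsR1 IndVal)
open Pool.Agent.LU2G (LogUniformizable compRank CompGroup exists_units)
open Polynomial

/-- Elements with independent values give linearly independent elements of the value group. -/
theorem IndVal.card_le {K : Type} [Field K] {V : ValuationSubring K} {n : ℕ} {Y : Fin n → K}
    (hY : IndVal V Y) : (n : Cardinal) ≤ compRank V ⊤ := by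
  letI : AddCommGroup (CompGroup V ⊤) := inferInstance
  let N : Subgroup (⊤ : ValuationSubring K).unitGroup :=
    V.unitGroup.subgroupOf (⊤ : ValuationSubring K).unitGroup
  let mkA : Additive (⊤ : ValuationSubring K).unitGroup →+ CompGroup V ⊤ :=
    (QuotientGroup.mk' N).toAdditive
  have htop : ∀ u : Kˣ, u ∈ (⊤ : ValuationSubring K).unitGroup := by
    intro u
    rw [ValuationSubring.mem_unitGroup_iff]
    have h1 : (⊤ : ValuationSubring K).valuation (u : K) ≤ 1 :=
      (ValuationSubring.valuation_le_one_iff _ _).2 (ValuationSubring.mem_top _)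
    have h2 : (⊤ : ValuationSubring K).valuation ((u : K)⁻¹) ≤ 1 :=
      (ValuationSubring.valuation_le_one_iff _ _).2 (ValuationSubring.mem_top _)
    have h3 : (⊤ : ValuationSubring K).valuation (u : K) *
        (⊤ : ValuationSubring K).valuation ((u : K)⁻¹) = 1 := by
      rw [← map_mul, mul_inv_cancel₀ u.ne_zero, map_one]
    refine le_antisymm h1 ?_
    rw [← h3]
    exact mul_le_of_le_one_right' h2
  let y : Fin n → (⊤ : ValuationSubring K).unitGroup := fun i =>
    ⟨Units.mk0 (Y i) (hY.1 i), htop _⟩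
  let f : Fin n → CompGroup V ⊤ := fun i => mkA (Additive.ofMul (y i))
  have hf : LinearIndependent ℤ f := by
    rw [linearIndependent_iff]
    intro e he
    refine hY.2 e ?_
    have h1 : Finsupp.linearCombination ℤ f e =
        mkA (∑ i ∈ e.support, e i • Additive.ofMul (y i)) := by
      rw [Finsupp.linearCombination_apply, Finsupp.sum, map_sum]
      refine Finset.sum_congr rfl fun i _ => ?_
      rw [map_zsmul]
    rw [h1] at he
    have h2 : Additive.toMul (∑ i ∈ e.support, e i • Additive.ofMul (y i)) ∈ N :=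
      (QuotientGroup.eq_one_iff _).1 he
    rw [Subgroup.mem_subgroupOf] at h2
    have h3 : V.valuation (((Additive.toMul (∑ i ∈ e.support, e i • Additive.ofMul (y i)) :
      (⊤ : ValuationSubring K).unitGroup) : Kˣ) : K) = 1 := h2
    rw [← h3]
    congr 1
    rw [Finsupp.prod, toMul_sum]
    push_cast
    refine Finset.prod_congr rfl fun i _ => ?_
    rw [toMul_zsmul, toMul_ofMul]
    push_cast
    rfl
  have h4 := hf.cardinal_le_rank
  rw [Cardinal.mk_fin] at h4
  exact h4

theorem trdeg_lt_aleph0_of_ess (Λ K : Type) [CommRing Λ] [IsDomain Λ] [Field K] [Algebra Λ K]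
    [FaithfulSMul Λ K] [Algebra.EssFiniteType Λ K] : Algebra.trdeg Λ K < Cardinal.aleph0 := by
  let Q := FractionRing Λ
  let j2 : Algebra Q K := FractionRing.liftAlgebra Λ K
  have j3 : IsScalarTower Λ Q K := FractionRing.isScalarTower_liftAlgebra Λ K
  have j4 : Algebra.EssFiniteType Q K := Algebra.EssFiniteType.of_comp Λ Q K
  have j5 : FaithfulSMul Λ Q :=
    (faithfulSMul_iff_algebraMap_injective Λ Q).2 (IsFractionRing.injective Λ Q)
  have h1 := _root_.trdeg_add_eq Λ Q (A := K)
  have h2 : Algebra.IsAlgebraic Λ Q := IsLocalization.isAlgebraic Q (nonZeroDivisors Λ)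
  rw [trdeg_eq_zero_iff.2 h2, zero_add] at h1
  rw [← h1]
  exact trdeg_lt_aleph0 Q K

/-- Log uniformization in mixed characteristic, rank one, residue field algebraic over that of the
base, Abhyankar defect one. -/
theorem logUniformizable_dedekind (p : ℕ) (hp : p.Prime) (R : Type) [CommRing R]
    [IsDedekindDomain R] [CharZero R] (A : Type) [CommRing A] [IsDomain A] [Algebra R A]
    [FaithfulSMul R A] [Algebra.EssFiniteType R A] (V : ValuationSubring (FractionRing A))
    (hV : ∀ a : A, algebraMap A (FractionRing A) a ∈ V) (hV1 : IsCoatom V)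
    (hpV : V.valuation (p : FractionRing A) < 1)
    (hperf : ∀ a : R, ∃ b : R, V.valuation (algebraMap R (FractionRing A) (a - b ^ p)) < 1)
    (hres : ∀ z ∈ V, ∃ f : Polynomial R, f.Monic ∧ V.valuation (aeval z f) < 1)
    (hrank : compRank V ⊤ = Algebra.trdeg R A) : LogUniformizable V := by
  classical
  set K := FractionRing A with hK
  have hRK : Function.Injective (algebraMap R K) := by
    rw [IsScalarTower.algebraMap_eq R A K, RingHom.coe_comp]
    exact (IsFractionRing.injective A K).comp (FaithfulSMul.algebraMap_injective R A)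
  have hRV : ∀ c : R, algebraMap R K c ∈ V := fun c => by
    rw [IsScalarTower.algebraMap_apply R A K]
    exact hV _
  have e1 : Algebra.EssFiniteType A K := Algebra.EssFiniteType.of_isLocalization _ (nonZeroDivisors A)
  have e2 : Algebra.EssFiniteType R K := Algebra.EssFiniteType.comp R A K
  -- the center
  let φ : R →+* V := (algebraMap R K).codRestrict V.toSubring hRV
  let P : Ideal R := (IsLocalRing.maximalIdeal V).comap φ
  have hPpr : P.IsPrime := Ideal.comap_isPrime _ _
  have hP : ∀ a : R, a ∈ P ↔ V.valuation (algebraMap R K a) < 1 := by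
    intro a
    exact V.valuation_lt_one_iff (φ a)
  have hpP : (p : R) ∈ P := by
    rw [hP, map_natCast]
    exact hpV
  have hpR : (p : R) ≠ 0 := by exact_mod_cast hp.ne_zero
  have hPbot : P ≠ ⊥ := fun h => hpR (by rw [h] at hpP; simpa using hpP)
  have hPmax : P.IsMaximal := hPpr.isMaximal hPbot
  have hnP : ∀ a : R, a ∉ P → V.valuation (algebraMap R K a) = 1 := fun a ha =>
    le_antisymm ((V.valuation_le_one_iff _).2 (hRV a)) (not_lt.1 fun h => ha ((hP a).2 h))
  -- the base
  let Λ := Localization.AtPrime P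
  have k1 : IsDiscreteValuationRing Λ :=
    IsLocalization.AtPrime.isDiscreteValuationRing_of_dedekind_domain R hPbot Λ
  have hunit : ∀ y : P.primeCompl, IsUnit (algebraMap R K y) := fun y =>
    (IsUnit.mk0 _ fun h => y.2 ((hP y).2 (by rw [h, map_zero]; exact zero_lt_one)))
  let ψ : Λ →+* K := IsLocalization.lift hunit
  let k2 : Algebra Λ K := ψ.toAlgebra
  have k3 : IsScalarTower R Λ K := IsScalarTower.of_algebraMap_eq fun c => by
    change algebraMap R K c = ψ (algebraMap R Λ c)
    rw [IsLocalization.lift_eq]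
  have hfrac : ∀ c : Λ, ∃ a : R, ∃ s : R, s ∉ P ∧ c * algebraMap R Λ s = algebraMap R Λ a := by
    intro c
    obtain ⟨⟨a, s⟩, h⟩ := IsLocalization.surj P.primeCompl c
    exact ⟨a, s, s.2, h⟩
  have hfrac' : ∀ c : Λ, ∃ a : R, ∃ s : R, s ∉ P ∧ algebraMap Λ K c =
      algebraMap R K a / algebraMap R K s := by
    intro c
    obtain ⟨a, s, hs, h⟩ := hfrac c
    refine ⟨a, s, hs, ?_⟩
    have h0 : algebraMap R K s ≠ 0 := (hunit ⟨s, hs⟩).ne_zero
    rw [eq_div_iff h0, IsScalarTower.algebraMap_apply R Λ K, IsScalarTower.algebraMap_apply R Λ K,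
      ← map_mul, h]
  have hΛK : Function.Injective (algebraMap Λ K) := by
    rw [injective_iff_map_eq_zero]
    intro c hc
    obtain ⟨a, s, hs, h⟩ := hfrac c
    have h1 : algebraMap R K a = 0 := by
      rw [IsScalarTower.algebraMap_apply R Λ K, ← h, map_mul, hc, zero_mul]
    have h2 : a = 0 := by
      rw [map_eq_zero_iff _ hRK] at h1
      exact h1
    rw [h2, map_zero] at h
    have h3 : IsUnit (algebraMap R Λ s) := IsLocalization.map_units Λ (⟨s, hs⟩ : P.primeCompl)
    exact (h3.mul_left_eq_zero).1 h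
  have k4 : Algebra.EssFiniteType Λ K := Algebra.EssFiniteType.of_comp R Λ K
  have hRΛ : Function.Injective (algebraMap R Λ) := by
    have h1 := hRK
    rw [IsScalarTower.algebraMap_eq R Λ K, RingHom.coe_comp] at h1
    exact h1.of_comp
  have k5 : CharZero Λ := charZero_of_injective_algebraMap hRΛ
  -- the residue field of the base
  have hressurj : ∀ c : kk Λ, ∃ a : R, IsLocalRing.residue Λ (algebraMap R Λ a) = c := by
    intro c
    obtain ⟨c, rfl⟩ := IsLocalRing.residue_surjective c
    obtain ⟨a, s, hs, h⟩ := hfrac c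
    obtain ⟨t, ht⟩ := hPmax.exists_inv hs
    refine ⟨a * t, ?_⟩
    obtain ⟨m, hm, hmt⟩ := ht
    have h1 : IsLocalRing.residue Λ (algebraMap R Λ m) = 0 := by
      rw [IsLocalRing.residue_eq_zero_iff]
      exact (IsLocalization.AtPrime.to_map_mem_maximal_iff Λ P m).2 hm
    have h2 : IsLocalRing.residue Λ (algebraMap R Λ (t * s)) = 1 := by
      have h3 := congrArg (fun z => IsLocalRing.residue Λ (algebraMap R Λ z)) hmt
      simp only [map_add, h1, map_one, add_zero] at h3
      exact h3
    have h3 : algebraMap R Λ (a * t) = c * algebraMap R Λ (t * s) := by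
      rw [map_mul, ← h, map_mul]
      ring
    rw [h3, map_mul, h2, mul_one]
  have hkp : (p : kk Λ) = 0 := by
    have h1 : IsLocalRing.residue Λ (algebraMap R Λ (p : R)) = 0 := by
      rw [IsLocalRing.residue_eq_zero_iff]
      exact (IsLocalization.AtPrime.to_map_mem_maximal_iff Λ P _).2 hpP
    rwa [map_natCast, map_natCast] at h1
  have k6 : CharP (kk Λ) p := (CharP.charP_iff_prime_eq_zero hp).2 hkp
  have k7 : Fact p.Prime := ⟨hp⟩
  have k8 : PerfectRing (kk Λ) p := by
    refine PerfectRing.ofSurjective _ p ?_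
    intro c
    obtain ⟨a, rfl⟩ := hressurj c
    obtain ⟨b, hb⟩ := hperf a
    refine ⟨IsLocalRing.residue Λ (algebraMap R Λ b), ?_⟩
    have h1 : IsLocalRing.residue Λ (algebraMap R Λ (a - b ^ p)) = 0 := by
      rw [IsLocalRing.residue_eq_zero_iff]
      exact (IsLocalization.AtPrime.to_map_mem_maximal_iff Λ P _).2 ((hP _).2 hb)
    rw [map_sub, map_sub, sub_eq_zero, map_pow, map_pow] at h1
    rw [frobenius_def, h1]
  have k9 : PerfectField (kk Λ) := PerfectRing.toPerfectField _ p
  -- the transcendence degree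
  have k10 : FaithfulSMul Λ K := (faithfulSMul_iff_algebraMap_injective Λ K).2 hΛK
  have k11 : FaithfulSMul R K := (faithfulSMul_iff_algebraMap_injective R K).2 hRK
  have k12 : FaithfulSMul R Λ := (faithfulSMul_iff_algebraMap_injective R Λ).2 hRΛ
  have htr1 : Algebra.trdeg R A = Algebra.trdeg R K := by
    have h1 := _root_.trdeg_add_eq R A (A := K)
    have h2 : Algebra.IsAlgebraic A K := IsLocalization.isAlgebraic K (nonZeroDivisors A)
    rw [trdeg_eq_zero_iff.2 h2, add_zero] at h1
    exact h1
  have htr2 : Algebra.trdeg Λ K = Algebra.trdeg R K := by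
    have h1 := _root_.trdeg_add_eq R Λ (A := K)
    have h2 : Algebra.IsAlgebraic R Λ := IsLocalization.isAlgebraic Λ P.primeCompl
    rw [trdeg_eq_zero_iff.2 h2, zero_add] at h1
    exact h1
  have htr3 : Algebra.trdeg Λ K < Cardinal.aleph0 := trdeg_lt_aleph0_of_ess Λ K
  obtain ⟨r, hr⟩ := Cardinal.lt_aleph0.1 htr3
  have hrank' : compRank V ⊤ = r := by rw [hrank, htr1, ← htr2, hr]
  obtain ⟨X, -, hX⟩ := exists_units V ⊤ (r := r) hrank'.ge
  have hmax : ∀ Y : Fin (r + 1) → K, ¬ IndVal V Y := by
    intro Y hY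
    have h1 := IndVal.card_le hY
    rw [hrank'] at h1
    have h2 : r + 1 ≤ r := by exact_mod_cast h1
    omega
  have hrpos : 0 < r := by
    have h0 : (p : K) ≠ 0 := by
      have h1 : algebraMap R K (p : R) ≠ 0 := fun h => hpR ((map_eq_zero_iff _ hRK).1 h)
      rwa [map_natCast] at h1
    have h1 : IndVal V (fun _ : Fin 1 => (p : K)) := by
      refine ⟨fun _ => h0, fun e he => ?_⟩
      rw [Finsupp.prod_fintype _ _ (fun i => zpow_zero _), Fin.prod_univ_one, map_zpow₀] at he
      have h2 : e 0 = 0 := by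
        by_contra hne
        rcases lt_or_gt_of_ne hne with hlt | hgt
        · have h3 : V.valuation (p : K) ^ (- e 0) = 1 := by rw [zpow_neg, he, inv_one]
          obtain ⟨n, hn⟩ := Int.eq_ofNat_of_zero_le (a := - e 0) (by omega)
          rw [hn, zpow_natCast] at h3
          exact absurd h3 (pow_lt_one₀ zero_le hpV (by omega)).ne
        · obtain ⟨n, hn⟩ := Int.eq_ofNat_of_zero_le (a := e 0) (by omega)
          rw [hn, zpow_natCast] at he
          exact absurd he (pow_lt_one₀ zero_le hpV (by omega)).ne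
      refine Finsupp.ext fun i => ?_
      rw [Subsingleton.elim i 0, h2]
      rfl
    have h2 := IndVal.card_le h1
    rw [hrank'] at h2
    have h3 : 1 ≤ r := by exact_mod_cast h2
    exact h3
  -- the uniformizer
  obtain ⟨ϖ, hϖ⟩ := IsDiscreteValuationRing.exists_irreducible Λ
  have hϖV : V.valuation (algebraMap Λ K ϖ) < 1 := by
    obtain ⟨a, s, hs, h⟩ := hfrac ϖ
    have h1 : algebraMap R Λ a ∈ IsLocalRing.maximalIdeal Λ := by
      rw [← h]
      refine Ideal.mul_mem_right _ _ ?_
      exact hϖ.not_isUnit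
    have h2 : a ∈ P := (IsLocalization.AtPrime.to_map_mem_maximal_iff Λ P _).1 h1
    have h3 : algebraMap Λ K ϖ * algebraMap R K s = algebraMap R K a := by
      rw [IsScalarTower.algebraMap_apply R Λ K, IsScalarTower.algebraMap_apply R Λ K, ← map_mul, h]
    have h4 := (hP a).1 h2
    rw [← h3, map_mul, hnP s hs, mul_one] at h4
    exact h4
  have hΛV : ∀ c : Λ, algebraMap Λ K c ∈ V := by
    intro c
    obtain ⟨a, s, hs, h⟩ := hfrac' c
    rw [h, ← V.valuation_le_one_iff, map_div₀, hnP s hs, div_one, V.valuation_le_one_iff]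
    exact hRV a
  have hR1 : IsR1 V := ⟨hV1.1, fun W hW => (eq_or_lt_of_le hW).imp Eq.symm (hV1.2 W)⟩
  have hL : LU Λ V := lu_dvr p hp hΛK hϖ V hR1 hΛV hϖV hrpos hr X hX hmax (by
    intro z hz
    obtain ⟨f, hf, hfz⟩ := hres z hz
    refine ⟨f.map (algebraMap R Λ), hf.map _, ?_⟩
    rwa [aeval_map_algebraMap])
  have hLR : LU R V := LU.of_localization V (fun c => by
    obtain ⟨a, s, hs, h⟩ := hfrac' c
    exact ⟨a, s, hnP s hs, h⟩) hRV hL
  exact logUniformizable_of_LU R A V hV hLR

end Pool.Agent.LUM
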