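import Pool.Agent.Lib.LU1_h15.GalTheta

/-! # G1: decomposition field, generator (no hypothesis on the base field) -/

set_option autoImplicit false

open Polynomial

namespace Pool.Agent.LUM

open Pool.Agent.H15JM (RVal)
open Pool.Agent.LU1 (VPos val_add_vpos fixO mem_fixO decG)
open Pool.Agent.LU1.GalThetaAux

universe u

variable {k Ω : Type u} [Field k] [Field Ω] [Algebra k Ω]

/-- G1: the generator of the decomposition field over the fixed field of `H`. -/
theorem exists_theta (v : RVal Ω) (F : IntermediateField k Ω) (N : IntermediateField F Ω)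
    [FiniteDimensional F N] [IsGalois F N] (H : Subgroup (N ≃ₐ[F] N)) :
    ∃ θ : N, (∀ σ ∈ decG v F N ⊓ H, σ θ = θ) ∧ VPos v ((θ : Ω) - 1) ∧
      ∀ σ ∈ H, σ ∉ decG v F N → VPos v ((σ θ : N) : Ω) := by
  classical
  by_cases htr : ∀ n : N, n ≠ 0 → v (n : Ω) = 0
  · refine ⟨1, fun σ _ => _root_.map_one σ, ?_, ?_⟩
    · rw [OneMemClass.coe_one, sub_self]; exact VPos.zero
    · intro σ _ hσ
      exfalso
      apply hσ
      intro n
      by_cases hn : n = 0
      · rw [hn, _root_.map_zero]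
      · rw [htr n hn, htr (σ n) (by simpa using hn)]
  push Not at htr
  obtain ⟨n0, hn0, hv0⟩ := htr
  obtain ⟨a, ha0, hva, hσa⟩ := exists_sep F N n0 hn0 hv0
  have ha0' : (a : Ω) ≠ 0 := by simpa using ha0
  -- `α = a / (1 + a)`
  have h1a : (a : Ω) + 1 ≠ 0 ∧ v ((a : Ω) + 1) = v (a : Ω) :=
    v.add_of_lt ha0' one_ne_zero (by rw [v.map_one]; exact hva)
  let α : N := a / (a + 1)
  have hα : (α : Ω) = (a : Ω) / ((a : Ω) + 1) := rfl
  have hα1 : VPos v ((α : Ω) - 1) := by
    have h2 : (α : Ω) - 1 = -((a : Ω) + 1)⁻¹ := by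
      rw [hα]; field_simp [h1a.1]; ring
    rw [h2]
    apply VPos.neg
    intro _
    rw [v.map_inv h1a.1, h1a.2]
    linarith
  have hσα : ∀ σ : N ≃ₐ[F] N, σ ∉ decG v F N → VPos v (σ α : Ω) := by
    intro σ hσ
    have h3 : (σ α : Ω) = (σ a : Ω) * ((σ a : Ω) + 1)⁻¹ := by
      show ((σ (a / (a + 1)) : N) : Ω) = _
      rw [map_div₀, _root_.map_add, _root_.map_one, div_eq_mul_inv]
      rfl
    have h4 : VPos v (σ a : Ω) := fun _ => hσa σ hσ
    have h5 := val_add_vpos (one_ne_zero (α := Ω)) v.map_one h4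
    rw [add_comm] at h5
    rw [h3]
    apply h4.mul
    intro _
    rw [v.map_inv h5.1, h5.2, neg_zero]
  have hDα : ∀ σ : N ≃ₐ[F] N, σ ∈ decG v F N → VPos v ((σ α : Ω) - 1) := by
    intro σ hσ h6
    have h7 : ((σ α : Ω) - 1) = (σ (α - 1) : Ω) := by
      rw [_root_.map_sub, _root_.map_one]; rfl
    rw [h7] at h6 ⊢
    rw [hσ (α - 1)]
    have h8 : ((α - 1 : N) : Ω) = (α : Ω) - 1 := rfl
    rw [h8]
    apply hα1
    rw [← h8]
    intro h9
    have h10 : (α - 1 : N) = 0 := Subtype.ext h9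
    rw [h10, _root_.map_zero] at h6
    exact h6 rfl
  have hfin : Finite (N ≃ₐ[F] N) := inferInstance
  have hft : Fintype (decG v F N) := Fintype.ofFinite _
  have hprod : ∀ s : Finset (decG v F N),
      VPos v (((∏ τ ∈ s, (τ : N ≃ₐ[F] N) α : N) : Ω) - 1) := by
    intro s
    induction s using Finset.induction_on with
    | empty =>
      rw [Finset.prod_empty, OneMemClass.coe_one, sub_self]; exact VPos.zero
    | insert τ s hτ ih =>
      rw [Finset.prod_insert hτ]
      have h11 : (((τ : N ≃ₐ[F] N) α * ∏ τ ∈ s, (τ : N ≃ₐ[F] N) α : N) : Ω) - 1 =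
          ((((τ : N ≃ₐ[F] N) α : N) : Ω) - 1) *
            ((∏ τ ∈ s, (τ : N ≃ₐ[F] N) α : N) : Ω) +
          (((∏ τ ∈ s, (τ : N ≃ₐ[F] N) α : N) : Ω) - 1) := by
        rw [MulMemClass.coe_mul]; ring
      rw [h11]
      refine ((hDα τ τ.2).mul ?_).add ih
      have h12 : ((∏ τ ∈ s, (τ : N ≃ₐ[F] N) α : N) : Ω) =
          (((∏ τ ∈ s, (τ : N ≃ₐ[F] N) α : N) : Ω) - 1) + 1 := by ring
      rw [h12]
      exact ih.ge.add fun _ => by rw [v.map_one]
  refine ⟨∏ τ : decG v F N, (τ : N ≃ₐ[F] N) α, ?_, hprod _, ?_⟩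
  · intro σ hσ
    have hσD : σ ∈ decG v F N := (Subgroup.mem_inf.1 hσ).1
    rw [_root_.map_prod]
    refine Fintype.prod_equiv (Equiv.mulLeft (⟨σ, hσD⟩ : decG v F N)) _ _ ?_
    intro τ
    rfl
  · intro σ _ hσ
    rw [_root_.map_prod]
    have h13 : ∀ τ : decG v F N, σ * (τ : N ≃ₐ[F] N) ∉ decG v F N := by
      intro τ h14
      apply hσ
      have h15 := (decG v F N).mul_mem h14 ((decG v F N).inv_mem τ.2)
      rwa [mul_inv_cancel_right] at h15
    have h16 : ∀ s : Finset (decG v F N), s.Nonempty →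
        VPos v ((∏ τ ∈ s, σ ((τ : N ≃ₐ[F] N) α) : N) : Ω) := by
      intro s hs
      induction hs using Finset.Nonempty.cons_induction with
      | singleton τ =>
        rw [Finset.prod_singleton]
        exact hσα _ (h13 τ)
      | cons τ s hτ hs ih =>
        rw [Finset.prod_cons, MulMemClass.coe_mul]
        exact (hσα _ (h13 τ)).mul ih.ge
    exact h16 _ Finset.univ_nonempty

end Pool.Agent.LUM
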