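import Pool.Agent.Lib.LU1_h15.GalDec
import Pool.Agent.Lib.LUM.GalTheta
import Pool.Agent.Lib.LUM.Etale

/-! # G1: decomposition field -/

set_option autoImplicit false
set_option linter.unusedSectionVars false

open Polynomial

namespace Pool.Agent.LUM

open Pool.Agent.H15JM (RVal)
open Pool.Agent.LU1 (VPos val_add_vpos fixO mem_fixO decG adj)
open Pool.Agent.LU1.GalDec (ge_coeff_prod ge_prod_multiset adj_fixO mov)

universe u

namespace GalDec

section

variable {k Ω : Type u} [Field k] [Field Ω] [Algebra k Ω] {v : RVal Ω}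

/-- The minimal polynomial of `θ` over the fixed field. -/
theorem minpoly_prop (F : IntermediateField k Ω) (N : IntermediateField F Ω)
    [FiniteDimensional F N] [IsGalois F N] (H : Subgroup (N ≃ₐ[F] N)) (θ : N)
    (hfix : ∀ σ ∈ decG v F N ⊓ H, σ θ = θ) (h1 : VPos v ((θ : Ω) - 1))
    (hmov : ∀ σ ∈ H, σ ∉ decG v F N → VPos v ((σ θ : N) : Ω)) :
    IsIntegral (fixO F N H) (θ : Ω) ∧
    (∀ i, v.Ge 0 (((minpoly (fixO F N H) (θ : Ω)).map (algebraMap (fixO F N H) Ω)).coeff i)) ∧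
    ((minpoly (fixO F N H) (θ : Ω)).map (algebraMap (fixO F N H) Ω)).derivative.eval (θ : Ω) ≠ 0 ∧
    v (((minpoly (fixO F N H) (θ : Ω)).map
      (algebraMap (fixO F N H) Ω)).derivative.eval (θ : Ω)) = 0 := by
  classical
  have _ft : Fintype (N ≃ₐ[F] N) := Fintype.ofFinite _
  have hθ0 : (θ : Ω) ≠ 0 ∧ v (θ : Ω) = 0 := by
    have := val_add_vpos (v := v) one_ne_zero v.map_one h1
    rwa [add_sub_cancel] at this
  -- the conjugates
  set O : Finset N := (Finset.univ.filter fun σ : N ≃ₐ[F] N => σ ∈ H).image fun σ => σ θ with hO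
  have hmemO : ∀ τ : N, τ ∈ O ↔ ∃ σ ∈ H, σ θ = τ := by
    intro τ
    rw [hO, Finset.mem_image]
    simp only [Finset.mem_filter, Finset.mem_univ, true_and]
  set P : N[X] := ∏ τ ∈ O, (X - C τ) with hP
  have hPσ : ∀ σ ∈ H, P.map (σ : N →+* N) = P := by
    intro σ hσ
    rw [hP, Polynomial.map_prod]
    refine Finset.prod_bij (fun τ _ => σ τ) ?_ ?_ ?_ ?_
    · intro τ hτ
      obtain ⟨ρ, hρ, rfl⟩ := (hmemO τ).1 hτ
      exact (hmemO _).2 ⟨σ * ρ, H.mul_mem hσ hρ, rfl⟩
    · intro a _ b _ hab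
      exact σ.injective hab
    · intro τ hτ
      obtain ⟨ρ, hρ, rfl⟩ := (hmemO τ).1 hτ
      refine ⟨(σ⁻¹ * ρ) θ, (hmemO _).2 ⟨σ⁻¹ * ρ, H.mul_mem (H.inv_mem hσ) hρ, rfl⟩, ?_⟩
      change (σ * (σ⁻¹ * ρ)) θ = ρ θ
      rw [mul_inv_cancel_left]
    · intro τ _
      rw [Polynomial.map_sub, Polynomial.map_X, Polynomial.map_C]
      rfl
  set P' : Polynomial Ω := P.map (algebraMap N Ω) with hP'
  have hlift : P' ∈ Polynomial.lifts (algebraMap (fixO F N H) Ω) := by
    rw [Polynomial.lifts_iff_coeff_lifts]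
    intro i
    have h2 : P'.coeff i ∈ fixO F N H := by
      refine (mem_fixO F N H _).2 ⟨P.coeff i, ?_, fun σ hσ => ?_⟩
      · rw [hP', Polynomial.coeff_map]
        rfl
      · have h3 := congrArg (fun Q : N[X] => Q.coeff i) (hPσ σ hσ)
        simp only [Polynomial.coeff_map] at h3
        exact h3
    exact ⟨⟨_, h2⟩, rfl⟩
  have hP'e : P' = ∏ τ ∈ O, (X - C (τ : Ω)) := by
    rw [hP', hP, Polynomial.map_prod]
    refine Finset.prod_congr rfl fun τ _ => ?_
    rw [Polynomial.map_sub, Polynomial.map_X, Polynomial.map_C]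
    rfl
  have hmonic : P'.Monic := by
    rw [hP'e]
    exact Polynomial.monic_prod_of_monic _ _ fun τ _ => Polynomial.monic_X_sub_C _
  obtain ⟨Q, hQ, -, hQm⟩ := Polynomial.lifts_and_degree_eq_and_monic hlift hmonic
  have hθO : θ ∈ O := (hmemO θ).2 ⟨1, H.one_mem, rfl⟩
  have hroot : P'.eval (θ : Ω) = 0 := by
    rw [hP'e, Polynomial.eval_prod]
    refine Finset.prod_eq_zero hθO ?_
    rw [eval_sub, eval_X, eval_C, sub_self]
  have hint : IsIntegral (fixO F N H) (θ : Ω) := by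
    refine ⟨Q, hQm, ?_⟩
    rw [← Polynomial.eval_map, hQ]
    exact hroot
  set m : Polynomial Ω := (minpoly (fixO F N H) (θ : Ω)).map (algebraMap (fixO F N H) Ω) with hm
  have hdvd : m ∣ P' := by
    rw [hm, ← hQ]
    refine Polynomial.map_dvd _ (minpoly.dvd _ _ ?_)
    rw [Polynomial.aeval_def, ← Polynomial.eval_map, hQ]
    exact hroot
  have hmm : m.Monic := (minpoly.monic hint).map _
  have hsplit : P'.Splits := by
    rw [hP'e]
    exact Polynomial.Splits.prod fun τ _ => Polynomial.Splits.X_sub_C _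
  have hms : m.Splits := hsplit.of_dvd hmonic.ne_zero hdvd
  have hroots : m.roots ≤ P'.roots := Polynomial.roots.le_of_dvd hmonic.ne_zero hdvd
  have hP'r : P'.roots = O.val.map (fun τ : N => (τ : Ω)) := by
    rw [hP'e]
    have : (∏ τ ∈ O, (X - C (τ : Ω))) = ((O.val.map (fun τ : N => (τ : Ω))).map
        fun a => X - C a).prod := by
      rw [Multiset.map_map]
      rfl
    rw [this, Polynomial.roots_multiset_prod_X_sub_C]
  have hnodup : m.roots.Nodup := by
    refine Multiset.nodup_of_le hroots ?_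
    rw [hP'r]
    exact Multiset.Nodup.map Subtype.val_injective O.nodup
  have hmem : ∀ τ ∈ m.roots, τ = (θ : Ω) ∨ VPos v τ := by
    intro τ hτ
    have h2 := Multiset.mem_of_le hroots hτ
    rw [hP'r, Multiset.mem_map] at h2
    obtain ⟨τ', hτ', rfl⟩ := h2
    obtain ⟨σ, hσ, rfl⟩ := (hmemO τ').1 hτ'
    by_cases h3 : σ ∈ decG v F N
    · left
      rw [hfix σ ⟨h3, hσ⟩]
    · right
      exact hmov σ hσ h3
  have hge : ∀ τ ∈ m.roots, v.Ge 0 τ := by
    intro τ hτ
    rcases hmem τ hτ with h2 | h2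
    · rw [h2]
      intro _
      rw [hθ0.2]
    · exact h2.ge
  have hprod : m = (m.roots.map fun a => X - C a).prod := hms.eq_prod_roots_of_monic hmm
  have hθm : (θ : Ω) ∈ m.roots := by
    rw [Polynomial.mem_roots hmm.ne_zero, Polynomial.IsRoot.def, hm, Polynomial.eval_map,
      ← Polynomial.aeval_def, minpoly.aeval]
  have hder : m.derivative.eval (θ : Ω) =
      ((m.roots.erase (θ : Ω)).map fun a => (θ : Ω) - a).prod := by
    have e : m = (X - C (θ : Ω)) * ((m.roots.erase (θ : Ω)).map fun a => X - C a).prod := by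
      conv_lhs => rw [hprod, ← Multiset.cons_erase hθm, Multiset.map_cons, Multiset.prod_cons]
    conv_lhs => rw [e]
    rw [Polynomial.derivative_mul, Polynomial.derivative_sub, Polynomial.derivative_X,
      Polynomial.derivative_C, sub_zero, one_mul, eval_add, eval_mul, eval_sub, eval_X, eval_C,
      sub_self, zero_mul, add_zero, Polynomial.eval_multiset_prod, Multiset.map_map]
    congr 1
    refine Multiset.map_congr rfl fun a _ => ?_
    simp only [Function.comp_apply, eval_sub, eval_X, eval_C]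
  have hval := ge_prod_multiset (v := v) ((m.roots.erase (θ : Ω)).map fun a => (θ : Ω) - a) (by
    intro b hb
    rw [Multiset.mem_map] at hb
    obtain ⟨a, ha, rfl⟩ := hb
    have h2 : a ≠ (θ : Ω) := by
      rintro rfl
      exact hnodup.notMem_erase ha
    have h3 := (hmem a (Multiset.mem_of_mem_erase ha)).resolve_left h2
    have h4 := val_add_vpos (v := v) one_ne_zero v.map_one (h1.sub h3)
    have h5 : (1 : Ω) + ((θ : Ω) - 1 - a) = (θ : Ω) - a := by ring
    rwa [h5] at h4)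
  refine ⟨hint, fun i => ?_, ?_, ?_⟩
  · rw [hprod]
    exact ge_coeff_prod _ hge i
  · rw [hder]
    exact hval.1
  · rw [hder]
    exact hval.2

end

end GalDec

open GalDec

variable {Λ Q Ω : Type u} [CommRing Λ] [IsDomain Λ] [IsDiscreteValuationRing Λ] [Field Q]
  [Field Ω] [Algebra Λ Ω] [Algebra Λ Q] [IsFractionRing Λ Q] [Algebra Q Ω]
  [IsScalarTower Λ Q Ω] {ϖ : Λ} {v : RVal Ω} {r : ℕ}

/-- EA for the decomposition field (`H = ⊤`). -/
theorem good_dec (p : ℕ) (hp : p.Prime) [CharP (kk Λ) p] (h : Ctx ϖ v r)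
    (F : IntermediateField Q Ω) (N : IntermediateField F Ω) [FiniteDimensional F N]
    [IsGalois F N] (hF : Good ϖ v (fixO F N ⊤)) : Good ϖ v (fixO F N (decG v F N)) := by
  obtain ⟨θ, hfix, h1, hmov⟩ := exists_theta v F N ⊤
  obtain ⟨hint, h2, h3, h4⟩ := minpoly_prop F N ⊤ θ hfix h1 hmov
  have h5 := adj_fixO F N ⊤ (decG v F N ⊓ ⊤) inf_le_right θ hfix (mov F N ⊤ θ h1 hmov)
  rw [inf_top_eq] at h5
  rw [← h5]
  refine Good.etale p hp h (fixO F N ⊤) hF (θ : Ω)
    ((minpoly (fixO F N ⊤) (θ : Ω)).map (algebraMap (fixO F N ⊤) Ω))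
    ((minpoly.monic hint).map _) (fun i => ⟨?_, h2 i⟩) ?_ h3 h4
  · rw [Polynomial.coeff_map]
    exact ((minpoly (fixO F N ⊤) (θ : Ω)).coeff i).2
  · rw [Polynomial.eval_map, ← Polynomial.aeval_def, minpoly.aeval]

end Pool.Agent.LUM
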