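import Pool.Agent.Lib.LUM.U01

/-! # U02: joins, finite generation, functoriality and henselianity of the class `U`

Recipes. `EtU.rel`: induction on the chain of `C` over `C₀`; the same polynomials `f` have
coefficients in `locv (C₁ ⊔ C)`, and `locv (adjoin (locv (C₁ ⊔ C) ∪ {θ})) = locv (C₁ ⊔ locv (adjoin
(C ∪ {θ})))` (both inclusions from `locv_le`, `locv_mono`; see `locv_adjoin_union`).
`EtU.trans`: induction. `EtU.join` = `rel` + `trans` with base `⊥` (`locv C₁ = C₁`: `EtU.loc`).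
`mem_henU`: the set of the `C` is directed (`join`) and nonempty: `Subalgebra.mem_sSup_of_directedOn`
or similar (or `⨆`).  `henU_finset`: induction on the finite set with `join`.
`henU_sh`: the finitely many coefficients of `f` are in one `C`; then `θ ∈ locv C[θ]`, in the class.
`EtU.fg`: induction (the coefficients need not be added). `EtU.alg`: `θ` is integral over `C`, algebraic
over `Λ`: transitivity of algebraicity (the elements algebraic over `Λ` form a subalgebra closed under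
inverses; `IsAlgebraic`, `Subalgebra.algebraicClosure`). `EtU.map`: induction; `f.map τ`. -/

set_option autoImplicit false
set_option linter.unusedSectionVars false
set_option linter.unusedVariables false

open Polynomial

namespace Pool.Agent.LUM

open Pool.Agent.H15JM (RVal)
open Pool.Agent.LU1 (VPos LatData val_add_vpos adj)

universe u

variable {Λ Ω : Type u} [CommRing Λ] [IsDomain Λ] [IsDiscreteValuationRing Λ] [Field Ω]
  [Algebra Λ Ω] {ϖ : Λ} {v : RVal Ω} {r : ℕ}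

private theorem locv_locvU (S : Subalgebra Λ Ω) : locv v (locv v S) = locv v S :=
  le_antisymm (locv_le le_rfl fun f hf h0 h1 => locv_inv hf h0 h1) (le_locv _)

theorem EtU.locv_eq {C₀ C : Subalgebra Λ Ω} (hC : EtU v C₀ C) : locv v C = C := by
  cases hC with
  | base => exact locv_locvU _
  | step hC f hf hc θ h0 h1 h2 => exact locv_locvU _

theorem EtU.trans {C₀ C₁ C₂ : Subalgebra Λ Ω} (h1 : EtU v C₀ C₁) (h2 : EtU v C₁ C₂) :
    EtU v C₀ C₂ := by
  induction h2 with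
  | base => rw [h1.locv_eq]; exact h1
  | step hC f hf hc θ h3 h4 h5 ih => exact EtU.step ih f hf hc θ h3 h4 h5

/-- The chain of `C` over `C₀` is a chain over any larger ring. -/
theorem EtU.rel {C₀ C C₁ : Subalgebra Λ Ω} (hC : EtU v C₀ C) (h01 : C₀ ≤ C₁) :
    EtU v C₁ (locv v (C₁ ⊔ C)) := by
  induction hC with
  | base =>
    have : locv v (C₁ ⊔ locv v C₀) = locv v C₁ := by
      apply le_antisymm
      · refine locv_le (sup_le (le_locv _) (locv_mono h01)) fun f hf h0 h1 => locv_inv hf h0 h1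
      · exact locv_mono le_sup_left
    rw [this]
    exact EtU.base
  | @step C hC f hf hc θ h0 h1 h2 ih =>
    have h3 := EtU.step ih f hf (fun i => le_locv _ ((le_sup_right : C ≤ C₁ ⊔ C) (hc i))) θ h0 h1 h2
    have : locv v (C₁ ⊔ locv v (Algebra.adjoin Λ ((C : Set Ω) ∪ {θ}))) =
        locv v (Algebra.adjoin Λ (((locv v (C₁ ⊔ C) : Subalgebra Λ Ω) : Set Ω) ∪ {θ})) := by
      apply le_antisymm
      · refine locv_le (sup_le ?_ ?_) fun f hf h0 h1 => locv_inv hf h0 h1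
        · intro x hx
          exact le_locv _ (Algebra.subset_adjoin (Or.inl (le_locv _ ((le_sup_left : C₁ ≤ C₁ ⊔ C) hx))))
        · refine locv_mono (Algebra.adjoin_mono ?_)
          rintro x (hx | hx)
          · exact Or.inl (le_locv _ ((le_sup_right : C ≤ C₁ ⊔ C) hx))
          · exact Or.inr hx
      · refine locv_le ?_ fun f hf h0 h1 => locv_inv hf h0 h1
        rw [Algebra.adjoin_le_iff]
        rintro x (hx | hx)
        · refine locv_mono (sup_le_sup_left ?_ C₁) hx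
          intro y hy
          exact le_locv _ (Algebra.subset_adjoin (Or.inl hy))
        · refine le_locv _ (le_sup_right (a := C₁) (le_locv _ (Algebra.subset_adjoin (Or.inr hx))))
    rw [this]
    exact h3

theorem EtU.join {C₁ C₂ : Subalgebra Λ Ω} (h1 : EtU v (⊥ : Subalgebra Λ Ω) C₁)
    (h2 : EtU v (⊥ : Subalgebra Λ Ω) C₂) : EtU v (⊥ : Subalgebra Λ Ω) (locv v (C₁ ⊔ C₂)) :=
  h1.trans (h2.rel bot_le)

theorem mem_henU {x : Ω} : x ∈ henU Λ v ↔ ∃ C, EtU v (⊥ : Subalgebra Λ Ω) C ∧ x ∈ C := by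
  have hne : Nonempty {C : Subalgebra Λ Ω // EtU v (⊥ : Subalgebra Λ Ω) C} := ⟨⟨_, EtU.base⟩⟩
  have hdir : Directed (· ≤ ·) fun C : {C : Subalgebra Λ Ω // EtU v (⊥ : Subalgebra Λ Ω) C} =>
      (C : Subalgebra Λ Ω) := by
    rintro ⟨C₁, h1⟩ ⟨C₂, h2⟩
    exact ⟨⟨_, h1.join h2⟩, le_sup_left.trans (le_locv _), le_sup_right.trans (le_locv _)⟩
  have h1 := Subalgebra.coe_iSup_of_directed hdir
  have h2 : henU Λ v = ⨆ C : {C : Subalgebra Λ Ω // EtU v (⊥ : Subalgebra Λ Ω) C},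
      (C : Subalgebra Λ Ω) := by
    unfold henU
    rw [sSup_eq_iSup']
    rfl
  rw [h2, ← SetLike.mem_coe, h1, Set.mem_iUnion]
  constructor
  · rintro ⟨⟨C, hC⟩, hx⟩
    exact ⟨C, hC, hx⟩
  · rintro ⟨C, hC, hx⟩
    exact ⟨⟨C, hC⟩, hx⟩

theorem henU_finset (F : Finset Ω) (hF : ∀ x ∈ F, x ∈ henU Λ v) :
    ∃ C, EtU v (⊥ : Subalgebra Λ Ω) C ∧ ∀ x ∈ F, x ∈ C := by
  classical
  induction F using Finset.induction_on with
  | empty => exact ⟨_, EtU.base, fun x hx => absurd hx (Finset.notMem_empty x)⟩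
  | insert a F ha ih =>
    obtain ⟨C₁, h1, h2⟩ := ih fun x hx => hF x (Finset.mem_insert_of_mem hx)
    obtain ⟨C₂, h3, h4⟩ := mem_henU.1 (hF a (Finset.mem_insert_self a F))
    refine ⟨_, h1.join h3, fun x hx => ?_⟩
    rcases Finset.mem_insert.1 hx with rfl | hx
    · exact le_locv _ ((le_sup_right : C₂ ≤ C₁ ⊔ C₂) h4)
    · exact le_locv _ ((le_sup_left : C₁ ≤ C₁ ⊔ C₂) (h2 x hx))

theorem EtU.le_henU {C : Subalgebra Λ Ω} (hC : EtU v (⊥ : Subalgebra Λ Ω) C) : C ≤ henU Λ v :=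
  fun _ hx => mem_henU.2 ⟨C, hC, hx⟩

/-- The closed base is strictly henselian. -/
theorem henU_sh (f : Polynomial Ω) (hf : f.Monic) (hc : ∀ i, f.coeff i ∈ henU Λ v) (θ : Ω)
    (h0 : f.eval θ = 0) (h1 : f.derivative.eval θ ≠ 0) (h2 : v (f.derivative.eval θ) = 0) :
    θ ∈ henU Λ v := by
  classical
  obtain ⟨C, hC, hF⟩ := henU_finset (f.support.image f.coeff) fun x hx => by
    obtain ⟨i, _, rfl⟩ := Finset.mem_image.1 hx
    exact hc i
  have hc' : ∀ i, f.coeff i ∈ C := by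
    intro i
    by_cases hi : f.coeff i = 0
    · rw [hi]; exact C.zero_mem
    · exact hF _ (Finset.mem_image_of_mem _ (mem_support_iff.2 hi))
  exact mem_henU.2 ⟨_, EtU.step hC f hf hc' θ h0 h1 h2,
    le_locv _ (Algebra.subset_adjoin (Or.inr rfl))⟩

theorem henU_dvl (h : Ctx0 ϖ v r) : DVl ϖ v (henU Λ v) where
  nonneg := by
    intro x hx
    obtain ⟨C, hC, hx⟩ := mem_henU.1 hx
    exact (hC.dvl h (DVl.bot h)).nonneg x hx
  loc := by
    intro x hx h0 h1
    obtain ⟨C, hC, hx⟩ := mem_henU.1 hx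
    exact hC.le_henU ((hC.dvl h (DVl.bot h)).loc x hx h0 h1)
  pi := by
    intro x hx hv
    obtain ⟨C, hC, hx⟩ := mem_henU.1 hx
    obtain ⟨y, hy, hxy⟩ := (hC.dvl h (DVl.bot h)).pi x hx hv
    exact ⟨y, hC.le_henU hy, hxy⟩

/-- The rings of the class are localisations of finitely generated algebras. -/
theorem EtU.fg {C : Subalgebra Λ Ω} (hC : EtU v (⊥ : Subalgebra Λ Ω) C) :
    ∃ F : Finset Ω, C = locv v (Algebra.adjoin Λ (F : Set Ω)) := by
  classical
  induction hC with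
  | base => exact ⟨∅, by rw [Finset.coe_empty, Algebra.adjoin_empty]⟩
  | step hC f hf hc θ h0 h1 h2 ih =>
    obtain ⟨F, rfl⟩ := ih
    refine ⟨F ∪ {θ}, ?_⟩
    rw [locv_adjoin_union, Finset.coe_union, Finset.coe_singleton]

theorem EtU.alg {C₀ C : Subalgebra Λ Ω} (hC : EtU v C₀ C) (h0 : ∀ x ∈ C₀, IsAlgebraic Λ x) :
    ∀ x ∈ C, IsAlgebraic Λ x := by
  have hloc : ∀ S : Subalgebra Λ Ω, (∀ x ∈ S, IsAlgebraic Λ x) → ∀ x ∈ locv v S, IsAlgebraic Λ x := by
    rintro S hS x ⟨a, ha, b, hb, hb0, hvb, rfl⟩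
    rw [div_eq_mul_inv]
    exact (hS a ha).mul (hS b hb).inv
  induction hC with
  | base => exact hloc _ h0
  | @step C hC f hf hc θ h1 h2 h3 ih =>
    have halg : Algebra.IsAlgebraic Λ C := by
      refine ⟨fun x => ?_⟩
      have h4 := ih x.1 x.2
      rw [← Subalgebra.coe_val, isAlgebraic_algHom_iff C.val Subtype.val_injective] at h4
      exact h4
    have hθ : IsAlgebraic Λ θ := by
      have h5 : IsAlgebraic C θ := by
        obtain ⟨f0, hf0⟩ : ∃ f0 : C[X], f0.map (algebraMap C Ω) = f := by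
          have h1 : f ∈ Polynomial.lifts (algebraMap C Ω) := by
            rw [Polynomial.lifts_iff_coeff_lifts]
            intro n
            exact ⟨⟨f.coeff n, hc n⟩, rfl⟩
          exact (Polynomial.mem_lifts f).1 h1
        refine ⟨f0, ?_, ?_⟩
        · rintro rfl
          rw [Polynomial.map_zero] at hf0
          exact hf.ne_zero hf0.symm
        · rw [aeval_def, ← eval_map, hf0, h1]
      exact h5.restrictScalars Λ
    refine hloc _ fun x hx => ?_
    induction hx using Algebra.adjoin_induction with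
    | mem x hx =>
      rcases hx with hx | hx
      · exact ih x hx
      · rw [Set.mem_singleton_iff.1 hx]; exact hθ
    | algebraMap c => exact isAlgebraic_algebraMap c
    | add x y _ _ hx hy => exact hx.add hy
    | mul x y _ _ hx hy => exact hx.mul hy

theorem henU_alg : ∀ x ∈ henU Λ v, IsAlgebraic Λ x := by
  intro x hx
  obtain ⟨C, hC, hx⟩ := mem_henU.1 hx
  refine hC.alg (fun y hy => ?_) x hx
  obtain ⟨c, rfl⟩ := Algebra.mem_bot.1 hy
  exact isAlgebraic_algebraMap c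

private theorem map_locv (S : Subalgebra Λ Ω) (τ : Ω ≃ₐ[Λ] Ω)
    (hτ : ∀ x : Ω, x ≠ 0 → v (τ x) = v x) :
    (locv v S).map τ.toAlgHom = locv v (S.map τ.toAlgHom) := by
  ext x
  constructor
  · rintro ⟨y, ⟨a, ha, b, hb, hb0, hvb, rfl⟩, rfl⟩
    refine ⟨τ a, ⟨a, ha, rfl⟩, τ b, ⟨b, hb, rfl⟩, fun h0 => hb0 (by simpa using h0), ?_, ?_⟩
    · rw [hτ b hb0, hvb]
    · exact map_div₀ τ a b
  · rintro ⟨_, ⟨a, ha, rfl⟩, _, ⟨b, hb, rfl⟩, hb0, hvb, rfl⟩
    have hb0' : b ≠ 0 := by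
      rintro rfl
      exact hb0 (map_zero _)
    refine ⟨a / b, ⟨a, ha, b, hb, hb0', ?_, rfl⟩, ?_⟩
    · have h1 := hτ b hb0'
      rw [← h1]
      exact hvb
    · exact map_div₀ τ a b

theorem EtU.map {C₀ C : Subalgebra Λ Ω} (hC : EtU v C₀ C) (τ : Ω ≃ₐ[Λ] Ω)
    (hτ : ∀ x : Ω, x ≠ 0 → v (τ x) = v x) :
    EtU v (C₀.map τ.toAlgHom) (C.map τ.toAlgHom) := by
  induction hC with
  | base => rw [map_locv _ τ hτ]; exact EtU.base
  | @step C hC f hf hc θ h0 h1 h2 ih =>
    rw [map_locv _ τ hτ, AlgHom.map_adjoin]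
    have he : ∀ g : Polynomial Ω, (g.map (τ : Ω →+* Ω)).eval (τ θ) = τ (g.eval θ) := fun g => by
      rw [eval_map]
      exact Polynomial.eval₂_at_apply (τ : Ω →+* Ω) θ
    have h3 : (τ.toAlgHom : Ω → Ω) '' ((C : Set Ω) ∪ {θ}) =
        ((C.map τ.toAlgHom : Subalgebra Λ Ω) : Set Ω) ∪ {τ θ} := by
      rw [Set.image_union, Set.image_singleton]
      rfl
    rw [h3]
    refine EtU.step ih (f.map (τ : Ω →+* Ω)) (hf.map _) (fun i => ?_) (τ θ) ?_ ?_ ?_
    · rw [coeff_map]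
      exact ⟨_, hc i, rfl⟩
    · rw [he, h0, _root_.map_zero]
    · rw [derivative_map, he]
      intro h4
      exact h1 (by simpa using h4)
    · rw [derivative_map, he, hτ _ h1, h2]

theorem henU_map (τ : Ω ≃ₐ[Λ] Ω) (hτ : ∀ x : Ω, x ≠ 0 → v (τ x) = v x) {x : Ω}
    (hx : x ∈ henU Λ v) : τ x ∈ henU Λ v := by
  obtain ⟨C, hC, hx⟩ := mem_henU.1 hx
  have h1 := hC.map τ hτ
  have h2 : (⊥ : Subalgebra Λ Ω).map τ.toAlgHom = ⊥ := Algebra.map_bot _
  rw [h2] at h1
  exact h1.le_henU ⟨x, hx, rfl⟩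

end Pool.Agent.LUM
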