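import Pool.Agent.Lib.LUM.I01
import Pool.Agent.Lib.LUM.I02
import Pool.Agent.Lib.LUM.U02
import Pool.Agent.Lib.LUM.Etale

/-! # I03: linear descent from the closed base

Situation: `S ≤ L`, `S = locv S ⊆ O_v`, `S` contains all elements of `L ∩ O_v` algebraic over `Q`, and
these are in the closed base (`Unr`).
Recipe (`linD_chain`), induction on the chain of `C`: let `C' = locv C[θ]`, `L_C = fld L C`,
`S_C = locv (S ⊔ C)`, so `S_C ≤ L_C`.  The minimal polynomial `h` of `θ` over `L_C` has coefficients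
in `S_C`: such a coefficient `c` is algebraic over `Q` (`minpoly_coeff_alg`), has value `≥ 0` (the roots
of `h` are among the roots of the monic `f`; see `ge_minpoly` in `ValRing.lean`), and is in `L_C`; by
`mem_sup_of_alg`, `c ∈ (L ⊓ algebraicClosure) ⊔ Q(C)`.  Let `D₀ ≤ S` be the subalgebra of the elements of
`henU` which are in `L`; `DVl D₀` (`henU_dvl`, `y = x / ϖ ∈ L`), and `D := locv (D₀ ⊔ C)` is in the
class `EtU v D₀` (`EtU.rel`), so `DVl D`.  Every element of `(L ⊓ algebraicClosure) ⊔ Q(C)` is a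
quotient of elements of `D` (an element `x` of `L` algebraic over `Q`: `x` or `ϖ^n x` is in `D₀`), so
`c ∈ D ≤ S_C` by `DVl.mem_of_div`.  So `linD_step` applies to `θ, S_C, L_C`, and
`locv (adjoin (S_C ∪ {θ})) = locv (S ⊔ C')`; `LinD.trans`.
`linD_henU`: the finitely many `α j` (numerators and denominators, each a polynomial in elements of
`S` and of `henU`) are in `locv (S ⊔ C)` for one `C` of the class (`henU_finset`). -/

set_option autoImplicit false
set_option linter.unusedSectionVars false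
set_option linter.unusedVariables false

open Polynomial

namespace Pool.Agent.LUM

open Pool.Agent.H15JM (RVal)
open Pool.Agent.LU1 (VPos LatData val_add_vpos adj)

universe u

variable {Λ Q Ω : Type u} [CommRing Λ] [IsDomain Λ] [IsDiscreteValuationRing Λ] [Field Q]
  [Algebra Λ Q] [IsFractionRing Λ Q] [Field Ω] [Algebra Λ Ω] [Algebra Q Ω] [IsScalarTower Λ Q Ω]
  {ϖ : Λ} {v : RVal Ω} {r : ℕ}

private theorem I03_nonneg (h : Ctx0 ϖ v r) {A B : Subalgebra Λ Ω} (hA : ∀ f ∈ A, v.Ge 0 f)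
    (hB : ∀ f ∈ B, v.Ge 0 f) : ∀ f ∈ A ⊔ B, v.Ge 0 f := by
  let O : Subalgebra Λ Ω :=
    { carrier := {x | v.Ge 0 x}
      mul_mem' := by
        intro a b ha hb
        have h5 := RVal.Ge.mul ha hb
        rwa [add_zero] at h5
      add_mem' := fun ha hb => RVal.Ge.add ha hb
      algebraMap_mem' := h.ge }
  have h1 : A ⊔ B ≤ O := sup_le (fun f hf => hA f hf) (fun f hf => hB f hf)
  exact fun f hf => h1 hf

private theorem I03_alg {x : Ω} (hx : IsAlgebraic Λ x) : IsAlgebraic Q x :=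
  (IsFractionRing.isAlgebraic_iff Λ Q Ω).mp hx

private theorem I03_ge {C : Subalgebra Λ Ω} (h : Ctx0 ϖ v r)
    (hC : EtU v (⊥ : Subalgebra Λ Ω) C) : ∀ x ∈ C, v.Ge 0 x :=
  (EtU.dvl h (DVl.bot h) hC).nonneg

private theorem I03_inU (h : Ctx0 ϖ v r) (L : IntermediateField Q Ω) :
    DVl ϖ v (inU Λ v L) := by
  have hH := henU_dvl (v := v) h
  have hmem : ∀ x, x ∈ inU Λ v L ↔ x ∈ henU Λ v ∧ x ∈ L := fun x => Iff.rfl
  refine ⟨fun x hx => hH.nonneg x ((hmem x).mp hx).1, fun x hx h0 h1 => ?_, fun x hx h0 => ?_⟩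
  · obtain ⟨h2, h3⟩ := (hmem x).mp hx
    exact (hmem _).mpr ⟨hH.loc x h2 h0 h1, L.inv_mem h3⟩
  · obtain ⟨h2, h3⟩ := (hmem x).mp hx
    obtain ⟨y, hy, hxy⟩ := hH.pi x h2 h0
    refine ⟨y, (hmem _).mpr ⟨hy, ?_⟩, hxy⟩
    have hϖ0 : algebraMap Λ Ω ϖ ≠ 0 := by
      intro h4
      exact h.irr.ne_zero (h.inj (by rw [h4, map_zero]))
    have h5 : y = x / algebraMap Λ Ω ϖ := by
      rw [hxy, mul_div_cancel_left₀ _ hϖ0]
    rw [h5]
    refine L.div_mem h3 ?_
    rw [IsScalarTower.algebraMap_apply Λ Q Ω]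
    exact L.algebraMap_mem _

private theorem I03_core (h : Ctx0 ϖ v r) [CharZero Q] (L : IntermediateField Q Ω)
    (hU : Unr Λ v L) {C : Subalgebra Λ Ω} (hC : EtU v (⊥ : Subalgebra Λ Ω) C) {c : Ω}
    (hc : c ∈ fld L C) (halg : IsAlgebraic Q c) (hge : v.Ge 0 c) :
    c ∈ locv v (inU Λ v L ⊔ C) := by
  have hCalg : ∀ x ∈ IntermediateField.adjoin Q (C : Set Ω), IsAlgebraic Q x := by
    have h1 : IntermediateField.adjoin Q (C : Set Ω) ≤ algebraicClosure Q Ω := by
      rw [IntermediateField.adjoin_le_iff]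
      intro x hx
      exact mem_algebraicClosure_iff.mpr (I03_alg (henU_alg x (EtU.le_henU hC hx)))
    exact fun x hx => mem_algebraicClosure_iff.mp (h1 hx)
  have h1 := mem_sup_of_alg L (IntermediateField.adjoin Q (C : Set Ω)) hCalg hc halg
  have hD : DVl ϖ v (locv v (inU Λ v L ⊔ C)) :=
    EtU.dvl h (I03_inU h L) (EtU.rel hC bot_le)
  have h2 : (L ⊓ algebraicClosure Q Ω) ⊔ IntermediateField.adjoin Q (C : Set Ω) ≤
      quotF Q (locv v (inU Λ v L ⊔ C)) := by
    refine sup_le ?_ ?_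
    · rintro x ⟨hxL, hxA⟩
      rcases eq_or_ne x 0 with rfl | hx0
      · exact zero_mem _
      have hϖ0 : algebraMap Λ Ω ϖ ≠ 0 := by
        intro h4
        exact h.irr.ne_zero (h.inj (by rw [h4, map_zero]))
      have hϖL : algebraMap Λ Ω ϖ ∈ L := by
        rw [IsScalarTower.algebraMap_apply Λ Q Ω]
        exact L.algebraMap_mem _
      obtain ⟨n, hn⟩ := exists_nat_gt (- v x / v (algebraMap Λ Ω ϖ))
      rw [div_lt_iff₀ h.pos] at hn
      have hxalg : IsAlgebraic Q x := mem_algebraicClosure_iff.mp hxA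
      have h3 : algebraMap Λ Ω ϖ ^ n * x ∈ inU Λ v L := by
        have h4 : algebraMap Λ Ω ϖ ^ n * x ∈ L := L.mul_mem (pow_mem hϖL n) hxL
        refine ⟨hU _ h4 ?_ ?_, h4⟩
        · refine IsAlgebraic.mul (IsAlgebraic.pow ?_ n) hxalg
          rw [IsScalarTower.algebraMap_apply Λ Q Ω]
          exact isAlgebraic_algebraMap _
        · intro _
          rw [v.map_mul (pow_ne_zero n hϖ0) hx0, v.map_pow hϖ0]
          linarith
      refine ⟨algebraMap Λ Ω ϖ ^ n * x, le_locv _ (le_sup_left (a := inU Λ v L) h3),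
        algebraMap Λ Ω ϖ ^ n, Subalgebra.pow_mem _ (Subalgebra.algebraMap_mem _ _) n,
        pow_ne_zero n hϖ0, ?_⟩
      rw [mul_div_cancel_left₀ _ (pow_ne_zero n hϖ0)]
    · rw [IntermediateField.adjoin_le_iff]
      intro x hx
      exact le_quotF (le_locv _ (le_sup_right (a := inU Λ v L) hx))
  obtain ⟨a, ha, b, hb, hb0, rfl⟩ := h2 h1
  exact DVl.mem_of_div h hD ha hb hb0 hge

private theorem LinD.anti {L : Set Ω} {S T T' : Subalgebra Λ Ω} (hT : T' ≤ T)
    (h : LinD v L S T) : LinD v L S T' :=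
  fun n w α hw hα hrel j₀ hj₀ => h n w α hw (fun j => hT (hα j)) hrel j₀ hj₀

theorem linD_chain (h : Ctx0 ϖ v r) [CharZero Q] (L : IntermediateField Q Ω)
    (S : Subalgebra Λ Ω) (hSL : ∀ f ∈ S, f ∈ L) (hnn : ∀ f ∈ S, v.Ge 0 f)
    (hloc : ∀ f ∈ S, f ≠ 0 → v f = 0 → f⁻¹ ∈ S)
    (halg : ∀ x ∈ L, IsAlgebraic Q x → v.Ge 0 x → x ∈ S) (hU : Unr Λ v L)
    {C : Subalgebra Λ Ω} (hC : EtU v (⊥ : Subalgebra Λ Ω) C) :
    LinD v (L : Set Ω) S (locv v (S ⊔ C)) := by
  have hinS : inU Λ v L ≤ S := by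
    rintro x ⟨hx1, hx2⟩
    exact halg x hx2 (I03_alg (henU_alg x hx1)) ((henU_dvl h).nonneg x hx1)
  induction hC with
  | base =>
    refine LinD.anti ?_ (LinD.refl (L : Set Ω) S)
    refine locv_le (sup_le le_rfl (locv_le bot_le hloc)) hloc
  | @step C hC f hf hc θ h0 h1 h2 ih =>
    have hCge := I03_ge h hC
    have hCfld : ∀ x ∈ C, x ∈ fld L C := fun x hx =>
      (le_sup_right : IntermediateField.adjoin Q (C : Set Ω) ≤ fld L C)
        (IntermediateField.subset_adjoin Q _ hx)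
    have hLfld : L ≤ fld L C := le_sup_left
    have hθ : v.Ge 0 θ := Pool.Agent.LU1.ge_of_root hf (fun i => hCge _ (hc i)) h0
    obtain ⟨hint, hmin⟩ := ge_minpoly (v := v) (fld L C) θ f hf
      (fun i => ⟨hCfld _ (hc i), hCge _ (hc i)⟩) h0
    have hSC : ∀ x ∈ locv v (S ⊔ C), x ∈ fld L C := by
      apply locv_le_field
      intro x hx
      have h3 : S ⊔ C ≤ (fld L C).toSubalgebra.restrictScalars Λ :=
        sup_le (fun x hx => hLfld (hSL x hx)) hCfld
      exact h3 hx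
    have hSCge : ∀ x ∈ locv v (S ⊔ C), v.Ge 0 x := locv_nonneg (I03_nonneg h hnn hCge)
    have hθalg : IsAlgebraic Q θ := by
      have h3 : EtU v (⊥ : Subalgebra Λ Ω)
          (locv v (Algebra.adjoin Λ ((C : Set Ω) ∪ {θ}))) := EtU.step hC f hf hc θ h0 h1 h2
      refine I03_alg (henU_alg (v := v) θ (EtU.le_henU h3 (le_locv _ ?_)))
      exact Algebra.subset_adjoin (Or.inr rfl)
    have hcoef : ∀ i, ((minpoly (fld L C) θ).coeff i : Ω) ∈ locv v (S ⊔ C) := by
      intro i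
      have h3 := I03_core h L hU hC ((minpoly (fld L C) θ).coeff i).2
        (minpoly_coeff_alg (fld L C) hθalg i) (hmin i)
      exact locv_mono (sup_le_sup_right hinS C) h3
    have hstep := linD_step (fld L C) θ hint hθ (locv v (S ⊔ C)) hSC hSCge hcoef
    refine LinD.anti ?_ (LinD.trans (fun x hx => hLfld hx) ih hstep)
    have h4 : (locv v (S ⊔ C) : Subalgebra Λ Ω) ≤
        locv v (Algebra.adjoin Λ (((locv v (S ⊔ C) : Subalgebra Λ Ω) : Set Ω) ∪ {θ})) := by
      intro x hx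
      exact le_locv _ (Algebra.subset_adjoin (Or.inl hx))
    refine locv_le (sup_le ?_ ?_) (fun f hf h5 h6 => locv_inv hf h5 h6)
    · exact (le_sup_left.trans (le_locv (S ⊔ C))).trans h4
    · refine locv_mono (Algebra.adjoin_mono (Set.union_subset_union_left _ ?_))
      intro x hx
      exact le_locv _ (le_sup_right (a := S) hx)

private theorem I03_mem_sup (S : Subalgebra Λ Ω) {x : Ω} (hx : x ∈ S ⊔ henU Λ v) :
    ∃ C, EtU v (⊥ : Subalgebra Λ Ω) C ∧ x ∈ S ⊔ C := by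
  have hx' : x ∈ Algebra.adjoin Λ ((S : Set Ω) ∪ (henU Λ v : Set Ω)) := hx
  clear hx
  have hjoin : ∀ {C₁ C₂ : Subalgebra Λ Ω}, C₁ ≤ locv v (C₁ ⊔ C₂) ∧ C₂ ≤ locv v (C₁ ⊔ C₂) :=
    fun {C₁ C₂} => ⟨le_sup_left.trans (le_locv _), le_sup_right.trans (le_locv _)⟩
  induction hx' using Algebra.adjoin_induction with
  | mem x hx =>
    rcases hx with hx | hx
    · exact ⟨_, EtU.base, le_sup_left (a := S) hx⟩
    · obtain ⟨C, hC, hxC⟩ := mem_henU.mp hx
      exact ⟨C, hC, le_sup_right (a := S) hxC⟩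
  | algebraMap c => exact ⟨_, EtU.base, Subalgebra.algebraMap_mem _ _⟩
  | add x y _ _ hx hy =>
    obtain ⟨C₁, h1, h2⟩ := hx
    obtain ⟨C₂, h3, h4⟩ := hy
    exact ⟨_, EtU.join h1 h3, Subalgebra.add_mem _ (sup_le_sup_left hjoin.1 S h2)
      (sup_le_sup_left hjoin.2 S h4)⟩
  | mul x y _ _ hx hy =>
    obtain ⟨C₁, h1, h2⟩ := hx
    obtain ⟨C₂, h3, h4⟩ := hy
    exact ⟨_, EtU.join h1 h3, Subalgebra.mul_mem _ (sup_le_sup_left hjoin.1 S h2)
      (sup_le_sup_left hjoin.2 S h4)⟩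

private theorem I03_finset (S : Subalgebra Λ Ω) (F : Finset Ω)
    (hF : ∀ x ∈ F, x ∈ S ⊔ henU Λ v) :
    ∃ C, EtU v (⊥ : Subalgebra Λ Ω) C ∧ ∀ x ∈ F, x ∈ S ⊔ C := by
  classical
  induction F using Finset.induction_on with
  | empty => exact ⟨_, EtU.base, fun x hx => absurd hx (Finset.notMem_empty x)⟩
  | insert a F _ ih =>
    obtain ⟨C₁, h1, h2⟩ := ih fun x hx => hF x (Finset.mem_insert_of_mem hx)
    obtain ⟨C₂, h3, h4⟩ := I03_mem_sup S (hF a (Finset.mem_insert_self a F))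
    refine ⟨_, EtU.join h1 h3, fun x hx => ?_⟩
    rcases Finset.mem_insert.mp hx with rfl | hx
    · exact sup_le_sup_left (le_sup_right.trans (le_locv _)) S h4
    · exact sup_le_sup_left (le_sup_left.trans (le_locv _)) S (h2 x hx)

theorem linD_henU (h : Ctx0 ϖ v r) [CharZero Q] (L : IntermediateField Q Ω)
    (S : Subalgebra Λ Ω) (hSL : ∀ f ∈ S, f ∈ L) (hnn : ∀ f ∈ S, v.Ge 0 f)
    (hloc : ∀ f ∈ S, f ≠ 0 → v f = 0 → f⁻¹ ∈ S)
    (halg : ∀ x ∈ L, IsAlgebraic Q x → v.Ge 0 x → x ∈ S) (hU : Unr Λ v L) :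
    LinD v (L : Set Ω) S (locv v (S ⊔ henU Λ v)) := by
  classical
  intro n w α hw hα hrel j₀ hj₀
  choose a ha b hb hb0 hvb hab using hα
  obtain ⟨C, hC, hCF⟩ := I03_finset (v := v) S (Finset.univ.image a ∪ Finset.univ.image b) (by
    intro x hx
    rcases Finset.mem_union.mp hx with hx | hx
    · obtain ⟨j, -, rfl⟩ := Finset.mem_image.mp hx
      exact ha j
    · obtain ⟨j, -, rfl⟩ := Finset.mem_image.mp hx
      exact hb j)
  refine linD_chain h L S hSL hnn hloc halg hU hC n w α hw (fun j => ?_) hrel j₀ hj₀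
  exact ⟨a j, hCF _ (Finset.mem_union_left _ (Finset.mem_image_of_mem _ (Finset.mem_univ j))),
    b j, hCF _ (Finset.mem_union_right _ (Finset.mem_image_of_mem _ (Finset.mem_univ j))),
    hb0 j, hvb j, hab j⟩

/-- If `Q` is algebraically closed in `K` up to the closed base, `K(C)` has the same property. -/
theorem Unr.fld (h : Ctx0 ϖ v r) [CharZero Q] {K : IntermediateField Q Ω} (hK : Unr Λ v K)
    {C : Subalgebra Λ Ω} (hC : EtU v (⊥ : Subalgebra Λ Ω) C) :
    Unr Λ v (fld K C) := by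
  intro x hx hxa hx0
  have h1 := I03_core h K hK hC hx hxa hx0
  have h2 : locv v (inU Λ v K ⊔ C) ≤ henU Λ v := by
    refine locv_le (sup_le ?_ (EtU.le_henU hC)) (henU_dvl h).loc
    exact fun y hy => hy.1
  exact h2 h1

theorem Unr.mono {K L : IntermediateField Q Ω} (hL : Unr Λ v L) (h : K ≤ L) : Unr Λ v K :=
  fun x hx => hL x (h hx)

end Pool.Agent.LUM
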