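import Pool.Agent.Lib.LUM.KLam

/-! # The error lemma of the Kummer step -/

set_option autoImplicit false
set_option linter.unusedSectionVars false

open Polynomial

namespace Pool.Agent.LUM

open Pool.Agent.H15JM (RVal)
open Pool.Agent.LU1 (VPos LatData)

universe u

variable {Λ Ω : Type u} [CommRing Λ] [IsDomain Λ] [IsDiscreteValuationRing Λ] [Field Ω]
  [Algebra Λ Ω] {ϖ : Λ} {v : RVal Ω} {r : ℕ}

/-- The levels of the terms of `PP p c h`. -/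
theorem LamD.lev_qq {p : ℕ} (hp : p.Prime) {l : Ω} {c d : ℕ → Ω} (hL : LamD (Λ := Λ) p v l c d)
    {B : BF ϖ v} (hl : B.Mono l) {k0 : ℝ} (hk0 : k0 < 0) {h : Ω} (hh : B.Lev (k0 / p) h) :
    B.Lev k0 (QQ p d h) := by
  have hp0 : (0 : ℝ) < p := by exact_mod_cast hp.pos
  have hd := hL.mem B.R B.loc (hl.mem hL.l_pos.le)
  refine BF.Lev.sum _ _ fun i hi => ?_
  obtain ⟨h4, h5⟩ := Finset.mem_Ico.1 hi
  refine BF.Lev.mem_mul (hd i) ((hh.pow i).of_le ?_)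
  have h6 : (i : ℝ) ≤ p := by exact_mod_cast h5.le
  rw [← mul_div_assoc, le_div_iff₀ hp0]
  nlinarith

theorem LamD.lev_pow {p : ℕ} (hp : p.Prime) {B : BF ϖ v} {k0 : ℝ} {h : Ω}
    (hh : B.Lev (k0 / p) h) : B.Lev k0 (h ^ p) := by
  have hp0 : (0 : ℝ) < p := by exact_mod_cast hp.pos
  have h1 := hh.pow p
  rwa [mul_div_cancel₀ _ hp0.ne'] at h1

/-- The error lemma. -/
theorem LamD.err {p : ℕ} (hp : p.Prime) {l : Ω} {c d : ℕ → Ω} (hL : LamD (Λ := Λ) p v l c d)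
    {B : BF ϖ v} (hl : B.Mono l) {k0 η : ℝ} (hk0 : k0 < 0) (hη : 0 < η)
    (hη' : η ≤ p * v l + k0) {G h : Ω} (hG : B.Lev k0 G) (hh : B.Lev (k0 / p) h) :
    B.Un (1 + l * h) ∧ B.Lev (k0 + min (v l) η)
      ((G - PP p c h) / (1 + l * h) ^ p - (G - (h ^ p - h))) := by
  have hp0 : (0 : ℝ) < p := by exact_mod_cast hp.pos
  have hp1 : (1 : ℝ) < p := by exact_mod_cast hp.one_lt
  have hlL : B.Lev (v l) l := BF.Lev.of_mono hl
  have hlh : B.Lev (v l + k0 / p) (l * h) := hlL.mul' hh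
  have hpos : 0 < v l + k0 / p := by
    have h1 : 0 < (p * v l + k0) / p := div_pos (hη.trans_le hη') hp0
    have h2 : (p * v l + k0) / p = v l + k0 / p := by field_simp
    rwa [h2] at h1
  have hU : B.Un (1 + l * h) := BF.un_one_add hlh hpos
  refine ⟨hU, ?_⟩
  have hPP : PP p c h = h ^ p - h + l * QQ p d h := LamD.pp_eq hp hL.c1 hL.ci h
  have hq := hL.lev_qq hp hl hk0 hh
  have hlq : B.Lev (v l + k0) (l * QQ p d h) := hlL.mul' hq
  have hh0 : B.Lev k0 h := hh.of_le (by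
    rw [le_div_iff₀ hp0]
    nlinarith)
  have hPL : B.Lev k0 (PP p c h) := by
    rw [hPP]
    exact ((LamD.lev_pow hp hh).sub hh0).add (hlq.of_le (by linarith [hL.l_pos]))
  have hU1 : B.Lev η ((1 + l * h) ^ p - 1) := by
    rw [hL.eq, add_sub_cancel_left]
    refine BF.Lev.of_le ((hlL.pow p).mul' hPL) ?_
    exact hη'
  have hUi : ((1 + l * h) ^ p)⁻¹ ∈ B.R := (hU.pow p).inv.1
  have hU0 : (1 + l * h) ^ p ≠ 0 := (hU.pow p).2.1
  have e1 : (G - PP p c h) / (1 + l * h) ^ p - (G - (h ^ p - h)) =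
      -((G - PP p c h) * ((1 + l * h) ^ p)⁻¹ * ((1 + l * h) ^ p - 1)) - l * QQ p d h := by
    have e2 : (G - PP p c h) * ((1 + l * h) ^ p)⁻¹ * ((1 + l * h) ^ p - 1) =
        (G - PP p c h) - (G - PP p c h) / (1 + l * h) ^ p := by
      rw [mul_sub, mul_one, mul_assoc, inv_mul_cancel₀ hU0, mul_one, div_eq_mul_inv]
    rw [e2, hPP]
    ring
  rw [e1]
  refine BF.Lev.sub (BF.Lev.neg ?_) (hlq.of_le ?_)
  · refine BF.Lev.of_le (((hG.sub hPL).mul hUi).mul' hU1) ?_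
    exact add_le_add le_rfl (min_le_right _ _)
  · rw [add_comm]
    exact add_le_add (min_le_left _ _) le_rfl

/-- `f` and `1 + l^p G` differ by a `p`-th power. -/
def Kcl {F : Type u} [Field F] [Algebra F Ω] (p : ℕ) (l : Ω) (E : IntermediateField F Ω)
    (f G : Ω) : Prop := ∃ ρ ∈ E, ρ ≠ 0 ∧ f = ρ ^ p * (1 + l ^ p * G)

/-- The shift. -/
theorem Kcl.shift {F : Type u} [Field F] [Algebra F Ω] {p : ℕ} {l : Ω} {c d : ℕ → Ω}
    (hL : LamD (Λ := Λ) p v l c d)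
    {E : IntermediateField F Ω} {f G h : Ω} (hf : Kcl p l E f G) (hlE : l ∈ E) (hh : h ∈ E)
    (h0 : 1 + l * h ≠ 0) : Kcl p l E f ((G - PP p c h) / (1 + l * h) ^ p) := by
  obtain ⟨ρ, hρ, hρ0, rfl⟩ := hf
  refine ⟨ρ * (1 + l * h), E.mul_mem hρ (E.add_mem E.one_mem (E.mul_mem hlE hh)),
    mul_ne_zero hρ0 h0, ?_⟩
  have h1 := hL.eq h
  have h2 : (1 + l * h) ^ p ≠ 0 := pow_ne_zero _ h0
  have h3 : (1 + l * h) ^ p * (1 + l ^ p * ((G - PP p c h) / (1 + l * h) ^ p)) =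
      (1 + l * h) ^ p + l ^ p * (G - PP p c h) := by
    field_simp
  rw [mul_pow, mul_assoc, h3, h1]
  ring

end Pool.Agent.LUM
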