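import Pool.Agent.Lib.LUM.KRed
import Pool.Agent.Lib.LUM.KErr
import Pool.Agent.Lib.LUM.TPoly
import Pool.Agent.Lib.LUM.NFrames

/-! # Approximations of elements by polynomials over the residue field -/

set_option autoImplicit false
set_option linter.unusedSectionVars false

open Polynomial

namespace Pool.Agent.LUM

open Pool.Agent.H15JM (RVal)
open Pool.Agent.LU1 (VPos LatData)

universe u

variable {Λ Ω : Type u} [CommRing Λ] [IsDomain Λ] [IsDiscreteValuationRing Λ] [Field Ω]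
  [Algebra Λ Ω] {ϖ : Λ} {v : RVal Ω} {r : ℕ}

/-! ### exponents -/

/-- All exponents of `P` are `≥ κ`. -/
def Low (κ : ℝ) (P : (Lau Λ)[X]) : Prop := ∀ γ l, co P γ l ≠ 0 → κ ≤ γ

theorem co_sub' (P Q : (Lau Λ)[X]) (γ : ℝ) (l : ℕ) : co (P - Q) γ l = co P γ l - co Q γ l := by
  simp [co, cf]

theorem Low.add {κ : ℝ} {P Q : (Lau Λ)[X]} (hP : Low κ P) (hQ : Low κ Q) : Low κ (P + Q) := by
  intro γ l h
  rw [NFc.co_add] at h
  by_cases h1 : co P γ l = 0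
  · rw [h1, zero_add] at h
    exact hQ γ l h
  · exact hP γ l h1

theorem Low.sub {κ : ℝ} {P Q : (Lau Λ)[X]} (hP : Low κ P) (hQ : Low κ Q) : Low κ (P - Q) := by
  intro γ l h
  rw [co_sub'] at h
  by_cases h1 : co P γ l = 0
  · by_cases h2 : co Q γ l = 0
    · rw [h1, h2, sub_zero] at h
      exact absurd rfl h
    · exact hQ γ l h2
  · exact hP γ l h1

theorem Low.of_le {κ κ' : ℝ} {P : (Lau Λ)[X]} (hP : Low κ P) (h : κ' ≤ κ) : Low κ' P :=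
  fun γ l h1 => h.trans (hP γ l h1)

theorem Low.mul {κ κ' : ℝ} {P Q : (Lau Λ)[X]} (hP : Low κ P) (hQ : Low κ' Q) :
    Low (κ + κ') (P * Q) := by
  classical
  intro γ l h
  rw [co, Polynomial.coeff_mul, cf, AddMonoidAlgebra.coeff_sum, Finsupp.finsetSum_apply] at h
  obtain ⟨⟨i, j⟩, -, hij⟩ := Finset.exists_ne_zero_of_sum_ne_zero h
  have h1 := AddMonoidAlgebra.support_coeff_mul_subset _ _ (Finsupp.mem_support_iff.2 hij)
  obtain ⟨δ, hδ, ε, hε, rfl⟩ := Finset.mem_add.1 h1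
  exact add_le_add (hP δ i (Finsupp.mem_support_iff.1 hδ)) (hQ ε j (Finsupp.mem_support_iff.1 hε))

theorem Low.one : Low 0 (1 : (Lau Λ)[X]) := by
  intro γ l h
  have h1 : (1 : (Lau Λ)[X]) = C (mon 0 1) := by
    rw [mon, ← AddMonoidAlgebra.one_def, C_1]
  rw [h1] at h
  rw [NFc.co_C_mon _ _ γ l h]

theorem Low.pow {κ : ℝ} {P : (Lau Λ)[X]} (hP : Low κ P) (n : ℕ) : Low (n * κ) (P ^ n) := by
  induction n with
  | zero =>
    rw [pow_zero, Nat.cast_zero, zero_mul]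
    exact Low.one
  | succ n ih =>
    rw [pow_succ]
    have h2 : ((n + 1 : ℕ) : ℝ) * κ = n * κ + κ := by push_cast; ring
    rw [h2]
    exact ih.mul hP

theorem SuppIn.sub {Γ : AddSubgroup ℝ} {P Q : (Lau Λ)[X]} (hP : SuppIn Γ P) (hQ : SuppIn Γ Q) :
    SuppIn Γ (P - Q) := by
  intro γ l h
  rw [co_sub'] at h
  by_cases h1 : co P γ l = 0
  · by_cases h2 : co Q γ l = 0
    · rw [h1, h2, sub_zero] at h
      exact absurd rfl h
    · exact hQ γ l h2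
  · exact hP γ l h1

/-- The level of an evaluation. -/
theorem BF.lev_ev0 (B : BF ϖ v) {P : (Lau Λ)[X]} (hP : SuppIn B.Γ P) {W : ℝ} (hW : Low W P) :
    B.Lev W (B.ev P) := by
  rw [B.ev_eq]
  refine BF.Lev.sum _ _ fun l _ => BF.Lev.sum _ _ fun γ hγ => ?_
  have h0 : co P γ l ≠ 0 := Finsupp.mem_support_iff.1 hγ
  have h1 : algebraMap Λ Ω (co P γ l) * B.χ γ * B.y ^ l =
      B.χ γ * (algebraMap Λ Ω (co P γ l) * B.y ^ l) := by ring
  rw [h1]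
  exact BF.Lev.χ (hP γ l h0) (hW γ l h0) (B.R.mul_mem (B.R.algebraMap_mem _)
    (B.R.pow_mem B.y_mem l))

/-- The level of an evaluation of a polynomial with zero reduction. -/
theorem BF.lev_ev_red (h : Ctx0 ϖ v r) (B : BF ϖ v) {P : (Lau Λ)[X]} (hP : SuppIn B.Γ P)
    {k0 W : ℝ} (hlow : Low k0 P) (hred : red P = 0) (hW : W ≤ k0 + v (algebraMap Λ Ω ϖ)) :
    B.Lev W (B.ev P) := by
  refine BF.Lev.of_le (B.lev_ev h hP (W := k0) (fun γ l _ _ => ?_) hlow) hW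
  rw [hred]
  exact LU1.co_zero γ l

/-- A lift with the same support. -/
def Lift (P : (LU1.Lau (kk Λ))[X]) (Ph : (Lau Λ)[X]) : Prop :=
  red Ph = P ∧ ∀ γ l, co Ph γ l ≠ 0 → LU1.co P γ l ≠ 0

theorem Lift.supp {P : (LU1.Lau (kk Λ))[X]} {Ph : (Lau Λ)[X]} (h : Lift P Ph)
    {Γ : AddSubgroup ℝ} (hP : LU1.SuppIn Γ P) : SuppIn Γ Ph := fun γ l h1 => hP γ l (h.2 γ l h1)

theorem Lift.low {P : (LU1.Lau (kk Λ))[X]} {Ph : (Lau Λ)[X]} (h : Lift P Ph) {κ : ℝ}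
    (hP : ∀ γ l, LU1.co P γ l ≠ 0 → κ ≤ γ) : Low κ Ph := fun γ l h1 => hP γ l (h.2 γ l h1)

/-- `x` is represented by `P` up to an error of level `W`; the exponents of `P` are at least
`k0`. -/
structure Apx (B : BF ϖ v) (k0 W : ℝ) (P : (LU1.Lau (kk Λ))[X]) (x : Ω) : Prop where
  supp : LU1.SuppIn B.Γ P
  low : ∀ γ l, LU1.co P γ l ≠ 0 → k0 ≤ γ
  err : ∀ Ph : (Lau Λ)[X], Lift P Ph → B.Lev W (x - B.ev Ph)

/-- Any lift with exponents in `Γ`, at least `k0`, will do. -/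
theorem Apx.of_lift (h : Ctx0 ϖ v r) {B : BF ϖ v} {k0 W : ℝ} (hW : W ≤ k0 + v (algebraMap Λ Ω ϖ))
    {P : (LU1.Lau (kk Λ))[X]} {x : Ω} {Qh : (Lau Λ)[X]} (hred : red Qh = P)
    (hsupp : SuppIn B.Γ Qh) (hlow : Low k0 Qh) (herr : B.Lev W (x - B.ev Qh)) :
    Apx B k0 W P x := by
  have hs : LU1.SuppIn B.Γ P := hred ▸ hsupp.red
  have hl : ∀ γ l, LU1.co P γ l ≠ 0 → k0 ≤ γ := fun γ l h1 => by
    rw [← hred] at h1
    exact hlow γ l (isUnit_of_co_red h1).ne_zero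
  refine ⟨hs, hl, fun Ph hPh => ?_⟩
  have h1 : B.Lev W (B.ev (Qh - Ph)) :=
    B.lev_ev_red h (hsupp.sub (hPh.supp hs)) (hlow.sub (hPh.low hl))
      (by rw [red_sub, hred, hPh.1, sub_self]) hW
  rw [B.ev_sub] at h1
  have h2 := herr.add h1
  rwa [sub_add_sub_cancel] at h2

/-- Change of the represented element by something of level `W`. -/
theorem Apx.add_lev {B : BF ϖ v} {k0 W : ℝ} {P : (LU1.Lau (kk Λ))[X]} {x e : Ω}
    (hP : Apx B k0 W P x) (he : B.Lev W e) : Apx B k0 W P (x + e) := by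
  refine ⟨hP.supp, hP.low, fun Ph hPh => ?_⟩
  rw [add_sub_right_comm]
  exact (hP.err Ph hPh).add he

/-- The level of the represented element. -/
theorem Apx.lev {B : BF ϖ v} {k0 W : ℝ} (hW : k0 ≤ W) {P : (LU1.Lau (kk Λ))[X]} {x : Ω}
    (hP : Apx B k0 W P x) : B.Lev k0 x := by
  obtain ⟨Ph, h1, h2⟩ := exists_lift P
  have h3 : Lift P Ph := ⟨h1, h2⟩
  have h4 := ((hP.err Ph h3).of_le hW).add (B.lev_ev0 (h3.supp hP.supp) (h3.low hP.low))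
  rwa [sub_add_cancel] at h4

/-- The level of the represented element, if all exponents are large. -/
theorem Apx.lev_of_ge {B : BF ϖ v} {k0 W : ℝ} {P : (LU1.Lau (kk Λ))[X]} {x : Ω}
    (hP : Apx B k0 W P x) (hge : ∀ γ l, LU1.co P γ l ≠ 0 → W ≤ γ) : B.Lev W x := by
  obtain ⟨Ph, h1, h2⟩ := exists_lift P
  have h3 : Lift P Ph := ⟨h1, h2⟩
  have h4 := (hP.err Ph h3).add (B.lev_ev0 (h3.supp hP.supp) (h3.low hge))
  rwa [sub_add_cancel] at h4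

/-- The content and the order of the represented element. -/
theorem Apx.rep (h : Ctx0 ϖ v r) {B : BF ϖ v} {k0 W : ℝ} (hW : W ≤ k0 + v (algebraMap Λ Ω ϖ))
    {P : (LU1.Lau (kk Λ))[X]} {x : Ω} (hP : Apx B k0 W P x) {κ : ℝ} {D : ℕ}
    (hLD : LU1.IsLD LU1.All P 0 κ D) (hκ : κ < W) : B.Rep x κ D := by
  obtain ⟨Ph, h1, h2⟩ := exists_lift P
  have h3 : Lift P Ph := ⟨h1, h2⟩
  have h4 : B.Rep (B.ev Ph) κ D := B.rep_ev h (h3.supp hP.supp) (by rw [h1]; exact hLD)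
    fun γ l hc => by
      have := h3.low hP.low γ l hc
      linarith
  have h5 := h4.add_lev hκ (hP.err Ph h3)
  rwa [add_sub_cancel] at h5

/-- One T-step of a represented element. -/
theorem Apx.tstep (h : Ctx0 ϖ v r) {B B' : BF ϖ v} {q : ℕ} {c : Λ} {s : ℝ → ℤ → ℤ}
    (hT : IsTStep B B' q c s) {k0 W : ℝ} (hW : W ≤ k0 + v (algebraMap Λ Ω ϖ))
    {P : (LU1.Lau (kk Λ))[X]} {x : Ω} (hP : Apx B k0 W P x)
    (hs : ∀ γ l, LU1.co P γ l ≠ 0 → 0 ≤ s γ l) :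
    Apx B' k0 W (LU1.tpoly (v B.y) (IsLocalRing.residue Λ c) s P) x := by
  obtain ⟨Ph, h1, h2⟩ := exists_lift P
  have h3 : Lift P Ph := ⟨h1, h2⟩
  have hsupp : SuppIn B'.Γ (tpoly (v B.y) c s Ph) := by
    rw [hT.Γ_eq]
    exact (h3.supp hP.supp).tpoly
  refine Apx.of_lift h hW (Qh := tpoly (v B.y) c s Ph) (by rw [red_tpoly, h1]) hsupp ?_ ?_
  · refine tpoly_ge fun γ l hc => ?_
    have h4 := h3.low hP.low γ l hc
    have h5 : 0 ≤ (l : ℝ) * v B.y := mul_nonneg (Nat.cast_nonneg l) B.y_pos.le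
    linarith
  · rw [hT.ev_tpoly (h3.supp hP.supp) fun γ l hc => hs γ l (h2 γ l hc)]
    exact (hP.err Ph h3).ext hT.ext

/-- The non-polar part of a polynomial becomes regular after a T-step. -/
theorem IsTStep.ev_mem_of_nonneg {B B' : BF ϖ v} {q : ℕ} {c : Λ} {s : ℝ → ℤ → ℤ}
    (h : IsTStep B B' q c s) {P : (Lau Λ)[X]} (hP : SuppIn B.Γ P)
    (h0 : ∀ γ l, co P γ l ≠ 0 → 0 ≤ γ + l * v B.y) : B.ev P ∈ B'.R := by
  rw [B.ev_eq]
  refine B'.R.sum_mem fun l _ => B'.R.sum_mem fun γ hγ => ?_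
  have h1 := Finsupp.mem_support_iff.1 hγ
  have hγΓ := hP γ l h1
  have h2 := h.χ_mul hγΓ (l : ℤ)
  rw [zpow_natCast] at h2
  rw [mul_assoc, h2]
  refine B'.R.mul_mem (B'.R.algebraMap_mem _) (B'.R.mul_mem (B'.χ_mem _ ?_ ?_)
    (h.un_w.zpow _).1)
  · exact B'.Γ.add_mem (h.Γ_le hγΓ) (by
      rw [← zsmul_eq_mul]; exact B'.Γ.zsmul_mem h.β_mem _)
  · have := h0 γ l h1
    exact_mod_cast this

/-- The polar part of the polynomial represents the element as well, after a T-step. -/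
theorem Apx.polar (h : Ctx0 ϖ v r) {B B' : BF ϖ v} {q : ℕ} {c : Λ} {s : ℝ → ℤ → ℤ}
    (hT : IsTStep B B' q c s) {k0 W : ℝ} (hW : W ≤ k0 + v (algebraMap Λ Ω ϖ)) (hW0 : W ≤ 0)
    {P : (LU1.Lau (kk Λ))[X]} {x : Ω} (hP : Apx B k0 W P x)
    (hs : ∀ γ l, LU1.co (LU1.pf (fun γ l => γ + l * v B.y < 0) P) γ l ≠ 0 → 0 ≤ s γ l) :
    Apx B' k0 W (LU1.tpoly (v B.y) (IsLocalRing.residue Λ c) s
      (LU1.pf (fun γ l => γ + l * v B.y < 0) P)) x := by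
  set V : ℝ → ℕ → Prop := fun γ l => γ + l * v B.y < 0 with hV
  obtain ⟨Ah, hA1, hA2⟩ := exists_lift (LU1.pf V P)
  obtain ⟨Nh, hN1, hN2⟩ := exists_lift (LU1.pf (fun γ l => ¬ V γ l) P)
  have hA : Lift (LU1.pf V P) Ah := ⟨hA1, hA2⟩
  have hN : Lift (LU1.pf (fun γ l => ¬ V γ l) P) Nh := ⟨hN1, hN2⟩
  have hAs := hA.supp (hP.supp.pf V)
  have hNs := hN.supp (hP.supp.pf (fun γ l => ¬ V γ l))
  have hsum : red (Ah + Nh) = P := by rw [red_add, hA1, hN1, LU1.pf_add_pf]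
  have hAl : Low k0 Ah := hA.low fun γ l h1 => hP.low γ l (LU1.co_pf_ne h1).2
  have hNl : Low k0 Nh := hN.low fun γ l h1 => hP.low γ l (LU1.co_pf_ne h1).2
  -- `x - ev N` is represented by the polar part
  have h1 : Apx B k0 W (LU1.pf V P) (x - B.ev Nh) := by
    refine Apx.of_lift h hW hA1 hAs hAl ?_
    obtain ⟨Ph, hp1, hp2⟩ := exists_lift P
    have h3 := hP.err Ph ⟨hp1, hp2⟩
    have h4 : B.Lev W (B.ev (Ph - (Ah + Nh))) :=
      B.lev_ev_red h ((Lift.supp ⟨hp1, hp2⟩ hP.supp).sub (hAs.add hNs))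
        ((Lift.low ⟨hp1, hp2⟩ hP.low).sub (hAl.add hNl))
        (by rw [red_sub, hsum, hp1, sub_self]) hW
    rw [B.ev_sub, B.ev_add] at h4
    have h5 := h3.add h4
    have h6 : x - B.ev Ph + (B.ev Ph - (B.ev Ah + B.ev Nh)) = x - B.ev Nh - B.ev Ah := by ring
    rwa [h6] at h5
  have h2 := h1.tstep h hT hW hs
  have h3 : B.ev Nh ∈ B'.R := hT.ev_mem_of_nonneg hNs fun γ l hc =>
    not_lt.1 (LU1.co_pf_ne (hN2 γ l hc)).1
  have h4 := h2.add_lev (BF.Lev.of_R' h3 hW0)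
  rwa [sub_add_cancel] at h4

end Pool.Agent.LUM
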