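import Pool.Agent.Lib.LUM.KStep
import Pool.Agent.Lib.LUM.ML
import Pool.Agent.Lib.LU1_h15.ASClean_R4

/-! # Cleaning of a Kummer class of degree `p` -/

set_option autoImplicit false
set_option linter.unusedSectionVars false

open Polynomial

namespace Pool.Agent.LUM

open Pool.Agent.H15JM (RVal)
open Pool.Agent.LU1 (VPos LatData)

universe u

variable {Λ Ω : Type u} [CommRing Λ] [IsDomain Λ] [IsDiscreteValuationRing Λ] [Field Ω]
  [Algebra Λ Ω] {ϖ : Λ} {v : RVal Ω} {r : ℕ}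
  {F : Type u} [Field F] [Algebra Λ F] [IsFractionRing Λ F] [Algebra F Ω] [IsScalarTower Λ F Ω]

/-- The clean forms of a Kummer class of degree `p` in a frame. -/
def CleanK (p : ℕ) (B : BF ϖ v) (E : IntermediateField F Ω) (l f : Ω) : Prop :=
  ∃ G, Kcl p l E f G ∧ (G ∈ B.R ∨
    (∃ κ ∈ B.Γ, κ < 0 ∧ (¬ ∃ δ ∈ B.Γ, κ = p * δ) ∧ ∃ u, B.Un u ∧ G = B.χ κ * u) ∨
    (∃ b ∈ B.Γ, b < 0 ∧ ∃ yt, B.Rep yt 0 1 ∧ G = B.χ (p * b) * yt) ∨
    (∃ κ ∈ B.Γ, κ < 0 ∧ 0 < p * v l + κ ∧ (¬ ∃ δ ∈ B.Γ, κ = p * δ) ∧ ∃ yt, B.Rep yt 0 1 ∧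
      G = B.χ κ * yt))

/-- Order at most one and small content: the class is clean. -/
theorem KInv.clean (h : Ctx0 ϖ v r) {p : ℕ} {B0 B : BF ϖ v} {l : Ω}
    {E : IntermediateField F Ω} {k0 W η : ℝ} (hW : Wdw p ϖ v l k0 W η)
    {f : Ω} {P : (LU1.Lau (kk Λ))[X]} (hI : KInv p B0 E l f k0 W B P) {κ : ℝ} {D : ℕ}
    (hLD : LU1.IsLD (LU1.Vis p B.Γ) P 0 κ D) (hD : D ≤ 1) (hκ : κ < W) : CleanK p B E l f := by
  obtain ⟨G, hfG, hG⟩ := hI.cls
  refine ⟨G, hfG, Or.inr ?_⟩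
  have hco : LU1.co P κ D ≠ 0 := by
    have := hLD.2.2.1
    rwa [mul_zero, sub_zero] at this
  have hvis : LU1.Vis p B.Γ κ D := by
    have := hLD.2.2.2
    rwa [mul_zero, sub_zero] at this
  have hκ0 : κ < 0 := (hI.red _ _ hco).1
  have hκΓ : κ ∈ B.Γ := hI.supp _ _ hco
  have hκk : k0 ≤ κ := hI.low _ _ hco
  obtain ⟨-, u, hu, δ, hδ, hδ0, a, ha, hfe⟩ :=
    hG.rep h hW.Wpi (hLD.to_all hI.red) hκ
  rcases Nat.le_one_iff_eq_zero_or_eq_one.1 hD with rfl | rfl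
  · left
    refine ⟨κ, hκΓ, hκ0, fun hex => hvis ⟨dvd_zero _, hex⟩, u + B.χ δ * a,
      hu.add_vpos (B.R.mul_mem (B.χ_mem _ hδ hδ0.le) ha)
        ((B.vpos_χ hδ hδ0).mul (B.nonneg a ha)), ?_⟩
    rw [hfe, pow_zero, mul_one]
  · right
    have hyt : B.Rep (u * B.y ^ 1 + B.χ δ * a) 0 1 :=
      ⟨B.Γ.zero_mem, u, hu, δ, hδ, hδ0, a, ha, by rw [B.χ_zero, one_mul]⟩
    by_cases hb : ∃ b ∈ B.Γ, κ = p * b
    · left
      obtain ⟨b, hb, rfl⟩ := hb
      refine ⟨b, hb, ?_, _, hyt, hfe⟩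
      by_contra hcon
      push Not at hcon
      exact absurd (mul_nonneg (Nat.cast_nonneg p) hcon) (not_le.2 hκ0)
    · right
      refine ⟨κ, hκΓ, hκ0, ?_, hb, _, hyt, hfe⟩
      have h1 := hW.η_pos
      have h2 := hW.η_le
      linarith

/-- Large content: the window has been passed. -/
theorem KInv.passed {p : ℕ} {B0 B : BF ϖ v} {l : Ω} {E : IntermediateField F Ω} {k0 W : ℝ}
    {f : Ω} {P : (LU1.Lau (kk Λ))[X]} (hI : KInv p B0 E l f k0 W B P)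
    (hge : ∀ γ l, LU1.co P γ l ≠ 0 → W ≤ γ) : ∃ G, Kcl p l E f G ∧ B.Lev W G := by
  obtain ⟨G, hfG, hG⟩ := hI.cls
  exact ⟨G, hfG, hG.lev_of_ge hge⟩

/-- The states of order at least two. -/
structure KSt (p : ℕ) (B0 : BF ϖ v) (E : IntermediateField F Ω) (l f : Ω) (k0 W : ℝ) where
  B : BF ϖ v
  P : (LU1.Lau (kk Λ))[X]
  κ : ℝ
  D : ℕ
  inv : KInv p B0 E l f k0 W B P
  ld : LU1.IsLD (LU1.Vis p B.Γ) P 0 κ D
  two : 2 ≤ D

/-- One window. -/
theorem k_window (h : Ctx ϖ v r) {p : ℕ} (hp : p.Prime) [CharP (kk Λ) p] [IsAlgClosed (kk Λ)]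
    {B : BF ϖ v} {l : Ω} (hl : B.Mono l) {c d : ℕ → Ω} (hL : LamD (Λ := Λ) p v l c d)
    {E : IntermediateField F Ω} (hE : FracIs B.R E) {k0 W η : ℝ} (hW : Wdw p ϖ v l k0 W η)
    {f : Ω} {P : (LU1.Lau (kk Λ))[X]} (hI : KInv p B E l f k0 W B P) :
    ∃ B' : BF ϖ v, Reach B B' ∧ (CleanK p B' E l f ∨ ∃ G, Kcl p l E f G ∧ B'.Lev W G) := by
  by_contra hcon
  push Not at hcon
  have hW' : ∀ (B1 : BF ϖ v) (P1 : (LU1.Lau (kk Λ))[X]), KInv p B E l f k0 W B1 P1 →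
      ¬ ∀ γ l, LU1.co P1 γ l ≠ 0 → W ≤ γ := by
    intro B1 P1 hI1 hge
    obtain ⟨G, h1, h2⟩ := hI1.passed hge
    exact (hcon B1 hI1.reach).2 G h1 h2
  have hmk : ∀ (B1 : BF ϖ v) (P1 : (LU1.Lau (kk Λ))[X]), KInv p B E l f k0 W B1 P1 →
      ∀ κ D, LU1.IsLD (LU1.Vis p B1.Γ) P1 0 κ D → 2 ≤ D := by
    intro B1 P1 hI1 κ D hLD
    by_contra hD
    rcases lt_or_ge κ W with h1 | h1
    · exact (hcon B1 hI1.reach).1 (hI1.clean h.toCtx0 hW hLD (by omega) h1)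
    · refine hW' B1 P1 hI1 fun γ l h2 => h1.trans ?_
      have := hLD.1 γ l h2 (hI1.red γ l h2).2
      rwa [mul_zero, add_zero] at this
  have hne : ∀ (B1 : BF ϖ v) (P1 : (LU1.Lau (kk Λ))[X]), KInv p B E l f k0 W B1 P1 →
      P1 ≠ 0 := by
    intro B1 P1 hI1 h0
    refine hW' B1 P1 hI1 fun γ l h2 => ?_
    rw [h0] at h2
    exact absurd (LU1.co_zero γ l) h2
  obtain ⟨κ0, D0, hLD0⟩ := LU1.exists_IsLD (LU1.Vis p B.Γ) P 0 (by
    obtain ⟨γ, l, h0⟩ := LU1.exists_co_ne (hne B P hI)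
    exact ⟨γ, l, h0, (hI.red γ l h0).2⟩)
  let S0 : KSt p B E l f k0 W := ⟨B, P, κ0, D0, hI, hLD0, hmk B P hI κ0 D0 hLD0⟩
  -- the next state
  have hnext : ∀ S : KSt p B E l f k0 W, ∃ S' : KSt p B E l f k0 W, S'.D ≤ S.D ∧
      (S'.D = S.D → ∃ c, KKeep p S.B S'.B S.P S'.P c S.κ S'.κ S.D) := by
    intro S
    obtain ⟨B', P', -, hI', hor⟩ := S.inv.step h hp (S.inv.reach.ext.mono hl) hL
      (S.inv.reach.ext.fracIs hE) hW S.ld S.two
    rcases hor with h0 | ⟨κ', D', hLD', hD', hkeep⟩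
    · exact absurd h0 (hne B' P' hI')
    · exact ⟨⟨B', P', κ', D', hI', hLD', hmk B' P' hI' κ' D' hLD'⟩, hD', hkeep⟩
  choose next hnext1 hnext2 using hnext
  let sq : ℕ → KSt p B E l f k0 W := fun n => Nat.rec S0 (fun _ S => next S) n
  have hsq : ∀ n, sq (n + 1) = next (sq n) := fun _ => rfl
  -- the order becomes constant
  obtain ⟨n0, hn0⟩ : ∃ n0, ∀ n, (sq n0).D ≤ (sq n).D := by
    classical
    have hex : ∃ d, ∃ n, (sq n).D = d := ⟨_, 0, rfl⟩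
    obtain ⟨n0, hn0⟩ := Nat.find_spec hex
    exact ⟨n0, fun n => by rw [hn0]; exact Nat.find_min' hex ⟨n, rfl⟩⟩
  have hconst : ∀ n, (sq (n0 + n)).D = (sq n0).D := by
    intro n
    induction n with
    | zero => rfl
    | succ n ih =>
      refine le_antisymm ?_ (hn0 (n0 + (n + 1)))
      rw [← ih]
      exact hnext1 (sq (n0 + n))
  have hkeep : ∀ n, ∃ c, KKeep p (sq (n0 + n)).B (sq (n0 + (n + 1))).B (sq (n0 + n)).P
      (sq (n0 + (n + 1))).P c (sq (n0 + n)).κ (sq (n0 + (n + 1))).κ (sq n0).D := by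
    intro n
    have h1 := hnext2 (sq (n0 + n)) (by
      have h2 := hconst (n + 1)
      have h3 := hconst n
      rw [← add_assoc, hsq] at h2
      rw [h2, h3])
    rw [hconst n] at h1
    exact h1
  choose cc hc using hkeep
  have hΓ : ∀ n, (sq (n0 + n)).B.Γ = (sq n0).B.Γ := by
    intro n
    induction n with
    | zero => rfl
    | succ n ih => rw [(hc n).Γ_eq, ih]
  have hdeg : ∀ n, (sq (n0 + n)).P.natDegree ≤ (sq n0).P.natDegree := by
    intro n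
    induction n with
    | zero => exact le_rfl
    | succ n ih => exact (hc n).deg.trans ih
  refine LU1.chain_false p hp (sq n0).B.Γ (sq n0).B.fg (fun n => v (sq (n0 + n)).B.y) cc
    (fun n => (sq (n0 + n)).P) (fun n => (sq (n0 + n)).κ) (sq n0).D (sq n0).P.natDegree
    (sq n0).two (fun n => (sq (n0 + n)).B.y_pos) (fun n => ?_) (fun n => (hc n).c_ne)
    (fun n => ?_) (fun n γ l h0 => ?_) (fun n => ?_) (fun n => (hc n).κ_eq)
    (fun n γ l h0 => (hc n).ge γ l h0) (fun n => ?_)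
  · have := (hc n).y_mem
    rwa [hΓ n] at this
  · have := (sq (n0 + n)).inv.supp
    rwa [hΓ n] at this
  · have := (sq (n0 + n)).inv.red γ l h0
    rwa [hΓ n] at this
  · have := (sq (n0 + n)).ld
    rwa [hΓ n, hconst n] at this
  · obtain ⟨H, R, h1, h2, h3, h4, h5⟩ := (hc n).rel
    rw [hΓ n] at h1 h2
    exact ⟨H, R, h1, h2, h3.trans (hdeg n), h4, h5⟩

/-- From an approximation to a state. -/
theorem KInv.of_apx (h : Ctx0 ϖ v r) {p : ℕ} (hp : p.Prime) [CharP (kk Λ) p]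
    [IsAlgClosed (kk Λ)] {B : BF ϖ v} {l : Ω} (hl : B.Mono l) {c d : ℕ → Ω}
    (hL : LamD (Λ := Λ) p v l c d) {E : IntermediateField F Ω} (hE : FracIs B.R E) {k0 W η : ℝ}
    (hW : Wdw p ϖ v l k0 W η) {f G : Ω} (hf : Kcl p l E f G) {P : (LU1.Lau (kk Λ))[X]}
    (hP : Apx B k0 W P G) : ∃ P', KInv p B E l f k0 W B P' := by
  obtain ⟨G1, H, R, hG1, hH, hR, heq, hred, hR0, -, -, hκ⟩ :=
    LU1.as_reduce p hp B.Γ B.fg P hP.supp
  exact ⟨G1, Relation.ReflTransGen.refl, hred, Apx.reduce h hp hl hL hE hW hf hP hG1 hH hR heq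
    (hκ k0 hW.neg hP.low).1 hR0⟩

/-- The start of a window. -/
theorem k_next (h : Ctx ϖ v r) {p : ℕ} (hp : p.Prime) [CharP (kk Λ) p] [IsAlgClosed (kk Λ)]
    {B : BF ϖ v} {l : Ω} (hl : B.Mono l) {c d : ℕ → Ω} (hL : LamD (Λ := Λ) p v l c d)
    {E : IntermediateField F Ω} (hE : FracIs B.R E) {k0 W η : ℝ} (hW : Wdw p ϖ v l k0 W η)
    {f G : Ω} (hf : Kcl p l E f G) (hG : B.Lev k0 G) :
    ∃ B' : BF ϖ v, Reach B B' ∧ ∃ P, KInv p B' E l f k0 W B' P := by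
  obtain ⟨g, hg, hk0g, a, ha, rfl⟩ := hG
  obtain ⟨S0, G0, hS0, -, -, hN0⟩ := B.exists_NF h.toCtx0 {a} (by simpa using ha)
  obtain ⟨u, hu⟩ := B.exists_basis h.toCtx0 S0 hS0
  obtain ⟨N, hNx, hNy, -, hNR, hNf⟩ := hN0 u hu
  have haN : a ∈ N.R := hNf a (Finset.mem_singleton_self a)
  have hne : (Finset.univ : Finset (Fin r)).Nonempty := ⟨⟨0, h.rpos⟩, Finset.mem_univ _⟩
  obtain ⟨i0, -, hi0⟩ := Finset.exists_min_image Finset.univ u hne
  set ε : ℝ := min (u i0) (v B.y) with hε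
  have hεpos : 0 < ε := lt_min (hu.pos i0) B.y_pos
  have hεu : ∀ i, ε ≤ u i := fun i => (min_le_left _ _).trans (hi0 i (Finset.mem_univ i))
  have hεy : ε ≤ v B.y := min_le_right _ _
  obtain ⟨M, hM⟩ := exists_nat_ge (-g / ε)
  have hMε : -g ≤ M * ε := by rwa [div_le_iff₀ hεpos] at hM
  obtain ⟨Ph, -, hPs, hPn, hPe⟩ := NF.expand h.toCtx0 B N u (fun i => ⟨hu.mem i, hu.pos i⟩)
    hNx hNy a haN M
  have hJ := B.inPow_jw N u (fun i => ⟨hu.mem i, hu.pos i⟩) hNx hNy hNR hεu hεy M hPe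
  -- the polynomial `x^g P`
  have hCs : SuppIn B.Γ (C (mon g 1) : (Lau Λ)[X]) := by
    intro γ l' h1
    rw [NFc.co_C_mon _ _ γ l' h1]
    exact hg
  have hQs : SuppIn B.Γ (C (mon g 1) * Ph) := hCs.mul hPs
  have hQl : Low k0 (C (mon g 1) * Ph) := by
    intro γ l' h1
    rw [NFc.co_mon_mul] at h1
    have := hPn _ _ h1
    linarith
  have hQe : B.ev (C (mon g 1) * Ph) = B.χ g * B.ev Ph := by
    rw [B.ev_mul hCs hPs]
    congr 1
    have := B.ev_monomial g (1 : Λ) 0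
    rwa [pow_zero, mul_one, pow_zero, mul_one, map_one, one_mul] at this
  set P := red (C (mon g 1) * Ph) with hPdef
  have hA0 : Apx B k0 W P (B.ev (C (mon g 1) * Ph)) :=
    Apx.of_lift h.toCtx0 hW.Wpi rfl hQs hQl (by rw [sub_self]; exact BF.Lev.zero B W)
  -- the T-step
  obtain ⟨S, hS⟩ := LU1.exists_suppAS P
  obtain ⟨B', q, cc, s, hT, hs, -⟩ := B.exists_tstep h S
    (fun b hb => hA0.supp _ _ ((hS b).1 hb)) (-1) (Or.inr rfl)
  have hA : ∀ γ l', LU1.co (LU1.pf (fun γ l' => γ + l' * v B.y < 0) P) γ l' ≠ 0 →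
      0 ≤ s γ l' := by
    intro γ l' h1
    obtain ⟨h2, h3⟩ := LU1.co_pf_ne h1
    refine hs (γ, l') ((hS _).2 h3) ?_
    show 0 < -1 * (γ + l' * v B.y)
    linarith
  have h1 := Apx.polar h.toCtx0 hT hW.Wpi hW.W0 hA0 hA
  have h2 : B'.Lev W (B.χ g * (a - B.ev Ph)) := by
    have h3 : B'.Lev g (B.χ g) := by
      have h4 : B.Lev g (B.χ g) := by
        have := BF.Lev.χ (B := B) hg le_rfl B.R.one_mem
        rwa [mul_one] at this
      exact h4.ext hT.ext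
    refine (h3.mul' (BF.JW_lev hT hJ)).of_le ?_
    have := hW.W0
    linarith
  have h3 := h1.add_lev h2
  rw [hQe] at h3
  have h4 : B.χ g * B.ev Ph + B.χ g * (a - B.ev Ph) = B.χ g * a := by ring
  rw [h4] at h3
  exact ⟨B', Relation.ReflTransGen.single ⟨q, cc, s, hT⟩,
    KInv.of_apx h.toCtx0 hp (hT.ext.mono hl) hL (hT.ext.fracIs hE) hW hf h3⟩

/-- All windows. -/
theorem k_all (h : Ctx ϖ v r) {p : ℕ} (hp : p.Prime) [CharP (kk Λ) p] [IsAlgClosed (kk Λ)]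
    {l : Ω} {c d : ℕ → Ω} (hL : LamD (Λ := Λ) p v l c d)
    {E : IntermediateField F Ω} {η : ℝ} (hη : 0 < η) {f : Ω} (n : ℕ) :
    ∀ (B : BF ϖ v), B.Mono l → FracIs B.R E → ∀ k0 : ℝ, η ≤ p * v l + k0 →
      -(n * min (v (algebraMap Λ Ω ϖ)) (min (v l) η)) ≤ k0 → ∀ G, Kcl p l E f G → B.Lev k0 G →
      ∃ B' : BF ϖ v, Reach B B' ∧ CleanK p B' E l f := by
  set δ := min (v (algebraMap Λ Ω ϖ)) (min (v l) η) with hδ
  have hδ0 : 0 < δ := lt_min h.pos (lt_min hL.l_pos hη)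
  induction n with
  | zero =>
    intro B hl hE k0 hη' hn G hf hG
    refine ⟨B, Relation.ReflTransGen.refl, G, hf, Or.inl (hG.mem ?_)⟩
    simpa using hn
  | succ n ih =>
    intro B hl hE k0 hη' hn G hf hG
    rcases le_or_gt 0 k0 with h0 | h0
    · exact ⟨B, Relation.ReflTransGen.refl, G, hf, Or.inl (hG.mem h0)⟩
    · set W := min (k0 + δ) 0 with hWdef
      have hW : Wdw p ϖ v l k0 W η :=
        { neg := h0
          W0 := min_le_right _ _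
          k0W := le_min (by linarith) h0.le
          η_pos := hη
          η_le := hη'
          Wpi := (min_le_left _ _).trans (by linarith [min_le_left (v (algebraMap Λ Ω ϖ)) (min (v l) η)])
          Wl := (min_le_left _ _).trans (by linarith [min_le_right (v (algebraMap Λ Ω ϖ)) (min (v l) η)]) }
      obtain ⟨B1, hr1, P, hI⟩ := k_next h hp hl hL hE hW hf hG
      have hl1 := hr1.ext.mono hl
      have hE1 := hr1.ext.fracIs hE
      obtain ⟨B2, hr2, h1 | ⟨G', hf', hG'⟩⟩ := k_window h hp hl1 hL hE1 hW hI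
      · exact ⟨B2, hr1.trans hr2, h1⟩
      · obtain ⟨B3, hr3, h3⟩ := ih B2 (hr2.ext.mono hl1) (hr2.ext.fracIs hE1) W
          (hη'.trans (by linarith [hW.k0W])) (by
            refine le_min ?_ ?_
            · push_cast at hn
              linarith
            · have : 0 ≤ (n : ℝ) * δ := mul_nonneg (Nat.cast_nonneg n) hδ0.le
              linarith) G' hf' hG'
        exact ⟨B3, (hr1.trans hr2).trans hr3, h3⟩

end Pool.Agent.LUM
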