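import Pool.Agent.Lib.LUM.Rep
import Pool.Agent.Lib.LUM.Mk
import Pool.Agent.Lib.LU1_h15.ExtVal

/-! # KEXT: the content valuation of a frame extends to the big field; criterion for `reg` -/

set_option autoImplicit false
set_option linter.unusedSectionVars false

open Polynomial

namespace Pool.Agent.LUM

open Pool.Agent.H15JM (RVal)
open Pool.Agent.LU1 (VPos LatData)

universe u

variable {Λ Ω : Type u} [CommRing Λ] [IsDomain Λ] [IsDiscreteValuationRing Λ] [Field Ω]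
  [Algebra Λ Ω] {ϖ : Λ} {v : RVal Ω} {r : ℕ}

/-- `w` is an extension of the content valuation of `B`. -/
structure ContVal (B : BF ϖ v) (w : RVal Ω) : Prop where
  rep : ∀ {f : Ω} {κ : ℝ} {D : ℕ}, B.Rep f κ D → w f = κ
  ge : ∀ f ∈ B.R, w.Ge 0 f

namespace KExtAux

/-- `κ` is the content of `g = a / b`. -/
def Con (B : BF ϖ v) (g : Ω) (κ : ℝ) : Prop :=
  ∃ a ∈ B.R, ∃ b ∈ B.R, ∃ κ1 D1 κ2 D2, B.Rep a κ1 D1 ∧ B.Rep b κ2 D2 ∧ g = a / b ∧ κ = κ1 - κ2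

theorem Con.unique (h : Ctx0 ϖ v r) {B : BF ϖ v} {g : Ω} {κ κ' : ℝ} (h1 : Con B g κ)
    (h2 : Con B g κ') : κ = κ' := by
  obtain ⟨a, -, b, -, κ1, D1, κ2, D2, ha, hb, hg, rfl⟩ := h1
  obtain ⟨a', -, b', -, κ1', D1', κ2', D2', ha', hb', hg', rfl⟩ := h2
  have h3 : a * b' = a' * b := by
    rw [hg, div_eq_div_iff (hb.ne_zero h) (hb'.ne_zero h)] at hg'
    exact hg'
  have h4 := ha.mul hb'
  rw [h3] at h4
  have h5 := (h4.unique h (ha'.mul hb)).1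
  linarith

theorem Con.mul {B : BF ϖ v} {g g' : Ω} {κ κ' : ℝ} (h1 : Con B g κ)
    (h2 : Con B g' κ') : Con B (g * g') (κ + κ') := by
  obtain ⟨a, haR, b, hbR, κ1, D1, κ2, D2, ha, hb, rfl, rfl⟩ := h1
  obtain ⟨a', haR', b', hbR', κ1', D1', κ2', D2', ha', hb', rfl, rfl⟩ := h2
  refine ⟨a * a', B.R.mul_mem haR haR', b * b', B.R.mul_mem hbR hbR', _, _, _, _, ha.mul ha',
    hb.mul hb', ?_, ?_⟩
  · rw [div_mul_div_comm]
  · ring

/-- The content of a sum of elements of `R`. -/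
theorem rep_add_ge (h : Ctx0 ϖ v r) {B : BF ϖ v} {f g : Ω} {κ1 κ2 κ : ℝ} {D1 D2 D : ℕ}
    (h1 : B.Rep f κ1 D1) (h2 : B.Rep g κ2 D2) (h3 : B.Rep (f + g) κ D) : min κ1 κ2 ≤ κ := by
  obtain ⟨hκ1, u1, hu1, δ1, hδ1, h10, a1, ha1, e1⟩ := id h1
  obtain ⟨hκ2, u2, hu2, δ2, hδ2, h20, a2, ha2, e2⟩ := id h2
  have hm1 : u1 * B.y ^ D1 + B.χ δ1 * a1 ∈ B.R :=
    B.R.add_mem (B.R.mul_mem hu1.1 (B.R.pow_mem B.y_mem D1))
      (B.R.mul_mem (B.χ_mem δ1 hδ1 h10.le) ha1)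
  have hm2 : u2 * B.y ^ D2 + B.χ δ2 * a2 ∈ B.R :=
    B.R.add_mem (B.R.mul_mem hu2.1 (B.R.pow_mem B.y_mem D2))
      (B.R.mul_mem (B.χ_mem δ2 hδ2 h20.le) ha2)
  obtain ⟨c, hc, h4⟩ := B.ideal_add hκ1 hκ2 hm1 hm2
  have hmin : min κ1 κ2 ∈ B.Γ := by
    rcases min_choice κ1 κ2 with h5 | h5 <;> rw [h5] <;> assumption
  refine h3.ge_of_mem h hmin hc ?_
  rw [← h4, e1, e2]

theorem Con.add (h : Ctx0 ϖ v r) {B : BF ϖ v} {g g' : Ω} {κ κ' κ'' : ℝ} (h1 : Con B g κ)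
    (h2 : Con B g' κ') (h3 : Con B (g + g') κ'') : min κ κ' ≤ κ'' := by
  obtain ⟨a, haR, b, hbR, κ1, D1, κ2, D2, ha, hb, rfl, rfl⟩ := id h1
  obtain ⟨a', haR', b', hbR', κ1', D1', κ2', D2', ha', hb', rfl, rfl⟩ := id h2
  have hb0 := hb.ne_zero h
  have hb0' := hb'.ne_zero h
  have e1 : a / b + a' / b' = (a * b' + a' * b) / (b * b') := by
    rw [div_add_div _ _ hb0 hb0']
    ring
  have hne : a * b' + a' * b ≠ 0 := by
    intro h0
    obtain ⟨c, -, d, -, κ3, D3, κ4, D4, hc, hd, h5, -⟩ := h3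
    rw [e1, h0, zero_div] at h5
    exact div_ne_zero (hc.ne_zero h) (hd.ne_zero h) h5.symm
  have hmem : a * b' + a' * b ∈ B.R :=
    B.R.add_mem (B.R.mul_mem haR hbR') (B.R.mul_mem haR' hbR)
  obtain ⟨κ5, D5, -, h5⟩ := B.rep_exists h hmem hne
  have h6 := rep_add_ge h (ha.mul hb') (ha'.mul hb) h5
  have h7 : Con B (a / b + a' / b') (κ5 - (κ2 + κ2')) :=
    ⟨_, hmem, _, B.R.mul_mem hbR hbR', κ5, D5, _, _, h5, hb.mul hb', e1, rfl⟩
  have h8 := h3.unique h h7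
  rw [h8]
  rcases min_le_iff.1 h6 with h9 | h9
  · refine min_le_of_left_le ?_
    linarith
  · refine min_le_of_right_le ?_
    linarith

theorem exists_con (h : Ctx0 ϖ v r) (B : BF ϖ v) {g : Ω} (hg : g ∈ quoS B.R) (h0 : g ≠ 0) :
    ∃ κ, Con B g κ := by
  obtain ⟨a, ha, b, hb, hb0, rfl⟩ := hg
  have ha0 : a ≠ 0 := by
    rintro rfl
    exact h0 (zero_div b)
  obtain ⟨κ1, D1, -, h1⟩ := B.rep_exists h ha ha0
  obtain ⟨κ2, D2, -, h2⟩ := B.rep_exists h hb hb0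
  exact ⟨_, a, ha, b, hb, κ1, D1, κ2, D2, h1, h2, rfl, rfl⟩

open Classical in
/-- The content valuation on the field of quotients. -/
noncomputable def kap (h : Ctx0 ϖ v r) (B : BF ϖ v) : RVal (quoS B.R) where
  toFun g := if h0 : (g : Ω) ≠ 0 then (exists_con h B g.2 h0).choose else 0
  map_mul' x y hx hy := by
    have hx' : (x : Ω) ≠ 0 := fun h0 => hx (Subtype.ext h0)
    have hy' : (y : Ω) ≠ 0 := fun h0 => hy (Subtype.ext h0)
    have hxy : ((x * y : quoS B.R) : Ω) ≠ 0 := by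
      rw [Subfield.coe_mul]
      exact mul_ne_zero hx' hy'
    rw [dif_pos hx', dif_pos hy', dif_pos hxy]
    have h1 := (exists_con h B x.2 hx').choose_spec
    have h2 := (exists_con h B y.2 hy').choose_spec
    have h3 := (exists_con h B (x * y).2 hxy).choose_spec
    exact h3.unique h (h1.mul h2)
  map_add' x y hx hy hs := by
    have hx' : (x : Ω) ≠ 0 := fun h0 => hx (Subtype.ext h0)
    have hy' : (y : Ω) ≠ 0 := fun h0 => hy (Subtype.ext h0)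
    have hxy : ((x + y : quoS B.R) : Ω) ≠ 0 := fun h0 => hs (Subtype.ext h0)
    rw [dif_pos hx', dif_pos hy', dif_pos hxy]
    have h1 := (exists_con h B x.2 hx').choose_spec
    have h2 := (exists_con h B y.2 hy').choose_spec
    have h3 := (exists_con h B (x + y).2 hxy).choose_spec
    exact h1.add h h2 h3

theorem kap_eq (h : Ctx0 ϖ v r) (B : BF ϖ v) (g : quoS B.R) {κ : ℝ} (h1 : Con B (g : Ω) κ) :
    kap h B g = κ := by
  have h0 : (g : Ω) ≠ 0 := by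
    obtain ⟨a, -, b, -, κ1, D1, κ2, D2, ha, hb, h2, -⟩ := h1
    rw [h2]
    exact div_ne_zero (ha.ne_zero h) (hb.ne_zero h)
  have h2 : kap h B g = (exists_con h B g.2 h0).choose := dif_pos h0
  rw [h2]
  exact (exists_con h B g.2 h0).choose_spec.unique h h1

end KExtAux

open KExtAux

/-- The content valuation extends to the big field. -/
theorem BF.exists_contVal (h : Ctx0 ϖ v r) (B : BF ϖ v) : ∃ w : RVal Ω, ContVal B w := by
  have halg : Algebra.IsAlgebraic (quoS B.R) Ω := by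
    refine ⟨fun g => ?_⟩
    obtain ⟨P, hP, h0⟩ := B.alg g
    let i : B.R →+* quoS B.R :=
      { toFun := fun x => ⟨x, le_quoS x.2⟩
        map_one' := rfl
        map_mul' := fun _ _ => rfl
        map_zero' := rfl
        map_add' := fun _ _ => rfl }
    have hi : Function.Injective i := by
      intro x y hxy
      exact Subtype.ext (congrArg (fun z : quoS B.R => (z : Ω)) hxy)
    refine ⟨P.map i, (Polynomial.map_ne_zero_iff hi).2 hP, ?_⟩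
    rw [aeval_def, eval₂_map]
    rw [aeval_def] at h0
    exact h0
  obtain ⟨w, hw⟩ := LU1.exists_extVal (quoS B.R) Ω (kap h B)
  have hrep : ∀ {f : Ω} {κ : ℝ} {D : ℕ}, B.Rep f κ D → w f = κ := by
    intro f κ D hf
    have hf0 := hf.ne_zero h
    -- write `f = χ(-m) (χ(m) f)`
    have h1 : Con B f κ := by
      obtain ⟨hκ, u, hu, δ, hδ, h0, a, ha, e1⟩ := id hf
      rcases le_total 0 κ with h2 | h2
      · have h3 : B.Rep (1 : Ω) 0 0 := by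
          have := B.rep_χ B.Γ.zero_mem
          rwa [B.χ_zero] at this
        exact ⟨f, hf.mem h2, 1, B.R.one_mem, κ, D, 0, 0, hf, h3, by rw [div_one], by ring⟩
      · have h3 := B.rep_χ (B.Γ.neg_mem hκ)
        have h4 := hf.mul h3
        have h5 : f = f * B.χ (-κ) / B.χ (-κ) := by
          rw [mul_div_cancel_right₀ _ (B.χ_ne _ (B.Γ.neg_mem hκ))]
        refine ⟨f * B.χ (-κ), h4.mem (by linarith), B.χ (-κ),
          B.χ_mem _ (B.Γ.neg_mem hκ) (by linarith), _, _, _, _, h4, h3, h5, by ring⟩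
    have hq : f ∈ quoS B.R := by
      obtain ⟨a, ha, b, hb, κ1, D1, κ2, D2, -, h2, h3, -⟩ := h1
      exact ⟨a, ha, b, hb, h2.ne_zero h, h3⟩
    have h2 := hw ⟨f, hq⟩ (fun h0 => hf0 (congrArg (fun z : quoS B.R => (z : Ω)) h0))
    rw [kap_eq h B ⟨f, hq⟩ h1] at h2
    exact h2
  refine ⟨w, hrep, fun f hf h0 => ?_⟩
  obtain ⟨κ, D, hκ, h1⟩ := B.rep_exists h hf h0
  rw [hrep h1]
  exact hκ

namespace ContVal

variable {B : BF ϖ v} {w : RVal Ω}

theorem χ (hw : ContVal B w) {γ : ℝ} (hγ : γ ∈ B.Γ) : w (B.χ γ) = γ := hw.rep (B.rep_χ hγ)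

theorem y (hw : ContVal B w) : w B.y = 0 := hw.rep B.rep_y

theorem un (hw : ContVal B w) {f : Ω} (hf : B.Un f) : w f = 0 := by
  have h1 := (BF.Mono.un hf).rep
  rw [hf.2.2] at h1
  exact hw.rep h1

/-- An element of `R` of value zero has content zero. -/
theorem of_val_zero (hw : ContVal B w) {f : Ω} (hf : f ∈ B.R) (h0 : f ≠ 0) (h1 : v f = 0) :
    w f = 0 := hw.un ⟨hf, h0, h1⟩

theorem mono (hw : ContVal B w) {f : Ω} (hf : B.Mono f) : w f = v f := hw.rep hf.rep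

end ContVal

/-- Criterion for `reg`. -/
theorem reg_of {w : RVal Ω} {Γ : AddSubgroup ℝ} {χ : ℝ → Ω} {y : Ω} {R : Subalgebra Λ Ω}
    (hy0 : y ≠ 0) (hy : w y = 0) (hχ0 : ∀ γ ∈ Γ, χ γ ≠ 0) (hχ : ∀ γ ∈ Γ, w (χ γ) = γ)
    (hR : ∀ f ∈ R, w.Ge 0 f) :
    ∀ (D : ℕ), ∀ γ ∈ Γ, 0 < γ → ∀ a ∈ R, y ^ D ≠ χ γ * a := by
  intro D γ hγ h0 a ha h1
  have h2 : χ γ * a ≠ 0 := by rw [← h1]; exact pow_ne_zero D hy0
  have ha0 := right_ne_zero_of_mul h2
  have h3 : w (y ^ D) = 0 := by rw [w.map_pow hy0, hy, mul_zero]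
  rw [h1, w.map_mul (hχ0 γ hγ) ha0, hχ γ hγ] at h3
  have := hR a ha ha0
  linarith

/-- `w ≥ 0` on `locv v S`. -/
theorem ge_locv {w : RVal Ω} {S : Subalgebra Λ Ω} (hS : ∀ f ∈ S, w.Ge 0 f)
    (hS0 : ∀ f ∈ S, f ≠ 0 → v f = 0 → w f = 0) : ∀ f ∈ locv v S, w.Ge 0 f := by
  rintro f ⟨a, ha, b, hb, hb0, hvb, rfl⟩ h0
  have ha0 : a ≠ 0 := by
    rintro rfl
    exact h0 (zero_div b)
  rw [w.map_div ha0 hb0, hS0 b hb hb0 hvb, sub_zero]
  exact hS a ha ha0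

end Pool.Agent.LUM
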