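import Pool.Agent.Lib.LUM.KLev

/-! # The element `λ = ζ - 1` -/

set_option autoImplicit false
set_option linter.unusedSectionVars false

open Polynomial

namespace Pool.Agent.LUM

open Pool.Agent.H15JM (RVal)
open Pool.Agent.LU1 (VPos LatData)

universe u

variable {Λ Ω : Type u} [CommRing Λ] [IsDomain Λ] [IsDiscreteValuationRing Λ] [Field Ω]
  [Algebra Λ Ω] {ϖ : Λ} {v : RVal Ω} {r : ℕ}

/-- `h^p + ∑_{0<i<p} c_i h^i`. -/
noncomputable def PP (p : ℕ) (c : ℕ → Ω) (h : Ω) : Ω := h ^ p + ∑ i ∈ Finset.Ico 1 p, c i * h ^ i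

/-- `∑_{0<i<p} d_i h^i`. -/
noncomputable def QQ (p : ℕ) (d : ℕ → Ω) (h : Ω) : Ω := ∑ i ∈ Finset.Ico 1 p, d i * h ^ i

/-- The element `l = ζ - 1` and the polynomial `((1 + l T)^p - 1) / l^p`. -/
structure LamD (p : ℕ) (v : RVal Ω) (l : Ω) (c d : ℕ → Ω) : Prop where
  l_ne : l ≠ 0
  l_pos : 0 < v l
  eq : ∀ h : Ω, (1 + l * h) ^ p = 1 + l ^ p * PP p c h
  c1 : c 1 = -1 + l * d 1
  ci : ∀ i, 2 ≤ i → i < p → c i = l * d i
  mem : ∀ R : Subalgebra Λ Ω, (∀ f ∈ R, f ≠ 0 → v f = 0 → f⁻¹ ∈ R) → l ∈ R → ∀ i, d i ∈ R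
  p_mem : ∀ R : Subalgebra Λ Ω, (∀ f ∈ R, f ≠ 0 → v f = 0 → f⁻¹ ∈ R) → l ∈ R →
    ∃ e ∈ R, (p : Ω) = l * e

theorem Ctx0.vpos_p (h : Ctx0 ϖ v r) (p : ℕ) [CharP (kk Λ) p] : VPos v (p : Ω) := by
  have h1 : (p : Λ) ∈ IsLocalRing.maximalIdeal Λ := by
    rw [← IsLocalRing.residue_eq_zero_iff, map_natCast]
    exact CharP.cast_eq_zero _ _
  have h2 := h.mem_max.1 h1
  rwa [map_natCast] at h2

theorem LamD.pp_eq {p : ℕ} (hp : p.Prime) {l : Ω} {c d : ℕ → Ω} (hc1 : c 1 = -1 + l * d 1)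
    (hci : ∀ i, 2 ≤ i → i < p → c i = l * d i) (h : Ω) :
    PP p c h = h ^ p - h + l * QQ p d h := by
  have h1 := Finset.sum_eq_sum_Ico_succ_bot hp.one_lt (fun i => c i * h ^ i)
  have h2 := Finset.sum_eq_sum_Ico_succ_bot hp.one_lt (fun i => d i * h ^ i)
  have h3 : ∑ i ∈ Finset.Ico (1 + 1) p, c i * h ^ i =
      l * ∑ i ∈ Finset.Ico (1 + 1) p, d i * h ^ i := by
    rw [Finset.mul_sum]
    refine Finset.sum_congr rfl fun i hi => ?_
    obtain ⟨h4, h5⟩ := Finset.mem_Ico.1 hi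
    rw [hci i h4 h5]; ring
  rw [PP, QQ, h1, h2, h3, hc1]
  ring

/-- Existence of the data. -/
theorem exists_lamD (h : Ctx0 ϖ v r) {p : ℕ} (hp : p.Prime) [CharP (kk Λ) p] {ζ : Ω}
    (hζ : IsPrimitiveRoot ζ p) :
    ∃ c d : ℕ → Ω, LamD (Λ := Λ) p v (ζ - 1) c d := by
  obtain ⟨l, hl⟩ : ∃ l, l = ζ - 1 := ⟨_, rfl⟩
  rw [← hl]
  have hζl : ζ = 1 + l := by rw [hl]; ring
  have hl0 : l ≠ 0 := by
    intro h0
    rw [h0, add_zero] at hζl
    rw [hζl] at hζ
    exact hp.one_lt.ne (hζ.unique IsPrimitiveRoot.one).symm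
  have hp0 : (p : ℕ) ≠ 0 := hp.ne_zero
  -- the binomial coefficients
  set b : ℕ → ℕ := fun i => p.choose i / p with hb
  have hb' : ∀ i, 1 ≤ i → i < p → p.choose i = p * b i := fun i h1 h2 =>
    (Nat.mul_div_cancel' (hp.dvd_choose_self (by omega) h2)).symm
  have hb1 : b 1 = 1 := by
    show p.choose 1 / p = 1
    rw [Nat.choose_one_right]
    exact Nat.div_self hp.pos
  -- the expansion of `(1 + l h)^p`
  have hexp : ∀ h : Ω, (1 + l * h) ^ p =
      1 + ∑ i ∈ Finset.Ico 1 p, (p.choose i : Ω) * l ^ i * h ^ i + l ^ p * h ^ p := by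
    intro h
    rw [add_comm 1 (l * h), add_pow, Finset.sum_range_succ, Finset.range_eq_Ico,
      Finset.sum_eq_sum_Ico_succ_bot hp.pos]
    simp only [one_pow, mul_one, pow_zero, Nat.choose_zero_right, Nat.cast_one, Nat.choose_self,
      zero_add, mul_pow]
    congr 2
    refine Finset.sum_congr rfl fun i _ => ?_
    ring
  set s : Ω := ∑ i ∈ Finset.Ico 2 p, (b i : Ω) * l ^ (i - 2) with hs
  have hlp : l ^ p = l ^ (p - 1) * l := by
    rw [← pow_succ, Nat.sub_add_cancel hp.pos]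
  have hkey : (p : Ω) * (1 + l * s) = -l ^ (p - 1) := by
    have h1 := hexp 1
    rw [mul_one, ← hζl, hζ.pow_eq_one] at h1
    simp only [one_pow, mul_one] at h1
    rw [Finset.sum_eq_sum_Ico_succ_bot hp.one_lt, Nat.choose_one_right, pow_one] at h1
    have h2 : ∑ i ∈ Finset.Ico (1 + 1) p, (p.choose i : Ω) * l ^ i = (p : Ω) * l * (l * s) := by
      rw [hs, Finset.mul_sum, Finset.mul_sum]
      refine Finset.sum_congr rfl fun i hi => ?_
      obtain ⟨h4, h5⟩ := Finset.mem_Ico.1 hi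
      rw [hb' i (by omega) h5]
      push_cast
      have h6 : l ^ i = l * l * l ^ (i - 2) := by
        rw [← pow_two, ← pow_add]
        congr 1
        omega
      rw [h6]; ring
    rw [h2, hlp] at h1
    have h3 : l * ((p : Ω) * (1 + l * s) + l ^ (p - 1)) = 0 := by linear_combination -h1
    rcases mul_eq_zero.1 h3 with h4 | h4
    · exact absurd h4 hl0
    · linear_combination h4
  have hlp0 : l ^ (p - 1) ≠ 0 := pow_ne_zero _ hl0
  have hpΩ : (p : Ω) ≠ 0 := by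
    intro h0
    rw [h0, zero_mul] at hkey
    exact hlp0 (by linear_combination hkey)
  have hs0 : 1 + l * s ≠ 0 := by
    intro h0
    rw [h0, mul_zero] at hkey
    exact hlp0 (by linear_combination hkey)
  -- the value of `l`
  have hζ0 : ζ ≠ 0 := hζ.ne_zero hp0
  have hvζ : v ζ = 0 := by
    have h1 := v.map_pow hζ0 p
    rw [hζ.pow_eq_one, v.map_one] at h1
    rcases mul_eq_zero.1 h1.symm with h2 | h2
    · exact absurd (by exact_mod_cast h2) hp0
    · exact h2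
  have hlge : v.Ge 0 l := by
    rw [hl]
    exact RVal.Ge.sub (fun _ => hvζ.ge) (fun _ => v.map_one.ge)
  have hpowge : ∀ n : ℕ, v.Ge 0 (l ^ n) := by
    intro n _
    rw [v.map_pow hl0]
    exact mul_nonneg (Nat.cast_nonneg n) (hlge hl0)
  have hnat : ∀ n : ℕ, v.Ge 0 (n : Ω) := by
    intro n
    have := h.ge (n : Λ)
    rwa [map_natCast] at this
  have hsge : v.Ge 0 s := by
    rw [hs]
    refine RVal.Ge.sum _ _ fun i _ => ?_
    have := (hnat (b i)).mul (hpowge (i - 2))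
    rwa [add_zero] at this
  have hpv : 0 < v (p : Ω) := h.vpos_p p hpΩ
  have hlpos : 0 < v l := by
    have h0 := hlge hl0
    rcases h0.lt_or_eq with h1 | h1
    · exact h1
    exfalso
    have h2 := congrArg v hkey
    rw [v.map_mul hpΩ hs0, v.map_neg _ hlp0, v.map_pow hl0, ← h1, mul_zero] at h2
    have h3 : v.Ge 0 (1 + l * s) := by
      refine RVal.Ge.add (fun _ => v.map_one.ge) ?_
      have := hlge.mul hsge
      rwa [add_zero] at this
    have := h3 hs0
    linarith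
  have hsv : v (1 + l * s) = 0 := by
    by_cases h1 : l * s = 0
    · rw [h1, add_zero, v.map_one]
    · have h2 : v 1 < v (l * s) := by
        have h3 := hsge (right_ne_zero_of_mul h1)
        rw [v.map_one, v.map_mul hl0 (right_ne_zero_of_mul h1)]
        linarith
      rw [(v.add_of_lt one_ne_zero h1 h2).2, v.map_one]
  set ε : Ω := (1 + l * s)⁻¹ with hε
  have hε1 : ε * (1 + l * s) = 1 := inv_mul_cancel₀ hs0
  have hpε : (p : Ω) = -(l ^ (p - 1) * ε) := by
    have h1 := congrArg (fun x => x * ε) hkey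
    beta_reduce at h1
    linear_combination h1 - (p : Ω) * hε1
  set d : ℕ → Ω := fun i => if i = 1 then s * ε else -((b i : Ω) * ε * l ^ (i - 2)) with hd
  set c : ℕ → Ω := fun i => (p.choose i : Ω) / l ^ (p - i) with hc
  have hc' : ∀ i, 1 ≤ i → i < p → c i = -((b i : Ω) * ε * l ^ (i - 1)) := by
    intro i h1 h2
    show (p.choose i : Ω) / l ^ (p - i) = _
    rw [div_eq_iff (pow_ne_zero _ hl0), hb' i h1 h2, Nat.cast_mul, hpε]
    have h3 : l ^ (p - 1) = l ^ (i - 1) * l ^ (p - i) := by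
      rw [← pow_add]
      congr 1
      omega
    rw [h3]; ring
  refine ⟨c, d, hl0, hlpos, ?_, ?_, ?_, ?_, ?_⟩
  · intro h
    rw [hexp, PP, mul_add, Finset.mul_sum, add_assoc, add_comm (∑ i ∈ Finset.Ico 1 p, _) (l ^ p * h ^ p)]
    congr 2
    refine Finset.sum_congr rfl fun i hi => ?_
    obtain ⟨h4, h5⟩ := Finset.mem_Ico.1 hi
    show (p.choose i : Ω) * l ^ i * h ^ i = l ^ p * ((p.choose i : Ω) / l ^ (p - i) * h ^ i)
    have h6 : l ^ p = l ^ i * l ^ (p - i) := by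
      rw [← pow_add]
      congr 1
      omega
    have h7 := pow_ne_zero (p - i) hl0
    rw [h6]
    field_simp
  · rw [hc' 1 le_rfl hp.one_lt]
    show -((b 1 : Ω) * ε * l ^ (1 - 1)) = -1 + l * (if 1 = 1 then s * ε else _)
    rw [if_pos rfl, hb1]
    simp only [Nat.cast_one, one_mul, Nat.sub_self, pow_zero, mul_one]
    linear_combination -hε1
  · intro i h1 h2
    rw [hc' i (by omega) h2]
    show _ = l * (if i = 1 then s * ε else _)
    rw [if_neg (by omega)]
    have h3 : l ^ (i - 1) = l * l ^ (i - 2) := by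
      rw [← pow_succ']
      congr 1
      omega
    rw [h3]; ring
  · intro R hR hlR i
    have hsR : s ∈ R := R.sum_mem fun i _ => R.mul_mem (natCast_mem R _) (R.pow_mem hlR _)
    have hεR : ε ∈ R := hR _ (R.add_mem R.one_mem (R.mul_mem hlR hsR)) hs0 hsv
    show (if i = 1 then s * ε else _) ∈ R
    split_ifs
    · exact R.mul_mem hsR hεR
    · exact R.neg_mem (R.mul_mem (R.mul_mem (natCast_mem R _) hεR) (R.pow_mem hlR _))
  · intro R hR hlR
    have hsR : s ∈ R := R.sum_mem fun i _ => R.mul_mem (natCast_mem R _) (R.pow_mem hlR _)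
    have hεR : ε ∈ R := hR _ (R.add_mem R.one_mem (R.mul_mem hlR hsR)) hs0 hsv
    refine ⟨-(l ^ (p - 2) * ε), R.neg_mem (R.mul_mem (R.pow_mem hlR _) hεR), ?_⟩
    have h3 : l ^ (p - 1) = l * l ^ (p - 2) := by
      rw [← pow_succ']
      congr 1
      have := hp.two_le
      omega
    rw [hpε, h3]; ring

end Pool.Agent.LUM
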