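import Pool.Agent.Lib.LUM.Cls

/-! # Levels -/

set_option autoImplicit false
set_option linter.unusedSectionVars false

open Polynomial

namespace Pool.Agent.LUM

open Pool.Agent.H15JM (RVal)
open Pool.Agent.LU1 (VPos LatData)

universe u

variable {Λ Ω : Type u} [CommRing Λ] [IsDomain Λ] [IsDiscreteValuationRing Λ] [Field Ω]
  [Algebra Λ Ω] {ϖ : Λ} {v : RVal Ω} {r : ℕ}

namespace BF

variable {B B' : BF ϖ v} {W W' : ℝ} {f g : Ω}

theorem Lev.mul' (hf : B.Lev W f) (hg : B.Lev W' g) : B.Lev (W + W') (f * g) := by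
  obtain ⟨γ, hγ, h1, a, ha, rfl⟩ := hf
  obtain ⟨δ, hδ, h2, b, hb, rfl⟩ := hg
  exact ⟨γ + δ, B.Γ.add_mem hγ hδ, add_le_add h1 h2, a * b, B.R.mul_mem ha hb, by
    rw [B.χ_add γ hγ δ hδ]; ring⟩

theorem Lev.sum {ι : Type*} (s : Finset ι) (F : ι → Ω) (h : ∀ i ∈ s, B.Lev W (F i)) :
    B.Lev W (∑ i ∈ s, F i) :=
  Finset.sum_induction _ (B.Lev W) (fun _ _ h1 h2 => h1.add h2) (Lev.zero B W) h

theorem Lev.of_R (hf : f ∈ B.R) : B.Lev 0 f :=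
  ⟨0, B.Γ.zero_mem, le_rfl, f, hf, by rw [B.χ_zero, one_mul]⟩

theorem Lev.of_R' (hf : f ∈ B.R) (hW : W ≤ 0) : B.Lev W f := (Lev.of_R hf).of_le hW

theorem Lev.mem (hf : B.Lev W f) (hW : 0 ≤ W) : f ∈ B.R := by
  obtain ⟨γ, hγ, h1, a, ha, rfl⟩ := hf
  exact B.R.mul_mem (B.χ_mem γ hγ (hW.trans h1)) ha

theorem Lev.vpos (hf : B.Lev W f) (hW : 0 < W) : VPos v f := by
  obtain ⟨γ, hγ, h1, a, ha, rfl⟩ := hf
  exact (B.vpos_χ hγ (hW.trans_le h1)).mul (B.nonneg a ha)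

theorem Lev.mem_mul (hf : f ∈ B.R) (hg : B.Lev W g) : B.Lev W (f * g) := by
  rw [mul_comm]; exact hg.mul hf

theorem Lev.of_mono (hf : B.Mono f) : B.Lev (v f) f := by
  obtain ⟨γ, hγ, u, hu, rfl⟩ := BF.mono_iff.1 hf
  have h1 : v (B.χ γ * u) = γ := by
    rw [v.map_mul (B.χ_ne γ hγ) hu.2.1, B.χ_val γ hγ, hu.2.2, add_zero]
  rw [h1]
  exact ⟨γ, hγ, le_rfl, u, hu.1, rfl⟩

theorem Lev.pow (hf : B.Lev W f) (n : ℕ) : B.Lev (n * W) (f ^ n) := by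
  induction n with
  | zero =>
    rw [pow_zero, Nat.cast_zero, zero_mul]
    exact Lev.of_R B.R.one_mem
  | succ n ih =>
    have h1 := ih.mul' hf
    rw [pow_succ]
    have h2 : ((n + 1 : ℕ) : ℝ) * W = n * W + W := by push_cast; ring
    rwa [h2]

/-- `1 + f` is a unit if `f` has positive level. -/
theorem un_one_add (hf : B.Lev W f) (hW : 0 < W) : B.Un (1 + f) :=
  Un.one.add_vpos (hf.mem hW.le) (hf.vpos hW)

end BF

end Pool.Agent.LUM
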