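import Pool.Agent.Lib.LUM.KExt
import Pool.Agent.Lib.LUM.KErr
import Pool.Agent.Lib.LUM.Etale
import Pool.Agent.Lib.LUM.Rad

/-! # Adjoining a root of a monomial up to something near the old ring; the ascent of type 1 -/

set_option autoImplicit false
set_option linter.unusedSectionVars false

namespace Pool.Agent.LUM

open Pool.Agent.H15JM (RVal)
open Pool.Agent.LU1 (VPos LatData val_add_vpos adj le_adj mem_adj adj_le adj_congr exists_s)
open Polynomial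

universe u

variable {Λ Ω : Type u} [CommRing Λ] [IsDomain Λ] [IsDiscreteValuationRing Λ] [Field Ω]
  [Algebra Λ Ω] {ϖ : Λ} {v : RVal Ω} {r : ℕ}
  {F : Type u} [Field F] [Algebra Λ F] [IsFractionRing Λ F] [Algebra F Ω] [IsScalarTower Λ F Ω]

/-! ### elements near the old ring -/

/-- `t` is an element of the old ring up to something small for `v` and for `κ`. -/
def Near (B : BF ϖ v) (κ : RVal Ω) (t : Ω) : Prop :=
  v.Ge 0 t ∧ κ.Ge 0 t ∧ ∃ t0 ∈ B.R, VPos v (t - t0) ∧ VPos κ (t - t0)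

theorem Near.of_mem {B : BF ϖ v} {κ : RVal Ω} (hκ : ContVal B κ) {t : Ω} (ht : t ∈ B.R) :
    Near B κ t :=
  ⟨B.nonneg t ht, hκ.ge t ht, t, ht, by rw [sub_self]; exact VPos.zero, by
    rw [sub_self]; exact VPos.zero⟩

theorem Near.add {B : BF ϖ v} {κ : RVal Ω} {t t' : Ω} (h : Near B κ t) (h' : Near B κ t') :
    Near B κ (t + t') := by
  obtain ⟨h1, h2, t0, h3, h4, h5⟩ := h
  obtain ⟨h1', h2', t0', h3', h4', h5'⟩ := h'
  refine ⟨h1.add h1', h2.add h2', t0 + t0', B.R.add_mem h3 h3', ?_, ?_⟩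
  · rw [add_sub_add_comm]; exact h4.add h4'
  · rw [add_sub_add_comm]; exact h5.add h5'

theorem Near.mul {B : BF ϖ v} {κ : RVal Ω} (hκ : ContVal B κ) {t t' : Ω} (h : Near B κ t)
    (h' : Near B κ t') : Near B κ (t * t') := by
  obtain ⟨h1, h2, t0, h3, h4, h5⟩ := h
  obtain ⟨h1', h2', t0', h3', h4', h5'⟩ := h'
  have e : t * t' - t0 * t0' = t * (t' - t0') + (t - t0) * t0' := by ring
  refine ⟨by simpa using h1.mul h1', by simpa using h2.mul h2', t0 * t0', B.R.mul_mem h3 h3',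
    ?_, ?_⟩
  · rw [e]; exact (VPos.mul' h1 h4').add (h4.mul (B.nonneg _ h3'))
  · rw [e]; exact (VPos.mul' h2 h5').add (h5.mul (hκ.ge _ h3'))

theorem Near.adjoin {B : BF ϖ v} {κ : RVal Ω} (hκ : ContVal B κ) {S : Set Ω}
    (hS : ∀ t ∈ S, Near B κ t) : ∀ t ∈ Algebra.adjoin Λ S, Near B κ t := by
  intro t ht
  induction ht using Algebra.adjoin_induction with
  | mem x hx => exact hS x hx
  | algebraMap c => exact Near.of_mem hκ (B.R.algebraMap_mem c)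
  | add x y _ _ hx hy => exact hx.add hy
  | mul x y _ _ hx hy => exact hx.mul hκ hy

theorem Near.zero {B : BF ϖ v} {κ : RVal Ω} (hκ : ContVal B κ) {t : Ω} (h : Near B κ t)
    (h0 : t ≠ 0) (hv : v t = 0) : κ t = 0 := by
  obtain ⟨-, -, t0, h3, h4, h5⟩ := h
  have h6 := val_add_vpos h0 hv h4.neg
  have h7 : t + -(t - t0) = t0 := by ring
  rw [h7] at h6
  have h8 := hκ.of_val_zero h3 h6.1 h6.2
  have h9 := (val_add_vpos h6.1 h8 h5).2
  rwa [add_sub_cancel] at h9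

/-- `κ ≥ 0` on the localisation of an algebra generated by elements near the old ring. -/
theorem Near.ge_locv {B : BF ϖ v} {κ : RVal Ω} (hκ : ContVal B κ) {S : Set Ω}
    (hS : ∀ t ∈ S, Near B κ t) : ∀ t ∈ locv v (Algebra.adjoin Λ S), κ.Ge 0 t :=
  LUM.ge_locv (fun t ht => (Near.adjoin hκ hS t ht).2.1)
    fun t ht h0 h1 => (Near.adjoin hκ hS t ht).zero hκ h0 h1

section chi

variable {B : BF ϖ v} {Y w : Ω} {q : ℕ} {s : ℝ → ℤ → ℤ} (hY : Y ≠ 0)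
  (hL : LatData B.Γ (v Y) q s) (hw : Y ^ q = B.χ (q * v Y) * w) {κ : RVal Ω}

include hY hL hw

theorem kap_Yk (hκ : ContVal B κ) (hκw : κ w = 0) : κ Y = v Y := by
  have hw0 := BF.w_ne_zero hY hw
  have h1 := congrArg κ hw
  rw [κ.map_pow hY, κ.map_mul (B.χ_ne _ hL.q_mem) hw0, hκ.χ hL.q_mem, hκw, add_zero] at h1
  have hq : (q : ℝ) ≠ 0 := by exact_mod_cast hL.q_pos.ne'
  exact mul_left_cancel₀ hq h1

theorem kap_chi'k (hκ : ContVal B κ) (hκw : κ w = 0) {γ' : ℝ}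
    (hγ' : γ' ∈ B.Γ ⊔ AddSubgroup.zmultiples (v Y)) : κ (B.chi' Y w s γ') = γ' := by
  obtain ⟨γ, hγ, l, rfl⟩ := BF.mem_sup hγ'
  have hw0 := BF.w_ne_zero hY hw
  rw [BF.chi'_eq hY hL hw hγ,
    κ.map_mul (mul_ne_zero (B.χ_ne γ hγ) (zpow_ne_zero _ hY)) (zpow_ne_zero _ hw0),
    κ.map_mul (B.χ_ne γ hγ) (zpow_ne_zero _ hY), hκ.χ hγ, κ.map_zpow hY, κ.map_zpow hw0,
    kap_Yk hY hL hw hκ hκw, hκw, mul_zero, add_zero]

/-- `reg` for the ring obtained by adjoining `Y`, with the old `y`. -/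
theorem reg_radj (h : Ctx0 ϖ v r)
    (hwk : ∀ κ : RVal Ω, ContVal B κ → κ w = 0 ∧ ∃ t0 ∈ B.R, VPos v (w - t0) ∧ VPos κ (w - t0)) :
    ∀ (D : ℕ), ∀ γ ∈ B.Γ ⊔ AddSubgroup.zmultiples (v Y), 0 < γ → ∀ a ∈ B.radj Y w s,
      B.y ^ D ≠ B.chi' Y w s γ * a := by
  obtain ⟨κ, hκ⟩ := B.exists_contVal h
  obtain ⟨hκw, t0, ht0, hv0, hκ0⟩ := hwk κ hκ
  refine reg_of (w := κ) B.y_ne hκ.y (fun γ hγ => BF.chi'_ne hY hL hw hγ)
    (fun γ hγ => kap_chi'k hY hL hw hκ hκw hγ) (Near.ge_locv hκ ?_)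
  rintro t ((ht | ⟨γ, ⟨hγ, h0⟩, rfl⟩) | rfl)
  · exact Near.of_mem hκ ht
  · have hvχ := BF.chi'_val hY hL hw hγ
    have hκχ := kap_chi'k hY hL hw hκ hκw hγ
    refine ⟨fun _ => by rw [hvχ]; exact h0, fun _ => by rw [hκχ]; exact h0, ?_⟩
    rcases h0.lt_or_eq with h1 | h1
    · refine ⟨0, B.R.zero_mem, ?_, ?_⟩
      · rw [sub_zero]; intro _; rw [hvχ]; exact h1
      · rw [sub_zero]; intro _; rw [hκχ]; exact h1
    · have H := BF.pre_adjoin hY hL hw h B.y B.y_ne B.y_pos (BF.mem_radj B.y_mem)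
      refine ⟨1, B.R.one_mem, ?_, ?_⟩ <;>
      · rw [← h1, H.χ_zero, sub_self]; exact VPos.zero
  · exact ⟨fun _ => (BF.v_w_zero hY hL hw).ge, fun _ => hκw.ge, t0, ht0, hv0, hκ0⟩

end chi

/-- Adjoining `Y` with `Y^ℓ = χ(ℓ v(Y)) w`, `v(Y) > 0`, where `w` is a constant plus an element
of positive value of the new ring. -/
theorem good_adj_ofk (h : Ctx0 ϖ v r) (B : BF ϖ v) (E : IntermediateField F Ω)
    (hE : FracIs B.R E) {q : ℕ} {s : ℝ → ℤ → ℤ} {Y w : Ω} (hY : Y ≠ 0)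
    (hL : LatData B.Γ (v Y) q s) (hw : Y ^ q = B.χ (q * v Y) * w)
    (hwr : Pre v (B.Γ ⊔ AddSubgroup.zmultiples (v Y)) (B.chi' Y w s) B.y (B.radj Y w s) →
      Pre.Res (B.Γ ⊔ AddSubgroup.zmultiples (v Y)) (B.chi' Y w s) B.y (B.radj Y w s) w)
    (hwk : ∀ κ : RVal Ω, ContVal B κ → κ w = 0 ∧
      ∃ t0 ∈ B.R, VPos v (w - t0) ∧ VPos κ (w - t0)) :
    Good ϖ v (adj E Y) := by
  have H := BF.pre_adjoin hY hL hw h B.y B.y_ne B.y_pos (BF.mem_radj B.y_mem)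
  obtain ⟨B', -, -, -, h4⟩ := BF.exists_adjoin hY hL hw h B.y B.y_ne B.y_pos
    (BF.mem_radj B.y_mem) (hwr H) (fun b hb => H.mm_y (BF.mem_radj hb))
    (reg_radj hY hL hw h hwk)
  refine ⟨B', ?_⟩
  rw [h4]
  exact BF.fracIs_radj hY hL hw hL.β_pos hE

/-- The value of `Z` when `PP p c Z` is large. -/
theorem val_of_pp {w : RVal Ω} {p : ℕ} (hp : p.Prime) {c : ℕ → Ω}
    (hc : ∀ i, 1 ≤ i → i < p → w.Ge 0 (c i)) {Z : Ω} (hne : PP p c Z ≠ 0)
    (hneg : w (PP p c Z) < 0) : Z ≠ 0 ∧ w Z < 0 ∧ (p : ℝ) * w Z = w (PP p c Z) := by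
  have hp0 : (0 : ℝ) < p := by exact_mod_cast hp.pos
  have hZge : ¬ w.Ge 0 Z := by
    intro h0
    have h1 : w.Ge 0 (PP p c Z) := by
      have hpow : ∀ i : ℕ, w.Ge 0 (Z ^ i) := by
        intro i
        by_cases hZ : Z = 0
        · subst hZ
          rcases Nat.eq_zero_or_pos i with rfl | hi
          · rw [pow_zero]; exact fun _ => w.map_one.ge
          · rw [zero_pow hi.ne']; exact RVal.Ge.zero
        · intro _
          rw [w.map_pow hZ]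
          exact mul_nonneg (Nat.cast_nonneg i) (h0 hZ)
      refine (hpow p).add (RVal.Ge.sum _ _ fun i hi => ?_)
      obtain ⟨h4, h5⟩ := Finset.mem_Ico.1 hi
      have := (hc i h4 h5).mul (hpow i)
      rwa [add_zero] at this
    have := h1 hne
    linarith
  have hZ0 : Z ≠ 0 := by
    rintro rfl
    exact hZge RVal.Ge.zero
  have hZneg : w Z < 0 := by
    by_contra h0
    exact hZge fun _ => not_lt.1 h0
  refine ⟨hZ0, hZneg, ?_⟩
  by_cases hS : ∑ i ∈ Finset.Ico 1 p, c i * Z ^ i = 0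
  · rw [PP, hS, add_zero, w.map_pow hZ0]
  · have h1 : w.Ge ((p - 1 : ℕ) * w Z) (∑ i ∈ Finset.Ico 1 p, c i * Z ^ i) := by
      refine RVal.Ge.sum _ _ fun i hi => ?_
      obtain ⟨h4, h5⟩ := Finset.mem_Ico.1 hi
      have h2 : w.Ge (0 + i * w Z) (c i * Z ^ i) :=
        (hc i h4 h5).mul (fun _ => by rw [w.map_pow hZ0])
      refine h2.mono ?_
      rw [zero_add]
      refine mul_le_mul_of_nonpos_right ?_ hZneg.le
      exact_mod_cast (by omega : i ≤ p - 1)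
    have h2 : w (Z ^ p) < w (∑ i ∈ Finset.Ico 1 p, c i * Z ^ i) := by
      refine lt_of_lt_of_le ?_ (h1 hS)
      rw [w.map_pow hZ0, Nat.cast_sub hp.one_le, Nat.cast_one]
      linarith
    rw [PP, (w.add_of_lt (pow_ne_zero p hZ0) hS h2).2, w.map_pow hZ0]

/-- `Z^p + ∑ c_i Z^i = χ(κ) u`, `κ < 0`, `κ ∉ p Γ`. -/
theorem k_type1 (h : Ctx0 ϖ v r) (B : BF ϖ v) (E : IntermediateField F Ω)
    (hE : FracIs B.R E) (p : ℕ) (hp : p.Prime) {κ : ℝ} (hκ : κ ∈ B.Γ)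
    (hneg : κ < 0) (hκ' : ¬ ∃ δ ∈ B.Γ, κ = p * δ) (Z u : Ω) (hu : B.Un u) (c : ℕ → Ω)
    (hc : ∀ i, 1 ≤ i → i < p → c i ∈ B.R) (hZ : PP p c Z = B.χ κ * u) :
    Good ϖ v (adj E Z) := by
  have hp0 : (0 : ℝ) < p := by exact_mod_cast hp.pos
  have hp1 : (1 : ℝ) < p := by exact_mod_cast hp.one_lt
  have hne : PP p c Z ≠ 0 := by
    rw [hZ]; exact mul_ne_zero (B.χ_ne κ hκ) hu.2.1
  have hvZ : v (PP p c Z) = κ := by
    rw [hZ, v.map_mul (B.χ_ne κ hκ) hu.2.1, B.χ_val κ hκ, hu.2.2, add_zero]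
  obtain ⟨hZ0, hZneg, hv⟩ := val_of_pp (w := v) hp (fun i h1 h2 => B.nonneg _ (hc i h1 h2)) hne
    (by rw [hvZ]; exact hneg)
  rw [hvZ] at hv
  -- `Y = Z⁻¹`
  have hadj : adj E Z = adj E Z⁻¹ := by
    refine adj_congr ?_ ((adj E Z).inv_mem (mem_adj E Z))
    have := (adj E Z⁻¹).inv_mem (mem_adj E Z⁻¹)
    rwa [inv_inv] at this
  rw [hadj]
  obtain ⟨Y, hYdef⟩ : ∃ Y, Y = Z⁻¹ := ⟨_, rfl⟩
  rw [← hYdef]
  have hY0 : Y ≠ 0 := by rw [hYdef]; exact inv_ne_zero hZ0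
  have hYZ : Y * Z = 1 := by rw [hYdef]; exact inv_mul_cancel₀ hZ0
  have hvY : v Y = - v Z := by rw [hYdef]; exact v.map_inv hZ0
  have hβ : 0 < v Y := by rw [hvY]; linarith
  have hpβ : (p : ℝ) * v Y = -κ := by rw [hvY]; linarith
  obtain ⟨s, hL⟩ := exists_latData_prime B p hp hβ (by rw [hpβ]; exact B.Γ.neg_mem hκ) (by
    intro h1
    rw [hvY] at h1
    refine hκ' ⟨v Z, ?_, hv.symm⟩
    have := B.Γ.neg_mem h1
    rwa [neg_neg] at this)
  set Sg : Ω := ∑ i ∈ Finset.Ico 1 p, c i * Y ^ (p - i - 1) with hSg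
  set w : Ω := u⁻¹ + Y * (u⁻¹ * Sg) with hwdef
  have hw : Y ^ p = B.χ (p * v Y) * w := by
    rw [hpβ, B.χ_neg hκ]
    have hχ0 := B.χ_ne κ hκ
    have hu0 := hu.2.1
    have h1 : Y ^ p * PP p c Z = 1 + Y * Sg := by
      rw [PP, mul_add, ← mul_pow, hYZ, one_pow, Finset.mul_sum, hSg, Finset.mul_sum]
      congr 1
      refine Finset.sum_congr rfl fun i hi => ?_
      obtain ⟨h4, h5⟩ := Finset.mem_Ico.1 hi
      have h6 : Y ^ p = Y * Y ^ (p - i - 1) * Y ^ i := by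
        rw [← pow_succ', ← pow_add]
        congr 1
        omega
      have h7 : Y ^ i * Z ^ i = 1 := by rw [← mul_pow, hYZ, one_pow]
      rw [h6]
      linear_combination (c i * Y * Y ^ (p - i - 1)) * h7
    rw [hZ] at h1
    have h2 : w = (1 + Y * Sg) * u⁻¹ := by rw [hwdef]; ring
    rw [h2, ← h1]
    field_simp
  have hSgge : ∀ k : RVal Ω, (∀ f ∈ B.R, k.Ge 0 f) → 0 < k Y → k.Ge 0 Sg := by
    intro k hk hkY
    refine RVal.Ge.sum _ _ fun i hi => ?_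
    obtain ⟨h4, h5⟩ := Finset.mem_Ico.1 hi
    have h6 : k.Ge 0 (Y ^ (p - i - 1)) := fun _ => by
      rw [k.map_pow hY0]
      exact mul_nonneg (Nat.cast_nonneg _) hkY.le
    have := (hk _ (hc i h4 h5)).mul h6
    rwa [add_zero] at this
  refine good_adj_ofk h B E hE hY0 hL hw (fun H => ?_) ?_
  · have hYR := BF.Y_mem_radj hY0 hL hw hβ
    have hwz := BF.wz_mem_radj (s := s) hY0 hw (BF.v_w_zero hY0 hL hw)
    have hmmY : MM (B.Γ ⊔ AddSubgroup.zmultiples (v Y)) (B.chi' Y w s) B.y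
        (B.radj Y w s) Y := by
      have h1 := H.mm_χ (AddSubgroup.mem_sup_right (AddSubgroup.mem_zmultiples (v Y))) hβ
        (hwz (s 0 1))
      rwa [← BF.Y_eq hY0 hL hw] at h1
    have hures := BF.res_adjoin hY0 hL hw h H (fun b hb => H.mm_y (BF.mem_radj hb)) hu.inv.1
    have hSgR : Sg ∈ B.radj Y w s := by
      refine (B.radj Y w s).sum_mem fun i hi => ?_
      obtain ⟨h4, h5⟩ := Finset.mem_Ico.1 hi
      exact (B.radj Y w s).mul_mem (BF.mem_radj (hc i h4 h5)) ((B.radj Y w s).pow_mem hYR _)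
    have h2 := H.mm_mul hmmY ((B.radj Y w s).mul_mem (BF.mem_radj hu.inv.1) hSgR)
    exact H.res_add hures (H.res_of_mm h2)
  · intro k hk
    have hkneg : k (PP p c Z) < 0 := by
      rw [hZ, k.map_mul (B.χ_ne κ hκ) hu.2.1, hk.χ hκ, hk.un hu, add_zero]
      exact hneg
    obtain ⟨-, hkZ, -⟩ := val_of_pp (w := k) hp (fun i h1 h2 => hk.ge _ (hc i h1 h2)) hne hkneg
    have hkY : 0 < k Y := by
      rw [hYdef, k.map_inv hZ0]
      linarith
    have hpos : ∀ k' : RVal Ω, (∀ f ∈ B.R, k'.Ge 0 f) → 0 < k' Y →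
        VPos k' (Y * (u⁻¹ * Sg)) := by
      intro k' hk' hk'Y
      refine VPos.mul (fun _ => hk'Y) ?_
      have := (hk' _ hu.inv.1).mul (hSgge k' hk' hk'Y)
      rwa [add_zero] at this
    refine ⟨(val_add_vpos hu.inv.2.1 (hk.un hu.inv) (hpos k hk.ge hkY)).2, u⁻¹, hu.inv.1, ?_, ?_⟩
    · rw [hwdef, add_sub_cancel_left]
      exact hpos v B.nonneg hβ
    · rw [hwdef, add_sub_cancel_left]
      exact hpos k hk.ge hkY

end Pool.Agent.LUM
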