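import Pool.Agent.Lib.LU1_h15.ASChain

/-! # The exponents of `H` in `P = G + (H^p - H) + E` -/

set_option autoImplicit false
set_option linter.unusedSectionVars false

open Polynomial

namespace Pool.Agent.LUM

open LU1 (Lau mon co)

universe u

variable {k : Type u} [Field k]

theorem part_self {P : (LU1.Lau k)[X]} {S : Finset (ℝ × ℕ)}
    (hS : ∀ a : ℝ × ℕ, a ∈ S ↔ LU1.co P a.1 a.2 ≠ 0) : LU1.R1.part P S = P := by
  classical
  refine LU1.co_ext fun γ l => ?_
  rw [LU1.R1.co_part]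
  by_cases h : (γ, l) ∈ S
  · rw [if_pos h]
  · rw [if_neg h]
    by_contra h1
    exact h ((hS (γ, l)).2 (Ne.symm h1))

theorem H_ge (p : ℕ) (hp : p.Prime) [CharP k p] {P G H E : (LU1.Lau k)[X]} {κ : ℝ} (hκ : κ < 0)
    (heq : P = G + (H ^ p - H) + E) (hP : ∀ γ l, LU1.co P γ l ≠ 0 → κ ≤ γ)
    (hG : ∀ γ l, LU1.co G γ l ≠ 0 → κ ≤ γ) (hE : ∀ γ l, LU1.co E γ l ≠ 0 → 0 ≤ γ) :
    ∀ γ l, LU1.co H γ l ≠ 0 → κ / p ≤ γ := by
  classical
  have : Fact p.Prime := ⟨hp⟩
  have : CharP (LU1.Lau k) p :=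
    charP_of_injective_algebraMap (algebraMap k (LU1.Lau k)).injective p
  have hp0 : (0 : ℝ) < p := by exact_mod_cast hp.pos
  have hp1 : (1 : ℝ) < p := by exact_mod_cast hp.one_lt
  intro γ l h0
  by_contra hlt
  rw [not_le] at hlt
  obtain ⟨S, hS⟩ := LU1.exists_suppAS H
  obtain ⟨a, ha, hmin⟩ := Finset.exists_min_image S (fun a => a.1) ⟨(γ, l), (hS _).2 h0⟩
  have ha0 := (hS a).1 ha
  have ha1 : a.1 < κ / p := lt_of_le_of_lt (hmin (γ, l) ((hS _).2 h0)) hlt
  have hκp : κ / p < 0 := div_neg_of_neg_of_pos hκ hp0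
  have hpa : p * a.1 < κ := by
    rw [lt_div_iff₀ hp0] at ha1
    linarith
  have hpa' : p * a.1 < a.1 := by nlinarith
  -- the coefficient of `H^p`
  have hHp : LU1.co (H ^ p) (p * a.1) (a.2 * p) = LU1.co H a.1 a.2 ^ p := by
    have h1 : H ^ p = ∑ b ∈ S, monomial (b.2 * p) (LU1.mon (p * b.1) (LU1.co H b.1 b.2 ^ p)) := by
      conv_lhs => rw [← part_self hS]
      unfold LU1.R1.part
      rw [sum_pow_char]
      refine Finset.sum_congr rfl fun b _ => ?_
      rw [monomial_pow, LU1.A3.mon_pow]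
    rw [h1, LU1.R1.co_sum]
    rw [Finset.sum_eq_single a]
    · rw [LU1.R1.co_monomial, if_pos rfl]
    · intro b _ hne
      rw [LU1.R1.co_monomial, if_neg]
      intro h2
      apply hne
      rw [Prod.ext_iff] at h2
      have h3 : p * b.1 = p * a.1 := h2.1
      have h4 : b.2 * p = a.2 * p := h2.2
      exact Prod.ext (mul_left_cancel₀ hp0.ne' h3) (Nat.eq_of_mul_eq_mul_right hp.pos h4)
    · intro h2
      exact absurd ha h2
  have hH0 : LU1.co H (p * a.1) (a.2 * p) = 0 := by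
    by_contra h1
    have := hmin (p * a.1, a.2 * p) ((hS _).2 h1)
    exact absurd this (not_le.2 hpa')
  have hP0 : LU1.co P (p * a.1) (a.2 * p) = 0 := by
    by_contra h1
    exact absurd (hP _ _ h1) (not_le.2 hpa)
  have hG0 : LU1.co G (p * a.1) (a.2 * p) = 0 := by
    by_contra h1
    exact absurd (hG _ _ h1) (not_le.2 hpa)
  have hE0 : LU1.co E (p * a.1) (a.2 * p) = 0 := by
    by_contra h1
    have := hE _ _ h1
    linarith
  rw [heq, LU1.co_add, LU1.co_add, LU1.co_sub, hHp, hH0, hG0, hE0, sub_zero, zero_add,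
    add_zero] at hP0
  exact ha0 (pow_eq_zero_iff hp.ne_zero |>.1 hP0)

end Pool.Agent.LUM
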