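import Pool.Agent.Lib.LUM.KApx

/-! # One step of the cleaning of a Kummer class -/

set_option autoImplicit false
set_option linter.unusedSectionVars false

open Polynomial

namespace Pool.Agent.LUM

open Pool.Agent.H15JM (RVal)
open Pool.Agent.LU1 (VPos LatData)

universe u

variable {Λ Ω : Type u} [CommRing Λ] [IsDomain Λ] [IsDiscreteValuationRing Λ] [Field Ω]
  [Algebra Λ Ω] {ϖ : Λ} {v : RVal Ω} {r : ℕ}
  {F : Type u} [Field F] [Algebra Λ F] [IsFractionRing Λ F] [Algebra F Ω] [IsScalarTower Λ F Ω]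

/-- A window `[k0, W)`. -/
structure Wdw (p : ℕ) (ϖ : Λ) (v : RVal Ω) (l : Ω) (k0 W η : ℝ) : Prop where
  neg : k0 < 0
  W0 : W ≤ 0
  k0W : k0 ≤ W
  η_pos : 0 < η
  η_le : η ≤ p * v l + k0
  Wpi : W ≤ k0 + v (algebraMap Λ Ω ϖ)
  Wl : W ≤ k0 + min (v l) η

theorem BF.χ_mem_E (B : BF ϖ v) {E : IntermediateField F Ω} (hE : FracIs B.R E) {γ : ℝ}
    (h : γ ∈ B.Γ) : B.χ γ ∈ E := by
  rcases le_total 0 γ with h0 | h0
  · exact hE.1 _ (B.χ_mem γ h h0)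
  · have h1 := hE.1 _ (B.χ_mem (-γ) (B.Γ.neg_mem h) (neg_nonneg.2 h0))
    rw [B.χ_neg h] at h1
    have := E.inv_mem h1
    rwa [inv_inv] at this

theorem BF.mono_mem_E (B : BF ϖ v) {E : IntermediateField F Ω} (hE : FracIs B.R E) {f : Ω}
    (h : B.Mono f) : f ∈ E := by
  obtain ⟨γ, hγ, u, hu, rfl⟩ := BF.mono_iff.1 h
  exact E.mul_mem (B.χ_mem_E hE hγ) (hE.1 u hu.1)

theorem BF.ev_mem_E (B : BF ϖ v) {E : IntermediateField F Ω} (hE : FracIs B.R E)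
    {P : (Lau Λ)[X]} (hP : SuppIn B.Γ P) : B.ev P ∈ E := by
  rw [B.ev_eq]
  refine E.sum_mem fun l _ => E.sum_mem fun γ hγ => ?_
  have h1 : algebraMap Λ Ω (co P γ l) ∈ E := by
    rw [IsScalarTower.algebraMap_apply Λ F Ω]
    exact E.algebraMap_mem _
  exact E.mul_mem (E.mul_mem h1 (B.χ_mem_E hE (hP γ l (Finsupp.mem_support_iff.1 hγ))))
    (_root_.pow_mem (hE.1 _ B.y_mem) l)

/-- Reduction of the polynomial of a class. -/
theorem Apx.reduce (h : Ctx0 ϖ v r) {p : ℕ} (hp : p.Prime) [CharP (kk Λ) p] {B : BF ϖ v}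
    {l : Ω} (hl : B.Mono l) {c d : ℕ → Ω} (hL : LamD (Λ := Λ) p v l c d)
    {E : IntermediateField F Ω} (hE : FracIs B.R E) {k0 W η : ℝ} (hW : Wdw p ϖ v l k0 W η)
    {f G : Ω} (hf : Kcl p l E f G) {P G1 H R : (LU1.Lau (kk Λ))[X]} (hP : Apx B k0 W P G)
    (hG1 : LU1.SuppIn B.Γ G1) (hH : LU1.SuppIn B.Γ H) (hR : LU1.SuppIn B.Γ R)
    (heq : P = G1 + (H ^ p - H) + R) (hG1low : ∀ γ l, LU1.co G1 γ l ≠ 0 → k0 ≤ γ)
    (hR0 : ∀ γ l, LU1.co R γ l ≠ 0 → 0 ≤ γ) :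
    ∃ G', Kcl p l E f G' ∧ Apx B k0 W G1 G' := by
  have hp0 : (0 : ℝ) < p := by exact_mod_cast hp.pos
  have hp1 : (1 : ℝ) < p := by exact_mod_cast hp.one_lt
  have hHlow := H_ge p hp hW.neg heq hP.low hG1low hR0
  obtain ⟨Ph, hP1, hP2⟩ := exists_lift P
  obtain ⟨Gh, hG11, hG12⟩ := exists_lift G1
  obtain ⟨Hh, hH1, hH2⟩ := exists_lift H
  obtain ⟨Rh, hR1, hR2⟩ := exists_lift R
  have hPL : Lift P Ph := ⟨hP1, hP2⟩
  have hGL : Lift G1 Gh := ⟨hG11, hG12⟩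
  have hHL : Lift H Hh := ⟨hH1, hH2⟩
  have hRL : Lift R Rh := ⟨hR1, hR2⟩
  have hPs := hPL.supp hP.supp
  have hGs := hGL.supp hG1
  have hHs := hHL.supp hH
  have hRs := hRL.supp hR
  have hHps := EvalAux.suppIn_pow hHs p
  have hk0p : k0 ≤ k0 / p := by
    rw [le_div_iff₀ hp0]
    have := hW.neg
    nlinarith
  have hHl : Low (k0 / p) Hh := hHL.low hHlow
  have hHpl : Low k0 (Hh ^ p) := by
    have h1 := hHl.pow p
    rwa [mul_div_cancel₀ _ hp0.ne'] at h1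
  -- the difference has reduction zero
  have hD : B.Lev W (B.ev (Ph - Gh - (Hh ^ p - Hh) - Rh)) := by
    refine B.lev_ev_red h (((hPs.sub hGs).sub (hHps.sub hHs)).sub hRs) (k0 := k0)
      ((((hPL.low hP.low).sub (hGL.low hG1low)).sub (hHpl.sub (hHl.of_le hk0p))).sub
        ((hRL.low hR0).of_le hW.neg.le)) ?_ hW.Wpi
    rw [red_sub, red_sub, red_sub, red_sub, red_pow, hP1, hG11, hH1, hR1, heq]
    ring
  have hev : B.ev (Ph - Gh - (Hh ^ p - Hh) - Rh) =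
      B.ev Ph - B.ev Gh - (B.ev Hh ^ p - B.ev Hh) - B.ev Rh := by
    rw [B.ev_sub, B.ev_sub, B.ev_sub, B.ev_sub, EvalAux.ev_pow B hHs]
  rw [hev] at hD
  have hRR : B.Lev W (B.ev Rh) := (B.lev_ev0 hRs (hRL.low hR0)).of_le hW.W0
  have hh : B.Lev (k0 / p) (B.ev Hh) := B.lev_ev0 hHs hHl
  have hG : B.Lev k0 G := hP.lev hW.k0W
  obtain ⟨hU, herr⟩ := hL.err hp hl hW.neg hW.η_pos hW.η_le hG hh
  refine ⟨_, hf.shift hL (B.mono_mem_E hE hl) (B.ev_mem_E hE hHs) hU.2.1, ?_⟩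
  refine Apx.of_lift h hW.Wpi hG11 hGs (hGL.low hG1low) ?_
  have h1 := (((herr.of_le hW.Wl).add (hP.err Ph hPL)).add hD).add hRR
  have h2 : (G - PP p c (B.ev Hh)) / (1 + l * B.ev Hh) ^ p - (G - (B.ev Hh ^ p - B.ev Hh)) +
      (G - B.ev Ph) + (B.ev Ph - B.ev Gh - (B.ev Hh ^ p - B.ev Hh) - B.ev Rh) + B.ev Rh =
      (G - PP p c (B.ev Hh)) / (1 + l * B.ev Hh) ^ p - B.ev Gh := by ring
  rwa [h2] at h1

/-- The states of the cleaning. -/
structure KInv (p : ℕ) (B0 : BF ϖ v) (E : IntermediateField F Ω) (l f : Ω) (k0 W : ℝ)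
    (B : BF ϖ v) (P : (LU1.Lau (kk Λ))[X]) : Prop where
  reach : Reach B0 B
  red : ∀ γ l, LU1.co P γ l ≠ 0 → γ < 0 ∧ LU1.Vis p B.Γ γ l
  cls : ∃ G, Kcl p l E f G ∧ Apx B k0 W P G

theorem KInv.supp {p : ℕ} {B0 : BF ϖ v} {E : IntermediateField F Ω} {l f : Ω} {k0 W : ℝ}
    {B : BF ϖ v} {P : (LU1.Lau (kk Λ))[X]} (hI : KInv p B0 E l f k0 W B P) :
    LU1.SuppIn B.Γ P := by
  obtain ⟨G, -, hG⟩ := hI.cls
  exact hG.supp

theorem KInv.low {p : ℕ} {B0 : BF ϖ v} {E : IntermediateField F Ω} {l f : Ω} {k0 W : ℝ}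
    {B : BF ϖ v} {P : (LU1.Lau (kk Λ))[X]} (hI : KInv p B0 E l f k0 W B P) :
    ∀ γ l, LU1.co P γ l ≠ 0 → k0 ≤ γ := by
  obtain ⟨G, -, hG⟩ := hI.cls
  exact hG.low

/-- The data of a step which does not decrease the order. -/
structure KKeep (p : ℕ) (B B' : BF ϖ v) (P P' : (LU1.Lau (kk Λ))[X]) (c : kk Λ) (κ κ' : ℝ)
    (D : ℕ) : Prop where
  y_mem : v B.y ∈ B.Γ
  Γ_eq : B'.Γ = B.Γ
  c_ne : c ≠ 0
  κ_eq : κ' = κ + D * v B.y
  ge : ∀ γ l, LU1.co P γ l ≠ 0 → κ' ≤ γ + l * v B.y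
  deg : P'.natDegree ≤ P.natDegree
  rel : ∃ H R : (LU1.Lau (kk Λ))[X], LU1.SuppIn B.Γ H ∧ LU1.SuppIn B.Γ R ∧
    H.natDegree ≤ P.natDegree ∧ (∀ γ l, LU1.co R γ l ≠ 0 → 0 ≤ γ) ∧
    P.comp (C (LU1.mon (v B.y) 1) * (C (LU1.mon 0 c) + X)) = P' + (H ^ p - H) + R

/-- One step. -/
theorem KInv.step (h : Ctx ϖ v r) {p : ℕ} (hp : p.Prime) [CharP (kk Λ) p] [IsAlgClosed (kk Λ)]
    {B0 B : BF ϖ v} {l : Ω} (hl : B.Mono l) {c d : ℕ → Ω} (hL : LamD (Λ := Λ) p v l c d)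
    {E : IntermediateField F Ω} (hE : FracIs B.R E) {k0 W η : ℝ} (hW : Wdw p ϖ v l k0 W η)
    {f : Ω} {P : (LU1.Lau (kk Λ))[X]} (hI : KInv p B0 E l f k0 W B P) {κ : ℝ} {D : ℕ}
    (hLD : LU1.IsLD (LU1.Vis p B.Γ) P 0 κ D) (hD : 2 ≤ D) :
    ∃ (B' : BF ϖ v) (P' : (LU1.Lau (kk Λ))[X]), Ext B B' ∧ KInv p B0 E l f k0 W B' P' ∧
      (P' = 0 ∨ ∃ κ' D', LU1.IsLD (LU1.Vis p B'.Γ) P' 0 κ' D' ∧ D' ≤ D ∧
        (D' = D → ∃ c, KKeep p B B' P P' c κ κ' D)) := by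
  obtain ⟨S, hS⟩ := LU1.exists_suppAS P
  obtain ⟨B', q, cc, s, hT, hs, hq⟩ := B.exists_tstep h S
    (fun a ha => hI.supp _ _ ((hS a).1 ha)) (-1) (Or.inr rfl)
  set V : ℝ → ℕ → Prop := fun γ l => γ + l * v B.y < 0 with hV
  have hA : ∀ γ l, LU1.co (LU1.pf V P) γ l ≠ 0 → 0 ≤ s γ l := by
    intro γ l h1
    obtain ⟨h2, h3⟩ := LU1.co_pf_ne h1
    refine hs (γ, l) ((hS _).2 h3) ?_
    have h4 : γ + l * v B.y < 0 := h2
    show 0 < -1 * (γ + l * v B.y)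
    linarith
  set cr : kk Λ := IsLocalRing.residue Λ cc with hcr
  have hcr0 : cr ≠ 0 := IsLocalRing.residue_ne_zero_iff_isUnit cc |>.2 hT.c_un
  set A := LU1.pf V P with hAdef
  have hAsupp : LU1.SuppIn B.Γ A := hI.supp.pf V
  have hβ := B.y_pos
  have hA2 : LU1.SuppIn B'.Γ (LU1.tpoly (v B.y) cr s A) := by
    rw [hT.Γ_eq]
    exact hAsupp.tpoly
  obtain ⟨G1, H, R, hG1, hH, hR, heq, hred, hR0, hHd, hGd, hκ⟩ :=
    LU1.as_reduce p hp B'.Γ B'.fg (LU1.tpoly (v B.y) cr s A) hA2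
  have hE' : FracIs B'.R E := hT.ext.fracIs hE
  have hInv : KInv p B0 E l f k0 W B' G1 := by
    obtain ⟨G, hfG, hG⟩ := hI.cls
    have h1 := Apx.polar h.toCtx0 hT hW.Wpi hW.W0 hG hA
    have hlow1 : ∀ γ l, LU1.co G1 γ l ≠ 0 → k0 ≤ γ := (hκ k0 hW.neg h1.low).1
    refine ⟨hI.reach.tail ⟨q, cc, s, hT⟩, hred, ?_⟩
    exact Apx.reduce h.toCtx0 hp (hT.ext.mono hl) hL hE' hW hfG h1 hG1 hH hR heq hlow1 hR0
  refine ⟨B', G1, hT.ext, hInv, ?_⟩
  by_cases hA0 : A = 0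
  · left
    by_contra hG0
    obtain ⟨γ, l, hγ⟩ := LU1.exists_co_ne hG0
    have hγ0 := (hred γ l hγ).1
    have hzero : LU1.tpoly (v B.y) cr s A = 0 := by
      rw [hA0]
      simp [LU1.tpoly]
    have h1 := (hκ (γ / 2) (by linarith) (fun γ' l' h0 => by
      rw [hzero, LU1.co_zero] at h0
      exact absurd rfl h0)).1 γ l hγ
    linarith
  · right
    have hAred : ∀ γ l, LU1.co A γ l ≠ 0 → γ + l * v B.y < 0 ∧ LU1.co P γ l ≠ 0 :=
      fun γ l h0 => LU1.co_pf_ne h0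
    have hAvis : ∀ γ l, LU1.co A γ l ≠ 0 → LU1.Vis p B.Γ γ l := fun γ l h0 =>
      (hI.red γ l (hAred γ l h0).2).2
    obtain ⟨κ1, D1, hLD1⟩ := LU1.exists_IsLD (LU1.Vis p B.Γ) A 0 (by
      obtain ⟨γ, l, h0⟩ := LU1.exists_co_ne hA0
      exact ⟨γ, l, h0, hAvis γ l h0⟩)
    have hco1 : LU1.co A κ1 D1 ≠ 0 := by
      have := hLD1.2.2.1
      rwa [mul_zero, sub_zero] at this
    have hneg1 : κ1 + D1 * v B.y < 0 := (hAred _ _ hco1).1
    have hκ1 : κ ≤ κ1 := by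
      have h1 := (hAred _ _ hco1).2
      have := hLD.1 _ _ h1 (hI.red _ _ h1).2
      rwa [mul_zero, add_zero] at this
    have hcase : (κ1 = κ ∧ D1 = D) ∨ D1 < D := by
      rcases lt_or_ge (κ + D * v B.y) 0 with h1 | h1
      · left
        have h2 : LU1.IsLD (LU1.Vis p B.Γ) A 0 κ D := by
          refine ⟨fun γ l h0 hv => hLD.1 γ l (hAred γ l h0).2 hv,
            fun γ l h0 hv hl => hLD.2.1 γ l (hAred γ l h0).2 hv hl, ?_, hLD.2.2.2⟩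
          have h3 := hLD.2.2.1
          rw [mul_zero, sub_zero] at h3 ⊢
          rw [hAdef, LU1.co_pf_of (show V κ D from h1)]
          exact h3
        exact hLD1.unique h2
      · right
        by_contra hcon
        push Not at hcon
        have h2 : (D : ℝ) * v B.y ≤ D1 * v B.y :=
          mul_le_mul_of_nonneg_right (by exact_mod_cast hcon) hβ.le
        linarith
    have hD1 : D1 ≤ D := by
      rcases hcase with ⟨-, h1⟩ | h1
      · exact h1.le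
      · exact h1.le
    obtain ⟨κ', D', hLD', hmin, hκ'1, hD'1, hq2, -, hκ'2⟩ := LU1.DD_vis p hp hT.latData hcr0
      hAsupp (fun γ l h0 _ _ => hA γ l h0) hLD1
    have hκ'neg : κ' < 0 := lt_of_le_of_lt hκ'1 hneg1
    have hmin' : ∀ γ l, LU1.co A γ l ≠ 0 → κ' ≤ γ + l * v B.y := fun γ l h0 =>
      hmin γ l h0 (hAvis γ l h0)
    obtain ⟨-, hLDG⟩ := hκ κ' hκ'neg (LU1.tpoly_ge hmin')
    have hLDG' : LU1.IsLD (LU1.Vis p B'.Γ) G1 0 κ' D' := by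
      apply hLDG
      rw [hT.Γ_eq]
      exact hLD'
    have hD'D : D' ≤ D := hD'1.trans (max_le hD1 (by omega))
    refine ⟨κ', D', hLDG', hD'D, fun hDD => ?_⟩
    -- the order is the same
    have hD1D : D1 = D := by
      have : D' ≤ D1 ∨ D' ≤ 1 := le_max_iff.1 hD'1
      omega
    have hκ1κ : κ1 = κ := by
      rcases hcase with h1 | h1
      · exact h1.1
      · omega
    have hq1 : q = 1 := by
      have h1 := hT.q_pos
      by_contra hcon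
      have := hq2 (by omega) (by omega)
      omega
    have hyΓ : v B.y ∈ B.Γ := by
      have := hT.q_mem
      rw [hq1, Nat.cast_one, one_mul] at this
      exact this
    have hΓ : B'.Γ = B.Γ := by rw [hT.Γ_eq, LU1.sup_zmultiples_eq hyΓ]
    have hsl : ∀ γ l, LU1.co A γ l ≠ 0 → s γ l = l := fun γ l h0 => hq hq1 γ (hAsupp γ l h0) l
    have htp : LU1.tpoly (v B.y) cr s A =
        A.comp (C (LU1.mon (v B.y) 1) * (C (LU1.mon 0 cr) + X)) :=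
      LU1.tpoly_one (v B.y) cr s A hsl
    have hdeg : (LU1.tpoly (v B.y) cr s A).natDegree ≤ P.natDegree := by
      rw [htp]
      exact (LU1.natDegree_comp_step_le A _ cr).trans (LU1.natDegree_pf_le V P)
    refine ⟨cr, hyΓ, hΓ, hcr0, ?_, ?_, hGd.trans hdeg, ?_⟩
    · rw [hκ'2 (by omega) (by omega), hκ1κ, hD1D]
    · intro γ l h0
      rcases lt_or_ge (γ + l * v B.y) 0 with h1 | h1
      · refine hmin' γ l ?_
        rw [hAdef, LU1.co_pf_of (show V γ l from h1)]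
        exact h0
      · exact hκ'neg.le.trans h1
    · set N := LU1.pf (fun γ l => ¬ V γ l) P with hN
      have hNsupp : LU1.SuppIn B.Γ N := hI.supp.pf _
      refine ⟨H, R + N.comp (C (LU1.mon (v B.y) 1) * (C (LU1.mon 0 cr) + X)), ?_, ?_, ?_, ?_, ?_⟩
      · rwa [hΓ] at hH
      · rw [hΓ] at hR
        exact hR.add (hNsupp.comp_step hyΓ cr)
      · refine le_trans ?_ (hHd.trans hdeg)
        exact Nat.le_mul_of_pos_left _ hp.pos
      · intro γ l h0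
        rw [LU1.co_add] at h0
        by_cases h1 : LU1.co R γ l = 0
        · rw [h1, zero_add] at h0
          refine LU1.comp_step_ge cr (fun γ' l' h2 => ?_) γ l h0
          exact not_lt.1 (LU1.co_pf_ne h2).1
        · exact hR0 γ l h1
      · have h1 : P = A + N := (LU1.pf_add_pf V P).symm
        have h2 : P.comp (C (LU1.mon (v B.y) 1) * (C (LU1.mon 0 cr) + X)) =
            A.comp (C (LU1.mon (v B.y) 1) * (C (LU1.mon 0 cr) + X)) +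
              N.comp (C (LU1.mon (v B.y) 1) * (C (LU1.mon 0 cr) + X)) := by
          rw [← add_comp, ← h1]
        rw [h2, ← htp, heq]
        ring

end Pool.Agent.LUM
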