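import Pool.Agent.Lib.LUM.KRad

/-! # Type 2 ascent: `Z^p + ∑ a_i Z^i = ỹ`, `a_i ∈ I` -/

set_option autoImplicit false
set_option linter.unusedSectionVars false

namespace Pool.Agent.LUM

open Pool.Agent.H15JM (RVal)
open Pool.Agent.LU1 (VPos LatData val_add_vpos adj le_adj mem_adj adj_le adj_congr)
open Polynomial

universe u

variable {Λ Ω : Type u} [CommRing Λ] [IsDomain Λ] [IsDiscreteValuationRing Λ] [Field Ω]
  [Algebra Λ Ω] {ϖ : Λ} {v : RVal Ω} {r : ℕ}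
  {F : Type u} [Field F] [Algebra Λ F] [IsFractionRing Λ F] [Algebra F Ω] [IsScalarTower Λ F Ω]

/-- The elements with `w ≥ 0` and `w' ≥ 0`. -/
def geR (w w' : RVal Ω) : Subring Ω where
  carrier := {t | w.Ge 0 t ∧ w'.Ge 0 t}
  mul_mem' := by
    rintro a b ⟨h1, h2⟩ ⟨h3, h4⟩
    exact ⟨by simpa using h1.mul h3, by simpa using h2.mul h4⟩
  one_mem' := ⟨fun _ => w.map_one.ge, fun _ => w'.map_one.ge⟩
  add_mem' := by
    rintro a b ⟨h1, h2⟩ ⟨h3, h4⟩
    exact ⟨h1.add h3, h2.add h4⟩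
  zero_mem' := ⟨RVal.Ge.zero, RVal.Ge.zero⟩
  neg_mem' := by
    rintro a ⟨h1, h2⟩
    exact ⟨h1.neg, h2.neg⟩

/-- `(a + b)^p = a^p + b^p + p e` with `e` in a subring. -/
theorem add_pow_mem {S : Subring Ω} {p : ℕ} (hp : p.Prime) {a b : Ω} (ha : a ∈ S) (hb : b ∈ S) :
    ∃ e ∈ S, (a + b) ^ p = a ^ p + b ^ p + p * e := by
  obtain ⟨e, he⟩ := exists_add_pow_prime_eq hp (⟨a, ha⟩ : S) ⟨b, hb⟩
  have h1 := congrArg (fun z : S => (z : Ω)) he
  simp only [Subring.coe_add, Subring.coe_mul, Subring.coe_pow, Subring.coe_natCast] at h1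
  exact ⟨a * b * e, S.mul_mem (S.mul_mem ha hb) e.2, by rw [h1]; ring⟩

/-- `t^p` is an element of the old ring up to something small for `v` and for `κ`. -/
def NearP (p : ℕ) (B : BF ϖ v) (κ : RVal Ω) (t : Ω) : Prop :=
  t ∈ geR v κ ∧ ∃ t0 ∈ B.R, VPos v (t ^ p - t0) ∧ VPos κ (t ^ p - t0)

theorem NearP.of_mem {p : ℕ} {B : BF ϖ v} {κ : RVal Ω} (hκ : ContVal B κ) {t : Ω}
    (ht : t ∈ B.R) : NearP p B κ t :=
  ⟨⟨B.nonneg t ht, hκ.ge t ht⟩, t ^ p, B.R.pow_mem ht p, by rw [sub_self]; exact VPos.zero, by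
    rw [sub_self]; exact VPos.zero⟩

theorem NearP.add {p : ℕ} (hp : p.Prime) {B : BF ϖ v} {κ : RVal Ω} (hpv : VPos v (p : Ω))
    (hpκ : VPos κ (p : Ω)) {t t' : Ω} (h : NearP p B κ t) (h' : NearP p B κ t') :
    NearP p B κ (t + t') := by
  obtain ⟨h1, t0, h3, h4, h5⟩ := h
  obtain ⟨h1', t0', h3', h4', h5'⟩ := h'
  obtain ⟨e, he, h6⟩ := add_pow_mem hp h1 h1'
  refine ⟨(geR v κ).add_mem h1 h1', t0 + t0', B.R.add_mem h3 h3', ?_, ?_⟩
  · have e1 : (t + t') ^ p - (t0 + t0') = (t ^ p - t0) + (t' ^ p - t0') + p * e := by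
      rw [h6]; ring
    rw [e1]
    exact (h4.add h4').add (hpv.mul he.1)
  · have e1 : (t + t') ^ p - (t0 + t0') = (t ^ p - t0) + (t' ^ p - t0') + p * e := by
      rw [h6]; ring
    rw [e1]
    exact (h5.add h5').add (hpκ.mul he.2)

theorem NearP.mul {p : ℕ} {B : BF ϖ v} {κ : RVal Ω} (hκ : ContVal B κ) {t t' : Ω}
    (h : NearP p B κ t) (h' : NearP p B κ t') : NearP p B κ (t * t') := by
  obtain ⟨h1, t0, h3, h4, h5⟩ := h
  obtain ⟨h1', t0', h3', h4', h5'⟩ := h'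
  have hpw := (geR v κ).pow_mem h1 p
  have e1 : (t * t') ^ p - t0 * t0' = t ^ p * (t' ^ p - t0') + (t ^ p - t0) * t0' := by ring
  refine ⟨(geR v κ).mul_mem h1 h1', t0 * t0', B.R.mul_mem h3 h3', ?_, ?_⟩
  · rw [e1]; exact (VPos.mul' hpw.1 h4').add (h4.mul (B.nonneg _ h3'))
  · rw [e1]; exact (VPos.mul' hpw.2 h5').add (h5.mul (hκ.ge _ h3'))

theorem NearP.adjoin {p : ℕ} (hp : p.Prime) {B : BF ϖ v} {κ : RVal Ω} (hκ : ContVal B κ)
    (hpv : VPos v (p : Ω)) (hpκ : VPos κ (p : Ω)) {S : Set Ω} (hS : ∀ t ∈ S, NearP p B κ t) :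
    ∀ t ∈ Algebra.adjoin Λ S, NearP p B κ t := by
  intro t ht
  induction ht using Algebra.adjoin_induction with
  | mem x hx => exact hS x hx
  | algebraMap c => exact NearP.of_mem hκ (B.R.algebraMap_mem c)
  | add x y _ _ hx hy => exact hx.add hp hpv hpκ hy
  | mul x y _ _ hx hy => exact hx.mul hκ hy

theorem NearP.zero {p : ℕ} (hp : p.Prime) {B : BF ϖ v} {κ : RVal Ω} (hκ : ContVal B κ) {t : Ω}
    (h : NearP p B κ t) (h0 : t ≠ 0) (hv : v t = 0) : κ t = 0 := by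
  obtain ⟨-, t0, h3, h4, h5⟩ := h
  have hvp : v (t ^ p) = 0 := by rw [v.map_pow h0, hv, mul_zero]
  have h6 := val_add_vpos (pow_ne_zero p h0) hvp h4.neg
  have h7 : t ^ p + -(t ^ p - t0) = t0 := by ring
  rw [h7] at h6
  have h8 := hκ.of_val_zero h3 h6.1 h6.2
  have h9 := (val_add_vpos h6.1 h8 h5).2
  rw [add_sub_cancel, κ.map_pow h0] at h9
  rcases mul_eq_zero.1 h9 with h10 | h10
  · exact absurd (by exact_mod_cast h10) hp.ne_zero
  · exact h10

/-- `κ(p) > 0`. -/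
theorem ContVal.vpos_p (h : Ctx0 ϖ v r) {p : ℕ} [CharP (kk Λ) p] {B : BF ϖ v} {κ : RVal Ω}
    (hκ : ContVal B κ) : VPos κ (p : Ω) := by
  have h1 : (p : Λ) ∈ IsLocalRing.maximalIdeal Λ := by
    rw [← IsLocalRing.residue_eq_zero_iff, map_natCast]
    exact CharP.cast_eq_zero _ _
  rw [h.irr.maximalIdeal_eq, Ideal.mem_span_singleton] at h1
  obtain ⟨d, hd⟩ := h1
  have h2 : (p : Ω) = algebraMap Λ Ω ϖ * algebraMap Λ Ω d := by
    rw [← map_mul, ← hd, map_natCast]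
  rw [h2]
  refine VPos.mul ?_ (hκ.ge _ (B.R.algebraMap_mem d))
  intro _
  rw [hκ.mono (B.mono_pi h)]
  exact h.pos

/-- `Z^p + ∑ a_i Z^i = ỹ`, `ν(ỹ) = (0, 1)`, `a_i ∈ I`. -/
theorem k_type2 (h : Ctx0 ϖ v r) (B : BF ϖ v) (E : IntermediateField F Ω)
    (hE : FracIs B.R E) (p : ℕ) (hp : p.Prime) [CharP (kk Λ) p] (Z yt : Ω) (a : ℕ → Ω)
    (hy : B.Rep yt 0 1)
    (ha : ∀ i, 1 ≤ i → i < p → ∃ δ ∈ B.Γ, 0 < δ ∧ ∃ a' ∈ B.R, a i = B.χ δ * a')
    (hZ : PP p a Z = yt) : Good ϖ v (adj E Z) := by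
  obtain ⟨B1, hΓ, hχ, hy1, hR⟩ := B.change_y h hy
  have hp0 : (0 : ℝ) < p := by exact_mod_cast hp.pos
  have hp1 : (1 : ℝ) < p := by exact_mod_cast hp.one_lt
  have hyt0 : yt ≠ 0 := hy.ne_zero h
  have hytv : 0 < v yt := hy.val_pos h le_rfl
  have haR : ∀ i, 1 ≤ i → i < p → a i ∈ B.R := by
    intro i h1 h2
    obtain ⟨δ, hδ, hδ0, a', ha', h3⟩ := ha i h1 h2
    rw [h3]
    exact B.R.mul_mem (B.χ_mem δ hδ hδ0.le) ha'
  have hpeq : p = (p - 1) + 1 := by have := hp.pos; omega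
  -- `PP p a Z = Z * (...)`
  set T : Ω := Z ^ (p - 1) + ∑ i ∈ Finset.Ico 1 p, a i * Z ^ (i - 1) with hT
  have hPT : PP p a Z = Z * T := by
    rw [PP, hT, mul_add, Finset.mul_sum]
    have h1 : Z ^ p = Z * Z ^ (p - 1) := by
      rw [← pow_succ', ← hpeq]
    rw [h1]
    congr 1
    refine Finset.sum_congr rfl fun i hi => ?_
    obtain ⟨h4, h5⟩ := Finset.mem_Ico.1 hi
    have h6 : Z ^ i = Z * Z ^ (i - 1) := by
      rw [← pow_succ']
      congr 1
      omega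
    rw [h6]; ring
  have hZ0 : Z ≠ 0 := by
    rintro rfl
    rw [hPT, zero_mul] at hZ
    exact hyt0 hZ.symm
  -- values of `Z`
  have hge : ∀ k : RVal Ω, (∀ f ∈ B.R, k.Ge 0 f) → 0 ≤ k yt → 0 ≤ k Z := by
    intro k hk hky
    by_contra hneg
    rw [not_le] at hneg
    have hS : k.Ge ((p - 1 : ℕ) * k Z) (∑ i ∈ Finset.Ico 1 p, a i * Z ^ i) := by
      refine RVal.Ge.sum _ _ fun i hi => ?_
      obtain ⟨h4, h5⟩ := Finset.mem_Ico.1 hi
      have h2 : k.Ge (0 + i * k Z) (a i * Z ^ i) :=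
        (hk _ (haR i h4 h5)).mul (fun _ => by rw [k.map_pow hZ0])
      refine h2.mono ?_
      rw [zero_add]
      refine mul_le_mul_of_nonpos_right ?_ hneg.le
      exact_mod_cast (by omega : i ≤ p - 1)
    have h3 : k yt = p * k Z := by
      rw [← hZ, PP]
      by_cases hS0 : ∑ i ∈ Finset.Ico 1 p, a i * Z ^ i = 0
      · rw [hS0, add_zero, k.map_pow hZ0]
      · have h2 : k (Z ^ p) < k (∑ i ∈ Finset.Ico 1 p, a i * Z ^ i) := by
          refine lt_of_lt_of_le ?_ (hS hS0)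
          rw [k.map_pow hZ0, Nat.cast_sub hp.one_le, Nat.cast_one]
          linarith
        rw [(k.add_of_lt (pow_ne_zero p hZ0) hS0 h2).2, k.map_pow hZ0]
    have := mul_neg_of_pos_of_neg hp0 hneg
    linarith
  have hTge : ∀ k : RVal Ω, (∀ f ∈ B.R, k.Ge 0 f) → 0 ≤ k Z → k.Ge 0 T := by
    intro k hk hkZ
    have hpow : ∀ i : ℕ, k.Ge 0 (Z ^ i) := fun i _ => by
      rw [k.map_pow hZ0]
      exact mul_nonneg (Nat.cast_nonneg i) hkZ
    refine (hpow _).add (RVal.Ge.sum _ _ fun i hi => ?_)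
    obtain ⟨h4, h5⟩ := Finset.mem_Ico.1 hi
    have := (hk _ (haR i h4 h5)).mul (hpow (i - 1))
    rwa [add_zero] at this
  have hZge : 0 ≤ v Z := hge v B.nonneg hytv.le
  have hZv : 0 < v Z := by
    rcases hZge.lt_or_eq with h1 | h1
    · exact h1
    exfalso
    -- if `v Z = 0` then `v yt = 0`
    have hS : VPos v (∑ i ∈ Finset.Ico 1 p, a i * Z ^ i) := by
      refine Finset.sum_induction _ (VPos v) (fun _ _ => VPos.add) VPos.zero fun i hi => ?_
      obtain ⟨h4, h5⟩ := Finset.mem_Ico.1 hi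
      obtain ⟨δ, hδ, hδ0, a', ha', h3⟩ := ha i h4 h5
      rw [h3]
      refine VPos.mul ((B.vpos_χ hδ hδ0).mul (B.nonneg a' ha')) fun _ => ?_
      rw [v.map_pow hZ0, ← h1, mul_zero]
    have h2 := val_add_vpos (pow_ne_zero p hZ0) (by rw [v.map_pow hZ0, ← h1, mul_zero]) hS
    have h3 : v yt = 0 := by rw [← hZ, PP]; exact h2.2
    linarith
  set S : Set Ω := (B1.R : Set Ω) ∪ {Z} with hS
  set R' := locv v (Algebra.adjoin Λ S) with hR'
  have hRR : ∀ f ∈ B1.R, f ∈ R' := fun f hf =>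
    le_locv _ (Algebra.subset_adjoin (Or.inl hf))
  have hZR : Z ∈ R' := le_locv _ (Algebra.subset_adjoin (Or.inr rfl))
  have hE1 : FracIs B1.R E := by rw [hR]; exact hE
  have H : Pre v B1.Γ B1.χ Z R' :=
    { full := B1.full
      χ_ne := B1.χ_ne
      χ_add := B1.χ_add
      χ_val := B1.χ_val
      y_ne := hZ0
      y_pos := hZv
      nonneg := by
        refine locv_nonneg (adjoin_nonneg h ?_)
        rintro f (hf | rfl)
        · exact B1.nonneg f hf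
        · intro _; exact hZv.le
      loc := fun f hf h0 h1 => locv_inv hf h0 h1
      χ_mem := fun γ hγ h0 => hRR _ (B1.χ_mem γ hγ h0)
      y_mem := hZR }
  have hTR : T ∈ R' := by
    refine R'.add_mem (R'.pow_mem hZR _) (R'.sum_mem fun i hi => ?_)
    obtain ⟨h4, h5⟩ := Finset.mem_Ico.1 hi
    exact R'.mul_mem (hRR _ (by rw [hR]; exact haR i h4 h5)) (R'.pow_mem hZR _)
  -- the content valuation
  have hreg : ∀ (D : ℕ), ∀ γ ∈ B1.Γ, 0 < γ → ∀ a ∈ R', Z ^ D ≠ B1.χ γ * a := by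
    obtain ⟨k, hk⟩ := B.exists_contVal h
    have hpκ : VPos k (p : Ω) := hk.vpos_p h
    have hpv : VPos v (p : Ω) := h.vpos_p p
    have hky : k yt = 0 := hk.rep hy
    have hkge := hge k hk.ge hky.ge
    have hkZ : k Z = 0 := by
      rcases hkge.lt_or_eq with h1 | h1
      · exfalso
        have h2 : VPos k (Z * T) := VPos.mul (fun _ => h1) (hTge k hk.ge hkge)
        rw [← hPT, hZ] at h2
        have := h2 hyt0
        linarith
      · exact h1.symm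
    have hsm : ∀ k' : RVal Ω, (∀ f ∈ B.R, k'.Ge 0 f) → (∀ δ ∈ B.Γ, 0 < δ → VPos k' (B.χ δ)) →
        0 ≤ k' Z → VPos k' (∑ i ∈ Finset.Ico 1 p, a i * Z ^ i) := by
      intro k' hk' hχ' hk'Z
      refine Finset.sum_induction _ (VPos k') (fun _ _ => VPos.add) VPos.zero fun i hi => ?_
      obtain ⟨h4, h5⟩ := Finset.mem_Ico.1 hi
      obtain ⟨δ, hδ, hδ0, a', ha', h3⟩ := ha i h4 h5
      rw [h3]
      refine VPos.mul ((hχ' δ hδ hδ0).mul (hk' a' ha')) fun _ => ?_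
      rw [k'.map_pow hZ0]
      exact mul_nonneg (Nat.cast_nonneg i) hk'Z
    have hZn : NearP p B k Z := by
      refine ⟨⟨fun _ => hZge, fun _ => hkge⟩, yt, hy.mem le_rfl, ?_, ?_⟩
      · have e1 : Z ^ p - yt = -∑ i ∈ Finset.Ico 1 p, a i * Z ^ i := by
          rw [← hZ, PP]; ring
        rw [e1]
        exact (hsm v B.nonneg (fun δ hδ h0 => B.vpos_χ hδ h0) hZge).neg
      · have e1 : Z ^ p - yt = -∑ i ∈ Finset.Ico 1 p, a i * Z ^ i := by
          rw [← hZ, PP]; ring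
        rw [e1]
        refine (hsm k hk.ge (fun δ hδ h0 => ?_) hkge).neg
        intro _
        rw [hk.χ hδ]
        exact h0
    have hSn : ∀ t ∈ S, NearP p B k t := by
      rintro t (ht | ht)
      · refine NearP.of_mem hk ?_
        have h1 : t ∈ B1.R := ht
        rwa [hR] at h1
      · rw [Set.mem_singleton_iff.1 ht]; exact hZn
    refine reg_of (w := k) hZ0 hkZ (fun γ hγ => B1.χ_ne γ hγ) (fun γ hγ => ?_)
      (LUM.ge_locv (fun t ht => (NearP.adjoin hp hk hpv hpκ hSn t ht).1.2)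
        fun t ht h0 h1 => (NearP.adjoin hp hk hpv hpκ hSn t ht).zero hp hk h0 h1)
    rw [hχ]
    exact hk.χ (by rw [← hΓ]; exact hγ)
  refine ⟨mkBF h H B1.fg hR' ?_ ?_ ?_ B1.pi_mem (hRR _ B1.pi_un) hreg, fracIs_iff.2 ⟨?_, ?_⟩⟩
  · rintro f (hf | rfl)
    · obtain ⟨c, hc, hcR⟩ := B1.exists_const hf
      obtain ⟨γ, hγ, h0, a1, ha1, e, he, h1⟩ := B1.gen _ hcR hc
      refine ⟨c, γ, hγ, h0, a1, hRR a1 ha1, T * e, R'.mul_mem hTR (hRR e he), ?_⟩
      rw [h1, hy1, ← hZ, hPT]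
      ring
    · have := H.res_of_mm (H.mm_y R'.one_mem)
      rwa [mul_one] at this
  · obtain ⟨F0, hF0⟩ := B1.fgen
    classical
    refine ⟨insert Z F0, le_antisymm ?_ ?_⟩
    · refine locv_adjoin_le ?_
      rintro f (hf | rfl)
      · have h1 : locv v (Algebra.adjoin Λ ((F0 : Set Ω) ∪ B1.χ '' {γ | γ ∈ B1.Γ ∧ 0 ≤ γ})) ≤
            locv v (Algebra.adjoin Λ (((insert Z F0 : Finset Ω) : Set Ω) ∪
              B1.χ '' {γ | γ ∈ B1.Γ ∧ 0 ≤ γ})) := by
          refine locv_adjoin_le ?_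
          rintro f (hf | hf)
          · exact le_locv _ (Algebra.subset_adjoin (Or.inl (by
              rw [Finset.coe_insert]; exact Or.inr hf)))
          · exact le_locv _ (Algebra.subset_adjoin (Or.inr hf))
        exact h1 (hF0 ▸ hf)
      · exact le_locv _ (Algebra.subset_adjoin (Or.inl (by simp)))
    · refine locv_adjoin_le ?_
      rintro f (hf | ⟨γ, ⟨hγ, h0⟩, rfl⟩)
      · rw [Finset.coe_insert] at hf
        rcases hf with rfl | hf
        · exact hZR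
        · refine hRR f ?_
          rw [hF0]
          exact le_locv _ (Algebra.subset_adjoin (Or.inl hf))
      · exact hRR _ (B1.χ_mem γ hγ h0)
  · intro g
    exact isAlgebraic_of_le (fun f hf => hRR f hf) (B1.alg g)
  · refine locv_field (adjoin_field ?_)
    rintro f (hf | rfl)
    · exact le_adj E Z (hE1.1 f hf)
    · exact mem_adj E _
  · exact adj_le ((fracIs_iff.1 hE1).2.trans (quo_mono fun f hf => hRR f hf)) (le_quo hZR)

end Pool.Agent.LUM
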