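import Pool.Agent.Lib.LUM.KType2
import Pool.Agent.Lib.LUM.KClean
import Pool.Agent.Lib.LU1_h15.AS

/-! # The endings of the Kummer step -/

set_option autoImplicit false
set_option linter.unusedSectionVars false

namespace Pool.Agent.LUM

open Pool.Agent.H15JM (RVal)
open Pool.Agent.LU1 (VPos LatData val_add_vpos adj le_adj mem_adj adj_le adj_congr ge_of_root
  adj_div adj_eq_of mem_adj_left mem_adj_self)
open Polynomial

universe u

variable {Λ Ω : Type u} [CommRing Λ] [IsDomain Λ] [IsDiscreteValuationRing Λ] [Field Ω]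
  [Algebra Λ Ω] {ϖ : Λ} {v : RVal Ω} {r : ℕ}
  {F : Type u} [Field F] [Algebra Λ F] [IsFractionRing Λ F] [Algebra F Ω] [IsScalarTower Λ F Ω]

theorem LamD.d_mem {p : ℕ} {l : Ω} {c d : ℕ → Ω} (hL : LamD (Λ := Λ) p v l c d) {B : BF ϖ v}
    (hl : B.Mono l) (i : ℕ) : d i ∈ B.R := hL.mem B.R B.loc (hl.mem hL.l_pos.le) i

theorem LamD.c_mem {p : ℕ} {l : Ω} {c d : ℕ → Ω} (hL : LamD (Λ := Λ) p v l c d) {B : BF ϖ v}
    (hl : B.Mono l) (i : ℕ) (h1 : 1 ≤ i) (h2 : i < p) : c i ∈ B.R := by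
  have hlR := hl.mem hL.l_pos.le
  rcases Nat.lt_or_ge 1 i with h3 | h3
  · rw [hL.ci i h3 h2]
    exact B.R.mul_mem hlR (hL.d_mem hl i)
  · have h4 : i = 1 := by omega
    rw [h4, hL.c1]
    exact B.R.add_mem (B.R.neg_mem B.R.one_mem) (B.R.mul_mem hlR (hL.d_mem hl 1))

/-- Type 0. -/
theorem k_type0 (h : Ctx ϖ v r) {p : ℕ} (hp : p.Prime) [CharP (kk Λ) p] {l : Ω} {c d : ℕ → Ω}
    (hL : LamD (Λ := Λ) p v l c d) (B : BF ϖ v) (hl : B.Mono l) (E : IntermediateField F Ω)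
    (hE : FracIs B.R E) (Z a : Ω) (ha : a ∈ B.R) (hZ : PP p c Z = a) :
    Good ϖ v (adj E Z) := by
  classical
  have hlR := hl.mem hL.l_pos.le
  have hcR := fun i h1 h2 => hL.c_mem hl i h1 h2
  set g : Polynomial Ω := (∑ i ∈ Finset.Ico 1 p, C (c i) * X ^ i) - C a with hg
  have hgd : g.degree < p := by
    rw [← mem_degreeLT]
    refine Submodule.sub_mem _ (Submodule.sum_mem _ fun i hi => ?_) ?_
    · obtain ⟨h4, h5⟩ := Finset.mem_Ico.1 hi
      rw [mem_degreeLT]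
      exact (degree_C_mul_X_pow_le i (c i)).trans_lt (by exact_mod_cast h5)
    · rw [mem_degreeLT]
      exact degree_C_le.trans_lt (by exact_mod_cast hp.pos)
  have hmon : (X ^ p + g).Monic := monic_X_pow_add hgd
  have hcoR : ∀ j, (X ^ p + g).coeff j ∈ B.R := by
    intro j
    rw [coeff_add, coeff_X_pow, hg, coeff_sub, finsetSum_coeff, coeff_C]
    refine B.R.add_mem (by split_ifs <;> first | exact B.R.one_mem | exact B.R.zero_mem)
      (B.R.sub_mem (B.R.sum_mem fun i hi => ?_) (by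
        split_ifs <;> first | exact ha | exact B.R.zero_mem))
    obtain ⟨h4, h5⟩ := Finset.mem_Ico.1 hi
    rw [coeff_C_mul, coeff_X_pow]
    refine B.R.mul_mem (hcR i h4 h5) ?_
    split_ifs <;> first | exact B.R.one_mem | exact B.R.zero_mem
  have hroot : (X ^ p + g).eval Z = 0 := by
    rw [hg, eval_add, eval_sub, eval_pow, eval_X, eval_C, eval_finsetSum]
    simp only [eval_mul, eval_C, eval_pow, eval_X]
    rw [← hZ, PP]
    ring
  have hZge : v.Ge 0 Z := ge_of_root hmon (fun i => B.nonneg _ (hcoR i)) hroot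
  have hpow : ∀ i : ℕ, v.Ge 0 (Z ^ i) := by
    intro i
    by_cases hZ0 : Z = 0
    · subst hZ0
      rcases Nat.eq_zero_or_pos i with rfl | hi
      · rw [pow_zero]; exact fun _ => v.map_one.ge
      · rw [zero_pow hi.ne']; exact RVal.Ge.zero
    · intro _
      rw [v.map_pow hZ0]
      exact mul_nonneg (Nat.cast_nonneg i) (hZge hZ0)
  have hnat : ∀ n : ℕ, v.Ge 0 (n : Ω) := by
    intro n
    have := h.ge (n : Λ)
    rwa [map_natCast] at this
  -- the derivative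
  have hder : (X ^ p + g).derivative.eval Z = -1 + (l * d 1 + ((p : Ω) * Z ^ (p - 1) +
      ∑ i ∈ Finset.Ico 2 p, c i * ((i : Ω) * Z ^ (i - 1)))) := by
    rw [hg, derivative_add, derivative_sub, derivative_C, derivative_sum, eval_add, eval_sub,
      eval_finsetSum, derivative_X_pow]
    simp only [derivative_C_mul, derivative_X_pow, eval_mul, eval_C, eval_pow, eval_X,
      eval_zero, map_natCast, eval_natCast, sub_zero]
    rw [Finset.sum_eq_sum_Ico_succ_bot hp.one_lt, hL.c1]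
    simp only [Nat.cast_one, Nat.sub_self, pow_zero, mul_one]
    ring
  have hsmall : VPos v (l * d 1 + ((p : Ω) * Z ^ (p - 1) +
      ∑ i ∈ Finset.Ico 2 p, c i * ((i : Ω) * Z ^ (i - 1)))) := by
    have hlv : VPos v l := fun _ => hL.l_pos
    refine (hlv.mul (B.nonneg _ (hL.d_mem hl 1))).add
      (((h.vpos_p p).mul (hpow _)).add ?_)
    refine Finset.sum_induction _ (VPos v) (fun _ _ => VPos.add) VPos.zero fun i hi => ?_
    obtain ⟨h4, h5⟩ := Finset.mem_Ico.1 hi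
    rw [hL.ci i h4 h5]
    have h6 := (hnat i).mul (hpow (i - 1))
    rw [add_zero] at h6
    exact (hlv.mul (B.nonneg _ (hL.d_mem hl i))).mul h6
  have h1 : v (-1 : Ω) = 0 := v.map_neg_one
  have h2 := val_add_vpos (neg_ne_zero.2 one_ne_zero) h1 hsmall
  rw [← hder] at h2
  exact Good.etale p hp h E ⟨B, hE⟩ Z (X ^ p + g) hmon
    (fun i => ⟨hE.1 _ (hcoR i), B.nonneg _ (hcoR i)⟩) hroot h2.1 h2.2

/-- The three basic types. -/
def Clean2 (p : ℕ) (B : BF ϖ v) (E : IntermediateField F Ω) (l f : Ω) : Prop :=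
  ∃ G, Kcl p l E f G ∧ (G ∈ B.R ∨
    (∃ κ ∈ B.Γ, κ < 0 ∧ (¬ ∃ δ ∈ B.Γ, κ = p * δ) ∧ ∃ u, B.Un u ∧ G = B.χ κ * u) ∨
    (∃ b ∈ B.Γ, b < 0 ∧ ∃ yt, B.Rep yt 0 1 ∧ G = B.χ (p * b) * yt))

theorem good_of_clean2 (h : Ctx ϖ v r) {p : ℕ} (hp : p.Prime) [CharP (kk Λ) p] {l : Ω}
    {c d : ℕ → Ω} (hL : LamD (Λ := Λ) p v l c d) (B : BF ϖ v) (hl : B.Mono l)
    (E : IntermediateField F Ω) (hE : FracIs B.R E) (z f : Ω) (hz : z ^ p = f)
    (hc : Clean2 p B E l f) : Good ϖ v (adj E z) := by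
  obtain ⟨G, ⟨ρ, hρ, hρ0, hf⟩, hG⟩ := hc
  have hl0 := hL.l_ne
  have hlE : l ∈ E := B.mono_mem_E hE hl
  obtain ⟨t, ht⟩ : ∃ t, t = (z / ρ - 1) / l := ⟨_, rfl⟩
  have hzt : z = ρ * (1 + l * t) := by
    rw [ht]
    field_simp
    ring
  have hadj : adj E z = adj E t := by
    refine adj_eq_of ?_ ?_
    · rw [hzt]
      exact (adj E t).mul_mem (mem_adj_left hρ) ((adj E t).add_mem (adj E t).one_mem
        ((adj E t).mul_mem (mem_adj_left hlE) (mem_adj_self E t)))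
    · rw [ht]
      exact (adj E z).div_mem ((adj E z).sub_mem ((adj E z).div_mem (mem_adj_self E z)
        (mem_adj_left hρ)) (adj E z).one_mem) (mem_adj_left hlE)
  have hPP : PP p c t = G := by
    have h1 : ρ ^ p * (1 + l * t) ^ p = ρ ^ p * (1 + l ^ p * G) := by
      rw [← mul_pow, ← hzt, hz, hf]
    have h2 := mul_left_cancel₀ (pow_ne_zero p hρ0) h1
    rw [hL.eq] at h2
    exact mul_left_cancel₀ (pow_ne_zero p hl0) (add_left_cancel h2)
  have hcR := fun i h1 h2 => hL.c_mem hl i h1 h2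
  rw [hadj]
  rcases hG with hG | ⟨κ, hκ, hκ0, hκ1, u, hu, hG⟩ | ⟨b, hb, hb0, yt, hyt, hG⟩
  · exact k_type0 h hp hL B hl E hE t G hG hPP
  · exact k_type1 h.toCtx0 B E hE p hp hκ hκ0 hκ1 t u hu c hcR (hPP.trans hG)
  · have hχb := B.χ_ne b hb
    rw [← adj_div (B.χ_mem_E hE hb) hχb]
    have hneg : ∀ i : ℕ, -((p - i : ℕ) * b) ∈ B.Γ := by
      intro i
      rw [← nsmul_eq_mul]
      exact B.Γ.neg_mem (B.Γ.nsmul_mem hb _)
    refine k_type2 h.toCtx0 B E hE p hp (t / B.χ b) yt (fun i => c i * B.χ (-((p - i : ℕ) * b)))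
      hyt (fun i h1 h2 => ⟨_, hneg i, ?_, c i, hcR i h1 h2, mul_comm _ _⟩) ?_
    · have h3 : (0 : ℝ) < (p - i : ℕ) := by exact_mod_cast (by omega : 0 < p - i)
      have := mul_neg_of_pos_of_neg h3 hb0
      linarith
    · have h5 : PP p c t = B.χ b ^ p * yt := by
        rw [hPP, hG, B.χ_nsmul hb]
      have h6 : B.χ b ^ p * PP p (fun i => c i * B.χ (-((p - i : ℕ) * b))) (t / B.χ b) =
          PP p c t := by
        rw [PP, PP, mul_add, ← mul_pow, mul_div_cancel₀ _ hχb, Finset.mul_sum]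
        congr 1
        refine Finset.sum_congr rfl fun i hi => ?_
        obtain ⟨h4, h5⟩ := Finset.mem_Ico.1 hi
        have h7 : B.χ b ^ p * B.χ (-((p - i : ℕ) * b)) = B.χ b ^ i := by
          rw [B.χ_neg (by rw [← nsmul_eq_mul]; exact B.Γ.nsmul_mem hb _), B.χ_nsmul hb]
          have h8 : B.χ b ^ p = B.χ b ^ i * B.χ b ^ (p - i) := by
            rw [← pow_add]
            congr 1
            omega
          rw [h8, mul_assoc, mul_inv_cancel₀ (pow_ne_zero _ hχb), mul_one]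
        show B.χ b ^ p * (c i * B.χ (-((p - i : ℕ) * b)) * (t / B.χ b) ^ i) = c i * t ^ i
        have h9 : B.χ b ^ p * (c i * B.χ (-((p - i : ℕ) * b)) * (t / B.χ b) ^ i) =
            c i * ((B.χ b ^ p * B.χ (-((p - i : ℕ) * b))) * (t / B.χ b) ^ i) := by ring
        rw [h9, h7, ← mul_pow, mul_div_cancel₀ _ hχb]
      rw [h5] at h6
      exact mul_left_cancel₀ (pow_ne_zero p hχb) h6

/-- `(c + t)^n = c^n + t (n c^(n-1) + t e)`. -/
theorem pow_expand {R : Subalgebra Λ Ω} {c t : Ω} (hc : c ∈ R) (ht : t ∈ R) (n : ℕ) :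
    ∃ e ∈ R, (c + t) ^ n = c ^ n + t * (n * c ^ (n - 1) + t * e) := by
  obtain ⟨e, he, h1⟩ := taylor_mem (R := R) (f := X ^ n) (fun i => by
    rw [coeff_X_pow]
    split_ifs
    · exact R.one_mem
    · exact R.zero_mem) hc ht
  refine ⟨e, he, ?_⟩
  simp only [eval_pow, eval_X, derivative_X_pow, eval_mul, map_natCast] at h1
  rw [h1]
  simp
  ring

theorem BF.Un.rep {B : BF ϖ v} {u : Ω} (hu : B.Un u) : B.Rep u 0 0 := by
  have h1 := (BF.Mono.un hu).rep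
  rwa [hu.2.2] at h1

/-- Type 3: one T-step after the change of `y` gives one of the other types. -/
theorem k_type3 (h : Ctx ϖ v r) {p : ℕ} (hp : p.Prime) [CharP (kk Λ) p] [IsAlgClosed (kk Λ)]
    {l : Ω} {c d : ℕ → Ω} (hL : LamD (Λ := Λ) p v l c d) (B : BF ϖ v) (hl : B.Mono l)
    (E : IntermediateField F Ω) (hE : FracIs B.R E) {f : Ω} {κ : ℝ} (hκ : κ ∈ B.Γ)
    (hκl : 0 < p * v l + κ) (yt : Ω) (hy : B.Rep yt 0 1) (hf : Kcl p l E f (B.χ κ * yt)) :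
    ∃ B' : BF ϖ v, FracIs B'.R E ∧ B'.Mono l ∧ Clean2 p B' E l f := by
  have hp0 : (0 : ℝ) < p := by exact_mod_cast hp.pos
  obtain ⟨B1, g1, g2, g3, g4⟩ := B.change_y h.toCtx0 hy
  have hE1 : FracIs B1.R E := by rw [g4]; exact hE
  have hκ1 : κ ∈ B1.Γ := by rw [g1]; exact hκ
  have hl1 : B1.Mono l := by
    unfold BF.Mono BF.Un at hl ⊢
    rw [g1, g2, g4]
    exact hl
  obtain ⟨B', q, cc, s, hT, hs, -⟩ := B1.exists_tstep h {(κ, 1)} (by
    intro a ha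
    rw [Finset.mem_singleton] at ha
    rw [ha]; exact hκ1) (-1) (Or.inr rfl)
  have hE' : FracIs B'.R E := hT.ext.fracIs hE1
  have hl' : B'.Mono l := hT.ext.mono hl1
  refine ⟨B', hE', hl', ?_⟩
  have h1 := hT.χ_mul hκ1 1
  rw [zpow_one, g3, Int.cast_one, one_mul, g2] at h1
  have hτ : κ + v yt ∈ B'.Γ := by
    have := hT.β_mem
    rw [g3] at this
    exact B'.Γ.add_mem (hT.Γ_le hκ1) this
  rcases le_or_gt 0 (κ + v yt) with hpos | hneg'
  · refine ⟨_, hf, Or.inl ?_⟩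
    rw [h1]
    exact B'.R.mul_mem (B'.χ_mem _ hτ hpos) (hT.un_w.zpow _).1
  by_cases hdiv : ∃ δ ∈ B'.Γ, κ + v yt = p * δ
  swap
  · exact ⟨_, hf, Or.inr (Or.inl ⟨κ + v yt, hτ, hneg', hdiv, _, hT.un_w.zpow (s κ 1), h1⟩)⟩
  obtain ⟨δ, hδ, hδ2⟩ := hdiv
  have hsn : 0 ≤ s κ 1 := by
    have := hs (κ, 1) (Finset.mem_singleton_self _)
    simp only [Nat.cast_one, one_mul] at this
    refine this ?_
    rw [g3]; linarith
  have hps : ¬ (p : ℤ) ∣ s κ 1 := by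
    intro hdvd
    have hv := (hT.latData.vis p hp hκ1 1).2 ⟨hdvd, δ, by rw [← hT.Γ_eq]; exact hδ, by
      rw [g3, Int.cast_one, one_mul]; exact hδ2⟩
    have h2 := hv.1
    have h3 : (p : ℤ) ≤ 1 := Int.le_of_dvd one_pos h2
    have h4 := hp.two_le
    omega
  obtain ⟨n, hn⟩ := Int.eq_ofNat_of_zero_le hsn
  rw [hn] at hps h1
  have hpn : ¬ p ∣ n := fun hd => hps (by exact_mod_cast hd)
  rw [zpow_natCast] at h1
  -- the constants
  obtain ⟨k1, hk1⟩ := IsAlgClosed.exists_pow_nat_eq (IsLocalRing.residue Λ cc ^ n) hp.pos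
  obtain ⟨c1, hc1⟩ := IsLocalRing.residue_surjective k1
  obtain ⟨c2, hc2⟩ : ∃ c2 : Λ, cc ^ n = c1 ^ p + ϖ * c2 := by
    have h2 : cc ^ n - c1 ^ p ∈ IsLocalRing.maximalIdeal Λ := by
      rw [← IsLocalRing.residue_eq_zero_iff, map_sub, map_pow, map_pow, hc1, hk1, sub_self]
    rw [h.irr.maximalIdeal_eq, Ideal.mem_span_singleton] at h2
    obtain ⟨c2, h3⟩ := h2
    exact ⟨c2, by linear_combination h3⟩
  have hcR : algebraMap Λ Ω cc ∈ B'.R := B'.R.algebraMap_mem cc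
  obtain ⟨e, he, h2⟩ := pow_expand hcR B'.y_mem n
  have hw : B1.w q = algebraMap Λ Ω cc + B'.y := by rw [hT.y_eq]; ring
  rw [hw, h2, ← map_pow, hc2, map_add, map_mul, map_pow] at h1
  have hnu : IsUnit (n : Λ) := by
    rw [← IsLocalRing.residue_ne_zero_iff_isUnit, map_natCast, Ne,
      CharP.cast_eq_zero_iff (kk Λ) p n]
    exact hpn
  have hun : B'.Un ((n : Ω) * algebraMap Λ Ω cc ^ (n - 1) + B'.y * e) := by
    refine BF.Un.add_vpos ?_ (B'.R.mul_mem B'.y_mem he) (B'.vpos_y.mul (B'.nonneg e he))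
    have := BF.Un.const (B := B') h.toCtx0 (hnu.mul (hT.c_un.pow (n - 1)))
    rw [map_mul, map_natCast, map_pow] at this
    exact this
  have hδneg : δ < 0 := by
    have h4 : (p : ℝ) * δ < 0 := by rw [← hδ2]; exact hneg'
    by_contra hcon
    push Not at hcon
    exact absurd (mul_nonneg hp0.le hcon) (not_le.2 h4)
  have hδl : 0 < v l + δ := by
    have h3 : 0 < (p : ℝ) * (v l + δ) := by
      have h4 : 0 < v yt := hy.val_pos h.toCtx0 le_rfl
      rw [mul_add, ← hδ2]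
      linarith
    exact (mul_pos_iff_of_pos_left hp0).1 h3
  -- the element `h1`
  obtain ⟨t, ht⟩ : ∃ t, t = algebraMap Λ Ω c1 * B'.χ δ := ⟨_, rfl⟩
  have htE : t ∈ E := by
    rw [ht]
    exact E.mul_mem (hE'.1 _ (B'.R.algebraMap_mem c1)) (B'.χ_mem_E hE' hδ)
  have hlt : B'.Lev (v l + δ) (l * t) := by
    have h3 : B'.Lev δ t := by
      rw [ht, mul_comm]
      exact BF.Lev.χ hδ le_rfl (B'.R.algebraMap_mem c1)
    exact (BF.Lev.of_mono hl').mul' h3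
  have hU : B'.Un (1 + l * t) := BF.un_one_add hlt hδl
  refine ⟨_, hf.shift hL (B'.mono_mem_E hE' hl') htE hU.2.1, Or.inr (Or.inr ⟨δ, hδ, hδneg, ?_⟩)⟩
  -- the lower terms
  have hneg : ∀ i : ℕ, -((p - i : ℕ) * δ) ∈ B'.Γ := by
    intro i
    rw [← nsmul_eq_mul]
    exact B'.Γ.neg_mem (B'.Γ.nsmul_mem hδ _)
  have hpδ : (p : ℝ) * δ ∈ B'.Γ := by rw [← nsmul_eq_mul]; exact B'.Γ.nsmul_mem hδ _
  set Sg : Ω := ∑ i ∈ Finset.Ico 1 p, c i * algebraMap Λ Ω c1 ^ i * B'.χ (-((p - i : ℕ) * δ))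
    with hSg
  have hSgL : B'.Lev (-δ) Sg := by
    refine BF.Lev.sum _ _ fun i hi => ?_
    obtain ⟨h4, h5⟩ := Finset.mem_Ico.1 hi
    rw [mul_comm]
    refine BF.Lev.χ (hneg i) ?_ (B'.R.mul_mem (hL.c_mem hl' i h4 h5)
      (B'.R.pow_mem (B'.R.algebraMap_mem c1) i))
    have h6 : (1 : ℝ) ≤ (p - i : ℕ) := by exact_mod_cast (by omega : 1 ≤ p - i)
    nlinarith
  have hPPt : PP p c t = B'.χ (p * δ) * (algebraMap Λ Ω c1 ^ p + Sg) := by
    rw [PP, mul_add, ht, mul_pow, B'.χ_nsmul hδ, hSg, Finset.mul_sum]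
    rw [mul_comm (B'.χ δ ^ p)]
    congr 1
    refine Finset.sum_congr rfl fun i hi => ?_
    obtain ⟨h4, h5⟩ := Finset.mem_Ico.1 hi
    have hχδ := B'.χ_ne δ hδ
    have h7 : B'.χ δ ^ p * B'.χ (-((p - i : ℕ) * δ)) = B'.χ δ ^ i := by
      rw [B'.χ_neg (by rw [← nsmul_eq_mul]; exact B'.Γ.nsmul_mem hδ _), B'.χ_nsmul hδ]
      have h8 : B'.χ δ ^ p = B'.χ δ ^ i * B'.χ δ ^ (p - i) := by
        rw [← pow_add]
        congr 1
        omega
      rw [h8, mul_assoc, mul_inv_cancel₀ (pow_ne_zero _ hχδ), mul_one]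
    rw [mul_pow]
    linear_combination (-(c i * algebraMap Λ Ω c1 ^ i)) * h7
  set yt' : Ω := B'.y * ((n : Ω) * algebraMap Λ Ω cc ^ (n - 1) + B'.y * e) +
    (algebraMap Λ Ω ϖ * algebraMap Λ Ω c2 - Sg) with hyt'
  have hrep' : B'.Rep yt' 0 1 := by
    have h3 : B'.Rep (B'.y * ((n : Ω) * algebraMap Λ Ω cc ^ (n - 1) + B'.y * e)) (0 + 0)
        (1 + 0) := B'.rep_y.mul hun.rep
    rw [add_zero, add_zero] at h3
    refine h3.add_lev (W := min (v (algebraMap Λ Ω ϖ)) (-δ)) (lt_min h.pos (by linarith)) ?_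
    refine BF.Lev.sub (BF.Lev.of_le ?_ (min_le_left _ _)) (hSgL.of_le (min_le_right _ _))
    exact (BF.Lev.of_mono (B'.mono_pi h.toCtx0)).mul (B'.R.algebraMap_mem c2)
  refine ⟨yt' / (1 + l * t) ^ p, ?_, ?_⟩
  · have h3 := hrep'.mul (hU.pow p).inv.rep
    rwa [add_zero, add_zero, ← div_eq_mul_inv] at h3
  · rw [h1, hPPt, hδ2, hyt']
    ring

theorem good_of_cleanK (h : Ctx ϖ v r) {p : ℕ} (hp : p.Prime) [CharP (kk Λ) p]
    [IsAlgClosed (kk Λ)] {l : Ω} {c d : ℕ → Ω} (hL : LamD (Λ := Λ) p v l c d) (B : BF ϖ v)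
    (hl : B.Mono l) (E : IntermediateField F Ω) (hE : FracIs B.R E) (z f : Ω) (hz : z ^ p = f)
    (hc : CleanK p B E l f) : Good ϖ v (adj E z) := by
  obtain ⟨G, hG, hc⟩ := hc
  rcases hc with hc | hc | hc | ⟨κ, hκ, -, hκl, -, yt, hyt, rfl⟩
  · exact good_of_clean2 h hp hL B hl E hE z f hz ⟨G, hG, Or.inl hc⟩
  · exact good_of_clean2 h hp hL B hl E hE z f hz ⟨G, hG, Or.inr (Or.inl hc)⟩
  · exact good_of_clean2 h hp hL B hl E hE z f hz ⟨G, hG, Or.inr (Or.inr hc)⟩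
  · obtain ⟨B', hE', hl', hc'⟩ := k_type3 h hp hL B hl E hE hκ hκl yt hyt hG
    exact good_of_clean2 h hp hL B' hl' E hE' z f hz hc'

end Pool.Agent.LUM
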