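import Mathlib

/-!
# LUM: local uniformization over a base ring: definitions

As in `LU2_h15/Defs.lean`, with a base ring in place of the base field.
-/

set_option autoImplicit false

namespace Pool.Agent.LUM

universe u

section Defs

variable {k K : Type u} [CommRing k] [Field K] [Algebra k K]

/-- The quotients `a / b` with `a, b ∈ S`, `b` a unit of the valuation ring `V`. -/
def locV (V : ValuationSubring K) (S : Subalgebra k K) : Subalgebra k K where
  carrier := {f | ∃ a ∈ S, ∃ b ∈ S, V.valuation b = 1 ∧ f = a / b}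
  mul_mem' := by
    rintro f g ⟨a, ha, b, hb, hvb, rfl⟩ ⟨c, hc, d, hd, hvd, rfl⟩
    exact ⟨a * c, S.mul_mem ha hc, b * d, S.mul_mem hb hd, by rw [map_mul, hvb, hvd, one_mul],
      by rw [div_mul_div_comm]⟩
  add_mem' := by
    rintro f g ⟨a, ha, b, hb, hvb, rfl⟩ ⟨c, hc, d, hd, hvd, rfl⟩
    have hb0 : b ≠ 0 := by rintro rfl; simp at hvb
    have hd0 : d ≠ 0 := by rintro rfl; simp at hvd
    exact ⟨a * d + b * c, S.add_mem (S.mul_mem ha hd) (S.mul_mem hb hc), b * d,
      S.mul_mem hb hd, by rw [map_mul, hvb, hvd, one_mul], by rw [div_add_div _ _ hb0 hd0]⟩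
  algebraMap_mem' := by
    intro c
    exact ⟨algebraMap k K c, S.algebraMap_mem c, 1, S.one_mem, map_one _, by rw [div_one]⟩

/-- `A'` is the coordinate ring `A[x / g : x ∈ G]` of the chart, that contains the center of `V`,
of a blowing up of `Spec A`. -/
def IsChart (V : ValuationSubring K) (A A' : Subalgebra k K) (g : K) : Prop :=
  g ∈ A ∧ g ≠ 0 ∧ ∃ G : Finset K, (∀ x ∈ G, x ∈ A ∧ V.valuation x ≤ V.valuation g) ∧
    A' = Algebra.adjoin k ((A : Set K) ∪ (fun x => x / g) '' (G : Set K))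

/-- `z` is a regular system of parameters of the local ring `R` dominated by `V`. -/
structure IsPar (V : ValuationSubring K) (R : Subalgebra k K) {n : ℕ} (z : Fin n → K) : Prop where
  mem : ∀ i, z i ∈ R
  ne : ∀ i, z i ≠ 0
  pos : ∀ i, V.valuation (z i) < 1
  gen : ∀ f ∈ R, V.valuation f < 1 → ∃ a : Fin n → K, (∀ i, a i ∈ R) ∧ f = ∑ i, a i * z i
  dim : ringKrullDim R = n

/-- `t` is a Laurent monomial in the `z i` times a unit of `R`, with exponents `≥ 0` (`≤ 0`) if
the value of `t` is `≥ 0` (`≤ 0`). -/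
def Mono (V : ValuationSubring K) (R : Subalgebra k K) {n : ℕ} (z : Fin n → K) (t : K) : Prop :=
  ∃ e : Fin n → ℤ, ∃ w : K, w ∈ R ∧ V.valuation w = 1 ∧ t = (∏ i, z i ^ e i) * w ∧
    (V.valuation t ≤ 1 → ∀ i, 0 ≤ e i) ∧ (1 ≤ V.valuation t → ∀ i, e i ≤ 0)

/-- Log uniformization on the affine scheme `Spec A` for the finite set `T`. -/
def LUat (V : ValuationSubring K) (A : Subalgebra k K) (T : Finset K) : Prop :=
  ∃ (A' : Subalgebra k K) (g : K), IsChart V A A' g ∧ ∃ (n : ℕ) (z : Fin n → K),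
    IsPar V (locV V A') z ∧ Mono V (locV V A') z g ∧ ∀ t ∈ T, Mono V (locV V A') z t

/-- `K` is the field of fractions of `A`. -/
def IsFrac (A : Subalgebra k K) : Prop := ∀ f : K, ∃ a ∈ A, ∃ b ∈ A, b ≠ 0 ∧ f = a / b

variable (k) in
/-- `V` is log uniformizable. -/
def LU (V : ValuationSubring K) : Prop :=
  ∀ A : Subalgebra k K, A.FG → (∀ a ∈ A, a ∈ V) → IsFrac A →
    ∀ T : Finset K, (∀ t ∈ T, t ≠ 0) → LUat V A T

end Defs

end Pool.Agent.LUM
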