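import Pool.Agent.Lib.LUM.WDefs
import Pool.Agent.Lib.LUM.Coord

/-! # R03: independent values inside a field over which `Ω` is algebraic -/

set_option autoImplicit false
set_option linter.unusedSectionVars false
set_option linter.unusedVariables false

open Polynomial

namespace Pool.Agent.LUM

open Pool.Agent.H15JM (RVal)
open Pool.Agent.LU1 (VPos LatData val_add_vpos adj comm_value)

universe u

variable {Λ Q Ω : Type u} [CommRing Λ] [IsDomain Λ] [IsDiscreteValuationRing Λ] [Field Q]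
  [Algebra Λ Q] [IsFractionRing Λ Q] [Field Ω] [Algebra Λ Ω] [Algebra Q Ω] [IsScalarTower Λ Q Ω]
  {ϖ : Λ} {v : RVal Ω} {r : ℕ}

theorem exists_pow_val (K : IntermediateField Q Ω) {g : Ω} (hg : IsAlgebraic K g) (h0 : g ≠ 0) :
    ∃ m : ℕ, 0 < m ∧ ∃ y ∈ K, y ≠ 0 ∧ (m : ℝ) * v g = v y := by
  obtain ⟨f, hf0, m, hm, hfv⟩ := comm_value (v := v) K g h0 hg
  exact ⟨m, hm, f, f.2, hf0, hfv.symm⟩

theorem Ctx0.rank_in (h : Ctx0 ϖ v r) (K : IntermediateField Q Ω)
    (hK : ∀ g : Ω, IsAlgebraic K g) :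
    ∃ X : Fin r → Ω, (∀ i, X i ∈ K ∧ X i ≠ 0) ∧ LinearIndependent ℚ (fun i => v (X i)) ∧
      ∀ g : Ω, g ≠ 0 → v g ∈ Submodule.span ℚ (Set.range fun i => v (X i)) := by
  obtain ⟨x, i₀, hxK, hx0, -, hxi, -⟩ := exists_x h K hK
  refine ⟨x, fun i => ⟨hxK i, hx0 i⟩, hxi, ?_⟩
  obtain ⟨Y, -, hYi, hYs⟩ := h.rank
  have hle : Submodule.span ℚ (Set.range fun i => v (x i)) ≤
      Submodule.span ℚ (Set.range fun i => v (Y i)) := by
    rw [Submodule.span_le]
    rintro _ ⟨i, rfl⟩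
    exact hYs _ (hx0 i)
  have hfin : FiniteDimensional ℚ (Submodule.span ℚ (Set.range fun i => v (Y i))) :=
    FiniteDimensional.span_of_finite ℚ (Set.finite_range _)
  have heq := Submodule.eq_of_le_of_finrank_eq hle (by
    rw [finrank_span_eq_card hxi, finrank_span_eq_card hYi])
  intro g hg
  rw [heq]
  exact hYs g hg

end Pool.Agent.LUM
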