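import Pool.Agent.Lib.LUM.T02

/-! # T03: a frame stable under the group

Recipe (compare `LU1_h15/TameStab.lean`).  `B₀` a frame of `hull Λ v K`, `B₀.R = locv Λ'[F₀, χ₀(≥0)]`, `Γ₀`
generated by `γ_1, .., γ_m`.  `T` = a `DD`-stable finite set containing `F₀` and the `χ₀(γ_j)`
(`DD.orbit_finite`; all its elements are in the hull).  `X_1, .., X_r ∈ K` with independent values (they
exist because `Ω` is algebraic over `K` and by `Ctx0.rank`: a power of the value of `X ∈ Ω` is the value of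
an element of `K`; hypothesis `hX`).  `ML` in the class of all frames: `Reach B₀ B`, all elements of `T \ 0`
and the `X_i` monomial in `B`.
Let `τ ∈ DD`, `C = τ B` (`exists_img`).  `Ext B₀ C`: `B₀.R ≤ C.R` because `τ⁻¹ F₀`, `τ⁻¹ χ₀(γ_j)` are
in `T`, so monomial in `B`, those of `F₀` in `B.R`; `χ₀(γ)/τ χ(γ)` is a unit of `C.R` (apply `τ⁻¹`:
`τ⁻¹ χ₀(γ)` is monomial in `B` of value `γ`); fractions: `DD.hull`.  `cmp_reach`:
`C.R ≤ B.R ∨ Ext B C`; so `τ R ≤ R` or `R ≤ τ R`.  Some power `τ^n`, `n ≥ 1`, fixes `F`, the `χ(basis)` (finite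
orbits) where `B.R = locv Λ'[F, χ(≥0)]`, so `τ^n R = R` and hence `τ R = R`.
`semi`: for `γ ∈ Γ` the quotient `u = τ χ(γ) / χ(γ)` has value 0.  If `γ ≥ 0`: `τ χ(γ) ∈ R`.
Choose `m ≥ 1`, `e_i` with `m γ = ∑ e_i v(X_i)` (rank): `χ(γ)^m = X^e * unit of R` (both monomial with the
same value), `τ` fixes `X^e` and maps units of `R` to units: `u^m` is a unit of `R`.  `Rep (τ χ γ) κ D`:
`(τ χ γ)^m` has `Rep` `(m κ, m D)` and is `χ(γ)^m * unit`: `Rep (m γ, 0)`, so `κ = γ`, `D = 0`, and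
`τ χ(γ) = χ(γ) * (unit)` (`Rep.unique`, `Rep` with `D = 0`).  For `γ < 0` invert. -/

set_option autoImplicit false
set_option linter.unusedSectionVars false
set_option linter.unusedVariables false

open Polynomial

namespace Pool.Agent.LUM

open Pool.Agent.H15JM (RVal)
open Pool.Agent.LU1 (VPos LatData val_add_vpos adj GoodBasis)

universe u

variable {Λ Λ' Q Ω : Type u} [CommRing Λ] [IsDomain Λ] [IsDiscreteValuationRing Λ]
  [CommRing Λ'] [IsDomain Λ'] [IsDiscreteValuationRing Λ'] [Algebra Λ Λ'] [Field Q]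
  [Algebra Λ Q] [IsFractionRing Λ Q] [Field Ω] [Algebra Λ Ω] [Algebra Λ' Ω]
  [IsScalarTower Λ Λ' Ω] [Algebra Q Ω] [IsScalarTower Λ Q Ω]
  {ϖ : Λ} {ϖ' : Λ'} {v : RVal Ω} {r : ℕ}

private theorem mult_of_span {v : RVal Ω} {r : ℕ} {X : Fin r → Ω} {g : Ω}
    (hmem : v g ∈ Submodule.span ℚ (Set.range fun i => v (X i))) :
    ∃ m : ℕ, 0 < m ∧ ∃ n : Fin r → ℤ, (m : ℝ) * v g = ∑ i, (n i : ℝ) * v (X i) := by
  classical
  obtain ⟨c, hc⟩ := (Submodule.mem_span_range_iff_exists_fun ℚ).1 hmem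
  refine ⟨∏ i, (c i).den, Finset.prod_pos fun i _ => (c i).pos,
    fun i => (c i).num * ∏ j ∈ Finset.univ.erase i, ((c j).den : ℤ), ?_⟩
  rw [← hc, Finset.mul_sum]
  refine Finset.sum_congr rfl fun i _ => ?_
  rw [Rat.smul_def, ← Finset.mul_prod_erase _ _ (Finset.mem_univ i), ← mul_assoc]
  congr 1
  have h1 : ((c i).num : ℝ) = (c i : ℝ) * (c i).den := by
    exact_mod_cast (Rat.mul_den_eq_num (c i)).symm
  push_cast
  rw [h1]
  ring

private theorem exists_pow_fix (K : IntermediateField Q Ω) (τ : Ω ≃ₐ[K] Ω) (F : Finset Ω)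
    (hF : ∀ x ∈ F, τ x ∈ F) : ∃ n : ℕ, 0 < n ∧ ∀ x ∈ F, (τ ^ n) x = x := by
  classical
  let f : F → F := fun x => ⟨τ x, hF x x.2⟩
  have hf : Function.Injective f := by
    intro x y hxy
    have h1 : τ (x : Ω) = τ (y : Ω) := congrArg Subtype.val hxy
    exact Subtype.ext (τ.injective h1)
  let σ : Equiv.Perm F := Equiv.ofBijective f (Finite.injective_iff_bijective.1 hf)
  have hσ : ∀ (n : ℕ) (x : F), (((σ ^ n) x : F) : Ω) = (τ ^ n) (x : Ω) := by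
    intro n
    induction n with
    | zero => intro x; simp
    | succ n ih =>
      intro x
      rw [pow_succ', pow_succ', Equiv.Perm.mul_apply, AlgEquiv.mul_apply, ← ih x]
      rfl
  refine ⟨Fintype.card (Equiv.Perm F), Fintype.card_pos, fun x hx => ?_⟩
  have h1 := hσ (Fintype.card (Equiv.Perm F)) ⟨x, hx⟩
  rw [pow_card_eq_one] at h1
  exact h1.symm

private theorem dd_val {K : IntermediateField Q Ω} {τ : Ω ≃ₐ[K] Ω} (hτ : τ ∈ DD v K) {x : Ω}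
    (hx : x ≠ 0) : v (τ x) = v x := hτ x hx

private theorem map_frame (h : Clo ϖ ϖ' v r) {K : IntermediateField Q Ω} {τ : Ω ≃ₐ[K] Ω}
    (hτ : τ ∈ DD v K) (B₀ B : BF ϖ' v) (FF : Finset Ω)
    (hF : B₀.R = locv v (Algebra.adjoin Λ' ((FF : Set Ω) ∪ B₀.χ '' {γ | γ ∈ B₀.Γ ∧ 0 ≤ γ})))
    (G : Finset ℝ) (hG : AddSubgroup.closure (G : Set ℝ) = B₀.Γ)
    (h1 : ∀ f ∈ FF, f ≠ 0 → τ f ∈ B.R) (h2 : ∀ u ∈ G, B.Mono (τ (B₀.χ u))) :
    (∀ γ ∈ B₀.Γ, B.Mono (τ (B₀.χ γ))) ∧ ∀ f ∈ B₀.R, τ f ∈ B.R := by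
  have hτ0 : ∀ g : Ω, g ≠ 0 → τ g ≠ 0 := fun g h0 => by
    intro h
    exact h0 (τ.injective (by rw [h, map_zero]))
  have hχ : ∀ γ ∈ B₀.Γ, B.Mono (τ (B₀.χ γ)) := by
    intro γ hγ
    have hγ' := hγ
    rw [← hG] at hγ'
    induction hγ' using AddSubgroup.closure_induction with
    | mem x hx => exact h2 x hx
    | zero => rw [B₀.χ_zero, map_one]; exact BF.Mono.un BF.Un.one
    | add x y hx hy ihx ihy =>
      rw [hG] at hx hy
      rw [B₀.χ_add x hx y hy, map_mul]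
      exact (ihx hx).mul (ihy hy)
    | neg x hx ihx =>
      rw [hG] at hx
      rw [B₀.χ_neg hx, map_inv₀]
      exact (ihx hx).inv
  have hχv : ∀ γ ∈ B₀.Γ, v (τ (B₀.χ γ)) = γ := fun γ hγ => by
    rw [dd_val hτ (B₀.χ_ne γ hγ), B₀.χ_val γ hγ]
  refine ⟨hχ, ?_⟩
  have h3 : ∀ f ∈ Algebra.adjoin Λ' ((FF : Set Ω) ∪ B₀.χ '' {γ | γ ∈ B₀.Γ ∧ 0 ≤ γ}),
      τ f ∈ B.R := by
    intro f hf
    induction hf using Algebra.adjoin_induction with
    | mem x hx =>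
      rcases hx with hx | ⟨γ, ⟨hγ, h0⟩, rfl⟩
      · by_cases hx0 : x = 0
        · rw [hx0, map_zero]; exact B.R.zero_mem
        · exact h1 x hx hx0
      · exact (hχ γ hγ).mem (by rw [hχv γ hγ]; exact h0)
    | algebraMap c =>
      have h4 : algebraMap Λ' Ω c ∈ henU Λ v := (h.rng _).2 ⟨c, rfl⟩
      have h5 := DD.henU h.c0 K τ hτ h4
      obtain ⟨c', hc'⟩ := (h.rng _).1 h5
      rw [← hc']
      exact B.R.algebraMap_mem c'
    | add x y _ _ hx hy => rw [map_add]; exact B.R.add_mem hx hy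
    | mul x y _ _ hx hy => rw [map_mul]; exact B.R.mul_mem hx hy
  intro f hf
  rw [hF] at hf
  obtain ⟨a, ha, b, hb, hb0, hvb, rfl⟩ := hf
  rw [map_div₀, div_eq_mul_inv]
  refine B.R.mul_mem (h3 a ha) (B.loc _ (h3 b hb) (hτ0 b hb0) ?_)
  rw [dd_val hτ hb0, hvb]

private theorem prod_mono {B : BF ϖ' v} {ι : Type*} (s : Finset ι) (f : ι → Ω)
    (h : ∀ i ∈ s, B.Mono (f i)) : B.Mono (∏ i ∈ s, f i) := by
  classical
  induction s using Finset.induction_on with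
  | empty => simpa using BF.Mono.un (BF.Un.one (B := B))
  | insert a s ha ih =>
    rw [Finset.prod_insert ha]
    exact (h a (Finset.mem_insert_self a s)).mul
      (ih fun i hi => h i (Finset.mem_insert_of_mem hi))

private theorem val_prod {ι : Type*} (s : Finset ι) (f : ι → Ω) (hf : ∀ i ∈ s, f i ≠ 0) :
    v (∏ i ∈ s, f i) = ∑ i ∈ s, v (f i) := by
  classical
  induction s using Finset.induction_on with
  | empty => simpa using v.map_one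
  | insert a s ha ih =>
    rw [Finset.prod_insert ha, Finset.sum_insert ha,
      v.map_mul (hf a (Finset.mem_insert_self a s))
        (Finset.prod_ne_zero_iff.2 fun i hi => hf i (Finset.mem_insert_of_mem hi)),
      ih fun i hi => hf i (Finset.mem_insert_of_mem hi)]

theorem exists_stable (p : ℕ) (hp : p.Prime) [CharP (kk Λ') p] (h : Clo ϖ ϖ' v r)
    (K : IntermediateField Q Ω) (hK : ∀ g : Ω, IsAlgebraic K g)
    (hX : ∃ X : Fin r → Ω, (∀ i, X i ∈ K ∧ X i ≠ 0) ∧ LinearIndependent ℚ (fun i => v (X i)) ∧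
      ∀ g : Ω, g ≠ 0 → v g ∈ Submodule.span ℚ (Set.range fun i => v (X i)))
    (B₀ : BF ϖ' v) (hB₀ : FracIs B₀.R (hull Λ v K)) :
    ∃ B : BF ϖ' v, FracIs B.R (hull Λ v K) ∧ (∀ τ ∈ DD v K, ∀ x, x ∈ B.R ↔ τ x ∈ B.R) ∧
      ∀ τ ∈ DD v K, ∀ γ ∈ B.Γ, B.Un (τ (B.χ γ) / B.χ γ) := by
  classical
  obtain ⟨X, hX1, hX2, hX3⟩ := hX
  obtain ⟨FF, hF⟩ := B₀.fgen
  obtain ⟨G, hG⟩ := B₀.fg
  have hGΓ : ∀ u ∈ G, u ∈ B₀.Γ := fun u hu => by rw [← hG]; exact AddSubgroup.subset_closure hu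
  have hFR : ∀ f ∈ FF, f ∈ B₀.R := fun f hf => by
    rw [hF]; exact le_locv _ (Algebra.subset_adjoin (Or.inl hf))
  have hχL : ∀ (B : BF ϖ' v), FracIs B.R (hull Λ v K) → ∀ γ ∈ B.Γ, B.χ γ ∈ hull Λ v K := by
    intro B hB γ hγ
    rcases le_total 0 γ with h0 | h0
    · exact hB.1 _ (B.χ_mem γ hγ h0)
    · have h1 := hB.1 _ (B.χ_mem (-γ) (B.Γ.neg_mem hγ) (neg_nonneg.2 h0))
      rw [B.χ_neg hγ] at h1
      exact inv_inv (B.χ γ) ▸ (hull Λ v K).inv_mem h1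
  have hKL : K ≤ hull Λ v K := le_sup_left
  -- the stable finite set
  obtain ⟨T, hWT, hT⟩ := DD.orbit_finite (v := v) K hK (FF ∪ G.image B₀.χ)
  let T' : Finset Ω := T.filter fun x => x ∈ hull Λ v K ∧ x ≠ 0
  have hT' : ∀ τ ∈ DD v K, ∀ x ∈ T', τ x ∈ T' := by
    intro τ hτ x hx
    obtain ⟨h1, h2, h3⟩ := Finset.mem_filter.1 hx
    refine Finset.mem_filter.2 ⟨hT τ hτ x h1, DD.hull h.c0 K τ hτ h2, ?_⟩
    intro h4
    exact h3 (τ.injective (by rw [h4, map_zero]))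
  have hFT : ∀ f ∈ FF, f ≠ 0 → f ∈ T' := fun f hf h0 =>
    Finset.mem_filter.2 ⟨hWT (Finset.mem_union_left _ hf), hB₀.1 f (hFR f hf), h0⟩
  have hGT : ∀ u ∈ G, B₀.χ u ∈ T' := fun u hu =>
    Finset.mem_filter.2 ⟨hWT (Finset.mem_union_right _ (Finset.mem_image_of_mem _ hu)),
      hχL B₀ hB₀ u (hGΓ u hu), B₀.χ_ne u (hGΓ u hu)⟩
  obtain ⟨B, hR, hM⟩ := ML p hp h.c1 B₀ (hull Λ v K) hB₀ (T' ∪ Finset.univ.image X) (by
    intro f hf
    rcases Finset.mem_union.1 hf with hf | hf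
    · exact (Finset.mem_filter.1 hf).2
    · obtain ⟨i, -, rfl⟩ := Finset.mem_image.1 hf
      exact ⟨hKL (hX1 i).1, (hX1 i).2⟩)
  have hMT : ∀ f ∈ T', B.Mono f := fun f hf => hM f (Finset.mem_union_left _ hf)
  have hMX : ∀ i, B.Mono (X i) := fun i =>
    hM _ (Finset.mem_union_right _ (Finset.mem_image_of_mem _ (Finset.mem_univ i)))
  have hBL : FracIs B.R (hull Λ v K) := hR.ext.fracIs hB₀
  -- `τ B₀.R ⊆ B.R`
  have hmap : ∀ τ ∈ DD v K, (∀ γ ∈ B₀.Γ, B.Mono (τ (B₀.χ γ))) ∧ ∀ f ∈ B₀.R, τ f ∈ B.R := by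
    intro τ hτ
    refine map_frame h hτ B₀ B FF hF G hG (fun f hf h0 => ?_) fun u hu => ?_
    · refine (hMT _ (hT' τ hτ f (hFT f hf h0))).mem ?_
      rw [dd_val hτ h0]
      exact B₀.nonneg f (hFR f hf) h0
    · exact hMT _ (hT' τ hτ _ (hGT u hu))
  have hinv : ∀ τ ∈ DD v K, τ.symm ∈ DD v K := fun τ hτ => (DD v K).inv_mem hτ
  -- comparability
  have hcmp : ∀ τ ∈ DD v K, (∀ f ∈ B.R, τ f ∈ B.R) ∨ ∀ f ∈ B.R, τ.symm f ∈ B.R := by
    intro τ hτ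
    obtain ⟨C, hCΓ, hCχ, hCy, hCR⟩ := exists_img h K τ hτ B
    have hE : Ext B₀ C := by
      refine ⟨fun f hf => ?_, fun γ hγ => ?_, fun γ hγ => ?_, fun f hf => ?_⟩
      · exact (hCR f).2 ((hmap _ (hinv τ hτ)).2 f hf)
      · rw [hCΓ]; exact hR.ext.Γ_le γ hγ
      · have hγB : γ ∈ B.Γ := hR.ext.Γ_le γ hγ
        have h1 := (hmap _ (hinv τ hτ)).1 γ hγ
        have hv1 : v (τ.symm (B₀.χ γ)) = γ := by
          rw [dd_val (hinv τ hτ) (B₀.χ_ne γ hγ), B₀.χ_val γ hγ]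
        have h2 := h1.2.2
        rw [hv1] at h2
        rw [hCχ]
        have h3 : τ.symm (B₀.χ γ / τ (B.χ γ)) = τ.symm (B₀.χ γ) / B.χ γ := by
          rw [map_div₀, AlgEquiv.symm_apply_apply]
        have h4 : B₀.χ γ / τ (B.χ γ) ≠ 0 := by
          refine div_ne_zero (B₀.χ_ne γ hγ) fun h5 => B.χ_ne γ hγB (τ.injective ?_)
          rw [h5, map_zero]
        refine ⟨(hCR _).2 (by rw [h3]; exact h2.1), h4, ?_⟩
        rw [← dd_val (hinv τ hτ) h4, h3, h2.2.2]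
      · have h1 := (hCR f).1 hf
        have h2 := DD.hull h.c0 K τ hτ (hBL.1 _ h1)
        rw [AlgEquiv.apply_symm_apply] at h2
        obtain ⟨a, ha, b, hb, h3, h4⟩ := hB₀.2 _ h2
        exact ⟨a, ha, b, hb, h3, h4⟩
    rcases cmp_reach h.c1.toCtx0 B₀ B C hR hE with h1 | h1
    · left
      intro f hf
      refine h1 ((hCR _).2 ?_)
      rw [AlgEquiv.symm_apply_apply]
      exact hf
    · right
      intro f hf
      exact (hCR f).1 (h1.le hf)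
  -- the generators of `B.R`
  obtain ⟨FB, hFB⟩ := B.fgen
  obtain ⟨GB, hGB⟩ := B.fg
  have hGBΓ : ∀ u ∈ GB, u ∈ B.Γ := fun u hu => by
    rw [← hGB]; exact AddSubgroup.subset_closure hu
  have hFBR : ∀ f ∈ FB, f ∈ B.R := fun f hf => by
    rw [hFB]; exact le_locv _ (Algebra.subset_adjoin (Or.inl hf))
  obtain ⟨S, hWS, hS⟩ := DD.orbit_finite (v := v) K hK (FB ∪ GB.image B.χ)
  have hfix : ∀ σ ∈ DD v K, (∀ x ∈ S, σ x = x) → ∀ f ∈ B.R, σ f ∈ B.R := by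
    intro σ hσ hx
    refine (map_frame h hσ B B FB hFB GB hGB (fun f hf _ => ?_) fun u hu => ?_).2
    · rw [hx f (hWS (Finset.mem_union_left _ hf))]
      exact hFBR f hf
    · rw [hx _ (hWS (Finset.mem_union_right _ (Finset.mem_image_of_mem _ hu)))]
      exact BF.Mono.χ (hGBΓ u hu)
  have hmul : ∀ σ τ : Ω ≃ₐ[K] Ω, (∀ f ∈ B.R, σ f ∈ B.R) → (∀ f ∈ B.R, τ f ∈ B.R) →
      ∀ f ∈ B.R, (σ * τ) f ∈ B.R := fun σ τ h1 h2 f hf => h1 _ (h2 f hf)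
  have hpow : ∀ (σ : Ω ≃ₐ[K] Ω), (∀ f ∈ B.R, σ f ∈ B.R) → ∀ n : ℕ, ∀ f ∈ B.R,
      (σ ^ n) f ∈ B.R := by
    intro σ h1 n
    induction n with
    | zero => intro f hf; simpa using hf
    | succ n ih => rw [pow_succ]; exact hmul _ _ ih h1
  have hst : ∀ τ ∈ DD v K, ∀ f ∈ B.R, τ f ∈ B.R := by
    intro τ hτ
    rcases hcmp τ hτ with h1 | h1
    · exact h1
    · obtain ⟨n, hn, hfx⟩ := exists_pow_fix K τ S (hS τ hτ)
      obtain ⟨m, rfl⟩ : ∃ m, n = m + 1 := ⟨n - 1, by omega⟩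
      have h2 : τ = τ ^ (m + 1) * (τ⁻¹) ^ m := by
        rw [pow_succ', inv_pow, mul_assoc, mul_inv_cancel, mul_one]
      have h3 := hmul _ _ (hfix _ ((DD v K).pow_mem hτ (m + 1)) hfx) (hpow (τ⁻¹) h1 m)
      rw [← h2] at h3
      exact h3
  refine ⟨B, hBL, fun τ hτ x => ⟨fun hx => hst τ hτ x hx, fun hx => ?_⟩, ?_⟩
  · have h1 := hst _ (hinv τ hτ) _ hx
    rwa [AlgEquiv.symm_apply_apply] at h1
  -- semi-invariance
  intro τ hτ
  have hτ0 : ∀ g : Ω, g ≠ 0 → τ g ≠ 0 := fun g h0 h1 => by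
    exact h0 (τ.injective (by rw [h1, map_zero]))
  have hpos : ∀ γ ∈ B.Γ, 0 ≤ γ → B.Un (τ (B.χ γ) / B.χ γ) := by
    intro γ hγ h0
    obtain ⟨m, hm, n, hmn⟩ := mult_of_span (hX3 (B.χ γ) (B.χ_ne γ hγ))
    rw [B.χ_val γ hγ] at hmn
    have hPm : B.Mono (∏ i, X i ^ n i) := prod_mono _ _ fun i _ => (hMX i).zpow (n i)
    have hPv : v (∏ i, X i ^ n i) = m * γ := by
      rw [val_prod _ _ fun i _ => zpow_ne_zero _ (hX1 i).2, hmn]
      exact Finset.sum_congr rfl fun i _ => v.map_zpow (hX1 i).2 _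
    have hPK : ∏ i, X i ^ n i ∈ K := K.prod_mem fun i _ => zpow_mem (hX1 i).1 _
    have hPτ : τ (∏ i, X i ^ n i) = ∏ i, X i ^ n i := τ.commutes ⟨_, hPK⟩
    have hPne := hPm.ne
    -- the unit
    have hU : B.Un (B.χ γ ^ m / ∏ i, X i ^ n i) := by
      have h1 : B.Mono (B.χ γ ^ m / ∏ i, X i ^ n i) := ((BF.Mono.χ hγ).pow m).div hPm
      have h2 : v (B.χ γ ^ m / ∏ i, X i ^ n i) = 0 := by
        rw [v.map_div (pow_ne_zero _ (B.χ_ne γ hγ)) hPne, v.map_pow (B.χ_ne γ hγ),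
          B.χ_val γ hγ, hPv, sub_self]
      exact ⟨h1.mem h2.ge, h1.ne, h2⟩
    have hτU : B.Un (τ (B.χ γ ^ m / ∏ i, X i ^ n i)) :=
      ⟨hst τ hτ _ hU.1, hτ0 _ hU.2.1, by rw [dd_val hτ hU.2.1]; exact hU.2.2⟩
    have h3 : (τ (B.χ γ)) ^ m = (∏ i, X i ^ n i) * τ (B.χ γ ^ m / ∏ i, X i ^ n i) := by
      rw [map_div₀, hPτ, map_pow, mul_div_cancel₀ _ hPne]
    have h4 : B.Mono ((τ (B.χ γ)) ^ m) := by
      rw [h3]; exact hPm.mul (BF.Mono.un hτU)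
    have hne : τ (B.χ γ) ≠ 0 := hτ0 _ (B.χ_ne γ hγ)
    have hv : v (τ (B.χ γ)) = γ := by rw [dd_val hτ (B.χ_ne γ hγ), B.χ_val γ hγ]
    have h5 := h4.rep
    rw [v.map_pow hne, hv] at h5
    obtain ⟨κ, D, -, hrep⟩ := B.rep_exists h.c1.toCtx0 (hst τ hτ _ (B.χ_mem γ hγ h0)) hne
    have h6 := hrep.pow m
    obtain ⟨h7, h8⟩ := h6.unique h.c1.toCtx0 h5
    have hm0 : (m : ℝ) ≠ 0 := by exact_mod_cast hm.ne'
    have h9 : κ = γ := mul_left_cancel₀ hm0 h7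
    have h10 : D = 0 := by
      rcases Nat.mul_eq_zero.1 h8 with h11 | h11
      · omega
      · exact h11
    subst h10
    have h12 := hrep.val_zero.2.2.2.2
    rwa [hv] at h12
  intro γ hγ
  rcases le_total 0 γ with h0 | h0
  · exact hpos γ hγ h0
  · have h1 := (hpos (-γ) (B.Γ.neg_mem hγ) (neg_nonneg.2 h0)).inv
    rw [B.χ_neg hγ, map_inv₀, inv_div_inv, inv_div] at h1
    exact h1

end Pool.Agent.LUM
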