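import Pool.Agent.Lib.LUM.WDefs

/-! # T05: averaging coefficients (Chase, Harrison, Rosenberg)

`C` is a ring `⊆ O_v`, closed under inverses of elements of value 0, stable under the ring homomorphisms
`σ i`, `σ 0 = id`; for `i ≠ 0` some `c ∈ C` has `c - σ i c` of value zero.
The functions `i ↦ ∑ j, b j * σ i (a j)` with `a j, b j ∈ C` form a subsemiring; for `i ≠ 0` with
`u = c - σ i c` the function `e_i(k) = (σ k c - σ i c) / u` lies in it, `e_i(0) = 1`, `e_i(i) = 0`.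
The product of the `e_i`, `i ≠ 0`, is the indicator of `0`. -/

set_option autoImplicit false
set_option linter.unusedSectionVars false
set_option linter.unusedVariables false

open Polynomial

namespace Pool.Agent.LUM

open Pool.Agent.H15JM (RVal)
open Pool.Agent.LU1 (VPos LatData val_add_vpos adj)

universe u

variable {Λ Ω : Type u} [CommRing Λ] [IsDomain Λ] [IsDiscreteValuationRing Λ] [Field Ω]
  [Algebra Λ Ω] {ϖ : Λ} {v : RVal Ω} {r : ℕ}

/-- the multiplicative monoid of the functions `i ↦ b * σ i a` -/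
private def avgMon (C : Subalgebra Λ Ω) {n : ℕ} (σ : Fin (n + 1) → (Ω →+* Ω)) :
    Submonoid (Fin (n + 1) → Ω) where
  carrier := {φ | ∃ a ∈ C, ∃ b ∈ C, φ = fun i => b * σ i a}
  one_mem' := ⟨1, C.one_mem, 1, C.one_mem, by ext i; simp⟩
  mul_mem' := by
    rintro _ _ ⟨a, ha, b, hb, rfl⟩ ⟨a', ha', b', hb', rfl⟩
    refine ⟨a * a', C.mul_mem ha ha', b * b', C.mul_mem hb hb', ?_⟩
    ext i
    simp only [Pi.mul_apply, map_mul]
    ring

private theorem avg_real (C : Subalgebra Λ Ω) {n : ℕ} (σ : Fin (n + 1) → (Ω →+* Ω))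
    (φ : Fin (n + 1) → Ω) (hφ : φ ∈ (avgMon C σ).subsemiringClosure) :
    ∃ (m : ℕ) (a b : Fin m → Ω), (∀ j, a j ∈ C) ∧ (∀ j, b j ∈ C) ∧
      ∀ i, ∑ j, b j * σ i (a j) = φ i := by
  have hφ' : φ ∈ AddSubmonoid.closure ((avgMon C σ : Submonoid _) : Set (Fin (n + 1) → Ω)) := hφ
  induction hφ' using AddSubmonoid.closure_induction with
  | mem x hx =>
    obtain ⟨a, ha, b, hb, rfl⟩ := hx
    exact ⟨1, fun _ => a, fun _ => b, fun _ => ha, fun _ => hb, fun i => by simp⟩
  | zero => exact ⟨0, Fin.elim0, Fin.elim0, fun j => j.elim0, fun j => j.elim0, fun i => by simp⟩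
  | add x y hx hy ihx ihy =>
    obtain ⟨m, a, b, ha, hb, h⟩ := ihx hx
    obtain ⟨m', a', b', ha', hb', h'⟩ := ihy hy
    refine ⟨m + m', Fin.append a a', Fin.append b b', ?_, ?_, ?_⟩
    · intro j
      refine Fin.addCases (fun j => ?_) (fun j => ?_) j
      · simpa using ha j
      · simpa using ha' j
    · intro j
      refine Fin.addCases (fun j => ?_) (fun j => ?_) j
      · simpa using hb j
      · simpa using hb' j
    · intro i
      rw [Fin.sum_univ_add]
      simp only [Fin.append_left, Fin.append_right, h, h', Pi.add_apply]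

theorem exists_avg (C : Subalgebra Λ Ω) (hloc : ∀ f ∈ C, f ≠ 0 → v f = 0 → f⁻¹ ∈ C) {n : ℕ}
    (σ : Fin (n + 1) → (Ω →+* Ω)) (hσ : ∀ i, ∀ c ∈ C, σ i c ∈ C) (h0 : σ 0 = RingHom.id Ω)
    (hne : ∀ i, i ≠ 0 → ∃ c ∈ C, c - σ i c ≠ 0 ∧ v (c - σ i c) = 0) :
    ∃ (m : ℕ) (a b : Fin m → Ω), (∀ j, a j ∈ C) ∧ (∀ j, b j ∈ C) ∧
      ∀ i, ∑ j, b j * σ i (a j) = if i = 0 then 1 else 0 := by
  classical
  have key : ∀ i, i ≠ 0 → ∃ e ∈ (avgMon C σ).subsemiringClosure, e 0 = 1 ∧ e i = 0 := by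
    intro i hi
    obtain ⟨c, hc, hu0, hu⟩ := hne i hi
    have huC : c - σ i c ∈ C := C.sub_mem hc (hσ i c hc)
    have hinv : (c - σ i c)⁻¹ ∈ C := hloc _ huC hu0 hu
    refine ⟨(fun k => (c - σ i c)⁻¹ * σ k c) + fun k => (-(σ i c) * (c - σ i c)⁻¹) * σ k 1,
      ?_, ?_, ?_⟩
    · refine add_mem ?_ ?_
      · exact AddSubmonoid.subset_closure ⟨c, hc, _, hinv, rfl⟩
      · exact AddSubmonoid.subset_closure
          ⟨1, C.one_mem, _, C.mul_mem (C.neg_mem (hσ i c hc)) hinv, rfl⟩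
    · simp only [Pi.add_apply, h0, RingHom.id_apply, mul_one]
      field_simp
      ring
    · simp only [Pi.add_apply, map_one, mul_one]
      ring
  choose! e he he0 hei using key
  have hprod : (∏ i ∈ Finset.univ.filter (fun i : Fin (n + 1) => i ≠ 0), e i) ∈
      (avgMon C σ).subsemiringClosure :=
    prod_mem fun i hi => he i (Finset.mem_filter.1 hi).2
  obtain ⟨m, a, b, ha, hb, h⟩ := avg_real C σ _ hprod
  refine ⟨m, a, b, ha, hb, fun i => ?_⟩
  rw [h i, Finset.prod_apply]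
  by_cases hi : i = 0
  · subst hi
    rw [if_pos rfl]
    exact Finset.prod_eq_one fun k hk => he0 k (Finset.mem_filter.1 hk).2
  · rw [if_neg hi]
    exact Finset.prod_eq_zero (i := i) (Finset.mem_filter.2 ⟨Finset.mem_univ _, hi⟩) (hei i hi)

end Pool.Agent.LUM
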