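import Pool.Agent.Lib.LUM.Kap

/-! # T06: change of the monomials of a frame

`u` is a `ℤ`-basis of `Γ`, `t i` units of `B.R`; new monomials `χ'(∑ n_i u_i) = χ(∑ n_i u_i) ∏ t_i^{n_i}`. -/

set_option autoImplicit false
set_option linter.unusedSectionVars false
set_option linter.unusedVariables false

open Polynomial

namespace Pool.Agent.LUM

open Pool.Agent.H15JM (RVal)
open Pool.Agent.LU1 (VPos LatData val_add_vpos adj)

universe u

variable {Λ Ω : Type u} [CommRing Λ] [IsDomain Λ] [IsDiscreteValuationRing Λ] [Field Ω]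
  [Algebra Λ Ω] {ϖ : Λ} {v : RVal Ω} {r : ℕ}

theorem T06_prod_un (B : BF ϖ v) (t : Fin r → Ω) (ht : ∀ i, B.Un (t i)) (n : Fin r → ℤ) :
    B.Un (∏ i, t i ^ n i) := by
  classical
  have : ∀ s : Finset (Fin r), B.Un (∏ i ∈ s, t i ^ n i) := by
    intro s
    induction s using Finset.induction_on with
    | empty => simpa using BF.Un.one
    | insert i s hi ih =>
      rw [Finset.prod_insert hi]
      exact ((ht i).zpow (n i)).mul ih
  exact this Finset.univ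

theorem BF.change_χ (h : Ctx0 ϖ v r) (B : BF ϖ v) (u : Fin r → ℝ) (hu : ∀ i, u i ∈ B.Γ)
    (hind : LinearIndependent ℚ u)
    (hgen : ∀ γ ∈ B.Γ, ∃ n : Fin r → ℤ, γ = ∑ i, (n i : ℝ) * u i) (t : Fin r → Ω)
    (ht : ∀ i, B.Un (t i)) :
    ∃ B' : BF ϖ v, B'.Γ = B.Γ ∧ B'.y = B.y ∧ B'.R = B.R ∧
      (∀ i, B'.χ (u i) = B.χ (u i) * t i) ∧
      (∀ γ ∈ B.Γ, ∀ n : Fin r → ℤ, γ = ∑ i, (n i : ℝ) * u i →
        B'.χ γ = ∏ i, (B.χ (u i) * t i) ^ n i) ∧
      ∀ γ ∈ B.Γ, B.Un (B'.χ γ / B.χ γ) := by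
  classical
  obtain ⟨τ, hτ⟩ : ∃ τ : ℝ → Ω, τ = fun γ => ∏ i, t i ^ NFA.crd u γ i := ⟨_, rfl⟩
  have hτn : ∀ n : Fin r → ℤ, τ (∑ i, (n i : ℝ) * u i) = ∏ i, t i ^ n i := by
    intro n
    rw [hτ]
    simp only
    rw [NFA.crd_sum hind]
  have hτu : ∀ γ, B.Un (τ γ) := by
    intro γ
    rw [hτ]
    exact T06_prod_un B t ht _
  have hτ0 : ∀ γ, τ γ ≠ 0 := fun γ => (hτu γ).2.1
  have hτadd : ∀ γ ∈ B.Γ, ∀ δ ∈ B.Γ, τ (γ + δ) = τ γ * τ δ := by
    intro γ hγ δ hδ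
    obtain ⟨n, rfl⟩ := hgen γ hγ
    obtain ⟨m, rfl⟩ := hgen δ hδ
    have e : ∑ i, (n i : ℝ) * u i + ∑ i, (m i : ℝ) * u i = ∑ i, (((n + m) i : ℤ) : ℝ) * u i := by
      rw [← Finset.sum_add_distrib]
      refine Finset.sum_congr rfl fun i _ => ?_
      rw [Pi.add_apply]
      push_cast
      ring
    rw [e, hτn, hτn, hτn, ← Finset.prod_mul_distrib]
    refine Finset.prod_congr rfl fun i _ => ?_
    rw [Pi.add_apply, zpow_add₀ (ht i).2.1]
  obtain ⟨F, hF⟩ := B.fgen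
  obtain ⟨χ', hχ'⟩ : ∃ χ' : ℝ → Ω, χ' = fun γ => B.χ γ * τ γ := ⟨_, rfl⟩
  have hχ'e : ∀ γ, χ' γ = B.χ γ * τ γ := fun γ => by rw [hχ']
  have hmem : ∀ γ ∈ B.Γ, 0 ≤ γ → χ' γ ∈ B.R := by
    intro γ hγ h0
    rw [hχ'e]
    exact B.R.mul_mem (B.χ_mem γ hγ h0) (hτu γ).1
  have hR : B.R = locv v (Algebra.adjoin Λ
      (((F ∪ (Finset.univ.image t ∪ Finset.univ.image fun i => (t i)⁻¹) : Finset Ω) : Set Ω) ∪
        χ' '' {γ | γ ∈ B.Γ ∧ 0 ≤ γ})) := by
    apply le_antisymm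
    · conv_lhs => rw [hF]
      refine locv_mono ?_
      rw [Algebra.adjoin_le_iff]
      rintro x (hx | ⟨γ, ⟨hγ, h0⟩, rfl⟩)
      · refine Algebra.subset_adjoin (Or.inl ?_)
        rw [Finset.coe_union]
        exact Or.inl hx
      · have e : B.χ γ = χ' γ * ∏ i, t i ^ (-(NFA.crd u γ i)) := by
          rw [hχ'e, hτ]
          simp only [zpow_neg]
          rw [Finset.prod_inv_distrib, mul_assoc, mul_inv_cancel₀, mul_one]
          exact (T06_prod_un B t ht _).2.1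
        rw [e]
        refine Subalgebra.mul_mem _ (Algebra.subset_adjoin (Or.inr ⟨γ, ⟨hγ, h0⟩, rfl⟩)) ?_
        refine Subalgebra.prod_mem _ fun i _ => ?_
        have h1 : t i ∈ Algebra.adjoin Λ
            (((F ∪ (Finset.univ.image t ∪ Finset.univ.image fun i => (t i)⁻¹) : Finset Ω) : Set Ω) ∪
              χ' '' {γ | γ ∈ B.Γ ∧ 0 ≤ γ}) := Algebra.subset_adjoin (Or.inl (by simp))
        have h2 : (t i)⁻¹ ∈ Algebra.adjoin Λ
            (((F ∪ (Finset.univ.image t ∪ Finset.univ.image fun i => (t i)⁻¹) : Finset Ω) : Set Ω) ∪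
              χ' '' {γ | γ ∈ B.Γ ∧ 0 ≤ γ}) := Algebra.subset_adjoin (Or.inl (by simp))
        rcases Int.eq_nat_or_neg (-(NFA.crd u γ i)) with ⟨m, hm | hm⟩
        · rw [hm, zpow_natCast]
          exact Subalgebra.pow_mem _ h1 m
        · rw [hm, zpow_neg, zpow_natCast, ← inv_pow]
          exact Subalgebra.pow_mem _ h2 m
    · refine locv_le ?_ B.loc
      rw [Algebra.adjoin_le_iff]
      rintro x (hx | ⟨γ, ⟨hγ, h0⟩, rfl⟩)
      · rw [Finset.mem_coe, Finset.mem_union, Finset.mem_union] at hx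
        rcases hx with hx | hx | hx
        · show x ∈ B.R
          rw [hF]
          exact le_locv _ (Algebra.subset_adjoin (Or.inl hx))
        · obtain ⟨i, -, rfl⟩ := Finset.mem_image.1 hx
          exact (ht i).1
        · obtain ⟨i, -, rfl⟩ := Finset.mem_image.1 hx
          exact (ht i).inv.1
      · exact hmem γ hγ h0
  let B' : BF ϖ v :=
    { Γ := B.Γ
      fg := B.fg
      full := B.full
      χ := χ'
      χ_ne := fun γ hγ => by rw [hχ'e]; exact mul_ne_zero (B.χ_ne γ hγ) (hτ0 γ)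
      χ_add := fun γ hγ δ hδ => by
        rw [hχ'e, hχ'e, hχ'e, B.χ_add γ hγ δ hδ, hτadd γ hγ δ hδ]
        ring
      χ_val := fun γ hγ => by
        rw [hχ'e, v.map_mul (B.χ_ne γ hγ) (hτ0 γ), B.χ_val γ hγ, (hτu γ).2.2, add_zero]
      y := B.y
      y_ne := B.y_ne
      y_pos := B.y_pos
      R := B.R
      nonneg := B.nonneg
      loc := B.loc
      χ_mem := hmem
      y_mem := B.y_mem
      fgen := ⟨_, hR⟩
      gen := fun f hf h0 => by
        obtain ⟨γ, hγ, hγ0, a, ha, b, hb, hfe⟩ := B.gen f hf h0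
        refine ⟨γ, hγ, hγ0, (τ γ)⁻¹ * a, B.R.mul_mem (hτu γ).inv.1 ha, b, hb, ?_⟩
        rw [hχ'e, hfe]
        have := hτ0 γ
        field_simp
      alg := B.alg
      res := B.res
      pi_mem := B.pi_mem
      pi_un := by
        rw [hχ'e]
        have e : algebraMap Λ Ω ϖ / (B.χ (v (algebraMap Λ Ω ϖ)) * τ (v (algebraMap Λ Ω ϖ))) =
            algebraMap Λ Ω ϖ / B.χ (v (algebraMap Λ Ω ϖ)) * (τ (v (algebraMap Λ Ω ϖ)))⁻¹ := by
          rw [div_mul_eq_div_div, div_eq_mul_inv _ (τ _)]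
        rw [e]
        exact B.R.mul_mem B.pi_un (hτu _).inv.1
      reg := fun D γ hγ h0 a ha => by
        rw [hχ'e, mul_assoc]
        exact B.reg D γ hγ h0 _ (B.R.mul_mem (hτu γ).1 ha) }
  have hform : ∀ n : Fin r → ℤ, χ' (∑ i, (n i : ℝ) * u i) = ∏ i, (B.χ (u i) * t i) ^ n i := by
    intro n
    rw [hχ'e, hτn, (NFA.χ_sum B Finset.univ u hu n).2, ← Finset.prod_mul_distrib]
    exact Finset.prod_congr rfl fun i _ => (mul_zpow _ _ _).symm
  refine ⟨B', rfl, rfl, rfl, ?_, ?_, ?_⟩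
  · intro i
    have e : u i = ∑ j, (((Pi.single i 1 : Fin r → ℤ) j : ℤ) : ℝ) * u j := by
      rw [Finset.sum_eq_single i]
      · simp
      · intro j _ hj
        rw [Pi.single_eq_of_ne hj]
        simp
      · intro hi
        exact absurd (Finset.mem_univ i) hi
    show χ' (u i) = _
    conv_lhs => rw [e]
    rw [hform, Finset.prod_eq_single i]
    · simp
    · intro j _ hj
      rw [Pi.single_eq_of_ne hj, zpow_zero]
    · intro hi
      exact absurd (Finset.mem_univ i) hi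
  · intro γ hγ n hn
    show χ' γ = _
    rw [hn]
    exact hform n
  · intro γ hγ
    show B.Un (χ' γ / B.χ γ)
    rw [hχ'e, mul_div_cancel_left₀ _ (B.χ_ne γ hγ)]
    exact hτu γ

end Pool.Agent.LUM
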