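import Pool.Agent.Lib.LUM.T04
import Pool.Agent.Lib.LUM.T05
import Pool.Agent.Lib.LUM.T06

/-! # T07: averaging: an adapted frame

`B` is stable under `DD`.  `B.R = locv Λ'[F, χ(≥0)]`, `u` a `ℤ`-basis of `Γ` (`BF.exists_basis` with `S = ∅`).
Choose `C` (`exists_stable_C`) for `W = F ∪ {χ(u i)} ∪ {y}`, the `τ i` (`exists_reps`), `a j, b j`
(`exists_avg`; `hne` from `exists_reps` with `j = 0`).  `Tr f = ∑ i, τ i f` for `f ∈ fld K C`.
* `f = ∑ j, b j * Tr (a j * f)`.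
* for `σ ∈ DD`: `σ (Tr f) = Tr f` (on `fld K C` the `σ τ_i` are a permutation of the `τ_i`: `σ τ_i = τ_{π i}`
  there, `π` injective because the `τ_i` are pairwise different on `C`).
* `E₁ := {x ∈ fld K C | σ x = x for all σ ∈ DD}`, an intermediate field of `Ω/Q` containing `K`.
* `χ(u i)`: `Tr (a j χ(u i)) = χ(u i) t_j`, `t_j = ∑ k, τ_k(a_j) τ_k(χ(u i)) / χ(u i) ∈ R`, `∑ b_j t_j = 1`, so
  some `t_j` has value zero: it is a unit. Let `t i` be this unit; `BF.change_χ`.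
* `y`: `Tr (a_j y) ∈ R` is invariant, `y = ∑ b_j Tr (a_j y)`.  If no `Tr (a_j y)` had `Rep _ 0 1`: each `Tr (a_j y)`
  is in `R`, of positive value (or 0), so `χ(g_j) a'_j + y b'_j`, `g_j > 0`; if some `b'_j` has value 0 then
  `Rep _ 0 1`; otherwise all `b'_j` have positive value, `b'_j = χ(g) .. + y ..` (`gen`), so
  `y = χ(g) a + y^2 b` for some `g > 0`: `y (1 - y b) = χ(g) a`, `y ∈ χ(g) R`: contradiction to `reg` (`D = 1`).
  So choose `y₁ = Tr (a_j y)`, `BF.change_y`.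
* generators: `F₁ := {Tr (a_j φ) | φ ∈ F ∪ {t i, (t i)⁻¹}}`: `φ = ∑ b_j Tr (a_j φ)`, `b_j ∈ C ⊆ Λ'`, so
  `R = locv Λ'[F₁, χ₁(≥0)]` (`χ(γ) = χ₁(γ) ∏ t_i^{-n_i}`). Here `t i ∈ fld K C` because `t i = χ₁(u i) / χ(u i)`.
All of this is an `Adap B₁ E₁`. -/

set_option autoImplicit false
set_option linter.unusedSectionVars false
set_option linter.unusedVariables false

open Polynomial

namespace Pool.Agent.LUM

open Pool.Agent.H15JM (RVal)
open Pool.Agent.LU1 (VPos LatData val_add_vpos adj GoodBasis)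

universe u

variable {Λ Λ' Q Ω : Type u} [CommRing Λ] [IsDomain Λ] [IsDiscreteValuationRing Λ]
  [CommRing Λ'] [IsDomain Λ'] [IsDiscreteValuationRing Λ'] [Algebra Λ Λ'] [Field Q]
  [Algebra Λ Q] [IsFractionRing Λ Q] [Field Ω] [Algebra Λ Ω] [Algebra Λ' Ω]
  [IsScalarTower Λ Λ' Ω] [Algebra Q Ω] [IsScalarTower Λ Q Ω]
  {ϖ : Λ} {ϖ' : Λ'} {v : RVal Ω} {r : ℕ}

/-- the trace over the chosen automorphisms -/
private noncomputable def Tr7 {K : IntermediateField Q Ω} {n : ℕ} (τ : Fin (n + 1) → (Ω ≃ₐ[K] Ω))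
    (f : Ω) : Ω := ∑ i, τ i f

private theorem avg_id7 {K : IntermediateField Q Ω} {n m : ℕ} (τ : Fin (n + 1) → (Ω ≃ₐ[K] Ω))
    (h0 : τ 0 = 1) (a b : Fin m → Ω)
    (hab : ∀ i, ∑ j, b j * τ i (a j) = if i = 0 then 1 else 0) (f : Ω) :
    ∑ j, b j * Tr7 τ (a j * f) = f := by
  unfold Tr7
  calc ∑ j, b j * ∑ i, τ i (a j * f) = ∑ j, ∑ i, b j * τ i (a j) * τ i f := by
        refine Finset.sum_congr rfl fun j _ => ?_
        rw [Finset.mul_sum]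
        refine Finset.sum_congr rfl fun i _ => ?_
        rw [map_mul]; ring
    _ = ∑ i, (∑ j, b j * τ i (a j)) * τ i f := by
        rw [Finset.sum_comm]
        refine Finset.sum_congr rfl fun i _ => ?_
        rw [Finset.sum_mul]
    _ = f := by
        simp only [hab]
        rw [Finset.sum_eq_single 0]
        · simp [h0]
        · intro i _ hi
          simp [hi]
        · simp

private theorem le_fld7 {K : IntermediateField Q Ω} {C : Subalgebra Λ Ω} {c : Ω} (hc : c ∈ C) :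
    c ∈ fld K C :=
  le_sup_right (a := K) (IntermediateField.subset_adjoin Q (C : Set Ω) hc)

private theorem tr_inv7 {K : IntermediateField Q Ω} {C : Subalgebra Λ Ω} {n : ℕ}
    (τ : Fin (n + 1) → (Ω ≃ₐ[K] Ω)) (hτ : ∀ i, τ i ∈ DD v K)
    (hcov : ∀ σ ∈ DD v K, ∃ i, ∀ x ∈ fld K C, σ x = τ i x)
    (hsep : ∀ i j, i ≠ j → ∃ c ∈ C, τ i c - τ j c ≠ 0 ∧ v (τ i c - τ j c) = 0)
    {σ : Ω ≃ₐ[K] Ω} (hσ : σ ∈ DD v K) {f : Ω} (hf : f ∈ fld K C) : σ (Tr7 τ f) = Tr7 τ f := by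
  choose π hπ using fun i => hcov (σ * τ i) ((DD v K).mul_mem hσ (hτ i))
  have hπ' : ∀ i, ∀ x ∈ fld K C, σ (τ i x) = τ (π i) x := by
    intro i x hx
    have h1 := hπ i x hx
    rwa [AlgEquiv.mul_apply] at h1
  have hinj : Function.Injective π := by
    intro i j hij
    by_contra hne
    obtain ⟨c, hc, hd, -⟩ := hsep i j hne
    apply hd
    have h1 := hπ' i c (le_fld7 hc)
    have h2 := hπ' j c (le_fld7 hc)
    rw [hij, ← h2] at h1
    rw [σ.injective h1, sub_self]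
  have hbij : Function.Bijective π := Finite.injective_iff_bijective.1 hinj
  unfold Tr7
  rw [map_sum]
  calc ∑ i, σ (τ i f) = ∑ i, τ (π i) f := Finset.sum_congr rfl fun i _ => hπ' i f hf
    _ = ∑ i, τ i f := hbij.sum_comp fun i => τ i f

/-- the elements of `L` fixed by `DD` -/
private def E7 (v : RVal Ω) (K L : IntermediateField Q Ω) : IntermediateField Q Ω where
  carrier := {x | x ∈ L ∧ ∀ σ ∈ DD v K, σ x = x}
  mul_mem' := by
    rintro x y ⟨h1, h2⟩ ⟨h3, h4⟩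
    exact ⟨L.mul_mem h1 h3, fun σ hσ => by rw [map_mul, h2 σ hσ, h4 σ hσ]⟩
  one_mem' := ⟨L.one_mem, fun σ _ => map_one σ⟩
  add_mem' := by
    rintro x y ⟨h1, h2⟩ ⟨h3, h4⟩
    exact ⟨L.add_mem h1 h3, fun σ hσ => by rw [map_add, h2 σ hσ, h4 σ hσ]⟩
  zero_mem' := ⟨L.zero_mem, fun σ _ => map_zero σ⟩
  algebraMap_mem' := by
    intro q
    refine ⟨L.algebraMap_mem q, fun σ _ => ?_⟩
    have h1 := σ.commutes (algebraMap Q K q)
    rwa [← IsScalarTower.algebraMap_apply Q K Ω q] at h1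
  inv_mem' := by
    rintro x ⟨h1, h2⟩
    exact ⟨L.inv_mem h1, fun σ hσ => by rw [map_inv₀, h2 σ hσ]⟩

private theorem exists_rep7 {Λ Ω : Type u} [CommRing Λ] [IsDomain Λ] [IsDiscreteValuationRing Λ]
    [Field Ω] [Algebra Λ Ω] {ϖ : Λ} {v : RVal Ω} {r : ℕ} (h : Ctx0 ϖ v r) (B : BF ϖ v) {m : ℕ}
    (b z : Fin m → Ω) (hb : ∀ j, b j ∈ B.R) (hz : ∀ j, z j ∈ B.R) (hv : ∀ j, VPos v (z j))
    (hs : ∑ j, b j * z j = B.y) : ∃ j, B.Rep (z j) 0 1 := by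
  by_contra hno
  push Not at hno
  have key : ∀ j, ∃ δ ∈ B.Γ, 0 < δ ∧ ∃ c ∈ B.R, ∃ d ∈ B.R, z j = B.χ δ * c + B.y ^ 2 * d := by
    intro j
    obtain ⟨γ, hγ, hγ0, a, ha, b', hb', h1⟩ := B.gen (z j) (hz j) (hv j)
    have hvb : VPos v b' := by
      intro hb0
      rcases lt_or_eq_of_le (B.nonneg _ hb' hb0) with h2 | h2
      · exact h2
      · exfalso
        apply hno j
        refine ⟨B.Γ.zero_mem, b', ⟨hb', hb0, h2.symm⟩, γ, hγ, hγ0, a, ha, ?_⟩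
        rw [h1, B.χ_zero]; ring
    obtain ⟨g, hg, hg0, a', ha', b'', hb'', h2⟩ := B.gen b' hb' hvb
    obtain ⟨c, hc, h3⟩ := B.ideal_add hγ hg ha (B.R.mul_mem B.y_mem ha')
    refine ⟨min γ g, ?_, lt_min hγ0 hg0, c, hc, b'', hb'', ?_⟩
    · rcases min_choice γ g with h | h <;> rw [h] <;> assumption
    · rw [← h3, h1, h2]; ring
  have hsum : ∃ δ ∈ B.Γ, 0 < δ ∧ ∃ c ∈ B.R, ∃ d ∈ B.R, ∑ j, b j * z j = B.χ δ * c + B.y ^ 2 * d := by
    refine Finset.sum_induction _ (fun x => ∃ δ ∈ B.Γ, 0 < δ ∧ ∃ c ∈ B.R, ∃ d ∈ B.R,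
      x = B.χ δ * c + B.y ^ 2 * d) ?_ ?_ ?_
    · rintro x y ⟨δ, hδ, hδ0, c, hc, d, hd, rfl⟩ ⟨δ', hδ', hδ0', c', hc', d', hd', rfl⟩
      obtain ⟨e, he, h3⟩ := B.ideal_add hδ hδ' hc hc'
      refine ⟨min δ δ', ?_, lt_min hδ0 hδ0', e, he, d + d', B.R.add_mem hd hd', ?_⟩
      · rcases min_choice δ δ' with h | h <;> rw [h] <;> assumption
      · rw [← h3]; ring
    · obtain ⟨δ, hδ, hδ0⟩ := RepAux.exists_pos B
      exact ⟨δ, hδ, hδ0, 0, B.R.zero_mem, 0, B.R.zero_mem, by ring⟩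
    · intro j _
      obtain ⟨δ, hδ, hδ0, c, hc, d, hd, h1⟩ := key j
      refine ⟨δ, hδ, hδ0, b j * c, B.R.mul_mem (hb j) hc, b j * d, B.R.mul_mem (hb j) hd, ?_⟩
      rw [h1]; ring
  rw [hs] at hsum
  obtain ⟨δ, hδ, hδ0, c, hc, d, hd, h1⟩ := hsum
  have hun : B.Un (1 + -(B.y * d)) :=
    BF.Un.one.add_vpos (B.R.neg_mem (B.R.mul_mem B.y_mem hd)) (LU1.VPos.mul B.vpos_y (B.nonneg _ hd)).neg
  have h2 : B.y * (1 + -(B.y * d)) = B.χ δ * c := by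
    have h3 : B.y - B.y ^ 2 * d = B.χ δ * c := by
      nth_rewrite 1 [h1]; ring
    rw [← h3]; ring
  refine B.reg 1 δ hδ hδ0 (c * (1 + -(B.y * d))⁻¹) (B.R.mul_mem hc hun.inv.1) ?_
  rw [pow_one, ← mul_assoc, ← h2, mul_assoc, mul_inv_cancel₀ hun.2.1, mul_one]

theorem exists_adapted (h : Clo ϖ ϖ' v r) (K : IntermediateField Q Ω)
    (hK : ∀ g : Ω, IsAlgebraic K g) (B : BF ϖ' v) (hB : FracIs B.R (hull Λ v K))
    (hst : ∀ τ ∈ DD v K, ∀ x, x ∈ B.R ↔ τ x ∈ B.R)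
    (hse : ∀ τ ∈ DD v K, ∀ γ ∈ B.Γ, B.Un (τ (B.χ γ) / B.χ γ)) :
    ∃ (C : Subalgebra Λ Ω) (E₁ : IntermediateField Q Ω) (B₁ : BF ϖ' v),
      EtU v (⊥ : Subalgebra Λ Ω) C ∧ K ≤ E₁ ∧ E₁ ≤ fld K C ∧
      (∀ τ ∈ DD v K, ∀ x ∈ E₁, τ x = x) ∧ Adap B₁ E₁ ∧ B₁.R = B.R := by
  classical
  obtain ⟨w, hw⟩ := B.exists_basis h.c1.toCtx0 (∅ : Finset ℝ) (by simp)
  obtain ⟨F, hF⟩ := B.fgen
  have hFR : ∀ f ∈ F, f ∈ B.R := by
    intro f hf
    rw [hF]
    exact le_locv _ (Algebra.subset_adjoin (Or.inl hf))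
  have hχhull : ∀ γ ∈ B.Γ, B.χ γ ∈ hull Λ v K := by
    intro γ hγ
    rcases le_total 0 γ with h0 | h0
    · exact hB.1 _ (B.χ_mem γ hγ h0)
    · have h1 := hB.1 _ (B.χ_mem (-γ) (B.Γ.neg_mem hγ) (by linarith))
      rw [B.χ_neg hγ] at h1
      have h2 := (hull Λ v K).inv_mem h1
      rwa [inv_inv] at h2
  obtain ⟨C, hC, hWC, hCst⟩ := exists_stable_C h.c0 K hK
    (F ∪ Finset.univ.image (fun i => B.χ (w i)) ∪ {B.y}) (by
      intro x hx
      rw [Finset.mem_union, Finset.mem_union] at hx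
      rcases hx with (hx | hx) | hx
      · exact hB.1 _ (hFR x hx)
      · obtain ⟨i, -, rfl⟩ := Finset.mem_image.1 hx
        exact hχhull _ (hw.mem i)
      · rw [Finset.mem_singleton.1 hx]
        exact hB.1 _ B.y_mem)
  have hFC : ∀ f ∈ F, f ∈ fld K C := fun f hf =>
    hWC f (Finset.mem_union_left _ (Finset.mem_union_left _ hf))
  have hχC : ∀ i, B.χ (w i) ∈ fld K C := fun i =>
    hWC _ (Finset.mem_union_left _ (Finset.mem_union_right _ (Finset.mem_image_of_mem _ (Finset.mem_univ i))))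
  have hyC : B.y ∈ fld K C := hWC _ (Finset.mem_union_right _ (Finset.mem_singleton_self _))
  obtain ⟨n, τ, hτ, hτ0, hcov, hsep⟩ := exists_reps h.c0 K hK hC hCst
  have hdvl : DVl ϖ v C := EtU.dvl h.c0 (DVl.bot h.c0) hC
  obtain ⟨m, a, b, ha, hb, hab⟩ := exists_avg (v := v) C hdvl.loc
    (fun i => ((τ i : Ω ≃ₐ[K] Ω) : Ω →+* Ω)) (fun i c hc => hCst (τ i) (hτ i) c hc) (by
      ext x
      simp [hτ0]) (by
      intro i hi
      obtain ⟨c, hc, h1, h2⟩ := hsep 0 i (Ne.symm hi)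
      refine ⟨c, hc, ?_, ?_⟩
      · simpa [hτ0] using h1
      · simpa [hτ0] using h2)
  have hab' : ∀ i, ∑ j, b j * τ i (a j) = if i = 0 then 1 else 0 := fun i => hab i
  have hCR : ∀ c ∈ C, c ∈ B.R := fun c hc => BF.henU_le h B (hC.le_henU hc)
  have hCf : ∀ c ∈ C, c ∈ fld K C := fun c hc => le_fld7 hc
  have hTf : ∀ f ∈ fld K C, Tr7 τ f ∈ fld K C := fun f hf =>
    sum_mem fun k _ => fld_stable K hCst (τ k) (hτ k) f hf
  have hTi : ∀ f ∈ fld K C, ∀ σ ∈ DD v K, σ (Tr7 τ f) = Tr7 τ f := fun f hf σ hσ =>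
    tr_inv7 τ hτ hcov hsep hσ hf
  have hTE : ∀ f ∈ fld K C, Tr7 τ f ∈ E7 v K (fld K C) := fun f hf => ⟨hTf f hf, hTi f hf⟩
  have hTR : ∀ j, ∀ f ∈ B.R, Tr7 τ (a j * f) ∈ B.R := by
    intro j f hf
    refine sum_mem fun k _ => ?_
    rw [map_mul]
    exact B.R.mul_mem (hCR _ (hCst _ (hτ k) _ (ha j))) ((hst _ (hτ k) f).1 hf)
  -- the monomials
  have hexj : ∀ i, ∃ j, B.Un (Tr7 τ (a j * B.χ (w i)) / B.χ (w i)) := by
    intro i
    by_contra hno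
    push Not at hno
    have hχ0 := B.χ_ne _ (hw.mem i)
    have hmem : ∀ j, Tr7 τ (a j * B.χ (w i)) / B.χ (w i) ∈ B.R := by
      intro j
      have e : Tr7 τ (a j * B.χ (w i)) / B.χ (w i) = ∑ k, τ k (a j) * (τ k (B.χ (w i)) / B.χ (w i)) := by
        unfold Tr7
        rw [Finset.sum_div]
        refine Finset.sum_congr rfl fun k _ => ?_
        rw [map_mul, mul_div_assoc]
      rw [e]
      exact sum_mem fun k _ => B.R.mul_mem (hCR _ (hCst _ (hτ k) _ (ha j))) (hse _ (hτ k) _ (hw.mem i)).1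
    have hvp : ∀ j, VPos v (Tr7 τ (a j * B.χ (w i)) / B.χ (w i)) := by
      intro j h0
      rcases lt_or_eq_of_le (B.nonneg _ (hmem j) h0) with h1 | h1
      · exact h1
      · exact absurd ⟨hmem j, h0, h1.symm⟩ (hno j)
    have hsum : ∑ j, (Tr7 τ (a j * B.χ (w i)) / B.χ (w i)) * b j = 1 := by
      have h1 := avg_id7 τ hτ0 a b hab' (B.χ (w i))
      calc ∑ j, (Tr7 τ (a j * B.χ (w i)) / B.χ (w i)) * b j = (∑ j, b j * Tr7 τ (a j * B.χ (w i))) / B.χ (w i) := by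
            rw [Finset.sum_div]
            refine Finset.sum_congr rfl fun j _ => ?_
            ring
        _ = 1 := by rw [h1, div_self hχ0]
    have h2 : VPos v (∑ j, (Tr7 τ (a j * B.χ (w i)) / B.χ (w i)) * b j) :=
      Finset.sum_induction _ (VPos v) (fun _ _ h1 h2 => h1.add h2) LU1.VPos.zero
        (fun j _ => (hvp j).mul (hdvl.nonneg _ (hb j)))
    rw [hsum] at h2
    have h3 := h2 one_ne_zero
    rw [v.map_one] at h3
    exact lt_irrefl _ h3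
  choose jj hjj using hexj
  obtain ⟨t, htd⟩ : ∃ t : Fin r → Ω, t = fun i => Tr7 τ (a (jj i) * B.χ (w i)) / B.χ (w i) := ⟨_, rfl⟩
  have ht : ∀ i, B.Un (t i) := by intro i; rw [htd]; exact hjj i
  have htχ : ∀ i, B.χ (w i) * t i = Tr7 τ (a (jj i) * B.χ (w i)) := by
    intro i
    rw [htd]
    simp only
    rw [mul_div_cancel₀ _ (B.χ_ne _ (hw.mem i))]
  have htE : ∀ i, B.χ (w i) * t i ∈ E7 v K (fld K C) := by
    intro i
    rw [htχ i]
    exact hTE _ ((fld K C).mul_mem (hCf _ (ha _)) (hχC i))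
  have htC : ∀ i, t i ∈ fld K C := by
    intro i
    have h1 : t i = (B.χ (w i) * t i) / B.χ (w i) := by
      rw [mul_div_cancel_left₀ _ (B.χ_ne _ (hw.mem i))]
    rw [h1]
    exact (fld K C).div_mem (htE i).1 (hχC i)
  obtain ⟨B', hΓ', hy', hR', -, hχ', -⟩ := BF.change_χ h.c1.toCtx0 B w hw.mem hw.ind hw.gen t ht
  -- the last parameter
  have hzR : ∀ j, Tr7 τ (a j * B.y) ∈ B.R := fun j => hTR j _ B.y_mem
  have hzv : ∀ j, VPos v (Tr7 τ (a j * B.y)) := by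
    intro j
    refine Finset.sum_induction _ (VPos v) (fun _ _ h1 h2 => h1.add h2) LU1.VPos.zero (fun k _ => ?_)
    rw [map_mul]
    refine LU1.VPos.mul' (B.nonneg _ (hCR _ (hCst _ (hτ k) _ (ha j)))) ?_
    intro _
    rw [hτ k B.y B.y_ne]
    exact B.y_pos
  obtain ⟨j, hj⟩ := exists_rep7 h.c1.toCtx0 B' b (fun j => Tr7 τ (a j * B.y)) (fun j => by rw [hR']; exact hCR _ (hb j))
    (fun j => by rw [hR']; exact hzR j) hzv (by rw [hy']; exact avg_id7 τ hτ0 a b hab' B.y)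
  obtain ⟨B₁, hΓ₁, hχ₁, hy₁, hR₁⟩ := B'.change_y h.c1.toCtx0 hj
  have hRR : B₁.R = B.R := hR₁.trans hR'
  have hΓΓ : B₁.Γ = B.Γ := hΓ₁.trans hΓ'
  have hχE : ∀ γ ∈ B.Γ, B₁.χ γ ∈ E7 v K (fld K C) := by
    intro γ hγ
    obtain ⟨q, hq⟩ := hw.gen γ hγ
    rw [hχ₁, hχ' γ hγ q hq]
    exact prod_mem fun i _ => zpow_mem (htE i) _
  -- generators
  obtain ⟨G, hG⟩ : ∃ G : Finset Ω, G = F ∪ Finset.univ.image t ∪ Finset.univ.image (fun i => (t i)⁻¹) := ⟨_, rfl⟩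
  have hGR : ∀ f ∈ G, f ∈ B.R := by
    intro f hf
    rw [hG, Finset.mem_union, Finset.mem_union] at hf
    rcases hf with (hf | hf) | hf
    · exact hFR f hf
    · obtain ⟨i, -, rfl⟩ := Finset.mem_image.1 hf
      exact (ht i).1
    · obtain ⟨i, -, rfl⟩ := Finset.mem_image.1 hf
      exact (ht i).inv.1
  have hGC : ∀ f ∈ G, f ∈ fld K C := by
    intro f hf
    rw [hG, Finset.mem_union, Finset.mem_union] at hf
    rcases hf with (hf | hf) | hf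
    · exact hFC f hf
    · obtain ⟨i, -, rfl⟩ := Finset.mem_image.1 hf
      exact htC i
    · obtain ⟨i, -, rfl⟩ := Finset.mem_image.1 hf
      exact (fld K C).inv_mem (htC i)
  obtain ⟨F₁, hF₁⟩ : ∃ F₁ : Finset Ω, F₁ = ((Finset.univ : Finset (Fin m)) ×ˢ G).image
    (fun p => Tr7 τ (a p.1 * p.2)) := ⟨_, rfl⟩
  have hF₁mem : ∀ j, ∀ φ ∈ G, Tr7 τ (a j * φ) ∈ F₁ := by
    intro j φ hφ
    rw [hF₁]
    exact Finset.mem_image.2 ⟨(j, φ), Finset.mem_product.2 ⟨Finset.mem_univ _, hφ⟩, rfl⟩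
  have hF₁E : ∀ f ∈ F₁, f ∈ E7 v K (fld K C) := by
    intro f hf
    rw [hF₁] at hf
    obtain ⟨p, hp, rfl⟩ := Finset.mem_image.1 hf
    exact hTE _ ((fld K C).mul_mem (hCf _ (ha _)) (hGC _ (Finset.mem_product.1 hp).2))
  have hF₁R : ∀ f ∈ F₁, f ∈ B.R := by
    intro f hf
    rw [hF₁] at hf
    obtain ⟨p, hp, rfl⟩ := Finset.mem_image.1 hf
    exact hTR _ _ (hGR _ (Finset.mem_product.1 hp).2)
  obtain ⟨S, hS⟩ : ∃ S : Subalgebra Λ' Ω, S = Algebra.adjoin Λ'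
    ((F₁ : Set Ω) ∪ B₁.χ '' {γ | γ ∈ B₁.Γ ∧ 0 ≤ γ}) := ⟨_, rfl⟩
  have hCS : ∀ c ∈ C, c ∈ S := by
    intro c hc
    obtain ⟨d, rfl⟩ := (h.rng c).1 (hC.le_henU hc)
    exact S.algebraMap_mem d
  have hGS : ∀ φ ∈ G, φ ∈ S := by
    intro φ hφ
    rw [← avg_id7 τ hτ0 a b hab' φ]
    refine sum_mem fun j _ => S.mul_mem (hCS _ (hb j)) ?_
    rw [hS]
    exact Algebra.subset_adjoin (Or.inl (hF₁mem j φ hφ))
  have htS : ∀ i, ∀ q : ℤ, t i ^ q ∈ S := by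
    intro i q
    have h1 : t i ∈ S := hGS _ (by
      rw [hG]
      exact Finset.mem_union_left _ (Finset.mem_union_right _ (Finset.mem_image_of_mem _ (Finset.mem_univ i))))
    have h2 : (t i)⁻¹ ∈ S := hGS _ (by
      rw [hG]
      exact Finset.mem_union_right _ (Finset.mem_image_of_mem (fun i => (t i)⁻¹) (Finset.mem_univ i)))
    cases q with
    | ofNat q => simpa using S.pow_mem h1 q
    | negSucc q =>
      rw [zpow_negSucc, ← inv_pow]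
      exact S.pow_mem h2 _
  have hχS : ∀ γ ∈ B.Γ, 0 ≤ γ → B.χ γ ∈ S := by
    intro γ hγ h0
    obtain ⟨q, hq⟩ := hw.gen γ hγ
    have h1 : B₁.χ γ = B.χ γ * ∏ i, t i ^ q i := by
      rw [hχ₁, hχ' γ hγ q hq]
      have h2 := (NFA.χ_sum B Finset.univ w hw.mem q).2
      rw [← hq] at h2
      rw [h2, ← Finset.prod_mul_distrib]
      exact Finset.prod_congr rfl fun i _ => mul_zpow _ _ _
    have h2 : B.χ γ = B₁.χ γ * ∏ i, t i ^ (-(q i)) := by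
      rw [h1, mul_assoc, ← Finset.prod_mul_distrib]
      have h3 : ∏ i, t i ^ q i * t i ^ (-(q i)) = 1 := by
        apply Finset.prod_eq_one
        intro i _
        rw [← zpow_add₀ (ht i).2.1, add_neg_cancel, zpow_zero]
      rw [h3, mul_one]
    rw [h2]
    refine S.mul_mem ?_ (prod_mem fun i _ => htS i _)
    rw [hS]
    refine Algebra.subset_adjoin (Or.inr ⟨γ, ⟨by rw [hΓΓ]; exact hγ, h0⟩, rfl⟩)
  have hgen : B₁.R = locv v S := by
    rw [hRR]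
    apply le_antisymm
    · rw [hF]
      refine locv_mono (Algebra.adjoin_le ?_)
      rintro f (hf | ⟨γ, ⟨hγ, h0⟩, rfl⟩)
      · exact hGS f (by
          rw [hG]
          exact Finset.mem_union_left _ (Finset.mem_union_left _ hf))
      · exact hχS γ hγ h0
    · rw [hS]
      refine locv_le (Algebra.adjoin_le ?_) B.loc
      rintro f (hf | ⟨γ, ⟨hγ, h0⟩, rfl⟩)
      · exact hF₁R f hf
      · have h1 := B₁.χ_mem γ hγ h0
        rw [hRR] at h1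
        exact h1
  refine ⟨C, E7 v K (fld K C), B₁, hC, ?_, ?_, ?_, ?_, hRR⟩
  · intro x hx
    exact ⟨le_sup_left (a := K) hx, fun σ _ => σ.commutes (⟨x, hx⟩ : K)⟩
  · intro x hx
    exact hx.1
  · intro σ hσ x hx
    exact hx.2 σ hσ
  · refine ⟨?_, ?_, F₁, hF₁E, ?_⟩
    · intro γ hγ
      rw [hΓΓ] at hγ
      exact hχE γ hγ
    · rw [hy₁]
      exact hTE _ ((fld K C).mul_mem (hCf _ (ha j)) hyC)
    · rw [hgen, hS]

end Pool.Agent.LUM
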