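import Pool.Agent.Lib.LUM.T01
import Pool.Agent.Lib.LU1_h15.GalTheta

/-! # T08: a field fixed by `DD` is etale with trivial residue extension

Recipe (compare `exists_theta` in `GalTheta.lean`, and `exists_sep`-type weak approximation
`LU1.GalThetaAux.exists_sep` in `LU1_h15`).  `N/K` a finite Galois extension in `Ω` containing `E₁`
(normal closure), `D = {s ∈ Gal(N/K) | v s = v on N}`.  By `exists_lift_aut` every `s ∈ D` is the
restriction of some `τ ∈ DD`, so it fixes `E₁`: `D ≤ H := Gal(N/E₁)`.  Weak approximation: `α ∈ N` with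
`v (α - 1) > 0` and `v (s α) > 0` for all `s ∉ D` (the valuations `v ∘ s`, `s ∉ D`, are different from `v`).
`β := 1 - ∏ t ∈ H, (1 - t α) ∈ E₁`: `v (β - 1) > 0` (factor `t = 1`; all `t α` have value `≥ 0`); for
`s ∉ H`, `s t ∉ D` for all `t ∈ H`, so `v (s (t α)) > 0` and `s β = 1 - ∏ (1 - s t α)` has positive value.
So `s β ≠ β` for `s ∉ H`: `E₁ = K(β) = adj K β`; the conjugates of `β` over `K` are `β` and elements of positive
value: `minpoly K β` has coefficients of value `≥ 0`, `h'(β) = ∏ (β - s β)` over the other conjugates has value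
zero. -/

set_option autoImplicit false
set_option linter.unusedSectionVars false
set_option linter.unusedVariables false

open Polynomial

namespace Pool.Agent.LUM

open Pool.Agent.H15JM (RVal)
open Pool.Agent.LU1 (VPos LatData val_add_vpos adj)

universe u

variable {Λ Q Ω : Type u} [CommRing Λ] [IsDomain Λ] [IsDiscreteValuationRing Λ] [Field Q]
  [Algebra Λ Q] [IsFractionRing Λ Q] [Field Ω] [Algebra Λ Ω] [Algebra Q Ω] [IsScalarTower Λ Q Ω]
  {ϖ : Λ} {v : RVal Ω} {r : ℕ}

namespace T08Aux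

/-- The valuation ring. -/
private def Ov (v : RVal Ω) : Subring Ω where
  carrier := {x | v.Ge 0 x}
  mul_mem' := by
    intro a b ha hb
    have h := RVal.Ge.mul ha hb
    rwa [add_zero] at h
  one_mem' := by
    intro _
    rw [v.map_one]
  add_mem' := fun ha hb => ha.add hb
  zero_mem' := RVal.Ge.zero
  neg_mem' := fun ha => ha.neg

private theorem coeff_ge {F : Type u} [Field F] [Algebra F Ω] (P : Polynomial F) (hP : P.Monic)
    (hs : (P.map (algebraMap F Ω)).Splits) (hr : ∀ ρ ∈ P.aroots Ω, v.Ge 0 ρ) (i : ℕ) :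
    v.Ge 0 (algebraMap F Ω (P.coeff i)) := by
  rw [← coeff_map, hs.eq_prod_roots_of_monic (hP.map _)]
  have h1 : (Multiset.map (fun a => X - C a) (P.map (algebraMap F Ω)).roots).prod ∈
      Polynomial.lifts (Ov v).subtype := by
    refine Subsemiring.multiset_prod_mem _ _ ?_
    intro q hq
    rw [Multiset.mem_map] at hq
    obtain ⟨a, ha, rfl⟩ := hq
    refine ⟨X - C ⟨a, hr a ha⟩, ?_⟩
    simp
  rw [Polynomial.lifts_iff_coeff_lifts] at h1
  obtain ⟨y, hy⟩ := h1 i
  rw [← hy]
  exact y.2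

private theorem deriv_unit {F : Type u} [Field F] [Algebra F Ω] (P : Polynomial F) (hP : P.Monic)
    (hs : (P.map (algebraMap F Ω)).Splits) (hsep : P.Separable) {β : Ω} (hβ : β ∈ P.aroots Ω)
    (hr : ∀ ρ ∈ P.aroots Ω, ρ ≠ β → β - ρ ≠ 0 ∧ v (β - ρ) = 0) :
    aeval β (derivative P) ≠ 0 ∧ v (aeval β (derivative P)) = 0 := by
  classical
  have h1 := hs.eval_root_derivative (hP.map _) hβ
  rw [derivative_map, eval_map_algebraMap] at h1
  rw [h1]
  have hnd : (P.aroots Ω).Nodup := nodup_roots hsep.map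
  have h2 : ∀ ρ ∈ (P.aroots Ω).erase β, β - ρ ≠ 0 ∧ v (β - ρ) = 0 := by
    intro ρ hρ
    rw [hnd.mem_erase_iff] at hρ
    exact hr ρ hρ.2 hρ.1
  have h3 : ∀ s : Multiset Ω, (∀ ρ ∈ s, β - ρ ≠ 0 ∧ v (β - ρ) = 0) →
      (s.map (β - ·)).prod ≠ 0 ∧ v (s.map (β - ·)).prod = 0 := by
    intro s
    induction s using Multiset.induction_on with
    | empty =>
      intro _
      rw [Multiset.map_zero, Multiset.prod_zero]
      exact ⟨one_ne_zero, v.map_one⟩
    | cons a s ih =>
      intro hs'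
      obtain ⟨h4, h5⟩ := ih fun ρ hρ => hs' ρ (Multiset.mem_cons_of_mem hρ)
      obtain ⟨h6, h7⟩ := hs' a (Multiset.mem_cons_self a s)
      rw [Multiset.map_cons, Multiset.prod_cons]
      refine ⟨mul_ne_zero h6 h4, ?_⟩
      rw [v.map_mul h6 h4, h5, h7, add_zero]
  exact h3 _ h2

end T08Aux

open T08Aux

theorem exists_beta [IsAlgClosed Ω] [CharZero Q] (K : IntermediateField Q Ω)
    (hK : ∀ g : Ω, IsAlgebraic K g) (E₁ : IntermediateField Q Ω) (hKE : K ≤ E₁)
    (hfin : ∃ F : Finset Ω, E₁ ≤ K ⊔ IntermediateField.adjoin Q (F : Set Ω))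
    (hfix : ∀ τ ∈ DD v K, ∀ x ∈ E₁, τ x = x) :
    ∃ β : Ω, E₁ = adj K β ∧ IsIntegral K β ∧ (∀ i, v.Ge 0 ((minpoly K β).coeff i : Ω)) ∧
      aeval β (derivative (minpoly K β)) ≠ 0 ∧
      v (aeval β (derivative (minpoly K β))) = 0 ∧ VPos v (β - 1) := by
  classical
  have : CharZero K := charZero_of_injective_algebraMap (algebraMap Q K).injective
  have : Algebra.IsAlgebraic K Ω := ⟨hK⟩
  have hnorm : Normal K Ω := normal_iff.2 fun x =>
    ⟨(hK x).isIntegral, IsAlgClosed.splits _⟩
  obtain ⟨F, hF⟩ := hfin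
  let N₀ : IntermediateField K Ω := IntermediateField.adjoin K (F : Set Ω)
  have hfd : FiniteDimensional K N₀ :=
    IntermediateField.finiteDimensional_adjoin fun x _ => Algebra.IsIntegral.isIntegral x
  let N : IntermediateField K Ω := IntermediateField.normalClosure K N₀ Ω
  have hfdN : FiniteDimensional K N := inferInstance
  have hnormN : Normal K N := inferInstance
  have hsepN : Algebra.IsSeparable K N := inferInstance
  have hgal : IsGalois K N := { }
  have hE0 : ∀ x ∈ E₁, x ∈ N := by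
    intro x hx
    have h1 : K ⊔ IntermediateField.adjoin Q (F : Set Ω) ≤ N₀.restrictScalars Q := by
      refine sup_le ?_ ?_
      · intro y hy
        exact N₀.algebraMap_mem ⟨y, hy⟩
      · rw [IntermediateField.adjoin_le_iff]
        exact IntermediateField.subset_adjoin K _
    exact IntermediateField.le_normalClosure N₀ (h1 (hF hx))
  let T : IntermediateField K N := (IntermediateField.extendScalars hKE).comap N.val
  have hT : ∀ n : N, n ∈ T ↔ (n : Ω) ∈ E₁ := fun n => Iff.rfl
  let H := T.fixingSubgroup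
  have hDH : LU1.decG v K N ≤ H := by
    intro s hs x
    obtain ⟨τ, hτ, h1⟩ := exists_lift_aut K hK N s (v := v) fun n _ => hs n
    have h2 := hfix τ hτ _ ((hT _).1 x.2)
    apply Subtype.ext
    show ((s (x : N) : N) : Ω) = _
    rw [← h1, h2]
  -- the general step: from `β ∈ N`
  suffices hmain : ∃ β : N, (∀ s ∈ H, s β = β) ∧ VPos v ((β : Ω) - 1) ∧
      ∀ s : N ≃ₐ[K] N, s ∉ H → VPos v ((s β : N) : Ω) by
    obtain ⟨β, hβ1, hβ2, hβ3⟩ := hmain
    have hβv : (β : Ω) ≠ 0 ∧ v (β : Ω) = 0 := by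
      have h1 := val_add_vpos (one_ne_zero (α := Ω)) v.map_one hβ2
      have h2 : (1 : Ω) + ((β : Ω) - 1) = β := by ring
      rwa [h2] at h1
    have hne : ∀ s : N ≃ₐ[K] N, s ∉ H → s β ≠ β := by
      intro s hs h1
      have h2 := hβ3 s hs
      rw [h1] at h2
      have h3 := h2 hβv.1
      rw [hβv.2] at h3
      exact lt_irrefl _ h3
    have hβT : β ∈ T := by
      rw [← IsGalois.fixedField_fixingSubgroup T, IntermediateField.mem_fixedField_iff]
      exact hβ1
    have hβE : (β : Ω) ∈ E₁ := (hT β).1 hβT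
    -- roots of the minimal polynomial
    have hroot : ∀ ρ ∈ (minpoly K (β : Ω)).aroots Ω, ∃ s : N ≃ₐ[K] N, ρ = (s β : N) := by
      intro ρ hρ
      rw [← isConjRoot_iff_mem_minpoly_aroots (Algebra.IsIntegral.isIntegral _)] at hρ
      obtain ⟨σ, hσ⟩ := isConjRoot_iff_exists_algEquiv.1 hρ.symm
      refine ⟨σ.restrictNormal N, ?_⟩
      rw [← hσ]
      exact (σ.restrictNormal_commutes N β).symm
    have hroot' : ∀ ρ ∈ (minpoly K (β : Ω)).aroots Ω, ρ = β ∨ VPos v ρ := by
      intro ρ hρ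
      obtain ⟨s, rfl⟩ := hroot ρ hρ
      by_cases hs : s ∈ H
      · left; rw [hβ1 s hs]
      · right; exact hβ3 s hs
    have hint : IsIntegral K (β : Ω) := Algebra.IsIntegral.isIntegral _
    have hsplit : ((minpoly K (β : Ω)).map (algebraMap K Ω)).Splits := IsAlgClosed.splits _
    have hD := deriv_unit (v := v) (minpoly K (β : Ω)) (minpoly.monic hint) hsplit
      (minpoly.irreducible hint).separable (β := (β : Ω))
      (by
        rw [mem_aroots]
        exact ⟨minpoly.ne_zero hint, minpoly.aeval K _⟩)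
      (by
        intro ρ hρ hne'
        rcases hroot' ρ hρ with h1 | h1
        · exact absurd h1 hne'
        · have h2 := val_add_vpos hβv.1 hβv.2 h1.neg
          rwa [← sub_eq_add_neg] at h2)
    refine ⟨β, ?_, hint, ?_, hD.1, hD.2, hβ2⟩
    · apply le_antisymm
      · intro x hx
        have hKa : K ≤ adj K (β : Ω) := le_sup_left
        let T' : IntermediateField K N := (IntermediateField.extendScalars hKa).comap N.val
        have hT' : ∀ n : N, n ∈ T' ↔ (n : Ω) ∈ adj K (β : Ω) := fun n => Iff.rfl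
        have h2 : β ∈ T' := by
          rw [hT']
          refine (le_sup_right : IntermediateField.adjoin Q {(β : Ω)} ≤ _) ?_
          exact IntermediateField.mem_adjoin_simple_self Q (β : Ω)
        have h3 : T'.fixingSubgroup ≤ H := by
          intro s hs
          by_contra hsH
          exact hne s hsH (hs ⟨β, h2⟩)
        have h4 : T ≤ T' := by
          rw [← IsGalois.fixedField_fixingSubgroup T', ← IsGalois.fixedField_fixingSubgroup T]
          exact IntermediateField.fixedField_antitone h3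
        exact (hT' ⟨x, hE0 x hx⟩).1 (h4 ((hT ⟨x, hE0 x hx⟩).2 hx))
      · refine sup_le hKE ?_
        rw [IntermediateField.adjoin_simple_le_iff]
        exact hβE
    · intro i
      refine coeff_ge (v := v) (minpoly K (β : Ω)) (minpoly.monic hint) hsplit ?_ i
      intro ρ hρ
      rcases hroot' ρ hρ with h1 | h1
      · rw [h1]; exact fun _ => hβv.2.ge
      · exact h1.ge
  by_cases htr : ∀ n : N, n ≠ 0 → v (n : Ω) = 0
  · refine ⟨1, fun s _ => _root_.map_one s, ?_, ?_⟩
    · rw [OneMemClass.coe_one, sub_self]; exact LU1.VPos.zero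
    · intro s hs
      exfalso
      apply hs
      apply hDH
      intro n
      by_cases hn : n = 0
      · rw [hn, _root_.map_zero]
      · rw [htr n hn, htr (s n) (by simpa using hn)]
  push Not at htr
  obtain ⟨n0, hn0, hv0⟩ := htr
  obtain ⟨a, ha0, hva, hsa⟩ := LU1.GalThetaAux.exists_sep (k := Q) K N n0 hn0 hv0
  have ha0' : (a : Ω) ≠ 0 := by simpa using ha0
  have h1a : (a : Ω) + 1 ≠ 0 ∧ v ((a : Ω) + 1) = v (a : Ω) :=
    v.add_of_lt ha0' one_ne_zero (by rw [v.map_one]; exact hva)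
  let α : N := a / (a + 1)
  have hα : (α : Ω) = (a : Ω) / ((a : Ω) + 1) := rfl
  have hα1 : VPos v ((α : Ω) - 1) := by
    have h2 : (α : Ω) - 1 = -((a : Ω) + 1)⁻¹ := by
      rw [hα]; field_simp [h1a.1]; ring
    rw [h2]
    apply VPos.neg
    intro _
    rw [v.map_inv h1a.1, h1a.2]
    linarith
  have hsα : ∀ s : N ≃ₐ[K] N, s ∉ LU1.decG v K N → VPos v (s α : Ω) := by
    intro σ hσ
    have h3 : (σ α : Ω) = (σ a : Ω) * ((σ a : Ω) + 1)⁻¹ := by
      show ((σ (a / (a + 1)) : N) : Ω) = _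
      rw [map_div₀, _root_.map_add, _root_.map_one, div_eq_mul_inv]
      rfl
    have h4 : VPos v (σ a : Ω) := fun _ => hsa σ hσ
    have h5 := val_add_vpos (one_ne_zero (α := Ω)) v.map_one h4
    rw [add_comm] at h5
    rw [h3]
    apply h4.mul
    intro _
    rw [v.map_inv h5.1, h5.2, neg_zero]
  have hDα : ∀ s : N ≃ₐ[K] N, s ∈ LU1.decG v K N → v.Ge 0 (s α : Ω) := by
    intro s hs h6
    rw [hs α]
    have hα0 : (α : Ω) ≠ 0 := by
      intro h7
      have h8 : α = 0 := Subtype.ext h7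
      rw [h8, _root_.map_zero] at h6
      exact h6 rfl
    have h1 := val_add_vpos (one_ne_zero (α := Ω)) v.map_one hα1
    have h2 : (1 : Ω) + ((α : Ω) - 1) = α := by ring
    rw [h2] at h1
    exact h1.2.ge
  have hGe : ∀ s : N ≃ₐ[K] N, v.Ge 0 (s α : Ω) := by
    intro s
    by_cases hs : s ∈ LU1.decG v K N
    · exact hDα s hs
    · exact (hsα s hs).ge
  have hfinG : Finite (N ≃ₐ[K] N) := inferInstance
  have hftH : Fintype H := Fintype.ofFinite _
  have h1Ge : v.Ge 0 (1 : Ω) := fun _ => by rw [v.map_one]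
  refine ⟨1 - ∏ t : H, (1 - (t : N ≃ₐ[K] N) α), ?_, ?_, ?_⟩
  · intro s hs
    rw [_root_.map_sub, _root_.map_one, _root_.map_prod]
    congr 1
    refine Fintype.prod_equiv (Equiv.mulLeft (⟨s, hs⟩ : H)) _ _ ?_
    intro t
    rw [_root_.map_sub, _root_.map_one]
    rfl
  · have h1 : (((1 - ∏ t : H, (1 - (t : N ≃ₐ[K] N) α) : N) : Ω) - 1) =
        -(((∏ t : H, (1 - (t : N ≃ₐ[K] N) α) : N)) : Ω) := by
      rw [AddSubgroupClass.coe_sub, OneMemClass.coe_one]; ring
    rw [h1]
    apply VPos.neg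
    rw [← Finset.mul_prod_erase Finset.univ _ (Finset.mem_univ (1 : H)), MulMemClass.coe_mul]
    apply VPos.mul
    · have h2 : (((1 - ((1 : H) : N ≃ₐ[K] N) α : N)) : Ω) = -((α : Ω) - 1) := by
        rw [OneMemClass.coe_one, AlgEquiv.one_apply, AddSubgroupClass.coe_sub,
          OneMemClass.coe_one]
        ring
      rw [h2]
      exact hα1.neg
    · have h3 : ∀ s : Finset H, v.Ge 0 (((∏ t ∈ s, (1 - (t : N ≃ₐ[K] N) α) : N)) : Ω) := by
        intro s
        induction s using Finset.induction_on with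
        | empty => rw [Finset.prod_empty, OneMemClass.coe_one]; exact h1Ge
        | insert t s ht ih =>
          rw [Finset.prod_insert ht, MulMemClass.coe_mul]
          have h4 : v.Ge 0 ((1 - (t : N ≃ₐ[K] N) α : N) : Ω) := by
            rw [AddSubgroupClass.coe_sub, OneMemClass.coe_one]
            exact h1Ge.sub (hGe _)
          have h5 := h4.mul ih
          rwa [add_zero] at h5
      exact h3 _
  · intro s hs
    have h13 : ∀ t : H, s * (t : N ≃ₐ[K] N) ∉ LU1.decG v K N := by
      intro t h14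
      apply hs
      have h15 := H.mul_mem (hDH h14) (H.inv_mem t.2)
      rwa [mul_inv_cancel_right] at h15
    rw [_root_.map_sub, _root_.map_one, _root_.map_prod]
    have h16 : ∀ u : Finset H,
        VPos v (1 - ((∏ t ∈ u, s (1 - (t : N ≃ₐ[K] N) α) : N) : Ω)) := by
      intro u
      induction u using Finset.induction_on with
      | empty => rw [Finset.prod_empty, OneMemClass.coe_one, sub_self]; exact LU1.VPos.zero
      | insert t u ht ih =>
        rw [Finset.prod_insert ht, MulMemClass.coe_mul]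
        have h17 : VPos v ((s ((t : N ≃ₐ[K] N) α) : N) : Ω) := hsα _ (h13 t)
        have h18 : ((s (1 - (t : N ≃ₐ[K] N) α) : N) : Ω) = 1 - ((s ((t : N ≃ₐ[K] N) α) : N) : Ω) := by
          rw [_root_.map_sub, _root_.map_one, AddSubgroupClass.coe_sub, OneMemClass.coe_one]
        rw [h18]
        have h19 : 1 - (1 - ((s ((t : N ≃ₐ[K] N) α) : N) : Ω)) *
            ((∏ t ∈ u, s (1 - (t : N ≃ₐ[K] N) α) : N) : Ω) =
            ((s ((t : N ≃ₐ[K] N) α) : N) : Ω) + (1 - ((s ((t : N ≃ₐ[K] N) α) : N) : Ω)) *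
              (1 - ((∏ t ∈ u, s (1 - (t : N ≃ₐ[K] N) α) : N) : Ω)) := by ring
        rw [h19]
        exact h17.add (LU1.VPos.mul' (h1Ge.sub h17.ge) ih)
    have h20 : ((1 - ∏ t : H, s (1 - (t : N ≃ₐ[K] N) α) : N) : Ω) =
        1 - ((∏ t : H, s (1 - (t : N ≃ₐ[K] N) α) : N) : Ω) := by
      rw [AddSubgroupClass.coe_sub, OneMemClass.coe_one]
    rw [h20]
    exact h16 _

end Pool.Agent.LUM
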