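import Pool.Agent.Lib.LUM.U05
import Pool.Agent.Lib.LUM.T03
import Pool.Agent.Lib.LUM.T07
import Pool.Agent.Lib.LUM.T08
import Pool.Agent.Lib.LUM.A06
import Pool.Agent.Lib.LUM.E04
import Pool.Agent.Lib.LUM.R03
import Pool.Agent.Lib.LUM.Core

/-! # M01: local uniformization of `K` when the algebraic part of `K` is in the closed base (assembly)

`exists_clo`; `good_all` for `K' = ` the field generated by `K` over `Frac Λ'`; `exists_stable` (with
`Ctx0.rank_in`); `exists_adapted`; `Unr` for `E₁` (`Unr.fld`, `Unr.mono`); `LUF.of_adap`; `exists_beta`;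
`LUF.etale_desc` with `c₀ = 1`. -/

set_option autoImplicit false
set_option linter.unusedSectionVars false
set_option linter.unusedVariables false

open Polynomial

namespace Pool.Agent.LUM

open Pool.Agent.H15JM (RVal)
open Pool.Agent.LU1 (VPos LatData val_add_vpos adj)

universe u

variable {Λ Q Ω : Type u} [CommRing Λ] [IsDomain Λ] [IsDiscreteValuationRing Λ] [Field Q]
  [Algebra Λ Q] [IsFractionRing Λ Q] [Field Ω] [Algebra Λ Ω] [Algebra Q Ω] [IsScalarTower Λ Q Ω]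
  {ϖ : Λ} {v : RVal Ω} {r : ℕ}

/-- Over the closed base, the hull has a frame. -/
theorem exists_frame_hull (p : ℕ) (hp : p.Prime) {Λ' : Type u} [CommRing Λ'] [IsDomain Λ']
    [IsDiscreteValuationRing Λ'] [Algebra Λ Λ'] [Algebra Λ' Ω] [IsScalarTower Λ Λ' Ω] {ϖ' : Λ'}
    (h : Clo ϖ ϖ' v r) [IsAlgClosed (kk Λ')] [CharP (kk Λ') p] [IsAlgClosed Ω] [CharZero Q]
    (hsh : ∀ f : Polynomial Λ', f.Monic → ∀ θ : Ω, aeval θ f = 0 → aeval θ (derivative f) ≠ 0 →
        v (aeval θ (derivative f)) = 0 → ∃ c : Λ', algebraMap Λ' Ω c = θ)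
    (K : IntermediateField Q Ω) (hfg : K.FG) (hK : ∀ g : Ω, IsAlgebraic K g) :
    ∃ B : BF ϖ' v, FracIs B.R (hull Λ v K) := by
  classical
  have hΩ0 : CharZero Ω := charZero_of_injective_algebraMap (algebraMap Q Ω).injective
  have hinj : FaithfulSMul Λ' Ω := (faithfulSMul_iff_algebraMap_injective Λ' Ω).2 h.c1.inj
  let Q' := FractionRing Λ'
  let i1 : Algebra Q' Ω := FractionRing.liftAlgebra Λ' Ω
  have i2 : IsScalarTower Λ' Q' Ω := FractionRing.isScalarTower_liftAlgebra Λ' Ω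
  have i3 : CharZero Q' := RingHom.charZero (algebraMap Q' Ω)
  obtain ⟨S, hS⟩ := hfg
  let K' : IntermediateField Q' Ω := IntermediateField.adjoin Q' (S : Set Ω)
  have hΛ' : ∀ c : Λ', algebraMap Λ' Ω c ∈ hull Λ v K := fun c =>
    (le_sup_right : _ ≤ hull Λ v K) (IntermediateField.subset_adjoin _ _ ((h.rng _).2 ⟨c, rfl⟩))
  have hQ' : ∀ c : Q', algebraMap Q' Ω c ∈ hull Λ v K := by
    intro c
    obtain ⟨a, b, -, rfl⟩ := IsFractionRing.div_surjective (A := Λ') c
    rw [map_div₀, ← IsScalarTower.algebraMap_apply, ← IsScalarTower.algebraMap_apply]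
    exact div_mem (hΛ' a) (hΛ' b)
  have hK'1 : ∀ x ∈ K', x ∈ hull Λ v K := by
    intro x hx
    refine IntermediateField.adjoin_induction Q' (p := fun x _ => x ∈ hull Λ v K)
      (fun s hs => ?_) (fun c => hQ' c) (fun _ _ _ _ h1 h2 => add_mem h1 h2)
      (fun _ _ h1 => inv_mem h1) (fun _ _ _ _ h1 h2 => mul_mem h1 h2) hx
    refine (le_sup_left : K ≤ hull Λ v K) ?_
    rw [← hS]
    exact IntermediateField.subset_adjoin _ _ hs
  -- `K'` as a set contains `Q`, `K`, `henU`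
  have hQK : ∀ q : Q, algebraMap Q Ω q ∈ K' := by
    intro q
    obtain ⟨a, b, -, rfl⟩ := IsFractionRing.div_surjective (A := Λ) q
    rw [map_div₀, ← IsScalarTower.algebraMap_apply, ← IsScalarTower.algebraMap_apply,
      IsScalarTower.algebraMap_apply Λ Λ' Ω, IsScalarTower.algebraMap_apply Λ Λ' Ω,
      IsScalarTower.algebraMap_apply Λ' Q' Ω, IsScalarTower.algebraMap_apply Λ' Q' Ω]
    exact div_mem (K'.algebraMap_mem _) (K'.algebraMap_mem _)
  have hK'2 : ∀ x ∈ hull Λ v K, x ∈ K' := by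
    let K'' : IntermediateField Q Ω :=
      { K'.toSubfield with
        algebraMap_mem' := hQK }
    have h1 : hull Λ v K ≤ K'' := by
      refine sup_le ?_ ?_
      · rw [← hS, IntermediateField.adjoin_le_iff]
        intro s hs
        exact IntermediateField.subset_adjoin Q' _ hs
      · rw [IntermediateField.adjoin_le_iff]
        intro c hc
        obtain ⟨c', rfl⟩ := (h.rng c).1 hc
        change algebraMap Λ' Ω c' ∈ K'
        rw [IsScalarTower.algebraMap_apply Λ' Q' Ω]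
        exact K'.algebraMap_mem _
    exact fun x hx => h1 hx
  have hKK' : ∀ x ∈ K, x ∈ K' := fun x hx => hK'2 x ((le_sup_left : K ≤ hull Λ v K) hx)
  have halg : ∀ g : Ω, IsAlgebraic K' g := by
    intro g
    obtain ⟨P, hP0, hP⟩ := hK g
    let φ : K →+* K' :=
      { toFun := fun x => ⟨x.1, hKK' _ x.2⟩
        map_one' := rfl
        map_mul' := fun _ _ => rfl
        map_zero' := rfl
        map_add' := fun _ _ => rfl }
    refine ⟨P.map φ, ?_, ?_⟩
    · rwa [Ne, Polynomial.map_eq_zero]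
    · rw [Polynomial.aeval_def, Polynomial.eval₂_map]
      rw [Polynomial.aeval_def] at hP
      exact hP
  obtain ⟨B, hB⟩ := good_all (Q := Q') p hp h.c1 hsh K' ⟨S, rfl⟩ halg
  exact ⟨B, fun f hf => hK'1 f (hB.1 f hf), fun g hg => hB.2 g (hK'2 g hg)⟩

theorem EtU.mem_henU {C : Subalgebra Λ Ω} (hC : EtU v (⊥ : Subalgebra Λ Ω) C) :
    C ≤ henU Λ v := le_sSup hC

theorem hull_eq_of {K E : IntermediateField Q Ω} {C : Subalgebra Λ Ω}
    (hC : EtU v (⊥ : Subalgebra Λ Ω) C) (h1 : K ≤ E) (h2 : E ≤ fld K C) :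
    hull Λ v E = hull Λ v K := by
  refine le_antisymm (sup_le (h2.trans (sup_le le_sup_left ?_)) le_sup_right)
    (sup_le (h1.trans le_sup_left) le_sup_right)
  refine le_trans ?_ le_sup_right
  exact IntermediateField.adjoin.mono _ _ _ hC.mem_henU

theorem LUF.of_unr (p : ℕ) (hp : p.Prime) [CharP (kk Λ) p] (h : Ctx0 ϖ v r) [IsAlgClosed Ω]
    [PerfectField (kk Λ)] [CharZero Q] (hra : ResAlg Λ v) (K : IntermediateField Q Ω)
    (hfg : K.FG) (hK : ∀ g : Ω, IsAlgebraic K g) (hU : Unr Λ v K) :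
    LUF Λ v r (K : Set Ω) := by
  obtain ⟨Λ', i1, i2, i3, i4, i5, i6, ϖ', hc, hac, hcp, hsh⟩ := exists_clo h hra p hp
  obtain ⟨B₀, hB₀⟩ := exists_frame_hull p hp hc hsh K hfg hK
  obtain ⟨B, hB, hst, hse⟩ := exists_stable p hp hc K hK (h.rank_in K hK) B₀ hB₀
  obtain ⟨C, E₁, B₁, hC, hKE, hEC, hfix, hAd, hBR⟩ := exists_adapted hc K hK B hB hst hse
  obtain ⟨F, hF⟩ := fld_finite K hK hC
  obtain ⟨β, hβE, hβi, hβc, hβ1, hβ2, hβ3⟩ := exists_beta K hK E₁ hKE ⟨F, hF ▸ hEC⟩ hfix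
  have hU₁ : Unr Λ v E₁ := (hU.fld h hC).mono hEC
  have hfg₁ : E₁.FG := by
    rw [hβE]
    exact IntermediateField.fg_sup hfg ⟨{β}, by simp⟩
  have hFr : FracIs B₁.R (hull Λ v E₁) := by
    rw [hull_eq_of hC hKE hEC, hBR]
    exact hB
  have hL := LUF.of_adap p hp hc E₁ hfg₁ hU₁ B₁ hAd hFr
  rw [hβE] at hL
  refine LUF.etale_desc h K β hβi hβc hβ1 hβ2 1 K.one_mem ?_ hβ3 hL
  intro _
  rw [v.map_one]

end Pool.Agent.LUM
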