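import Pool.Agent.Lib.LUM.Q01

/-! # R01: change of the base

`Λ → Λ₁` discrete valuation rings, `Λ₁ ⊆ locv Λ[H]`, `H ⊆ Λ₁` finite.
Recipe: given `A`, `T` over `Λ`.  Write `h = a_h / b_h` for `h ∈ H`, `a_h, b_h ∈ Λ[A]` (`QuoIs`).  Apply
`LUF Λ₁` to `A` and `T₁ = T ∪ {a_h, b_h} \ {0}`: a frame `N₁` over `Λ₁`, all `a_h, b_h` monomial.  The
frame over `Λ`: the same `x, y`, `R = N₁.R.restrictScalars Λ`; `N₁.R = locv Λ₁[F]` and
`Λ₁ ⊆ locv Λ[H]` give `R = locv Λ[F ∪ H]` (`fgen`).  `MonoPos`, `Kap` are the same statements.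
All elements of `H` are in `QM` (over `Λ`, for the algebra `Λ[A]`), so `Λ₁ ⊆ QM` (`qm_locv`).
`N₁.R = locv Λ₁[A, x / g₁]`; `g₁ ∈ Λ₁[A] ≤ QM`, monomial, so `g₁⁻¹ ∈ QM` (`qm_inv`), and `x ∈ QM`; so the
finite set of generators `F' = A ∪ H ∪ {x / g₁}` of `R = locv Λ[F']` is in `QM`: `chart_of`. -/

set_option autoImplicit false
set_option linter.unusedSectionVars false
set_option linter.unusedVariables false

open Polynomial

namespace Pool.Agent.LUM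

open Pool.Agent.H15JM (RVal)
open Pool.Agent.LU1 (VPos)

universe u

section Aux

variable {Λ Λ₁ Ω : Type u} [CommRing Λ] [IsDomain Λ] [IsDiscreteValuationRing Λ]
    [CommRing Λ₁] [IsDomain Λ₁] [IsDiscreteValuationRing Λ₁] [Field Ω] [Algebra Λ Ω]
    [Algebra Λ Λ₁] [Algebra Λ₁ Ω] [IsScalarTower Λ Λ₁ Ω] {v : RVal Ω}

/-- A `Λ₁`-algebra generated by `S` is contained in a `Λ`-algebra that contains `S` and `Λ₁`. -/
private theorem adjoin_sub {S : Set Ω} {Q : Subalgebra Λ Ω} (hS : ∀ s ∈ S, s ∈ Q)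
    (hc : ∀ c : Λ₁, algebraMap Λ₁ Ω c ∈ Q) {f : Ω} (hf : f ∈ Algebra.adjoin Λ₁ S) : f ∈ Q := by
  induction hf using Algebra.adjoin_induction with
  | mem x hx => exact hS x hx
  | algebraMap c => exact hc c
  | add x y _ _ hx hy => exact Q.add_mem hx hy
  | mul x y _ _ hx hy => exact Q.mul_mem hx hy

/-- A `Λ`-algebra generated by `S` is contained in every `Λ₁`-algebra that contains `S`. -/
private theorem adjoin_sub' {S : Set Ω} {Q : Subalgebra Λ₁ Ω} (hS : ∀ s ∈ S, s ∈ Q)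
    {f : Ω} (hf : f ∈ Algebra.adjoin Λ S) : f ∈ Q := by
  have h1 : Algebra.adjoin Λ S ≤ Q.restrictScalars Λ :=
    Algebra.adjoin_le fun s hs => hS s hs
  exact h1 hf

private theorem locv_restrict (S H : Set Ω) (hH : ∀ x ∈ H, ∃ c : Λ₁, algebraMap Λ₁ Ω c = x)
    (hΛ : ∀ c : Λ₁, algebraMap Λ₁ Ω c ∈ locv v (Algebra.adjoin Λ H)) :
    (locv v (Algebra.adjoin Λ₁ S)).restrictScalars Λ = locv v (Algebra.adjoin Λ (S ∪ H)) := by
  apply le_antisymm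
  · rintro f ⟨a, ha, b, hb, hb0, hb1, rfl⟩
    have key : ∀ x ∈ Algebra.adjoin Λ₁ S, x ∈ locv v (Algebra.adjoin Λ (S ∪ H)) := by
      intro x hx
      refine adjoin_sub (fun s hs => ?_) (fun c => ?_) hx
      · exact le_locv _ (Algebra.subset_adjoin (Or.inl hs))
      · exact locv_mono (Algebra.adjoin_mono Set.subset_union_right) (hΛ c)
    rw [div_eq_mul_inv]
    exact Subalgebra.mul_mem _ (key a ha) (locv_inv (key b hb) hb0 hb1)
  · rintro f ⟨a, ha, b, hb, hb0, hb1, rfl⟩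
    have key : ∀ x ∈ Algebra.adjoin Λ (S ∪ H), x ∈ Algebra.adjoin Λ₁ S := by
      intro x hx
      refine adjoin_sub' (fun s hs => ?_) hx
      rcases hs with hs | hs
      · exact Algebra.subset_adjoin hs
      · obtain ⟨c, rfl⟩ := hH s hs
        exact Subalgebra.algebraMap_mem _ c
    exact ⟨a, key a ha, b, key b hb, hb0, hb1, rfl⟩

end Aux

theorem LUF.base_change {Λ Λ₁ Ω : Type u} [CommRing Λ] [IsDomain Λ] [IsDiscreteValuationRing Λ]
    [CommRing Λ₁] [IsDomain Λ₁] [IsDiscreteValuationRing Λ₁] [Field Ω] [Algebra Λ Ω]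
    [Algebra Λ Λ₁] [Algebra Λ₁ Ω] [IsScalarTower Λ Λ₁ Ω] {ϖ : Λ} {ϖ₁ : Λ₁} {v : RVal Ω} {r : ℕ}
    (h : Ctx0 ϖ v r) (h1 : Ctx0 ϖ₁ v r) {L : Set Ω}
    (hadd : ∀ x ∈ L, ∀ y ∈ L, x + y ∈ L) (hmul : ∀ x ∈ L, ∀ y ∈ L, x * y ∈ L)
    (hinv : ∀ x ∈ L, x⁻¹ ∈ L) (hL : ∀ c : Λ₁, algebraMap Λ₁ Ω c ∈ L)
    (H : Finset Ω) (hH : ∀ x ∈ H, ∃ c : Λ₁, algebraMap Λ₁ Ω c = x)
    (hΛ : ∀ c : Λ₁, algebraMap Λ₁ Ω c ∈ locv v (Algebra.adjoin Λ (H : Set Ω)))
    (hLU : LUF Λ₁ v r L) : LUF Λ v r L := by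
  classical
  intro A hA hAQ T hT
  -- numerators and denominators of the elements of `H`
  have hHL : ∀ x ∈ H, ∃ a ∈ Algebra.adjoin Λ (A : Set Ω), ∃ b ∈ Algebra.adjoin Λ (A : Set Ω),
      b ≠ 0 ∧ x = a / b := by
    intro x hx
    obtain ⟨c, rfl⟩ := hH x hx
    exact hAQ.2 _ (hL c)
  choose! a ha b hb hb0 hab using hHL
  have hAn : ∀ f ∈ Algebra.adjoin Λ (A : Set Ω), v.Ge 0 f :=
    adjoin_nonneg h fun f hf => (hA f hf).2
  -- the frame over `Λ₁`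
  have hAQ1 : QuoIs (Algebra.adjoin Λ₁ (A : Set Ω)) L := by
    refine ⟨fun f hf => ?_, fun g hg => ?_⟩
    · induction hf using Algebra.adjoin_induction with
      | mem x hx => exact (hA x hx).1
      | algebraMap c => exact hL c
      | add x y _ _ hx hy => exact hadd x hx y hy
      | mul x y _ _ hx hy => exact hmul x hx y hy
    · obtain ⟨c, hc, d, hd, hd0, hcd⟩ := hAQ.2 g hg
      have hsub : ∀ x ∈ Algebra.adjoin Λ (A : Set Ω), x ∈ Algebra.adjoin Λ₁ (A : Set Ω) :=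
        fun x hx => adjoin_sub' (fun s hs => Algebra.subset_adjoin hs) hx
      exact ⟨c, hsub c hc, d, hsub d hd, hd0, hcd⟩
  obtain ⟨N₁, hK, hNL, g₁, hg₁, hg₁0, hg₁m, G₁, hG₁, hR₁, hT₁⟩ :=
    hLU A hA hAQ1 (T ∪ H.image b) (by
      intro t ht
      rcases Finset.mem_union.1 ht with ht | ht
      · exact hT t ht
      · obtain ⟨x, hx, rfl⟩ := Finset.mem_image.1 ht
        exact ⟨hAQ.1 _ (hb x hx), hb0 x hx⟩)
  -- the generators over `Λ`
  set F : Finset Ω := (A ∪ G₁.image fun x => x / g₁) ∪ H with hF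
  have hFR : N₁.R.restrictScalars Λ = locv v (Algebra.adjoin Λ (F : Set Ω)) := by
    have hHs : (F : Set Ω) = ((A : Set Ω) ∪ (fun x => x / g₁) '' (G₁ : Set Ω)) ∪ (H : Set Ω) := by
      rw [hF]
      push_cast
      rfl
    rw [hHs, hR₁]
    exact locv_restrict _ _ (fun x hx => hH x hx) hΛ
  let N : WN Λ v r :=
    { x := N₁.x
      x_ne := N₁.x_ne
      x_pos := N₁.x_pos
      x_ind := N₁.x_ind
      y := N₁.y
      y_ne := N₁.y_ne
      y_pos := N₁.y_pos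
      R := N₁.R.restrictScalars Λ
      nonneg := fun f hf => N₁.nonneg f hf
      x_mem := fun i => N₁.x_mem i
      y_mem := N₁.y_mem
      fgen := ⟨F, hFR⟩
      gen := fun f hf hv => N₁.gen f hf hv }
  have hmono : ∀ f, N₁.MonoPos f → N.MonoPos f := fun f hf => hf
  have hNR : ∀ f, f ∈ N.R ↔ f ∈ N₁.R := fun f => Iff.rfl
  have hAR : ∀ x ∈ A, x ∈ N.R := by
    intro x hx
    rw [hNR, hR₁]
    exact le_locv _ (Algebra.subset_adjoin (Or.inl hx))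
  -- everything is in `QM`
  have hHQ : ∀ x ∈ H, x ∈ N.QM (Algebra.adjoin Λ (A : Set Ω)) hAn := by
    intro x hx
    exact ⟨a x, ha x hx, b x, hb x hx,
      hmono _ (hT₁ _ (Finset.mem_union_right _ (Finset.mem_image_of_mem b hx))), hab x hx⟩
  have hHR : ∀ x ∈ H, x ∈ N.R := by
    intro x hx
    obtain ⟨c, rfl⟩ := hH x hx
    exact N₁.R.algebraMap_mem c
  have hcQ : ∀ c : Λ₁, algebraMap Λ₁ Ω c ∈ N.QM (Algebra.adjoin Λ (A : Set Ω)) hAn := by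
    intro c
    exact WN.qm_locv (Algebra.adjoin_le fun x hx => hHQ x hx)
      (Algebra.adjoin_le fun x hx => hHR x hx) (hΛ c)
  have hAQ' : ∀ x ∈ Algebra.adjoin Λ₁ (A : Set Ω),
      x ∈ N.QM (Algebra.adjoin Λ (A : Set Ω)) hAn := by
    intro x hx
    exact adjoin_sub (fun s hs => WN.le_QM (Algebra.subset_adjoin hs)) hcQ hx
  have hg₁n : 0 ≤ v g₁ :=
    adjoin_nonneg h1 (fun f hf => (hA f hf).2) g₁ hg₁ hg₁0
  have hg₁i : g₁⁻¹ ∈ N.QM (Algebra.adjoin Λ (A : Set Ω)) hAn :=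
    WN.qm_inv (hAQ' g₁ hg₁) hg₁n (hmono _ hg₁m)
  have hFQ : ∀ f ∈ F, f ∈ N.QM (Algebra.adjoin Λ (A : Set Ω)) hAn := by
    intro f hf
    rw [hF, Finset.mem_union, Finset.mem_union] at hf
    rcases hf with (hf | hf) | hf
    · exact WN.le_QM (Algebra.subset_adjoin hf)
    · obtain ⟨x, hx, rfl⟩ := Finset.mem_image.1 hf
      rw [div_eq_mul_inv]
      exact Subalgebra.mul_mem _ (hAQ' x (hG₁ x hx).1) hg₁i
    · exact hHQ f hf
  obtain ⟨g, hg, hg0, hgm, G, hG, hR⟩ := WN.chart_of N A hAn hAR F hFR hFQ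
  exact ⟨N, hK, fun f hf => hNL f hf, g, hg, hg0, hgm, G, hG, hR,
    fun t ht => hmono _ (hT₁ t (Finset.mem_union_left _ ht))⟩

end Pool.Agent.LUM
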