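import Pool.Agent.Lib.LUM.M01
import Pool.Agent.Lib.LUM.R01
import Pool.Agent.Lib.LUM.F02

/-! # M02: local uniformization of `K`, general case (assembly)

`exists_reg`, `LUF.of_unr` over `Λ₁`, `LUF.base_change`. -/

set_option autoImplicit false
set_option linter.unusedSectionVars false
set_option linter.unusedVariables false

open Polynomial

namespace Pool.Agent.LUM

open Pool.Agent.H15JM (RVal)
open Pool.Agent.LU1 (VPos LatData val_add_vpos adj)

universe u

variable {Λ Q Ω : Type u} [CommRing Λ] [IsDomain Λ] [IsDiscreteValuationRing Λ] [Field Q]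
  [Algebra Λ Q] [IsFractionRing Λ Q] [Field Ω] [Algebra Λ Ω] [Algebra Q Ω] [IsScalarTower Λ Q Ω]
  {ϖ : Λ} {v : RVal Ω} {r : ℕ}

/-- A base with the same transcendence degree is algebraic. -/
theorem alg_of_trdeg {Λ₁ : Type u} [CommRing Λ₁] [IsDomain Λ₁] [IsDiscreteValuationRing Λ₁]
    [Algebra Λ Λ₁] [Algebra Λ₁ Ω] [IsScalarTower Λ Λ₁ Ω] {ϖ₁ : Λ₁} (h : Ctx0 ϖ v r)
    (h1 : Ctx0 ϖ₁ v r) : Algebra.IsAlgebraic Λ Λ₁ := by
  have i1 : FaithfulSMul Λ₁ Ω := (faithfulSMul_iff_algebraMap_injective Λ₁ Ω).2 h1.inj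
  have hinj : Function.Injective (algebraMap Λ Λ₁) := by
    have h2 := h.inj
    rw [IsScalarTower.algebraMap_eq Λ Λ₁ Ω, RingHom.coe_comp] at h2
    exact h2.of_comp
  have i2 : FaithfulSMul Λ Λ₁ := (faithfulSMul_iff_algebraMap_injective Λ Λ₁).2 hinj
  have h2 := _root_.trdeg_add_eq Λ Λ₁ (A := Ω)
  rw [h.trdeg, h1.trdeg] at h2
  have h3 : Algebra.trdeg Λ Λ₁ = 0 := by
    have h4 : Algebra.trdeg Λ Λ₁ + (r : Cardinal) = 0 + (r : Cardinal) := by rw [h2, zero_add]
    exact Cardinal.eq_of_add_eq_add_right h4 Cardinal.natCast_lt_aleph0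
  exact trdeg_eq_zero_iff.1 h3

theorem LUF.all (p : ℕ) (hp : p.Prime) [CharP (kk Λ) p] (h : Ctx0 ϖ v r) [IsAlgClosed Ω]
    [PerfectField (kk Λ)] [CharZero Q] (hra : ResAlg Λ v) (K : IntermediateField Q Ω)
    (hfg : K.FG) (hK : ∀ g : Ω, IsAlgebraic K g) : LUF Λ v r (K : Set Ω) := by
  classical
  have hΩ0 : CharZero Ω := charZero_of_injective_algebraMap (algebraMap Q Ω).injective
  obtain ⟨Λ₁, i1, i2, i3, i4, i5, i6, ϖ₁, h1, hpf, hcp, hra₁, hΛK, hKΛ, H, hH, hΛH⟩ :=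
    exists_reg h K hfg hra p hp
  have hal : Algebra.IsAlgebraic Λ Λ₁ := alg_of_trdeg h h1
  have j1 : FaithfulSMul Λ₁ Ω := (faithfulSMul_iff_algebraMap_injective Λ₁ Ω).2 h1.inj
  let Q' := FractionRing Λ₁
  let j2 : Algebra Q' Ω := FractionRing.liftAlgebra Λ₁ Ω
  have j3 : IsScalarTower Λ₁ Q' Ω := FractionRing.isScalarTower_liftAlgebra Λ₁ Ω
  have j4 : CharZero Q' := RingHom.charZero (algebraMap Q' Ω)
  have hQ'K : ∀ c : Q', algebraMap Q' Ω c ∈ K := by
    intro c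
    obtain ⟨a, b, -, rfl⟩ := IsFractionRing.div_surjective (A := Λ₁) c
    rw [map_div₀, ← IsScalarTower.algebraMap_apply, ← IsScalarTower.algebraMap_apply]
    exact div_mem (hΛK a) (hΛK b)
  let K₁ : IntermediateField Q' Ω :=
    { K.toSubfield with
      algebraMap_mem' := hQ'K }
  have hK₁ : ∀ x, x ∈ K₁ ↔ x ∈ K := fun x => Iff.rfl
  obtain ⟨S, hS⟩ := hfg
  have hfg₁ : K₁.FG := by
    refine ⟨S, le_antisymm ?_ ?_⟩
    · rw [IntermediateField.adjoin_le_iff]
      intro s hs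
      change s ∈ K
      rw [← hS]
      exact IntermediateField.subset_adjoin _ _ hs
    · intro x hx
      have hx' : x ∈ IntermediateField.adjoin Q (S : Set Ω) := by
        rw [hS]
        exact hx
      refine IntermediateField.adjoin_induction Q
        (p := fun x _ => x ∈ IntermediateField.adjoin Q' (S : Set Ω))
        (fun s hs => IntermediateField.subset_adjoin _ _ hs) (fun c => ?_)
        (fun _ _ _ _ h1 h2 => add_mem h1 h2)
        (fun _ _ h1 => inv_mem h1) (fun _ _ _ _ h1 h2 => mul_mem h1 h2) hx'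
      obtain ⟨a, b, -, rfl⟩ := IsFractionRing.div_surjective (A := Λ) c
      rw [map_div₀, ← IsScalarTower.algebraMap_apply, ← IsScalarTower.algebraMap_apply,
        IsScalarTower.algebraMap_apply Λ Λ₁ Ω, IsScalarTower.algebraMap_apply Λ Λ₁ Ω,
        IsScalarTower.algebraMap_apply Λ₁ Q' Ω, IsScalarTower.algebraMap_apply Λ₁ Q' Ω]
      exact div_mem (IntermediateField.algebraMap_mem _ _) (IntermediateField.algebraMap_mem _ _)
  have halg₁ : ∀ g : Ω, IsAlgebraic K₁ g := by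
    intro g
    obtain ⟨P, hP0, hP⟩ := hK g
    let φ : K →+* K₁ :=
      { toFun := fun x => ⟨x.1, x.2⟩
        map_one' := rfl
        map_mul' := fun _ _ => rfl
        map_zero' := rfl
        map_add' := fun _ _ => rfl }
    refine ⟨P.map φ, ?_, ?_⟩
    · rwa [Ne, Polynomial.map_eq_zero]
    · rw [Polynomial.aeval_def, Polynomial.eval₂_map]
      rw [Polynomial.aeval_def] at hP
      exact hP
  have hU : Unr Λ₁ v K₁ := by
    intro x hx hxa hxv
    have hxQ : IsAlgebraic Q x := by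
      have h2 : IsAlgebraic Λ₁ x := (IsFractionRing.isAlgebraic_iff Λ₁ Q' Ω).2 hxa
      have h3 : IsAlgebraic Λ x := IsAlgebraic.restrictScalars Λ h2
      exact (IsFractionRing.isAlgebraic_iff Λ Q Ω).1 h3
    obtain ⟨c, rfl⟩ := hKΛ x hx hxQ hxv
    exact Subalgebra.algebraMap_mem _ c
  have hL₁ : LUF Λ₁ v r (K₁ : Set Ω) := LUF.of_unr p hp h1 hra₁ K₁ hfg₁ halg₁ hU
  exact LUF.base_change h h1 (fun x hx y hy => K.add_mem hx hy)
    (fun x hx y hy => K.mul_mem hx hy) (fun x hx => K.inv_mem hx) hΛK H hH hΛH hL₁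

end Pool.Agent.LUM
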