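import Pool.Agent.Lib.LUM.M02
import Pool.Agent.Lib.LUM.C03
import Pool.Agent.Lib.LUM.C04
import Pool.Agent.Lib.LUM.C05
import Pool.Agent.Lib.LUM.C06

/-! # M03: the final theorem (assembly) -/

set_option autoImplicit false

namespace Pool.Agent.LUM

open Pool.Agent.H15JM (RVal)
open Pool.Agent.LU1 (VPos)
open Pool.Agent.LU2 (IsR1 IndVal)
open Pool.Agent.LU2G (LogUniformizable)
open Polynomial

/-- Over a discrete valuation ring. -/
theorem lu_dvr (p : ℕ) (hp : p.Prime) {Λ K : Type} [CommRing Λ] [IsDomain Λ]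
    [IsDiscreteValuationRing Λ] [CharZero Λ] [CharP (kk Λ) p] [PerfectField (kk Λ)]
    [Field K] [Algebra Λ K] (hinj : Function.Injective (algebraMap Λ K))
    [Algebra.EssFiniteType Λ K] {ϖ : Λ} (hϖ : Irreducible ϖ) (V : ValuationSubring K)
    (hV : IsR1 V) (hΛ : ∀ c : Λ, algebraMap Λ K c ∈ V)
    (hpos : V.valuation (algebraMap Λ K ϖ) < 1) {r : ℕ} (hr : 0 < r)
    (htr : Algebra.trdeg Λ K = r) (X : Fin r → K) (hX : IndVal V X)
    (hmax : ∀ Y : Fin (r + 1) → K, ¬ IndVal V Y)
    (hres : ∀ x ∈ V, ∃ P : Polynomial Λ, P.Monic ∧ V.valuation (aeval x P) < 1) : LU Λ V := by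
  obtain ⟨Ω, i1, i2, i3, i4, i5, v, hVv, halg, hctx, hra⟩ :=
    exists_entry hinj hϖ V hV hΛ hpos hr htr X hX hmax hres
  have j1 : FaithfulSMul Λ K := (faithfulSMul_iff_algebraMap_injective Λ K).2 hinj
  let Q := FractionRing Λ
  let j2 : Algebra Q K := FractionRing.liftAlgebra Λ K
  have j3 : IsScalarTower Λ Q K := FractionRing.isScalarTower_liftAlgebra Λ K
  let j4 : Algebra Q Ω := ((algebraMap K Ω).comp (algebraMap Q K)).toAlgebra
  have j5 : IsScalarTower Q K Ω := IsScalarTower.of_algebraMap_eq fun _ => rfl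
  have j6 : IsScalarTower Λ Q Ω := IsScalarTower.of_algebraMap_eq fun c => by
    change algebraMap Λ Ω c = algebraMap K Ω (algebraMap Q K (algebraMap Λ Q c))
    rw [← IsScalarTower.algebraMap_apply Λ Q K, ← IsScalarTower.algebraMap_apply Λ K Ω]
  have j7 : CharZero Q := charZero_of_injective_algebraMap (IsFractionRing.injective Λ Q)
  have j8 : Algebra.EssFiniteType Q K := Algebra.EssFiniteType.of_comp Λ Q K
  let E : IntermediateField Q Ω := (IsScalarTower.toAlgHom Q K Ω).fieldRange
  have hE : (E : Set Ω) = Set.range (algebraMap K Ω) := by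
    ext x
    rfl
  have hfg : E.FG := by
    have h1 : (⊤ : IntermediateField Q K).FG := IntermediateField.fg_top Q K
    have h2 : E = IntermediateField.map (IsScalarTower.toAlgHom Q K Ω) ⊤ :=
      AlgHom.fieldRange_eq_map _
    obtain ⟨S, hS⟩ := h1
    classical
    refine ⟨S.image (algebraMap K Ω), ?_⟩
    rw [h2, ← hS, IntermediateField.adjoin_map]
    simp
  have hEalg : ∀ g : Ω, IsAlgebraic E g := by
    intro g
    obtain ⟨P, hP0, hP⟩ := halg g
    let φ : K →+* E :=
      { toFun := fun x => ⟨algebraMap K Ω x, ⟨x, rfl⟩⟩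
        map_one' := by ext; simp
        map_mul' := fun _ _ => by ext; simp
        map_zero' := by ext; simp
        map_add' := fun _ _ => by ext; simp }
    refine ⟨P.map φ, ?_, ?_⟩
    · rwa [Ne, Polynomial.map_eq_zero]
    · rw [Polynomial.aeval_def, Polynomial.eval₂_map]
      rw [Polynomial.aeval_def] at hP
      exact hP
  have hL := LUF.all p hp hctx hra E hfg hEalg
  rw [hE] at hL
  exact LU.of_LUF hctx V hVv hL

end Pool.Agent.LUM
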