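import Pool.Agent.Lib.LUM.ML
import Pool.Agent.Lib.LUM.Etale

/-! # E2, first part: keeping generators in the form of quotients of elements of `A` -/

set_option autoImplicit false
set_option linter.unusedSectionVars false
set_option linter.unusedVariables false

namespace Pool.Agent.LUM

open Pool.Agent.H15JM (RVal)
open Pool.Agent.LU1 (VPos LatData val_add_vpos adj)

universe u

variable {Λ Q Ω : Type u} [CommRing Λ] [IsDomain Λ] [IsDiscreteValuationRing Λ] [Field Q]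
  [Algebra Λ Q] [IsFractionRing Λ Q] [Field Ω] [Algebra Λ Ω] [Algebra Q Ω] [IsScalarTower Λ Q Ω]
  {ϖ : Λ} {v : RVal Ω} {r : ℕ}

namespace QA

/-- Quotients of products of elements of `M`. -/
def IsRat (M : Finset Ω) (f : Ω) : Prop :=
  ∃ a ∈ Submonoid.closure (M : Set Ω), ∃ b ∈ Submonoid.closure (M : Set Ω), f = a / b

theorem ne_of_closure {M : Finset Ω} (hM : ∀ m ∈ M, m ≠ 0) {a : Ω}
    (ha : a ∈ Submonoid.closure (M : Set Ω)) : a ≠ 0 := by
  induction ha using Submonoid.closure_induction with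
  | mem x hx => exact hM x hx
  | one => exact one_ne_zero
  | mul x y _ _ hx hy => exact mul_ne_zero hx hy

theorem mem_of_closure {M : Finset Ω} {S : Subalgebra Λ Ω} (hM : ∀ m ∈ M, m ∈ S) {a : Ω}
    (ha : a ∈ Submonoid.closure (M : Set Ω)) : a ∈ S := by
  induction ha using Submonoid.closure_induction with
  | mem x hx => exact hM x hx
  | one => exact S.one_mem
  | mul x y _ _ hx hy => exact S.mul_mem hx hy

theorem mono_of_closure {M : Finset Ω} {B : BF ϖ v} (hM : ∀ m ∈ M, B.Mono m) {a : Ω}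
    (ha : a ∈ Submonoid.closure (M : Set Ω)) : B.Mono a := by
  induction ha using Submonoid.closure_induction with
  | mem x hx => exact hM x hx
  | one => exact BF.Mono.un BF.Un.one
  | mul x y _ _ hx hy => exact hx.mul hy

namespace IsRat

variable {M : Finset Ω} {f g : Ω}

theorem of_mem (h : f ∈ Submonoid.closure (M : Set Ω)) : IsRat M f :=
  ⟨f, h, 1, one_mem _, by rw [div_one]⟩

theorem one : IsRat M 1 := of_mem (one_mem _)

theorem mul (hf : IsRat M f) (hg : IsRat M g) : IsRat M (f * g) := by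
  obtain ⟨a, ha, b, hb, rfl⟩ := hf
  obtain ⟨c, hc, d, hd, rfl⟩ := hg
  exact ⟨a * c, mul_mem ha hc, b * d, mul_mem hb hd, by rw [div_mul_div_comm]⟩

theorem inv (hf : IsRat M f) : IsRat M f⁻¹ := by
  obtain ⟨a, ha, b, hb, rfl⟩ := hf
  exact ⟨b, hb, a, ha, by rw [inv_div]⟩

theorem div (hf : IsRat M f) (hg : IsRat M g) : IsRat M (f / g) := by
  rw [div_eq_mul_inv]
  exact hf.mul hg.inv

theorem pow (hf : IsRat M f) (n : ℕ) : IsRat M (f ^ n) := by
  induction n with
  | zero => rw [pow_zero]; exact one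
  | succ n ih => rw [pow_succ]; exact ih.mul hf

theorem zpow (hf : IsRat M f) (n : ℤ) : IsRat M (f ^ n) := by
  cases n with
  | ofNat n => simpa using hf.pow n
  | negSucc n => rw [zpow_negSucc]; exact (hf.pow _).inv

theorem mono {M' : Finset Ω} (h : M ⊆ M') (hf : IsRat M f) : IsRat M' f := by
  obtain ⟨a, ha, b, hb, rfl⟩ := hf
  have h1 : Submonoid.closure (M : Set Ω) ≤ Submonoid.closure (M' : Set Ω) :=
    Submonoid.closure_mono (by exact_mod_cast h)
  exact ⟨a, h1 ha, b, h1 hb, rfl⟩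

end IsRat

/-- The data which are kept along the chain. -/
structure QSt (A M₀ : Finset Ω) (B : BF ϖ v) (M F : Finset Ω) : Prop where
  sub : M₀ ⊆ M
  ne : ∀ m ∈ M, m ≠ 0
  mem : ∀ m ∈ M, m ∈ Algebra.adjoin Λ (A : Set Ω)
  chi : ∀ γ ∈ B.Γ, IsRat M (B.χ γ)
  gen : ∀ f ∈ F, f = 0 ∨ IsRat M f
  R : B.R = locv v (Algebra.adjoin Λ ((F : Set Ω) ∪ B.χ '' {γ | γ ∈ B.Γ ∧ 0 ≤ γ}))
  y : ∃ α ∈ Algebra.adjoin Λ (A : Set Ω), ∃ b ∈ Submonoid.closure (M : Set Ω), B.y = α / b
  mono : ∀ B'' : BF ϖ v, Ext B B'' → (∀ m ∈ M₀, B''.Mono m) → ∀ m ∈ M, B''.Mono m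

theorem chi_isRat {B : BF ϖ v} {M : Finset Ω} {S : Set ℝ} (hS : AddSubgroup.closure S = B.Γ)
    (h : ∀ γ ∈ S, IsRat M (B.χ γ)) {γ : ℝ} (hγ : γ ∈ B.Γ) : IsRat M (B.χ γ) := by
  have hγ' : γ ∈ AddSubgroup.closure S := by rw [hS]; exact hγ
  induction hγ' using AddSubgroup.closure_induction with
  | mem x hx => exact h x hx
  | zero => rw [B.χ_zero]; exact IsRat.one
  | add x y hx hy ihx ihy =>
    rw [hS] at hx hy
    rw [B.χ_add x hx y hy]
    exact (ihx hx).mul (ihy hy)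
  | neg x hx ih =>
    rw [hS] at hx
    rw [B.χ_neg hx]
    exact (ih hx).inv

/-- The initial data. -/
theorem exists_init (B : BF ϖ v) (L : IntermediateField Q Ω) (hL : FracIs B.R L) (A : Finset Ω)
    (hgen : ∀ g ∈ L, ∃ a ∈ Algebra.adjoin Λ (A : Set Ω), ∃ b ∈ Algebra.adjoin Λ (A : Set Ω),
      b ≠ 0 ∧ g = a / b) : ∃ M F : Finset Ω, QSt A M B M F ∧ ∀ a ∈ A, a ≠ 0 → a ∈ M := by
  classical
  obtain ⟨F, hF⟩ := B.fgen
  obtain ⟨S, hS⟩ := B.fg
  have hFR : ∀ f ∈ F, f ∈ B.R := by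
    intro f hf
    rw [hF]
    exact le_locv _ (Algebra.subset_adjoin (Or.inl hf))
  have hSΓ : ∀ γ ∈ S, γ ∈ B.Γ := by
    intro γ hγ
    rw [← hS]
    exact AddSubgroup.subset_closure hγ
  have hχL : ∀ γ ∈ B.Γ, B.χ γ ∈ L := by
    intro γ hγ
    rcases le_total 0 γ with h0 | h0
    · exact hL.1 _ (B.χ_mem γ hγ h0)
    · have h1 := L.inv_mem (hL.1 _ (B.χ_mem (-γ) (B.Γ.neg_mem hγ) (neg_nonneg.2 h0)))
      rwa [B.χ_neg hγ, inv_inv] at h1
  -- numerators and denominators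
  have hfrac : ∀ g : Ω, ∃ a b : Ω, g ∈ L → (a ∈ Algebra.adjoin Λ (A : Set Ω) ∧
      b ∈ Algebra.adjoin Λ (A : Set Ω) ∧ b ≠ 0 ∧ g = a / b) := by
    intro g
    by_cases hg : g ∈ L
    · obtain ⟨a, ha, b, hb, hb0, h⟩ := hgen g hg
      exact ⟨a, b, fun _ => ⟨ha, hb, hb0, h⟩⟩
    · exact ⟨0, 0, fun h => absurd h hg⟩
  choose nu de hnd using hfrac
  set W : Finset Ω := F ∪ S.image B.χ ∪ {B.y} with hW
  have hWL : ∀ w ∈ W, w ∈ L := by
    intro w hw
    simp only [hW, Finset.mem_union, Finset.mem_image, Finset.mem_singleton] at hw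
    rcases hw with (hw | ⟨γ, hγ, rfl⟩) | rfl
    · exact hL.1 _ (hFR w hw)
    · exact hχL γ (hSΓ γ hγ)
    · exact hL.1 _ B.y_mem
  set M : Finset Ω := (W.image nu ∪ W.image de ∪ A).filter fun m => m ≠ 0 with hM
  have hnu : ∀ w ∈ W, w ≠ 0 → nu w ∈ M := by
    intro w hw h0
    rw [hM, Finset.mem_filter]
    refine ⟨Finset.mem_union_left _ (Finset.mem_union_left _ (Finset.mem_image_of_mem _ hw)),
      fun h1 => h0 ?_⟩
    rw [(hnd w (hWL w hw)).2.2.2, h1, zero_div]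
  have hde : ∀ w ∈ W, de w ∈ M := by
    intro w hw
    rw [hM, Finset.mem_filter]
    exact ⟨Finset.mem_union_left _ (Finset.mem_union_right _ (Finset.mem_image_of_mem _ hw)),
      (hnd w (hWL w hw)).2.2.1⟩
  have hrat : ∀ w ∈ W, w ≠ 0 → IsRat M w := fun w hw h0 =>
    ⟨nu w, Submonoid.subset_closure (hnu w hw h0), de w, Submonoid.subset_closure (hde w hw),
      (hnd w (hWL w hw)).2.2.2⟩
  refine ⟨M, F, ⟨Finset.Subset.refl _, ?_, ?_, ?_, ?_, hF, ?_, fun _ _ h => h⟩, ?_⟩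
  · intro m hm
    exact (Finset.mem_filter.1 hm).2
  · intro m hm
    have h1 := (Finset.mem_filter.1 hm).1
    rcases Finset.mem_union.1 h1 with h2 | h2
    · rcases Finset.mem_union.1 h2 with h3 | h3
      · obtain ⟨w, hw, rfl⟩ := Finset.mem_image.1 h3
        exact (hnd w (hWL w hw)).1
      · obtain ⟨w, hw, rfl⟩ := Finset.mem_image.1 h3
        exact (hnd w (hWL w hw)).2.1
    · exact Algebra.subset_adjoin h2
  · intro γ hγ
    refine chi_isRat hS (fun γ hγ => ?_) hγ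
    refine hrat _ ?_ (B.χ_ne γ (hSΓ γ hγ))
    simp only [hW, Finset.mem_union, Finset.mem_image, Finset.mem_singleton]
    exact Or.inl (Or.inr ⟨γ, hγ, rfl⟩)
  · intro f hf
    by_cases h0 : f = 0
    · exact Or.inl h0
    · refine Or.inr (hrat f ?_ h0)
      simp only [hW, Finset.mem_union]
      exact Or.inl (Or.inl hf)
  · have hy : B.y ∈ W := by
      simp [hW]
    exact ⟨nu B.y, (hnd _ (hWL _ hy)).1, de B.y, Submonoid.subset_closure (hde _ hy),
      (hnd _ (hWL _ hy)).2.2.2⟩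
  · intro a ha h0
    rw [hM, Finset.mem_filter]
    exact ⟨Finset.mem_union_right _ ha, h0⟩

/-- One T-step. -/
theorem QSt.step {A M₀ : Finset Ω} {B B' : BF ϖ v} {M F : Finset Ω} (h : QSt A M₀ B M F)
    {q : ℕ} {c : Λ} {s : ℝ → ℤ → ℤ} (hs : IsTStep B B' q c s) :
    ∃ M' F' : Finset Ω, QSt A M₀ B' M' F' ∧ B'.y ∈ Algebra.adjoin Λ (F' : Set Ω) := by
  classical
  obtain ⟨α, hα, b, hb, hy⟩ := h.y
  have hb0 : b ≠ 0 := ne_of_closure h.ne hb
  have hα0 : α ≠ 0 := by
    rintro rfl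
    rw [zero_div] at hy
    exact B.y_ne hy
  set M' : Finset Ω := insert α M with hM'
  have hMM' : M ⊆ M' := Finset.subset_insert _ _
  have hcl : Submonoid.closure (M : Set Ω) ≤ Submonoid.closure (M' : Set Ω) :=
    Submonoid.closure_mono (by exact_mod_cast hMM')
  have hαM' : α ∈ Submonoid.closure (M' : Set Ω) :=
    Submonoid.subset_closure (by
      rw [hM']
      exact Finset.mem_coe.2 (Finset.mem_insert_self _ _))
  have hne' : ∀ m ∈ M', m ≠ 0 := by
    intro m hm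
    rcases Finset.mem_insert.1 hm with rfl | hm
    · exact hα0
    · exact h.ne m hm
  have hmem' : ∀ m ∈ M', m ∈ Algebra.adjoin Λ (A : Set Ω) := by
    intro m hm
    rcases Finset.mem_insert.1 hm with rfl | hm
    · exact hα
    · exact h.mem m hm
  have hyr : IsRat M' B.y := ⟨α, hαM', b, hcl hb, hy⟩
  have hwr : IsRat M' (B.w q) := (hyr.pow q).div ((h.chi _ hs.q_mem).mono hMM')
  obtain ⟨nu, hnu, de, hde, hw⟩ := hwr
  have hde0 : de ≠ 0 := ne_of_closure hne' hde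
  set F' : Finset Ω := insert (B.w q) F with hF'
  have hwF' : B.w q ∈ (F' : Set Ω) := Finset.mem_coe.2 (Finset.mem_insert_self _ _)
  refine ⟨M', F', ⟨h.sub.trans hMM', hne', hmem', ?_, ?_, ?_, ?_, ?_⟩, ?_⟩
  · -- monomials
    intro γ' hγ'
    obtain ⟨γ, hγ, l, rfl⟩ := hs.mem_Γ' hγ'
    rw [hs.χ_eq γ hγ l]
    exact (((h.chi γ hγ).mono hMM').mul (hyr.zpow l)).mul
      (IsRat.zpow ⟨nu, hnu, de, hde, hw⟩ _)
  · intro f hf
    rcases Finset.mem_insert.1 hf with rfl | hf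
    · exact Or.inr ⟨nu, hnu, de, hde, hw⟩
    · rcases h.gen f hf with h0 | h0
      · exact Or.inl h0
      · exact Or.inr (h0.mono hMM')
  · -- the ring
    set S' : Subalgebra Λ Ω := Algebra.adjoin Λ ((F' : Set Ω) ∪ B'.χ '' {γ | γ ∈ B'.Γ ∧ 0 ≤ γ})
      with hS'
    have hwS' : B.w q ∈ locv v S' := le_locv _ (Algebra.subset_adjoin (Or.inl hwF'))
    have hwz : ∀ n : ℤ, (B.w q) ^ n ∈ locv v S' := by
      intro n
      cases n with
      | ofNat n => simpa using (locv v S').pow_mem hwS' n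
      | negSucc n =>
        rw [zpow_negSucc, ← inv_pow]
        exact (locv v S').pow_mem (locv_inv hwS' hs.w_ne hs.v_w) _
    apply le_antisymm
    · rw [hs.R_eq]
      refine locv_le ?_ (fun f hf h0 h1 => locv_inv hf h0 h1)
      rw [Algebra.adjoin_le_iff]
      rintro f ((hf | ⟨γ, hγ, rfl⟩) | hf)
      · have h1 : B.R ≤ locv v S' := by
          rw [h.R]
          refine locv_le ?_ (fun f hf h0 h1 => locv_inv hf h0 h1)
          rw [Algebra.adjoin_le_iff]
          rintro f (hf | ⟨γ, ⟨hγ, hγ0⟩, rfl⟩)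
          · exact le_locv _ (Algebra.subset_adjoin (Or.inl
              (Finset.mem_coe.2 (Finset.mem_insert_of_mem hf))))
          · have h2 := hs.χ_mul hγ 0
            rw [zpow_zero, mul_one, Int.cast_zero, zero_mul, add_zero] at h2
            rw [SetLike.mem_coe, h2]
            exact (locv v S').mul_mem (le_locv _ (Algebra.subset_adjoin
              (Or.inr ⟨γ, ⟨hs.Γ_le hγ, hγ0⟩, rfl⟩))) (hwz _)
        exact h1 hf
      · exact le_locv _ (Algebra.subset_adjoin (Or.inr ⟨γ, hγ, rfl⟩))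
      · rw [Set.mem_singleton_iff.1 hf]
        exact hwS'
    · refine locv_le ?_ B'.loc
      rw [hS', Algebra.adjoin_le_iff]
      rintro f (hf | ⟨γ, ⟨hγ, hγ0⟩, rfl⟩)
      · rcases Finset.mem_insert.1 (Finset.mem_coe.1 hf) with rfl | hf
        · exact hs.un_w.1
        · refine hs.R_le ?_
          rw [h.R]
          exact le_locv _ (Algebra.subset_adjoin (Or.inl hf))
      · exact B'.χ_mem γ hγ hγ0
  · -- the new `y`
    refine ⟨nu - algebraMap Λ Ω c * de, ?_, de, hde, ?_⟩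
    · exact sub_mem (mem_of_closure hmem' hnu) (mul_mem (Subalgebra.algebraMap_mem _ c)
        (mem_of_closure hmem' hde))
    · rw [hs.y_eq, hw]
      field_simp
  · intro B'' hB'' hM₀ m hm
    have h1 : Ext B B'' := hs.ext.trans hB''
    have h2 := h.mono B'' h1 hM₀
    rcases Finset.mem_insert.1 hm with hm | hm
    · have h3 : m = B.y * b := by
        rw [hm, hy, div_mul_cancel₀ _ hb0]
      rw [h3]
      exact (hB''.mono hs.mono_y).mul (mono_of_closure h2 hb)
    · exact h2 m hm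
  · rw [hs.y_eq]
    exact sub_mem (Algebra.subset_adjoin hwF') (Subalgebra.algebraMap_mem _ c)

theorem QSt.reach {A M₀ : Finset Ω} {B B' : BF ϖ v} {M F : Finset Ω} (h : QSt A M₀ B M F)
    (hB : Reach B B') : ∃ M' F' : Finset Ω, QSt A M₀ B' M' F' := by
  induction hB with
  | refl => exact ⟨M, F, h⟩
  | tail _ h2 ih =>
    obtain ⟨M', F', h'⟩ := ih
    obtain ⟨q, c, s, hs⟩ := h2
    obtain ⟨M'', F'', h3, -⟩ := h'.step hs
    exact ⟨M'', F'', h3⟩

end QA

end Pool.Agent.LUM
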