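import Pool.Agent.Lib.LUM.Eval
import Pool.Agent.Lib.LU1_h15.Eval

/-! # Reduction of formal polynomials modulo the uniformizer -/

set_option autoImplicit false
set_option linter.unusedSectionVars false

open Polynomial

namespace Pool.Agent.LUM

open Pool.Agent.H15JM (RVal)
open Pool.Agent.LU1 (VPos LatData)

universe u

section Tp

variable {A : Type u} [CommRing A]

/-- `tpoly` as an additive homomorphism. -/
noncomputable def tpH (β : ℝ) (c : A) (s : ℝ → ℤ → ℤ) : (Lau A)[X] →+ (Lau A)[X] where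
  toFun := tpoly β c s
  map_zero' := by simp [tpoly]
  map_add' P Q := by
    unfold tpoly
    have h0 : ∀ l : ℕ, ((0 : Lau A).coeff.sum fun γ e =>
        C (mon (γ + l * β) e) * (C (mon 0 c) + X) ^ (s γ l).toNat) = 0 := fun l => by
      exact Finsupp.sum_zero_index
    refine Polynomial.sum_add_index P Q _ h0 fun l a b => ?_
    rw [AddMonoidAlgebra.coeff_add]
    refine Finsupp.sum_add_index' (fun γ => ?_) fun γ e f => ?_
    · simp [mon]
    · simp [mon, AddMonoidAlgebra.single_add, add_mul]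

theorem tpH_apply (β : ℝ) (c : A) (s : ℝ → ℤ → ℤ) (P : (Lau A)[X]) :
    tpH β c s P = tpoly β c s P := rfl

theorem tpoly_single (β : ℝ) (c : A) (s : ℝ → ℤ → ℤ) (γ : ℝ) (e : A) (l : ℕ) :
    tpoly β c s (C (mon γ e) * X ^ l) =
      C (mon (γ + l * β) e) * (C (mon 0 c) + X) ^ (s γ l).toNat := by
  unfold tpoly
  rw [Polynomial.C_mul_X_pow_eq_monomial]
  rw [Polynomial.sum_monomial_index _ _ (by exact Finsupp.sum_zero_index)]
  unfold mon
  rw [AddMonoidAlgebra.coeff_single]
  exact Finsupp.sum_single_index (by simp)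

/-- The monomials generate the additive group of polynomials. -/
theorem lau_induction {p : (Lau A)[X] → Prop} (h0 : ∀ γ e l, p (C (mon γ e) * X ^ l))
    (hadd : ∀ P Q, p P → p Q → p (P + Q)) (P : (Lau A)[X]) : p P := by
  induction P using Polynomial.induction_on' with
  | add P Q hP hQ => exact hadd _ _ hP hQ
  | monomial l a =>
    induction a using AddMonoidAlgebra.induction_linear with
    | zero =>
      have := h0 0 0 l
      rw [show (mon 0 (0 : A)) = 0 by simp [mon]] at this
      simpa using this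
    | add a b ha hb =>
      rw [map_add]
      exact hadd _ _ ha hb
    | single γ e =>
      have := h0 γ e l
      rwa [Polynomial.C_mul_X_pow_eq_monomial] at this

end Tp

variable {Λ : Type u} [CommRing Λ] [IsDomain Λ] [IsDiscreteValuationRing Λ]

/-- `red` as a ring homomorphism. -/
noncomputable def redH (Λ : Type u) [CommRing Λ] [IsDomain Λ] [IsDiscreteValuationRing Λ] :
    (Lau Λ)[X] →+* (LU1.Lau (kk Λ))[X] :=
  Polynomial.mapRingHom (AddMonoidAlgebra.mapRingHom ℝ (IsLocalRing.residue Λ))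

theorem redH_apply (P : (Lau Λ)[X]) : redH Λ P = red P := rfl

theorem red_add (P Q : (Lau Λ)[X]) : red (P + Q) = red P + red Q := (redH Λ).map_add P Q
theorem red_sub (P Q : (Lau Λ)[X]) : red (P - Q) = red P - red Q := (redH Λ).map_sub P Q
theorem red_mul (P Q : (Lau Λ)[X]) : red (P * Q) = red P * red Q := (redH Λ).map_mul P Q
theorem red_pow (P : (Lau Λ)[X]) (n : ℕ) : red (P ^ n) = red P ^ n := (redH Λ).map_pow P n
theorem red_zero : red (0 : (Lau Λ)[X]) = 0 := (redH Λ).map_zero

theorem co_red (P : (Lau Λ)[X]) (γ : ℝ) (l : ℕ) :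
    LU1.co (red P) γ l = IsLocalRing.residue Λ (co P γ l) := by
  unfold LU1.co LU1.cf red co cf
  rw [Polynomial.coeff_map]
  rfl

theorem red_single (γ : ℝ) (e : Λ) (l : ℕ) :
    red (C (mon γ e) * X ^ l) = C (LU1.mon γ (IsLocalRing.residue Λ e)) * X ^ l := by
  unfold red mon LU1.mon
  simp

theorem SuppIn.red {Γ : AddSubgroup ℝ} {P : (Lau Λ)[X]} (h : SuppIn Γ P) :
    LU1.SuppIn Γ (red P) := by
  intro γ l h1
  rw [co_red] at h1
  refine h γ l fun h2 => h1 ?_
  rw [h2, map_zero]

theorem red_tpoly (β : ℝ) (c : Λ) (s : ℝ → ℤ → ℤ) (P : (Lau Λ)[X]) :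
    red (tpoly β c s P) = LU1.tpoly β (IsLocalRing.residue Λ c) s (red P) := by
  have hadd : ∀ P Q : (LU1.Lau (kk Λ))[X], LU1.tpoly β (IsLocalRing.residue Λ c) s (P + Q) =
      LU1.tpoly β (IsLocalRing.residue Λ c) s P + LU1.tpoly β (IsLocalRing.residue Λ c) s Q :=
    fun P Q => (tpH β (IsLocalRing.residue Λ c) s).map_add P Q
  induction P using lau_induction with
  | h0 γ e l =>
    rw [tpoly_single, red_single]
    have h1 : LU1.tpoly β (IsLocalRing.residue Λ c) s
        (C (LU1.mon γ (IsLocalRing.residue Λ e)) * X ^ l) =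
        C (LU1.mon (γ + l * β) (IsLocalRing.residue Λ e)) *
          (C (LU1.mon 0 (IsLocalRing.residue Λ c)) + X) ^ (s γ l).toNat :=
      tpoly_single β (IsLocalRing.residue Λ c) s γ (IsLocalRing.residue Λ e) l
    rw [h1]
    unfold red mon LU1.mon
    simp
  | hadd P Q hP hQ =>
    rw [← tpH_apply, map_add, red_add, tpH_apply, tpH_apply, hP, hQ, red_add, hadd]

/-- A coefficient not in the maximal ideal is a unit. -/
theorem isUnit_of_co_red {P : (Lau Λ)[X]} {γ : ℝ} {l : ℕ} (h : LU1.co (red P) γ l ≠ 0) :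
    IsUnit (co P γ l) := by
  rw [co_red] at h
  exact IsLocalRing.residue_ne_zero_iff_isUnit _ |>.1 h

open Classical in
/-- Every polynomial over the residue field has a lift with the same support. -/
theorem exists_lift (Q : (LU1.Lau (kk Λ))[X]) :
    ∃ P : (Lau Λ)[X], red P = Q ∧ ∀ γ l, co P γ l ≠ 0 → LU1.co Q γ l ≠ 0 := by
  -- a section with `0 ↦ 0`
  obtain ⟨τ, hτ⟩ : ∃ τ : kk Λ → Λ, ∀ c, IsLocalRing.residue Λ (τ c) = c ∧ (c = 0 → τ c = 0) := by
    have hs : Function.Surjective (IsLocalRing.residue Λ) := IsLocalRing.residue_surjective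
    refine ⟨fun c => if c = 0 then 0 else Function.surjInv hs c, fun c => ?_⟩
    by_cases hc : c = 0
    · subst hc
      simp
    · simp only [if_neg hc]
      exact ⟨Function.surjInv_eq hs c, fun h => absurd h hc⟩
  refine ⟨∑ l ∈ Q.support, ∑ γ ∈ (Q.coeff l).coeff.support,
    C (mon γ (τ (LU1.co Q γ l))) * X ^ l, ?_, ?_⟩
  · rw [← redH_apply, map_sum]
    conv_rhs => rw [Q.as_sum_support_C_mul_X_pow]
    refine Finset.sum_congr rfl fun l _ => ?_
    rw [map_sum]
    have h1 : Q.coeff l = ∑ γ ∈ (Q.coeff l).coeff.support, LU1.mon γ (LU1.co Q γ l) :=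
      (LU1.EvalAux.eq_sum (Q.coeff l))
    conv_rhs => rw [h1, map_sum, Finset.sum_mul]
    refine Finset.sum_congr rfl fun γ _ => ?_
    rw [redH_apply, red_single, (hτ _).1]
  · intro γ l h1 h2
    apply h1
    unfold co cf
    rw [Polynomial.finsetSum_coeff]
    have h3 : ∀ m ∈ Q.support, (∑ γ' ∈ (Q.coeff m).coeff.support,
        C (mon γ' (τ (LU1.co Q γ' m))) * X ^ m : (Lau Λ)[X]).coeff l =
        if m = l then ∑ γ' ∈ (Q.coeff m).coeff.support, mon γ' (τ (LU1.co Q γ' m)) else 0 := by
      intro m _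
      rw [Polynomial.finsetSum_coeff]
      by_cases hm : m = l
      · subst hm
        rw [if_pos rfl]
        refine Finset.sum_congr rfl fun γ' _ => ?_
        rw [coeff_C_mul, coeff_X_pow, if_pos rfl, mul_one]
      · rw [if_neg hm]
        refine Finset.sum_eq_zero fun γ' _ => ?_
        rw [coeff_C_mul, coeff_X_pow, if_neg (Ne.symm hm), mul_zero]
    rw [Finset.sum_congr rfl h3, Finset.sum_ite_eq']
    split_ifs with hl
    · rw [AddMonoidAlgebra.coeff_sum, Finsupp.finsetSum_apply]
      refine Finset.sum_eq_zero fun γ' _ => ?_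
      unfold mon
      rw [AddMonoidAlgebra.coeff_single, Finsupp.single_apply]
      split_ifs with hγ
      · subst hγ
        exact (hτ _).2 h2
      · rfl
    · rfl

end Pool.Agent.LUM
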