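import Pool.Agent.Lib.LUM.NFrames
import Pool.Agent.Lib.LUM.Red
import Pool.Agent.Lib.LUM.T0
import Pool.Agent.Lib.LU1_h15.Step
import Pool.Agent.Lib.LU1_h15.Rep

/-! # B2: content and order -/

set_option autoImplicit false
set_option linter.unusedSectionVars false

namespace Pool.Agent.LUM.RepAux


/-- The ideal of the monomials of weight `> w(a)` (strict version). -/
def Agt {S : Type*} [CommRing S] {r : ℕ} (x : Fin r → S) (w : Fin r → ℝ) (c : ℝ) : Ideal S :=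
  Ideal.span {z | ∃ b : Fin r → ℕ, c < ∑ i, (b i : ℝ) * w i ∧ z = ∏ i, x i ^ b i}

theorem finite_lt {r : ℕ} (w : Fin r → ℝ) (hw : ∀ i, 0 < w i) (c : ℝ) :
    {b : Fin r → ℕ | ∑ i, (b i : ℝ) * w i < c}.Finite := by
  obtain ⟨M, hM⟩ : ∃ M : ℕ, ∀ i, c ≤ M * w i := by
    have h1 : ∀ i, ∃ M : ℕ, c ≤ M * w i := by
      intro i
      obtain ⟨M, hM⟩ := exists_nat_ge (c / w i)
      exact ⟨M, by rwa [div_le_iff₀ (hw i)] at hM⟩
    choose g hg using h1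
    refine ⟨∑ i, g i, fun i => (hg i).trans ?_⟩
    apply mul_le_mul_of_nonneg_right _ (hw i).le
    exact_mod_cast Finset.single_le_sum (fun j _ => Nat.zero_le (g j)) (Finset.mem_univ i)
  apply Set.Finite.subset (Set.finite_Iic (fun _ : Fin r => M))
  intro b hb i
  by_contra hcon
  have h2 : M < b i := not_le.1 hcon
  have h3 : (b i : ℝ) * w i ≤ ∑ j, (b j : ℝ) * w j :=
    Finset.single_le_sum (f := fun j => (b j : ℝ) * w j)
      (fun j _ => mul_nonneg (Nat.cast_nonneg _) (hw j).le) (Finset.mem_univ i)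
  have h4 : (M : ℝ) * w i ≤ (b i : ℝ) * w i :=
    mul_le_mul_of_nonneg_right (by exact_mod_cast h2.le) (hw i).le
  have h5 : ∑ j, (b j : ℝ) * w j < c := hb
  linarith [hM i]

theorem eq_of_weight {r : ℕ} (w : Fin r → ℝ) (hw : LinearIndependent ℚ w) {a b : Fin r → ℕ}
    (h : ∑ i, (a i : ℝ) * w i = ∑ i, (b i : ℝ) * w i) : a = b := by
  have h1 : ∑ i, ((a i : ℚ) - (b i : ℚ)) • w i = 0 := by
    have h2 : ∀ i, ((a i : ℚ) - (b i : ℚ)) • w i = (a i : ℝ) * w i - (b i : ℝ) * w i := by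
      intro i
      rw [Rat.smul_def]
      push_cast
      ring
    rw [Finset.sum_congr rfl fun i _ => h2 i, Finset.sum_sub_distrib, h, sub_self]
  have h3 := Fintype.linearIndependent_iff.1 hw _ h1
  funext i
  have h4 := h3 i
  have h5 : (a i : ℚ) = b i := by linarith
  exact_mod_cast h5

/-- In a noetherian local ring whose maximal ideal is `J + (y)` every `f ∉ J` is
`g y^D` modulo `J` with a unit `g`. -/
theorem leading_y {S : Type*} [CommRing S] [IsNoetherianRing S] [IsLocalRing S] (J : Ideal S)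
    (y : S) (hm : IsLocalRing.maximalIdeal S = J ⊔ Ideal.span {y}) (f : S) (hf : f ∉ J) :
    ∃ (D : ℕ) (g : S), IsUnit g ∧ f - g * y ^ D ∈ J := by
  have hJ : J ≠ ⊤ := by
    intro h
    exact hf (h ▸ Submodule.mem_top)
  have : Nontrivial (S ⧸ J) := Ideal.Quotient.nontrivial_iff.2 hJ
  have : IsLocalRing (S ⧸ J) := IsLocalRing.of_surjective' (Ideal.Quotient.mk J)
    Ideal.Quotient.mk_surjective
  have : IsNoetherianRing (S ⧸ J) := inferInstance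
  have hy : Ideal.span {Ideal.Quotient.mk J y} ≠ ⊤ := by
    intro h
    have h1 : (1 : S ⧸ J) ∈ Ideal.span {Ideal.Quotient.mk J y} := h ▸ Submodule.mem_top
    obtain ⟨b, hb⟩ := Ideal.mem_span_singleton'.1 h1
    obtain ⟨b, rfl⟩ := Ideal.Quotient.mk_surjective b
    have h2 : b * y - 1 ∈ J := by
      rw [← Ideal.Quotient.eq_zero_iff_mem, map_sub, map_mul, map_one, hb, sub_self]
    have h3 : (1 : S) ∈ IsLocalRing.maximalIdeal S := by
      have h4 : b * y - (b * y - 1) ∈ J ⊔ Ideal.span {y} :=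
        Ideal.sub_mem _ (Ideal.mem_sup_right (Ideal.mul_mem_left _ _
          (Ideal.mem_span_singleton_self y))) (Ideal.mem_sup_left h2)
      rw [hm]
      rwa [sub_sub_cancel] at h4
    exact (Ideal.ne_top_iff_one _).1 (IsLocalRing.maximalIdeal.isMaximal S).ne_top h3
  have h0 : (Ideal.Quotient.mk J f) ∉ (⨅ i : ℕ, Ideal.span {Ideal.Quotient.mk J y} ^ i) := by
    rw [Ideal.iInf_pow_eq_bot_of_isLocalRing _ hy, Ideal.mem_bot,
      Ideal.Quotient.eq_zero_iff_mem]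
    exact hf
  rw [Ideal.mem_iInf] at h0
  push Not at h0
  classical
  have hmin := Nat.find_spec h0
  have hlt := fun m (hm : m < Nat.find h0) => not_not.1 (Nat.find_min h0 hm)
  set n := Nat.find h0 with hn
  have hn0 : n ≠ 0 := by
    intro h
    rw [h, pow_zero, Ideal.one_eq_top] at hmin
    exact hmin Submodule.mem_top
  obtain ⟨D, hD⟩ := Nat.exists_eq_succ_of_ne_zero hn0
  have h1 := hlt D (by omega)
  rw [Ideal.span_singleton_pow, Ideal.mem_span_singleton'] at h1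
  obtain ⟨g, hg⟩ := h1
  obtain ⟨g, rfl⟩ := Ideal.Quotient.mk_surjective g
  refine ⟨D, g, ?_, ?_⟩
  · by_contra hu
    have h2 : g ∈ IsLocalRing.maximalIdeal S := (IsLocalRing.mem_maximalIdeal g).2 hu
    rw [hm] at h2
    obtain ⟨j, hj, z, hz, rfl⟩ := Submodule.mem_sup.1 h2
    obtain ⟨b, rfl⟩ := Ideal.mem_span_singleton'.1 hz
    apply hmin
    rw [hD, Ideal.span_singleton_pow, Ideal.mem_span_singleton']
    refine ⟨Ideal.Quotient.mk J b, ?_⟩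
    rw [← hg, map_add, map_mul, Ideal.Quotient.eq_zero_iff_mem.2 hj, zero_add, pow_succ]
    ring
  · rw [← Ideal.Quotient.eq_zero_iff_mem, map_sub, map_mul, map_pow, hg, sub_self]

/-- The leading monomial in a local noetherian ring with parameters `x, y`. -/
theorem leading {S : Type*} [CommRing S] [IsNoetherianRing S] [IsLocalRing S] {r : ℕ}
    (x : Fin r → S) (y : S)
    (hm : IsLocalRing.maximalIdeal S = Ideal.span (Set.range x) ⊔ Ideal.span {y})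
    (w : Fin r → ℝ) (hw : ∀ i, 0 < w i) (hind : LinearIndependent ℚ w) (f : S) (hf : f ≠ 0) :
    ∃ (a : Fin r → ℕ) (D : ℕ) (g : S), IsUnit g ∧
      f - (∏ i, x i ^ a i) * (g * y ^ D) ∈ Agt x w (∑ i, (a i : ℝ) * w i) := by
  classical
  -- `Agt` is small for large weights
  have hx : ∀ i, x i ∈ IsLocalRing.maximalIdeal S := by
    intro i
    rw [hm]
    exact Ideal.mem_sup_left (Ideal.subset_span ⟨i, rfl⟩)
  have hsmall : ∀ M : ℕ, ∃ c : ℝ, Agt x w c ≤ IsLocalRing.maximalIdeal S ^ M := by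
    intro M
    obtain ⟨W, hW0, hW⟩ : ∃ W : ℝ, 0 < W ∧ ∀ i, w i ≤ W := by
      refine ⟨1 + ∑ i, w i, ?_, fun i => ?_⟩
      · have := Finset.sum_nonneg (s := Finset.univ) fun i _ => (hw i).le
        linarith
      · have := Finset.single_le_sum (fun j _ => (hw j).le) (Finset.mem_univ i)
        linarith
    refine ⟨M * W, ?_⟩
    rw [Agt, Ideal.span_le]
    rintro _ ⟨b, hb, rfl⟩
    have h1 : M ≤ ∑ i, b i := by
      by_contra hcon
      have h2 : (∑ i, b i) ≤ M := by omega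
      have h3 : ∑ i, (b i : ℝ) * w i ≤ ∑ i, (b i : ℝ) * W :=
        Finset.sum_le_sum fun i _ => mul_le_mul_of_nonneg_left (hW i) (Nat.cast_nonneg _)
      rw [← Finset.sum_mul] at h3
      have h5 : ((∑ i, (b i : ℝ))) * W ≤ M * W := by
        apply mul_le_mul_of_nonneg_right _ hW0.le
        exact_mod_cast h2
      linarith
    apply Ideal.pow_le_pow_right h1
    rw [← Finset.prod_pow_eq_pow_sum]
    exact Ideal.prod_mem_prod fun i _ => Ideal.pow_mem_pow (hx i) _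
  -- weights for which `f` is not in `Agt`
  have hbig : ∃ c : ℝ, f ∉ Agt x w c := by
    have h1 : f ∉ (⨅ i : ℕ, IsLocalRing.maximalIdeal S ^ i) := by
      rw [Ideal.iInf_pow_eq_bot_of_isLocalRing _ (IsLocalRing.maximalIdeal.isMaximal S).ne_top,
        Ideal.mem_bot]
      exact hf
    rw [Ideal.mem_iInf] at h1
    push Not at h1
    obtain ⟨M, hM⟩ := h1
    obtain ⟨c, hc⟩ := hsmall M
    exact ⟨c, fun h => hM (hc h)⟩
  obtain ⟨c, hc⟩ := hbig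
  have hanti : ∀ c d : ℝ, c ≤ d → Agt x w d ≤ Agt x w c := by
    intro c d hcd
    apply Ideal.span_mono
    rintro _ ⟨b, hb, rfl⟩
    exact ⟨b, hcd.trans_lt hb, rfl⟩
  have hmono : ∀ b : Fin r → ℕ, ∀ c : ℝ, c < ∑ i, (b i : ℝ) * w i →
      ∏ i, x i ^ b i ∈ Agt x w c := fun b c hb => Ideal.subset_span ⟨b, hb, rfl⟩
  -- the least weight with this property
  obtain ⟨a, ha, hamin⟩ : ∃ a : Fin r → ℕ, f ∉ Agt x w (∑ i, (a i : ℝ) * w i) ∧
      ∀ b : Fin r → ℕ, ∑ i, (b i : ℝ) * w i < ∑ i, (a i : ℝ) * w i →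
        f ∈ Agt x w (∑ i, (b i : ℝ) * w i) := by
    -- there is some
    obtain ⟨a0, ha0⟩ : ∃ a0 : Fin r → ℕ, f ∉ Agt x w (∑ i, (a0 i : ℝ) * w i) := by
      by_cases hr : Nonempty (Fin r)
      · obtain ⟨i0⟩ := hr
        obtain ⟨M, hM⟩ := exists_nat_ge (c / w i0)
        rw [div_le_iff₀ (hw i0)] at hM
        refine ⟨fun _ => M, fun h => hc (hanti _ _ (hM.trans ?_) h)⟩
        exact Finset.single_le_sum (f := fun j => (M : ℝ) * w j)
          (fun j _ => mul_nonneg (Nat.cast_nonneg _) (hw j).le) (Finset.mem_univ i0)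
      · rw [not_nonempty_iff] at hr
        refine ⟨fun _ => 0, fun h => hf ?_⟩
        have h1 : Agt x w (∑ i, (((fun _ => 0 : Fin r → ℕ) i : ℕ) : ℝ) * w i) = ⊥ := by
          rw [Agt, Ideal.span_eq_bot]
          rintro _ ⟨b, hb, rfl⟩
          simp at hb
        rw [h1] at h
        exact (Ideal.mem_bot).1 h
    have hfin : ({b : Fin r → ℕ | ∑ i, (b i : ℝ) * w i < ∑ i, (a0 i : ℝ) * w i + 1} ∩
        {b | f ∉ Agt x w (∑ i, (b i : ℝ) * w i)}).Finite :=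
      (finite_lt w hw _).subset Set.inter_subset_left
    obtain ⟨a, ha, hmin⟩ := Set.exists_min_image _ (fun b : Fin r → ℕ => ∑ i, (b i : ℝ) * w i)
      hfin ⟨a0, by
        show ∑ i, (a0 i : ℝ) * w i < ∑ i, (a0 i : ℝ) * w i + 1
        linarith, ha0⟩
    refine ⟨a, ha.2, fun b hb => ?_⟩
    by_contra hcon
    have h1 : ∑ i, (a i : ℝ) * w i < ∑ i, (a0 i : ℝ) * w i + 1 := ha.1
    have h2 : ∑ i, (a i : ℝ) * w i ≤ ∑ i, (b i : ℝ) * w i := hmin b ⟨by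
      show ∑ i, (b i : ℝ) * w i < ∑ i, (a0 i : ℝ) * w i + 1
      linarith, hcon⟩
    linarith
  -- `f ∈ (x^a) + Agt a`
  have hfa : f ∈ Ideal.span {∏ i, x i ^ a i} ⊔ Agt x w (∑ i, (a i : ℝ) * w i) := by
    by_cases h0 : a = 0
    · subst h0
      simp
    · have hpos : 0 < ∑ i, (a i : ℝ) * w i := by
        obtain ⟨i, hi⟩ := Function.ne_iff.1 h0
        have h1 : (a i : ℝ) * w i ≤ ∑ j, (a j : ℝ) * w j :=
          Finset.single_le_sum (f := fun j => (a j : ℝ) * w j)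
            (fun j _ => mul_nonneg (Nat.cast_nonneg _) (hw j).le) (Finset.mem_univ i)
        have h2 : 0 < (a i : ℝ) := by exact_mod_cast Nat.pos_of_ne_zero hi
        exact (mul_pos h2 (hw i)).trans_le h1
      obtain ⟨b, hb, hmax⟩ := Set.exists_max_image _
        (fun b : Fin r → ℕ => ∑ i, (b i : ℝ) * w i)
        (finite_lt w hw (∑ i, (a i : ℝ) * w i)) ⟨0, by
          show ∑ i, (((0 : Fin r → ℕ) i : ℕ) : ℝ) * w i < _
          simpa using hpos⟩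
      refine (?_ : Agt x w (∑ i, (b i : ℝ) * w i) ≤ _) (hamin b hb)
      rw [Agt, Ideal.span_le]
      rintro _ ⟨e, he, rfl⟩
      rcases lt_trichotomy (∑ i, (e i : ℝ) * w i) (∑ i, (a i : ℝ) * w i) with h1 | h1 | h1
      · have h2 : ∑ i, (e i : ℝ) * w i ≤ ∑ i, (b i : ℝ) * w i := hmax e h1
        linarith
      · rw [eq_of_weight w hind h1]
        exact Ideal.mem_sup_left (Ideal.mem_span_singleton_self _)
      · exact Ideal.mem_sup_right (hmono e _ h1)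
  obtain ⟨z, hz, h, hh, hzh⟩ := Submodule.mem_sup.1 hfa
  obtain ⟨f0, rfl⟩ := Ideal.mem_span_singleton'.1 hz
  -- `x^a (x) ⊆ Agt a`
  have hJ : ∀ j ∈ Ideal.span (Set.range x),
      (∏ i, x i ^ a i) * j ∈ Agt x w (∑ i, (a i : ℝ) * w i) := by
    intro j hj
    induction hj using Submodule.span_induction with
    | mem z hz =>
      obtain ⟨i, rfl⟩ := hz
      have h1 : (∏ j, x j ^ a j) * x i = ∏ j, x j ^ ((a + Pi.single i 1 : Fin r → ℕ) j) := by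
        simp only [Pi.add_apply, pow_add, Finset.prod_mul_distrib]
        congr 1
        rw [Finset.prod_eq_single i]
        · simp
        · intro j _ hj
          rw [Pi.single_eq_of_ne hj, pow_zero]
        · intro h; exact absurd (Finset.mem_univ i) h
      rw [h1]
      apply hmono
      have h2 : ∑ j, (((a + Pi.single i 1 : Fin r → ℕ) j : ℕ) : ℝ) * w j =
          ∑ j, (a j : ℝ) * w j + w i := by
        simp only [Pi.add_apply, Nat.cast_add, add_mul, Finset.sum_add_distrib]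
        congr 1
        rw [Finset.sum_eq_single i]
        · simp
        · intro j _ hj
          rw [Pi.single_eq_of_ne hj, Nat.cast_zero, zero_mul]
        · intro h; exact absurd (Finset.mem_univ i) h
      rw [h2]
      linarith [hw i]
    | zero => rw [mul_zero]; exact Ideal.zero_mem _
    | add z t _ _ hz ht => rw [mul_add]; exact Ideal.add_mem _ hz ht
    | smul c z _ hz =>
      rw [smul_eq_mul, mul_left_comm]
      exact Ideal.mul_mem_left _ _ hz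
  have hf0 : f0 ∉ Ideal.span (Set.range x) := by
    intro h1
    apply ha
    rw [← hzh, mul_comm f0]
    exact Ideal.add_mem _ (hJ f0 h1) hh
  obtain ⟨D, g, hg, hgf⟩ := leading_y (Ideal.span (Set.range x)) y hm f0 hf0
  refine ⟨a, D, g, hg, ?_⟩
  have h2 : f - (∏ i, x i ^ a i) * (g * y ^ D) = (∏ i, x i ^ a i) * (f0 - g * y ^ D) + h := by
    rw [← hzh]; ring
  rw [h2]
  exact Ideal.add_mem _ (hJ _ hgf) hh

end Pool.Agent.LUM.RepAux

namespace Pool.Agent.LUM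

open Pool.Agent.H15JM (RVal)
open Pool.Agent.LU1 (VPos LatData)
open Polynomial

universe u

variable {Λ Ω : Type u} [CommRing Λ] [IsDomain Λ] [IsDiscreteValuationRing Λ] [Field Ω]
  [Algebra Λ Ω] {ϖ : Λ} {v : RVal Ω} {r : ℕ}

namespace RepAux

theorem exists_pos (B : BF ϖ v) : ∃ δ ∈ B.Γ, 0 < δ := by
  obtain ⟨m, hm, h1⟩ := B.full B.y B.y_ne
  exact ⟨_, h1, mul_pos (by exact_mod_cast hm) B.y_pos⟩

/-- `z ∈ χ(γ) R` for some `γ > κ`. -/
def Hi (B : BF ϖ v) (κ : ℝ) (z : Ω) : Prop := ∃ γ ∈ B.Γ, κ < γ ∧ ∃ a ∈ B.R, z = B.χ γ * a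

theorem Hi.zero (B : BF ϖ v) {κ : ℝ} (hκ : κ ∈ B.Γ) : Hi B κ 0 := by
  obtain ⟨δ, hδ, h0⟩ := exists_pos B
  exact ⟨κ + δ, B.Γ.add_mem hκ hδ, by linarith, 0, B.R.zero_mem, by rw [mul_zero]⟩

theorem Hi.add {B : BF ϖ v} {κ : ℝ} {z t : Ω} (hz : Hi B κ z) (ht : Hi B κ t) :
    Hi B κ (z + t) := by
  obtain ⟨γ, hγ, h1, a, ha, rfl⟩ := hz
  obtain ⟨δ, hδ, h2, b, hb, rfl⟩ := ht
  obtain ⟨c, hc, h3⟩ := B.ideal_add hγ hδ ha hb
  refine ⟨min γ δ, ?_, lt_min h1 h2, c, hc, h3⟩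
  rcases min_choice γ δ with h | h <;> rw [h] <;> assumption

theorem Hi.mul {B : BF ϖ v} {κ : ℝ} {z c : Ω} (hz : Hi B κ z) (hc : c ∈ B.R) :
    Hi B κ (c * z) := by
  obtain ⟨γ, hγ, h1, a, ha, rfl⟩ := hz
  exact ⟨γ, hγ, h1, c * a, B.R.mul_mem hc ha, by ring⟩

theorem Hi.neg {B : BF ϖ v} {κ : ℝ} {z : Ω} (hz : Hi B κ z) : Hi B κ (-z) := by
  obtain ⟨γ, hγ, h1, a, ha, rfl⟩ := hz
  exact ⟨γ, hγ, h1, -a, B.R.neg_mem ha, by ring⟩

theorem Hi.mono {B : BF ϖ v} {κ κ' : ℝ} (h : κ' ≤ κ) {z : Ω} (hz : Hi B κ z) : Hi B κ' z := by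
  obtain ⟨γ, hγ, h1, a, ha, rfl⟩ := hz
  exact ⟨γ, hγ, h.trans_lt h1, a, ha, rfl⟩

theorem Hi.χ_mul {B : BF ϖ v} {κ : ℝ} {z : Ω} (hz : Hi B κ z) {δ : ℝ} (hδ : δ ∈ B.Γ) :
    Hi B (δ + κ) (B.χ δ * z) := by
  obtain ⟨γ, hγ, h1, a, ha, rfl⟩ := hz
  exact ⟨δ + γ, B.Γ.add_mem hδ hγ, by linarith, a, ha, by rw [B.χ_add δ hδ γ hγ]; ring⟩

theorem rep_iff {B : BF ϖ v} {f : Ω} {κ : ℝ} {D : ℕ} (hκ : κ ∈ B.Γ) :
    B.Rep f κ D ↔ ∃ u, B.Un u ∧ Hi B κ (f - B.χ κ * (u * B.y ^ D)) := by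
  constructor
  · rintro ⟨-, u, hu, δ, hδ, h0, a, ha, rfl⟩
    refine ⟨u, hu, κ + δ, B.Γ.add_mem hκ hδ, by linarith, a, ha, ?_⟩
    rw [B.χ_add κ hκ δ hδ]; ring
  · rintro ⟨u, hu, γ, hγ, h1, a, ha, h2⟩
    refine ⟨hκ, u, hu, γ - κ, B.Γ.sub_mem hγ hκ, by linarith, a, ha, ?_⟩
    have h3 : B.χ γ = B.χ κ * B.χ (γ - κ) := by
      rw [← B.χ_add κ hκ _ (B.Γ.sub_mem hγ hκ)]; congr 1; ring
    have h4 : f = B.χ κ * (u * B.y ^ D) + B.χ γ * a := by rw [← h2]; ring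
    rw [h4, h3]; ring

/-- No power of `y` is in the ideal `I`. -/
theorem not_hi (h : Ctx0 ϖ v r) (B : BF ϖ v) (D : ℕ) {u : Ω} (hu : B.Un u) :
    ¬ Hi B 0 (u * B.y ^ D) := by
  rintro ⟨γ, hγ, h1, a, ha, h2⟩
  refine B.reg D γ hγ h1 _ (B.R.mul_mem hu.inv.1 ha) ?_
  have h3 : B.y ^ D = u⁻¹ * (u * B.y ^ D) := by
    rw [← mul_assoc, inv_mul_cancel₀ hu.2.1, one_mul]
  rw [h3, h2]; ring

theorem χ_sum (B : BF ϖ v) {n : ℕ} (w : Fin n → ℝ) (hw : ∀ i, w i ∈ B.Γ) (b : Fin n → ℕ)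
    (s : Finset (Fin n)) :
    (∑ i ∈ s, (b i : ℝ) * w i) ∈ B.Γ ∧
      B.χ (∑ i ∈ s, (b i : ℝ) * w i) = ∏ i ∈ s, B.χ (w i) ^ b i := by
  classical
  induction s using Finset.induction_on with
  | empty => exact ⟨by simp, by simp [B.χ_zero]⟩
  | insert j s hj ih =>
    have h1 : (b j : ℝ) * w j ∈ B.Γ := by
      rw [← nsmul_eq_mul]; exact B.Γ.nsmul_mem (hw j) _
    rw [Finset.sum_insert hj, Finset.prod_insert hj]
    exact ⟨B.Γ.add_mem h1 ih.1, by rw [B.χ_add _ h1 _ ih.1, ih.2, B.χ_nsmul (hw j)]⟩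

end RepAux

open RepAux

theorem BF.Rep.ne_zero (h : Ctx0 ϖ v r) {B : BF ϖ v} {f : Ω} {κ : ℝ} {D : ℕ}
    (h1 : B.Rep f κ D) : f ≠ 0 := by
  rintro rfl
  obtain ⟨hκ, u, hu, δ, hδ, h0, a, ha, h2⟩ := h1
  have h3 : u * B.y ^ D + B.χ δ * a = 0 := by
    rcases mul_eq_zero.1 h2.symm with h4 | h4
    · exact absurd h4 (B.χ_ne κ hκ)
    · exact h4
  refine not_hi h B D hu ⟨δ, hδ, h0, -a, B.R.neg_mem ha, ?_⟩
  rw [eq_neg_of_add_eq_zero_left h3]; ring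

theorem BF.Rep.mul {B : BF ϖ v} {f g : Ω} {κ κ' : ℝ} {D D' : ℕ}
    (h1 : B.Rep f κ D) (h2 : B.Rep g κ' D') : B.Rep (f * g) (κ + κ') (D + D') := by
  obtain ⟨hκ, u, hu, δ, hδ, h0, a, ha, rfl⟩ := h1
  obtain ⟨hκ', u', hu', δ', hδ', h0', a', ha', rfl⟩ := h2
  refine (rep_iff (B.Γ.add_mem hκ hκ')).2 ⟨u * u', hu.mul hu', ?_⟩
  have h3 : B.χ κ * (u * B.y ^ D + B.χ δ * a) * (B.χ κ' * (u' * B.y ^ D' + B.χ δ' * a')) -
      B.χ (κ + κ') * (u * u' * B.y ^ (D + D')) =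
      B.χ (κ + κ') * ((a * (u' * B.y ^ D' + B.χ δ' * a')) * B.χ δ +
        (u * B.y ^ D * a') * B.χ δ') := by
    rw [B.χ_add κ hκ κ' hκ', pow_add]; ring
  rw [h3]
  have hy : ∀ n : ℕ, B.y ^ n ∈ B.R := fun n => B.R.pow_mem B.y_mem n
  have h4 : Hi B 0 (B.χ δ) := ⟨δ, hδ, h0, 1, B.R.one_mem, by rw [mul_one]⟩
  have h5 : Hi B 0 (B.χ δ') := ⟨δ', hδ', h0', 1, B.R.one_mem, by rw [mul_one]⟩
  have h6 := (h4.mul (B.R.mul_mem ha (B.R.add_mem (B.R.mul_mem hu'.1 (hy D'))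
    (B.R.mul_mem (B.χ_mem δ' hδ' h0'.le) ha')))).add
      (h5.mul (B.R.mul_mem (B.R.mul_mem hu.1 (hy D)) ha'))
  have h7 := h6.χ_mul (B.Γ.add_mem hκ hκ')
  rwa [add_zero] at h7

/-- Adding something of larger `(content, order)`. -/
theorem BF.Rep.add {B : BF ϖ v} {f g : Ω} {κ κ' : ℝ} {D D' : ℕ} (h1 : B.Rep f κ D)
    (h2 : B.Rep g κ' D') (hlt : κ < κ' ∨ (κ = κ' ∧ D < D')) : B.Rep (f + g) κ D := by
  have hκ := h1.1
  have hκ' := h2.1
  obtain ⟨u, hu, hf⟩ := (rep_iff hκ).1 h1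
  obtain ⟨u', hu', hg⟩ := (rep_iff hκ').1 h2
  have hy : ∀ n : ℕ, B.y ^ n ∈ B.R := fun n => B.R.pow_mem B.y_mem n
  rcases hlt with hlt | ⟨rfl, hlt⟩
  · refine (rep_iff hκ).2 ⟨u, hu, ?_⟩
    have h3 : f + g - B.χ κ * (u * B.y ^ D) = (f - B.χ κ * (u * B.y ^ D)) +
        ((g - B.χ κ' * (u' * B.y ^ D')) + B.χ κ' * (u' * B.y ^ D')) := by ring
    rw [h3]
    exact hf.add ((hg.mono hlt.le).add ⟨κ', hκ', hlt, _, B.R.mul_mem hu'.1 (hy D'), rfl⟩)
  · obtain ⟨n, rfl⟩ : ∃ n, D' = D + (n + 1) := ⟨D' - D - 1, by omega⟩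
    have hw : B.Un (u + u' * B.y ^ (n + 1)) := by
      refine hu.add_vpos (B.R.mul_mem hu'.1 (hy _)) ?_
      apply VPos.mul' (B.nonneg _ hu'.1)
      intro _
      rw [v.map_pow B.y_ne]
      exact mul_pos (by positivity) B.y_pos
    refine (rep_iff hκ).2 ⟨_, hw, ?_⟩
    have h3 : f + g - B.χ κ * ((u + u' * B.y ^ (n + 1)) * B.y ^ D) =
        (f - B.χ κ * (u * B.y ^ D)) + (g - B.χ κ * (u' * B.y ^ (D + (n + 1)))) := by
      rw [pow_add]; ring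
    rw [h3]
    exact hf.add hg

/-- Adding an element of `χ(κ') R`, `κ' > κ`. -/
theorem BF.Rep.add_mem {B : BF ϖ v} {f : Ω} {κ κ' : ℝ} {D : ℕ} (h1 : B.Rep f κ D)
    (hκ' : κ' ∈ B.Γ) (hlt : κ < κ') {a : Ω} (ha : a ∈ B.R) : B.Rep (f + B.χ κ' * a) κ D := by
  obtain ⟨u, hu, hf⟩ := (rep_iff h1.1).1 h1
  refine (rep_iff h1.1).2 ⟨u, hu, ?_⟩
  rw [add_sub_right_comm]
  exact hf.add ⟨κ', hκ', hlt, a, ha, rfl⟩

/-- Elements of `χ(κ) R` have content at least `κ`. -/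
theorem BF.Rep.ge_of_mem (h : Ctx0 ϖ v r) {B : BF ϖ v} {f : Ω} {κ κ' : ℝ} {D : ℕ}
    (h1 : B.Rep f κ D) (hκ' : κ' ∈ B.Γ) {a : Ω} (ha : a ∈ B.R) (hf : f = B.χ κ' * a) :
    κ' ≤ κ := by
  by_contra hcon
  have hlt : κ < κ' := not_le.1 hcon
  have hκ := h1.1
  obtain ⟨u, hu, h2⟩ := (rep_iff hκ).1 h1
  have h3 : Hi B κ (B.χ κ * (u * B.y ^ D)) := by
    have h4 : B.χ κ * (u * B.y ^ D) = B.χ κ' * a + -(f - B.χ κ * (u * B.y ^ D)) := by
      rw [← hf]; ring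
    rw [h4]
    exact Hi.add ⟨κ', hκ', hlt, a, ha, rfl⟩ h2.neg
  have h5 := h3.χ_mul (B.Γ.neg_mem hκ)
  rw [neg_add_cancel, ← mul_assoc, ← B.χ_add _ (B.Γ.neg_mem hκ) _ hκ, neg_add_cancel,
    B.χ_zero, one_mul] at h5
  exact not_hi h B D hu h5

theorem BF.Rep.unique (h : Ctx0 ϖ v r) {B : BF ϖ v} {f : Ω} {κ κ' : ℝ} {D D' : ℕ}
    (h1 : B.Rep f κ D) (h2 : B.Rep f κ' D') : κ = κ' ∧ D = D' := by
  have hy : ∀ n : ℕ, B.y ^ n ∈ B.R := fun n => B.R.pow_mem B.y_mem n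
  have hle : ∀ {κ κ' : ℝ} {D D' : ℕ}, B.Rep f κ D → B.Rep f κ' D' → κ' ≤ κ := by
    intro κ κ' D D' h1 h2
    obtain ⟨hκ', u, hu, δ, hδ, h0, a, ha, h3⟩ := h2
    exact h1.ge_of_mem h hκ' (B.R.add_mem (B.R.mul_mem hu.1 (hy D'))
      (B.R.mul_mem (B.χ_mem δ hδ h0.le) ha)) h3
  have hκ : κ = κ' := le_antisymm (hle h2 h1) (hle h1 h2)
  subst hκ
  refine ⟨rfl, ?_⟩
  have key : ∀ {D D' : ℕ}, B.Rep f κ D → B.Rep f κ D' → ¬ D < D' := by
    intro D D' h1 h2 hlt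
    have h3 := h1.1
    obtain ⟨u, hu, h4⟩ := (rep_iff h3).1 h2
    have h5 : B.Rep (-(B.χ κ * (u * B.y ^ D'))) κ D' := by
      refine (rep_iff h3).2 ⟨-u, ?_, ?_⟩
      · refine ⟨B.R.neg_mem hu.1, neg_ne_zero.2 hu.2.1, ?_⟩
        rw [v.map_neg _ hu.2.1, hu.2.2]
      · have h6 : -(B.χ κ * (u * B.y ^ D')) - B.χ κ * (-u * B.y ^ D') = 0 := by ring
        rw [h6]
        exact Hi.zero B h3
    have h6 := h1.add h5 (Or.inr ⟨rfl, hlt⟩)
    rw [← sub_eq_add_neg] at h6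
    obtain ⟨γ, hγ, h7, a, ha, h8⟩ := h4
    exact absurd (h6.ge_of_mem h hγ ha h8) (not_le.2 h7)
  rcases lt_trichotomy D D' with h3 | h3 | h3
  · exact absurd h3 (key h1 h2)
  · exact h3
  · exact absurd h3 (key h2 h1)

theorem BF.Rep.mem {B : BF ϖ v} {f : Ω} {κ : ℝ} {D : ℕ} (h1 : B.Rep f κ D) (h0 : 0 ≤ κ) :
    f ∈ B.R := by
  obtain ⟨hκ, u, hu, δ, hδ, hδ0, a, ha, rfl⟩ := h1
  exact B.R.mul_mem (B.χ_mem κ hκ h0) (B.R.add_mem (B.R.mul_mem hu.1 (B.R.pow_mem B.y_mem D))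
    (B.R.mul_mem (B.χ_mem δ hδ hδ0.le) ha))

theorem BF.Rep.val_zero {B : BF ϖ v} {f : Ω} {κ : ℝ} (h1 : B.Rep f κ 0) :
    f ≠ 0 ∧ v f = κ ∧ B.Mono f := by
  obtain ⟨hκ, u, hu, δ, hδ, hδ0, a, ha, rfl⟩ := h1
  have h2 : B.Un (u * B.y ^ 0 + B.χ δ * a) := by
    rw [pow_zero, mul_one]
    exact hu.add_vpos (B.R.mul_mem (B.χ_mem δ hδ hδ0.le) ha)
      ((B.vpos_χ hδ hδ0).mul (B.nonneg a ha))
  refine ⟨mul_ne_zero (B.χ_ne κ hκ) h2.2.1, ?_, (BF.Mono.χ hκ).mul (BF.Mono.un h2)⟩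
  rw [v.map_mul (B.χ_ne κ hκ) h2.2.1, B.χ_val κ hκ, h2.2.2, add_zero]

theorem BF.Rep.val_pos (h : Ctx0 ϖ v r) {B : BF ϖ v} {f : Ω} {κ : ℝ} {D : ℕ} (h1 : B.Rep f κ D)
    (hD : 1 ≤ D) : κ < v f := by
  have hne := h1.ne_zero h
  obtain ⟨hκ, u, hu, δ, hδ, hδ0, a, ha, rfl⟩ := h1
  have h2 := right_ne_zero_of_mul hne
  have h3 : VPos v (u * B.y ^ D + B.χ δ * a) := by
    refine VPos.add ?_ ((B.vpos_χ hδ hδ0).mul (B.nonneg a ha))
    apply VPos.mul' (B.nonneg _ hu.1)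
    intro _
    rw [v.map_pow B.y_ne]
    exact mul_pos (by exact_mod_cast hD) B.y_pos
  rw [v.map_mul (B.χ_ne κ hκ) h2, B.χ_val κ hκ]
  linarith [h3 h2]

theorem BF.Mono.rep {B : BF ϖ v} {f : Ω} (h1 : B.Mono f) : B.Rep f (v f) 0 := by
  obtain ⟨h0, h2, h3⟩ := h1
  refine (rep_iff h2).2 ⟨_, h3, ?_⟩
  have h4 : f - B.χ (v f) * (f / B.χ (v f) * B.y ^ 0) = 0 := by
    rw [pow_zero, mul_one, mul_div_cancel₀ _ (B.χ_ne _ h2), sub_self]
  rw [h4]
  exact Hi.zero B h2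

theorem BF.rep_χ (B : BF ϖ v) {γ : ℝ} (hγ : γ ∈ B.Γ) : B.Rep (B.χ γ) γ 0 := by
  have h1 := (BF.Mono.χ hγ).rep
  rwa [B.χ_val γ hγ] at h1

theorem BF.rep_y (B : BF ϖ v) : B.Rep B.y 0 1 := by
  refine (rep_iff B.Γ.zero_mem).2 ⟨1, BF.Un.one, ?_⟩
  have h4 : B.y - B.χ 0 * (1 * B.y ^ 1) = 0 := by rw [B.χ_zero]; ring
  rw [h4]
  exact Hi.zero B B.Γ.zero_mem

theorem BF.Rep.pow {B : BF ϖ v} {f : Ω} {κ : ℝ} {D : ℕ} (h1 : B.Rep f κ D) (n : ℕ) :
    B.Rep (f ^ n) (n * κ) (n * D) := by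
  induction n with
  | zero =>
    have h2 := B.rep_χ B.Γ.zero_mem
    rw [B.χ_zero] at h2
    simpa using h2
  | succ n ih =>
    have h2 := ih.mul h1
    rw [pow_succ]
    have h3 : ((n + 1 : ℕ) : ℝ) * κ = n * κ + κ := by push_cast; ring
    rw [h3, Nat.succ_mul]
    exact h2

/-- The `(content, order)` of a polynomial is the lexicographic minimum of its reduction, if all
its monomials have level `> κ - v(ϖ)`. -/
theorem BF.rep_ev (h : Ctx0 ϖ v r) (B : BF ϖ v) {P : (Lau Λ)[X]} (hP : SuppIn B.Γ P) {κ : ℝ}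
    {D : ℕ} (hLD : LU1.IsLD LU1.All (red P) 0 κ D)
    (hW : ∀ γ l, co P γ l ≠ 0 → κ < γ + v (algebraMap Λ Ω ϖ)) : B.Rep (B.ev P) κ D := by
  classical
  obtain ⟨h1, h2, h3, -⟩ := hLD
  rw [mul_zero, sub_zero] at h3
  have hterm : ∀ γ l, LU1.co (red P) γ l ≠ 0 →
      B.Rep (algebraMap Λ Ω (co P γ l) * B.χ γ * B.y ^ l) γ l := by
    intro γ l hc
    have hu := isUnit_of_co_red hc
    have hγ := hP γ l hu.ne_zero
    have h4 := ((BF.Mono.un (BF.Un.const h hu (B := B))).mul (BF.Mono.χ hγ)).rep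
    obtain ⟨hne, hv0⟩ := h.triv hu
    rw [v.map_mul hne (B.χ_ne γ hγ), hv0, zero_add, B.χ_val γ hγ] at h4
    have h5 := h4.mul (B.rep_y.pow l)
    simpa using h5
  rw [B.ev_eq, Finset.sum_sigma']
  have hco3 : co P κ D ≠ 0 := (isUnit_of_co_red h3).ne_zero
  have hmem : (⟨D, κ⟩ : (_ : ℕ) × ℝ) ∈
      P.support.sigma fun l => (P.coeff l).coeff.support := by
    rw [Finset.mem_sigma]
    constructor
    · rw [Polynomial.mem_support_iff]
      intro h5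
      apply hco3
      show (P.coeff D).coeff κ = 0
      rw [h5]; rfl
    · exact Finsupp.mem_support_iff.2 hco3
  rw [← Finset.add_sum_erase _ _ hmem]
  have key : ∀ s : Finset ((_ : ℕ) × ℝ), (∀ q ∈ s, co P q.2 q.1 ≠ 0 ∧ q ≠ ⟨D, κ⟩) →
      B.Rep (algebraMap Λ Ω (co P κ D) * B.χ κ * B.y ^ D +
        ∑ q ∈ s, algebraMap Λ Ω (co P q.2 q.1) * B.χ q.2 * B.y ^ q.1) κ D := by
    intro s
    induction s using Finset.induction_on with
    | empty =>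
      intro _
      rw [Finset.sum_empty, add_zero]
      exact hterm κ D h3
    | insert q s hq ih =>
      intro hs
      rw [Finset.sum_insert hq, add_left_comm, add_comm]
      obtain ⟨h5, h6⟩ := hs q (Finset.mem_insert_self q s)
      have hih := ih fun q' hq' => hs q' (Finset.mem_insert_of_mem hq')
      by_cases hred : LU1.co (red P) q.2 q.1 = 0
      · -- the coefficient is divisible by `ϖ`
        rw [co_red] at hred
        have hmax : co P q.2 q.1 ∈ IsLocalRing.maximalIdeal Λ := by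
          rwa [IsLocalRing.residue_eq_zero_iff] at hred
        rw [h.irr.maximalIdeal_eq, Ideal.mem_span_singleton] at hmax
        obtain ⟨d, hd⟩ := hmax
        have hγ := hP _ _ h5
        have h8 := B.Γ.add_mem hγ B.pi_mem
        have h9 : algebraMap Λ Ω (co P q.2 q.1) * B.χ q.2 * B.y ^ q.1 =
            B.χ (q.2 + v (algebraMap Λ Ω ϖ)) *
              (algebraMap Λ Ω ϖ / B.χ (v (algebraMap Λ Ω ϖ)) * (algebraMap Λ Ω d * B.y ^ q.1)) := by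
          have h10 := B.χ_ne _ B.pi_mem
          rw [hd, map_mul, B.χ_add _ hγ _ B.pi_mem]
          field_simp
        rw [h9]
        exact hih.add_mem h8 (hW _ _ h5) (B.R.mul_mem B.pi_un
          (B.R.mul_mem (B.R.algebraMap_mem d) (B.R.pow_mem B.y_mem _)))
      refine hih.add (hterm q.2 q.1 hred) ?_
      have h7 := h1 q.2 q.1 hred trivial
      rw [mul_zero, add_zero] at h7
      rcases h7.lt_or_eq with h8 | h8
      · exact Or.inl h8
      · refine Or.inr ⟨h8, ?_⟩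
        by_contra hcon
        rcases lt_or_eq_of_le (not_lt.1 hcon) with h9 | h9
        · have h10 := h2 q.2 q.1 hred trivial h9
          rw [mul_zero, add_zero] at h10
          exact absurd h8 h10.ne
        · apply h6
          obtain ⟨l, γ⟩ := q
          simp only at h8 h9
          subst h8; subst h9; rfl
  apply key
  intro q hq
  rw [Finset.mem_erase, Finset.mem_sigma] at hq
  exact ⟨Finsupp.mem_support_iff.1 hq.2.2, hq.1⟩

/-- If the reduction of `P` is zero and all exponents are `≥ W`, then `ev P` is of level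
`≥ W + v(ϖ)`. -/
theorem BF.lev_ev (h : Ctx0 ϖ v r) (B : BF ϖ v) {P : (Lau Λ)[X]} (hP : SuppIn B.Γ P) {W : ℝ}
    (hred : ∀ γ l, co P γ l ≠ 0 → γ < W + v (algebraMap Λ Ω ϖ) → LU1.co (red P) γ l = 0)
    (hW : ∀ γ l, co P γ l ≠ 0 → W ≤ γ) : B.Lev (W + v (algebraMap Λ Ω ϖ)) (B.ev P) := by
  classical
  obtain ⟨m, hm, hmΓ⟩ := B.full B.y B.y_ne
  -- a large element of `Γ`
  have hbig : ∃ γ ∈ B.Γ, W + v (algebraMap Λ Ω ϖ) ≤ γ := by
    have h1 : 0 < (m : ℝ) * v B.y := mul_pos (by exact_mod_cast hm) B.y_pos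
    obtain ⟨n, hn⟩ := exists_nat_ge ((W + v (algebraMap Λ Ω ϖ)) / ((m : ℝ) * v B.y))
    refine ⟨n * ((m : ℝ) * v B.y), ?_, ?_⟩
    · rw [← nsmul_eq_mul]; exact B.Γ.nsmul_mem hmΓ n
    · rwa [div_le_iff₀ h1] at hn
  have hzero : B.Lev (W + v (algebraMap Λ Ω ϖ)) 0 := by
    obtain ⟨γ, hγ, h1⟩ := hbig
    exact ⟨γ, hγ, h1, 0, B.R.zero_mem, by rw [mul_zero]⟩
  have hadd : ∀ f g : Ω, B.Lev (W + v (algebraMap Λ Ω ϖ)) f →
      B.Lev (W + v (algebraMap Λ Ω ϖ)) g → B.Lev (W + v (algebraMap Λ Ω ϖ)) (f + g) := by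
    rintro f g ⟨γ, hγ, h1, a, ha, rfl⟩ ⟨δ, hδ, h2, b, hb, rfl⟩
    obtain ⟨c, hc, h3⟩ := B.ideal_add hγ hδ ha hb
    refine ⟨min γ δ, ?_, le_min h1 h2, c, hc, h3⟩
    rcases min_choice γ δ with h4 | h4 <;> rw [h4] <;> assumption
  rw [B.ev_eq, Finset.sum_sigma']
  have key : ∀ s : Finset ((_ : ℕ) × ℝ), (∀ q ∈ s, co P q.2 q.1 ≠ 0) →
      B.Lev (W + v (algebraMap Λ Ω ϖ))
        (∑ q ∈ s, algebraMap Λ Ω (co P q.2 q.1) * B.χ q.2 * B.y ^ q.1) := by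
    intro s
    induction s using Finset.induction_on with
    | empty => intro _; rw [Finset.sum_empty]; exact hzero
    | insert q s hq ih =>
      intro hs
      rw [Finset.sum_insert hq]
      refine hadd _ _ ?_ (ih fun q' hq' => hs q' (Finset.mem_insert_of_mem hq'))
      have h5 := hs q (Finset.mem_insert_self q s)
      have hγ := hP _ _ h5
      by_cases hlt : q.2 < W + v (algebraMap Λ Ω ϖ)
      · have hr := hred _ _ h5 hlt
        rw [co_red] at hr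
        have hmax : co P q.2 q.1 ∈ IsLocalRing.maximalIdeal Λ := by
          rwa [IsLocalRing.residue_eq_zero_iff] at hr
        rw [h.irr.maximalIdeal_eq, Ideal.mem_span_singleton] at hmax
        obtain ⟨d, hd⟩ := hmax
        refine ⟨q.2 + v (algebraMap Λ Ω ϖ), B.Γ.add_mem hγ B.pi_mem,
          by linarith [hW _ _ h5], algebraMap Λ Ω ϖ / B.χ (v (algebraMap Λ Ω ϖ)) *
            (algebraMap Λ Ω d * B.y ^ q.1), B.R.mul_mem B.pi_un
          (B.R.mul_mem (B.R.algebraMap_mem d) (B.R.pow_mem B.y_mem _)), ?_⟩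
        have h10 := B.χ_ne _ B.pi_mem
        rw [hd, map_mul, B.χ_add _ hγ _ B.pi_mem]
        field_simp
      · refine ⟨q.2, hγ, not_lt.1 hlt, algebraMap Λ Ω (co P q.2 q.1) * B.y ^ q.1,
          B.R.mul_mem (B.R.algebraMap_mem _) (B.R.pow_mem B.y_mem _), by ring⟩
  apply key
  intro q hq
  rw [Finset.mem_sigma] at hq
  exact Finsupp.mem_support_iff.1 hq.2

/-- If `ν(y') = (0, 1)` then `(Γ, χ, y', R)` is a frame. -/
theorem BF.change_y (h : Ctx0 ϖ v r) (B : BF ϖ v) {y' : Ω} (hy : B.Rep y' 0 1) :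
    ∃ B' : BF ϖ v, B'.Γ = B.Γ ∧ B'.χ = B.χ ∧ B'.y = y' ∧ B'.R = B.R := by
  obtain ⟨-, u, hu, δ, hδ, hδ0, a, ha, h1⟩ := id hy
  rw [B.χ_zero, one_mul, pow_one] at h1
  refine ⟨{ B with
    y := y'
    y_ne := hy.ne_zero h
    y_pos := hy.val_pos h le_rfl
    y_mem := hy.mem le_rfl
    gen := ?_
    reg := ?_ }, rfl, rfl, rfl, rfl⟩
  swap
  · intro D γ hγ h0 a' ha' hD
    have h2 : B.Rep (y' ^ D) ((D : ℝ) * 0) (D * 1) := hy.pow D
    rw [hD] at h2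
    have h3 := h2.ge_of_mem h hγ ha' rfl
    rw [mul_zero] at h3
    linarith
  intro f hf hv
  obtain ⟨γ, hγ, h0, a', ha', b, hb, rfl⟩ := B.gen f hf hv
  obtain ⟨c, hc, h2⟩ := B.ideal_add hγ hδ ha' (b := -(a * (u⁻¹ * b)))
    (B.R.neg_mem (B.R.mul_mem ha (B.R.mul_mem hu.inv.1 hb)))
  refine ⟨min γ δ, ?_, lt_min h0 hδ0, c, hc, u⁻¹ * b, B.R.mul_mem hu.inv.1 hb, ?_⟩
  · rcases min_choice γ δ with h | h <;> rw [h] <;> assumption
  · rw [← h2, h1]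
    have h3 : u * u⁻¹ = 1 := mul_inv_cancel₀ hu.2.1
    have h4 : (u * B.y + B.χ δ * a) * (u⁻¹ * b) =
        (u * u⁻¹) * (B.y * b) + B.χ δ * (a * (u⁻¹ * b)) := by ring
    rw [h4, h3]; ring

theorem BF.rep_exists (h : Ctx0 ϖ v r) (B : BF ϖ v) {f : Ω} (hf : f ∈ B.R) (h0 : f ≠ 0) :
    ∃ κ D, 0 ≤ κ ∧ B.Rep f κ D := by
  obtain ⟨S0, G, hS0, hG, -, hN⟩ := B.exists_NF h {f} (by simpa using hf)
  obtain ⟨w, hw⟩ := B.exists_basis h S0 hS0
  obtain ⟨N, hNx, hNy, -, hNR, hfN⟩ := hN w hw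
  have hfN' : f ∈ N.R := hfN f (Finset.mem_singleton_self f)
  have := N.isNoetherian
  have := N.isLocalRing
  -- units and the maximal ideal of `N.R`
  obtain ⟨F, hF⟩ := N.fgen
  have hinv : ∀ z ∈ N.R, z ≠ 0 → v z = 0 → z⁻¹ ∈ N.R := by
    intro z hz hz0 hvz
    rw [hF] at hz ⊢
    exact locv_inv hz hz0 hvz
  let x : Fin r → N.R := fun i => ⟨N.x i, N.x_mem i⟩
  let y : N.R := ⟨N.y, N.y_mem⟩
  have hvp : ∀ z : N.R, z ∈ IsLocalRing.maximalIdeal N.R ↔ VPos v (z : Ω) := by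
    intro z
    rw [IsLocalRing.mem_maximalIdeal, mem_nonunits_iff]
    constructor
    · intro hz hz0
      rcases (N.nonneg z z.2 hz0).lt_or_eq with h1 | h1
      · exact h1
      · exfalso
        apply hz
        have h2 := hinv z z.2 hz0 h1.symm
        refine IsUnit.of_mul_eq_one ⟨(z : Ω)⁻¹, h2⟩ ?_
        apply Subtype.ext
        exact mul_inv_cancel₀ hz0
    · intro hz hu
      obtain ⟨t, ht⟩ := hu.exists_right_inv
      have ht' : (z : Ω) * (t : Ω) = 1 := congrArg Subtype.val ht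
      have hz0 : (z : Ω) ≠ 0 := left_ne_zero_of_mul (by rw [ht']; exact one_ne_zero)
      have ht0 : (t : Ω) ≠ 0 := right_ne_zero_of_mul (by rw [ht']; exact one_ne_zero)
      have h1 := v.map_mul hz0 ht0
      rw [ht', v.map_one] at h1
      have h2 := hz hz0
      have h3 := N.nonneg t t.2 ht0
      linarith
  have hm : IsLocalRing.maximalIdeal N.R = Ideal.span (Set.range x) ⊔ Ideal.span {y} := by
    apply le_antisymm
    · intro z hz
      obtain ⟨a, ha, b, hb, h1⟩ := N.gen z z.2 ((hvp z).1 hz)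
      have h2 : z = ∑ i, x i * ⟨a i, ha i⟩ + y * ⟨b, hb⟩ := by
        apply Subtype.ext
        rw [h1]
        push_cast
        rfl
      rw [h2]
      refine Ideal.add_mem _ (Ideal.sum_mem _ fun i _ => ?_) ?_
      · exact Ideal.mul_mem_right _ _ (Ideal.mem_sup_left (Ideal.subset_span ⟨i, rfl⟩))
      · exact Ideal.mul_mem_right _ _ (Ideal.mem_sup_right (Ideal.mem_span_singleton_self y))
    · rw [sup_le_iff, Ideal.span_le, Ideal.span_le]
      constructor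
      · rintro _ ⟨i, rfl⟩
        exact (hvp _).2 fun _ => N.x_pos i
      · rintro _ rfl
        exact (hvp _).2 fun _ => N.y_pos
  have hf0 : (⟨f, hfN'⟩ : N.R) ≠ 0 := fun h1 => h0 (congrArg Subtype.val h1)
  obtain ⟨a, D, g, hg, hA⟩ := leading x y hm w hw.pos hw.ind ⟨f, hfN'⟩ hf0
  set κ := ∑ i, (a i : ℝ) * w i with hκdef
  have hκ : κ ∈ B.Γ := (χ_sum B w hw.mem a Finset.univ).1
  have hχ : ∀ b : Fin r → ℕ, ((∏ i, x i ^ b i : N.R) : Ω) = B.χ (∑ i, (b i : ℝ) * w i) := by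
    intro b
    rw [(χ_sum B w hw.mem b Finset.univ).2]
    push_cast
    exact Finset.prod_congr rfl fun i _ => by rw [show ((x i : N.R) : Ω) = N.x i from rfl, hNx i]
  refine ⟨κ, D, Finset.sum_nonneg fun i _ => mul_nonneg (Nat.cast_nonneg _) (hw.pos i).le, ?_⟩
  have hgu : B.Un (g : Ω) := by
    have h1 : ¬ VPos v (g : Ω) := by
      rw [← hvp, IsLocalRing.mem_maximalIdeal, mem_nonunits_iff, not_not]
      exact hg
    unfold VPos at h1
    push Not at h1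
    obtain ⟨h2, h3⟩ := h1
    exact ⟨hNR g.2, h2, le_antisymm h3 (N.nonneg g g.2 h2)⟩
  refine (rep_iff hκ).2 ⟨g, hgu, ?_⟩
  have hall : ∀ z ∈ Agt x w κ, Hi B κ (z : Ω) := by
    intro z hz
    induction hz using Submodule.span_induction with
    | mem z hz =>
      obtain ⟨b, hb, rfl⟩ := hz
      rw [hχ b]
      exact ⟨_, (χ_sum B w hw.mem b Finset.univ).1, hb, 1, B.R.one_mem, by rw [mul_one]⟩
    | zero => exact Hi.zero B hκ
    | add z t _ _ hz ht =>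
      rw [AddMemClass.coe_add]; exact hz.add ht
    | smul c z _ hz =>
      rw [smul_eq_mul, MulMemClass.coe_mul]; exact hz.mul (hNR c.2)
  have h1 := hall _ hA
  have h2 : ((⟨f, hfN'⟩ - (∏ i, x i ^ a i) * (g * y ^ D) : N.R) : Ω) =
      f - B.χ κ * ((g : Ω) * B.y ^ D) := by
    rw [AddSubgroupClass.coe_sub, MulMemClass.coe_mul, hχ a, MulMemClass.coe_mul,
      SubmonoidClass.coe_pow, ← hNy]
  rwa [h2] at h1

end Pool.Agent.LUM
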