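import Pool.Agent.Lib.LUM.WDefs

/-! # T01: extension of automorphisms preserving the valuation

`conj_finite`: two real valuations `w, w'` of `M` which agree on the subfield `F` are conjugate under
`Gal(M/F)`, `M/F` finite Galois.  Proof: otherwise, for the finite sets of valuations `{w ∘ t}` and
`{w' ∘ t}`, `t ∈ Gal(M/F)`, all `w ∘ t` are different from all `w' ∘ t'`; valuations of `M` algebraic
over `F` with the same restriction to `F` are incomparable unless equal (the value group of `F` has
finite index: if the valuation ring of `w` is contained in that of `w'` then they are equal), so weak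
approximation (`LU1.GalThetaAux.exists_sep` in `LU1_h15`, see how `exists_theta` is proved in
`LU1_h15/GalTheta.lean`) gives `α ∈ M` with `w (t α) > 0` for all `t` and `w' (t α - 1) > 0` for all
`t`; `a = ∏ t α ∈ F` has `w a > 0` and `w' a = 0`: contradiction.
`exists_lift_aut`: `Ω/K` is algebraic, algebraically closed of characteristic 0, so Galois.  For
`N ≤ M`, `M/K` finite Galois, `X_M := {τ : Ω ≃ₐ[K] Ω | τ = s on N, v (τ x) = v x for x ∈ M}` is closed in the Krull
topology (it is a union of cosets of the open subgroup `M.fixingSubgroup`), directed decreasing in `M`,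
nonempty by `conj_finite` (for the field `M` over `N`, valuations `v ∘ s₁` and `v`, `s₁` any extension
of `s`; then extend to `Ω`); `Ω ≃ₐ[K] Ω` is compact (`krullTopology`, `CompactSpace` instance for Galois
extensions): `IsCompact.nonempty_iInter_of_directed_nonempty_isCompact_isClosed`. -/

set_option autoImplicit false
set_option linter.unusedSectionVars false
set_option linter.unusedVariables false

open Polynomial

namespace Pool.Agent.LUM

open Pool.Agent.H15JM (RVal)
open Pool.Agent.LU1 (VPos LatData val_add_vpos adj)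

universe u

namespace T01Aux

/-- The valuation transported by an automorphism. -/
private def cv {M : Type u} [Field M] (w : RVal M) (t : M ≃+* M) : RVal M where
  toFun x := w (t x)
  map_mul' := by
    intro x y hx hy
    rw [map_mul, w.map_mul (by simpa using hx) (by simpa using hy)]
  map_add' := by
    intro x y hx hy hxy
    rw [map_add]
    refine w.map_add (by simpa using hx) (by simpa using hy) ?_
    rw [← map_add]
    exact (map_ne_zero_iff t t.injective).2 hxy

open Classical in
/-- The absolute value `exp (- w)`. -/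
private noncomputable def ab {M : Type u} [Field M] (w : RVal M) : AbsoluteValue M ℝ :=
  { toFun := fun n => if n = 0 then 0 else Real.exp (-(w n))
    map_mul' := by
      intro a b
      by_cases ha : a = 0
      · simp [ha]
      by_cases hb : b = 0
      · simp [hb]
      rw [if_neg (mul_ne_zero ha hb), if_neg ha, if_neg hb, ← Real.exp_add, w.map_mul ha hb]
      congr 1
      ring
    nonneg' := by
      intro a
      split_ifs
      · exact le_rfl
      · exact (Real.exp_pos _).le
    eq_zero' := by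
      intro a
      split_ifs with h
      · simp [h]
      · simp [h, Real.exp_ne_zero]
    add_le' := by
      intro a b
      by_cases ha : a = 0
      · simp [ha]
      by_cases hb : b = 0
      · simp [hb]
      by_cases hab : a + b = 0
      · rw [if_pos hab, if_neg ha, if_neg hb]
        positivity
      rw [if_neg hab, if_neg ha, if_neg hb]
      rcases min_le_iff.1 (w.map_add ha hb hab) with h2 | h2
      · exact (Real.exp_le_exp.2 (neg_le_neg h2)).trans
          (le_add_of_nonneg_right (Real.exp_pos _).le)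
      · exact (Real.exp_le_exp.2 (neg_le_neg h2)).trans
          (le_add_of_nonneg_left (Real.exp_pos _).le) }

private theorem ab_of_ne {M : Type u} [Field M] (w : RVal M) {n : M} (hn : n ≠ 0) :
    ab w n = Real.exp (-(w n)) := if_neg hn

private theorem ab_eq {M : Type u} [Field M] {w w' : RVal M} (h : ab w = ab w') {n : M}
    (hn : n ≠ 0) : w n = w' n := by
  have h1 : ab w n = ab w' n := by rw [h]
  rw [ab_of_ne w hn, ab_of_ne w' hn] at h1
  have := Real.exp_injective h1
  linarith

/-- An element integral over a subfield contained in the valuation ring is in the valuation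
ring. -/
private theorem nonneg_of_int {F M : Type u} [Field F] [Field M] [Algebra F M]
    [Algebra.IsAlgebraic F M] (w : RVal M) (hw : ∀ x : F, x ≠ 0 → 0 ≤ w (algebraMap F M x))
    (x : M) (hx : x ≠ 0) : 0 ≤ w x := by
  by_contra hneg
  push Not at hneg
  have hint : IsIntegral F x := Algebra.IsIntegral.isIntegral x
  have hmon := minpoly.monic hint
  have h0 := minpoly.aeval F x
  have hdeg : 0 < (minpoly F x).natDegree := minpoly.natDegree_pos hint
  set P := minpoly F x with hP
  rw [aeval_eq_sum_range, Finset.sum_range_succ, hmon.coeff_natDegree, one_smul] at h0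
  have hS : w.Ge (((P.natDegree : ℝ) - 1) * w x)
      (∑ i ∈ Finset.range P.natDegree, P.coeff i • x ^ i) := by
    apply RVal.Ge.sum
    intro i hi
    have hi' : i + 1 ≤ P.natDegree := Finset.mem_range.1 hi
    by_cases hc : P.coeff i = 0
    · rw [hc, zero_smul]; exact RVal.Ge.zero
    intro _
    have hc' : algebraMap F M (P.coeff i) ≠ 0 := by simpa using hc
    rw [Algebra.smul_def, w.map_mul hc' (pow_ne_zero _ hx), w.map_pow hx]
    have h1 := hw _ hc
    have h2 : (i : ℝ) ≤ (P.natDegree : ℝ) - 1 := by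
      have : ((i + 1 : ℕ) : ℝ) ≤ (P.natDegree : ℝ) := by exact_mod_cast hi'
      push_cast at this
      linarith
    nlinarith
  have h3 : x ^ P.natDegree = -(∑ i ∈ Finset.range P.natDegree, P.coeff i • x ^ i) := by
    linear_combination h0
  have h4 := hS.neg
  rw [← h3] at h4
  have h5 := h4 (pow_ne_zero _ hx)
  rw [w.map_pow hx] at h5
  nlinarith

private theorem triv_of_int {F M : Type u} [Field F] [Field M] [Algebra F M]
    [Algebra.IsAlgebraic F M] (w : RVal M) (hw : ∀ x : F, x ≠ 0 → w (algebraMap F M x) = 0)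
    (x : M) (hx : x ≠ 0) : w x = 0 := by
  apply le_antisymm
  · have h1 := nonneg_of_int w (fun y hy => (hw y hy).ge) x⁻¹ (inv_ne_zero hx)
    rw [w.map_inv hx] at h1
    linarith
  · exact nonneg_of_int w (fun y hy => (hw y hy).ge) x hx

private theorem ab_eq_of_isEquiv {F M : Type u} [Field F] [Field M] [Algebra F M]
    (w w' : RVal M) (f : F) (hf : f ≠ 0) (hf0 : w (algebraMap F M f) ≠ 0)
    (hw : w (algebraMap F M f) = w' (algebraMap F M f)) (h : (ab w).IsEquiv (ab w')) :
    ab w = ab w' := by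
  obtain ⟨c, hc, h1⟩ := AbsoluteValue.isEquiv_iff_exists_rpow_eq.1 h
  have h2 : ∀ n : M, n ≠ 0 → w' n = c * w n := by
    intro n hn
    have h3 := congrFun h1 n
    simp only [ab_of_ne _ hn] at h3
    rw [← Real.exp_mul] at h3
    have h4 := Real.exp_injective h3
    linarith
  have hf' : algebraMap F M f ≠ 0 := by simpa using hf
  have h3 : c = 1 := by
    have h4 := h2 _ hf'
    rw [← hw] at h4
    have h5 : (c - 1) * w (algebraMap F M f) = 0 := by linarith
    rcases mul_eq_zero.1 h5 with h6 | h6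
    · linarith
    · exact absurd h6 hf0
  ext n
  by_cases hn : n = 0
  · rw [hn, AbsoluteValue.map_zero, AbsoluteValue.map_zero]
  · rw [ab_of_ne _ hn, ab_of_ne _ hn, h2 n hn, h3, one_mul]

end T01Aux

open T01Aux

theorem conj_finite {F M : Type u} [Field F] [Field M] [Algebra F M] [FiniteDimensional F M]
    [IsGalois F M] (w w' : RVal M) (hw : ∀ x : F, x ≠ 0 → w (algebraMap F M x) = w' (algebraMap F M x)) :
    ∃ t : M ≃ₐ[F] M, ∀ x : M, x ≠ 0 → w' x = w (t x) := by
  classical
  by_cases htr : ∀ x : F, x ≠ 0 → w (algebraMap F M x) = 0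
  · refine ⟨1, fun x hx => ?_⟩
    rw [AlgEquiv.one_apply, triv_of_int w htr x hx,
      triv_of_int w' (fun y hy => (hw y hy).symm.trans (htr y hy)) x hx]
  push Not at htr
  obtain ⟨f, hf, hf0⟩ := htr
  by_contra hcon
  push Not at hcon
  have hfin : Finite (M ≃ₐ[F] M) := inferInstance
  let W : Bool × (M ≃ₐ[F] M) → RVal M := fun p => cv (if p.1 then w' else w) p.2.toRingEquiv
  have hWf : ∀ p, W p (algebraMap F M f) = w (algebraMap F M f) := by
    rintro ⟨b, t⟩
    show (if b then w' else w) (t (algebraMap F M f)) = _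
    rw [AlgEquiv.commutes]
    cases b
    · rfl
    · exact (hw f hf).symm
  have hf' : algebraMap F M f ≠ 0 := by simpa using hf
  let ι := Set.range fun p => ab (W p)
  have hι : Finite ι := Set.finite_range _
  have hnt : ∀ i : ι, (i : AbsoluteValue M ℝ).IsNontrivial := by
    rintro ⟨_, p, rfl⟩
    refine ⟨algebraMap F M f, hf', ?_⟩
    show ab (W p) _ ≠ 1
    rw [ab_of_ne _ hf', hWf]
    intro h1
    rw [Real.exp_eq_one_iff] at h1
    exact hf0 (by linarith)
  have hpw : Pairwise fun i j : ι =>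
      ¬ (i : AbsoluteValue M ℝ).IsEquiv (j : AbsoluteValue M ℝ) := by
    rintro ⟨_, p, rfl⟩ ⟨_, q, rfl⟩ hne heq
    apply hne
    apply Subtype.ext
    show ab (W p) = ab (W q)
    exact ab_eq_of_isEquiv (W p) (W q) f hf (by rw [hWf]; exact hf0) (by rw [hWf, hWf]) heq
  obtain ⟨a, ha1, ha2⟩ := AbsoluteValue.exists_one_lt_lt_one_pi_of_not_isEquiv
    (v := fun i : ι => (i : AbsoluteValue M ℝ)) hnt hpw ⟨_, (true, 1), rfl⟩
  have ha1' : 1 < ab (W (true, 1)) a := ha1
  have ha0 : a ≠ 0 := by
    rintro rfl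
    rw [AbsoluteValue.map_zero] at ha1'
    linarith
  have hta : ∀ t : M ≃ₐ[F] M, t a ≠ 0 := fun t => by simpa using ha0
  rw [ab_of_ne _ ha0, Real.one_lt_exp_iff] at ha1'
  have hva : w' a < 0 := by
    have h1 : W (true, 1) a = w' a := rfl
    rw [h1] at ha1'
    linarith
  have hA : ∀ p, ab (W p) ≠ ab (W (true, 1)) → 0 < W p a := by
    intro p hp
    have h1 : (⟨ab (W p), p, rfl⟩ : ι) ≠ ⟨ab (W (true, 1)), (true, 1), rfl⟩ := by
      intro h
      exact hp (congrArg Subtype.val h)
    have h2 : ab (W p) a < 1 := ha2 _ h1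
    rw [ab_of_ne _ ha0, Real.exp_lt_one_iff] at h2
    linarith
  -- `w (t a) > 0` for all `t`
  have hw1 : ∀ t : M ≃ₐ[F] M, 0 < w (t a) := by
    intro t
    refine hA (false, t) ?_
    intro h
    obtain ⟨x, hx, hne⟩ := hcon t
    exact hne (ab_eq h hx).symm
  -- `w' (t a) > 0` or `= w' a`
  have hw2 : ∀ t : M ≃ₐ[F] M, 0 < w' (t a) ∨ w' (t a) = w' a := by
    intro t
    by_cases h : ab (W (true, t)) = ab (W (true, 1))
    · right; exact ab_eq h ha0
    · left; exact hA (true, t) h
  have h1w : ∀ t : M ≃ₐ[F] M, t (1 + a) ≠ 0 ∧ w (t (1 + a)) = 0 := by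
    intro t
    have h1 := w.add_of_lt (one_ne_zero (α := M)) (hta t) (by rw [w.map_one]; exact hw1 t)
    rw [w.map_one] at h1
    rw [_root_.map_add, _root_.map_one]
    exact h1
  have h2w : ∀ t : M ≃ₐ[F] M, w' (t (1 + a)) ≤ 0 := by
    intro t
    rw [_root_.map_add, _root_.map_one]
    rcases hw2 t with h | h
    · have h1 := w'.add_of_lt (one_ne_zero (α := M)) (hta t) (by rw [w'.map_one]; exact h)
      rw [h1.2, w'.map_one]
    · have h1 := w'.add_of_lt (hta t) (one_ne_zero (α := M)) (by rw [w'.map_one, h]; exact hva)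
      rw [add_comm, h1.2, h]
      exact hva.le
  have h3w : w' (1 + a) < 0 := by
    have h1 := w'.add_of_lt ha0 (one_ne_zero (α := M)) (by rw [w'.map_one]; exact hva)
    rw [add_comm, h1.2]
    exact hva
  have hnorm := Algebra.norm_eq_prod_automorphisms F (1 + a)
  have hN0 : Algebra.norm F (1 + a) ≠ 0 := by
    rw [Algebra.norm_ne_zero_iff]
    simpa using (h1w 1).1
  have hN1 : w (algebraMap F M (Algebra.norm F (1 + a))) = 0 := by
    rw [hnorm, w.map_prod _ _ fun t _ => (h1w t).1]
    exact Finset.sum_eq_zero fun t _ => (h1w t).2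
  have hN2 : w' (algebraMap F M (Algebra.norm F (1 + a))) < 0 := by
    rw [hnorm, w'.map_prod _ _ fun t _ => (h1w t).1]
    refine lt_of_le_of_lt (b := w' ((1 : M ≃ₐ[F] M) (1 + a))) ?_ (by simpa using h3w)
    have h4 := Finset.add_sum_erase Finset.univ (fun t : M ≃ₐ[F] M => w' (t (1 + a)))
      (Finset.mem_univ 1)
    rw [← h4]
    have h5 : ∑ t ∈ Finset.univ.erase (1 : M ≃ₐ[F] M), w' (t (1 + a)) ≤ 0 :=
      Finset.sum_nonpos fun t _ => h2w t
    linarith
  rw [← hw _ hN0, hN1] at hN2
  exact lt_irrefl _ hN2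

variable {Λ Q Ω : Type u} [CommRing Λ] [IsDomain Λ] [IsDiscreteValuationRing Λ] [Field Q]
  [Algebra Λ Q] [IsFractionRing Λ Q] [Field Ω] [Algebra Λ Ω] [Algebra Q Ω] [IsScalarTower Λ Q Ω]
  {ϖ : Λ} {v : RVal Ω} {r : ℕ}

/-- Restriction of a valuation to a subfield. -/
private def T01Aux.rv {K : IntermediateField Q Ω} (v : RVal Ω) (M : IntermediateField K Ω) : RVal M where
  toFun x := v (x : Ω)
  map_mul' := by
    intro x y hx hy
    rw [MulMemClass.coe_mul, v.map_mul (by simpa using hx) (by simpa using hy)]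
  map_add' := by
    intro x y hx hy hxy
    rw [AddMemClass.coe_add]
    refine v.map_add (by simpa using hx) (by simpa using hy) ?_
    intro h
    exact hxy (Subtype.ext h)

/-- The finite step: extension to a finite set of elements. -/
private theorem T01Aux.fin_step [CharZero Q] (K : IntermediateField Q Ω) [IsGalois K Ω]
    (N : IntermediateField K Ω) [FiniteDimensional K N]
    [IsGalois K N] (s : N ≃ₐ[K] N) (hs : ∀ x : N, x ≠ 0 → v (s x : Ω) = v (x : Ω))
    (S : Finset Ω) :
    ∃ τ : Ω ≃ₐ[K] Ω, (∀ x : N, τ (x : Ω) = (s x : Ω)) ∧ ∀ x ∈ S, x ≠ 0 → v (τ x) = v x := by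
  let M₀ : IntermediateField K Ω := N ⊔ IntermediateField.adjoin K (S : Set Ω)
  have hfd : FiniteDimensional K (IntermediateField.adjoin K (S : Set Ω)) :=
    IntermediateField.finiteDimensional_adjoin fun x _ => Algebra.IsIntegral.isIntegral x
  let M : IntermediateField K Ω := IntermediateField.normalClosure K M₀ Ω
  have hfdM : FiniteDimensional K M := inferInstance
  have hnorm : Normal K M := inferInstance
  have hM0 : M₀ ≤ M := IntermediateField.le_normalClosure M₀
  have hNM : N ≤ M := le_sup_left.trans hM0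
  have hSM : ∀ x ∈ S, x ∈ M := fun x hx =>
    hM0 ((le_sup_right : _ ≤ M₀) (IntermediateField.subset_adjoin K _ hx))
  have hgal : IsGalois K M := inferInstance
  let _ : Algebra N M := (IntermediateField.inclusion hNM).toRingHom.toAlgebra
  let _ : Module N M := Algebra.toModule
  have : IsScalarTower K N M := IsScalarTower.of_algebraMap_eq fun x => rfl
  have : FiniteDimensional N M := FiniteDimensional.right K N M
  have : IsGalois N M := IsGalois.tower_top_of_isGalois K N M
  let s₁ : Ω ≃ₐ[K] Ω := s.liftNormal Ω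
  have hs₁ : ∀ x : N, s₁ (x : Ω) = (s x : Ω) := fun x => s.liftNormal_commutes Ω x
  let s₂ : M ≃ₐ[K] M := s₁.restrictNormal M
  have hs₂ : ∀ x : M, ((s₂ x : M) : Ω) = s₁ (x : Ω) := fun x => s₁.restrictNormal_commutes M x
  obtain ⟨t, ht⟩ := conj_finite (F := N) (M := M) (T01Aux.rv v M)
    (T01Aux.cv (T01Aux.rv v M) s₂.toRingEquiv) (by
      intro x hx
      show v (x : Ω) = v ((s₂ (algebraMap N M x) : M) : Ω)
      rw [hs₂]
      have h1 : ((algebraMap N M x : M) : Ω) = (x : Ω) := rfl
      rw [h1, hs₁, hs x hx])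
  let t' : M ≃ₐ[K] M := t.restrictScalars K
  let τ₀ : M ≃ₐ[K] M := t'.symm.trans s₂
  let τ : Ω ≃ₐ[K] Ω := τ₀.liftNormal Ω
  have hτ : ∀ x : M, τ (x : Ω) = ((s₂ (t.symm x) : M) : Ω) := fun x => τ₀.liftNormal_commutes Ω x
  refine ⟨τ, fun x => ?_, fun x hx hx0 => ?_⟩
  · have h1 : (x : Ω) = ((algebraMap N M x : M) : Ω) := rfl
    rw [h1, hτ, t.symm.commutes, hs₂, ← h1, hs₁]
  · have h1 := hτ ⟨x, hSM x hx⟩
    have hx1 : (⟨x, hSM x hx⟩ : M) ≠ 0 := fun h => hx0 (congrArg Subtype.val h)
    have h2 := ht (t.symm ⟨x, hSM x hx⟩) (by simpa using hx1)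
    rw [AlgEquiv.apply_symm_apply] at h2
    rw [h1]
    exact h2

theorem exists_lift_aut [IsAlgClosed Ω] [CharZero Q] (K : IntermediateField Q Ω)
    (hK : ∀ g : Ω, IsAlgebraic K g) (N : IntermediateField K Ω) [FiniteDimensional K N]
    [IsGalois K N] (s : N ≃ₐ[K] N) (hs : ∀ x : N, x ≠ 0 → v (s x : Ω) = v (x : Ω)) :
    ∃ τ ∈ DD v K, ∀ x : N, τ (x : Ω) = (s x : Ω) := by
  classical
  have : CharZero K := charZero_of_injective_algebraMap (algebraMap Q K).injective
  have : Algebra.IsAlgebraic K Ω := ⟨hK⟩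
  have : IsAlgClosure K Ω := ⟨inferInstance, inferInstance⟩
  have : Normal K Ω := normal_iff.2 fun x =>
    ⟨(hK x).isIntegral, IsAlgClosed.splits _⟩
  have : IsGalois K Ω := { }
  let X : Ω → Set (Ω ≃ₐ[K] Ω) := fun x =>
    {τ | (∀ hx : x ∈ N, τ x = (s ⟨x, hx⟩ : Ω)) ∧ (x ≠ 0 → v (τ x) = v x)}
  have hopen : ∀ (x : Ω) (P : Ω → Prop), IsOpen {τ : Ω ≃ₐ[K] Ω | P (τ x)} := by
    intro x P
    rw [isOpen_iff_mem_nhds]
    intro τ hτ
    have h1 : IsOpen (MulAction.stabilizer (Ω ≃ₐ[K] Ω) x : Set (Ω ≃ₐ[K] Ω)) :=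
      stabilizer_isOpen_of_isIntegral x
    have h2 : IsOpen ((fun g => τ * g) ''
        (MulAction.stabilizer (Ω ≃ₐ[K] Ω) x : Set (Ω ≃ₐ[K] Ω))) := isOpenMap_mul_left τ _ h1
    refine Filter.mem_of_superset (h2.mem_nhds ⟨1, one_mem _, mul_one τ⟩) ?_
    rintro _ ⟨g, hg, rfl⟩
    have h3 : g x = x := hg
    show P ((τ * g) x)
    rw [AlgEquiv.mul_apply, h3]
    exact hτ
  have hclosed : ∀ x, IsClosed (X x) := by
    intro x
    have h1 : X x = {τ : Ω ≃ₐ[K] Ω |
        (fun y => (∀ hx : x ∈ N, y = (s ⟨x, hx⟩ : Ω)) ∧ (x ≠ 0 → v y = v x)) (τ x)} := rfl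
    rw [h1, ← isOpen_compl_iff]
    exact hopen x fun y => ¬ ((∀ hx : x ∈ N, y = (s ⟨x, hx⟩ : Ω)) ∧ (x ≠ 0 → v y = v x))
  obtain ⟨τ, hτ⟩ := CompactSpace.iInter_nonempty hclosed fun S => by
    obtain ⟨τ, h1, h2⟩ := T01Aux.fin_step (v := v) K N s hs S
    refine ⟨τ, ?_⟩
    rw [Set.mem_iInter₂]
    intro x hx
    exact ⟨fun hxN => h1 ⟨x, hxN⟩, h2 x hx⟩
  rw [Set.mem_iInter] at hτ
  exact ⟨τ, fun x hx => (hτ x).2 hx, fun x => (hτ x).1 x.2⟩

end Pool.Agent.LUM
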