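import Pool.Agent.Lib.LUM.A01
import Pool.Agent.Lib.LUM.Cmp

/-! # T02: the image of a frame under an automorphism preserving `v` and the closed base

Recipe: all fields of the structure `BF` are transported: `Γ`, `χ' γ = τ (χ γ)`, `y' = τ y`,
`R' = {x | τ⁻¹ x ∈ R}` (contains `Λ'` because `τ⁻¹` maps `henU` to itself: `henU_map`, `Clo.rng`);
`fgen`: `τ` maps `locv Λ'[F, χ(≥0)]` onto `locv Λ'[τ F, τ χ(≥0)]` (the image of a `Λ'`-subalgebra
generated by `X` is generated by `τ X`, `τ` semilinear: `Algebra.adjoin_induction` in both directions);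
`alg`: the coefficients of the polynomial are transported; `res`: `τ c ∈ henU`; `pi_un`: `τ ϖ = ϖ`.
`hull_stable`: `τ` fixes `K` and maps `henU` into itself. -/

set_option autoImplicit false
set_option linter.unusedSectionVars false
set_option linter.unusedVariables false

open Polynomial

namespace Pool.Agent.LUM

open Pool.Agent.H15JM (RVal)
open Pool.Agent.LU1 (VPos LatData val_add_vpos adj GoodBasis)

universe u

variable {Λ Λ' Q Ω : Type u} [CommRing Λ] [IsDomain Λ] [IsDiscreteValuationRing Λ]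
  [CommRing Λ'] [IsDomain Λ'] [IsDiscreteValuationRing Λ'] [Algebra Λ Λ'] [Field Q]
  [Algebra Λ Q] [IsFractionRing Λ Q] [Field Ω] [Algebra Λ Ω] [Algebra Λ' Ω]
  [IsScalarTower Λ Λ' Ω] [Algebra Q Ω] [IsScalarTower Λ Q Ω]
  {ϖ : Λ} {ϖ' : Λ'} {v : RVal Ω} {r : ℕ}

/-! ### auxiliary lemmas -/

/-- an automorphism over `K` as an automorphism over `Λ` -/
private def lam2 {K : IntermediateField Q Ω} (τ : Ω ≃ₐ[K] Ω) : Ω ≃ₐ[Λ] Ω :=
  { (τ : Ω ≃+* Ω) with
    commutes' := fun c => by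
      have h1 := τ.commutes (algebraMap Q K (algebraMap Λ Q c))
      rw [← IsScalarTower.algebraMap_apply Q K Ω, ← IsScalarTower.algebraMap_apply Λ Q Ω] at h1
      exact h1 }

private theorem henU2 {K : IntermediateField Q Ω} {τ : Ω ≃ₐ[K] Ω} (hτ : τ ∈ DD v K) {x : Ω}
    (hx : x ∈ henU Λ v) : τ x ∈ henU Λ v :=
  henU_map (lam2 (Λ := Λ) τ) hτ hx

private theorem base2 (h : Clo ϖ ϖ' v r) {K : IntermediateField Q Ω} {τ : Ω ≃ₐ[K] Ω}
    (hτ : τ ∈ DD v K) (c : Λ') : ∃ c' : Λ', τ (algebraMap Λ' Ω c) = algebraMap Λ' Ω c' := by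
  obtain ⟨c', hc'⟩ := (h.rng _).1 (henU2 hτ ((h.rng _).2 ⟨c, rfl⟩))
  exact ⟨c', hc'.symm⟩

private theorem adjoin2 (h : Clo ϖ ϖ' v r) {K : IntermediateField Q Ω} {τ : Ω ≃ₐ[K] Ω}
    (hτ : τ ∈ DD v K) (X : Set Ω) {x : Ω} (hx : x ∈ Algebra.adjoin Λ' X) :
    τ x ∈ Algebra.adjoin Λ' (τ '' X) := by
  refine Algebra.adjoin_induction (p := fun x _ => τ x ∈ Algebra.adjoin Λ' (τ '' X))
    (fun x hx => Algebra.subset_adjoin ⟨x, hx, rfl⟩) ?_
    (fun x y _ _ hx hy => by rw [map_add]; exact add_mem hx hy)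
    (fun x y _ _ hx hy => by rw [map_mul]; exact mul_mem hx hy) hx
  intro c
  obtain ⟨c', hc'⟩ := base2 h hτ c
  show τ (algebraMap Λ' Ω c) ∈ _
  rw [hc']
  exact Subalgebra.algebraMap_mem _ c'

private theorem locv2 (h : Clo ϖ ϖ' v r) {K : IntermediateField Q Ω} {τ : Ω ≃ₐ[K] Ω}
    (hτ : τ ∈ DD v K) (X : Set Ω) {x : Ω} (hx : x ∈ locv v (Algebra.adjoin Λ' X)) :
    τ x ∈ locv v (Algebra.adjoin Λ' (τ '' X)) := by
  obtain ⟨a, ha, b, hb, hb0, hvb, rfl⟩ := hx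
  exact ⟨τ a, adjoin2 h hτ X ha, τ b, adjoin2 h hτ X hb,
    fun h0 => hb0 ((map_eq_zero_iff τ τ.injective).1 h0), by rw [hτ b hb0, hvb], map_div₀ τ a b⟩

private theorem symm_mem2 {K : IntermediateField Q Ω} {τ : Ω ≃ₐ[K] Ω}
    (hτ : τ ∈ DD v K) : τ.symm ∈ DD v K := (DD v K).inv_mem hτ

/-- the image of the ring -/
private def R2img (h : Clo ϖ ϖ' v r) {K : IntermediateField Q Ω} {τ : Ω ≃ₐ[K] Ω} (hτ : τ ∈ DD v K)
    (R : Subalgebra Λ' Ω) : Subalgebra Λ' Ω where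
  carrier := {x | τ.symm x ∈ R}
  mul_mem' := by
    intro x y hx hy
    show τ.symm (x * y) ∈ R
    rw [map_mul]
    exact R.mul_mem hx hy
  add_mem' := by
    intro x y hx hy
    show τ.symm (x + y) ∈ R
    rw [map_add]
    exact R.add_mem hx hy
  algebraMap_mem' := by
    intro c
    obtain ⟨c', hc'⟩ := base2 h (symm_mem2 hτ) c
    show τ.symm _ ∈ R
    rw [hc']
    exact R.algebraMap_mem c'

theorem exists_img (h : Clo ϖ ϖ' v r) (K : IntermediateField Q Ω) (τ : Ω ≃ₐ[K] Ω)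
    (hτ : τ ∈ DD v K) (B : BF ϖ' v) :
    ∃ B' : BF ϖ' v, B'.Γ = B.Γ ∧ (∀ γ, B'.χ γ = τ (B.χ γ)) ∧ B'.y = τ B.y ∧
      ∀ x, x ∈ B'.R ↔ τ.symm x ∈ B.R := by
  classical
  have hs := symm_mem2 hτ
  have hmem : ∀ x, x ∈ R2img h hτ B.R ↔ τ.symm x ∈ B.R := fun x => Iff.rfl
  have hmem' : ∀ x ∈ B.R, τ x ∈ R2img h hτ B.R := by
    intro x hx
    rw [hmem, AlgEquiv.symm_apply_apply]
    exact hx
  have hne : ∀ {x : Ω}, x ≠ 0 → τ x ≠ 0 := fun hx h0 => hx ((map_eq_zero_iff τ τ.injective).1 h0)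
  have hne' : ∀ {x : Ω}, x ≠ 0 → τ.symm x ≠ 0 := fun hx h0 =>
    hx ((map_eq_zero_iff τ.symm τ.symm.injective).1 h0)
  have hvs : ∀ {x : Ω}, x ≠ 0 → v (τ.symm x) = v x := fun hx => hs _ hx
  have hpi : τ.symm (algebraMap Λ' Ω ϖ') = algebraMap Λ' Ω ϖ' := by
    rw [h.pi]
    exact (lam2 (Λ := Λ) τ).symm.commutes ϖ
  refine ⟨{
    Γ := B.Γ
    fg := B.fg
    full := B.full
    χ := fun γ => τ (B.χ γ)
    χ_ne := fun γ hγ => hne (B.χ_ne γ hγ)
    χ_add := fun γ hγ δ hδ => by rw [B.χ_add γ hγ δ hδ, map_mul]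
    χ_val := fun γ hγ => by rw [hτ _ (B.χ_ne γ hγ), B.χ_val γ hγ]
    y := τ B.y
    y_ne := hne B.y_ne
    y_pos := by rw [hτ _ B.y_ne]; exact B.y_pos
    R := R2img h hτ B.R
    nonneg := fun f hf h0 => by
      have h1 := B.nonneg _ ((hmem f).1 hf) (hne' h0)
      rwa [hvs h0] at h1
    loc := fun f hf h0 h1 => by
      rw [hmem, map_inv₀]
      exact B.loc _ ((hmem f).1 hf) (hne' h0) (by rw [hvs h0, h1])
    χ_mem := fun γ hγ h0 => hmem' _ (B.χ_mem γ hγ h0)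
    y_mem := hmem' _ B.y_mem
    fgen := ?_
    gen := ?_
    alg := ?_
    res := ?_
    pi_mem := B.pi_mem
    pi_un := ?_
    reg := ?_ }, rfl, fun γ => rfl, rfl, fun x => Iff.rfl⟩
  · obtain ⟨F, hF⟩ := B.fgen
    refine ⟨F.image τ, ?_⟩
    have e : ((F.image τ : Finset Ω) : Set Ω) ∪ (fun γ => τ (B.χ γ)) '' {γ | γ ∈ B.Γ ∧ 0 ≤ γ} =
        τ '' ((F : Set Ω) ∪ B.χ '' {γ | γ ∈ B.Γ ∧ 0 ≤ γ}) := by
      rw [Set.image_union, Finset.coe_image, Set.image_image]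
    rw [e]
    ext x
    constructor
    · intro hx
      have h1 := (hmem x).1 hx
      rw [hF] at h1
      have h2 := locv2 h hτ _ h1
      rwa [AlgEquiv.apply_symm_apply] at h2
    · intro hx
      rw [hmem, hF]
      have h2 := locv2 h hs _ hx
      have e2 : τ.symm '' (τ '' ((F : Set Ω) ∪ B.χ '' {γ | γ ∈ B.Γ ∧ 0 ≤ γ})) =
          (F : Set Ω) ∪ B.χ '' {γ | γ ∈ B.Γ ∧ 0 ≤ γ} := by
        rw [Set.image_image]
        simp
      rwa [e2] at h2
  · intro f hf hv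
    obtain ⟨γ, hγ, h0, a, ha, b, hb, h1⟩ := B.gen _ ((hmem f).1 hf) (fun h0 => by
      have hf0 : f ≠ 0 := by
        rintro rfl
        exact h0 (map_zero _)
      rw [hvs hf0]
      exact hv hf0)
    refine ⟨γ, hγ, h0, τ a, hmem' a ha, τ b, hmem' b hb, ?_⟩
    have h2 := congrArg τ h1
    rw [AlgEquiv.apply_symm_apply, map_add, map_mul, map_mul] at h2
    exact h2
  · intro g
    let e : B.R →+* R2img h hτ B.R :=
      { toFun := fun x => ⟨τ x, hmem' x x.2⟩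
        map_one' := Subtype.ext (map_one τ)
        map_mul' := fun x y => Subtype.ext (map_mul τ _ _)
        map_zero' := Subtype.ext (map_zero τ)
        map_add' := fun x y => Subtype.ext (map_add τ _ _) }
    have he : Function.Injective e := by
      intro x y hxy
      exact Subtype.ext (τ.injective (congrArg Subtype.val hxy))
    have h1 := IsAlgebraic.ringHom_of_comp_eq e (τ : Ω →+* Ω) (B.alg (τ.symm g)) he (by
      ext x
      rfl)
    have h2 : (τ : Ω →+* Ω) (τ.symm g) = g := AlgEquiv.apply_symm_apply τ g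
    rwa [h2] at h1
  · intro f hf
    obtain ⟨c, hc⟩ := B.res _ ((hmem f).1 hf)
    obtain ⟨c', hc'⟩ := base2 h hτ c
    refine ⟨c', ?_⟩
    intro h0
    have e : f - algebraMap Λ' Ω c' = τ (τ.symm f - algebraMap Λ' Ω c) := by
      rw [map_sub, AlgEquiv.apply_symm_apply, hc']
    rw [e] at h0 ⊢
    have h1 : τ.symm f - algebraMap Λ' Ω c ≠ 0 := by
      intro h2
      exact h0 (by rw [h2, map_zero])
    rw [hτ _ h1]
    exact hc h1
  · rw [hmem, map_div₀, hpi, AlgEquiv.symm_apply_apply]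
    exact B.pi_un
  · intro D γ hγ h0 a ha h1
    have h2 := congrArg τ.symm h1
    rw [map_pow, map_mul, AlgEquiv.symm_apply_apply, AlgEquiv.symm_apply_apply] at h2
    exact B.reg D γ hγ h0 _ ((hmem a).1 ha) h2

theorem DD.henU (h : Ctx0 ϖ v r) (K : IntermediateField Q Ω) (τ : Ω ≃ₐ[K] Ω) (hτ : τ ∈ DD v K) {x : Ω}
    (hx : x ∈ henU Λ v) : τ x ∈ henU Λ v := henU2 hτ hx

theorem DD.hull (h : Ctx0 ϖ v r) (K : IntermediateField Q Ω) (τ : Ω ≃ₐ[K] Ω) (hτ : τ ∈ DD v K) {x : Ω}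
    (hx : x ∈ hull Λ v K) : τ x ∈ hull Λ v K := by
  have h1 : Pool.Agent.LUM.hull Λ v K ≤ (Pool.Agent.LUM.hull Λ v K).comap (τ.toAlgHom.restrictScalars Q) := by
    refine sup_le ?_ ?_
    · intro y hy
      have e1 : τ y = y := τ.commutes (⟨y, hy⟩ : K)
      show τ y ∈ Pool.Agent.LUM.hull Λ v K
      rw [e1]
      exact le_sup_left (a := K) hy
    · rw [IntermediateField.adjoin_le_iff]
      intro c hc
      show τ c ∈ Pool.Agent.LUM.hull Λ v K
      exact le_sup_right (a := K) (IntermediateField.subset_adjoin Q _ (henU2 hτ hc))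
  exact h1 hx

/-- The orbits of the group `DD` are finite. -/
theorem DD.orbit_finite (K : IntermediateField Q Ω) (hK : ∀ g : Ω, IsAlgebraic K g) (F : Finset Ω) :
    ∃ F' : Finset Ω, F ⊆ F' ∧ ∀ τ ∈ DD v K, ∀ x ∈ F', τ x ∈ F' := by
  classical
  have hmem : ∀ x z : Ω, z ∈ ((minpoly K x).aroots Ω).toFinset ↔ aeval z (minpoly K x) = 0 := by
    intro x z
    rw [Multiset.mem_toFinset, mem_aroots]
    exact ⟨fun h => h.2, fun h => ⟨minpoly.ne_zero (hK x).isIntegral, h⟩⟩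
  refine ⟨F.biUnion (fun x => ((minpoly K x).aroots Ω).toFinset), ?_, ?_⟩
  · intro x hx
    exact Finset.mem_biUnion.2 ⟨x, hx, (hmem x x).2 (minpoly.aeval K x)⟩
  · intro τ hτ z hz
    obtain ⟨x, hx, h1⟩ := Finset.mem_biUnion.1 hz
    refine Finset.mem_biUnion.2 ⟨x, hx, (hmem x _).2 ?_⟩
    have h2 := (hmem x z).1 h1
    have h3 := Polynomial.aeval_algHom_apply τ.toAlgHom z (minpoly K x)
    rw [h2, map_zero] at h3
    exact h3

end Pool.Agent.LUM
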