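import Pool.Agent.Lib.LUM.U02
import Pool.Agent.Lib.LUM.Etale

/-! # U04: rigidity of the class `U`

Recipe: induction on the chain. Step `C' = locv C[θ]`: `τ = id` on `C` by induction (the hypothesis
for `C'` implies it for `C ≤ C'`), so `f (τ θ) = 0`. Put `t = τ θ - θ`, `VPos t`, in the valuation
ring; `0 = f (θ + t) = f θ + f' θ * t + e t ^ 2 = t (f' θ + e t)` with `v e ≥ 0` (`taylor_mem` for the
ring `O_v` of elements of value `≥ 0`, or `Polynomial.binomExpansion` over the valuation subring),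
the second factor has value 0, so `t = 0`. -/

set_option autoImplicit false
set_option linter.unusedSectionVars false
set_option linter.unusedVariables false

open Polynomial

namespace Pool.Agent.LUM

open Pool.Agent.H15JM (RVal)
open Pool.Agent.LU1 (VPos LatData val_add_vpos adj)

universe u

variable {Λ Ω : Type u} [CommRing Λ] [IsDomain Λ] [IsDiscreteValuationRing Λ] [Field Ω]
  [Algebra Λ Ω] {ϖ : Λ} {v : RVal Ω} {r : ℕ}

/-- The valuation ring as a subalgebra, relative to a ring of elements of value `≥ 0`. -/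
private def ovS (v : RVal Ω) (hΛ : ∀ c : Λ, v.Ge 0 (algebraMap Λ Ω c)) : Subalgebra Λ Ω where
  carrier := {x | v.Ge 0 x}
  mul_mem' := by
    intro a b ha hb
    simpa using ha.mul hb
  add_mem' := fun ha hb => ha.add hb
  algebraMap_mem' := hΛ

theorem EtU.rigid {C₀ C : Subalgebra Λ Ω} (hC : EtU v C₀ C) (hnn : ∀ x ∈ C, v.Ge 0 x)
    (τ : Ω →ₐ[Λ] Ω) (h0 : ∀ c ∈ C₀, τ c = c) (hτ : ∀ x : Ω, x ≠ 0 → v (τ x) = v x)
    (h1 : ∀ c ∈ C, VPos v (τ c - c)) : ∀ c ∈ C, τ c = c := by
  have hΛ : ∀ c : Λ, v.Ge 0 (algebraMap Λ Ω c) := fun c => hnn _ (C.algebraMap_mem c)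
  have hloc : ∀ S : Subalgebra Λ Ω, (∀ x ∈ S, τ x = x) → ∀ x ∈ locv v S, τ x = x := by
    rintro S hS x ⟨a, ha, b, hb, hb0, hvb, rfl⟩
    rw [map_div₀, hS a ha, hS b hb]
  induction hC with
  | base => exact hloc _ h0
  | @step C hC f hf hc θ hf0 hf1 hf2 ih =>
    have hCle : ∀ x ∈ C, x ∈ locv v (Algebra.adjoin Λ ((C : Set Ω) ∪ {θ})) := fun x hx =>
      le_locv _ (Algebra.subset_adjoin (Or.inl hx))
    have hθm : θ ∈ locv v (Algebra.adjoin Λ ((C : Set Ω) ∪ {θ})) :=
      le_locv _ (Algebra.subset_adjoin (Or.inr rfl))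
    have ih' := ih (fun x hx => hnn x (hCle x hx)) (fun x hx => h1 x (hCle x hx))
    have ht := h1 θ hθm
    have hθ := hnn θ hθm
    obtain ⟨e, he, hexp⟩ := taylor_mem (R := ovS v hΛ) (f := f)
      (fun i => hnn _ (hCle _ (hc i))) (x := θ) (t := τ θ - θ) hθ ht.ge
    have hfτ : f.eval (τ θ) = 0 := by
      have h3 : f.map (τ : Ω →+* Ω) = f := by
        ext i
        rw [coeff_map]
        exact ih' _ (hc i)
      have h4 : (f.map (τ : Ω →+* Ω)).eval (τ θ) = τ (f.eval θ) := by
        rw [eval_map]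
        exact Polynomial.eval₂_at_apply (τ : Ω →+* Ω) θ
      rw [h3, hf0, _root_.map_zero] at h4
      exact h4
    rw [add_sub_cancel, hfτ, hf0, zero_add] at hexp
    have h5 := val_add_vpos hf1 hf2 (VPos.mul' (show v.Ge 0 e from he) ht)
    have h6 : (τ θ - θ) * (f.derivative.eval θ + e * (τ θ - θ)) = 0 := by
      rw [hexp]; ring
    have h7 : τ θ = θ := by
      rcases mul_eq_zero.1 h6 with h8 | h8
      · exact sub_eq_zero.1 h8
      · exact absurd h8 h5.1
    refine hloc _ fun x hx => ?_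
    induction hx using Algebra.adjoin_induction with
    | mem x hx =>
      rcases hx with hx | hx
      · exact ih' x hx
      · rw [Set.mem_singleton_iff.1 hx]; exact h7
    | algebraMap c => exact τ.commutes c
    | add x y _ _ hx hy => rw [_root_.map_add, hx, hy]
    | mul x y _ _ hx hy => rw [_root_.map_mul, hx, hy]

end Pool.Agent.LUM
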