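import Pool.Agent.Lib.LUM.T02
import Pool.Agent.Lib.LUM.U04

/-! # T04: a `DD`-stable ring of the class `U`, and the finite group acting on it

Recipe (`exists_stable_C`): each element of the hull is a quotient of polynomials in elements of `K`
and of `henU`, so in `fld K C` for some `C` of the class; finitely many: one `C` (`EtU.join`).
`C = locv Λ[F]`; `F'` a `DD`-stable finite set containing `F` (`DD.orbit_finite`).  The conjugates
`τ C` are in the class (`EtU.map`) and only finitely many occur (`τ C = locv Λ[τ F]` depends only on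
the finite set `τ F ⊆ F'`); their join is in the class and `DD`-stable.
`exists_reps`: the restrictions of the elements of `DD` to `fld K C` are determined by their values
on the finite set of generators (`EtU.fg`), which have finite orbits: finitely many restrictions; choose one
representative `τ i ∈ DD` for each, `τ 0 = 1`.
`sep_res`: if `τ i` and `τ j` differ on `fld K C` then they differ on `C`, `σ = (τ j)⁻¹ (τ i)` is not the
identity on `C`, so by `EtU.rigid` some `c ∈ C` has `¬ VPos (σ c - c)`, i.e. `σ c - c ≠ 0` of value 0. -/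

set_option autoImplicit false
set_option linter.unusedSectionVars false
set_option linter.unusedVariables false

open Polynomial

namespace Pool.Agent.LUM

open Pool.Agent.H15JM (RVal)
open Pool.Agent.LU1 (VPos LatData val_add_vpos adj GoodBasis)

universe u

variable {Λ Λ' Q Ω : Type u} [CommRing Λ] [IsDomain Λ] [IsDiscreteValuationRing Λ]
  [CommRing Λ'] [IsDomain Λ'] [IsDiscreteValuationRing Λ'] [Algebra Λ Λ'] [Field Q]
  [Algebra Λ Q] [IsFractionRing Λ Q] [Field Ω] [Algebra Λ Ω] [Algebra Λ' Ω]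
  [IsScalarTower Λ Λ' Ω] [Algebra Q Ω] [IsScalarTower Λ Q Ω]
  {ϖ : Λ} {ϖ' : Λ'} {v : RVal Ω} {r : ℕ}

/-! ### auxiliary lemmas -/

/-- an automorphism over `K` as an automorphism over `Λ` -/
private def lam4 {K : IntermediateField Q Ω} (τ : Ω ≃ₐ[K] Ω) : Ω ≃ₐ[Λ] Ω :=
  { (τ : Ω ≃+* Ω) with
    commutes' := fun c => by
      have h1 := τ.commutes (algebraMap Q K (algebraMap Λ Q c))
      rw [← IsScalarTower.algebraMap_apply Q K Ω, ← IsScalarTower.algebraMap_apply Λ Q Ω] at h1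
      exact h1 }

private theorem lam4_apply {K : IntermediateField Q Ω} (τ : Ω ≃ₐ[K] Ω) (x : Ω) :
    (lam4 (Λ := Λ) τ) x = τ x := rfl

private theorem fld_mono4 {K : IntermediateField Q Ω} {C D : Subalgebra Λ Ω} (h : C ≤ D) :
    fld K C ≤ fld K D :=
  sup_le_sup_left (IntermediateField.adjoin.mono _ _ _ h) _

private theorem le_fld4 {K : IntermediateField Q Ω} {C : Subalgebra Λ Ω} {c : Ω} (hc : c ∈ C) :
    c ∈ fld K C :=
  le_sup_right (a := K) (IntermediateField.subset_adjoin Q (C : Set Ω) hc)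

/-- the union of the fields `fld K C` -/
private def uni4 (Λ : Type u) [CommRing Λ] [IsDomain Λ] [IsDiscreteValuationRing Λ] {Q Ω : Type u}
    [Field Q] [Algebra Λ Q] [IsFractionRing Λ Q] [Field Ω] [Algebra Λ Ω] [Algebra Q Ω]
    [IsScalarTower Λ Q Ω] (v : RVal Ω) (K : IntermediateField Q Ω) : IntermediateField Q Ω where
  carrier := {x | ∃ C : Subalgebra Λ Ω, EtU v (⊥ : Subalgebra Λ Ω) C ∧ x ∈ fld K C}
  mul_mem' := by
    rintro x y ⟨C, hC, hx⟩ ⟨D, hD, hy⟩
    exact ⟨_, hC.join hD, (fld K _).mul_mem (fld_mono4 (le_sup_left.trans (le_locv _)) hx)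
      (fld_mono4 (le_sup_right.trans (le_locv _)) hy)⟩
  one_mem' := ⟨_, EtU.base, (fld K _).one_mem⟩
  add_mem' := by
    rintro x y ⟨C, hC, hx⟩ ⟨D, hD, hy⟩
    exact ⟨_, hC.join hD, (fld K _).add_mem (fld_mono4 (le_sup_left.trans (le_locv _)) hx)
      (fld_mono4 (le_sup_right.trans (le_locv _)) hy)⟩
  zero_mem' := ⟨_, EtU.base, (fld K _).zero_mem⟩
  algebraMap_mem' := fun q => ⟨_, EtU.base, (fld K _).algebraMap_mem q⟩
  inv_mem' := by
    rintro x ⟨C, hC, hx⟩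
    exact ⟨C, hC, (fld K _).inv_mem hx⟩

private theorem hull_le4 {K : IntermediateField Q Ω} : hull Λ v K ≤ uni4 Λ v K := by
  refine sup_le ?_ ?_
  · intro x hx
    exact ⟨_, EtU.base, le_sup_left (a := K) hx⟩
  · rw [IntermediateField.adjoin_le_iff]
    intro x hx
    obtain ⟨C, hC, h1⟩ := mem_henU.1 hx
    exact ⟨C, hC, le_fld4 h1⟩

private theorem exists_C4 {K : IntermediateField Q Ω} (W : Finset Ω)
    (hW : ∀ x ∈ W, x ∈ hull Λ v K) :
    ∃ C : Subalgebra Λ Ω, EtU v (⊥ : Subalgebra Λ Ω) C ∧ ∀ x ∈ W, x ∈ fld K C := by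
  classical
  induction W using Finset.induction_on with
  | empty => exact ⟨_, EtU.base, by simp⟩
  | insert a s ha ih =>
    obtain ⟨C, hC, h1⟩ := ih (fun x hx => hW x (Finset.mem_insert_of_mem hx))
    obtain ⟨D, hD, h2⟩ := hull_le4 (hW a (Finset.mem_insert_self _ _))
    refine ⟨_, hC.join hD, fun x hx => ?_⟩
    rcases Finset.mem_insert.1 hx with rfl | hx
    · exact fld_mono4 (le_sup_right.trans (le_locv _)) h2
    · exact fld_mono4 (le_sup_left.trans (le_locv _)) (h1 x hx)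

section Plain

variable {Λ Ω : Type u} [CommRing Λ] [IsDomain Λ] [IsDiscreteValuationRing Λ] [Field Ω]
  [Algebra Λ Ω] {v : RVal Ω}

private theorem map_locv4 (τ : Ω ≃ₐ[Λ] Ω) (hτ : ∀ x : Ω, x ≠ 0 → v (τ x) = v x)
    (S : Subalgebra Λ Ω) : (locv v S).map τ.toAlgHom = locv v (S.map τ.toAlgHom) := by
  ext x
  constructor
  · rintro ⟨y, ⟨a, ha, b, hb, hb0, hvb, rfl⟩, rfl⟩
    refine ⟨τ a, ⟨a, ha, rfl⟩, τ b, ⟨b, hb, rfl⟩, ?_, ?_, ?_⟩
    · exact fun h0 => hb0 (by simpa using h0)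
    · rw [hτ b hb0, hvb]
    · exact map_div₀ τ a b
  · rintro ⟨_, ⟨a, ha, rfl⟩, _, ⟨b, hb, rfl⟩, hb0, hvb, rfl⟩
    have hb0' : b ≠ 0 := by
      rintro rfl
      exact hb0 (map_zero _)
    refine ⟨a / b, ⟨a, ha, b, hb, hb0', ?_, rfl⟩, ?_⟩
    · have h1 := hτ b hb0'
      rw [← h1]; exact hvb
    · exact map_div₀ τ a b

private theorem locv_sup4 (A B : Set Ω) :
    locv v (locv v (Algebra.adjoin Λ A) ⊔ locv v (Algebra.adjoin Λ B)) =
      locv v (Algebra.adjoin Λ (A ∪ B)) := by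
  apply le_antisymm
  · refine locv_le (sup_le (locv_mono (Algebra.adjoin_mono Set.subset_union_left))
      (locv_mono (Algebra.adjoin_mono Set.subset_union_right))) (fun f hf h0 h1 => locv_inv hf h0 h1)
  · refine locv_mono (Algebra.adjoin_le ?_)
    rintro x (hx | hx)
    · exact le_sup_left (a := locv v (Algebra.adjoin Λ A)) (le_locv _ (Algebra.subset_adjoin hx))
    · exact le_sup_right (a := locv v (Algebra.adjoin Λ A)) (le_locv _ (Algebra.subset_adjoin hx))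

private theorem etU_biUnion4 {ι : Type*} (T : Finset ι) (A : ι → Set Ω)
    (hA : ∀ i ∈ T, EtU v (⊥ : Subalgebra Λ Ω) (locv v (Algebra.adjoin Λ (A i)))) :
    EtU v (⊥ : Subalgebra Λ Ω) (locv v (Algebra.adjoin Λ (⋃ i ∈ T, A i))) := by
  classical
  induction T using Finset.induction_on with
  | empty =>
    have e : (⋃ i ∈ (∅ : Finset ι), A i) = (∅ : Set Ω) := by simp
    rw [e, Algebra.adjoin_empty]
    exact EtU.base
  | insert a s ha ih =>
    have h1 := ih (fun i hi => hA i (Finset.mem_insert_of_mem hi))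
    have h2 := (hA a (Finset.mem_insert_self _ _)).join h1
    rw [locv_sup4] at h2
    rw [Finset.set_biUnion_insert]
    exact h2

end Plain

private theorem DD_map4 {K : IntermediateField Q Ω} {τ : Ω ≃ₐ[K] Ω} (hτ : τ ∈ DD v K)
    {F : Set Ω} (hF : EtU v (⊥ : Subalgebra Λ Ω) (locv v (Algebra.adjoin Λ F))) :
    EtU v (⊥ : Subalgebra Λ Ω) (locv v (Algebra.adjoin Λ (τ '' F))) := by
  have h1 := hF.map (lam4 τ) hτ
  rw [map_locv4 (lam4 (Λ := Λ) τ) hτ, Algebra.map_bot, AlgHom.map_adjoin] at h1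
  exact h1

theorem exists_stable_C (h : Ctx0 ϖ v r) (K : IntermediateField Q Ω)
    (hK : ∀ g : Ω, IsAlgebraic K g) (W : Finset Ω) (hW : ∀ x ∈ W, x ∈ hull Λ v K) :
    ∃ C : Subalgebra Λ Ω, EtU v (⊥ : Subalgebra Λ Ω) C ∧ (∀ x ∈ W, x ∈ fld K C) ∧
      ∀ τ ∈ DD v K, ∀ c ∈ C, τ c ∈ C := by
  classical
  obtain ⟨C₀, hC₀, hW₀⟩ := exists_C4 (v := v) (Λ := Λ) W hW
  obtain ⟨F, hF⟩ := hC₀.fg
  obtain ⟨F', hFF', hst⟩ := DD.orbit_finite (v := v) K hK F
  obtain ⟨G, hG⟩ : ∃ G : Finset Ω, G = F'.filter (fun x => ∃ τ ∈ DD v K, ∃ f ∈ F, x = τ f) := ⟨_, rfl⟩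
  have hmemG : ∀ x, x ∈ G ↔ ∃ τ ∈ DD v K, ∃ f ∈ F, x = τ f := by
    intro x
    rw [hG, Finset.mem_filter]
    constructor
    · exact fun h => h.2
    · rintro ⟨τ, hτ, f, hf, rfl⟩
      exact ⟨hst τ hτ f (hFF' hf), τ, hτ, f, hf, rfl⟩
  have hFG : ∀ f ∈ F, f ∈ G := fun f hf => (hmemG f).2 ⟨1, (DD v K).one_mem, f, hf, rfl⟩
  have hGst : ∀ τ ∈ DD v K, ∀ x ∈ G, τ x ∈ G := by
    intro τ hτ x hx
    obtain ⟨σ, hσ, f, hf, rfl⟩ := (hmemG x).1 hx
    exact (hmemG _).2 ⟨τ * σ, (DD v K).mul_mem hτ hσ, f, hf, rfl⟩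
  refine ⟨locv v (Algebra.adjoin Λ (G : Set Ω)), ?_, ?_, ?_⟩
  · choose! σ hσ f hf hx using fun x (hx : x ∈ G) => (hmemG x).1 hx
    have h1 := etU_biUnion4 (v := v) (Λ := Λ) G (fun x => (σ x) '' (F : Set Ω)) (fun x hx' =>
      DD_map4 (hσ x hx') (by rw [← hF]; exact hC₀))
    have e : (⋃ i ∈ G, (σ i) '' (F : Set Ω)) = (G : Set Ω) := by
      ext x
      simp only [Set.mem_iUnion, Set.mem_image, Finset.mem_coe]
      constructor
      · rintro ⟨i, hi, g, hg, rfl⟩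
        exact (hmemG _).2 ⟨σ i, hσ i hi, g, hg, rfl⟩
      · intro hx'
        exact ⟨x, hx', f x, hf x hx', (hx x hx').symm⟩
    rwa [e] at h1
  · intro x hx
    refine fld_mono4 ?_ (hW₀ x hx)
    rw [hF]
    exact locv_mono (Algebra.adjoin_mono fun f hf => hFG f hf)
  · intro τ hτ c hc
    have h1 : τ c ∈ (locv v (Algebra.adjoin Λ (G : Set Ω))).map (lam4 (Λ := Λ) τ).toAlgHom := ⟨c, hc, rfl⟩
    rw [map_locv4 (lam4 (Λ := Λ) τ) hτ, AlgHom.map_adjoin] at h1
    refine locv_mono (Algebra.adjoin_mono ?_) h1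
    rintro _ ⟨g, hg, rfl⟩
    exact hGst τ hτ g hg

/-- the field where two automorphisms agree -/
private def eq4 {K : IntermediateField Q Ω} (σ τ : Ω ≃ₐ[K] Ω) : IntermediateField Q Ω where
  carrier := {x | σ x = τ x}
  mul_mem' := by
    intro x y (hx : σ x = τ x) (hy : σ y = τ y)
    show σ (x * y) = τ (x * y)
    rw [map_mul, map_mul, hx, hy]
  one_mem' := by
    show σ 1 = τ 1
    rw [map_one, map_one]
  add_mem' := by
    intro x y (hx : σ x = τ x) (hy : σ y = τ y)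
    show σ (x + y) = τ (x + y)
    rw [map_add, map_add, hx, hy]
  zero_mem' := by
    show σ 0 = τ 0
    rw [map_zero, map_zero]
  algebraMap_mem' := by
    intro q
    show σ _ = τ _
    have h1 := σ.commutes (algebraMap Q K q)
    have h2 := τ.commutes (algebraMap Q K q)
    rw [← IsScalarTower.algebraMap_apply Q K Ω q] at h1 h2
    rw [h1, h2]
  inv_mem' := by
    intro x (hx : σ x = τ x)
    show σ x⁻¹ = τ x⁻¹
    rw [map_inv₀, map_inv₀, hx]

private theorem fld_eq4 (K : IntermediateField Q Ω) {F : Set Ω} :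
    fld K (locv v (Algebra.adjoin Λ F)) = K ⊔ IntermediateField.adjoin Q F := by
  apply le_antisymm
  · refine sup_le le_sup_left (le_trans ?_ le_sup_right)
    rw [IntermediateField.adjoin_le_iff]
    have h1 : ∀ f ∈ Algebra.adjoin Λ F, f ∈ IntermediateField.adjoin Q F := by
      intro f hf
      refine Algebra.adjoin_induction (fun x hx => IntermediateField.subset_adjoin Q F hx) ?_
        (fun x y _ _ hx hy => add_mem hx hy) (fun x y _ _ hx hy => mul_mem hx hy) hf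
      intro c
      rw [IsScalarTower.algebraMap_apply Λ Q Ω]
      exact (IntermediateField.adjoin Q F).algebraMap_mem _
    rintro f ⟨a, ha, b, hb, -, -, rfl⟩
    exact div_mem (h1 a ha) (h1 b hb)
  · refine sup_le le_sup_left (le_trans ?_ le_sup_right)
    exact IntermediateField.adjoin.mono _ _ _ fun f hf => le_locv _ (Algebra.subset_adjoin hf)

theorem exists_reps (h : Ctx0 ϖ v r) (K : IntermediateField Q Ω)
    (hK : ∀ g : Ω, IsAlgebraic K g) {C : Subalgebra Λ Ω} (hC : EtU v (⊥ : Subalgebra Λ Ω) C)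
    (hst : ∀ τ ∈ DD v K, ∀ c ∈ C, τ c ∈ C) :
    ∃ (n : ℕ) (τ : Fin (n + 1) → (Ω ≃ₐ[K] Ω)), (∀ i, τ i ∈ DD v K) ∧ τ 0 = 1 ∧
      (∀ σ ∈ DD v K, ∃ i, ∀ x ∈ fld K C, σ x = τ i x) ∧
      ∀ i j, i ≠ j → ∃ c ∈ C, τ i c - τ j c ≠ 0 ∧ v (τ i c - τ j c) = 0 := by
  classical
  obtain ⟨F, hF⟩ := hC.fg
  obtain ⟨F', hFF', hst'⟩ := DD.orbit_finite (v := v) K hK F
  have hFC : ∀ f ∈ F, f ∈ C := by
    intro f hf
    rw [hF]
    exact le_locv _ (Algebra.subset_adjoin hf)
  have hagree : ∀ σ τ : Ω ≃ₐ[K] Ω, (∀ f ∈ F, σ f = τ f) → ∀ x ∈ fld K C, σ x = τ x := by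
    intro σ τ h1 x hx
    have h2 : fld K C ≤ eq4 σ τ := by
      rw [hF, fld_eq4]
      refine sup_le ?_ ?_
      · intro y hy
        have e1 : σ y = y := σ.commutes (⟨y, hy⟩ : K)
        have e2 : τ y = y := τ.commutes (⟨y, hy⟩ : K)
        show σ y = τ y
        rw [e1, e2]
      · rw [IntermediateField.adjoin_le_iff]
        intro f hf
        exact h1 f hf
    exact h2 hx
  -- the finite type of the restrictions
  let ι := {g : F → F' // ∃ σ ∈ DD v K, ∀ f : F, ((g f : F') : Ω) = σ (f : Ω)}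
  have : Finite ι := inferInstance
  have : Fintype ι := Fintype.ofFinite ι
  have hcl : ∀ σ ∈ DD v K, ∃ g : ι, ∀ f : F, ((g.1 f : F') : Ω) = σ (f : Ω) := by
    intro σ hσ
    exact ⟨⟨fun f => ⟨σ f, hst' σ hσ f (hFF' f.2)⟩, σ, hσ, fun f => rfl⟩, fun f => rfl⟩
  obtain ⟨g₁, hg₁⟩ := hcl 1 (DD v K).one_mem
  obtain ⟨n, hn⟩ : ∃ n, Fintype.card ι = n + 1 :=
    ⟨Fintype.card ι - 1, (Nat.succ_pred_eq_of_pos (Fintype.card_pos_iff.2 ⟨g₁⟩)).symm⟩
  let e₀ : ι ≃ Fin (n + 1) := Fintype.equivFinOfCardEq hn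
  let e : ι ≃ Fin (n + 1) := e₀.trans (Equiv.swap (e₀ g₁) 0)
  have he : e g₁ = 0 := by simp [e]
  choose rep hrep hrep' using fun g : ι => g.2
  obtain ⟨τ, hτd⟩ : ∃ τ : Fin (n + 1) → (Ω ≃ₐ[K] Ω), τ = fun i => if i = 0 then 1 else rep (e.symm i) := ⟨_, rfl⟩
  have hτ0 : τ 0 = 1 := by rw [hτd]; simp
  have hτ : ∀ i, τ i ∈ DD v K := by
    intro i
    rw [hτd]
    simp only
    split_ifs with hi
    · exact (DD v K).one_mem
    · exact hrep _
  have hτF : ∀ i, ∀ f : F, (((e.symm i).1 f : F') : Ω) = τ i (f : Ω) := by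
    intro i f
    rw [hτd]
    simp only
    split_ifs with hi
    · rw [hi, ← he, Equiv.symm_apply_apply]
      exact hg₁ f
    · exact hrep' _ f
  refine ⟨n, τ, hτ, hτ0, ?_, ?_⟩
  · intro σ hσ
    obtain ⟨g, hg⟩ := hcl σ hσ
    refine ⟨e g, hagree _ _ fun f hf => ?_⟩
    have h1 := hτF (e g) ⟨f, hf⟩
    rw [Equiv.symm_apply_apply, hg ⟨f, hf⟩] at h1
    exact h1
  · intro i j hij
    have hne : ∃ f ∈ F, τ i f ≠ τ j f := by
      by_contra hno
      push Not at hno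
      apply hij
      apply e.symm.injective
      apply Subtype.ext
      funext f
      apply Subtype.ext
      rw [hτF i f, hτF j f]
      exact hno f f.2
    obtain ⟨f, hf, hfne⟩ := hne
    obtain ⟨ρ, hρ⟩ : ∃ ρ : Ω ≃ₐ[K] Ω, ρ = (τ j)⁻¹ * τ i := ⟨_, rfl⟩
    have hρD : ρ ∈ DD v K := by
      rw [hρ]; exact (DD v K).mul_mem ((DD v K).inv_mem (hτ j)) (hτ i)
    have hρj : ∀ x, τ j (ρ x) = τ i x := by
      intro x
      rw [hρ, ← AlgEquiv.mul_apply, mul_inv_cancel_left]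
    have hdvl : DVl ϖ v C := EtU.dvl h (DVl.bot h) hC
    have hex : ∃ c ∈ C, ¬ VPos v (ρ c - c) := by
      by_contra hno
      push Not at hno
      have h1 := hC.rigid hdvl.nonneg (lam4 ρ).toAlgHom (fun c hc => by
        obtain ⟨d, rfl⟩ := Algebra.mem_bot.1 hc
        exact (lam4 ρ).commutes d) hρD hno f (hFC f hf)
      apply hfne
      have h2 : ρ f = f := h1
      rw [← hρj f, h2]
    obtain ⟨c, hc, h1⟩ := hex
    have h2 : ρ c - c ≠ 0 := fun h0 => h1 (fun h3 => absurd h0 h3)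
    have h3 : v (ρ c - c) = 0 := by
      have h4 : 0 ≤ v (ρ c - c) := hdvl.nonneg _ (C.sub_mem (hst ρ hρD c hc) hc) h2
      rcases lt_or_eq_of_le h4 with h5 | h5
      · exact absurd (fun _ => h5) h1
      · exact h5.symm
    have h6 : τ i c - τ j c = τ j (ρ c - c) := by rw [map_sub, hρj]
    refine ⟨c, hc, ?_, ?_⟩
    · rw [h6]
      exact fun h0 => h2 ((map_eq_zero_iff (τ j) (τ j).injective).1 h0)
    · rw [h6, hτ j _ h2, h3]

/-- `fld K C` is stable, and finite over `K`. -/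
theorem fld_stable (K : IntermediateField Q Ω) {C : Subalgebra Λ Ω}
    (hst : ∀ τ ∈ DD v K, ∀ c ∈ C, τ c ∈ C) : ∀ τ ∈ DD v K, ∀ x ∈ fld K C, τ x ∈ fld K C := by
  intro τ hτ x hx
  have h1 : fld K C ≤ (fld K C).comap (τ.toAlgHom.restrictScalars Q) := by
    refine sup_le ?_ ?_
    · intro y hy
      have e1 : τ y = y := τ.commutes (⟨y, hy⟩ : K)
      show τ y ∈ fld K C
      rw [e1]
      exact le_sup_left (a := K) hy
    · rw [IntermediateField.adjoin_le_iff]
      intro c hc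
      show τ c ∈ fld K C
      exact le_fld4 (hst τ hτ c hc)
  exact h1 hx

theorem fld_finite (K : IntermediateField Q Ω) (hK : ∀ g : Ω, IsAlgebraic K g)
    {C : Subalgebra Λ Ω} (hC : EtU v (⊥ : Subalgebra Λ Ω) C) :
    ∃ F : Finset Ω, fld K C = K ⊔ IntermediateField.adjoin Q (F : Set Ω) := by
  obtain ⟨F, hF⟩ := hC.fg
  exact ⟨F, by rw [hF, fld_eq4]⟩

end Pool.Agent.LUM
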