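import Pool.Agent.Lib.LUM.LemX
import Pool.Agent.Lib.LUM.Mk

/-! # T-steps preserve regularity -/

set_option autoImplicit false
set_option linter.unusedSectionVars false

open Polynomial

namespace Pool.Agent.LUM

open Pool.Agent.H15JM (RVal)
open Pool.Agent.LU1 (VPos LatData val_add_vpos)

universe u

variable {Λ Ω : Type u} [CommRing Λ] [IsDomain Λ] [IsDiscreteValuationRing Λ] [Field Ω]
  [Algebra Λ Ω] {ϖ : Λ} {v : RVal Ω} {r : ℕ}

/-- `z` is a term `a χ(γ) y^l` of level `γ + l β` satisfying `p`. -/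
def BF.Tm (B : BF ϖ v) (p : ℝ → Prop) (z : Ω) : Prop :=
  ∃ a ∈ B.R, ∃ γ ∈ B.Γ, ∃ l : ℤ, p (γ + l * v B.y) ∧ z = a * (B.χ γ * B.y ^ l)

/-- Finite sums of terms of level `≥ 0`. -/
def BF.Lge (B : BF ϖ v) : AddSubgroup Ω := AddSubgroup.closure {z | B.Tm (fun t => 0 ≤ t) z}

/-- Finite sums of terms of level `> 0`. -/
def BF.Lgt (B : BF ϖ v) : AddSubgroup Ω := AddSubgroup.closure {z | B.Tm (fun t => 0 < t) z}

theorem BF.Tm.mul {B : BF ϖ v} {p q s : ℝ → Prop} (hpq : ∀ a b, p a → q b → s (a + b)) {z w : Ω}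
    (hz : B.Tm p z) (hw : B.Tm q w) : B.Tm s (z * w) := by
  obtain ⟨a, ha, γ, hγ, l, h1, rfl⟩ := hz
  obtain ⟨b, hb, δ, hδ, m, h2, rfl⟩ := hw
  refine ⟨a * b, B.R.mul_mem ha hb, γ + δ, B.Γ.add_mem hγ hδ, l + m, ?_, ?_⟩
  · have := hpq _ _ h1 h2
    convert this using 1
    push_cast; ring
  · rw [B.χ_add γ hγ δ hδ, zpow_add₀ B.y_ne]; ring

theorem closure_mul {S T U : Set Ω} (h : ∀ a ∈ S, ∀ b ∈ T, a * b ∈ U) {z w : Ω}
    (hz : z ∈ AddSubgroup.closure S) (hw : w ∈ AddSubgroup.closure T) :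
    z * w ∈ AddSubgroup.closure U := by
  induction hz using AddSubgroup.closure_induction with
  | mem a ha =>
    induction hw using AddSubgroup.closure_induction with
    | mem b hb => exact AddSubgroup.subset_closure (h a ha b hb)
    | zero => rw [mul_zero]; exact AddSubgroup.zero_mem _
    | add x y _ _ hx hy => rw [mul_add]; exact AddSubgroup.add_mem _ hx hy
    | neg x _ hx => rw [mul_neg]; exact AddSubgroup.neg_mem _ hx
  | zero => rw [zero_mul]; exact AddSubgroup.zero_mem _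
  | add x y _ _ hx hy => rw [add_mul]; exact AddSubgroup.add_mem _ hx hy
  | neg x _ hx => rw [neg_mul]; exact AddSubgroup.neg_mem _ hx

theorem BF.Lge_mul {B : BF ϖ v} {z w : Ω} (hz : z ∈ B.Lge) (hw : w ∈ B.Lge) : z * w ∈ B.Lge :=
  closure_mul (fun _ ha _ hb => BF.Tm.mul (fun _ _ h1 h2 => add_nonneg h1 h2) ha hb) hz hw

theorem BF.Lgt_mul {B : BF ϖ v} {z w : Ω} (hz : z ∈ B.Lgt) (hw : w ∈ B.Lge) : z * w ∈ B.Lgt :=
  closure_mul (fun _ ha _ hb => BF.Tm.mul (fun _ _ h1 h2 => add_pos_of_pos_of_nonneg h1 h2) ha hb)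
    hz hw

theorem BF.Lge_R {B : BF ϖ v} {z : Ω} (hz : z ∈ B.R) : z ∈ B.Lge :=
  AddSubgroup.subset_closure ⟨z, hz, 0, B.Γ.zero_mem, 0, by simp, by simp [B.χ_zero]⟩

theorem BF.Lgt_le {B : BF ϖ v} : B.Lgt ≤ B.Lge := by
  refine AddSubgroup.closure_mono ?_
  rintro z ⟨a, ha, γ, hγ, l, h1, rfl⟩
  exact ⟨a, ha, γ, hγ, l, h1.le, rfl⟩

/-- Elements of `Lgt` have positive value. -/
theorem BF.Lgt_vpos {B : BF ϖ v} {z : Ω} (hz : z ∈ B.Lgt) : VPos v z := by
  induction hz using AddSubgroup.closure_induction with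
  | mem z hz =>
    obtain ⟨a, ha, γ, hγ, l, h1, rfl⟩ := hz
    refine VPos.mul' (B.nonneg a ha) fun _ => ?_
    rw [v.map_mul (B.χ_ne γ hγ) (zpow_ne_zero _ B.y_ne), B.χ_val γ hγ, v.map_zpow B.y_ne]
    exact h1
  | zero => exact VPos.zero
  | add x y _ _ hx hy => exact hx.add hy
  | neg x _ hx => exact hx.neg

section

variable {B : BF ϖ v} {q : ℕ} {s : ℝ → ℤ → ℤ} (hL : LatData B.Γ (v B.y) q s)

include hL

/-- The powers of `w` are terms of level `0`. -/
theorem BF.w_zpow (i : ℤ) :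
    B.w q ^ i = B.χ (-(i * (q * v B.y))) * B.y ^ (i * q) := by
  have h1 := B.Γ.zsmul_mem hL.q_mem i
  rw [zsmul_eq_mul] at h1
  rw [BF.w, div_zpow, B.χ_neg h1, B.χ_zsmul hL.q_mem, ← zpow_natCast, ← zpow_mul, mul_comm (q : ℤ),
    div_eq_mul_inv, mul_comm]

theorem BF.w_zpow_mem (i : ℤ) : B.w q ^ i ∈ B.Lge := by
  have h1 := B.Γ.zsmul_mem hL.q_mem i
  rw [zsmul_eq_mul] at h1
  refine AddSubgroup.subset_closure ⟨1, B.R.one_mem, -(i * (q * v B.y)), B.Γ.neg_mem h1, i * q,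
    ?_, ?_⟩
  · push_cast
    linarith
  · rw [one_mul, BF.w_zpow hL]

/-- The new monomials are terms. -/
theorem BF.chi'_mem_L {γ' : ℝ} (hγ' : γ' ∈ B.Γ ⊔ AddSubgroup.zmultiples (v B.y)) :
    (0 ≤ γ' → B.chi' B.y (B.w q) s γ' ∈ B.Lge) ∧
      (0 < γ' → B.chi' B.y (B.w q) s γ' ∈ B.Lgt) := by
  have hw : B.y ^ q = B.χ (q * v B.y) * B.w q := by
    rw [BF.w, mul_div_cancel₀ _ (B.χ_ne _ hL.q_mem)]
  obtain ⟨γ, hγ, l, rfl⟩ := BF.mem_sup hγ'
  rw [BF.chi'_eq B.y_ne hL hw hγ]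
  constructor
  · intro h0
    exact BF.Lge_mul (AddSubgroup.subset_closure ⟨1, B.R.one_mem, γ, hγ, l, h0, by rw [one_mul]⟩)
      (BF.w_zpow_mem hL _)
  · intro h0
    exact BF.Lgt_mul (AddSubgroup.subset_closure ⟨1, B.R.one_mem, γ, hγ, l, h0, by rw [one_mul]⟩)
      (BF.w_zpow_mem hL _)

theorem BF.adj_mem_L {z : Ω} (hz : z ∈ Algebra.adjoin Λ ((B.R : Set Ω) ∪
    B.chi' B.y (B.w q) s '' {γ | γ ∈ B.Γ ⊔ AddSubgroup.zmultiples (v B.y) ∧ 0 ≤ γ} ∪
      {B.w q})) : z ∈ B.Lge := by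
  induction hz using Algebra.adjoin_induction with
  | mem x hx =>
    rcases hx with (hx | ⟨γ, ⟨hγ, h0⟩, rfl⟩) | rfl
    · exact BF.Lge_R hx
    · exact (BF.chi'_mem_L hL hγ).1 h0
    · simpa using BF.w_zpow_mem hL 1
  | algebraMap c => exact BF.Lge_R (B.R.algebraMap_mem c)
  | add x y _ _ hx hy => exact AddSubgroup.add_mem _ hx hy
  | mul x y _ _ hx hy => exact BF.Lge_mul hx hy

/-- Modulo terms of positive level, elements of `Lge` are Laurent polynomials in `w`. -/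
theorem BF.Lge_poly {z : Ω} (hz : z ∈ B.Lge) :
    ∃ (N : ℕ) (P : Λ[X]), B.w q ^ N * z - aeval (B.w q) P ∈ B.Lgt := by
  have hw0 : B.w q ≠ 0 := div_ne_zero (pow_ne_zero _ B.y_ne) (B.χ_ne _ hL.q_mem)
  have hwN : ∀ N : ℕ, B.w q ^ N ∈ B.Lge := fun N => by
    simpa using BF.w_zpow_mem hL N
  induction hz using AddSubgroup.closure_induction with
  | mem z hz =>
    obtain ⟨a, ha, γ, hγ, l, h1, rfl⟩ := hz
    rcases h1.lt_or_eq with h2 | h2
    · refine ⟨0, 0, ?_⟩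
      rw [pow_zero, one_mul, map_zero, sub_zero]
      exact AddSubgroup.subset_closure ⟨a, ha, γ, hγ, l, h2, rfl⟩
    · -- level zero: a power of `w`
      have hdvd : ∃ i : ℤ, B.χ γ * B.y ^ l = B.w q ^ i := by
        have h3 := hL.same (γ := γ) (δ := 0) (l := l) (m := 0) hγ B.Γ.zero_mem (by
          rw [← h2]; simp)
        refine ⟨s γ l - s 0 0, ?_⟩
        have h4 : l = (s γ l - s 0 0) * q := by linarith
        have h5 : γ = -((s γ l - s 0 0 : ℤ) * (q * v B.y)) := by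
          have h6 : (l : ℝ) = ((s γ l - s 0 0 : ℤ) : ℝ) * q := by exact_mod_cast h4
          have h7 : γ = -(l * v B.y) := by linarith
          linear_combination h7 - (v B.y) * h6
        rw [BF.w_zpow hL, ← h4, ← h5]
      obtain ⟨i, hi⟩ := hdvd
      obtain ⟨c, hc, hcR⟩ := B.exists_const ha
      obtain ⟨g, hg, hg0, a', ha', b, hb, h3⟩ := B.gen _ hcR hc
      obtain ⟨N, hN⟩ : ∃ N : ℕ, 0 ≤ (N : ℤ) + i := ⟨i.natAbs, by omega⟩
      obtain ⟨m, hm⟩ := Int.eq_ofNat_of_zero_le hN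
      refine ⟨N, C c * X ^ m, ?_⟩
      have h4 : B.w q ^ N * (a * (B.χ γ * B.y ^ l)) - aeval (B.w q) (C c * X ^ m) =
          (B.χ g * a' + B.y * b) * B.w q ^ ((N : ℤ) + i) := by
        rw [hi, ← h3, map_mul, aeval_C, map_pow, aeval_X, ← zpow_natCast (B.w q) m]
        rw [show (m : ℤ) = (N : ℤ) + i from hm.symm, zpow_add₀ hw0, zpow_natCast]
        ring
      rw [h4]
      refine BF.Lgt_mul (AddSubgroup.add_mem _ ?_ ?_) (BF.w_zpow_mem hL _)
      · exact AddSubgroup.subset_closure ⟨a', ha', g, hg, 0, by simpa using hg0, by simp; ring⟩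
      · exact AddSubgroup.subset_closure ⟨b, hb, 0, B.Γ.zero_mem, 1, by simpa using B.y_pos, by
          simp [B.χ_zero]; ring⟩
  | zero => exact ⟨0, 0, by simp⟩
  | add x y _ _ hx hy =>
    obtain ⟨N, P, h1⟩ := hx
    obtain ⟨M, Q, h2⟩ := hy
    refine ⟨N + M, X ^ M * P + X ^ N * Q, ?_⟩
    have h3 := AddSubgroup.add_mem _ (BF.Lgt_mul h1 (hwN M)) (BF.Lgt_mul h2 (hwN N))
    convert h3 using 1
    rw [map_add, map_mul, map_mul, map_pow, map_pow, aeval_X, pow_add]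
    ring
  | neg x _ hx =>
    obtain ⟨N, P, h1⟩ := hx
    refine ⟨N, -P, ?_⟩
    have := AddSubgroup.neg_mem _ h1
    convert this using 1
    rw [map_neg]; ring

/-- Multiplication by a large power of `w` makes the exponents of `y` nonnegative. -/
theorem BF.Lgt_up {z : Ω} (hz : z ∈ B.Lgt) :
    ∃ N0 : ℕ, ∀ N, N0 ≤ N → B.w q ^ N * z ∈ B.UpG (v B.y) 0 := by
  induction hz using AddSubgroup.closure_induction with
  | mem z hz =>
    obtain ⟨a, ha, γ, hγ, l, h1, rfl⟩ := hz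
    refine ⟨l.natAbs, fun N hN => AddSubgroup.subset_closure ?_⟩
    have hq : (1 : ℤ) ≤ q := by exact_mod_cast hL.q_pos
    have hpos : 0 ≤ (N : ℤ) * q + l := by
      have h2 : (l.natAbs : ℤ) ≤ N := by exact_mod_cast hN
      have h3 : (N : ℤ) ≤ N * q := by nlinarith
      omega
    obtain ⟨m, hm⟩ := Int.eq_ofNat_of_zero_le hpos
    have h4 := B.Γ.nsmul_mem hL.q_mem N
    rw [nsmul_eq_mul] at h4
    refine ⟨a, ha, γ - N * (q * v B.y), B.Γ.sub_mem hγ h4, m, ?_, ?_⟩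
    · have h5 : (m : ℝ) = N * q + l := by exact_mod_cast hm.symm
      rw [h5]
      linarith
    · have h6 := BF.w_zpow hL (N : ℤ)
      rw [zpow_natCast, Int.cast_natCast] at h6
      rw [h6, B.χ_sub hγ h4, B.χ_neg h4, ← zpow_natCast B.y m, ← hm, zpow_add₀ B.y_ne]
      rw [div_eq_mul_inv]
      ring
  | zero => exact ⟨0, fun N _ => by rw [mul_zero]; exact AddSubgroup.zero_mem _⟩
  | add x y _ _ hx hy =>
    obtain ⟨N, h1⟩ := hx
    obtain ⟨M, h2⟩ := hy
    refine ⟨max N M, fun K hK => ?_⟩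
    rw [mul_add]
    exact AddSubgroup.add_mem _ (h1 K ((le_max_left _ _).trans hK))
      (h2 K ((le_max_right _ _).trans hK))
  | neg x _ hx =>
    obtain ⟨N, h1⟩ := hx
    refine ⟨N, fun K hK => ?_⟩
    rw [mul_neg]
    exact AddSubgroup.neg_mem _ (h1 K hK)

open Classical in
/-- A polynomial in `w` whose reduction is not zero is not a sum of terms of positive level. -/
theorem BF.aeval_not_mem (h : Ctx0 ϖ v r) {Q : Λ[X]}
    (hQ : Q.map (IsLocalRing.residue Λ) ≠ 0) : aeval (B.w q) Q ∉ B.Lgt := by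
  intro hmem
  -- the coefficients that are units
  set S := Q.support.filter fun i => IsUnit (Q.coeff i) with hS
  have hSne : S.Nonempty := by
    obtain ⟨i, hi⟩ := Polynomial.support_nonempty.2 hQ
    rw [Polynomial.mem_support_iff, coeff_map] at hi
    have h1 : IsUnit (Q.coeff i) := (IsLocalRing.residue_ne_zero_iff_isUnit _).1 hi
    exact ⟨i, by rw [hS, Finset.mem_filter, Polynomial.mem_support_iff]; exact ⟨h1.ne_zero, h1⟩⟩
  have hsum : ∑ i ∈ S, algebraMap Λ Ω (Q.coeff i) * B.w q ^ i ∈ B.Lgt := by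
    have h1 : aeval (B.w q) Q = ∑ i ∈ S, algebraMap Λ Ω (Q.coeff i) * B.w q ^ i +
        ∑ i ∈ Q.support.filter (fun i => ¬ IsUnit (Q.coeff i)),
          algebraMap Λ Ω (Q.coeff i) * B.w q ^ i := by
      rw [aeval_def, eval₂_eq_sum, Polynomial.sum, hS, Finset.sum_filter_add_sum_filter_not]
    have h2 : ∑ i ∈ Q.support.filter (fun i => ¬ IsUnit (Q.coeff i)),
        algebraMap Λ Ω (Q.coeff i) * B.w q ^ i ∈ B.Lgt := by
      refine AddSubgroup.sum_mem _ fun i hi => ?_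
      have h3 := (Finset.mem_filter.1 hi).2
      have h4 : Q.coeff i ∈ IsLocalRing.maximalIdeal Λ := by
        rwa [IsLocalRing.mem_maximalIdeal, mem_nonunits_iff]
      rw [h.irr.maximalIdeal_eq, Ideal.mem_span_singleton] at h4
      obtain ⟨d, hd⟩ := h4
      have h5 : algebraMap Λ Ω (Q.coeff i) ∈ B.Lgt := by
        refine AddSubgroup.subset_closure ⟨algebraMap Λ Ω ϖ / B.χ (v (algebraMap Λ Ω ϖ)) *
          algebraMap Λ Ω d, B.R.mul_mem B.pi_un (B.R.algebraMap_mem d), _, B.pi_mem, 0,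
          by simpa using h.pos, ?_⟩
        have h6 := B.χ_ne _ B.pi_mem
        rw [hd, map_mul, zpow_zero, mul_one]
        field_simp
      have h7 := BF.w_zpow_mem hL (i : ℤ)
      rw [zpow_natCast] at h7
      exact BF.Lgt_mul h5 h7
    rw [h1] at hmem
    exact (AddSubgroup.add_mem_cancel_right _ h2).1 hmem
  obtain ⟨N, hN⟩ := BF.Lgt_up hL hsum
  have h1 := hN N le_rfl
  -- apply lemma X
  have hq0 : (q : ℝ) ≠ 0 := by exact_mod_cast hL.q_pos.ne'
  have hinj : Set.InjOn (fun i : ℕ => (-(((N + i : ℕ) : ℝ) * (q * v B.y)), (N + i) * q))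
      (S : Set ℕ) := by
    intro i _ j _ hij
    have h2 := congrArg Prod.snd hij
    simp only at h2
    have h3 := Nat.eq_of_mul_eq_mul_right hL.q_pos h2
    omega
  refine B.lemX h B.y_pos (τ := 0)
    (S.image fun i : ℕ => (-(((N + i : ℕ) : ℝ) * (q * v B.y)), (N + i) * q)) (hSne.image _) ?_
    (fun a => algebraMap Λ Ω (Q.coeff (a.2 / q - N))) ?_ ?_
  · intro a ha
    obtain ⟨i, -, rfl⟩ := Finset.mem_image.1 ha
    have h4 := B.Γ.nsmul_mem hL.q_mem (N + i)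
    rw [nsmul_eq_mul] at h4
    refine ⟨B.Γ.neg_mem h4, ?_⟩
    push_cast
    ring
  · intro a ha
    obtain ⟨i, hi, rfl⟩ := Finset.mem_image.1 ha
    simp only [Nat.mul_div_cancel _ hL.q_pos, Nat.add_sub_cancel_left]
    exact BF.Un.const h (Finset.mem_filter.1 hi).2
  · rw [Finset.sum_image hinj]
    have h5 : B.w q ^ N * ∑ i ∈ S, algebraMap Λ Ω (Q.coeff i) * B.w q ^ i =
        ∑ i ∈ S, algebraMap Λ Ω (Q.coeff ((N + i) * q / q - N)) *
          (B.χ (-(((N + i : ℕ) : ℝ) * (q * v B.y))) * B.y ^ ((N + i) * q)) := by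
      rw [Finset.mul_sum]
      refine Finset.sum_congr rfl fun i _ => ?_
      rw [Nat.mul_div_cancel _ hL.q_pos, Nat.add_sub_cancel_left]
      have h6 := BF.w_zpow hL ((N + i : ℕ) : ℤ)
      rw [zpow_natCast, Int.cast_natCast, ← Nat.cast_mul, zpow_natCast] at h6
      rw [← h6, pow_add]
      ring
    rw [h5] at h1
    exact h1

/-- The T-step preserves regularity. -/
theorem BF.tstep_reg (h : Ctx0 ϖ v r) (c : Λ) (D : ℕ)
    {γ' : ℝ} (hγ' : γ' ∈ B.Γ ⊔ AddSubgroup.zmultiples (v B.y)) (h0 : 0 < γ') {a : Ω}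
    (ha : a ∈ B.radj B.y (B.w q) s) :
    (B.w q - algebraMap Λ Ω c) ^ D ≠ B.chi' B.y (B.w q) s γ' * a := by
  intro hD
  obtain ⟨a1, ha1, a2, ha2, ha20, hva2, rfl⟩ := ha
  have h1 : (B.w q - algebraMap Λ Ω c) ^ D * a2 = B.chi' B.y (B.w q) s γ' * a1 := by
    rw [hD]; field_simp
  have hA1 := BF.adj_mem_L hL ha1
  have hA2 := BF.adj_mem_L hL ha2
  obtain ⟨N, P, hP⟩ := BF.Lge_poly hL hA2
  have hw0 : B.w q ≠ 0 := div_ne_zero (pow_ne_zero _ B.y_ne) (B.χ_ne _ hL.q_mem)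
  have hwv : v (B.w q) = 0 := by
    rw [BF.w, v.map_div (pow_ne_zero _ B.y_ne) (B.χ_ne _ hL.q_mem), v.map_pow B.y_ne,
      B.χ_val _ hL.q_mem, sub_self]
  have hwN : ∀ N : ℕ, B.w q ^ N ∈ B.Lge := fun N => by
    simpa using BF.w_zpow_mem hL N
  have hwc : (B.w q - algebraMap Λ Ω c) ^ D ∈ B.Lge := by
    have h2 : (B.w q - algebraMap Λ Ω c) ∈ B.Lge :=
      AddSubgroup.sub_mem _ (by simpa using BF.w_zpow_mem hL 1) (BF.Lge_R (B.R.algebraMap_mem c))
    have h3 : ∀ D : ℕ, (B.w q - algebraMap Λ Ω c) ^ D ∈ B.Lge := by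
      intro D
      induction D with
      | zero => rw [pow_zero]; exact BF.Lge_R B.R.one_mem
      | succ D ih => rw [pow_succ]; exact BF.Lge_mul ih h2
    exact h3 D
  -- the reduction of `P` is not zero
  have hPne : P.map (IsLocalRing.residue Λ) ≠ 0 := by
    intro hP0
    have h2 : v (B.w q ^ N * a2) = 0 := by
      rw [v.map_mul (pow_ne_zero _ hw0) ha20, v.map_pow hw0, hwv, hva2, mul_zero, add_zero]
    have h3 : VPos v (aeval (B.w q) P) := by
      rw [aeval_def, eval₂_eq_sum, Polynomial.sum]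
      refine Finset.sum_induction _ (VPos v) (fun _ _ hx hy => hx.add hy) VPos.zero fun i _ => ?_
      refine VPos.mul ?_ ?_
      · rw [← h.mem_max, ← IsLocalRing.residue_eq_zero_iff, ← coeff_map, hP0, coeff_zero]
      · intro _
        rw [v.map_pow hw0, hwv, mul_zero]
    have h4 := (BF.Lgt_vpos hP).add h3
    rw [sub_add_cancel] at h4
    have h5 := h4 (mul_ne_zero (pow_ne_zero _ hw0) ha20)
    rw [h2] at h5
    exact lt_irrefl _ h5
  have hQne : ((X - C c) ^ D * P).map (IsLocalRing.residue Λ) ≠ 0 := by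
    rw [Polynomial.map_mul, Polynomial.map_pow, Polynomial.map_sub, map_X, map_C]
    exact mul_ne_zero (pow_ne_zero _ (X_sub_C_ne_zero _)) hPne
  refine BF.aeval_not_mem hL h hQne ?_
  have h2 : aeval (B.w q) ((X - C c) ^ D * P) =
      B.chi' B.y (B.w q) s γ' * (a1 * B.w q ^ N) -
        (B.w q ^ N * a2 - aeval (B.w q) P) * (B.w q - algebraMap Λ Ω c) ^ D := by
    rw [map_mul, map_pow, map_sub, aeval_X, aeval_C]
    linear_combination (B.w q ^ N) * h1
  rw [h2]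
  exact AddSubgroup.sub_mem _
    (BF.Lgt_mul ((BF.chi'_mem_L hL hγ').2 h0) (BF.Lge_mul hA1 (hwN N)))
    (BF.Lgt_mul hP hwc)

end

/-- The T0-step preserves regularity. -/
theorem BF.t0step_reg (h : Ctx0 ϖ v r) (B : BF ϖ v) {b : ℝ} (hb : b ∈ B.Γ) (hb0 : 0 < b)
    (hb1 : b < v B.y) (D : ℕ) {γ : ℝ} (hγ : γ ∈ B.Γ) (h0 : 0 < γ) {a : Ω}
    (ha : a ∈ locv v (Algebra.adjoin Λ ((B.R : Set Ω) ∪ {B.y / B.χ b}))) :
    (B.y / B.χ b) ^ D ≠ B.χ γ * a := by
  classical
  intro hD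
  obtain ⟨a1, ha1, a2, ha2, ha20, hva2, rfl⟩ := ha
  set y' := B.y / B.χ b with hy'
  have hχb := B.χ_ne b hb
  have hyy : B.y = y' * B.χ b := by rw [hy', div_mul_cancel₀ _ hχb]
  -- elements of the algebra, multiplied by a large monomial
  have hbn : ∀ n : ℕ, (n : ℝ) * b ∈ B.Γ := fun n => by
    rw [← nsmul_eq_mul]; exact B.Γ.nsmul_mem hb n
  have key : ∀ z ∈ Algebra.adjoin Λ ((B.R : Set Ω) ∪ {y'}),
      ∃ z0 ∈ B.R, ∃ z1, z1 ∈ Algebra.adjoin Λ ((B.R : Set Ω) ∪ {y'}) ∧ z = z0 + y' * z1 := by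
    intro z hz
    induction hz using Algebra.adjoin_induction with
    | mem x hx =>
      rcases hx with hx | rfl
      · exact ⟨x, hx, 0, Subalgebra.zero_mem _, by ring⟩
      · exact ⟨0, B.R.zero_mem, 1, Subalgebra.one_mem _, by ring⟩
    | algebraMap c => exact ⟨_, B.R.algebraMap_mem c, 0, Subalgebra.zero_mem _, by ring⟩
    | add x y _ _ hx hy =>
      obtain ⟨a, ha, b, hb, rfl⟩ := hx
      obtain ⟨c, hc, d, hd, rfl⟩ := hy
      exact ⟨a + c, B.R.add_mem ha hc, b + d, Subalgebra.add_mem _ hb hd, by ring⟩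
    | mul x y hx' hy' hx hy =>
      obtain ⟨a, ha, b, hb, rfl⟩ := hx
      obtain ⟨c, hc, d, hd, rfl⟩ := hy
      refine ⟨a * c, B.R.mul_mem ha hc, a * d + b * (c + y' * d), ?_, by ring⟩
      exact Subalgebra.add_mem _ (Subalgebra.mul_mem _
        (Algebra.subset_adjoin (Or.inl ha)) hd) (Subalgebra.mul_mem _ hb hy')
  have key2 : ∀ z ∈ Algebra.adjoin Λ ((B.R : Set Ω) ∪ {y'}), ∃ M0 : ℕ, ∀ M, M0 ≤ M →
      B.χ (M * b) * z ∈ B.R := by
    intro z hz
    induction hz using Algebra.adjoin_induction with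
    | mem x hx =>
      rcases hx with hx | rfl
      · exact ⟨0, fun M _ => B.R.mul_mem (B.χ_mem _ (hbn M)
          (mul_nonneg (Nat.cast_nonneg _) hb0.le)) hx⟩
      · refine ⟨1, fun M hM => ?_⟩
        obtain ⟨m, rfl⟩ : ∃ m, M = m + 1 := ⟨M - 1, by omega⟩
        have h1 : ((m + 1 : ℕ) : ℝ) * b = m * b + b := by push_cast; ring
        have h2 : B.χ (((m + 1 : ℕ) : ℝ) * b) * y' = B.χ (m * b) * B.y := by
          rw [h1, B.χ_add _ (hbn m) _ hb, hyy]; ring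
        rw [h2]
        exact B.R.mul_mem (B.χ_mem _ (hbn m) (mul_nonneg (Nat.cast_nonneg _) hb0.le)) B.y_mem
    | algebraMap c => exact ⟨0, fun M _ => B.R.mul_mem (B.χ_mem _ (hbn M)
          (mul_nonneg (Nat.cast_nonneg _) hb0.le)) (B.R.algebraMap_mem c)⟩
    | add x y _ _ hx hy =>
      obtain ⟨N, h1⟩ := hx
      obtain ⟨M, h2⟩ := hy
      refine ⟨max N M, fun K hK => ?_⟩
      rw [mul_add]
      exact B.R.add_mem (h1 K ((le_max_left _ _).trans hK)) (h2 K ((le_max_right _ _).trans hK))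
    | mul x y _ _ hx hy =>
      obtain ⟨N, h1⟩ := hx
      obtain ⟨M, h2⟩ := hy
      refine ⟨N + M, fun K hK => ?_⟩
      obtain ⟨j, rfl⟩ : ∃ j, K = (N + j) + M := ⟨K - (N + M), by omega⟩
      have h3 : ((N + j + M : ℕ) : ℝ) * b = (N + j : ℕ) * b + M * b := by push_cast; ring
      rw [h3, B.χ_add _ (hbn _) _ (hbn M)]
      have := B.R.mul_mem (h1 (N + j) (by omega)) (h2 M le_rfl)
      convert this using 1
      ring
  obtain ⟨r0, hr0, z1, hz1, h2⟩ := key a2 ha2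
  -- `r0` is a unit
  have hnn : ∀ z ∈ Algebra.adjoin Λ ((B.R : Set Ω) ∪ {y'}), v.Ge 0 z := by
    refine adjoin_nonneg h ?_
    rintro f (hf | rfl)
    · exact B.nonneg f hf
    · intro _
      rw [hy', v.map_div B.y_ne hχb, B.χ_val b hb]; linarith
  have hyv : VPos v y' := by
    intro _
    rw [hy', v.map_div B.y_ne hχb, B.χ_val b hb]; linarith
  have hr0u : B.Un r0 := by
    have h3 := val_add_vpos ha20 hva2 (hyv.mul (hnn z1 hz1)).neg
    have h4 : a2 + -(y' * z1) = r0 := by rw [h2]; ring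
    rw [h4] at h3
    exact ⟨hr0, h3.1, h3.2⟩
  obtain ⟨M1, hM1⟩ := key2 z1 hz1
  -- decompose `a1` to order `D + 1`
  have key3 : ∀ n : ℕ, ∀ z ∈ Algebra.adjoin Λ ((B.R : Set Ω) ∪ {y'}),
      ∃ e : ℕ → Ω, (∀ i, e i ∈ B.R) ∧ ∃ z' ∈ Algebra.adjoin Λ ((B.R : Set Ω) ∪ {y'}),
        z = ∑ i ∈ Finset.range n, e i * y' ^ i + y' ^ n * z' := by
    intro n
    induction n with
    | zero => intro z hz; exact ⟨0, fun _ => B.R.zero_mem, z, hz, by simp⟩
    | succ n ih =>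
      intro z hz
      obtain ⟨e, he, z', hz', h3⟩ := ih z hz
      obtain ⟨f0, hf0, z'', hz'', h4⟩ := key z' hz'
      refine ⟨fun i => if i < n then e i else f0, fun i => ?_, z'', hz'', ?_⟩
      · simp only
        split_ifs
        · exact he i
        · exact hf0
      · rw [Finset.sum_range_succ, h3, h4]
        have h5 : ∑ i ∈ Finset.range n, (if i < n then e i else f0) * y' ^ i =
            ∑ i ∈ Finset.range n, e i * y' ^ i :=
          Finset.sum_congr rfl fun i hi => by rw [if_pos (Finset.mem_range.1 hi)]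
        rw [h5]
        simp only [lt_irrefl, if_false]
        ring
  obtain ⟨e, he, z2, hz2, h3⟩ := key3 (D + 1) a1 ha1
  obtain ⟨M2, hM2⟩ := key2 z2 hz2
  -- the large exponent
  set M := D + 1 + (M1 + M2) with hM
  have h4 : y' ^ D * a2 = B.χ γ * a1 := by rw [hD]; field_simp
  -- `χ(M b) y'^i = χ((M - i) b) y^i`
  have hpow : ∀ i ≤ M, B.χ (M * b) * y' ^ i = B.χ ((M - i : ℕ) * b) * B.y ^ i := by
    intro i hi
    have h5 : (M : ℝ) * b = (M - i : ℕ) * b + i * b := by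
      rw [Nat.cast_sub hi]; ring
    rw [h5, B.χ_add _ (hbn _) _ (hbn i), B.χ_nsmul hb i, hyy, mul_pow]
    ring
  have hDM : D ≤ M := by omega
  refine B.lemX0 h hr0u (b := B.χ ((M1 + M2 : ℕ) * b) * z1 - B.χ γ * (B.χ ((M1 + M2 : ℕ) * b) * z2))
    ?_ (hbn (M - D)) (mul_nonneg (Nat.cast_nonneg _) hb0.le) D ?_
  · refine B.R.sub_mem (hM1 _ (by omega)) (B.R.mul_mem (B.χ_mem γ hγ h0.le) (hM2 _ (by omega)))
  · -- the remaining terms are in `χ((M - D) b) I`
    have h5 : B.y ^ D * (r0 * B.χ ((M - D : ℕ) * b) + B.y *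
        (B.χ ((M1 + M2 : ℕ) * b) * z1 - B.χ γ * (B.χ ((M1 + M2 : ℕ) * b) * z2))) =
        ∑ i ∈ Finset.range (D + 1), B.χ (γ + (M - i : ℕ) * b) * (e i * B.y ^ i) := by
      have h6 : B.χ (M * b) * (y' ^ D * a2) = B.χ (M * b) * (B.χ γ * a1) := by rw [h4]
      have e1 : B.χ (M * b) * (y' ^ D * a2) = B.y ^ D * (r0 * B.χ ((M - D : ℕ) * b)) +
          B.y ^ (D + 1) * (B.χ ((M1 + M2 : ℕ) * b) * z1) := by
        rw [h2]
        have h7 := hpow D hDM
        have h8 := hpow (D + 1) (by omega)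
        have h9 : M - (D + 1) = M1 + M2 := by omega
        rw [h9] at h8
        calc B.χ (M * b) * (y' ^ D * (r0 + y' * z1)) =
            (B.χ (M * b) * y' ^ D) * r0 + (B.χ (M * b) * y' ^ (D + 1)) * z1 := by ring
          _ = _ := by rw [h7, h8]; ring
      have e2 : B.χ (M * b) * (B.χ γ * a1) =
          ∑ i ∈ Finset.range (D + 1), B.χ (γ + (M - i : ℕ) * b) * (e i * B.y ^ i) +
          B.y ^ (D + 1) * (B.χ γ * (B.χ ((M1 + M2 : ℕ) * b) * z2)) := by
        rw [h3]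
        have h8 := hpow (D + 1) (by omega)
        have h9 : M - (D + 1) = M1 + M2 := by omega
        rw [h9] at h8
        have h10 : B.χ (M * b) * (B.χ γ * (∑ i ∈ Finset.range (D + 1), e i * y' ^ i +
            y' ^ (D + 1) * z2)) =
            ∑ i ∈ Finset.range (D + 1), B.χ γ * e i * (B.χ (M * b) * y' ^ i) +
              B.χ γ * ((B.χ (M * b) * y' ^ (D + 1)) * z2) := by
          rw [mul_add, mul_add, Finset.mul_sum, Finset.mul_sum]
          congr 1
          · exact Finset.sum_congr rfl fun i _ => by ring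
          · ring
        rw [h10, h8]
        congr 1
        · refine Finset.sum_congr rfl fun i hi => ?_
          rw [hpow i (by have := Finset.mem_range.1 hi; omega), B.χ_add γ hγ _ (hbn _)]
          ring
        · ring
      rw [e1, e2] at h6
      rw [pow_succ] at h6
      linear_combination h6
    rw [h5]
    refine Finset.sum_induction _ (RepAux.Hi B _) (fun _ _ hx hy => hx.add hy)
      (RepAux.Hi.zero B (hbn _)) fun i hi => ?_
    have hi' : i ≤ D := by have := Finset.mem_range.1 hi; omega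
    refine ⟨γ + (M - i : ℕ) * b, B.Γ.add_mem hγ (hbn _), ?_, e i * B.y ^ i,
      B.R.mul_mem (he i) (B.R.pow_mem B.y_mem i), rfl⟩
    have h6 : ((M - D : ℕ) : ℝ) * b ≤ (M - i : ℕ) * b := by
      refine mul_le_mul_of_nonneg_right ?_ hb0.le
      exact_mod_cast Nat.sub_le_sub_left hi' M
    linarith

end Pool.Agent.LUM
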