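import Pool.Agent.Lib.LUM.TReg
import Pool.Agent.Lib.LU1_h15.Lattice
import Pool.Agent.Lib.LUM.Mk

/-! # B4: existence of T-steps and T0-steps -/

set_option autoImplicit false
set_option linter.unusedSectionVars false

namespace Pool.Agent.LUM

open Pool.Agent.H15JM (RVal)
open Pool.Agent.LU1 (VPos LatData exists_s)
open Polynomial

universe u

variable {Λ Ω : Type u} [CommRing Λ] [IsDomain Λ] [IsDiscreteValuationRing Λ] [Field Ω]
  [Algebra Λ Ω] {ϖ : Λ} {v : RVal Ω} {r : ℕ}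

theorem IsTStep.latData {B B' : BF ϖ v} {q : ℕ} {c : Λ} {s : ℝ → ℤ → ℤ}
    (h : IsTStep B B' q c s) : LatData B.Γ (v B.y) q s :=
  ⟨B.y_pos, h.q_pos, h.q_mem, h.q_min, h.s_add, h.s_one⟩

/-- `y^q / χ(q v(y))` is not constant. -/
theorem BF.w_ne_const (h : Ctx0 ϖ v r) (B : BF ϖ v) {q : ℕ} (hq : 0 < q)
    (hqβ : (q : ℝ) * v B.y ∈ B.Γ) (c : Λ) (hc : IsUnit c) : B.w q - algebraMap Λ Ω c ≠ 0 := by
  intro h0
  have h1 : B.y ^ q = B.χ (q * v B.y) * algebraMap Λ Ω c := by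
    rw [sub_eq_zero, BF.w, div_eq_iff (B.χ_ne _ hqβ)] at h0
    rw [h0, mul_comm]
  have h2 : B.Rep (B.y ^ q) (q * 0) (q * 1) := B.rep_y.pow q
  have h3 : B.Mono (B.y ^ q) := by
    rw [h1]; exact (BF.Mono.χ hqβ).mul (BF.Mono.un (BF.Un.const h hc))
  have h4 := (BF.Rep.unique h h2 h3.rep).1
  rw [mul_zero, v.map_pow B.y_ne] at h4
  have h5 : 0 < (q : ℝ) * v B.y := mul_pos (by exact_mod_cast hq) B.y_pos
  linarith

/-- General construction from the data `q, c, s`. -/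
theorem BF.exists_tstep_c (h : Ctx0 ϖ v r) (B : BF ϖ v) {q : ℕ} {s : ℝ → ℤ → ℤ}
    (hL : LatData B.Γ (v B.y) q s) (c : Λ) (hc : VPos v (B.w q - algebraMap Λ Ω c)) :
    ∃ B' : BF ϖ v, IsTStep B B' q c s := by
  have hY := B.y_ne
  have hw : B.y ^ q = B.χ (q * v B.y) * B.w q := by
    rw [BF.w, mul_div_cancel₀ _ (B.χ_ne _ hL.q_mem)]
  have hw0 : B.w q ≠ 0 := BF.w_ne_zero hY hw
  have hvw : v (B.w q) = 0 := BF.v_w_zero hY hL hw
  have hc0 := h.isUnit_of hw0 hvw hc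
  have hne := B.w_ne_const h hL.q_pos hL.q_mem c hc0
  have hwR : B.w q ∈ B.radj B.y (B.w q) s := BF.w_mem_radj
  have hyR : B.w q - algebraMap Λ Ω c ∈ B.radj B.y (B.w q) s :=
    (B.radj B.y (B.w q) s).sub_mem hwR ((B.radj B.y (B.w q) s).algebraMap_mem c)
  obtain ⟨m, hm, hmΓ⟩ := B.full B.y B.y_ne
  have hpos : 0 < (m : ℝ) * v B.y := mul_pos (by exact_mod_cast hm) B.y_pos
  have hβ : v B.y ∈ B.Γ ⊔ AddSubgroup.zmultiples (v B.y) :=
    AddSubgroup.mem_sup_right (AddSubgroup.mem_zmultiples _)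
  obtain ⟨B', h1, h2, h3, h4⟩ := BF.exists_adjoin hY hL hw h (B.w q - algebraMap Λ Ω c) hne
    (hc hne) hyR
    ⟨c, m * v B.y, AddSubgroup.mem_sup_left hmΓ, hpos, 0, Subalgebra.zero_mem _, 1,
      Subalgebra.one_mem _, by rw [mul_zero, mul_one, zero_add]⟩
    (fun b hb => ⟨v B.y, hβ, B.y_pos, (B.w q) ^ (s 0 1) * b,
      Subalgebra.mul_mem _ (BF.wz_mem_radj hY hw hvw _) (BF.mem_radj hb),
      0, Subalgebra.zero_mem _, by
        rw [mul_zero, add_zero, ← mul_assoc]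
        congr 1
        exact BF.Y_eq hY hL hw⟩)
    (fun D γ' hγ' h0 a ha => BF.tstep_reg hL h c D hγ' h0 ha)
  refine ⟨B', ⟨hL.q_pos, hL.q_mem, hL.q_min, h1, hL.s_add, hL.s_one, hc0, h3, ?_, ?_⟩⟩
  · intro γ hγ l
    rw [h2]
    exact BF.chi'_eq hY hL hw hγ l
  · rw [h4, h1, h2]; rfl

/-- General construction from the data `q, s`. -/
theorem BF.exists_tstep_of (h : Ctx ϖ v r) (B : BF ϖ v) {q : ℕ} {s : ℝ → ℤ → ℤ}
    (hL : LatData B.Γ (v B.y) q s) : ∃ (B' : BF ϖ v) (c : Λ), IsTStep B B' q c s := by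
  have hY := B.y_ne
  have hw : B.y ^ q = B.χ (q * v B.y) * B.w q := by
    rw [BF.w, mul_div_cancel₀ _ (B.χ_ne _ hL.q_mem)]
  have hw0 : B.w q ≠ 0 := BF.w_ne_zero hY hw
  have hvw : v (B.w q) = 0 := BF.v_w_zero hY hL hw
  obtain ⟨c, hc⟩ := h.res (B.w q) hw0 hvw
  obtain ⟨B', h1⟩ := B.exists_tstep_c h.toCtx0 hL c hc
  exact ⟨B', c, h1⟩

/-- The lattice data of a T-step. -/
theorem BF.exists_latData (B : BF ϖ v) (S : Finset (ℝ × ℕ))
    (hS : ∀ a ∈ S, a.1 ∈ B.Γ) (ε : ℝ) (hε : ε = 1 ∨ ε = -1) :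
    ∃ (q : ℕ) (s : ℝ → ℤ → ℤ), LatData B.Γ (v B.y) q s ∧
      (∀ a ∈ S, 0 < ε * (a.1 + a.2 * v B.y) → 0 ≤ s a.1 a.2) ∧
      (q = 1 → ∀ γ ∈ B.Γ, ∀ l : ℤ, s γ l = l) := by
  classical
  have hex : ∃ m : ℕ, 0 < m ∧ (m : ℝ) * v B.y ∈ B.Γ := B.full B.y B.y_ne
  obtain ⟨s, hs, h1, h2⟩ := exists_s B.Γ B.fg (v B.y) B.y_pos (Nat.find hex)
    (Nat.find_spec hex).1 (Nat.find_spec hex).2
    (fun m hm hmΓ => Nat.find_min' hex ⟨hm, hmΓ⟩) S hS ε hε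
  exact ⟨_, s, hs, h1, h2⟩

theorem BF.exists_tstep (h : Ctx ϖ v r) (B : BF ϖ v) (S : Finset (ℝ × ℕ))
    (hS : ∀ a ∈ S, a.1 ∈ B.Γ) (ε : ℝ) (hε : ε = 1 ∨ ε = -1) :
    ∃ (B' : BF ϖ v) (q : ℕ) (c : Λ) (s : ℝ → ℤ → ℤ), IsTStep B B' q c s ∧
      (∀ a ∈ S, 0 < ε * (a.1 + a.2 * v B.y) → 0 ≤ s a.1 a.2) ∧
      (q = 1 → ∀ γ ∈ B.Γ, ∀ l : ℤ, s γ l = l) := by
  obtain ⟨q, s, hs, h1, h2⟩ := B.exists_latData S hS ε hε
  obtain ⟨B', c, h3⟩ := B.exists_tstep_of h hs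
  exact ⟨B', q, c, s, h3, h1, h2⟩

theorem BF.exists_t0step (h : Ctx0 ϖ v r) (B : BF ϖ v) {b : ℝ} (hb : b ∈ B.Γ) (h0 : 0 < b)
    (h1 : b < v B.y) : ∃ B' : BF ϖ v, IsT0Step B B' b := by
  have hb0 : 0 ≤ b := h0.le
  set y' := B.y / B.χ b with hy'
  set S : Set Ω := (B.R : Set Ω) ∪ {y'} with hS
  set R' := locv v (Algebra.adjoin Λ S) with hR'
  have hy0 : y' ≠ 0 := div_ne_zero B.y_ne (B.χ_ne b hb)
  have hyv : 0 < v y' := by
    rw [hy', v.map_div B.y_ne (B.χ_ne b hb), B.χ_val b hb]; linarith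
  have hRR : ∀ f ∈ B.R, f ∈ R' := fun f hf =>
    le_locv _ (Algebra.subset_adjoin (Or.inl hf))
  have hyR : y' ∈ R' := le_locv _ (Algebra.subset_adjoin (Or.inr rfl))
  have hyy : B.y = y' * B.χ b := by rw [hy', div_mul_cancel₀ _ (B.χ_ne b hb)]
  have H : Pre v B.Γ B.χ y' R' :=
    { full := B.full
      χ_ne := B.χ_ne
      χ_add := B.χ_add
      χ_val := B.χ_val
      y_ne := hy0
      y_pos := hyv
      nonneg := by
        refine locv_nonneg (adjoin_nonneg h ?_)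
        rintro f (hf | rfl)
        · exact B.nonneg f hf
        · intro _; exact hyv.le
      loc := fun f hf h0 h1 => locv_inv hf h0 h1
      χ_mem := fun γ hγ h0 => hRR _ (B.χ_mem γ hγ h0)
      y_mem := hyR }
  refine ⟨mkBF h H B.fg hR' ?_ ?_ ?_ B.pi_mem (hRR _ B.pi_un)
    (fun D γ hγ hγ0 a ha => B.t0step_reg h hb h0 h1 D hγ hγ0 ha),
    ⟨hb, h0, h1, rfl, rfl, rfl, rfl⟩⟩
  · rintro f (hf | rfl)
    · obtain ⟨c, hc, hcR⟩ := B.exists_const hf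
      obtain ⟨γ, hγ, h0, a, ha, e, he, h1⟩ := B.gen _ hcR hc
      refine ⟨c, γ, hγ, h0, a, hRR a ha, B.χ b * e,
        R'.mul_mem (hRR _ (B.χ_mem b hb hb0)) (hRR e he), ?_⟩
      rw [h1, ← mul_assoc y', ← hyy]
    · have := H.res_of_mm (H.mm_y R'.one_mem)
      rwa [mul_one] at this
  · obtain ⟨F0, hF0⟩ := B.fgen
    classical
    refine ⟨insert y' F0, le_antisymm ?_ ?_⟩
    · refine locv_adjoin_le ?_
      rintro f (hf | rfl)
      · have h1 : locv v (Algebra.adjoin Λ ((F0 : Set Ω) ∪ B.χ '' {γ | γ ∈ B.Γ ∧ 0 ≤ γ})) ≤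
            locv v (Algebra.adjoin Λ (((insert y' F0 : Finset Ω) : Set Ω) ∪
              B.χ '' {γ | γ ∈ B.Γ ∧ 0 ≤ γ})) := by
          refine locv_adjoin_le ?_
          rintro f (hf | hf)
          · exact le_locv _ (Algebra.subset_adjoin (Or.inl (by
              rw [Finset.coe_insert]; exact Or.inr hf)))
          · exact le_locv _ (Algebra.subset_adjoin (Or.inr hf))
        exact h1 (hF0 ▸ hf)
      · exact le_locv _ (Algebra.subset_adjoin (Or.inl (by simp)))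
    · refine locv_adjoin_le ?_
      rintro f (hf | ⟨γ, ⟨hγ, h0⟩, rfl⟩)
      · rw [Finset.coe_insert] at hf
        rcases hf with rfl | hf
        · exact hyR
        · refine hRR f ?_
          rw [hF0]
          exact le_locv _ (Algebra.subset_adjoin (Or.inl hf))
      · exact hRR _ (B.χ_mem γ hγ h0)
  · intro g
    exact isAlgebraic_of_le (fun f hf => hRR f hf) (B.alg g)

end Pool.Agent.LUM
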