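import Pool.Agent.Lib.LUM.WDefs
import Pool.Agent.Lib.LUM.Etale

/-! # U01: the rings of the class `U` have the maximal ideal generated by `ϖ`

Recipe (`EtU.dvl`, induction on the chain).  Base: `locv v C₀ = C₀` by `DVl.loc`.  Step `C' = locv C[θ]`:
`v θ ≥ 0` because `θ` is a root of a monic polynomial with coefficients of value `≥ 0`
(`LU1.ge_of_root`, see `Etale.lean`).  Choose `g ∈ C[X]` monic of LEAST degree with `VPos (g θ)` (it
exists: `f`).  If `S ∈ C[X]`, `deg S < deg g`, `VPos (S θ)`, then all coefficients of `S` have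
positive value, so `S = ϖ S₁` (otherwise drop the coefficients of positive value at the top, the
leading coefficient then has value 0, its inverse is in `C`: a monic polynomial of smaller degree).
So for `P ∈ C[X]` with `VPos (P θ)`: `P = g A + ϖ S₁` (division by the monic `g`).  Apply it to `f`:
`f = g h + ϖ s`; `f' = g' h + g h' + ϖ s'`, so `v (g' θ * h θ) = 0`, `v (h θ) = 0`, and
`g θ = - ϖ s θ / h θ ∈ ϖ C'`.  So `P θ = g θ A θ + ϖ S₁ θ ∈ ϖ C'`. Work with `C[X]` as `Polynomial C`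
(see `exists_aeval_of_mem_adjoin` in `EtDescB.lean`) and map to `Ω`. -/

set_option autoImplicit false
set_option linter.unusedSectionVars false
set_option linter.unusedVariables false

open Polynomial

namespace Pool.Agent.LUM

open Pool.Agent.H15JM (RVal)
open Pool.Agent.LU1 (VPos LatData val_add_vpos adj)

universe u

variable {Λ Ω : Type u} [CommRing Λ] [IsDomain Λ] [IsDiscreteValuationRing Λ] [Field Ω]
  [Algebra Λ Ω] {ϖ : Λ} {v : RVal Ω} {r : ℕ}

theorem DVl.bot (h : Ctx0 ϖ v r) : DVl ϖ v (⊥ : Subalgebra Λ Ω) where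
  nonneg := by
    intro x hx
    obtain ⟨c, rfl⟩ := Algebra.mem_bot.1 hx
    exact h.ge c
  loc := by
    intro x hx h0 h1
    obtain ⟨c, rfl⟩ := Algebra.mem_bot.1 hx
    obtain ⟨d, hd⟩ := (h.isUnit h0 h1).exists_right_inv
    have h2 : algebraMap Λ Ω c * algebraMap Λ Ω d = 1 := by rw [← map_mul, hd, map_one]
    rw [inv_eq_of_mul_eq_one_right h2]
    exact Algebra.mem_bot.2 ⟨d, rfl⟩
  pi := by
    intro x hx hv
    obtain ⟨c, rfl⟩ := Algebra.mem_bot.1 hx
    obtain ⟨d, rfl⟩ := h.pi_dvd.2 hv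
    exact ⟨algebraMap Λ Ω d, Algebra.mem_bot.2 ⟨d, rfl⟩, map_mul _ _ _⟩

theorem EtU.le {C₀ C : Subalgebra Λ Ω} (hC : EtU v C₀ C) : C₀ ≤ C := by
  induction hC with
  | base => exact le_locv _
  | step hC f hf hc θ h0 h1 h2 ih =>
    refine ih.trans ?_
    refine le_trans ?_ (le_locv _)
    intro x hx
    exact Algebra.subset_adjoin (Or.inl hx)

private theorem aeval_mem_adj (C : Subalgebra Λ Ω) (θ : Ω) (P : C[X]) :
    aeval θ P ∈ Algebra.adjoin Λ ((C : Set Ω) ∪ {θ}) := by
  rw [aeval_eq_sum_range]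
  refine Subalgebra.sum_mem _ fun i _ => ?_
  have h1 : (P.coeff i : Ω) ∈ Algebra.adjoin Λ ((C : Set Ω) ∪ {θ}) :=
    Algebra.subset_adjoin (Or.inl (P.coeff i).2)
  have h2 : θ ∈ Algebra.adjoin Λ ((C : Set Ω) ∪ {θ}) := Algebra.subset_adjoin (Or.inr rfl)
  have h3 : P.coeff i • θ ^ i = (P.coeff i : Ω) * θ ^ i := rfl
  rw [h3]
  exact Subalgebra.mul_mem _ h1 (Subalgebra.pow_mem _ h2 i)

/-- A polynomial whose coefficients have positive value is divisible by `ϖ`. -/
private theorem exists_pi_mul {C : Subalgebra Λ Ω} (hC : DVl ϖ v C) (S : C[X])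
    (hS : ∀ i, VPos v (S.coeff i : Ω)) :
    ∃ S₁ : C[X], S = Polynomial.C (algebraMap Λ C ϖ) * S₁ := by
  have h1 : ∀ i, ∃ d : C, S.coeff i = algebraMap Λ C ϖ * d := by
    intro i
    obtain ⟨y, hy, hxy⟩ := hC.pi _ (S.coeff i).2 (hS i)
    exact ⟨⟨y, hy⟩, Subtype.ext hxy⟩
  choose d hd using h1
  refine ⟨∑ i ∈ Finset.range (S.natDegree + 1), monomial i (d i), ?_⟩
  conv_lhs => rw [S.as_sum_range]
  rw [Finset.mul_sum]
  refine Finset.sum_congr rfl fun i _ => ?_
  rw [C_mul_monomial, ← hd]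

/-- Below the minimal degree, positive value forces positive coefficients. -/
private theorem coeff_vpos {C : Subalgebra Λ Ω} (hC : DVl ϖ v C) {θ : Ω} (hθ : v.Ge 0 θ) (n : ℕ)
    (hmin : ∀ m < n, ∀ g : C[X], g.Monic → g.natDegree = m → ¬ VPos v (aeval θ g)) :
    ∀ m ≤ n, ∀ S : C[X], S.degree < m → VPos v (aeval θ S) → ∀ i, VPos v (S.coeff i : Ω) := by
  intro m
  induction m with
  | zero =>
    intro _ S hS _ i
    have : S = 0 := by
      rw [← degree_eq_bot]
      by_contra hne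
      have h1 := degree_eq_natDegree (fun h => hne (by rw [h, degree_zero]) : S ≠ 0)
      rw [h1] at hS
      exact absurd hS (by simp)
    rw [this, coeff_zero]
    exact VPos.zero
  | succ m ih =>
    intro hm S hS hv
    have hp : v.Ge 0 (θ ^ m) := by
      intro h0
      rcases Nat.eq_zero_or_pos m with hi | hi
      · subst hi; rw [pow_zero, v.map_one]
      · have h1 : θ ≠ 0 := by
          rintro rfl
          rw [zero_pow hi.ne'] at h0
          exact h0 rfl
        rw [v.map_pow h1]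
        exact mul_nonneg (Nat.cast_nonneg _) (hθ h1)
    by_cases hc : VPos v (S.coeff m : Ω)
    · -- drop the top coefficient
      have h1 : VPos v (aeval θ (S - monomial m (S.coeff m))) := by
        rw [_root_.map_sub, aeval_monomial]
        exact hv.sub (hc.mul hp)
      have h2 : (S - monomial m (S.coeff m)).degree < m := by
        rw [Polynomial.degree_lt_iff_coeff_zero]
        intro k hk
        rw [coeff_sub, coeff_monomial]
        rcases hk.eq_or_lt with h3 | h3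
        · rw [if_pos h3, ← h3, sub_self]
        · rw [if_neg h3.ne, sub_zero]
          exact (Polynomial.degree_lt_iff_coeff_zero S (m + 1)).1 hS k h3
      intro i
      by_cases hi : i = m
      · rw [hi]; exact hc
      · have h3 := ih (by omega) _ h2 h1 i
        rw [coeff_sub, coeff_monomial, if_neg (fun h => hi h.symm), sub_zero] at h3
        exact h3
    · exfalso
      have hc0 : (S.coeff m : Ω) ≠ 0 := fun h0 => hc (by rw [h0]; exact VPos.zero)
      have hge := hC.nonneg _ (S.coeff m).2 hc0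
      have hv0 : v (S.coeff m : Ω) = 0 := by
        refine le_antisymm ?_ hge
        by_contra h3
        rw [not_le] at h3
        exact hc fun _ => h3
      have hinv := hC.loc _ (S.coeff m).2 hc0 hv0
      have hcm : (⟨_, hinv⟩ : C) * S.coeff m = 1 := Subtype.ext (inv_mul_cancel₀ hc0)
      have hcS : S.coeff m ≠ 0 := fun h0 => hc0 (by rw [h0]; rfl)
      have hdeg : S.natDegree = m := by
        apply le_antisymm
        · rw [natDegree_le_iff_coeff_eq_zero]
          intro k hk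
          exact (Polynomial.degree_lt_iff_coeff_zero S (m + 1)).1 hS k hk
        · exact le_natDegree_of_ne_zero hcS
      have hlc : S.leadingCoeff = S.coeff m := by rw [leadingCoeff, hdeg]
      have hmon : (Polynomial.C (⟨_, hinv⟩ : C) * S).Monic := by
        have h4 : (Polynomial.C (⟨_, hinv⟩ : C) * S).coeff m = 1 := by rw [coeff_C_mul, hcm]
        have h5 : (Polynomial.C (⟨_, hinv⟩ : C) * S).natDegree ≤ m :=
          (natDegree_C_mul_le _ _).trans hdeg.le
        exact monic_of_natDegree_le_of_coeff_eq_one m h5 h4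
      have hnd : (Polynomial.C (⟨_, hinv⟩ : C) * S).natDegree = m := by
        have h4 : (Polynomial.C (⟨_, hinv⟩ : C) * S).coeff m = 1 := by rw [coeff_C_mul, hcm]
        apply le_antisymm ((natDegree_C_mul_le _ _).trans hdeg.le)
        exact le_natDegree_of_ne_zero (by rw [h4]; exact one_ne_zero)
      refine hmin m (by omega) _ hmon hnd ?_
      rw [_root_.map_mul, aeval_C]
      exact VPos.mul' (hC.nonneg _ hinv) hv

private theorem dvl_step (h : Ctx0 ϖ v r) {C : Subalgebra Λ Ω} (hC : DVl ϖ v C) (f : Polynomial Ω)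
    (hf : f.Monic) (hc : ∀ i, f.coeff i ∈ C) (θ : Ω) (h0 : f.eval θ = 0)
    (h1 : f.derivative.eval θ ≠ 0) (h2 : v (f.derivative.eval θ) = 0) :
    DVl ϖ v (locv v (Algebra.adjoin Λ ((C : Set Ω) ∪ {θ}))) := by
  classical
  have hθ : v.Ge 0 θ := LU1.ge_of_root hf (fun i => hC.nonneg _ (hc i)) h0
  have hnn : ∀ x ∈ Algebra.adjoin Λ ((C : Set Ω) ∪ {θ}), v.Ge 0 x := by
    apply adjoin_nonneg h
    rintro x (hx | hx)
    · exact hC.nonneg x hx
    · rw [Set.mem_singleton_iff.1 hx]; exact hθ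
  obtain ⟨f0, hf0⟩ : ∃ f0 : C[X], f0.map (algebraMap C Ω) = f := by
    have h1 : f ∈ Polynomial.lifts (algebraMap C Ω) := by
      rw [Polynomial.lifts_iff_coeff_lifts]
      intro n
      exact ⟨⟨f.coeff n, hc n⟩, rfl⟩
    exact (Polynomial.mem_lifts f).1 h1
  have hinj : Function.Injective (algebraMap C Ω) := Subtype.val_injective
  have hf0m : f0.Monic := by
    rw [← hf0] at hf
    exact Polynomial.monic_of_injective hinj hf
  have hev : ∀ P : C[X], aeval θ P = (P.map (algebraMap C Ω)).eval θ := fun P => by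
    rw [eval_map, aeval_def]
  have hge : ∀ P : C[X], v.Ge 0 (aeval θ P) := fun P => hnn _ (aeval_mem_adj C θ P)
  have hf00 : aeval θ f0 = 0 := by rw [hev, hf0, h0]
  have hex : ∃ n, ∃ g : C[X], g.Monic ∧ g.natDegree = n ∧ VPos v (aeval θ g) :=
    ⟨_, f0, hf0m, rfl, by rw [hf00]; exact VPos.zero⟩
  obtain ⟨g, hgm, hgn, hgv⟩ := Nat.find_spec hex
  have hmin : ∀ m < Nat.find hex, ∀ g : C[X], g.Monic → g.natDegree = m → ¬ VPos v (aeval θ g) :=
    fun m hm g h3 h4 h5 => Nat.find_min hex hm ⟨g, h3, h4, h5⟩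
  -- division
  have hdiv : ∀ P : C[X], VPos v (aeval θ P) →
      ∃ A S₁ : C[X], P = g * A + Polynomial.C (algebraMap Λ C ϖ) * S₁ := by
    intro P hP
    have h3 : P %ₘ g + g * (P /ₘ g) = P := modByMonic_add_div P g
    have h4 : (P %ₘ g).degree < Nat.find hex := by
      have := degree_modByMonic_lt P hgm
      rwa [degree_eq_natDegree hgm.ne_zero, hgn] at this
    have h5 : VPos v (aeval θ (P %ₘ g)) := by
      have h7 : aeval θ (P %ₘ g) = aeval θ P - aeval θ g * aeval θ (P /ₘ g) := by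
        have h8 := congrArg (aeval θ) h3
        rw [_root_.map_add, _root_.map_mul] at h8
        rw [← h8]; ring
      rw [h7]
      exact hP.sub (hgv.mul (hge _))
    obtain ⟨S₁, hS₁⟩ := exists_pi_mul hC _ (coeff_vpos hC hθ _ hmin _ le_rfl _ h4 h5)
    refine ⟨P /ₘ g, S₁, ?_⟩
    rw [← hS₁, add_comm, h3]
  -- apply it to `f0`
  obtain ⟨H, s, hHs⟩ := hdiv f0 (by rw [hf00]; exact VPos.zero)
  have hpi : aeval θ (Polynomial.C (algebraMap Λ C ϖ) : C[X]) = algebraMap Λ Ω ϖ := by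
    rw [aeval_C]; rfl
  have hd := congrArg (fun P : C[X] => aeval θ (derivative P)) hHs
  simp only [derivative_mul, derivative_C, zero_mul, zero_add, _root_.map_add,
    _root_.map_mul, hpi] at hd
  have hd0 : aeval θ (derivative f0) = f.derivative.eval θ := by
    rw [hev, ← derivative_map, hf0]
  rw [hd0] at hd
  have hp := h.vpos_pi
  have h5 : VPos v (-(aeval θ g * aeval θ (derivative H)) -
      algebraMap Λ Ω ϖ * aeval θ (derivative s)) :=
    (hgv.mul (hge _)).neg.sub (hp.mul (hge _))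
  have h6 := val_add_vpos h1 h2 h5
  have h7 : f.derivative.eval θ + (-(aeval θ g * aeval θ (derivative H)) -
      algebraMap Λ Ω ϖ * aeval θ (derivative s)) = aeval θ (derivative g) * aeval θ H := by
    rw [hd]; ring
  rw [h7] at h6
  have hH0 : aeval θ H ≠ 0 := right_ne_zero_of_mul h6.1
  have hg0 : aeval θ (derivative g) ≠ 0 := left_ne_zero_of_mul h6.1
  have hvH : v (aeval θ H) = 0 := by
    have h8 := h6.2
    rw [v.map_mul hg0 hH0] at h8
    have h9 := hge (derivative g) hg0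
    have h10 := hge H hH0
    linarith
  have hfe := congrArg (aeval θ) hHs
  rw [hf00, _root_.map_add, _root_.map_mul, _root_.map_mul, hpi] at hfe
  have hgy : aeval θ g = algebraMap Λ Ω ϖ * (-(aeval θ s) / aeval θ H) := by
    rw [mul_div_assoc', eq_div_iff hH0]
    linear_combination -hfe
  have hyg : -(aeval θ s) / aeval θ H ∈ locv v (Algebra.adjoin Λ ((C : Set Ω) ∪ {θ})) :=
    ⟨_, Subalgebra.neg_mem _ (aeval_mem_adj C θ s), _, aeval_mem_adj C θ H, hH0, hvH, rfl⟩
  refine ⟨locv_nonneg hnn, fun x hx hx0 hx1 => locv_inv hx hx0 hx1, ?_⟩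
  rintro x ⟨a, ha, b, hb, hb0, hvb, rfl⟩ hv
  have hva : VPos v a := by
    have h8 : a = a / b * b := by rw [div_mul_cancel₀ _ hb0]
    rw [h8]
    exact hv.mul (hnn b hb)
  obtain ⟨P, hP⟩ := exists_aeval_of_mem_adjoin C θ a ha
  obtain ⟨A, S₁, hAS⟩ := hdiv P (by rw [hP]; exact hva)
  refine ⟨((-(aeval θ s) / aeval θ H) * aeval θ A + aeval θ S₁) / b, ?_, ?_⟩
  · rw [div_eq_mul_inv]
    refine Subalgebra.mul_mem _ (Subalgebra.add_mem _ (Subalgebra.mul_mem _ hyg
      (le_locv _ (aeval_mem_adj C θ A))) (le_locv _ (aeval_mem_adj C θ S₁))) ?_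
    exact locv_inv (le_locv _ hb) hb0 hvb
  · have h8 : a = algebraMap Λ Ω ϖ * ((-(aeval θ s) / aeval θ H) * aeval θ A + aeval θ S₁) := by
      rw [← hP, hAS, _root_.map_add, _root_.map_mul, _root_.map_mul, hpi, hgy]
      ring
    rw [← mul_div_assoc, ← h8]

theorem EtU.dvl (h : Ctx0 ϖ v r) {C₀ C : Subalgebra Λ Ω} (h0 : DVl ϖ v C₀) (hC : EtU v C₀ C) :
    DVl ϖ v C := by
  induction hC with
  | base =>
    have : locv v C₀ = C₀ := le_antisymm (locv_le le_rfl h0.loc) (le_locv _)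
    rw [this]
    exact h0
  | step hC f hf hc θ h1 h2 h3 ih => exact dvl_step h ih f hf hc θ h1 h2 h3

private theorem exists_unit (h : Ctx0 ϖ v r) {C : Subalgebra Λ Ω} (hC : DVl ϖ v C) (N : ℕ) :
    ∀ x ∈ C, x ≠ 0 → v x < N * v (algebraMap Λ Ω ϖ) →
      ∃ n : ℕ, ∃ u ∈ C, u ≠ 0 ∧ v u = 0 ∧ x = algebraMap Λ Ω ϖ ^ n * u := by
  induction N with
  | zero =>
    intro x hx h0 hlt
    have := hC.nonneg x hx h0
    rw [Nat.cast_zero, zero_mul] at hlt
    linarith
  | succ N ih =>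
    intro x hx h0 hlt
    rcases (hC.nonneg x hx h0).eq_or_lt with h1 | h1
    · exact ⟨0, x, hx, h0, h1.symm, by rw [pow_zero, one_mul]⟩
    · obtain ⟨y, hy, rfl⟩ := hC.pi x hx fun _ => h1
      have hy0 : y ≠ 0 := right_ne_zero_of_mul h0
      rw [v.map_mul h.pi_ne hy0, Nat.cast_succ] at hlt
      obtain ⟨n, u, hu, hu0, hvu, hyu⟩ := ih y hy hy0 (by linarith)
      exact ⟨n + 1, u, hu, hu0, hvu, by rw [hyu]; ring⟩

/-- Fractions of value `≥ 0` are in the ring. -/
theorem DVl.mem_of_div (h : Ctx0 ϖ v r) {C : Subalgebra Λ Ω} (hC : DVl ϖ v C) {a b : Ω}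
    (ha : a ∈ C) (hb : b ∈ C) (hb0 : b ≠ 0) (hv : v.Ge 0 (a / b)) : a / b ∈ C := by
  by_cases ha0 : a = 0
  · rw [ha0, zero_div]; exact C.zero_mem
  have hex : ∀ x ∈ C, x ≠ 0 → ∃ n : ℕ, ∃ u ∈ C, u ≠ 0 ∧ v u = 0 ∧ x = algebraMap Λ Ω ϖ ^ n * u := by
    intro x hx h0
    obtain ⟨N, hN⟩ := exists_nat_gt (v x / v (algebraMap Λ Ω ϖ))
    rw [div_lt_iff₀ h.pos] at hN
    exact exists_unit h hC N x hx h0 hN
  obtain ⟨m, w, hw, hw0, hvw, hwa⟩ := hex a ha ha0
  obtain ⟨n, u, hu, hu0, hvu, hub⟩ := hex b hb hb0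
  have hp0 := h.pi_ne
  have h1 := hv (div_ne_zero ha0 hb0)
  rw [v.map_div ha0 hb0, hwa, hub, v.map_mul (pow_ne_zero _ hp0) hw0,
    v.map_mul (pow_ne_zero _ hp0) hu0, v.map_pow hp0, v.map_pow hp0, hvw, hvu] at h1
  have h2 : (n : ℝ) ≤ m := by
    have h3 : (n : ℝ) * v (algebraMap Λ Ω ϖ) ≤ m * v (algebraMap Λ Ω ϖ) := by linarith
    exact le_of_mul_le_mul_right h3 h.pos
  have h3 : n ≤ m := by exact_mod_cast h2
  obtain ⟨k, rfl⟩ := Nat.exists_eq_add_of_le h3
  have h4 : a / b = algebraMap Λ Ω ϖ ^ k * (w * u⁻¹) := by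
    rw [hwa, hub, pow_add]
    field_simp
  rw [h4]
  refine C.mul_mem (C.pow_mem (C.algebraMap_mem ϖ) k) (C.mul_mem hw (hC.loc u hu hu0 hvu))

end Pool.Agent.LUM
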