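import Pool.Agent.Lib.LUM.U02
import Pool.Agent.Lib.LU1_h15.Etale

/-! # U03: separable polynomials for residues

Recipe (`exists_sep`).  Let `κ = C ⧸ M`, `M` the maximal ideal of the local ring `C` (`M` = elements
of positive value = `ϖ C`).  By `ResAlg` every element of `κ` is algebraic over `kk Λ`, so `κ` is
perfect.  The minimal polynomial over `κ` of the residue of `x` is separable; lift it to `C`.
`exists_res_henU`: apply it with `C = ⊥`: `g` splits in `Ω` (algebraically closed), `g x = ∏ (x - θ)`,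
so `VPos (x - θ)` for a root `θ`, `g' θ ≡ g' x` has value 0, so `θ` is in the class (`henU_sh`). -/

set_option autoImplicit false
set_option linter.unusedSectionVars false
set_option linter.unusedVariables false

open Polynomial

namespace Pool.Agent.LUM

open Pool.Agent.H15JM (RVal)
open Pool.Agent.LU1 (VPos LatData val_add_vpos adj ge_of_root)

universe u

variable {Λ Ω : Type u} [CommRing Λ] [IsDomain Λ] [IsDiscreteValuationRing Λ] [Field Ω]
  [Algebra Λ Ω] {ϖ : Λ} {v : RVal Ω} {r : ℕ}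

/-- The valuation ring of `v`. -/
private def oo (v : RVal Ω) : ValuationSubring Ω where
  carrier := {x | v.Ge 0 x}
  mul_mem' := by
    intro a b ha hb
    have := RVal.Ge.mul ha hb
    rw [add_zero] at this
    exact this
  one_mem' := fun _ => v.map_one.ge
  add_mem' := by
    intro a b ha hb
    exact RVal.Ge.add ha hb
  zero_mem' := RVal.Ge.zero
  neg_mem' := by
    intro a ha
    exact RVal.Ge.neg ha
  mem_or_inv_mem' := by
    intro x
    by_cases hx : x = 0
    · left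
      intro h
      exact absurd hx h
    · rcases le_total 0 (v x) with h | h
      · exact Or.inl fun _ => h
      · right
        intro _
        rw [v.map_inv hx]
        linarith

private theorem oo_vpos (x : oo v) :
    IsLocalRing.residue (oo v) x = 0 ↔ VPos v (x : Ω) := by
  rw [IsLocalRing.residue_eq_zero_iff, IsLocalRing.mem_maximalIdeal, mem_nonunits_iff]
  constructor
  · intro h h0
    have h1 : (0 : ℝ) ≤ v (x : Ω) := x.2 h0
    rcases h1.lt_or_eq with h2 | h2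
    · exact h2
    · exfalso
      apply h
      have h3 : (x : Ω)⁻¹ ∈ oo v := by
        change v.Ge 0 ((x : Ω)⁻¹)
        intro _
        rw [v.map_inv h0, ← h2, neg_zero]
      refine IsUnit.of_mul_eq_one ⟨(x : Ω)⁻¹, h3⟩ ?_
      apply Subtype.ext
      change (x : Ω) * (x : Ω)⁻¹ = 1
      exact mul_inv_cancel₀ h0
  · intro h hu
    obtain ⟨y, hy⟩ := hu.exists_right_inv
    have h1 : (x : Ω) * (y : Ω) = 1 := congrArg Subtype.val hy
    have h2 : (x : Ω) ≠ 0 := left_ne_zero_of_mul (h1 ▸ one_ne_zero)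
    have h3 : (y : Ω) ≠ 0 := right_ne_zero_of_mul (h1 ▸ one_ne_zero)
    have h4 := v.map_mul h2 h3
    rw [h1, v.map_one] at h4
    have h5 := h h2
    have h6 : (0 : ℝ) ≤ v (y : Ω) := y.2 h3
    linarith

private theorem oo_eval (G : Polynomial (oo v)) (x : oo v) :
    ((G.eval x : oo v) : Ω) = (G.map (algebraMap (oo v) Ω)).eval (x : Ω) := by
  rw [eval_map]
  exact (Polynomial.eval₂_at_apply (algebraMap (oo v) Ω) x).symm

private theorem oo_lift {f : Polynomial Ω} (hc : ∀ i, v.Ge 0 (f.coeff i)) :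
    ∃ G : Polynomial (oo v), G.map (algebraMap (oo v) Ω) = f := by
  have h1 : f ∈ Polynomial.lifts (algebraMap (oo v) Ω) := by
    rw [Polynomial.lifts_iff_coeff_lifts]
    intro n
    exact ⟨⟨f.coeff n, hc n⟩, rfl⟩
  exact (Polynomial.mem_lifts f).1 h1

private theorem sep_core {𝕜 : Type u} [Field 𝕜] (ρ : oo v →+* 𝕜)
    (hρs : Function.Surjective ρ) (hρ : ∀ x : oo v, ρ x = 0 ↔ VPos v (x : Ω))
    (h : Ctx0 ϖ v r) [PerfectField (kk Λ)] (hra : ResAlg Λ v)
    {C : Subalgebra Λ Ω} (hC : DVl ϖ v C) (x : oo v) :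
    ∃ g : Polynomial Ω, g.Monic ∧ (∀ i, g.coeff i ∈ C) ∧ VPos v (g.eval (x : Ω)) ∧
      g.derivative.eval (x : Ω) ≠ 0 ∧ v (g.derivative.eval (x : Ω)) = 0 := by
  classical
  have hu : ∀ y : oo v, ρ y ≠ 0 → (y : Ω) ≠ 0 ∧ v (y : Ω) = 0 := by
    intro y hy
    rw [Ne, hρ] at hy
    have h1 : (y : Ω) ≠ 0 := by
      intro h0
      apply hy
      rw [h0]
      exact LU1.VPos.zero
    refine ⟨h1, le_antisymm ?_ (y.2 h1)⟩
    by_contra h2
    rw [not_le] at h2
    exact hy fun _ => h2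
  let ι : C →+* oo v :=
    { toFun := fun c => ⟨(c : Ω), hC.nonneg c c.2⟩
      map_one' := rfl
      map_mul' := fun _ _ => rfl
      map_zero' := rfl
      map_add' := fun _ _ => rfl }
  have hιc : (algebraMap (oo v) Ω).comp ι = algebraMap C Ω := rfl
  let σ : C →+* 𝕜 := ρ.comp ι
  let τ : Λ →+* 𝕜 := σ.comp (algebraMap Λ C)
  have hτ : ∀ c : Λ, τ c = ρ ⟨algebraMap Λ Ω c, h.ge c⟩ := fun c => rfl
  let φ : kk Λ →+* 𝕜 := Ideal.Quotient.lift (IsLocalRing.maximalIdeal Λ) τ
    fun c hc => (hρ _).2 (h.mem_max.1 hc)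
  have hφ : ∀ c : Λ, φ (IsLocalRing.residue Λ c) = τ c := fun c => rfl
  let hA0 : Algebra (kk Λ) 𝕜 := φ.toAlgebra
  have hφa : algebraMap (kk Λ) 𝕜 = φ := rfl
  -- everything is algebraic
  have hA1 : Algebra.IsAlgebraic (kk Λ) 𝕜 := by
    refine ⟨fun z => ?_⟩
    obtain ⟨y, rfl⟩ := hρs z
    obtain ⟨P, hP, hv⟩ := hra (y : Ω) y.2
    refine ⟨P.map (IsLocalRing.residue Λ), (hP.map _).ne_zero, ?_⟩
    have h1 : ((eval₂ (ι.comp (algebraMap Λ C)) y P : oo v) : Ω) = aeval (y : Ω) P := by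
      change (algebraMap (oo v) Ω) _ = _
      rw [Polynomial.hom_eval₂]
      rfl
    rw [aeval_def, eval₂_map, hφa]
    change eval₂ (ρ.comp (ι.comp (algebraMap Λ C))) (ρ y) P = 0
    rw [← Polynomial.hom_eval₂, hρ, h1]
    exact hv
  -- the residue field of `C`
  let S : Subalgebra (kk Λ) 𝕜 :=
    { σ.range with
      algebraMap_mem' := by
        intro c
        obtain ⟨c, rfl⟩ := Ideal.Quotient.mk_surjective c
        exact ⟨algebraMap Λ C c, rfl⟩ }
  have hSm : ∀ z : 𝕜, z ∈ S ↔ ∃ c : C, σ c = z := fun z => Iff.rfl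
  let κ : IntermediateField (kk Λ) 𝕜 := S.toIntermediateField (by
    intro z hz
    obtain ⟨c, rfl⟩ := (hSm z).1 hz
    by_cases h0 : σ c = 0
    · rw [h0, inv_zero]
      exact S.zero_mem
    · have h1 := hu (ι c) h0
      have h2 : ((c : Ω))⁻¹ ∈ C := hC.loc _ c.2 h1.1 h1.2
      refine ⟨⟨_, h2⟩, ?_⟩
      refine eq_inv_of_mul_eq_one_left ?_
      rw [← map_mul, ← map_one σ]
      congr 1
      apply Subtype.ext
      change (c : Ω)⁻¹ * (c : Ω) = 1
      exact inv_mul_cancel₀ h1.1)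
  have hκm : ∀ z : 𝕜, z ∈ κ ↔ ∃ c : C, σ c = z := fun z => Iff.rfl
  let π : C →+* κ :=
    { toFun := fun c => ⟨σ c, (hκm _).2 ⟨c, rfl⟩⟩
      map_one' := Subtype.ext (map_one σ)
      map_mul' := fun a b => Subtype.ext (map_mul σ a b)
      map_zero' := Subtype.ext (map_zero σ)
      map_add' := fun a b => Subtype.ext (map_add σ a b) }
  have hπ : Function.Surjective π := by
    rintro ⟨z, hz⟩
    obtain ⟨c, rfl⟩ := (hκm z).1 hz
    exact ⟨c, rfl⟩
  have hπσ : (algebraMap κ 𝕜).comp π = σ := rfl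
  have hA2 : PerfectField κ := Algebra.IsAlgebraic.perfectField (kk Λ)
  have hA3 : Algebra.IsAlgebraic κ 𝕜 := Algebra.IsAlgebraic.tower_top (K := kk Λ) κ
  have hsep : (minpoly κ (ρ x)).Separable := Algebra.IsSeparable.isSeparable κ (ρ x)
  have hint : IsIntegral κ (ρ x) := (Algebra.IsAlgebraic.isAlgebraic (R := κ) (ρ x)).isIntegral
  obtain ⟨g0, hg0, -, hgm⟩ : ∃ g0 : Polynomial C, g0.map π = minpoly κ (ρ x) ∧
      g0.natDegree = (minpoly κ (ρ x)).natDegree ∧ g0.Monic := by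
    refine Polynomial.lifts_and_natDegree_eq_and_monic ?_ (minpoly.monic hint)
    rw [Polynomial.lifts_iff_coeff_lifts]
    intro i
    exact hπ _
  have hev : ∀ q : Polynomial C, ((((q.map ι).eval x : oo v)) : Ω) =
      (q.map (algebraMap C Ω)).eval (x : Ω) := by
    intro q
    rw [oo_eval, Polynomial.map_map, hιc]
  have hres : ∀ q : Polynomial C, ρ ((q.map ι).eval x) = aeval (ρ x) (q.map π) := by
    intro q
    rw [aeval_def, eval₂_map, hπσ, ← Polynomial.eval₂_at_apply, eval₂_map]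
  refine ⟨g0.map (algebraMap C Ω), hgm.map _, fun i => ?_, ?_, ?_⟩
  · rw [coeff_map]
    exact (g0.coeff i).2
  · rw [← hev, ← hρ, hres, hg0, minpoly.aeval]
  · have h1 : ρ ((g0.derivative.map ι).eval x) ≠ 0 := by
      rw [hres, ← derivative_map, hg0]
      exact hsep.aeval_derivative_ne_zero (minpoly.aeval _ _)
    have h2 := hu _ h1
    rw [hev, ← derivative_map] at h2
    exact h2

theorem exists_sep (h : Ctx0 ϖ v r) [PerfectField (kk Λ)] (hra : ResAlg Λ v)
    {C : Subalgebra Λ Ω} (hC : DVl ϖ v C) {x : Ω} (hx : v.Ge 0 x) :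
    ∃ g : Polynomial Ω, g.Monic ∧ (∀ i, g.coeff i ∈ C) ∧ VPos v (g.eval x) ∧
      g.derivative.eval x ≠ 0 ∧ v (g.derivative.eval x) = 0 :=
  sep_core (IsLocalRing.residue (oo v)) IsLocalRing.residue_surjective oo_vpos h hra hC
    (⟨x, hx⟩ : oo v)

/-- If `g ∈ C[X]` is monic, `VPos (g x)` and `v (g' x) = 0`, then `g` has a root congruent
to `x`. -/
theorem exists_root_near [IsAlgClosed Ω] {g : Polynomial Ω} (hg : g.Monic)
    (hc : ∀ i, v.Ge 0 (g.coeff i)) {x : Ω} (hx : v.Ge 0 x) (h0 : VPos v (g.eval x))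
    (h1 : g.derivative.eval x ≠ 0) (h2 : v (g.derivative.eval x) = 0) :
    ∃ θ : Ω, g.eval θ = 0 ∧ VPos v (x - θ) ∧ g.derivative.eval θ ≠ 0 ∧
      v (g.derivative.eval θ) = 0 := by
  classical
  obtain ⟨θ, hθ0, hθ1⟩ : ∃ θ : Ω, g.eval θ = 0 ∧ VPos v (x - θ) := by
    by_contra hcon
    push Not at hcon
    have h3 : ∀ m : Multiset Ω, (∀ θ ∈ m, g.eval θ = 0) →
        (m.map (x - ·)).prod ≠ 0 ∧ v ((m.map (x - ·)).prod) = 0 := by
      intro m
      induction m using Multiset.induction_on with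
      | empty =>
        intro _
        rw [Multiset.map_zero, Multiset.prod_zero]
        exact ⟨one_ne_zero, v.map_one⟩
      | cons a m ih =>
        intro hm
        obtain ⟨h4, h5⟩ := ih fun θ hθ => hm θ (Multiset.mem_cons_of_mem hθ)
        have h6 := hcon a (hm a (Multiset.mem_cons_self a m))
        have h7 : v.Ge 0 (x - a) := by
          rw [sub_eq_add_neg]
          exact RVal.Ge.add hx (RVal.Ge.neg (ge_of_root hg hc (hm a (Multiset.mem_cons_self a m))))
        have h8 : x - a ≠ 0 := by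
          intro h8
          apply h6
          rw [h8]
          exact LU1.VPos.zero
        have h9 : v (x - a) = 0 := by
          refine le_antisymm ?_ (h7 h8)
          by_contra h9
          rw [not_le] at h9
          exact h6 fun _ => h9
        rw [Multiset.map_cons, Multiset.prod_cons]
        refine ⟨mul_ne_zero h8 h4, ?_⟩
        rw [v.map_mul h8 h4, h5, h9, add_zero]
    obtain ⟨h4, h5⟩ := h3 g.roots fun θ hθ => (mem_roots'.1 hθ).2
    rw [← (IsAlgClosed.splits g).eval_eq_prod_roots_of_monic hg x] at h4 h5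
    have h6 := h0 h4
    rw [h5] at h6
    exact lt_irrefl _ h6
  refine ⟨θ, hθ0, hθ1, ?_⟩
  have hθ : v.Ge 0 θ := ge_of_root hg hc hθ0
  obtain ⟨G, rfl⟩ := oo_lift hc
  obtain ⟨e, he⟩ := Polynomial.sub_dvd_eval_sub (⟨x, hx⟩ : oo v) (⟨θ, hθ⟩ : oo v) G.derivative
  have h3 := congrArg (fun z : oo v => (z : Ω)) he
  change ((G.derivative.eval (⟨x, hx⟩ : oo v) : oo v) : Ω) -
    ((G.derivative.eval (⟨θ, hθ⟩ : oo v) : oo v) : Ω) = (x - θ) * (e : Ω) at h3
  rw [oo_eval, oo_eval, ← derivative_map] at h3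
  have h4 : (G.map (algebraMap (oo v) Ω)).derivative.eval θ =
      (G.map (algebraMap (oo v) Ω)).derivative.eval x + -((x - θ) * (e : Ω)) := by
    rw [← h3]
    change _ = _ + -(_ - (G.map (algebraMap (oo v) Ω)).derivative.eval θ)
    ring
  rw [h4]
  exact val_add_vpos h1 h2 (LU1.VPos.neg (LU1.VPos.mul hθ1 e.2))

theorem exists_res_henU (h : Ctx0 ϖ v r) [IsAlgClosed Ω] [PerfectField (kk Λ)]
    (hra : ResAlg Λ v) {x : Ω} (hx : v.Ge 0 x) : ∃ c ∈ henU Λ v, VPos v (x - c) := by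
  obtain ⟨g, hg, hc, h0, h1, h2⟩ := exists_sep h hra (DVl.bot h) hx
  obtain ⟨θ, hθ0, hθ1, hθ2, hθ3⟩ :=
    exists_root_near hg (fun i => (DVl.bot h).nonneg _ (hc i)) hx h0 h1 h2
  refine ⟨θ, henU_sh g hg (fun i => ?_) θ hθ0 hθ2 hθ3, hθ1⟩
  exact (bot_le : (⊥ : Subalgebra Λ Ω) ≤ henU Λ v) (hc i)

end Pool.Agent.LUM
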