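import Pool.Agent.Lib.LUM.U03
import Pool.Agent.Lib.LUM.Etale

/-! # U05: the closed base as a ring

Recipe: take `Λ' = ↥(henU Λ v)` with its instances, `ϖ' = ⟨algebraMap ϖ, _⟩`.  Discrete valuation ring:
`henU_dvl` and `v` real: every nonzero element is `ϖ^n` times a unit
(`IsDiscreteValuationRing.ofHasUnitMulPowIrreducibleFactorization`); `ϖ'` is irreducible (values).
`Ctx ϖ' v r`: `ge`, `pos` clear; `trdeg`: `Λ'/Λ` is algebraic (`henU_alg`) and injective
(`Algebra.trdeg_add_eq` / `Algebra.IsAlgebraic.trdeg_le`...: `trdeg Λ Ω = trdeg Λ' Ω`); `rank` the same;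
`res` is `exists_res_henU`.
`IsAlgClosed (kk Λ')`: `IsAlgClosed.of_exists_root`: lift a monic irreducible polynomial to a monic
polynomial over `Λ'`, take a root in `Ω` (its value is `≥ 0`), and the residue of the root.
`CharP (kk Λ') p`: `algebraMap` of residue fields is injective, or `(p : Λ')` is in the maximal ideal.
`sh`: `henU_sh`, in terms of polynomials over `Λ'`. -/

set_option autoImplicit false
set_option linter.unusedSectionVars false
set_option linter.unusedVariables false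

open Polynomial

namespace Pool.Agent.LUM

open Pool.Agent.H15JM (RVal)
open Pool.Agent.LU1 (VPos LatData val_add_vpos adj)

universe u

variable {Λ Ω : Type u} [CommRing Λ] [IsDomain Λ] [IsDiscreteValuationRing Λ] [Field Ω]
  [Algebra Λ Ω] {ϖ : Λ} {v : RVal Ω} {r : ℕ}

private theorem exists_unit' (h : Ctx0 ϖ v r) {C : Subalgebra Λ Ω} (hC : DVl ϖ v C) (N : ℕ) :
    ∀ x ∈ C, x ≠ 0 → v x < N * v (algebraMap Λ Ω ϖ) →
      ∃ n : ℕ, ∃ u ∈ C, u ≠ 0 ∧ v u = 0 ∧ x = algebraMap Λ Ω ϖ ^ n * u := by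
  induction N with
  | zero =>
    intro x hx h0 hlt
    have := hC.nonneg x hx h0
    rw [Nat.cast_zero, zero_mul] at hlt
    linarith
  | succ N ih =>
    intro x hx h0 hlt
    rcases (hC.nonneg x hx h0).eq_or_lt with h1 | h1
    · exact ⟨0, x, hx, h0, h1.symm, by rw [pow_zero, one_mul]⟩
    · obtain ⟨y, hy, rfl⟩ := hC.pi x hx fun _ => h1
      have hy0 : y ≠ 0 := right_ne_zero_of_mul h0
      rw [v.map_mul h.pi_ne hy0, Nat.cast_succ] at hlt
      obtain ⟨n, u, hu, hu0, hvu, hyu⟩ := ih y hy hy0 (by linarith)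
      exact ⟨n + 1, u, hu, hu0, hvu, by rw [hyu]; ring⟩

/-- Elements of value zero are units. -/
private theorem isUnit_of_val {C : Subalgebra Λ Ω} (hC : DVl ϖ v C) {x : C} (h0 : (x : Ω) ≠ 0)
    (h1 : v (x : Ω) = 0) : IsUnit x := by
  refine IsUnit.of_mul_eq_one (⟨_, hC.loc _ x.2 h0 h1⟩ : C) ?_
  exact Subtype.ext (mul_inv_cancel₀ h0)

private theorem irr_pi (h : Ctx0 ϖ v r) {C : Subalgebra Λ Ω} (hC : DVl ϖ v C) :
    Irreducible (algebraMap Λ C ϖ) := by
  have hpi : ((algebraMap Λ C ϖ : C) : Ω) = algebraMap Λ Ω ϖ := rfl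
  constructor
  · intro hu
    obtain ⟨d, hd⟩ := hu.exists_right_inv
    have h1 : algebraMap Λ Ω ϖ * (d : Ω) = 1 := by
      rw [← hpi, ← Subalgebra.coe_mul, hd]; rfl
    have h2 : (d : Ω) ≠ 0 := right_ne_zero_of_mul (h1 ▸ one_ne_zero)
    have h3 := v.map_mul h.pi_ne h2
    rw [h1, v.map_one] at h3
    have h4 := hC.nonneg _ d.2 h2
    have h5 := h.pos
    linarith
  · intro a b hab
    have h1 : algebraMap Λ Ω ϖ = (a : Ω) * (b : Ω) := by
      rw [← hpi, hab]; rfl
    have h2 : (a : Ω) * (b : Ω) ≠ 0 := h1 ▸ h.pi_ne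
    have ha := left_ne_zero_of_mul h2
    have hb := right_ne_zero_of_mul h2
    rcases (hC.nonneg _ a.2 ha).eq_or_lt with h3 | h3
    · exact Or.inl (isUnit_of_val hC ha h3.symm)
    · right
      obtain ⟨y, hy, hay⟩ := hC.pi _ a.2 fun _ => h3
      rw [hay] at h1
      have h4 : y * (b : Ω) = 1 := by
        have h5 : algebraMap Λ Ω ϖ * (y * (b : Ω)) = algebraMap Λ Ω ϖ * 1 := by
          rw [mul_one, ← mul_assoc]; exact h1.symm
        exact mul_left_cancel₀ h.pi_ne h5
      refine IsUnit.of_mul_eq_one (⟨y, hy⟩ : C) (Subtype.ext ?_)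
      rw [Subalgebra.coe_mul, mul_comm]
      exact h4

private theorem dvr_of (h : Ctx0 ϖ v r) {C : Subalgebra Λ Ω} (hC : DVl ϖ v C) :
    IsDiscreteValuationRing C := by
  apply IsDiscreteValuationRing.ofHasUnitMulPowIrreducibleFactorization
  refine ⟨algebraMap Λ C ϖ, irr_pi h hC, ?_⟩
  intro x hx
  have hx0 : (x : Ω) ≠ 0 := fun h0 => hx (Subtype.ext h0)
  obtain ⟨N, hN⟩ := exists_nat_gt (v (x : Ω) / v (algebraMap Λ Ω ϖ))
  rw [div_lt_iff₀ h.pos] at hN
  obtain ⟨n, u, hu, hu0, hvu, hxu⟩ := exists_unit' h hC N x x.2 hx0 hN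
  refine ⟨n, (isUnit_of_val (x := (⟨u, hu⟩ : C)) hC hu0 hvu).unit, Subtype.ext ?_⟩
  rw [hxu]
  rfl

/-- The valuation ring as a subalgebra. -/
private def ovS' (v : RVal Ω) (hΛ : ∀ c : Λ, v.Ge 0 (algebraMap Λ Ω c)) : Subalgebra Λ Ω where
  carrier := {x | v.Ge 0 x}
  mul_mem' := by
    intro a b ha hb
    simpa using ha.mul hb
  add_mem' := fun ha hb => ha.add hb
  algebraMap_mem' := hΛ

theorem exists_clo (h : Ctx0 ϖ v r) [IsAlgClosed Ω] [PerfectField (kk Λ)] (hra : ResAlg Λ v)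
    (p : ℕ) (hp : p.Prime) [CharP (kk Λ) p] :
    ∃ (Λ' : Type u) (_ : CommRing Λ') (_ : IsDomain Λ') (_ : IsDiscreteValuationRing Λ')
      (_ : Algebra Λ Λ') (_ : Algebra Λ' Ω) (_ : IsScalarTower Λ Λ' Ω) (ϖ' : Λ'),
      Clo ϖ ϖ' v r ∧ IsAlgClosed (kk Λ') ∧ CharP (kk Λ') p ∧
      ∀ f : Polynomial Λ', f.Monic → ∀ θ : Ω, aeval θ f = 0 → aeval θ (derivative f) ≠ 0 →
        v (aeval θ (derivative f)) = 0 → ∃ c : Λ', algebraMap Λ' Ω c = θ := by
  have hD : DVl ϖ v (henU Λ v) := henU_dvl h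
  haveI hdvr : IsDiscreteValuationRing (henU Λ v) := dvr_of h hD
  have hinj : Function.Injective (algebraMap (henU Λ v) Ω) := Subtype.val_injective
  have htr : Algebra.trdeg (henU Λ v) Ω = r := by
    haveI : FaithfulSMul Λ (henU Λ v) := by
      rw [faithfulSMul_iff_algebraMap_injective]
      intro a b hab
      exact h.inj (congrArg (fun z : henU Λ v => (z : Ω)) hab)
    haveI : FaithfulSMul (henU Λ v) Ω := by
      rw [faithfulSMul_iff_algebraMap_injective]
      exact hinj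
    haveI : Algebra.IsAlgebraic Λ (henU Λ v) := by
      refine ⟨fun x => ?_⟩
      have h4 := henU_alg x.1 x.2
      rw [← Subalgebra.coe_val, isAlgebraic_algHom_iff (henU Λ v).val Subtype.val_injective] at h4
      exact h4
    have h1 := trdeg_add_eq Λ (henU Λ v) (A := Ω)
    rw [trdeg_eq_zero, zero_add, h.trdeg] at h1
    exact h1
  have hc0 : Ctx0 (algebraMap Λ (henU Λ v) ϖ) v r :=
    { irr := irr_pi h hD
      inj := hinj
      ge := fun c => hD.nonneg _ c.2
      pos := h.pos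
      rpos := h.rpos
      trdeg := htr
      rank := h.rank }
  have hc1 : Ctx (algebraMap Λ (henU Λ v) ϖ) v r :=
    { toCtx0 := hc0
      res := by
        intro g hg hv
        obtain ⟨c, hc, hvc⟩ := exists_res_henU h hra (x := g) (fun _ => hv.ge)
        exact ⟨⟨c, hc⟩, hvc⟩ }
  refine ⟨henU Λ v, inferInstance, inferInstance, hdvr, inferInstance, inferInstance, inferInstance,
    algebraMap Λ (henU Λ v) ϖ, ⟨h, hc1, rfl, fun x => ⟨fun hx => ⟨⟨x, hx⟩, rfl⟩, ?_⟩, hra⟩, ?_, ?_, ?_⟩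
  · rintro ⟨c, rfl⟩
    exact c.2
  · -- the residue field is algebraically closed
    refine IsAlgClosed.of_exists_root _ fun q hq hirr => ?_
    have hql : q ∈ Polynomial.lifts (IsLocalRing.residue (henU Λ v)) := by
      rw [Polynomial.lifts_iff_coeff_lifts]
      intro n
      exact IsLocalRing.residue_surjective _
    obtain ⟨P, hPq, hPd, hPm⟩ := Polynomial.lifts_and_natDegree_eq_and_monic hql hq
    have hPmΩ : (P.map (algebraMap (henU Λ v) Ω)).Monic := hPm.map _
    obtain ⟨θ, hθ⟩ := IsAlgClosed.exists_root (P.map (algebraMap (henU Λ v) Ω)) (by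
      intro h0
      rw [Polynomial.degree_map_eq_of_injective hinj] at h0
      have h1 : P.natDegree = 0 := natDegree_eq_of_degree_eq_some h0
      rw [hPd] at h1
      have h2 := hirr.natDegree_pos
      omega)
    have hcoef : ∀ i, v.Ge 0 ((P.map (algebraMap (henU Λ v) Ω)).coeff i) := fun i => by
      rw [coeff_map]
      exact hD.nonneg _ (P.coeff i).2
    have hθ0 : v.Ge 0 θ := LU1.ge_of_root hPmΩ hcoef hθ
    obtain ⟨c, hc, hvc⟩ := exists_res_henU h hra hθ0
    obtain ⟨e, he, hexp⟩ := taylor_mem (R := ovS' v fun c => h.ge c)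
      (f := P.map (algebraMap (henU Λ v) Ω)) hcoef (x := θ) (t := c - θ) hθ0
      (show v.Ge 0 (c - θ) by
        have := hvc.neg
        rw [neg_sub] at this
        exact this.ge)
    have hvc' : VPos v (c - θ) := by
      have := hvc.neg
      rwa [neg_sub] at this
    have hder : v.Ge 0 ((P.map (algebraMap (henU Λ v) Ω)).derivative.eval θ) :=
      eval_mem (R := ovS' v fun c => h.ge c) (derivative_coeff_mem
        (R := ovS' v fun c => h.ge c) hcoef) hθ0
    have hPc : VPos v ((P.map (algebraMap (henU Λ v) Ω)).eval c) := by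
      rw [add_sub_cancel] at hexp
      rw [hexp, show (P.map (algebraMap (henU Λ v) Ω)).eval θ = 0 from hθ, zero_add]
      refine (VPos.mul' hder hvc').add ?_
      have h5 : e * (c - θ) ^ 2 = (c - θ) * (e * (c - θ)) := by ring
      rw [h5]
      refine hvc'.mul ?_
      have h6 := (show v.Ge 0 e from he).mul hvc'.ge
      rwa [add_zero] at h6
    refine ⟨IsLocalRing.residue _ ⟨c, hc⟩, ?_⟩
    rw [← hPq, eval_map]
    have h7 : P.eval₂ (IsLocalRing.residue (henU Λ v)) (IsLocalRing.residue (henU Λ v) ⟨c, hc⟩) =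
        IsLocalRing.residue (henU Λ v) (P.eval ⟨c, hc⟩) := Polynomial.eval₂_at_apply _ _
    rw [h7, IsLocalRing.residue_eq_zero_iff, hc0.mem_max]
    have h8 : (P.map (algebraMap (henU Λ v) Ω)).eval c =
        algebraMap (henU Λ v) Ω (P.eval ⟨c, hc⟩) := by
      rw [eval_map]
      exact Polynomial.eval₂_at_apply (algebraMap (henU Λ v) Ω) ⟨c, hc⟩
    rw [← h8]
    exact hPc
  · -- the characteristic
    rw [CharP.charP_iff_prime_eq_zero hp]
    have h1 : ((p : ℕ) : kk Λ) = 0 := CharP.cast_eq_zero _ _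
    have h2 : ((p : ℕ) : kk Λ) = IsLocalRing.residue Λ (p : Λ) := (map_natCast _ _).symm
    rw [h2, IsLocalRing.residue_eq_zero_iff, h.mem_max] at h1
    have h3 : ((p : ℕ) : kk (henU Λ v)) = IsLocalRing.residue (henU Λ v) (p : henU Λ v) :=
      (map_natCast _ _).symm
    rw [h3, IsLocalRing.residue_eq_zero_iff, hc0.mem_max, map_natCast]
    rw [map_natCast] at h1
    exact h1
  · intro f hf θ h0 h1 h2
    have he : ∀ g : Polynomial (henU Λ v), aeval θ g = (g.map (algebraMap (henU Λ v) Ω)).eval θ :=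
      fun g => by rw [eval_map, aeval_def]
    rw [he] at h0
    rw [he, ← derivative_map] at h1 h2
    have h3 := henU_sh (f.map (algebraMap (henU Λ v) Ω)) (hf.map _) (fun i => by
      rw [coeff_map]; exact (f.coeff i).2) θ h0 h1 h2
    exact ⟨⟨θ, h3⟩, rfl⟩

end Pool.Agent.LUM
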